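import Pool.Agent.P.MP_3bd355_an.Pk.Na01

/-! Attainment when `h(z₁)` is small. -/

open Set Filter Metric Complex InnerProductSpace
open scoped Topology ComplexConjugate Real

namespace Pool.Agent.P.MP_3bd355_an

def S_ATT : Prop := ∀ (r A B : ℝ) (z₀ : ℂ), 0 < r → z₀ ∈ ann r → A ≤ 0 → 0 < B →
  ∃ ε : ℝ, 0 < ε ∧ ∀ z₁ ∈ ann r, 0 < hf r A B z₁ → hf r A B z₁ < ε →
    ∃ u : ℂ → EReal, Adm r A B z₁ u ∧ u z₀ = Msup r A B z₀ z₁

namespace AttP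

/-- A nonnegative superharmonic function that is large on a continuum is not small. -/
theorem low (hL : S_BL) {r ρ c₁ : ℝ} (h0 : 0 < r) {z₀ : ℂ} (m0 : z₀ ∈ ann r) {C : Set ℂ}
    (hC : IsCompact C) (hρ : 0 < ρ) (hb : ∀ p ∈ C, ball p ρ ⊆ ann r) (hc : 0 < c₁) :
    ∃ c > 0, ∀ p ∈ C, ∀ (f : ℂ → ℝ) (K : Set ℂ), Sub (fun z => -f z) (ann r) →
      (∀ z ∈ ann r, 0 ≤ f z) → IsCompact K → IsPreconnected K → p ∈ K → ¬ K ⊆ ball p ρ →
      (∀ q ∈ K, q ∈ ball p ρ → c₁ ≤ f q) → c ≤ f z₀ := by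
  obtain ⟨δ, d0, d1, hδ⟩ := hL (1 / 2) (by norm_num)
  have hs : 0 < δ * ρ := mul_pos d0 hρ
  have hsρ : δ * ρ ≤ ρ := by nlinarith
  have key : ∃ c > 0, ∀ p ∈ C, ∀ f : ℂ → ℝ, Sub (fun z => -f z) (ann r) →
      (∀ z ∈ ann r, 0 ≤ f z) → (∀ z ∈ ball p (δ * ρ), c₁ / 2 ≤ f z) → c ≤ f z₀ := by
    refine hC.induction_on (p := fun S => ∃ c > 0, ∀ p ∈ S, ∀ f : ℂ → ℝ,
      Sub (fun z => -f z) (ann r) → (∀ z ∈ ann r, 0 ≤ f z) →
        (∀ z ∈ ball p (δ * ρ), c₁ / 2 ≤ f z) → c ≤ f z₀)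
      ⟨1, one_pos, fun _ hz => hz.elim⟩
      (fun s t hst ⟨c, c0, h⟩ => ⟨c, c0, fun p hp => h p (hst hp)⟩)
      (fun s t ⟨c, c0, h⟩ ⟨d, d0, h'⟩ => ⟨min c d, lt_min c0 d0, fun p hp f a1 a2 a3 => hp.elim
        (fun hp => (min_le_left _ _).trans (h p hp f a1 a2 a3))
        fun hp => (min_le_right _ _).trans (h' p hp f a1 a2 a3)⟩) fun q hq => ?_
    obtain ⟨ε, hε, m, hm, h⟩ := Na01P.spread (isOpen_ann r) (preconn_ann h0)
      (fun f => (Sub (fun z => -f z) (ann r) ∧ ∀ z ∈ ann r, 0 ≤ f z) ∧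
        ∀ z ∈ ball q (δ * ρ / 2), c₁ / 2 ≤ f z) (fun f hf => hf.1) (hb q hq (mem_ball_self hρ))
      (half_pos hs) (half_pos hc) (fun f hf => hf.2) z₀ m0
    refine ⟨ball q (δ * ρ / 2), nhdsWithin_le_nhds (ball_mem_nhds q (half_pos hs)), m, hm,
      fun p hp f a1 a2 a3 => h f ⟨⟨a1, a2⟩, fun z hz => a3 z ?_⟩ z₀ (mem_ball_self hε)⟩
    rw [mem_ball] at *
    linarith [dist_triangle_right z p q]
  obtain ⟨c, c0, h⟩ := key
  refine ⟨c, c0, fun p hp f K a1 a2 a3 a4 a5 a6 a7 => h p hp f a1 a2 fun z hz => ?_⟩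
  have hz' : z ∈ ball p ρ := ball_subset_ball hsρ hz
  by_cases hK : z ∈ K
  · linarith [a7 z hK hz']
  have hW : IsOpen (ball p ρ \ K) := isOpen_ball.sdiff a3.isClosed
  have hs' : ball p ρ \ K ⊆ ann r := sdiff_subset.trans (hb p hp)
  have k := hδ p ρ K (ball p ρ \ K) ∅ (fun z => c₁⁻¹ * -f z + 1) hρ a3 a4 a5 a6 hW
    disjoint_sdiff_right finite_empty
    (((a1.mono hs').const_mul (inv_nonneg.2 hc.le)).add_harm fun _ _ => harmonicAt_const 1)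
    (fun y hy => by nlinarith [mul_nonneg (inv_nonneg.2 hc.le) (a2 y (hs' hy))])
    (fun q hq hq' _ => ?_) z ⟨hz', hK⟩ hz
  · have : c₁⁻¹ * (c₁ / 2) ≤ c₁⁻¹ * f z := by
      rw [show c₁⁻¹ * (c₁ / 2) = 1 / 2 by field_simp]
      linarith
    exact le_of_mul_le_mul_left this (inv_pos.2 hc)
  · have hqK : q ∈ K := by
      by_contra hn
      exact (hW.frontier_eq ▸ hq).2 ⟨hq', hn⟩
    refine (((LS.of_usc a1.1 (hb p hp hq') hs').const_mul (inv_nonneg.2 hc.le)).add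
      (LS.of_tendsto tendsto_const_nhds le_rfl)).le ?_
    have := mul_le_mul_of_nonneg_left (a7 q hqK hq') (inv_nonneg.2 hc.le)
    rw [inv_mul_cancel₀ hc.ne'] at this
    linarith

theorem hf_anti {r A B : ℝ} (h0 : 0 < r) (h1 : r < 1) (hAB : A ≤ B) {z w : ℂ} (hz : z ≠ 0)
    (h : ‖z‖ ≤ ‖w‖) : hf r A B w ≤ hf r A B z := by
  have := div_le_div_of_nonpos_of_le (Real.log_neg h0 h1).le
    (mul_le_mul_of_nonneg_left (Real.log_le_log (norm_pos_iff.2 hz) h) (sub_nonneg.2 hAB))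
  unfold hf
  linarith

theorem harm_ann {r : ℝ} (h0 : 0 < r) (A B : ℝ) : HarmonicOnNhd (hf r A B) (ann r) :=
  fun _ hz => hf_harm r A B (norm_pos_iff.1 (h0.trans hz.1))

theorem lower (hG : S_GEN) {r A B : ℝ} {z₀ z₁ : ℂ} (h : CH r A B z₀ z₁) (hh : 0 < hf r A B z₁) :
    ((hf r A B z₀ - hf r A B z₁ : ℝ) : EReal) ≤ Msup r A B z₀ z₁ := by
  have hp : 0 < ‖z₁‖ := h.r0.trans h.m1.1
  have hI : (1 : ℝ) ≤ ‖z₁‖⁻¹ := (one_le_inv₀ hp).2 h.m1.2.le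
  have hc : Continuous fun s : ℝ => (s : ℂ) * z₁ := by fun_prop
  have hn : ∀ s ∈ Icc (1 : ℝ) ‖z₁‖⁻¹, ‖(s : ℂ) * z₁‖ = s * ‖z₁‖ := fun s hs => by
    rw [norm_mul, norm_real, Real.norm_of_nonneg (zero_le_one.trans hs.1)]
  have h2 : ∀ s ∈ Icc (1 : ℝ) ‖z₁‖⁻¹, ‖z₁‖ ≤ ‖(s : ℂ) * z₁‖ := fun s hs => by
    rw [hn s hs]; nlinarith [hs.1]
  have ht : ∀ p : ℂ, p ≠ 0 → LS (fun z => hf r A B z - hf r A B z₁) (ann r) p (hf r A B p) :=
    fun p hp => LS.of_tendsto ((((harm_diff (hf_harm r A B hp)).continuousAt.tendsto).sub_const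
      _).mono_left nhdsWithin_le_nhds) (by linarith)
  refine hG r A B z₀ z₁ ((fun s : ℝ => (s : ℂ) * z₁) '' Icc 1 ‖z₁‖⁻¹)
    (fun z => hf r A B z - hf r A B z₁) h.r0 h.m0 h.m1 h.A0
    ⟨isCompact_Icc.image hc, isPreconnected_Icc.image _ hc.continuousOn, ?_,
      ⟨1, ⟨le_rfl, hI⟩, by simp⟩, ⟨_, ⟨_, ⟨hI, le_rfl⟩, rfl⟩, ?_⟩,
      (Sub.of_harm (harm_ann h.r0 A B)).sub_harm fun _ _ => harmonicAt_const _, ?_,
      fun p hp => ?_, fun p hp => ?_, ∅, finite_empty, ?_⟩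
  · rintro _ ⟨s, hs, rfl⟩
    refine ⟨h.m1.1.le.trans (h2 s hs), ?_⟩
    rw [hn s hs]
    exact (le_div_iff₀ hp).1 (by simpa using hs.2)
  · rw [hn _ ⟨hI, le_rfl⟩, inv_mul_cancel₀ hp.ne']
  · rintro _ ⟨s, hs, rfl⟩ -
    exact sub_nonpos.2 (hf_anti h.r0 h.r1 (h.A0.trans h.B0.le) (norm_pos_iff.1 hp) (h2 s hs))
  · exact (ht p (norm_pos_iff.1 (hp ▸ one_pos))).le (hf_outer r A B hp).le
  · exact (ht p (norm_pos_iff.1 (hp ▸ h.r0))).le (hf_inner h.r0 h.r1 A B hp).le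
  · rintro _ ⟨s, hs, rfl⟩ e
    exact absurd (h.m1.1.trans_le (h2 s hs)) e.not_gt

theorem sup_of {r A B : ℝ} (h0 : 0 < r) {u : ℂ → ℝ} (hu : Sub u (ann r)) :
    Sub (fun z => -(hf r A B z - u z)) (ann r) :=
  (hu.sub_harm (harm_ann h0 A B)).congr fun _ _ => neg_sub _ _

theorem strict (hL : S_BL) (hM : S_MREAL) {r A B : ℝ} {z₀ z₁ : ℂ} (h : CH r A B z₀ z₁)
    (hh : 0 < hf r A B z₁) : Msup r A B z₀ z₁ < (hf r A B z₀ : EReal) := by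
  obtain ⟨m, hm, -, -, ha⟩ := hM r A B z₀ z₁ h
  obtain ⟨ρ, hρ, hb⟩ := Metric.eventually_nhds_iff_ball.1 (((harm_diff
    (harm_ann h.r0 A B _ h.m1)).continuousAt.eventually (lt_mem_nhds (half_lt_self hh))).and
      ((isOpen_ann r).mem_nhds h.m1))
  obtain ⟨c, c0, hc⟩ := low hL h.r0 h.m0 (isCompact_singleton (x := z₁)) hρ
    (fun p hp y hy => (hb y (hp ▸ hy)).2) (half_pos hh)
  obtain ⟨u, γ, hu, hl⟩ := ha c c0
  have g := hu.gc h.r0 h.r1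
  have := hc z₁ rfl (fun z => hf r A B z - u z) _ (sup_of h.r0 hu.sh)
    (fun z hz => sub_nonneg.2 (hu.sh.le_hf h.r0 h.r1 hu.outer hu.inner z hz).1) g.cpt g.conn g.mem
    (fun hs => g.out.elim fun p hp => (hb p (hs hp.1)).2.2.ne hp.2)
    fun q hq hq' => by linarith [(hb q hq').1, g.le q hq (hb q hq').2]
  rw [hm, EReal.coe_lt_coe_iff]
  linarith

end AttP

open AttP

theorem att (hL : S_BL) (hM : S_MREAL) (hG : S_GEN) (hC : S_CRIT1) (hS : S_MAIN2) : S_ATT := by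
  intro r A B z₀ h0 m0 hA hB
  have h1 : r < 1 := m0.1.trans m0.2
  have nr : ∀ t : ℝ, 0 < t → ‖(t : ℂ)‖ = t := fun t ht => by
    rw [norm_real, Real.norm_eq_abs, abs_of_pos ht]
  obtain ⟨δ, d0, d1, d2⟩ : ∃ δ > 0, r + 3 * δ < 1 ∧ B / 2 ≤ hf r A B ((r + 3 * δ : ℝ) : ℂ) := by
    have t1 : Tendsto (fun δ : ℝ => r + 3 * δ) (𝓝[>] 0) (𝓝 r) := by
      have : Continuous fun δ : ℝ => r + 3 * δ := by fun_prop
      simpa using (this.tendsto 0).mono_left (nhdsWithin_le_nhds (s := Ioi 0))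
    have t2 := ((harm_diff (hf_harm r A B (ofReal_ne_zero.2 h0.ne'))).continuousAt.tendsto.comp
      (continuous_ofReal.tendsto r)).comp t1
    rw [hf_inner h0 h1 A B (nr r h0)] at t2
    exact (eventually_mem_nhdsWithin.and ((t1.eventually (gt_mem_nhds h1)).and
      (t2.eventually (le_mem_nhds (half_lt_self hB))))).exists
  have big : ∀ z : ℂ, r ≤ ‖z‖ → ‖z‖ ≤ r + 3 * δ → B / 2 ≤ hf r A B z := fun z a1 a2 =>
    d2.trans (hf_anti h0 h1 (hA.trans hB.le) (norm_pos_iff.1 (h0.trans_le a1))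
      (by rwa [nr _ (by linarith)]))
  have nb : ∀ p ∈ sphere (0 : ℂ) (r + 2 * δ), ∀ y ∈ ball p δ, r + δ < ‖y‖ ∧ ‖y‖ < r + 3 * δ :=
    fun p hp y hy => by
      have a1 := abs_lt.1 ((abs_norm_sub_norm_le y p).trans_lt (by rwa [← dist_eq_norm]))
      rw [mem_sphere_zero_iff_norm.1 hp] at a1
      constructor <;> linarith [a1.1, a1.2]
  obtain ⟨c, c0, hc⟩ := low hL h0 m0 (isCompact_sphere 0 (r + 2 * δ)) d0
    (fun p hp y hy => ⟨by linarith [(nb p hp y hy).1], by linarith [(nb p hp y hy).2]⟩)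
    (half_pos hB)
  obtain ⟨e, e0, e1⟩ : ∃ e > 0, 0 < hf r A B z₀ → e ≤ hf r A B z₀ := by
    by_cases h : 0 < hf r A B z₀
    · exact ⟨_, h, fun _ => le_rfl⟩
    · exact ⟨1, one_pos, fun h' => absurd h' h⟩
  refine ⟨min e (min c (B / 2)), lt_min e0 (lt_min c0 (half_pos hB)), fun z₁ m1 hh hs => ?_⟩
  rw [lt_min_iff, lt_min_iff] at hs
  have hch : CH r A B z₀ z₁ := ⟨h0, h1, m0, m1, hA, hB⟩
  have lo := lower hG hch hh
  have hne : Msup r A B z₀ z₁ ≠ 0 := by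
    rcases lt_or_ge 0 (hf r A B z₀) with h | h
    · refine (lt_of_lt_of_le ?_ lo).ne'
      exact_mod_cast (by linarith [e1 h, hs.1] : 0 < hf r A B z₀ - hf r A B z₁)
    · exact ((strict hL hM hch hh).trans_le (by exact_mod_cast h)).ne
  obtain ⟨⟨a, b, c', κ, v, g, k1, k2⟩, k3, -⟩ := hS r A B z₀ z₁ h0 m0 m1 hA hh (Or.inr (Or.inr hne))
  refine ⟨_, (k3 a b c' κ v g k1).2.1 fun t ht => ?_, k2⟩
  obtain ⟨q1, q2, q3, -⟩ := hC r A B z₀ z₁ a b c' κ v g hch k1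
  refine (q3 t ht).1.lt_of_ne fun e => ?_
  have hz : r + 3 * δ < ‖z₁‖ := not_le.1 fun h => (big z₁ m1.1.le h).not_gt hs.2.2
  have hK : IsPreconnected (κ '' Icc 0 1) := isPreconnected_Icc.image _ k1.cont
  obtain ⟨p, hp, hp'⟩ := hK.intermediate_value ⟨t, ht, rfl⟩ ⟨0, ⟨le_rfl, zero_le_one⟩, k1.start⟩
    continuous_norm.continuousOn (show r + 2 * δ ∈ Icc ‖κ t‖ ‖z₁‖ from
      ⟨by linarith, by linarith⟩)
  have hp2 := mem_sphere_zero_iff_norm.2 hp'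
  have := hc p hp2 (fun z => hf r A B z - v z) _ (sup_of h0 q1)
    (fun z hz => sub_nonneg.2 (q1.le_hf h0 h1 (fun p hp => LS.of_tendsto (k1.v_outer p hp) le_rfl)
      (fun p _ => LS.of_eventually (eventually_nhdsWithin_of_forall fun z hz => (q2 z hz).2))
      z hz).1) (isCompact_Icc.image_of_continuousOn k1.cont) hK hp
    (fun hs => by linarith [(nb p hp2 _ (hs ⟨t, ht, rfl⟩)).1])
    fun q hq hq' => by
      have a1 := nb p hp2 q hq'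
      rw [k1.v_zero q ⟨by linarith [a1.1], by linarith [a1.2]⟩ hq, sub_zero]
      exact big q (by linarith [a1.1]) a1.2.le
  rw [← k2, EReal.coe_le_coe_iff] at lo
  linarith [hs.2.1]

end Pool.Agent.P.MP_3bd355_an
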