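import Pool.Agent.P.MP_3bd355_an.Stmts

/-! The starting point lies on the free boundary. -/

open Set Filter Metric Complex InnerProductSpace
open scoped Topology ComplexConjugate Real

namespace Pool.Agent.P.MP_3bd355_an

namespace Arc2P

theorem right_mem {a b : ℝ} (hab : a ≠ b) {S : Set ℝ} (hS : IsClosed S)
    (h : ∀ x ∈ uIcc a b, x ≠ b → x ∈ S) : b ∈ S := by
  have h1 : b ∈ closure (uIoo a b) := by
    rw [closure_uIoo hab]; exact right_mem_uIcc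
  exact hS.closure_subset_iff.2
    (fun x hx => h x (uIoo_subset_uIcc_self hx) fun e => right_notMem_uIoo (e ▸ hx)) h1

/-- The first point of a curve in the closure of an open set. -/
theorem first {c : ℝ → ℂ} (hc : Continuous c) {W : Set ℂ} (hW : IsOpen W) {a b : ℝ}
    (ha : c a ∉ closure W) (hb : c b ∈ closure W) :
    ∃ t ∈ uIcc a b, t ≠ a ∧ c t ∈ closure W ∧ (∀ s ∈ uIcc a t, c s ∉ W) ∧
      ∀ s ∈ uIcc a t, c s ∈ closure W → s = t := by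
  have hK : IsCompact (uIcc a b ∩ c ⁻¹' closure W) :=
    isCompact_uIcc.inter_right (isClosed_closure.preimage hc)
  obtain ⟨t, ht, hm⟩ := hK.exists_isMinOn ⟨b, right_mem_uIcc, hb⟩
    (f := fun s => |s - a|) (by fun_prop)
  have hne : t ≠ a := fun e => ha (e ▸ ht.2)
  have key : ∀ s ∈ uIcc a t, c s ∈ closure W → s = t := fun s hs hs' => by
    have h1 : |t - a| ≤ |s - a| := hm ⟨uIcc_subset_uIcc_left ht.1 hs, hs'⟩
    rcases mem_uIcc.1 hs with h2 | h2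
    · rw [abs_of_nonneg (by linarith), abs_of_nonneg (by linarith)] at h1
      linarith
    · rw [abs_of_nonpos (by linarith), abs_of_nonpos (by linarith)] at h1
      linarith
  have h3 : ∀ s ∈ uIcc a t, s ≠ t → c s ∉ W := fun s hs hst h => hst (key s hs (subset_closure h))
  refine ⟨t, ht.1, hne, ht.2, fun s hs => ?_, key⟩
  by_cases e : s = t
  · rw [e]
    exact right_mem (S := c ⁻¹' Wᶜ) hne.symm (hW.isClosed_compl.preimage hc) h3
  · exact h3 s hs e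

/-- The lower half circle. -/
noncomputable def lc (ρ s : ℝ) : ℂ := ⟨s, -√(ρ ^ 2 - s ^ 2)⟩

theorem continuous_lc (ρ : ℝ) : Continuous (lc ρ) := by
  have : lc ρ = fun s : ℝ => (s : ℂ) + ((-√(ρ ^ 2 - s ^ 2) : ℝ) : ℂ) * I := by
    ext s; apply Complex.ext <;> simp [lc]
  rw [this]; fun_prop

theorem norm_lc {ρ s : ℝ} (hρ : 0 ≤ ρ) (hs : |s| ≤ ρ) : ‖lc ρ s‖ = ρ := by
  have h1 : 0 ≤ ρ ^ 2 - s ^ 2 := by nlinarith [sq_abs s, abs_nonneg s]
  rw [← sq_eq_sq₀ (norm_nonneg _) hρ, Complex.sq_norm, normSq_apply]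
  simp only [lc]
  nlinarith [Real.mul_self_sqrt h1]

theorem lc_self {q : ℂ} (hq : q.im ≤ 0) : lc ‖q‖ q.re = q := by
  refine Complex.ext rfl ?_
  have : ‖q‖ ^ 2 - q.re ^ 2 = q.im ^ 2 := by
    rw [Complex.sq_norm, normSq_apply]; ring
  simp only [lc]
  rw [this, Real.sqrt_sq_eq_abs, abs_of_nonpos hq, neg_neg]

theorem real_mem {r : ℝ} {L : Set ℂ} (h : Cont r L) {z : ℂ} (hz : z ∈ ann r) (hi : z.im = 0) :
    z ∈ closure (main r L) := by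
  have h1 : Tendsto (fun τ : ℝ => z + τ * I) (𝓝[>] 0) (𝓝 z) := by
    have : Continuous fun τ : ℝ => z + τ * I := by fun_prop
    simpa using (this.tendsto 0).mono_left nhdsWithin_le_nhds
  refine mem_closure_of_tendsto h1 ?_
  filter_upwards [h1.eventually ((isOpen_ann r).mem_nhds hz), self_mem_nhdsWithin] with τ a b
  exact h.upper_sub ⟨a, by simpa [upH, hi] using b⟩

end Arc2P

open Arc2P in
theorem arc2 (h : S_ARC1) : S_ARC2 := by
  intro r L φ F hh s0 s1 Fb G T y q hU hP hB hM hT hq hqL hS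
  have hC := hU.cont
  by_cases hcl : q ∈ closure (main r L)
  · exact hB.surj hU hP hcl (Or.inl hqL)
  exfalso
  have hρ := norm_nonneg q
  have hqe := lc_self (hC.low q hqL)
  have hc := continuous_lc ‖q‖
  have hann : ∀ s, |s| ≤ ‖q‖ → lc ‖q‖ s ∈ ann r := fun s hs => by
    show r < _ ∧ _ < 1
    rw [norm_lc hρ hs]; exact hq
  -- the two arcs
  have arc : ∀ b, |b| = ‖q‖ → ∃ t ∈ uIcc q.re b, t ≠ q.re ∧ lc ‖q‖ t ∈ ann r ∧
      (∃ x ∈ Icc s0 s1, Fb x = lc ‖q‖ t) ∧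
      (∀ z ∈ lc ‖q‖ '' uIcc q.re t, z ∈ cann r ∧ z ∉ main r L ∧ z ∉ Ex r L ∧ z.im ≤ 0) ∧
      ∀ s ∈ uIcc q.re t, lc ‖q‖ s ∈ closure (main r L) → s = t := fun b hb => by
    have hsub : ∀ s ∈ uIcc q.re b, |s| ≤ ‖q‖ := fun s hs => by
      have h1 := abs_le.1 (abs_re_le_norm q)
      have h2 := abs_le.1 hb.le
      rcases mem_uIcc.1 hs with h3 | h3 <;> exact abs_le.2 ⟨by linarith, by linarith⟩
    obtain ⟨t, a1, a2, a3, a4, a5⟩ := first hc hC.isOpen_main (a := q.re) (b := b)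
      (by rwa [hqe]) (real_mem hC (hann b hb.le) (by simp [lc, ← hb, sq_abs]))
    have ht := hann t (hsub t a1)
    refine ⟨t, a1, a2, ht, hB.surj hU hP a3 (Or.inl ?_), ?_, a5⟩
    · have h1 : lc ‖q‖ t ∈ frontier (main r L) := by
        rw [hC.isOpen_main.frontier_eq]
        exact ⟨a3, a4 t right_mem_uIcc⟩
      rcases (hC.frontier_sub h1).2.2 with h2 | h2 | h2
      · exact h2
      · exact absurd h2.1 ht.1.ne'
      · exact absurd h2 ht.2.ne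
    · rintro _ ⟨s, hs, rfl⟩
      have h1 := hann s (hsub s (uIcc_subset_uIcc_left a1 hs))
      exact ⟨ann_sub_cann r h1, a4 s hs, fun h2 => h1.1.ne' h2.1,
        neg_nonpos.2 (Real.sqrt_nonneg _)⟩
  obtain ⟨t₁, a1, a2, a3, ⟨y₁, hy₁, e₁⟩, a4, a5⟩ := arc ‖q‖ (abs_of_nonneg hρ)
  obtain ⟨t₂, b1, b2, b3, ⟨x₂, hx₂, e₂⟩, b4, -⟩ := arc (-‖q‖) (by rw [abs_neg, abs_of_nonneg hρ])
  have hre := abs_le.1 (abs_re_le_norm q)
  rw [uIcc_of_le hre.2] at a1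
  rw [uIcc_of_ge hre.1] at b1
  have hqm : ∀ t, q ∈ lc ‖q‖ '' uIcc q.re t := fun t => ⟨_, left_mem_uIcc, hqe⟩
  have hS₁ : SHp r L Fb s0 s1 (Fb y₁) T := by
    intro L' c1 c2 c3 c4 c5 x hx hx1
    rcases hS (L' ∪ lc ‖q‖ '' uIcc q.re t₁) (c1.union (isCompact_uIcc.image hc))
      (c2.union _ c4 ⟨t₁, right_mem_uIcc, e₁.symm⟩ (isPreconnected_uIcc.image _ hc.continuousOn))
      (fun z hz => hz.elim (c3 z) (a4 z)) (Or.inr (hqm _)) (c5.mono fun z hz => ⟨Or.inl hz.1, hz.2⟩)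
      x hx hx1 with h1 | ⟨s, hs, h1⟩
    · exact h1
    · have := a5 s hs (h1 ▸ frontier_subset_closure (hB.mem hU x).1)
      rw [← h1, this, ← e₁]; exact c4
  obtain ⟨y₀, hA, -⟩ := h r L φ F hh s0 s1 Fb G T y y₁ hU hP hB hM hT hy₁ (e₁ ▸ a3) hS₁
  obtain ⟨x, hx, e₃⟩ := hA.cover x₂ hx₂ (e₂ ▸ b3.2.ne)
  have hI : uIcc y₁ y₀ ⊆ Icc s0 s1 := uIcc_subset_Icc hA.m1 hA.m0
  have hL : ∀ s ∈ uIcc y₁ y₀, Fb s ∈ L := by
    have h1 : ∀ s ∈ uIcc y₁ y₀, s ≠ y₀ → Fb s ∈ L := fun s hs hne =>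
      (hB.mem_LA hU hP (hI hs)).2.2 (hA.lt1 s hs hne).ne
    intro s hs
    by_cases e : s = y₀
    · rw [e]
      exact right_mem (S := Fb ⁻¹' L) hA.ne (hC.cpt.isClosed.preimage hB.cont) h1
    · exact h1 s hs e
  have hJ : uIcc x y₀ ⊆ uIcc y₁ y₀ := uIcc_subset_uIcc_right hx
  have hlt : ∀ s ∈ uIcc q.re t₂, lc ‖q‖ s ≠ lc ‖q‖ t₁ := fun s hs e => by
    have h1 : s = t₁ := congrArg re e
    rw [uIcc_of_ge b1.2] at hs
    exact a2 (le_antisymm (h1 ▸ hs.2) a1.1)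
  rcases hS (lc ‖q‖ '' uIcc q.re t₂ ∪ Fb '' uIcc x y₀)
    ((isCompact_uIcc.image hc).union (isCompact_uIcc.image hB.cont))
    ((isPreconnected_uIcc.image _ hc.continuousOn).union (Fb x) ⟨t₂, right_mem_uIcc,
      e₂.symm.trans e₃.symm⟩ ⟨x, left_mem_uIcc, rfl⟩
      (isPreconnected_uIcc.image _ hB.cont.continuousOn))
    (fun z hz => hz.elim (b4 z) (by
      rintro ⟨s, hs, rfl⟩
      exact ⟨(hB.mem hU s).2.2.1, (hB.mem hU s).2.2.2, (hB.mem_LA hU hP (hI (hJ hs))).2.1,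
        hC.low _ (hL s (hJ hs))⟩))
    (Or.inl (hqm _)) ⟨Fb y₀, Or.inr ⟨y₀, right_mem_uIcc, rfl⟩, hA.en⟩ y₁ hy₁ (e₁ ▸ a3.2.ne) with
    ⟨s, hs, h1⟩ | ⟨s, hs, h1⟩
  · exact hlt s hs (h1.trans e₁)
  · have h2 : s = y₁ := hA.inj (hJ hs) left_mem_uIcc h1
    have h3 : x = y₁ := eq_of_mem_uIcc_of_mem_uIcc hx (h2 ▸ hs)
    exact hlt t₂ right_mem_uIcc (e₂.symm.trans (e₃.symm.trans (h3 ▸ e₁)))

end Pool.Agent.P.MP_3bd355_an
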