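import Pool.Agent.P.MP_3bd355_an.Stmts

/-! The free part of the arc is an analytic trajectory. -/

open Set Filter Metric Complex InnerProductSpace
open scoped Topology ComplexConjugate Real

namespace Pool.Agent.P.MP_3bd355_an

namespace ArcAP

variable {r A B : ℝ} {z₀ z₁ : ℂ} {L : Set ℂ} {v : ℂ → ℝ} {φ F : ℂ → ℂ} {h s0 s1 : ℝ} {a b : ℂ}
  {c : ℝ} {Fb : ℝ → ℂ} {T : Set ℂ} {y1 y0 : ℝ}

/-- Every trajectory ray at a point of the arc in the open annulus is a piece of the arc. -/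
theorem core (hl : S_LOC) (hR : Reg2 r A B z₀ z₁ L v φ F h s0 s1 a b c Fb)
    (hA : Arc r L Fb s0 s1 z₁ T y1 y0)
    (hz : ∀ y ∈ Zer v F s0 s1, y ∈ Icc s0 s1 → Fb y = Fb y0) {x : ℝ} (hx : x ∈ uIcc y1 y0)
    (hne : x ≠ y0) (hr : r < ‖Fb x‖) :
    ∃ (n : ℕ) (ψ : ℂ → ℂ) (κ : ℂ), 1 ≤ n ∧ (n = 1 → Fb x = z₁ ∧ b ≠ 0) ∧
      Loc (QD r z₀ z₁ a b c) ψ F Fb x n 0 κ ∧ ∀ κ' : ℂ, κ' ^ n = -1 →
        (κ' = κ ∧ ∃ t ∈ uIcc y1 y0, x < t) ∨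
        (κ' = κ * exp (I * (π * th n 0 : ℝ)) ∧ ∃ t ∈ uIcc y1 y0, t < x) := by
  have hU := hR.fr.unif
  have hP := hR.fr.pic
  have hB := hR.bd
  have hL := hR.fr.cfg.cont
  have hsub : uIcc y1 y0 ⊆ Icc s0 s1 := uIcc_subset_Icc hA.m1 hA.m0
  have hpa : Fb x ∈ ann r := ⟨hr, hA.lt1 x hx hne⟩
  have hp0 : Fb x ≠ z₀ := fun hc => (hB.mem hU x).2.2.2 (hc ▸ hR.m0)
  obtain ⟨n, ψ, hch, hn1, -⟩ := hR.nz.chart hL.r0 hL.r1 (main_sub r L hR.m0).1 hR.fr.cfg.m1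
    (ann_sub_cann r hpa) hp0
  have hloc : ∀ y ∈ Icc s0 s1, Fb y = Fb x → ∃ κ, Loc (QD r z₀ z₁ a b c) ψ F Fb y n 0 κ := by
    intro y hy hyx
    have h1 : y ∈ Zo s0 s1 := hB.mem_Zo hU hP hy (by rw [hyx]; exact hr.ne')
    rcases hR.edat.ed y h1 with h2 | h2
    · exact hl r L φ F h Fb _ ψ y n 0 hU hB (by decide) (by rw [hyx]; exact hch) h2
    · exact absurd (hA.inj hx right_mem_uIcc (hyx.symm.trans (hz y h2.1 hy))) hne
  have hN : ∀ᶠ z in 𝓝[main r L] (Fb x),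
      ∀ (s : ℝ) (κ' : ℂ), 0 < s → κ' ^ n = -1 → ψ z ≠ s * κ' := by
    refine hB.pull hU hP (P := fun z => ∀ (s : ℝ) (κ' : ℂ), 0 < s → κ' ^ n = -1 → ψ z ≠ s * κ')
      (hB.mem_LA hU hP (hsub hx)).1 fun y hy hyx => ?_
    obtain ⟨κ, hκ⟩ := hloc y hy hyx
    exact hκ.neg hch.pos
  obtain ⟨κ, hκ⟩ := hloc x (hsub hx) rfl
  refine ⟨n, ψ, κ, hch.pos, hn1, hκ, fun κ' hκ' => ?_⟩
  have hκ0 : κ' ≠ 0 := by
    rintro rfl
    rw [zero_pow (by have := hch.pos; omega)] at hκ'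
    norm_num at hκ'
  have hV : {t : ℝ | (x < t → ∃ s : ℝ, 0 < s ∧ ψ (Fb t) = s * κ) ∧
      (t < x → ∃ s : ℝ, 0 < s ∧ ψ (Fb t) = s * κ * exp (I * (π * th n 0 : ℝ)))} ∈ 𝓝 x :=
    (eventually_nhdsWithin_iff.1 hκ.rayR).and (eventually_nhdsWithin_iff.1 hκ.rayL)
  have h1 := inj_local isCompact_uIcc hB.cont.continuousOn hA.inj hx hV
  have h2 := eventually_nhdsWithin_iff.1 hN
  have h3 : ∀ᶠ z in 𝓝 (Fb x), z ∈ ann r := (isOpen_ann r).mem_nhds hpa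
  have h4 : ∀ᶠ z in 𝓝[≠] (Fb x), z ≠ Fb x := self_mem_nhdsWithin
  obtain ⟨z, ⟨s, hs, hzs⟩, ⟨hz1, hz2, hz3⟩, hz4⟩ := ((hch.freq_ray κ' hκ0).and_eventually
    (((h1.and (h2.and h3)).filter_mono nhdsWithin_le_nhds).and h4)).exists
  have hzK : z ∈ Fb '' uIcc y1 y0 := by
    by_contra hc
    have h5 : z ∈ main r L := by
      rw [← hA.compl]
      exact ⟨hz3, hc⟩
    exact hz2 h5 s κ' hs hκ' hzs
  obtain ⟨t, ⟨htV, htJ⟩, rfl⟩ := hz1 hzK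
  rcases lt_trichotomy x t with h5 | h5 | h5
  · obtain ⟨s', hs', h6⟩ := htV.1 h5
    exact Or.inl ⟨ray_eq hch.pos hκ' hκ.root hs hs' (hzs.symm.trans h6), t, htJ, h5⟩
  · exact absurd (by rw [h5]) hz4
  · obtain ⟨s', hs', h6⟩ := htV.2 h5
    refine Or.inr ⟨ray_eq hch.pos hκ' (root_left hch.pos (by decide) hκ.root) hs hs' ?_, t, htJ, h5⟩
    rw [← hzs, h6, mul_assoc]

end ArcAP

open ArcAP in
theorem arca (h : S_LOC) : S_ARCa := by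
  intro r A B z₀ z₁ L v φ F hh s0 s1 a b c Fb T y1 y0 hR hA hz
  have hL := hR.fr.cfg.cont
  constructor
  · obtain ⟨n, ψ, κ, hn, hn1, -, hκ⟩ := core h hR hA hz left_mem_uIcc hA.ne
      (by rw [hA.st]; exact hR.fr.cfg.m1.1)
    by_cases h1 : n = 1
    · exact (hn1 h1).2
    exfalso
    rcases lt_or_gt_of_ne hA.ne with h2 | h2
    · obtain ⟨κ', hκ', hne⟩ := exists_root_ne' (n := n) (by omega) κ
      rcases hκ κ' hκ' with h3 | ⟨-, t, ht, h3⟩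
      · exact hne h3.1
      · rw [uIcc_of_le h2.le] at ht
        exact absurd ht.1 (not_le.2 h3)
    · obtain ⟨κ', hκ', hne⟩ :=
        exists_root_ne' (n := n) (by omega) (κ * exp (I * (π * th n 0 : ℝ)))
      rcases hκ κ' hκ' with ⟨-, t, ht, h3⟩ | h3
      · rw [uIcc_of_ge h2.le] at ht
        exact absurd ht.2 (not_le.2 h3)
      · exact hne h3.1
  · intro x hx hr
    have hx' : x ∈ uIcc y1 y0 := uIoo_subset_uIcc_self hx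
    have hx0 : x ≠ y0 := fun hc => right_notMem_uIoo (hc ▸ hx)
    have hx1 : x ≠ y1 := fun hc => left_notMem_uIoo (hc ▸ hx)
    have hp1 : Fb x ≠ z₁ := fun hc => hx1 (hA.inj hx' left_mem_uIcc (hc.trans hA.st.symm))
    have hp0 : Fb x ≠ z₀ := fun hc => (hR.bd.mem hR.fr.unif x).2.2.2 (hc ▸ hR.m0)
    obtain ⟨n, ψ, κ, hn, hn1, hloc, hκ⟩ := core h hR hA hz hx' hx0 hr
    have h1 : n ≠ 1 := fun hc => hp1 (hn1 hc).1
    have h3 : ¬ 3 ≤ n := by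
      intro hc
      obtain ⟨κ', hκ', hne1, hne2⟩ := exists_root_ne hc κ (κ * exp (I * (π * th n 0 : ℝ)))
      rcases hκ κ' hκ' with h3 | h3
      · exact hne1 h3.1
      · exact hne2 h3.1
    refine hloc.ana (by omega) rfl ?_
    exact (QD_analytic hL.r0 hL.r1 (main_sub r L hR.m0).1 hR.fr.cfg.m1 a b c
      (hR.bd.mem hR.fr.unif x).2.2.1 hp0 (Or.inl hp1)).continuousAt

end Pool.Agent.P.MP_3bd355_an
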