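import Pool.Agent.P.MP_3bd355_an.Stmts

/-! The arc and the two circles. -/

open Set Filter Metric Complex InnerProductSpace
open scoped Topology ComplexConjugate Real

namespace Pool.Agent.P.MP_3bd355_an

namespace ArcBP

variable {r A B : ℝ} {z₀ z₁ : ℂ} {L : Set ℂ} {v : ℂ → ℝ} {φ F : ℂ → ℂ} {h s0 s1 : ℝ} {a b : ℂ}
  {c : ℝ} {Fb : ℝ → ℂ} {T : Set ℂ} {y1 y0 : ℝ}

theorem both_sides (hl : S_LOC) (hR : Reg2 r A B z₀ z₁ L v φ F h s0 s1 a b c Fb) {x R : ℝ}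
    (hE : Ed (QD r z₀ z₁ a b c) F x 0) (hx : ‖Fb x‖ = R) (hRR : R = r ∨ R = 1)
    (hQ : QD r z₀ z₁ a b c (Fb x) ≠ 0) :
    (∀ᶠ t in 𝓝[>] x, ‖Fb t‖ = R) ∧ ∀ᶠ t in 𝓝[<] x, ‖Fb t‖ = R := by
  have hU := hR.fr.unif
  have h0 := hU.cont.r0
  have h1 := hU.cont.r1
  have m0 : z₀ ∈ ann r := (main_sub r L hR.m0).1
  have m1 : z₁ ∈ ann r := hR.fr.cfg.m1
  have hna : ∀ z ∈ ann r, Fb x ≠ z := by
    intro z hz he
    rw [he] at hx
    rcases hRR with h2 | h2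
    · exact hz.1.ne' (hx.trans h2)
    · exact hz.2.ne (hx.trans h2)
  have hc : ∀ t, Fb t ∈ cann r := fun t => (hR.bd.mem hU t).2.2.1
  obtain ⟨n, ψ, hψ, -, hn⟩ := hR.nz.chart h0 h1 m0 m1 (hc x) (hna _ m0)
  have hn2 : n = 2 := (hn (hna _ m1)).2 hQ
  subst hn2
  obtain ⟨κ, hκ⟩ := hl r L φ F h Fb _ ψ x 2 0 hU hR.bd (by decide) hψ hE
  have hth : exp (I * (π * th 2 0 : ℝ)) = -1 := by
    have : (π * th 2 0 : ℝ) = π := by simp [th]
    rw [this, mul_comm, exp_pi_mul_I]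
  have hcann : ∀ᶠ z in 𝓝 (Fb x), (∃ s : ℝ, ψ z = s * κ) → z ∈ cann r := by
    obtain ⟨U, hUn, hUi⟩ := hψ.inj
    filter_upwards [hκ.covR univ univ_mem, hκ.covL univ univ_mem, hUn] with z hz1 hz2 hzU
    rintro ⟨s, hs⟩
    rcases lt_trichotomy s 0 with h2 | h2 | h2
    · obtain ⟨t, -, ht⟩ := hz2 ⟨-s, by linarith, by rw [hth, hs]; push_cast; ring⟩
      exact ht ▸ hc t
    · have : z = Fb x := hUi hzU (mem_of_mem_nhds hUn) (by rw [hs, h2, hψ.zero]; simp)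
      exact this ▸ hc x
    · obtain ⟨t, -, ht⟩ := hz1 ⟨s, h2, hs⟩
      exact ht ▸ hc t
  have hRpos : 0 < R := by
    rcases hRR with h2 | h2 <;> rw [h2]
    · exact h0
    · exact one_pos
  have hb := bdry hRpos hx hψ
    (QD_analytic h0 h1 m0 m1 a b c (hc x) (hna _ m0) (Or.inl (hna _ m1))).continuousAt
    (fun z hz => QD_real h0 m0 m1 hR.bal c (by
      rcases hRR with h2 | h2
      · exact Or.inl (hz.trans h2)
      · exact Or.inr (hz.trans h2))) hκ.root (by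
      rcases hRR with h2 | h2
      · exact Or.inl (hcann.mono fun z hz hs => h2 ▸ (hz hs).1)
      · exact Or.inr (hcann.mono fun z hz hs => h2 ▸ (hz hs).2))
  have hb' := (hR.bd.cont.tendsto x).eventually hb
  constructor
  · filter_upwards [hκ.rayR, mem_nhdsWithin_of_mem_nhds hb'] with t ht1 ht2
    obtain ⟨s, -, hs⟩ := ht1
    exact ht2 ⟨s, hs⟩
  · filter_upwards [hκ.rayL, mem_nhdsWithin_of_mem_nhds hb'] with t ht1 ht2
    obtain ⟨s, -, hs⟩ := ht1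
    exact ht2 ⟨-s, by rw [hs, hth]; push_cast; ring⟩

theorem cann_sub (hR : Reg2 r A B z₀ z₁ L v φ F h s0 s1 a b c Fb)
    (hA : Arc r L Fb s0 s1 z₁ T y1 y0) : cann r ⊆ closure (main r L) := by
  have hU := hR.fr.unif
  have hi : interior (Fb '' uIcc y1 y0) = ∅ :=
    arc_interior (a := min y1 y0) (b := max y1 y0) hR.bd.cont.continuousOn hA.inj
  have hd : Dense (Fb '' uIcc y1 y0)ᶜ := interior_eq_empty_iff_dense_compl.1 hi
  rw [← closure_ann hU.cont.r0 hU.cont.r1, ← hA.compl]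
  refine closure_minimal ?_ isClosed_closure
  exact hd.open_subset_closure_inter (isOpen_ann r)

theorem sph_eq (hR : Reg2 r A B z₀ z₁ L v φ F h s0 s1 a b c Fb)
    (hA : Arc r L Fb s0 s1 z₁ T y1 y0) : sphere 0 r \ Fb '' uIcc y1 y0 = Ex r L := by
  have hU := hR.fr.unif
  have hP := hR.fr.pic
  have h1 := hU.cont.r1
  ext p
  constructor
  · rintro ⟨hp, hK⟩
    have hpr : ‖p‖ = r := by simpa using hp
    have hcl : p ∈ closure (main r L) := cann_sub hR hA ⟨hpr.ge, by linarith⟩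
    refine ⟨hpr, fun hpL => hK ?_, hcl⟩
    obtain ⟨x, hx, rfl⟩ := hR.bd.surj hU hP hcl (Or.inl hpL)
    exact hA.cover x hx (by linarith)
  · intro hp
    refine ⟨by simpa using hp.1, ?_⟩
    rintro ⟨x, hx, rfl⟩
    exact (hR.bd.mem_LA hU hP (uIcc_subset_Icc hA.m1 hA.m0 hx)).2.1 hp

theorem touch_conn (hR : Reg2 r A B z₀ z₁ L v φ F h s0 s1 a b c Fb)
    (hA : Arc r L Fb s0 s1 z₁ T y1 y0) {x₁ x x₂ : ℝ} (h1 : x₁ ∈ uIcc y1 y0) (h2 : x₂ ∈ uIcc y1 y0)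
    (h3 : x₁ ≤ x) (h4 : x ≤ x₂) (h5 : ‖Fb x₁‖ = r) (h6 : ‖Fb x₂‖ = r) : ‖Fb x‖ = r := by
  by_contra hx
  have hU := hR.fr.unif
  have hc := hU.cont.preconn_hid
  have hS : ∀ p, p ∈ sphere (0 : ℂ) r \ Ex r L ↔ ‖p‖ = r ∧ p ∈ Fb '' uIcc y1 y0 := by
    intro p
    rw [← sph_eq hR hA]
    simp only [mem_diff, mem_sphere_iff_norm, sub_zero, not_and, not_not]
    exact ⟨fun hh => ⟨hh.1, hh.2 hh.1⟩, fun hh => ⟨hh.1, fun _ => hh.2⟩⟩
  have k1 : IsClosed (Fb '' (uIcc y1 y0 ∩ Iic x)) :=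
    ((isCompact_uIcc.inter_right isClosed_Iic).image hR.bd.cont).isClosed
  have k2 : IsClosed (Fb '' (uIcc y1 y0 ∩ Ici x)) :=
    ((isCompact_uIcc.inter_right isClosed_Ici).image hR.bd.cont).isClosed
  obtain ⟨p, hp, ⟨t, ht, rfl⟩, ⟨t', ht', he⟩⟩ := isPreconnected_closed_iff.1 hc _ _ k1 k2
    (fun p hp => by
      obtain ⟨-, t, ht, rfl⟩ := (hS p).1 hp
      rcases le_total t x with h7 | h7
      · exact Or.inl ⟨t, ⟨ht, h7⟩, rfl⟩
      · exact Or.inr ⟨t, ⟨ht, h7⟩, rfl⟩)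
    ⟨Fb x₁, (hS _).2 ⟨h5, x₁, h1, rfl⟩, x₁, ⟨h1, h3⟩, rfl⟩
    ⟨Fb x₂, (hS _).2 ⟨h6, x₂, h2, rfl⟩, x₂, ⟨h2, h4⟩, rfl⟩
  have h7 : t' = t := hA.inj ht'.1 ht.1 he
  have h8 : t = x := le_antisymm ht.2 (h7 ▸ ht'.2)
  exact hx (h8 ▸ ((hS _).1 hp).1)

end ArcBP

theorem arcb (h : S_LOC) : S_ARCb := by
  intro r A B z₀ z₁ L v φ F hh s0 s1 a b c Fb T y1 y0 hR hA hZ hy0
  have hU := hR.fr.unif
  have hP := hR.fr.pic
  have m1 : z₁ ∈ ann r := hR.fr.cfg.m1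
  refine ⟨ArcBP.sph_eq hR hA, fun h1 => ?_, ?_⟩
  · by_contra hQ
    have hmeet : ∃ p ∈ L, ‖p‖ = 1 := by
      rcases (hR.bd.mem_LA hU hP hA.m0).1 with h2 | h2
      · exact ⟨_, h2, h1⟩
      · exact h2.2
    have hA0 : A = 0 := by
      rcases hR.fr.cfg.cases with h2 | h2
      · exact h2.1
      · obtain ⟨p, hp, hp1⟩ := hmeet
        exact absurd hp1 (h2.2.1 p hp).ne
    have hE : Ed (QD r z₀ z₁ a b c) F y0 0 := by
      rcases hR.edat.ed y0 (hR.bd.mem_Zo hU hP hA.m0 hy0) with h2 | h2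
      · exact h2
      · have h3 := h2.1
        rw [hR.fr.pv.nz hA0] at h3
        exact h3.elim
    obtain ⟨h2, h3⟩ := ArcBP.both_sides h hR hE h1 (Or.inr rfl) hQ
    rcases lt_or_gt_of_ne hA.ne with h4 | h4
    · obtain ⟨t, ht1, ht2⟩ := (h3.and (Ioo_mem_nhdsLT h4)).exists
      exact (hA.lt1 t (mem_uIcc_of_le ht2.1.le ht2.2.le) ht2.2.ne).ne ht1
    · obtain ⟨t, ht1, ht2⟩ := (h2.and (Ioo_mem_nhdsGT h4)).exists
      exact (hA.lt1 t (mem_uIcc_of_ge ht2.1.le ht2.2.le) ht2.1.ne').ne ht1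
  · set J : Set ℝ := uIcc y1 y0 ∩ {x | ‖Fb x‖ = r} with hJ
    by_cases hne : J.Nonempty
    · right
      have hJc : IsCompact J :=
        isCompact_uIcc.inter_right (isClosed_eq hR.bd.cont.norm continuous_const)
      obtain ⟨x₁, hx₁, hmin⟩ := hJc.exists_isLeast hne
      obtain ⟨x₂, hx₂, hmax⟩ := hJc.exists_isGreatest hne
      have hoo : ∀ x ∈ J, x ∈ uIoo y1 y0 := by
        intro x hx
        have h1 : x ≠ y1 := by
          rintro rfl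
          have h2 : ‖Fb x‖ = r := hx.2
          rw [hA.st] at h2
          exact m1.1.ne' h2
        have h2 : x ≠ y0 := by
          rintro rfl
          exact hy0 hx.2
        have h3 := hx.1
        rcases le_total y1 y0 with h4 | h4
        · rw [uIcc_of_le h4] at h3
          rw [uIoo_of_le h4]
          exact ⟨lt_of_le_of_ne h3.1 h1.symm, lt_of_le_of_ne h3.2 h2⟩
        · rw [uIcc_of_ge h4] at h3
          rw [uIoo_of_ge h4]
          exact ⟨lt_of_le_of_ne h3.1 h2.symm, lt_of_le_of_ne h3.2 h1⟩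
      have hnh : ∀ x ∈ J, uIcc y1 y0 ∈ 𝓝 x := fun x hx =>
        mem_of_superset (Ioo_mem_nhds (hoo x hx).1 (hoo x hx).2) Ioo_subset_Icc_self
      have hE : ∀ x ∈ J, Ed (QD r z₀ z₁ a b c) F x 0 := by
        intro x hx
        have h1 : x ∈ Ioo s0 s1 :=
          ⟨lt_of_le_of_lt (le_min hA.m1.1 hA.m0.1) (hoo x hx).1,
            lt_of_lt_of_le (hoo x hx).2 (max_le hA.m1.2 hA.m0.2)⟩
        rcases hR.edat.ed x (Ioo_sub_Zo h1) with h2 | h2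
        · exact h2
        · exact absurd (hZ x h2.1 (Ioo_subset_Icc_self h1) ▸ hx.2) hy0
      refine ⟨x₁, hoo _ hx₁, x₂, hoo _ hx₂, hmin hx₂, fun x hx => ⟨fun h1 =>
        ⟨hmin ⟨hx, h1⟩, hmax ⟨hx, h1⟩⟩, fun h1 =>
        ArcBP.touch_conn hR hA hx₁.1 hx₂.1 h1.1 h1.2 hx₁.2 hx₂.2⟩, ?_, ?_⟩
      · by_contra hQ
        obtain ⟨-, h3⟩ := ArcBP.both_sides h hR (hE _ hx₁) hx₁.2 (Or.inl rfl) hQ
        have h4 : ∀ᶠ t in 𝓝[<] x₁, t ∈ uIcc y1 y0 := mem_nhdsWithin_of_mem_nhds (hnh _ hx₁)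
        have h5 : ∀ᶠ t in 𝓝[<] x₁, t < x₁ := self_mem_nhdsWithin
        obtain ⟨t, ht1, ht2, ht3⟩ := (h3.and (h4.and h5)).exists
        exact absurd (hmin ⟨ht2, ht1⟩) (not_le.2 ht3)
      · by_contra hQ
        obtain ⟨h3, -⟩ := ArcBP.both_sides h hR (hE _ hx₂) hx₂.2 (Or.inl rfl) hQ
        have h4 : ∀ᶠ t in 𝓝[>] x₂, t ∈ uIcc y1 y0 := mem_nhdsWithin_of_mem_nhds (hnh _ hx₂)
        have h5 : ∀ᶠ t in 𝓝[>] x₂, x₂ < t := self_mem_nhdsWithin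
        obtain ⟨t, ht1, ht2, ht3⟩ := (h3.and (h4.and h5)).exists
        exact absurd (hmax ⟨ht2, ht1⟩) (not_le.2 ht3)
    · left
      intro x hx
      exact lt_of_le_of_ne (hR.bd.mem hU x).2.2.1.1 fun he => hne ⟨x, hx, he.symm⟩

end Pool.Agent.P.MP_3bd355_an
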