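import Pool.Agent.P.MP_3bd355_an.Stmts

/-! The free end of the arc. -/

open Set Filter Metric Complex InnerProductSpace
open scoped Topology ComplexConjugate Real

namespace Pool.Agent.P.MP_3bd355_an

namespace ArcCP

theorem root_ne {n : ℕ} (hn : 1 ≤ n) {κ : ℂ} (h : κ ^ n = -1) : κ ≠ 0 := by
  rintro rfl
  rw [zero_pow (by omega)] at h
  norm_num at h

/-- The opening of the sector is a full turn only for `n = 2`, `e = 2`. -/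
theorem th_cases {n e : ℕ} (hn : 2 ≤ n) (he : e = 0 ∨ e = 2)
    (h : exp (I * (π * th n e : ℝ)) = 1) : n = 2 ∧ e = 2 := by
  obtain ⟨k, hk⟩ := exp_eq_one_iff.1 h
  have h1 : ((π * th n e : ℝ) : ℂ) = ((k * (2 * π) : ℝ) : ℂ) := by
    apply mul_left_cancel₀ I_ne_zero
    rw [hk]; push_cast; ring
  have h2 : π * th n e = k * (2 * π) := by exact_mod_cast h1
  have h3 : th n e = 2 * k := by
    apply mul_left_cancel₀ Real.pi_ne_zero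
    rw [h2]; ring
  have hn0 : (n : ℝ) ≠ 0 := by positivity
  rw [th, div_eq_iff hn0] at h3
  have h4 : (e : ℤ) + 2 = 2 * k * n := by exact_mod_cast h3
  have hn' : (2 : ℤ) ≤ n := by exact_mod_cast hn
  have hk1 : 1 ≤ k := by
    by_contra hc
    have : k ≤ 0 := by omega
    nlinarith
  rcases he with rfl | rfl
  · exfalso
    push_cast at h4
    nlinarith
  · refine ⟨?_, rfl⟩
    push_cast at h4
    have : (n : ℤ) ≤ 2 := by nlinarith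
    omega

theorem polar {w : ℂ} (hw : w ≠ 0) :
    (∃ s : ℝ, 0 < s ∧ w = s) ∨ ∃ s : ℝ, 0 < s ∧ ∃ ϑ ∈ Ioo (0 : ℝ) (2 * π), w = s * exp (I * ϑ) := by
  have hs : 0 < ‖w‖ := norm_pos_iff.2 hw
  have he := norm_mul_exp_arg_mul_I w
  rcases lt_trichotomy (arg w) 0 with h | h | h
  · right
    refine ⟨‖w‖, hs, arg w + 2 * π, ⟨by linarith [neg_pi_lt_arg w, Real.pi_pos], by linarith⟩, ?_⟩
    push_cast
    rw [mul_add, exp_add, mul_comm I (2 * (π : ℂ)), exp_two_pi_mul_I, mul_one, mul_comm I, he]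
  · left
    refine ⟨‖w‖, hs, ?_⟩
    rw [h] at he
    simpa using he.symm
  · right
    refine ⟨‖w‖, hs, arg w, ⟨h, by linarith [arg_le_pi w, Real.pi_pos]⟩, ?_⟩
    rw [mul_comm I, he]

/-- Near an end point the arc lies on one ray. -/
theorem one_ray {Q ψ F : ℂ → ℂ} {Fb : ℝ → ℂ} {y1 y0 : ℝ} {n e : ℕ} {κ : ℂ} (hn : 1 ≤ n)
    (he : Even e) (hc : Continuous Fb) (hne : y1 ≠ y0) (hi : InjOn Fb (uIcc y1 y0))
    (hl : Loc Q ψ F Fb y0 n e κ) : ∃ κ' : ℂ, κ' ^ n = -1 ∧ ∀ᶠ z in 𝓝 (Fb y0),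
      z ∈ Fb '' uIcc y1 y0 → z = Fb y0 ∨ ∃ s : ℝ, 0 < s ∧ ψ z = s * κ' := by
  rcases lt_or_gt_of_ne hne with h | h
  · refine ⟨_, root_left hn he hl.root, ?_⟩
    have h1 := eventually_nhdsWithin_iff.1 hl.rayL
    filter_upwards [inj_local isCompact_uIcc hc.continuousOn hi right_mem_uIcc h1] with z hz hK
    obtain ⟨t, ⟨ht1, ht2⟩, rfl⟩ := hz hK
    rw [uIcc_of_le h.le] at ht2
    rcases ht2.2.eq_or_lt with h2 | h2
    · exact Or.inl (by rw [h2])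
    · obtain ⟨s, hs, hs'⟩ := ht1 h2
      exact Or.inr ⟨s, hs, by rw [hs', mul_assoc]⟩
  · refine ⟨κ, hl.root, ?_⟩
    have h1 := eventually_nhdsWithin_iff.1 hl.rayR
    filter_upwards [inj_local isCompact_uIcc hc.continuousOn hi right_mem_uIcc h1] with z hz hK
    obtain ⟨t, ⟨ht1, ht2⟩, rfl⟩ := hz hK
    rw [uIcc_of_ge h.le] at ht2
    rcases ht2.1.eq_or_lt with h2 | h2
    · exact Or.inl (by rw [h2])
    · exact Or.inr (ht1 h2)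

/-- A ray inside a set that lies on one ray. -/
theorem ray_in {Q ψ : ℂ → ℂ} {p κ κ' : ℂ} {n : ℕ} {K : Set ℂ} (hC : Chart Q p n ψ)
    (hκ : κ ^ n = -1) (hκ' : κ' ^ n = -1)
    (h1 : ∀ᶠ z in 𝓝 p, z ∈ K → z = p ∨ ∃ s : ℝ, 0 < s ∧ ψ z = s * κ')
    (h2 : ∀ᶠ z in 𝓝 p, (∃ s : ℝ, 0 < s ∧ ψ z = s * κ) → z ∈ K) : κ = κ' := by
  obtain ⟨z, ⟨s, hs, hz⟩, hz0, hz1, hz2⟩ := ((hC.freq_ray κ (root_ne hC.pos hκ)).and_eventually
    (eventually_mem_nhdsWithin.and ((h1.and h2).filter_mono nhdsWithin_le_nhds))).exists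
  rcases hz1 (hz2 ⟨s, hs, hz⟩) with h | ⟨t, ht, h⟩
  · exact absurd h hz0
  · exact ray_eq hC.pos hκ hκ' hs ht (hz.symm.trans h)

/-- If both rays at a preimage lie in a set that lies on one ray, the sector is a full turn. -/
theorem full_turn {Q ψ F : ℂ → ℂ} {Fb : ℝ → ℂ} {x : ℝ} {n e : ℕ} {κ κ' : ℂ} {K : Set ℂ}
    (hC : Chart Q (Fb x) n ψ) (he : Even e) (hl : Loc Q ψ F Fb x n e κ) (hκ' : κ' ^ n = -1)
    (h1 : ∀ᶠ z in 𝓝 (Fb x), z ∈ K → z = Fb x ∨ ∃ s : ℝ, 0 < s ∧ ψ z = s * κ')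
    (h2 : ∀ᶠ t in 𝓝 x, Fb t ∈ K) : exp (I * (π * th n e : ℝ)) = 1 := by
  have e1 : κ = κ' := by
    refine ray_in hC hl.root hκ' h1 ?_
    filter_upwards [hl.covR _ (h2.filter_mono nhdsWithin_le_nhds)] with z hz hs
    obtain ⟨t, ht, rfl⟩ := hz hs
    exact ht
  have e2 : κ * exp (I * (π * th n e : ℝ)) = κ' := by
    refine ray_in hC (root_left hC.pos he hl.root) hκ' h1 ?_
    filter_upwards [hl.covL _ (h2.filter_mono nhdsWithin_le_nhds)] with z hz ⟨s, hs, hs'⟩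
    obtain ⟨t, ht, rfl⟩ := hz ⟨s, hs, by rw [hs', mul_assoc]⟩
    exact ht
  apply mul_left_cancel₀ (root_ne hC.pos hl.root)
  rw [e2, mul_one, e1]

theorem th22 : th 2 2 = 2 := by norm_num [th]

/-- A full turn covers a neighbourhood. -/
theorem cover_nhds {Q ψ F : ℂ → ℂ} {Fb : ℝ → ℂ} {x : ℝ} {κ : ℂ} {S : Set ℂ}
    (hC : Chart Q (Fb x) 2 ψ) (hl : Loc Q ψ F Fb x 2 2 κ)
    (h1 : ∀ᶠ η : ℂ in 𝓝[upH] (x : ℂ), F η ∈ S) (h2 : ∀ t, Fb t ∈ S) :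
    ∀ᶠ z in 𝓝 (Fb x), z ∈ S := by
  obtain ⟨U, hU, hi⟩ := hC.inj
  have hκ := root_ne hC.pos hl.root
  filter_upwards [hU, hl.cov _ h1, hl.covR univ univ_mem] with z hz hz1 hz2
  by_cases hp : z = Fb x
  · rw [hp]; exact h2 x
  have h0 : ψ z ≠ 0 := fun h0 => hp (hi hz (mem_of_mem_nhds hU) (h0.trans hC.zero.symm))
  rcases polar (div_ne_zero h0 hκ) with ⟨s, hs, h⟩ | ⟨s, hs, ϑ, hϑ, h⟩
  · obtain ⟨t, -, rfl⟩ := hz2 ⟨s, hs, by rw [← h, div_mul_cancel₀ _ hκ]⟩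
    exact h2 t
  · obtain ⟨η, hη, rfl⟩ := hz1 ⟨s, hs, ϑ, by rwa [th22, mul_comm π], by
      rw [mul_right_comm, ← h, div_mul_cancel₀ _ hκ]⟩
    exact hη

theorem bound32 {C c d w u : ℝ} (hc : 0 < c) (hd : 0 ≤ d) (h1 : c * d ^ (2 : ℝ) ≤ w)
    (h2 : |u| ≤ C * d ^ 3) : |u| ≤ |C| / c ^ (3 / 2 : ℝ) * w ^ (3 / 2 : ℝ) := by
  have h3 : (c * d ^ (2 : ℝ)) ^ (3 / 2 : ℝ) ≤ w ^ (3 / 2 : ℝ) :=
    Real.rpow_le_rpow (by positivity) h1 (by norm_num)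
  rw [Real.mul_rpow hc.le (by positivity), ← Real.rpow_mul hd] at h3
  have h4 : d ^ ((2 : ℝ) * (3 / 2)) = d ^ 3 := by
    rw [show (2 : ℝ) * (3 / 2) = (3 : ℕ) by norm_num, Real.rpow_natCast]
  rw [h4] at h3
  have hc' : 0 < c ^ (3 / 2 : ℝ) := by positivity
  have h5 : d ^ 3 ≤ w ^ (3 / 2 : ℝ) / c ^ (3 / 2 : ℝ) := by
    rw [le_div_iff₀ hc']; linarith
  calc |u| ≤ C * d ^ 3 := h2
    _ ≤ |C| * d ^ 3 := by gcongr; exact le_abs_self C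
    _ ≤ |C| * (w ^ (3 / 2 : ℝ) / c ^ (3 / 2 : ℝ)) := by gcongr
    _ = _ := by ring

end ArcCP

open ArcCP in
theorem arcc (h : S_LOC) : S_ARCc := by
  intro r A B z₀ z₁ L v φ F hh s0 s1 a b c Fb y1 y0 hR hArc hA hy0 hSH
  have hU := hR.fr.unif
  have hP := hR.fr.pic
  have hB := hR.bd
  have hL := hU.cont
  have hL1 : ∀ p ∈ L, ‖p‖ < 1 := hR.fr.cfg.cases.elim (fun h => absurd h.1 hA.ne) fun h => h.2.1
  have hin : ∀ x ∈ Icc s0 s1, Fb x ∈ L := fun x hx => by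
    rcases (hB.mem_LA hU hP hx).1 with h1 | ⟨-, p, hp, h1⟩
    · exact h1
    · exact absurd h1 (hL1 p hp).ne
  have hcov : ∀ x ∈ Icc s0 s1, Fb x ∈ Fb '' uIcc y1 y0 := fun x hx =>
    hArc.cover x hx (hL1 _ (hin x hx)).ne
  have hsub : uIcc y1 y0 ⊆ Icc s0 s1 := uIcc_subset_Icc hArc.m1 hArc.m0
  have heq : ∀ y ∈ Zer v F s0 s1, y ∈ Icc s0 s1 → Fb y = Fb y0 := by
    intro y hy hyI
    obtain ⟨y', hy', e⟩ := hcov y hyI
    have hs' : uIcc y1 y' ⊆ uIcc y1 y0 := uIcc_subset_uIcc left_mem_uIcc hy'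
    obtain ⟨x, hx, ex⟩ := hSH y hy (Fb '' uIcc y1 y') (isCompact_uIcc.image hB.cont)
      (isPreconnected_uIcc.image _ hB.cont.continuousOn)
      (by
        rintro _ ⟨t, ht, rfl⟩
        have htI := hsub (hs' ht)
        exact ⟨(hB.mem hU t).2.2.1, (hB.mem hU t).2.2.2, (hB.mem_LA hU hP htI).2.1,
          hL.low _ (hin t htI)⟩)
      ⟨y1, left_mem_uIcc, hArc.st⟩ ⟨Fb y, ⟨y', right_mem_uIcc, e⟩, rfl⟩ y0 hArc.m0
      (hL1 _ (hin y0 hArc.m0)).ne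
    have hx0 : x = y0 := hArc.inj (hs' hx) right_mem_uIcc ex
    rw [hx0] at hx
    have : y' = y0 := by
      rcases lt_or_gt_of_ne hArc.ne with h1 | h1
      · rw [uIcc_of_le h1.le] at hy'
        rw [uIcc_of_le hy'.1] at hx
        exact le_antisymm hy'.2 hx.2
      · rw [uIcc_of_ge h1.le] at hy'
        rw [uIcc_of_ge hy'.2] at hx
        exact le_antisymm hx.1 hy'.1
    rw [← e, this]
  have hp0 : Fb y0 ≠ z₀ := fun e => (hB.mem hU y0).2.2.2 (e ▸ hR.m0)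
  have hp1 : Fb y0 ≠ z₁ := fun e =>
    hArc.ne (hArc.inj left_mem_uIcc right_mem_uIcc (hArc.st.trans e.symm))
  obtain ⟨n, ψ, hC, hn1, hn2⟩ := hR.nz.chart hL.r0 hL.r1 (main_sub r L hR.m0).1 hR.fr.cfg.m1
    (hB.mem hU y0).2.2.1 hp0
  have hn : 2 ≤ n := by
    have := hC.pos
    have : n ≠ 1 := fun e => hp1 (hn1 e).1
    omega
  have hed : ∀ x ∈ Zo s0 s1, ∃ e : ℕ, (e = 0 ∨ e = 2) ∧ Ed (QD r z₀ z₁ a b c) F x e :=
    fun x hx => (hR.edat.ed x hx).elim (fun h => ⟨0, Or.inl rfl, h⟩) fun h => ⟨2, Or.inr rfl, h.2⟩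
  have hev : ∀ {e : ℕ}, e = 0 ∨ e = 2 → Even e := fun he => by
    rcases he with rfl | rfl <;> decide
  obtain ⟨e0, he0, hE0⟩ := hed y0 hy0.1
  obtain ⟨κ0, hl0⟩ := h r L φ F hh Fb _ ψ y0 n e0 hU hB (hev he0) hC hE0
  obtain ⟨κ', hκ', hone⟩ := one_ray hC.pos (hev he0) hB.cont hArc.ne hArc.inj hl0
  have key : ∀ x ∈ Zo s0 s1, Fb x = Fb y0 → ∀ e : ℕ, e = 0 ∨ e = 2 →
      Ed (QD r z₀ z₁ a b c) F x e → n = 2 ∧ e = 2 := by
    intro x hx hxp e he hE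
    rw [← hxp] at hC hone
    obtain ⟨κ, hl⟩ := h r L φ F hh Fb _ ψ x n e hU hB (hev he) hC hE
    refine th_cases hn he (full_turn hC (hev he) hl hκ' hone ?_)
    filter_upwards [hB.near_Zo hU hP hx] with t ⟨t', ht', e'⟩
    rw [← e']
    exact hcov t' ht'
  obtain ⟨rfl, rfl⟩ := key y0 hy0.1 rfl e0 he0 hE0
  have hann : Fb y0 ∈ ann r := by
    refine mem_ann_of_nhds hL.r0 (cover_nhds hC hl0 ?_ fun t => (hB.mem hU t).2.2.1)
    filter_upwards [hU.ev_main y0] with η hη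
    exact ann_sub_cann r (main_sub r L hη.2).1
  refine ⟨hann, (hn2 hp1).1 rfl, fun y hy hyI => ⟨heq y hy hyI, fun hE => ?_⟩, ?_⟩
  · have := (key y hy.1 (heq y hy hyI) 0 (Or.inl rfl) hE).2
    omega
  have hloc : ∀ x ∈ Icc s0 s1, Fb x = Fb y0 → x ∈ Zer v F s0 s1 ∧ ∃ C : ℝ,
      ∀ᶠ η : ℂ in 𝓝[upH] (x : ℂ), |v (F η)| ≤ C * ‖F η - Fb y0‖ ^ (3 / 2 : ℝ) := by
    intro x hx hxp
    have hZ : x ∈ Zo s0 s1 := hB.mem_Zo hU hP hx (by rw [hxp]; exact hann.1.ne')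
    rcases hR.edat.ed x hZ with hE | ⟨hz, hE⟩
    · have := (key x hZ hxp 0 (Or.inl rfl) hE).2
      omega
    refine ⟨hz, ?_⟩
    rw [← hxp] at hC ⊢
    obtain ⟨κ, hl⟩ := h r L φ F hh Fb _ ψ x 2 2 hU hB (by decide) hC hE
    obtain ⟨c', hc', hlow⟩ := hl.low
    obtain ⟨C, hC'⟩ := (hR.fr.tip x hz).two_bound
    refine ⟨|C| / c' ^ (3 / 2 : ℝ), ?_⟩
    filter_upwards [hlow, hC'] with η h1 h2
    rw [th22] at h1
    exact bound32 hc' (norm_nonneg _) h1 h2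
  choose! hz Cf hCf using hloc
  obtain ⟨M, hM⟩ := (hR.fr.pv.fin.image Cf).bddAbove
  refine ⟨max M 0, ?_⟩
  have hpull := hB.pull hU hP (P := fun z => |v z| ≤ max M 0 * ‖z - Fb y0‖ ^ (3 / 2 : ℝ))
    (p := Fb y0) (hB.mem_LA hU hP hArc.m0).1 fun x hx hxp => by
      filter_upwards [hCf x hx hxp] with η hη
      refine hη.trans ?_
      gcongr
      exact (hM ⟨x, ⟨hz x hx hxp, hx⟩, rfl⟩).trans (le_max_left _ _)
  filter_upwards [eventually_nhdsWithin_iff.1 hpull] with z hz'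
  by_cases hW : z ∈ main r L
  · exact hz' hW
  · rw [hR.fr.cfg.sol.off z hW, abs_zero]
    positivity

end Pool.Agent.P.MP_3bd355_an
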