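import Pool.Agent.P.MP_3bd355_an.Stmts

/-! A uniform boundary estimate near a continuum (weak Beurling estimate). -/

open Set Filter Metric Complex InnerProductSpace
open scoped Topology ComplexConjugate Real

namespace Pool.Agent.P.MP_3bd355_an

namespace BLP

/-- The half plane kernel in the logarithmic variable. -/
noncomputable def T (l : ℂ → ℂ) (ζ z : ℂ) : ℝ := ((ζ - l z)⁻¹).re

theorem T_nonneg {l : ℂ → ℂ} {ζ z : ℂ} (h : 0 ≤ (ζ - l z).re) : 0 ≤ T l ζ z := by
  unfold T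
  rw [inv_re]
  exact div_nonneg h (normSq_nonneg _)

theorem T_le {l : ℂ → ℂ} {ζ z : ℂ} {R : ℝ} (hR : 0 < R) (h : R ≤ (ζ - l z).re) :
    T l ζ z ≤ 1 / R := by
  unfold T
  have h1 : R ≤ ‖ζ - l z‖ := h.trans (re_le_norm _)
  calc ((ζ - l z)⁻¹).re ≤ ‖(ζ - l z)⁻¹‖ := re_le_norm _
    _ = 1 / ‖ζ - l z‖ := by rw [norm_inv, one_div]
    _ ≤ 1 / R := one_div_le_one_div_of_le hR h1

theorem T_ge {l : ℂ → ℂ} {ζ z : ℂ} {s : ℝ} (hs : 0 < s) (h0 : (l z).re = ζ.re)
    (h : ‖l z - ζ‖ ≤ 2 * s) : 1 ≤ 5 * s * T l (ζ + s) z := by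
  unfold T
  rw [inv_re, normSq_apply]
  have e1 : (ζ + s - l z).re = s := by simp [h0]
  have e2 : (ζ + s - l z).im = -(l z - ζ).im := by simp
  have e3 : |(l z - ζ).im| ≤ 2 * s := (abs_im_le_norm _).trans h
  rw [e1, e2]
  set t := (l z - ζ).im
  have e4 : t * t ≤ 4 * (s * s) := by
    have := abs_le.mp e3
    nlinarith [this.1, this.2]
  have e5 : 0 < s * s + -t * -t := by nlinarith [mul_self_nonneg t, mul_pos hs hs]
  rw [← mul_div_assoc, le_div_iff₀ e5]
  nlinarith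

theorem T_harm {l : ℂ → ℂ} {ζ z : ℂ} (hl : AnalyticAt ℂ l z) (h : 0 < (ζ - l z).re) :
    HarmonicAt (T l ζ) z := by
  have h1 : ζ - l z ≠ 0 := by
    intro h0
    rw [h0] at h
    simp at h
  have h2 : AnalyticAt ℂ (fun y => (ζ - l y)⁻¹) z := (analyticAt_const.sub hl).inv h1
  exact h2.harmonicAt_re

theorem re_eq {w a : ℂ} (h : exp w = a) : w.re = Real.log ‖a‖ := by
  rw [← h, norm_exp, Real.log_exp]

theorem small {w : ℂ} (h : ‖w‖ ≤ 1 / 2) : ‖w‖ ≤ 2 * ‖exp w - 1‖ := by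
  have h1 := Complex.norm_exp_sub_one_sub_id_le (x := w) (h.trans (by norm_num))
  have h2 : ‖w‖ ≤ ‖exp w - 1‖ + ‖exp w - 1 - w‖ := by
    have : w = (exp w - 1) - (exp w - 1 - w) := by ring
    calc ‖w‖ = ‖(exp w - 1) - (exp w - 1 - w)‖ := by rw [← this]
      _ ≤ _ := norm_sub_le _ _
  nlinarith [norm_nonneg w]

theorem quot {p q q' : ℂ} {r : ℝ} (hr : 0 < r) (hq : q ∈ sphere p r) (hq' : q' ∈ sphere p r) :
    ‖(q - p) / (q' - p) - 1‖ ≤ |arg (q - p) - arg (q' - p)| := by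
  rw [mem_sphere_iff_norm] at hq hq'
  have h1 := norm_mul_exp_arg_mul_I (q - p)
  have h2 := norm_mul_exp_arg_mul_I (q' - p)
  rw [hq] at h1
  rw [hq'] at h2
  have hr' : (r : ℂ) ≠ 0 := by exact_mod_cast hr.ne'
  have h3 : (q - p) / (q' - p) = exp (I * ((arg (q - p) - arg (q' - p) : ℝ) : ℂ)) := by
    have e : I * ((arg (q - p) - arg (q' - p) : ℝ) : ℂ) =
        (arg (q - p) : ℂ) * I - (arg (q' - p) : ℂ) * I := by
      push_cast
      ring
    rw [e, exp_sub]
    conv_lhs => rw [← h1, ← h2]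
    rw [mul_div_mul_left _ _ hr']
  rw [h3]
  exact Real.norm_exp_I_mul_ofReal_sub_one_le

/-- A cover of the logarithmic image by small intervals of bounded total length. -/
theorem cover {p : ℂ} {r : ℝ} (hr : 0 < r) {C : Set ℂ} (hC : IsCompact C)
    (hs : C ⊆ sphere p r) {l : ℂ → ℂ} (hl : ContinuousOn l C) (he : ∀ z ∈ C, exp (l z) = z - p) :
    ∃ (s : ℝ) (J : Finset ℤ) (ζ : ℤ → ℂ), 0 < s ∧ s * J.card ≤ 10 ∧
      (∀ j, (ζ j).re = Real.log r) ∧ ∀ q ∈ C, ∃ j ∈ J, ‖l q - ζ j‖ ≤ 2 * s := by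
  obtain ⟨d, hd, hu⟩ := Metric.uniformContinuousOn_iff.mp (hC.uniformContinuousOn_of_continuous hl)
    (1 / 2) (by norm_num)
  set s : ℝ := min 1 (d / (2 * r)) with hsd
  have hs0 : 0 < s := lt_min one_pos (by positivity)
  have hs1 : s ≤ 1 := min_le_left _ _
  have hs2 : s * r < d := by
    have h1 : s ≤ d / (2 * r) := min_le_right _ _
    rw [le_div_iff₀ (by positivity)] at h1
    nlinarith [mul_pos hs0 hr]
  have hn : ∀ q ∈ C, ‖q - p‖ = r := fun q hq => mem_sphere_iff_norm.mp (hs hq)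
  have key : ∀ q ∈ C, ∀ q' ∈ C, ⌊arg (q - p) / s⌋ = ⌊arg (q' - p) / s⌋ →
      ‖l q - l q'‖ ≤ 2 * s := by
    intro q hq q' hq' hj
    have h1 : |arg (q - p) / s - arg (q' - p) / s| < 1 := Int.abs_sub_lt_one_of_floor_eq_floor hj
    rw [← sub_div, abs_div, abs_of_pos hs0, div_lt_one hs0] at h1
    have h2 := (quot hr (hs hq) (hs hq')).trans h1.le
    have hq0 : q' - p ≠ 0 := by
      intro h0
      have := hn q' hq'
      rw [h0, norm_zero] at this
      exact hr.ne this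
    have h3 : dist q q' < d := by
      rw [dist_eq_norm]
      have e : q - q' = ((q - p) / (q' - p) - 1) * (q' - p) := by
        field_simp
        ring
      rw [e, norm_mul, hn q' hq']
      exact lt_of_le_of_lt (mul_le_mul_of_nonneg_right h2 hr.le) hs2
    have h4 := hu q hq q' hq' h3
    rw [dist_eq_norm] at h4
    have h5 := small h4.le
    rw [exp_sub, he q hq, he q' hq'] at h5
    linarith
  have ex : ∀ j : ℤ, ∃ ζ : ℂ, ζ.re = Real.log r ∧
      ∀ q ∈ C, ⌊arg (q - p) / s⌋ = j → ‖l q - ζ‖ ≤ 2 * s := by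
    intro j
    by_cases hj : ∃ q' ∈ C, ⌊arg (q' - p) / s⌋ = j
    · obtain ⟨q', hq', rfl⟩ := hj
      refine ⟨l q', ?_, fun q hq h => key q hq q' hq' h⟩
      rw [re_eq (he q' hq'), hn q' hq']
    · exact ⟨(Real.log r : ℝ), by simp, fun q hq h => absurd ⟨q, hq, h⟩ hj⟩
  choose ζ hζ1 hζ2 using ex
  refine ⟨s, Finset.Icc ⌊-π / s⌋ ⌊π / s⌋, ζ, hs0, ?_, hζ1, fun q hq => ⟨_, ?_, hζ2 _ q hq rfl⟩⟩
  · have hle : ⌊-π / s⌋ ≤ ⌊π / s⌋ + 1 := by
      have : ⌊-π / s⌋ ≤ ⌊π / s⌋ := Int.floor_mono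
        (div_le_div_of_nonneg_right (by linarith [Real.pi_pos]) hs0.le)
      omega
    have hc : ((Finset.Icc ⌊-π / s⌋ ⌊π / s⌋).card : ℤ) = ⌊π / s⌋ + 1 - ⌊-π / s⌋ :=
      Int.card_Icc_of_le _ _ hle
    have hc' : ((Finset.Icc ⌊-π / s⌋ ⌊π / s⌋).card : ℝ) =
        (⌊π / s⌋ : ℝ) + 1 - (⌊-π / s⌋ : ℝ) := by exact_mod_cast hc
    rw [hc']
    have a1 := Int.floor_le (π / s)
    have a2 := Int.lt_floor_add_one (-π / s)
    have a3 : s * (π / s) = π := by field_simp
    have a4 : s * (-π / s) = -π := by field_simp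
    have a5 := Real.pi_lt_four
    nlinarith [mul_le_mul_of_nonneg_left a1 hs0.le, mul_le_mul_of_nonneg_left a2.le hs0.le]
  · rw [Finset.mem_Icc]
    exact ⟨Int.floor_mono (div_le_div_of_nonneg_right (neg_pi_lt_arg _).le hs0.le),
      Int.floor_mono (div_le_div_of_nonneg_right (arg_le_pi _) hs0.le)⟩

/-- The set on a circle where `u` is large is compact. -/
theorem cpt {p : ℂ} {ρ r η : ℝ} {W S : Set ℂ} {u : ℂ → ℝ} (hη : 0 < η) (hr : r < ρ)
    (hW : IsOpen W) (hu : UpperSemicontinuousOn u W) (hS : ∀ q ∈ S, q ∉ sphere p r)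
    (hb : ∀ q ∈ frontier W, q ∈ ball p ρ → q ∉ S → LS u W q 0) :
    IsCompact {z | z ∈ sphere p r ∧ z ∈ W ∧ η ≤ u z} := by
  refine (isCompact_sphere p r).of_isClosed_subset ?_ (fun z hz => hz.1)
  rw [← closure_subset_iff_isClosed]
  intro q hq
  have hqs : q ∈ sphere p r := closure_minimal (fun z hz => hz.1) isClosed_sphere hq
  have hfr : ∃ᶠ z in 𝓝[W] q, η ≤ u z := by
    rw [frequently_nhdsWithin_iff]
    exact (mem_closure_iff_frequently.mp hq).mono fun z hz => ⟨hz.2.2, hz.2.1⟩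
  have hqW : q ∈ W := by
    by_contra hq'
    have h1 : q ∈ frontier W := by
      rw [hW.frontier_eq]
      exact ⟨closure_mono (fun z hz => hz.2.1) hq, hq'⟩
    have h2 := hb q h1 (sphere_subset_ball hr hqs) (fun h => hS q h hqs) η hη
    obtain ⟨z, hz1, hz2⟩ := (hfr.and_eventually h2).exists
    linarith
  refine ⟨hqs, hqW, ?_⟩
  by_contra hlt
  push Not at hlt
  obtain ⟨z, hz1, hz2⟩ := (hfr.and_eventually (hu q hqW η hlt)).exists
  linarith

end BLP

open BLP in
theorem bl (h : S_LOG) : S_BL := by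
  intro ε hε
  set R : ℝ := 100 / ε with hR
  have hR0 : 0 < R := by positivity
  refine ⟨Real.exp (-R) / 2, by positivity, ?_, ?_⟩
  · have : Real.exp (-R) < 1 := Real.exp_lt_one_iff.mpr (by linarith)
    linarith
  intro p ρ K W S u hρ hK hKc hp hn hW hd hS hu h1 hb z hz hzb
  have hU : IsOpen (ball p ρ \ K) := isOpen_ball.sdiff hK.isClosed
  obtain ⟨l, hl, he⟩ := h (ball p ρ \ K) (fun y => y - p) hU (nc_ball_diff hKc hn)
    (by fun_prop) (fun y hy h0 => hy.2 (by rw [sub_eq_zero.mp h0]; exact hp))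
  have hWU : ∀ y ∈ W, y ∈ ball p ρ → y ∈ ball p ρ \ K := fun y hy hy' =>
    ⟨hy', fun hk => Set.disjoint_left.mp hd hk hy⟩
  obtain ⟨r, hr, hrS⟩ : ∃ r ∈ Ioo (ρ / 2) ρ, r ∉ (fun q => dist q p) '' S :=
    (Set.Ioo_infinite (by linarith)).exists_notMem_finite (hS.image _)
  have hr0 : 0 < r := by linarith [hr.1]
  have hC := cpt (η := ε / 2) (by positivity) hr.2 hW hu.1
    (fun q hq hq' => hrS ⟨q, hq, mem_sphere.mp hq'⟩) hb
  set C := {z | z ∈ sphere p r ∧ z ∈ W ∧ ε / 2 ≤ u z} with hCd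
  have hCU : C ⊆ ball p ρ \ K := fun y hy => hWU y hy.2.1 (sphere_subset_ball hr.2 hy.1)
  obtain ⟨s, J, ζ, hs, hJ, hζ, hcov⟩ := cover hr0 hC (fun y hy => hy.1)
    (hl.continuousOn.mono hCU) (fun y hy => he y (hCU hy))
  -- the barrier
  set H : ℂ → ℝ := fun y => 5 * s * ∑ j ∈ J, T l (ζ j + s) y with hH
  have hre : ∀ y ∈ W, y ∈ closedBall p r → ∀ j, s ≤ (ζ j + s - l y).re := by
    intro y hy hy' j
    have hyU := hWU y hy (closedBall_subset_ball hr.2 hy')
    have e1 := re_eq (he y hyU)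
    have e2 : 0 < ‖y - p‖ := by
      rw [← he y hyU, norm_exp]
      exact Real.exp_pos _
    have e3 : Real.log ‖y - p‖ ≤ Real.log r :=
      Real.log_le_log e2 (mem_closedBall_iff_norm.mp hy')
    simp only [sub_re, add_re, ofReal_re, hζ j, e1]
    linarith
  have hH0 : ∀ y ∈ W, y ∈ closedBall p r → 0 ≤ H y := fun y hy hy' =>
    mul_nonneg (by positivity) (Finset.sum_nonneg fun j _ =>
      T_nonneg (hs.le.trans (hre y hy hy' j)))
  have hHh : ∀ y ∈ W, y ∈ closedBall p r → HarmonicAt H y := by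
    intro y hy hy'
    have hyU := hWU y hy (closedBall_subset_ball hr.2 hy')
    have ha : AnalyticAt ℂ l y := hl.analyticAt (hU.mem_nhds hyU)
    exact harm_const_mul (harm_sum J fun j _ => T_harm ha (hs.trans_le (hre y hy hy' j))) _
  have hH1 : ∀ q ∈ C, 1 ≤ H q := by
    intro q hq
    obtain ⟨j, hj, hj'⟩ := hcov q hq
    have e1 : (l q).re = (ζ j).re := by
      rw [re_eq (he q (hCU hq)), hζ j, mem_sphere_iff_norm.mp hq.1]
    refine (T_ge hs e1 hj').trans (mul_le_mul_of_nonneg_left ?_ (by positivity))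
    exact Finset.single_le_sum (f := fun j => T l (ζ j + s) q)
      (fun i _ => T_nonneg (hs.le.trans (hre q hq.2.1 (sphere_subset_closedBall hq.1) i))) hj
  have hV : IsOpen (W ∩ ball p r) := hW.inter isOpen_ball
  have hsub : Sub (fun y => u y - H y) (W ∩ ball p r) :=
    (hu.mono inter_subset_left).sub_harm fun y hy => hHh y hy.1 (ball_subset_closedBall hy.2)
  have hle : ∀ y ∈ W ∩ ball p r, u y - H y ≤ u y := fun y hy => by
    linarith [hH0 y hy.1 (ball_subset_closedBall hy.2)]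
  have hmp := hsub.mpx hV (isBounded_ball.subset inter_subset_right)
    ⟨1, fun y hy => (hle y hy).trans (h1 y hy.1)⟩ hS (c := ε / 2) (by
      intro q hq hqS
      have hq1 : q ∈ closure W := closure_mono inter_subset_left (frontier_subset_closure hq)
      have hq2 : q ∈ closedBall p r :=
        closure_minimal (inter_subset_right.trans ball_subset_closedBall) isClosed_closedBall
          (frontier_subset_closure hq)
      have hev : ∀ᶠ y in 𝓝[W ∩ ball p r] q, u y - H y ≤ u y :=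
        eventually_nhdsWithin_of_forall hle
      by_cases hqW : q ∈ W
      · by_cases hqu : ε / 2 ≤ u q
        · have hqs : q ∈ sphere p r := by
            rw [hV.frontier_eq] at hq
            have h3 : ¬ dist q p < r := fun h3 => hq.2 ⟨hqW, h3⟩
            exact le_antisymm hq2 (not_lt.mp h3)
          have h4 : LS u (W ∩ ball p r) q 1 :=
            LS.of_eventually (eventually_nhdsWithin_of_forall fun y hy => h1 y hy.1)
          have h5 : Tendsto H (𝓝[W ∩ ball p r] q) (𝓝 (H q)) :=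
            (harm_diff (hHh q hqW hq2)).continuousAt.tendsto.mono_left nhdsWithin_le_nhds
          refine (h4.sub_tendsto h5).le ?_
          linarith [hH1 q ⟨hqs, hqW, hqu⟩]
        · exact ((LS.of_usc hu.1 hqW inter_subset_left).le (not_le.mp hqu).le).of_le hev
      · have h3 : q ∈ frontier W := by
          rw [hW.frontier_eq]
          exact ⟨hq1, hqW⟩
        exact (((hb q h3 (closedBall_subset_ball hr.2 hq2) hqS).mono inter_subset_left).le
          (by positivity)).of_le hev)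
  have hδ : Real.exp (-R) / 2 * ρ < Real.exp (-R) * r := by
    have := Real.exp_pos (-R)
    nlinarith [hr.1]
  have hz1 : ‖z - p‖ < Real.exp (-R) * r := (mem_ball_iff_norm.mp hzb).trans hδ
  have hzr : z ∈ ball p r := by
    rw [mem_ball_iff_norm]
    have : Real.exp (-R) < 1 := Real.exp_lt_one_iff.mpr (by linarith)
    nlinarith
  have hzU := hWU z hz (ball_subset_ball hr.2.le hzr)
  have hTz : ∀ j, T l (ζ j + s) z ≤ 1 / R := by
    intro j
    refine T_le hR0 ?_
    have e1 := re_eq (he z hzU)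
    have e2 : 0 < ‖z - p‖ := by
      rw [← he z hzU, norm_exp]
      exact Real.exp_pos _
    have e3 := Real.log_le_log e2 hz1.le
    rw [Real.log_mul (Real.exp_pos _).ne' hr0.ne', Real.log_exp] at e3
    simp only [sub_re, add_re, ofReal_re, hζ j, e1]
    linarith
  have hHz : H z ≤ ε / 2 := by
    have e1 : ∑ j ∈ J, T l (ζ j + s) z ≤ J.card * (1 / R) := by
      have := Finset.sum_le_card_nsmul J (fun j => T l (ζ j + s) z) (1 / R) (fun j _ => hTz j)
      rwa [nsmul_eq_mul] at this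
    have e2 : 1 / R = ε / 100 := by
      rw [hR]
      field_simp
    calc H z ≤ 5 * s * (J.card * (1 / R)) := mul_le_mul_of_nonneg_left e1 (by positivity)
      _ = 5 * (s * J.card) * (ε / 100) := by rw [e2]; ring
      _ ≤ 5 * 10 * (ε / 100) := by gcongr
      _ = ε / 2 := by ring
  have := hmp z ⟨hz, hzr⟩
  linarith

end Pool.Agent.P.MP_3bd355_an
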