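import Pool.Agent.P.MP_3bd355_an.Stmts

/-! Passage to real valued competitors, finiteness of the supremum, rotations. -/

open Set Filter Metric Complex InnerProductSpace
open scoped Topology ComplexConjugate Real

namespace Pool.Agent.P.MP_3bd355_an

namespace BrP

theorem coe_max {x : EReal} (hx : x ≠ ⊤) (a : ℝ) :
    (((max x (a : EReal)).toReal : ℝ) : EReal) = max x (a : EReal) := by
  refine EReal.coe_toReal (max_lt hx.lt_top (EReal.coe_lt_top a)).ne ?_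
  exact ((EReal.bot_lt_coe a).trans_le (le_max_right _ _)).ne'

variable {ω : ℂ}

theorem cm (hω : ‖ω‖ = 1) : conj ω * ω = 1 := by
  rw [conj_mul', hω]; simp

theorem st (hω : ‖ω‖ = 1) (z : ℂ) : conj ω * (ω * z) = z := by
  rw [← mul_assoc, cm hω, one_mul]

theorem ts (hω : ‖ω‖ = 1) (z : ℂ) : ω * (conj ω * z) = z := by
  rw [← mul_assoc, mul_comm ω, cm hω, one_mul]

theorem ns (hω : ‖ω‖ = 1) (z : ℂ) : ‖conj ω * z‖ = ‖z‖ := by simp [hω]

theorem nt (hω : ‖ω‖ = 1) (z : ℂ) : ‖ω * z‖ = ‖z‖ := by simp [hω]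

theorem ann_s (hω : ‖ω‖ = 1) {r : ℝ} {z : ℂ} : conj ω * z ∈ ann r ↔ z ∈ ann r := by
  simp only [ann, mem_ofPred_eq, ns hω]

theorem ann_t (hω : ‖ω‖ = 1) {r : ℝ} {z : ℂ} : ω * z ∈ ann r ↔ z ∈ ann r := by
  simp only [ann, mem_ofPred_eq, nt hω]

theorem tend (ω : ℂ) {S T : Set ℂ} (h : ∀ z ∈ S, ω * z ∈ T) (p : ℂ) :
    Tendsto (fun z => ω * z) (𝓝[S] p) (𝓝[T] (ω * p)) :=
  (continuous_const.mul continuous_id).continuousWithinAt.tendsto_nhdsWithin h

theorem dist_t (hω : ‖ω‖ = 1) (z c : ℂ) : dist (ω * z) c = dist z (conj ω * c) := by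
  rw [dist_eq_norm, dist_eq_norm, ← nt hω (z - _), mul_sub, ts hω]

theorem dist_s (hω : ‖ω‖ = 1) (z c : ℂ) : dist (conj ω * z) (conj ω * c) = dist z c := by
  rw [dist_eq_norm, dist_eq_norm, ← mul_sub, ns hω]

theorem adm (hω : ‖ω‖ = 1) {r A B : ℝ} {z₁ : ℂ} {u : ℂ → EReal} (h : Adm r A B z₁ u) :
    Adm r A B (ω * z₁) (fun z => u (conj ω * z)) := by
  obtain ⟨⟨h1, h2, h3⟩, ho, hi, γ, g1, g2, g3, g4⟩ := h
  have tt := fun p => tend (conj ω) (S := ann r) (T := ann r) (fun z hz => (ann_s hω).2 hz) p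
  refine ⟨⟨fun x hx y hy => (tt x).eventually (h1 _ ((ann_s hω).2 hx) y hy),
    fun z hz => h2 _ ((ann_s hω).2 hz), fun c ρ hρ hb g hg hs z hz => ?_⟩,
    fun p hp => (ho _ (by rw [ns hω, hp])).comp (tt p),
    fun p hp => (hi _ (by rw [ns hω, hp])).comp (tt p),
    fun t => ω * γ t, continuousOn_const.mul g1, by simp only [g2], fun t ht => ?_, ?_⟩
  · have := h3 (conj ω * c) ρ hρ (fun y hy => (ann_t hω).1 (hb (by
      rw [mem_closedBall, dist_t hω]; exact hy))) (fun y => g (ω * y)) ⟨fun y hy => ?_, ?_⟩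
      (fun y hy => ?_) (conj ω * z) (by rw [mem_ball, dist_s hω]; exact hz)
    · simpa only [ts hω] using this
    · exact harm_comp (f := fun y => ω * y)
        (hg.1 _ (by rw [mem_ball, dist_t hω]; exact hy)) (by fun_prop)
    · refine hg.2.comp (f := fun y => ω * y) (by fun_prop) fun y hy => ?_
      rw [closure_ball _ hρ.ne'] at hy ⊢
      rw [mem_closedBall, dist_t hω]; exact hy
    · have := hs (ω * y) (by rw [mem_sphere, dist_t hω]; exact hy)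
      simpa only [st hω] using this
  · simpa only [ann_t hω, st hω] using g3 t ht
  · simpa only [nt hω] using g4

theorem msup_le (hω : ‖ω‖ = 1) (r A B : ℝ) (z₀ z₁ : ℂ) :
    Msup r A B z₀ z₁ ≤ Msup r A B (ω * z₀) (ω * z₁) := by
  refine iSup₂_le fun u hu => le_iSup₂_of_le (fun z => u (conj ω * z)) (adm hω hu) ?_
  simp only [st hω, le_refl]

theorem qd (hω : ‖ω‖ = 1) (r : ℝ) (z₀ z₁ a b : ℂ) (c : ℝ) (z : ℂ) :
    QD r (ω * z₀) (ω * z₁) a b c (ω * z) = QD r z₀ z₁ a b c z * conj ω ^ 2 := by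
  have h0 : ω ≠ 0 := fun e => by simp [e] at hω
  have e1 : ∀ y : ℂ, ω * z * conj (ω * y) = z * conj y := fun y => by
    rw [map_mul]; linear_combination (z * conj y) * cm hω
  have e2 : conj ω = ω⁻¹ := eq_inv_of_mul_eq_one_left (cm hω)
  simp only [QD, mul_div_mul_left _ _ h0, e1, e2]
  rw [mul_pow, div_mul_eq_div_div_swap, inv_pow, div_eq_mul_inv _ (ω ^ 2)]

theorem crit (hω : ‖ω‖ = 1) {r A B : ℝ} {z₀ z₁ a b : ℂ} {c : ℝ} {κ : ℝ → ℂ} {v g : ℂ → ℝ}
    (h : Crit r A B z₀ z₁ a b c κ v g) :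
    Crit r A B (ω * z₀) (ω * z₁) a b c (fun t => ω * κ t) (fun z => v (conj ω * z))
      (fun z => g (conj ω * z)) := by
  have h0 : ω ≠ 0 := fun e => by simp [e] at hω
  have h0' : conj ω ≠ 0 := by simpa using h0
  have im : ∀ z, z ∈ (fun t => ω * κ t) '' Icc 0 1 ↔ conj ω * z ∈ κ '' Icc 0 1 := fun z =>
    ⟨fun ⟨t, ht, e⟩ => ⟨t, ht, by rw [← e, st hω]⟩, fun ⟨t, ht, e⟩ => ⟨t, ht, by
      simp only [e, ts hω]⟩⟩
  have mW : ∀ z ∈ ann r \ (fun t => ω * κ t) '' Icc 0 1, conj ω * z ∈ ann r \ κ '' Icc 0 1 :=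
    fun z hz => ⟨(ann_s hω).2 hz.1, fun e => hz.2 ((im z).2 e)⟩
  have n0 : ∀ z, z ≠ ω * z₀ → conj ω * z ≠ z₀ := fun z hz e => hz (by rw [← e, ts hω])
  have tt := fun p => tend (conj ω) (S := ann r) (T := ann r) (fun z hz => (ann_s hω).2 hz) p
  have cs : ∀ p, Tendsto (fun z => conj ω * z) (𝓝 (ω * p)) (𝓝 p) := fun p =>
    (continuous_const.mul continuous_id).tendsto' _ _ (st hω p)
  have an : ∀ z, AnalyticAt ℂ (fun z => conj ω * z) z := fun z => by fun_prop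
  have q0 : ∀ z, QD r (ω * z₀) (ω * z₁) a b c (ω * z) = 0 ↔ QD r z₀ z₁ a b c z = 0 := fun z => by
    rw [qd hω]; simp [h0]
  refine
    { bal := h.bal
      b_ne := h.b_ne
      cont := continuousOn_const.mul h.cont
      inj := fun s hs t ht e => h.inj hs ht (mul_left_cancel₀ h0 e)
      start := by simp only [h.start]
      mem := by simpa only [nt hω] using h.mem
      avoid := fun e => h.avoid (by simpa only [st hω] using (im _).1 e)
      traj := fun t ht hr => ?_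
      touch := by simpa only [nt hω, q0] using h.touch
      v_cont := h.v_cont.comp (by fun_prop) fun z hz => (ann_s hω).2 hz
      v_bdd := h.v_bdd.imp fun C hC z hz => hC _ ((ann_s hω).2 hz)
      v_harm := fun z hz => harm_comp (h.v_harm _ (mW z hz)) (an z)
      v_zero := fun z hz hk => h.v_zero _ ((ann_s hω).2 hz) ((im z).1 hk)
      v_outer := fun p hp => (h.v_outer _ (by rw [ns hω, hp])).comp (tt p)
      v_inner := fun p hp hk =>
        (h.v_inner _ (by rw [ns hω, hp]) fun e => hk ((im p).2 e)).comp (tt p)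
      v_hug := fun p hp hk => (h.v_hug _ (by rw [ns hω, hp]) fun e => hk ?_).comp (tt p)
      v_pos := fun t ht hr => (cs _).eventually (h.v_pos t ht (by rwa [nt hω] at hr))
      g_harm := fun z hz => harm_comp (h.g_harm _ ⟨mW z hz.1, n0 z hz.2⟩) (an z)
      g_pole := ?_
      g_bd := fun p hp => (h.g_bd _ ?_).comp (tend _ mW p)
      prod := fun z hz hn => ?_
      end_zero := by simpa only [nt hω, q0] using h.end_zero
      end_neg := fun hA => ?_ }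
  · obtain ⟨a1, ρ, hρ, e⟩ := h.traj t ht (by rwa [nt hω] at hr)
    refine ⟨analyticAt_const.mul a1, ρ, hρ, ?_⟩
    rw [qd hω, deriv_const_mul _ a1.differentiableAt, ← e]
    linear_combination (QD r z₀ z₁ a b c (κ t) * deriv κ t ^ 2 * (conj ω * ω + 1)) * cm hω
  · have := map_mem_closure (f := fun z => ω * z) (by fun_prop) e
      (t := sphere 0 r \ (fun t => ω * κ t) '' Icc 0 1) fun y hy =>
        ⟨by simpa [hω] using hy.1, fun e' => hy.2 (by simpa only [st hω] using (im _).1 e')⟩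
    simpa only [ts hω] using this
  · obtain ⟨H, H1, H2⟩ := h.g_pole
    refine ⟨fun z => H (conj ω * z), harm_comp (by rwa [st hω]) (an _), ?_⟩
    have := tend (conj ω) (S := {ω * z₀}ᶜ) (T := {z₀}ᶜ) n0 (ω * z₀)
    rw [st hω] at this
    filter_upwards [this.eventually H2] with z hz
    rw [hz, ← dist_eq_norm, ← dist_eq_norm, ← dist_s hω z, st hω]
  · have e : ann r \ (fun t => ω * κ t) '' Icc 0 1 =
        Homeomorph.mulLeft₀ (conj ω) h0' ⁻¹' (ann r \ κ '' Icc 0 1) :=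
      Set.ext fun z => ⟨mW z, fun hz => ⟨(ann_s hω).1 hz.1, fun e => hz.2 ((im z).1 e)⟩⟩
    rw [e, ← Homeomorph.preimage_frontier] at hp
    exact hp
  · have hd : deriv (fun z => conj ω * z) z = conj ω := by simp
    rw [grad_comp (harm_diff (h.v_harm _ (mW z hz))) (an z).differentiableAt,
      grad_comp (harm_diff (h.g_harm _ ⟨mW z hz, n0 z hn⟩)) (an z).differentiableAt, hd]
    conv_rhs => rw [← ts hω z, qd hω, ← h.prod _ (mW z hz) (n0 z hn)]
    ring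
  · obtain ⟨a1, a2, ⟨C, hC⟩, T, T1, T2, T3, T4⟩ := h.end_neg hA
    refine ⟨(ann_t hω).2 a1, fun e => a2 ((q0 _).1 e), ⟨C, ?_⟩, fun t => ω * T t,
      continuousOn_const.mul T1, by simp only [T2], fun t ht => ?_, by simpa only [nt hω] using T4⟩
    · filter_upwards [(cs _).eventually hC] with z hz
      rwa [← dist_eq_norm, ← dist_s hω z, st hω, dist_eq_norm]
    · simpa only [ann_t hω, st hω] using T3 t ht

end BrP

theorem br : S_BR := by
  intro r A B z₁ u h0 h1 hA hB ⟨⟨u1, u2, u3⟩, ho, hi, γ, g1, g2, g3, g4⟩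
  set w : ℂ → ℝ := fun z => (max (u z) ((A - 1 : ℝ) : EReal)).toReal with hw
  have e : ∀ z ∈ ann r, (w z : EReal) = max (u z) ((A - 1 : ℝ) : EReal) := fun z hz =>
    BrP.coe_max (u2 z hz) _
  have lt : ∀ z ∈ ann r, ∀ y : ℝ, w z < y ↔ u z < y ∧ A - 1 < y := fun z hz y => by
    rw [← EReal.coe_lt_coe_iff, e z hz, max_lt_iff, EReal.coe_lt_coe_iff]
  have le : ∀ z ∈ ann r, ∀ y : ℝ, w z ≤ y ↔ u z ≤ y ∧ A - 1 ≤ y := fun z hz y => by
    rw [← EReal.coe_le_coe_iff, e z hz, max_le_iff, EReal.coe_le_coe_iff]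
  have ls : ∀ (p : ℂ) (c : ℝ), A ≤ c → Tendsto u (𝓝[ann r] p) (𝓝 (c : EReal)) →
      LS w (ann r) p c := fun p c hc ht ε hε => by
    filter_upwards [ht.eventually (gt_mem_nhds
      (EReal.coe_lt_coe_iff.2 (lt_add_of_pos_right c hε))), self_mem_nhdsWithin] with z a1 a2
    exact (lt z a2 _).2 ⟨a1, by linarith⟩
  refine ⟨w, γ, ⟨⟨fun x hx y hy => ?_, fun c ρ hρ hb g hg hs z hz => ?_⟩,
    fun p hp => ls p A le_rfl (ho p hp), fun p hp => ls p B (hA.trans hB) (hi p hp), g1, g2,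
    fun t ht => ⟨(g3 t ht).1.1.le, (g3 t ht).1.2⟩, g4,
    fun t ht _ => (le _ (g3 t ht).1 0).2 ⟨(g3 t ht).2, by linarith⟩,
    ∅, finite_empty, fun t ht hr => absurd hr (g3 t ht).1.1.ne'⟩, fun t ht => (g3 t ht).1.1, e⟩
  · obtain ⟨a1, a2⟩ := (lt x hx y).1 hy
    filter_upwards [u1 x hx _ a1, self_mem_nhdsWithin] with z b1 b2
    exact (lt z b2 y).2 ⟨b1, a2⟩
  · have hs' := fun y hy => (le y (hb (sphere_subset_closedBall hy)) _).1 (hs y hy)
    exact (le z (hb (ball_subset_closedBall hz)) _).2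
      ⟨u3 c ρ hρ hb g hg (fun y hy => (hs' y hy).1) z hz,
        (Sub.const (A - 1) (ann r)).2 c ρ hρ hb g hg (fun y hy => (hs' y hy).2) z hz⟩

theorem mreal (hG : S_GEN) (hB : S_BR) : S_MREAL := by
  intro r A B z₀ z₁ h
  have hn : 0 < ‖z₁‖ := h.r0.trans h.m1.1
  have up : Msup r A B z₀ z₁ ≤ (max A B : ℝ) := iSup₂_le fun u hu => by
    obtain ⟨w, γ, a1, -, a3⟩ := hB r A B z₁ u h.r0 h.r1 h.A0 h.B0.le hu
    refine (le_max_left _ _).trans ((a3 z₀ h.m0).symm.trans_le ?_)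
    exact EReal.coe_le_coe_iff.2 (a1.sh.le_hf h.r0 h.r1 a1.outer a1.inner z₀ h.m0).2
  have lo : (A : EReal) ≤ Msup r A B z₀ z₁ := by
    have hi : 1 ≤ ‖z₁‖⁻¹ := (one_le_inv₀ hn).2 h.m1.2.le
    have hc : Continuous fun s : ℝ => (s : ℂ) * z₁ := by fun_prop
    have hs : ∀ s ∈ Icc (1 : ℝ) ‖z₁‖⁻¹, r < ‖(s : ℂ) * z₁‖ ∧ ‖(s : ℂ) * z₁‖ ≤ 1 := fun s hs => by
      rw [norm_mul, norm_real, Real.norm_of_nonneg (by linarith [hs.1])]
      exact ⟨h.m1.1.trans_le (le_mul_of_one_le_left hn.le hs.1),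
        (mul_le_mul_of_nonneg_right hs.2 hn.le).trans (inv_mul_cancel₀ hn.ne').le⟩
    refine hG r A B z₀ z₁ ((fun s : ℝ => (s : ℂ) * z₁) '' Icc 1 ‖z₁‖⁻¹) (fun _ => A) h.r0 h.m0
      h.m1 h.A0 ⟨isCompact_Icc.image hc, isPreconnected_Icc.image _ hc.continuousOn, ?_,
        ⟨1, ⟨le_rfl, hi⟩, by simp⟩, ⟨_, ⟨_, ⟨hi, le_rfl⟩, rfl⟩, by simp [hn.ne']⟩, Sub.const _ _,
        fun _ _ _ => h.A0, fun p _ => LS.of_tendsto tendsto_const_nhds le_rfl,
        fun p _ => LS.of_tendsto tendsto_const_nhds (h.A0.trans h.B0.le),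
        ∅, finite_empty, fun p _ _ _ => LS.of_tendsto tendsto_const_nhds h.A0⟩
    rintro _ ⟨s, a, rfl⟩
    exact ⟨(hs s a).1.le, (hs s a).2⟩
  have e : ((Msup r A B z₀ z₁).toReal : EReal) = Msup r A B z₀ z₁ :=
    EReal.coe_toReal (up.trans_lt (EReal.coe_lt_top _)).ne
      ((EReal.bot_lt_coe _).trans_le lo).ne'
  refine ⟨(Msup r A B z₀ z₁).toReal, e.symm, EReal.coe_le_coe_iff.1 (lo.trans e.ge),
    fun K w hK => EReal.coe_le_coe_iff.1 ((hG r A B z₀ z₁ K w h.r0 h.m0 h.m1 h.A0 hK).trans e.ge),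
    fun η hη => ?_⟩
  have hl : (((Msup r A B z₀ z₁).toReal - η : ℝ) : EReal) < Msup r A B z₀ z₁ :=
    (EReal.coe_lt_coe_iff.2 (sub_lt_self _ hη)).trans_le e.le
  obtain ⟨u, hu⟩ := lt_iSup_iff.1 hl
  obtain ⟨hu1, hu2⟩ := lt_iSup_iff.1 hu
  obtain ⟨w, γ, a1, -, a3⟩ := hB r A B z₁ u h.r0 h.r1 h.A0 h.B0.le hu1
  exact ⟨w, γ, a1, EReal.coe_lt_coe_iff.1
    (hu2.trans_le ((le_max_left _ _).trans (a3 z₀ h.m0).ge))⟩

theorem rot : S_ROT := by
  intro r A B z₀ z₁ ω hω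
  refine ⟨fun u hu => BrP.adm hω hu, le_antisymm ?_ (BrP.msup_le hω ..),
    fun a b c κ v g h => BrP.crit hω h⟩
  have := BrP.msup_le (ω := conj ω) (by simpa using hω) r A B (ω * z₀) (ω * z₁)
  rwa [BrP.st hω, BrP.st hω] at this

end Pool.Agent.P.MP_3bd355_an
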