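import Pool.Agent.P.MP_3bd355_an.Stmts

/-! Package 16: the class of configurations is closed. -/

open Set Filter Metric Complex InnerProductSpace
open scoped Topology ComplexConjugate Real

namespace Pool.Agent.P.MP_3bd355_an

namespace ClosedP

/-- Passing to the limit in the quadratic estimate. -/
theorem lim_quad (hL : S_LIM) {r A B A' B' C : ℝ} {Ls : ℕ → Set ℂ} {L : Set ℂ}
    {vs ωs : ℕ → ℂ → ℝ} {v ω : ℂ → ℝ} (hc : Cont r L) (hcs : ∀ k, Cont r (Ls k)) (hH : HL Ls L)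
    (h1 : ∀ p ∈ L, ‖p‖ < 1) (h1s : ∀ k, ∀ p ∈ Ls k, ‖p‖ < 1)
    (hvs : ∀ k, Sol r A B (Ls k) (vs k)) (hv : Sol r A B L v)
    (hωs : ∀ k, Sol r A' B' (Ls k) (ωs k)) (hω : Sol r A' B' L ω)
    (hq : ∀ᶠ k in atTop, ∀ z ∈ main r (Ls k), -C * ωs k z ^ 2 ≤ vs k z) :
    ∀ z ∈ main r L, -C * ω z ^ 2 ≤ v z := by
  intro z hz
  have t1 := (hL r A B Ls L vs v hc hcs hH (Or.inr h1) (fun k => Or.inr (h1s k)) hvs hv).1
  have t2 := (hL r A' B' Ls L ωs ω hc hcs hH (Or.inr h1) (fun k => Or.inr (h1s k)) hωs hω).1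
  have u1 : Tendsto (fun k => vs k z) atTop (𝓝 (v z)) := t1.tendsto_at hz
  have u2 : Tendsto (fun k => ωs k z) atTop (𝓝 (ω z)) := t2.tendsto_at hz
  have u3 : Tendsto (fun k => -C * ωs k z ^ 2) atTop (𝓝 (-C * ω z ^ 2)) :=
    (u2.pow 2).const_mul _
  refine le_of_tendsto_of_tendsto u3 u1 ?_
  have hk := hH.kern hc (isCompact_singleton (x := z)) (singleton_subset_iff.2 hz)
  filter_upwards [hq, hk] with k h3 h4
  exact h3 z (h4 (mem_singleton z))

/-- The dilated continuum. -/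
def dil (l : ℝ) (K : Set ℂ) : Set ℂ := (fun z => (l : ℂ) * z) '' K

theorem norm_dil {l : ℝ} (hl : 0 < l) (z : ℂ) : ‖(l : ℂ) * z‖ = l * ‖z‖ := by
  rw [norm_mul, Complex.norm_real, Real.norm_of_nonneg hl.le]

theorem cont_dil {r l : ℝ} {K : Set ℂ} (hK : Cont r K) (hl : 0 < l) (hl1 : l ≤ 1)
    (hm : ∀ p ∈ K, r ≤ l * ‖p‖) : Cont r (dil l K) where
  r0 := hK.r0
  r1 := hK.r1
  cpt := hK.cpt.image (continuous_const.mul continuous_id)
  conn := hK.conn.image _ (continuous_const.mul continuous_id).continuousOn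
  nt := by
    refine hK.nt.image ?_
    intro a b hab
    have h0 : (l : ℂ) ≠ 0 := by exact_mod_cast hl.ne'
    exact mul_left_cancel₀ h0 hab
  sub := by
    rintro _ ⟨p, hp, rfl⟩
    have h1 := (hK.sub hp).2
    refine ⟨?_, ?_⟩
    · rw [norm_dil hl]; exact hm p hp
    · rw [norm_dil hl]; nlinarith [norm_nonneg p]
  low := by
    rintro _ ⟨p, hp, rfl⟩
    have h1 := hK.low p hp
    simp only [mul_im, ofReal_re, ofReal_im, zero_mul, add_zero]
    exact mul_nonpos_of_nonneg_of_nonpos hl.le h1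

/-- Positivity is inherited by the dilated continuum. -/
theorem pos_dil {r A B l : ℝ} {K : Set ℂ} {u w : ℂ → ℝ} (hA : A ≤ 0) (hB : 0 < B)
    (hK : Cont r K) (hl : 0 < l) (hl1 : l ≤ 1) (hm : ∀ p ∈ K, r ≤ l * ‖p‖)
    (h1 : ∀ p ∈ K, ‖p‖ < 1) (hu : Sol r A B K u) (hp : Pos r K u) (hw : Sol r A B (dil l K) w) :
    Pos r (dil l K) w := by
  have hK' := cont_dil hK hl hl1 hm
  have h0 : (l : ℂ) ≠ 0 := by exact_mod_cast hl.ne'
  have hcont : Continuous (fun z : ℂ => z / l) := continuous_id.div_const _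
  have hnorm : ∀ z : ℂ, ‖z / (l : ℂ)‖ = ‖z‖ / l := by
    intro z
    rw [norm_div, Complex.norm_real, Real.norm_of_nonneg hl.le]
  set V : Set ℂ := main r (dil l K) ∩ ball 0 l with hV
  have hVo : IsOpen V := hK'.isOpen_main.inter isOpen_ball
  have hmaps : MapsTo (fun z : ℂ => z / l) V (ann r) := by
    rintro z ⟨hz1, hz2⟩
    have h2 := (main_sub r _ hz1).1
    rw [mem_ball_zero_iff] at hz2
    refine ⟨?_, ?_⟩
    · show r < ‖z / (l : ℂ)‖
      rw [hnorm, lt_div_iff₀ hl]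
      have := h2.1
      nlinarith [hK.r0]
    · show ‖z / (l : ℂ)‖ < 1
      rw [hnorm, div_lt_one hl]
      exact hz2
  have hub := fun z => hu.bounds hK (lo := A) (hi := B) hA le_rfl (hA.trans hB.le) hB.le
    (hA.trans hB.le) le_rfl z
  have hwb := fun z => hw.bounds hK' (lo := A) (hi := B) hA le_rfl (hA.trans hB.le) hB.le
    (hA.trans hB.le) le_rfl z
  have hsub : Sub (fun z => u (z / l)) V := by
    refine (Pos.sub hK hu hp).comp (isOpen_ann r) hVo ?_ ?_ hmaps
    · exact (differentiable_id.div_const _).differentiableOn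
    · intro z _
      have : deriv (fun z : ℂ => z / l) z = 1 / l := by
        simp
      rw [this]
      exact one_div_ne_zero h0
  have hsub2 : Sub (fun z => u (z / l) - w z) V :=
    hsub.sub_harm (fun z hz => hw.harm z hz.1)
  have hfin : (closure (Ex r (dil l K)) \ Ex r (dil l K) ∪
      dil l (closure (Ex r K) \ Ex r K)).Finite :=
    hK'.exc_finite.union (hK.exc_finite.image _)
  have hcmp : ∀ z ∈ V, u (z / l) - w z ≤ 0 := by
    refine hsub2.mpx hVo ((bdd_main r _).subset inter_subset_left) ⟨B - A, fun z _ => ?_⟩ hfin ?_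
    · linarith [(hub (z / l)).2, (hwb z).1]
    intro p hpf hpS
    have hpc : p ∈ closure V := frontier_subset_closure hpf
    have hpV : p ∉ V := by
      rw [hVo.frontier_eq] at hpf
      exact hpf.2
    have hpn : ‖p‖ ≤ l := by
      have := closure_mono (inter_subset_right : V ⊆ ball 0 l) hpc
      exact mem_closedBall_zero_iff.1 (closure_ball_subset_closedBall this)
    rcases hpn.eq_or_lt with hpe | hpl
    · have hq : ‖p / (l : ℂ)‖ = 1 := by rw [hnorm, hpe, div_self hl.ne']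
      have t1 := hu.outer hK (Or.inr h1) hq
      have t2 : Tendsto (fun z : ℂ => z / l) (𝓝[V] p) (𝓝[ann r] (p / l)) :=
        hcont.continuousWithinAt.tendsto_nhdsWithin hmaps
      have t3 : LS (fun z => u (z / l) - A) V p (A - A) :=
        (LS.of_tendsto (t1.comp t2) le_rfl).sub_tendsto tendsto_const_nhds
      rw [sub_self] at t3
      exact t3.of_le (Eventually.of_forall fun z => by linarith [(hwb z).1])
    · have hpf' : p ∈ frontier (main r (dil l K)) := by
        rw [hK'.isOpen_main.frontier_eq]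
        exact ⟨closure_mono inter_subset_left hpc,
          fun h => hpV ⟨h, mem_ball_zero_iff.2 hpl⟩⟩
      obtain ⟨-, -, hcase⟩ := hK'.frontier_sub hpf'
      have hEx : p ∈ Ex r (dil l K) → LS (fun z => u (z / l) - w z) V p 0 := by
        intro hE
        have t1 := (hw.atB p hE).mono_left (nhdsWithin_mono p (inter_subset_left : V ⊆ _))
        have t2 : LS (fun z => u (z / l)) V p B :=
          LS.of_eventually (Eventually.of_forall fun z => (hub _).2)
        have t3 := t2.sub_tendsto t1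
        rwa [sub_self] at t3
      rcases hcase with hpL | hE | h1p
      · by_cases hcl : p ∈ closure (Ex r (dil l K))
        · by_cases hE : p ∈ Ex r (dil l K)
          · exact hEx hE
          · exact absurd (Or.inl ⟨hcl, hE⟩) hpS
        · have t1 := (hw.atL p hpL hcl).mono_left (nhdsWithin_mono p (inter_subset_left : V ⊆ _))
          obtain ⟨q, hq, rfl⟩ := hpL
          have hqc : q ∉ closure (Ex r K) := fun hc =>
            hpS (Or.inr ⟨q, ⟨hc, fun hE => hE.2.1 hq⟩, rfl⟩)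
          have t2 := SolFP.tz hu.off (hu.atL q hq hqc)
          have t3 : Tendsto (fun z : ℂ => z / l) (𝓝[V] ((l : ℂ) * q)) (𝓝 q) := by
            have := hcont.tendsto ((l : ℂ) * q)
            rw [mul_div_cancel_left₀ q h0] at this
            exact this.mono_left nhdsWithin_le_nhds
          have t4 := (LS.of_tendsto (t2.comp t3) le_rfl).sub_tendsto t1
          rwa [sub_self] at t4
      · exact hEx hE
      · exact absurd (h1p ▸ hpl) (not_lt.2 hl1)
  rintro _ ⟨q, hq, rfl⟩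
  have t1 : ∀ᶠ z in 𝓝 q, 0 ≤ u z :=
    SolFP.ev_of_off (fun z hz => (hu.off z hz).ge) (hp q hq)
  have t3 : Tendsto (fun z : ℂ => z / l) (𝓝 ((l : ℂ) * q)) (𝓝 q) := by
    have := hcont.tendsto ((l : ℂ) * q)
    rwa [mul_div_cancel_left₀ q h0] at this
  have t4 : ∀ᶠ z in 𝓝 ((l : ℂ) * q), z ∈ ball (0 : ℂ) l := by
    refine isOpen_ball.mem_nhds (mem_ball_zero_iff.2 ?_)
    rw [norm_dil hl]
    nlinarith [h1 q hq]
  filter_upwards [nhdsWithin_le_nhds (t3.eventually t1), nhdsWithin_le_nhds t4,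
    self_mem_nhdsWithin] with z h2 h3 h4
  have := hcmp z ⟨h4, h3⟩
  linarith

end ClosedP

open ClosedP in
theorem closed (hn : S_QUADn) (ht : S_QUADt) (hL : S_LIM) (hE : S_SOLEX) : S_CLOSED := by
  intro r A B Ls L vs v hA hB hc hcs hH h1 h1s hvs hv hp
  obtain ⟨δ, hδ, hδL, -⟩ := hc.collar h1
  by_cases htouch : ∃ p ∈ L, ‖p‖ = r
  · obtain ⟨p0, hp0, hp0r⟩ := htouch
    have hmin : ∀ k, ∃ q ∈ Ls k, ∀ p ∈ Ls k, ‖q‖ ≤ ‖p‖ := fun k => by
      obtain ⟨q, hq, hq'⟩ := (hcs k).cpt.exists_isMinOn (hcs k).nt.nonempty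
        (continuous_norm (E := ℂ)).continuousOn
      exact ⟨q, hq, fun p hp => hq' hp⟩
    choose q hq hqm using hmin
    have hqr : ∀ k, r ≤ ‖q k‖ := fun k => ((hcs k).sub (hq k)).1
    have hq0 : ∀ k, 0 < ‖q k‖ := fun k => hc.r0.trans_le (hqr k)
    set l : ℕ → ℝ := fun k => r / ‖q k‖ with hl
    have hl0 : ∀ k, 0 < l k := fun k => div_pos hc.r0 (hq0 k)
    have hl1 : ∀ k, l k ≤ 1 := fun k => (div_le_one (hq0 k)).2 (hqr k)
    have hlq : ∀ k, l k * ‖q k‖ = r := fun k => div_mul_cancel₀ r (hq0 k).ne'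
    have hm : ∀ k, ∀ p ∈ Ls k, r ≤ l k * ‖p‖ := fun k p hp => by
      rw [← hlq k]
      exact mul_le_mul_of_nonneg_left (hqm k p hp) (hl0 k).le
    have hc' : ∀ k, Cont r (dil (l k) (Ls k)) := fun k => cont_dil (hcs k) (hl0 k) (hl1 k) (hm k)
    have h1' : ∀ k, ∀ p ∈ dil (l k) (Ls k), ‖p‖ < 1 := by
      rintro k _ ⟨p, hp, rfl⟩
      rw [norm_dil (hl0 k)]
      nlinarith [h1s k p hp, hl1 k, hl0 k, norm_nonneg p]
    have hH' : HL (fun k => dil (l k) (Ls k)) L := by
      refine hH.of_close fun ε hε => ?_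
      filter_upwards [hH.near hp0 (mul_pos hε hc.r0)] with k hk
      obtain ⟨y, hy, hyd⟩ := hk
      have hy1 : ‖y‖ < r + ε * r := by
        have := norm_sub_norm_le y p0
        rw [← dist_eq_norm] at this
        linarith
      have hlk : 1 - l k < ε := by
        have h2 := hqm k y hy
        have h3 := hlq k
        have h4 := hqr k
        have h5 : (1 - l k) * ‖q k‖ < ε * ‖q k‖ := by nlinarith
        exact lt_of_mul_lt_mul_right h5 (norm_nonneg _)
      have hd : ∀ p ∈ Ls k, dist ((l k : ℂ) * p) p < ε := by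
        intro p hp
        have e : (l k : ℂ) * p - p = -(((1 - l k : ℝ) : ℂ) * p) := by push_cast; ring
        rw [dist_eq_norm, e, norm_neg, norm_mul, Complex.norm_real,
          Real.norm_of_nonneg (by linarith [hl1 k])]
        nlinarith [h1s k p hp, hl1 k, norm_nonneg p]
      refine ⟨?_, fun p hp => ?_⟩
      · rintro _ ⟨p, hp, rfl⟩
        exact mem_thickening_iff.2 ⟨p, hp, hd p hp⟩
      · exact mem_thickening_iff.2 ⟨_, ⟨p, hp, rfl⟩, by rw [dist_comm]; exact hd p hp⟩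
    choose ws hws using fun k => hE r A B _ (hc' k) (Or.inr (h1' k))
    choose ωs hωs using fun k => hE r 1 0 _ (hc' k) (Or.inr (h1' k))
    obtain ⟨ω, hω⟩ := hE r 1 0 L hc (Or.inr h1)
    obtain ⟨C, hC⟩ := ht r (δ / 2) A B hc.r0 hc.r1 (by linarith) hA hB
    refine ⟨ω, C, hω.harm, fun z _ => hω.bounds hc le_rfl zero_le_one le_rfl zero_le_one le_rfl
      zero_le_one z, fun p hp => hω.zeroB hc h1 hp, ?_⟩
    refine lim_quad hL hc hc' hH' h1 h1' hws hv hωs hω ?_
    have hO := hH'.sub_open hc.cpt (O := ball 0 (1 - δ / 2)) isOpen_ball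
      (fun p hp => mem_ball_zero_iff.2 (by linarith [hδL p hp]))
    filter_upwards [hO] with k hk
    refine hC _ _ _ (hc' k) ⟨_, ⟨q k, hq k, rfl⟩, ?_⟩
      (fun p hp => (mem_ball_zero_iff.1 (hk hp)).le) (hws k) (hωs k)
      (pos_dil hA hB (hcs k) (hl0 k) (hl1 k) (hm k) (h1s k) (hvs k) (hp k) (hws k))
    rw [norm_dil (hl0 k), hlq k]
  · have hnt : ∀ p ∈ L, ‖p‖ ≠ r := fun p hp h => htouch ⟨p, hp, h⟩
    obtain ⟨q, hq, hq'⟩ := hc.cpt.exists_isMinOn hc.nt.nonempty
      (continuous_norm (E := ℂ)).continuousOn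
    have hqr : r < ‖q‖ := lt_of_le_of_ne (hc.sub hq).1 (hnt q hq).symm
    set d := min (‖q‖ - r) δ / 2 with hd
    have hd1 : min (‖q‖ - r) δ ≤ ‖q‖ - r := min_le_left _ _
    have hd2 : min (‖q‖ - r) δ ≤ δ := min_le_right _ _
    have hd0 : 0 < min (‖q‖ - r) δ := lt_min (by linarith) hδ
    choose ωs hωs using fun k => hE r 1 1 _ (hcs k) (Or.inr (h1s k))
    obtain ⟨ω, hω⟩ := hE r 1 1 L hc (Or.inr h1)
    obtain ⟨C, hC⟩ := hn r d A B hc.r0 hc.r1 (by linarith) hA hB.le
    refine ⟨ω, C, hω.harm, fun z _ => hω.bounds hc le_rfl zero_le_one zero_le_one zero_le_one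
      le_rfl le_rfl z, fun p hp => hω.nontouch hc hnt hp, ?_⟩
    refine lim_quad hL hc hcs hH h1 h1s hvs hv hωs hω ?_
    have hOo : IsOpen {z : ℂ | r + d < ‖z‖ ∧ ‖z‖ < 1 - d} :=
      (isOpen_lt continuous_const continuous_norm).inter (isOpen_lt continuous_norm continuous_const)
    have hO := hH.sub_open hc.cpt hOo (fun p hp => by
      have h2 : ‖q‖ ≤ ‖p‖ := hq' hp
      exact ⟨by linarith, by linarith [hδL p hp]⟩)
    filter_upwards [hO] with k hk
    exact hC _ _ _ (hcs k) (fun p hp => ⟨(hk hp).1.le, (hk hp).2.le⟩) (hvs k) (hωs k) (hp k)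

end Pool.Agent.P.MP_3bd355_an
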