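import Pool.Agent.P.MP_3bd355_an.Stmts

/-! Confinement of the extremal arc, and the case of opposite points. -/

open Set Filter Metric Complex InnerProductSpace
open scoped Topology ComplexConjugate Real

namespace Pool.Agent.P.MP_3bd355_an

namespace ConfP

/-- A closed condition that holds for all but finitely many interior parameters. -/
theorem im_le {κ : ℝ → ℂ} (hc : ContinuousOn κ (Icc 0 1)) (hi : InjOn κ (Icc 0 1)) {S : Set ℂ}
    (hS : S.Finite) (h : ∀ t ∈ Ioo (0 : ℝ) 1, κ t ∉ S → (κ t).im ≤ 0) :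
    ∀ t ∈ Icc (0 : ℝ) 1, (κ t).im ≤ 0 := by
  intro t ht
  have hf : (Icc (0 : ℝ) 1 ∩ κ ⁻¹' S).Finite :=
    Finite.of_finite_image (hS.subset (by rintro _ ⟨s, hs, rfl⟩; exact hs.2))
      (hi.mono inter_subset_left)
  have hd : Dense (univ \ (Icc (0 : ℝ) 1 ∩ κ ⁻¹' S)) := dense_univ.sdiff_finite hf
  have h1 : t ∈ closure (Ioo (0 : ℝ) 1 ∩ (univ \ (Icc (0 : ℝ) 1 ∩ κ ⁻¹' S))) := by
    refine closure_minimal (hd.open_subset_closure_inter isOpen_Ioo) isClosed_closure ?_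
    rwa [closure_Ioo zero_ne_one]
  refine ContinuousWithinAt.closure_le (f := fun s => (κ s).im) (g := fun _ => 0) h1
    (continuous_im.continuousAt.comp_continuousWithinAt
      ((hc t ht).mono fun s hs => Ioo_subset_Icc_self hs.1)) continuousWithinAt_const ?_
  exact fun s hs => h s hs.1 fun hS => hs.2.2 ⟨Ioo_subset_Icc_self hs.1, hS⟩

/-- A point in all half planes lies on the ray. -/
theorem on_ray {z₁ w : ℂ} (h0 : z₁ ≠ 0) (h : ∀ ω : ℂ, (ω * z₁).im < 0 → (ω * w).im ≤ 0) :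
    ∃ s : ℝ, 0 ≤ s ∧ w = s * z₁ := by
  have key : ∀ x : ℝ, x * (w / z₁).im - (w / z₁).re ≤ 0 := fun x => by
    have h1 := h ((x - I) / z₁) (by rw [div_mul_cancel₀ _ h0]; simp)
    rw [show (x - I) / z₁ * w = (x - I) * (w / z₁) by ring] at h1
    simpa [sub_eq_add_neg] using h1
  have him : (w / z₁).im = 0 := by
    by_contra hne
    have := key (((w / z₁).re + 1) / (w / z₁).im)
    rw [div_mul_cancel₀ _ hne] at this
    linarith
  refine ⟨(w / z₁).re, by simpa using key 0, ?_⟩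
  have : (((w / z₁).re : ℝ) : ℂ) = w / z₁ := Complex.ext (by simp) (by simp [him])
  rw [this, div_mul_cancel₀ _ h0]

theorem preconn_slit {r : ℝ} (h0 : 0 < r) {z₁ : ℂ} (h1 : z₁ ∈ ann r) (R : ℝ) :
    IsPreconnected (ann r \ slit z₁ R) := by
  have hp : 0 < ‖z₁‖ := h0.trans h1.1
  have hz : z₁ ≠ 0 := norm_pos_iff.1 hp
  set f : ℝ × ℝ → ℂ := fun p => -z₁ * (p.1 * exp (p.2 * I)) with hf
  have hc : Continuous f := by simp only [hf]; fun_prop
  have hlt : r / ‖z₁‖ < 1 / ‖z₁‖ := div_lt_div_of_pos_right (h1.1.trans h1.2) hp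
  refine ((isPreconnected_Ioo.prod isPreconnected_Ioo : IsPreconnected
    (Ioo (r / ‖z₁‖) (1 / ‖z₁‖) ×ˢ Ioo (-π) π)).image f hc.continuousOn).subset_closure ?_ ?_
  · rintro _ ⟨⟨ρ, θ⟩, ⟨hρ, hθ⟩, rfl⟩
    have hρ0 : 0 < ρ := (div_pos h0 hp).trans hρ.1
    have hn : ‖f (ρ, θ)‖ = ρ * ‖z₁‖ := by
      simp only [hf, norm_mul, norm_neg, norm_real, norm_exp_ofReal_mul_I, mul_one,
        Real.norm_eq_abs, abs_of_pos hρ0]
      exact mul_comm _ _
    refine ⟨⟨?_, ?_⟩, ?_⟩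
    · rw [hn]; exact (div_lt_iff₀ hp).1 hρ.1
    · rw [hn]; exact (lt_div_iff₀ hp).1 hρ.2
    · rintro ⟨s, hs, -, e⟩
      have e1 : (ρ : ℂ) * exp (θ * I) = -s := by
        refine mul_left_cancel₀ (neg_ne_zero.2 hz) ?_
        rw [show -z₁ * -(s : ℂ) = s * z₁ by ring]
        exact e
      have e2 := congrArg Complex.im e1
      have e3 := congrArg Complex.re e1
      simp only [im_ofReal_mul, exp_ofReal_mul_I_im, neg_im, ofReal_im, neg_zero, re_ofReal_mul,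
        exp_ofReal_mul_I_re, neg_re, ofReal_re] at e2 e3
      have e4 : θ = 0 := (Real.sin_eq_zero_iff_of_lt_of_lt hθ.1 hθ.2).1
        ((mul_eq_zero.1 e2).resolve_left hρ0.ne')
      rw [e4, Real.cos_zero] at e3
      linarith
  · intro z hz'
    refine image_closure_subset_closure_image hc ⟨(‖z / -z₁‖, arg (z / -z₁)), ?_, ?_⟩
    · rw [closure_prod_eq, closure_Ioo hlt.ne, closure_Ioo (by linarith [Real.pi_pos])]
      refine ⟨?_, (neg_pi_lt_arg _).le, arg_le_pi _⟩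
      show ‖z / -z₁‖ ∈ Icc _ _
      rw [norm_div, norm_neg]
      exact ⟨div_le_div_of_nonneg_right hz'.1.1.le hp.le,
        div_le_div_of_nonneg_right hz'.1.2.le hp.le⟩
    · simp only [hf]
      rw [norm_mul_exp_arg_mul_I, mul_div_cancel₀ _ (neg_ne_zero.2 hz)]

/-- Two critical configurations with nested arcs and the same value agree. -/
theorem nested {r A B : ℝ} {z₀ z₁ a b a' b' : ℂ} {c c' : ℝ} {κ κ' : ℝ → ℂ} {v g v' g' : ℂ → ℝ}
    (h0 : 0 < r) (h1 : r < 1) (m0 : z₀ ∈ ann r) (hC : Crit r A B z₀ z₁ a b c κ v g)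
    (hC' : Crit r A B z₀ z₁ a' b' c' κ' v' g') (hs : Sub v' (ann r))
    (hK : κ '' Icc 0 1 ⊆ κ' '' Icc 0 1) (hr : ∀ t ∈ Icc (0 : ℝ) 1, r < ‖κ' t‖)
    (hp : IsPreconnected (ann r \ κ '' Icc 0 1))
    (he : v z₀ = v' z₀) : ∀ z ∈ ann r, v' z = v z := by
  have hcl : IsClosed (κ '' Icc 0 1) := (isCompact_Icc.image_of_continuousOn hC.cont).isClosed
  have hO : IsOpen (ann r \ κ '' Icc 0 1) := (isOpen_ann r).sdiff hcl
  have hS : Sub (fun z => v' z - v z) (ann r \ κ '' Icc 0 1) :=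
    (hs.mono sdiff_subset).sub_harm hC.v_harm
  have hcirc : ∀ p : ℂ, ‖p‖ = r ∨ ‖p‖ = 1 →
      Tendsto (fun z => v' z - v z) (𝓝[ann r] p) (𝓝 0) := by
    rintro p (hp | hp)
    · have hn : p ∉ κ' '' Icc 0 1 := by
        rintro ⟨t, ht, rfl⟩
        exact (hr t ht).ne' hp
      simpa using (hC'.v_inner p hp hn).sub (hC.v_inner p hp fun h => hn (hK h))
    · simpa using (hC'.v_outer p hp).sub (hC.v_outer p hp)
  have hle := hS.mp0 hO ((bdd_ann r).subset sdiff_subset) (c := 0) fun p hp => by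
    refine LS.mono (LS.of_tendsto (c := 0) ?_ le_rfl) sdiff_subset
    rw [hO.frontier_eq] at hp
    have hpc : p ∈ cann r := by
      rw [← closure_ann h0 h1]
      exact closure_mono sdiff_subset hp.1
    by_cases ha : p ∈ ann r
    · have hpK : p ∈ κ '' Icc 0 1 := by
        by_contra hn
        exact hp.2 ⟨ha, hn⟩
      have := (hC'.v_cont p ha).tendsto.sub (hC.v_cont p ha).tendsto
      rwa [hC'.v_zero p ha (hK hpK), hC.v_zero p ha hpK, sub_zero] at this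
    · refine hcirc p ?_
      by_contra hn
      push Not at hn
      exact ha ⟨lt_of_le_of_ne hpc.1 hn.1.symm, lt_of_le_of_ne hpc.2 hn.2⟩
  have heq := hS.strong hO hp ⟨m0, hC.avoid⟩ fun y hy => by
    have := hle y hy
    linarith
  intro z hz
  by_cases hzK : z ∈ κ '' Icc 0 1
  · rw [hC'.v_zero z hz (hK hzK), hC.v_zero z hz hzK]
  · have := heq z ⟨hz, hzK⟩
    linarith

theorem slit_mono (z₁ : ℂ) {R R' : ℝ} (h : R ≤ R') : slit z₁ R ⊆ slit z₁ R' :=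
  fun _ ⟨s, h1, h2, h3⟩ => ⟨s, h1, h2.trans h, h3⟩

end ConfP

open ConfP

theorem conf (hM : S_MREAL) (h1 : S_CRIT1) (h2 : S_CRIT2) (hE : S_E1) (hS : S_SC)
    (hF : S_FOLD2) : S_CONF := by
  intro r A B z₀ z₁ a b c κ v g hH him hC hv
  obtain ⟨m, hm, -, hB, -⟩ := hM r A B z₀ z₁ hH.ch
  obtain ⟨hsub, -, -, ⟨S, hSf, hS0⟩, ⟨γ, hγ⟩, -⟩ := h1 r A B z₀ z₁ a b c κ v g hH.ch hC
  obtain ⟨L, v', hcfg, hFH, -⟩ := hE r A B z₀ z₁ v γ hH hγ
  obtain ⟨K, hK⟩ := hS r A B z₁ L v' hcfg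
  have hvm : v z₀ = m := EReal.coe_eq_coe_iff.1 (hv.trans hm)
  have heq := (hF r A B L v v' z₀ hcfg.cont hcfg.ok hH.B0.le hcfg.sol hsub hγ.outer hγ.inner hFH
    hH.m0 him (hvm ▸ hB K v' (SC.gc hcfg hK))).1
  refine im_le hC.cont hC.inj hSf fun t ht htS => ?_
  by_contra hpos
  rw [not_le] at hpos
  have hm' := hC.mem t ⟨ht.1.le, ht.2⟩
  rcases hm'.1.eq_or_lt with hr | hr
  · have e1 := hS0 t (Ioo_subset_Icc_self ht) hr.symm htS
    have e2 := Sol.inner hcfg.cont hcfg.sol (hcfg.cont.upper_Ex hr.symm hpos)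
    have e3 : v' =ᶠ[𝓝[ann r] (κ t)] v := by
      filter_upwards [self_mem_nhdsWithin, nhdsWithin_le_nhds (isOpen_upH.mem_nhds hpos)]
        with z hz hz' using (heq z hz hz').symm
    have hne : (𝓝[ann r] (κ t)).NeBot := mem_closure_iff_nhdsWithin_neBot.1 (by
      rw [closure_ann hH.r0 hH.r1]
      exact ⟨hm'.1, hm'.2.le⟩)
    exact hH.B0.ne' (tendsto_nhds_unique (e2.congr' e3) e1)
  · refine (h2 r A B z₀ z₁ a b c κ v g hH.ch hC).1 t ht hr ?_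
    have e3 : v =ᶠ[𝓝 (κ t)] v' := by
      filter_upwards [(isOpen_ann r).mem_nhds ⟨hr, hm'.2⟩, isOpen_upH.mem_nhds hpos]
        with z hz hz' using heq z hz hz'
    exact (harmonicAt_congr_nhds e3).2
      (hcfg.sol.harm _ (hcfg.cont.upper_sub ⟨⟨hr, hm'.2⟩, hpos⟩))

theorem rad (hM : S_MAIN) (h1 : S_CRIT1) (hR : S_RAD1) : S_RAD := by
  intro r A B z₁ t h0 ht m0 m1 hA hh
  have hr1 : r < 1 := m1.1.trans m1.2
  have hz : z₁ ≠ 0 := norm_pos_iff.1 (h0.trans m1.1)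
  have hCH : CH r A B (-(t * z₁)) z₁ := ⟨h0, hr1, m0, m1, hA, B_pos h0 m1 hA hh⟩
  obtain ⟨⟨a, b, c, κ, v, g, hC, hv⟩, hall, huniq⟩ := hM r A B (-(t * z₁)) z₁ h0 m0 m1 hA hh
    fun s hs e => by
      have : ((s + t : ℝ) : ℂ) * z₁ = 0 := by push_cast; rw [add_mul, ← e]; ring
      exact (add_pos hs ht).ne' (ofReal_eq_zero.1 ((mul_eq_zero.1 this).resolve_right hz))
  have key : ∀ a b c κ v g, Crit r A B (-(t * z₁)) z₁ a b c κ v g →
      (v (-(t * z₁)) : EReal) = Msup r A B (-(t * z₁)) z₁ →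
      (∀ s ∈ Icc (0 : ℝ) 1, r < ‖κ s‖) ∧ ‖z₁‖ < ‖κ 1‖ ∧ κ '' Icc 0 1 = slit z₁ ‖κ 1‖ ∧
        κ 1 = (‖κ 1‖ / ‖z₁‖ : ℝ) * z₁ := fun a b c κ v g hC hv =>
    hR r A B _ z₁ a b c κ v g hCH hC fun s hs => on_ray hz fun ω hω =>
      (hall a b c κ v g hC).2.2 hv ω (by
        rw [show ω * -(t * z₁) = ((-t : ℝ) : ℂ) * (ω * z₁) by push_cast; ring, im_ofReal_mul]
        exact mul_pos_of_neg_of_neg (neg_neg_of_pos ht) hω) hω.le s hs
  obtain ⟨k1, k2, k3, k4⟩ := key a b c κ v g hC hv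
  obtain ⟨hsub, -, hcann, -⟩ := h1 r A B _ z₁ a b c κ v g hCH hC
  refine ⟨‖κ 1‖, v, k2, (hcann 1 ⟨zero_le_one, le_rfl⟩).2, ⟨fun e => ?_, fun e => (hC.end_zero e).1⟩,
    k3 ▸ hC.v_harm, hC.v_cont, k3 ▸ hC.v_zero, fun hA' => k4 ▸ (hC.end_neg hA').2.2.1,
    (hall a b c κ v g hC).2.1 k1, hv, fun u hu hu0 z hz => ?_⟩
  · by_contra hne
    exact (hC.end_neg (lt_of_le_of_ne hA hne)).1.2.ne e
  · obtain ⟨a', b', c', κ', v', g', hC', -, he⟩ := huniq u hu hu0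
    have hv' : (v' (-(t * z₁)) : EReal) = Msup r A B (-(t * z₁)) z₁ := (he _ m0).symm.trans hu0
    obtain ⟨l1, -, l3, -⟩ := key a' b' c' κ' v' g' hC' hv'
    obtain ⟨hsub', -⟩ := h1 r A B _ z₁ a' b' c' κ' v' g' hCH hC'
    have e0 : v (-(t * z₁)) = v' (-(t * z₁)) := EReal.coe_eq_coe_iff.1 (hv.trans hv'.symm)
    rw [he z hz]
    congr 1
    rcases le_total ‖κ 1‖ ‖κ' 1‖ with hle | hle
    · exact nested h0 hr1 m0 hC hC' hsub' (by rw [k3, l3]; exact slit_mono _ hle) l1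
        (k3 ▸ preconn_slit h0 m1 _) e0 z hz
    · exact (nested h0 hr1 m0 hC' hC hsub (by rw [k3, l3]; exact slit_mono _ hle) k1
        (l3 ▸ preconn_slit h0 m1 _) e0.symm z hz).symm

end Pool.Agent.P.MP_3bd355_an
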