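import Pool.Agent.P.MP_3bd355_an.Stmts

/-! Assembly of the structure of extremal configurations. -/

open Set Filter Metric Complex InnerProductSpace
open scoped Topology ComplexConjugate Real

namespace Pool.Agent.P.MP_3bd355_an

theorem fr (hR : S_RMO) (hP : S_PIC) (hV : S_PV) (hT : S_TIP) : S_FR := by
  intro r A B z₁ L v hc
  obtain ⟨φ, ψ, hφ⟩ := hR r L hc.cont
  obtain ⟨h, hh, hb⟩ := hφ.exists_height hc.cont
  have hU := hφ.unif hc.cont hh hb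
  obtain ⟨s0, s1, hp⟩ := hP r L _ _ h hU
  have hv := hV r A B z₁ L v _ _ h s0 s1 hc hU hp
  exact ⟨φ, _, h, s0, s1, hc, hU, hp, hv, hT r A B z₁ L v _ _ h s0 s1 hc hU hv⟩

theorem sc (hF : S_FR) (hZ : S_ZEX) (hT : S_TPATH) : S_SC := by
  intro r A B z₁ L v hc
  rcases hc.A0.eq_or_lt with hA | hA
  · exact ⟨L, hc.sc_zero hA⟩
  · obtain ⟨φ, F, h, s0, s1, hf⟩ := hF r A B z₁ L v hc
    obtain ⟨y, -, hy⟩ := hZ r A B z₁ L v φ F h s0 s1 hf hA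
    obtain ⟨T, -, -, -, -, -, hK⟩ := hT r A B z₁ L v φ F h s0 s1 y _ hf hy
      (hc.cont.upper_sub (base_mem hc.cont.r0 hc.cont.r1))
      (base_mem hc.cont.r0 hc.cont.r1).2.le
    exact ⟨_, hK⟩

namespace CoreP

/-- The affine parametrisation of an interval. -/
def par (y1 y0 t : ℝ) : ℝ := y1 + t * (y0 - y1)

lemma par_zero (y1 y0 : ℝ) : par y1 y0 0 = y1 := by simp [par]

lemma par_one (y1 y0 : ℝ) : par y1 y0 1 = y0 := by simp [par]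

lemma par_inj {y1 y0 : ℝ} (h : y1 ≠ y0) : Function.Injective (par y1 y0) := by
  intro s t hst
  have : (s - t) * (y0 - y1) = 0 := by unfold par at hst; linarith
  rcases mul_eq_zero.1 this with h1 | h1
  · linarith
  · exact absurd (by linarith) h

lemma continuous_par (y1 y0 : ℝ) : Continuous (par y1 y0) := by unfold par; fun_prop

lemma par_image (y1 y0 : ℝ) : par y1 y0 '' Icc 0 1 = uIcc y1 y0 := by
  rw [← segment_eq_uIcc, segment_eq_image']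
  rfl

lemma par_mem {y1 y0 t : ℝ} (ht : t ∈ Icc (0 : ℝ) 1) : par y1 y0 t ∈ uIcc y1 y0 :=
  par_image y1 y0 ▸ mem_image_of_mem _ ht

lemma uIoo_iff {y1 y0 x : ℝ} : x ∈ uIoo y1 y0 ↔ x ∈ uIcc y1 y0 ∧ x ≠ y1 ∧ x ≠ y0 := by
  rcases le_total y1 y0 with h | h
  · rw [uIoo_of_le h, uIcc_of_le h]
    constructor
    · rintro ⟨a, b⟩; exact ⟨⟨a.le, b.le⟩, a.ne', b.ne⟩
    · rintro ⟨⟨a, b⟩, c, d⟩; exact ⟨lt_of_le_of_ne a c.symm, lt_of_le_of_ne b d⟩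
  · rw [uIoo_of_ge h, uIcc_of_ge h]
    constructor
    · rintro ⟨a, b⟩; exact ⟨⟨a.le, b.le⟩, b.ne, a.ne'⟩
    · rintro ⟨⟨a, b⟩, c, d⟩; exact ⟨lt_of_le_of_ne a d.symm, lt_of_le_of_ne b c⟩

lemma par_ne {y1 y0 t : ℝ} (h : y1 ≠ y0) (ht : t ≠ 1) : par y1 y0 t ≠ y0 := fun he =>
  ht (par_inj h (he.trans (par_one y1 y0).symm))

lemma par_mem_oo {y1 y0 t : ℝ} (h : y1 ≠ y0) (ht : t ∈ Ioo (0 : ℝ) 1) :
    par y1 y0 t ∈ uIoo y1 y0 :=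
  uIoo_iff.2 ⟨par_mem ⟨ht.1.le, ht.2.le⟩,
    fun he => ht.1.ne' (par_inj h (he.trans (par_zero y1 y0).symm)), par_ne h ht.2.ne⟩

lemma exists_par {y1 y0 x : ℝ} (hx : x ∈ uIoo y1 y0) : ∃ t ∈ Ioo (0 : ℝ) 1, par y1 y0 t = x := by
  obtain ⟨h1, h2, h3⟩ := uIoo_iff.1 hx
  rw [← par_image] at h1
  obtain ⟨t, ht, rfl⟩ := h1
  refine ⟨t, ⟨lt_of_le_of_ne ht.1 ?_, lt_of_le_of_ne ht.2 ?_⟩, rfl⟩
  · rintro rfl; exact h2 (par_zero _ _)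
  · rintro rfl; exact h3 (par_one _ _)

lemma touch_par {y1 y0 x₁ x₂ : ℝ} (h : y1 ≠ y0) (h1 : x₁ ∈ uIoo y1 y0) (h2 : x₂ ∈ uIoo y1 y0)
    (h12 : x₁ ≤ x₂) : ∃ s₁ s₂ : ℝ, 0 < s₁ ∧ s₁ ≤ s₂ ∧ s₂ < 1 ∧
      (∀ t, par y1 y0 t ∈ Icc x₁ x₂ ↔ t ∈ Icc s₁ s₂) ∧
      ((par y1 y0 s₁ = x₁ ∧ par y1 y0 s₂ = x₂) ∨ (par y1 y0 s₁ = x₂ ∧ par y1 y0 s₂ = x₁)) := by
  obtain ⟨t₁, ht₁, rfl⟩ := exists_par h1
  obtain ⟨t₂, ht₂, rfl⟩ := exists_par h2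
  rcases lt_or_gt_of_ne h with hl | hl
  · have hd : 0 < y0 - y1 := by linarith
    have key : ∀ s t, par y1 y0 s ≤ par y1 y0 t ↔ s ≤ t := fun s t => by
      unfold par
      rw [add_le_add_iff_left, mul_le_mul_iff_left₀ hd]
    exact ⟨t₁, t₂, ht₁.1, (key _ _).1 h12, ht₂.2, fun t => by simp only [mem_Icc, key],
      Or.inl ⟨rfl, rfl⟩⟩
  · have hd : y0 - y1 < 0 := by linarith
    have key : ∀ s t, par y1 y0 s ≤ par y1 y0 t ↔ t ≤ s := fun s t => by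
      unfold par
      rw [add_le_add_iff_left, mul_le_mul_right_of_neg hd]
    exact ⟨t₂, t₁, ht₂.1, (key _ _).1 h12, ht₁.2,
      fun t => by simp only [mem_Icc, key, and_comm], Or.inr ⟨rfl, rfl⟩⟩

lemma deriv_par {Fb : ℝ → ℂ} {y1 y0 t : ℝ} (h : AnalyticAt ℝ Fb (par y1 y0 t)) :
    AnalyticAt ℝ (fun s => Fb (par y1 y0 s)) t ∧
      deriv (fun s => Fb (par y1 y0 s)) t = ((y0 - y1 : ℝ) : ℂ) * deriv Fb (par y1 y0 t) := by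
  have hp : AnalyticAt ℝ (par y1 y0) t := by unfold par; fun_prop
  refine ⟨h.comp hp, ?_⟩
  have h1 : HasDerivAt (par y1 y0) (y0 - y1) t := by
    have := ((hasDerivAt_id t).mul_const (y0 - y1)).const_add y1
    rw [one_mul] at this
    exact this
  have := (h.differentiableAt.hasDerivAt.scomp t h1).deriv
  simpa [Function.comp_def] using this

/-- The final assembly, once the arc and the multiplier are known. -/
lemma crit {r A B : ℝ} {z₀ z₁ : ℂ} {L : Set ℂ} {v : ℂ → ℝ} {φ F : ℂ → ℂ} {h s0 s1 : ℝ}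
    {a b : ℂ} {c : ℝ} {Fb : ℝ → ℂ} {T : Set ℂ} {y1 y0 : ℝ} {H : ℂ → ℂ → ℝ}
    (ha : S_ARCa) (hb : S_ARCb) (hP : S_POSAT)
    (hR : Reg2 r A B z₀ z₁ L v φ F h s0 s1 a b c Fb) (hA : Arc r L Fb s0 s1 z₁ T y1 y0)
    (hG : Grn (main r L) H)
    (hz : ∀ y ∈ Zer v F s0 s1, y ∈ Icc s0 s1 → Fb y = Fb y0) (hr : ‖Fb y0‖ ≠ r)
    (hprod : ∀ z ∈ main r L, z ≠ z₀ → grad v z * grad (gr H z₀) z = QD r z₀ z₁ a b c z)
    (h0 : A = 0 → ‖Fb y0‖ = 1)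
    (hn : A < 0 → Fb y0 ∈ ann r ∧ QD r z₀ z₁ a b c (Fb y0) ≠ 0 ∧
      (∃ C : ℝ, ∀ᶠ z in 𝓝 (Fb y0), |v z| ≤ C * ‖z - Fb y0‖ ^ (3 / 2 : ℝ)) ∧
      ∃ T : ℝ → ℂ, ContinuousOn T (Ico 0 1) ∧ T 0 = Fb y0 ∧
        (∀ t ∈ Ioo (0 : ℝ) 1, T t ∈ ann r ∧ v (T t) < 0) ∧
        Tendsto (fun t => ‖T t‖) (𝓝[<] 1) (𝓝 1)) :
    Crit r A B z₀ z₁ a b c (fun t => Fb (par y1 y0 t)) v (gr H z₀) := by
  have hc := hR.fr.cfg
  have hU := hR.fr.unif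
  have hL := hc.cont
  have hK : (fun t => Fb (par y1 y0 t)) '' Icc 0 1 = Fb '' uIcc y1 y0 := by
    rw [← par_image, image_image]
  have hW : ann r \ (fun t => Fb (par y1 y0 t)) '' Icc 0 1 = main r L := hK ▸ hA.compl
  obtain ⟨hb0, htr⟩ := ha r A B z₀ z₁ L v φ F h s0 s1 a b c Fb T y1 y0 hR hA hz
  obtain ⟨hE, hq1, hto⟩ := hb r A B z₀ z₁ L v φ F h s0 s1 a b c Fb T y1 y0 hR hA hz hr
  have hI : uIcc y1 y0 ⊆ Icc s0 s1 := uIcc_subset_Icc hA.m1 hA.m0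
  refine
    { bal := hR.bal
      b_ne := hb0
      cont := (hR.bd.cont.comp (continuous_par y1 y0)).continuousOn
      inj := fun s hs t ht he => par_inj hA.ne (hA.inj (par_mem hs) (par_mem ht) he)
      start := by simp only [par_zero, hA.st]
      mem := fun t ht => ⟨(hR.bd.mem hU _).2.2.1.1,
        hA.lt1 _ (par_mem ⟨ht.1, ht.2.le⟩) (par_ne hA.ne ht.2.ne)⟩
      avoid := ?_
      traj := ?_
      touch := ?_
      v_cont := hc.sol.contOn hL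
      v_bdd := ?_
      v_harm := hW ▸ hc.sol.harm
      v_zero := ?_
      v_outer := fun p hp => hc.sol.outer hL hc.ok hp
      v_inner := ?_
      v_hug := ?_
      v_pos := ?_
      g_harm := ?_
      g_pole := ⟨fun z => H z z₀, hG.harm z₀ hR.m0 z₀ hR.m0, Eventually.of_forall fun z => rfl⟩
      g_bd := ?_
      prod := ?_
      end_zero := ?_
      end_neg := ?_ }
  · rintro ⟨t, -, ht⟩
    exact (hR.bd.mem hU _).2.2.2 (ht ▸ hR.m0)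
  · intro t ht hrt
    obtain ⟨h1, ρ, hρ, h2⟩ := htr _ (par_mem_oo hA.ne ht) hrt
    obtain ⟨h3, h4⟩ := deriv_par h1
    refine ⟨h3, (y0 - y1) ^ 2 * ρ, mul_pos (sq_pos_of_ne_zero (sub_ne_zero.2 hA.ne.symm)) hρ, ?_⟩
    rw [h4]
    push_cast
    linear_combination ((y0 : ℂ) - y1) ^ 2 * h2
  · rcases hto with h1 | ⟨x₁, hx₁, x₂, hx₂, h12, h3, h4, h5⟩
    · exact Or.inl fun t ht => h1 _ (par_mem ht)
    · obtain ⟨s₁, s₂, g1, g2, g3, g4, g5⟩ := touch_par hA.ne hx₁ hx₂ h12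
      refine Or.inr ⟨s₁, s₂, g1, g2, g3, fun t ht => (h3 _ (par_mem ht)).trans (g4 t), ?_⟩
      rcases g5 with ⟨e1, e2⟩ | ⟨e1, e2⟩
      · simp only [e1, e2]; exact ⟨h4, h5⟩
      · simp only [e1, e2]; exact ⟨h5, h4⟩
  · obtain ⟨C, hC⟩ := hc.sol.bdd
    exact ⟨C, fun z _ => hC z⟩
  · rintro z - ⟨t, -, rfl⟩
    exact hc.sol.off _ (hR.bd.mem hU _).2.2.2
  · intro p hp hpK
    refine hc.sol.inner hL ?_
    rw [← hE, ← hK]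
    exact ⟨mem_sphere_zero_iff_norm.2 hp, hpK⟩
  · intro p hp hpK
    rw [hK, hE] at hpK
    exact hc.sol.hug hL hp hpK
  · intro t ht hrt
    have hm := par_mem (y1 := y1) (y0 := y0) ⟨ht.1, ht.2.le⟩
    have hne := par_ne hA.ne ht.2.ne
    refine (hP r A B z₁ L v φ F h s0 s1 Fb _ hR.fr hR.bd (hI hm) ⟨hrt, hA.lt1 _ hm hne⟩ ?_).1
    intro y hy hy' he
    exact hne (hA.inj hm right_mem_uIcc (he.symm.trans (hz y hy hy')))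
  · rw [hW]
    intro z hz'
    exact (hG.harm z₀ hR.m0 z hz'.1).sub (harm_log hz'.2)
  · rw [hW]
    exact hG.bd z₀ hR.m0
  · rw [hW]
    exact hprod
  · intro hA0
    simp only [par_one]
    exact ⟨h0 hA0, hq1 (h0 hA0)⟩
  · simpa only [par_one] using hn

lemma Ed.smul {Q F : ℂ → ℂ} {x l : ℝ} {e : ℕ} (h : Ed Q F x e) (hl : 0 < l) :
    Ed (fun z => l * Q z) F x e := by
  obtain ⟨E, h1, h2, h3, h4⟩ := h
  refine ⟨fun η => l * E η, analyticAt_const.mul h1, h2.mono fun t ht => by simp [ht], ?_,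
    h4.mono fun η hη => by rw [mul_assoc, hη]; ring⟩
  simpa using mul_neg_of_pos_of_neg hl h3

lemma Reg2.smul {r A B : ℝ} {z₀ z₁ : ℂ} {L : Set ℂ} {v : ℂ → ℝ} {φ F : ℂ → ℂ} {h s0 s1 : ℝ}
    {a b : ℂ} {c l : ℝ} {Fb : ℝ → ℂ} (hR : Reg2 r A B z₀ z₁ L v φ F h s0 s1 a b c Fb)
    (hl : 0 < l) : Reg2 r A B z₀ z₁ L v φ F h s0 s1 (l * a) (l * b) (l * c) Fb := by
  have hQ : QD r z₀ z₁ (l * a) (l * b) (l * c) = fun z => l * QD r z₀ z₁ a b c z :=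
    funext (QD_smul r z₀ z₁ a b c l)
  refine ⟨hR.fr, hR.m0, ?_, ?_, ⟨fun x hx => ?_, fun ht s hs => ?_⟩, hR.bd⟩
  · rw [← mul_add]; simp [hR.bal]
  · obtain ⟨z, h1, h2, h3, h4⟩ := hR.nz
    exact ⟨z, h1, h2, h3, by rw [hQ]; exact mul_ne_zero (by exact_mod_cast hl.ne') h4⟩
  · rw [hQ]
    rcases hR.edat.ed x hx with h1 | ⟨h1, h2⟩
    · exact Or.inl (Ed.smul h1 hl)
    · exact Or.inr ⟨h1, Ed.smul h2 hl⟩
  · obtain ⟨C, hC⟩ := hR.edat.ends ht s hs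
    refine ⟨l * C, hC.mono fun η hη => ?_⟩
    rw [hQ, mul_assoc (l : ℂ), norm_mul (l : ℂ), Complex.norm_real, Real.norm_of_nonneg hl.le,
      mul_left_comm]
    exact mul_le_mul_of_nonneg_left hη hl.le

lemma tpath' {r : ℝ} {L : Set ℂ} {v : ℂ → ℝ} {A B : ℝ} (hs : Sol r A B L v) {F : ℂ → ℂ}
    {Fb : ℝ → ℂ} (hB : Bd F Fb) {y : ℝ} (hy : (Fb y).im ≤ 0) {T : ℝ → ℂ}
    (h1 : ContinuousOn T (Ioc 0 1)) (h2 : ‖T 1‖ = 1) (h3 : ∀ t ∈ Ioo (0 : ℝ) 1, v (T t) < 0)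
    (h4 : ∀ᶠ t : ℝ in 𝓝[>] 0, T t = fold (F (y + t * I))) :
    ∃ T : ℝ → ℂ, ContinuousOn T (Ico 0 1) ∧ T 0 = Fb y ∧
      (∀ t ∈ Ioo (0 : ℝ) 1, T t ∈ ann r ∧ v (T t) < 0) ∧
      Tendsto (fun t => ‖T t‖) (𝓝[<] 1) (𝓝 1) := by
  have hT : Tendsto T (𝓝[>] 0) (𝓝 (Fb y)) := by
    have := (continuous_fold.tendsto _).comp ((hB.lim y).comp (tendsto_vert y))
    rw [fold_of_nonpos hy] at this
    exact this.congr' (h4.mono fun t ht => ht.symm)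
  refine ⟨Function.update T 0 (Fb y), ?_, Function.update_self .., ?_, ?_⟩
  · intro t ht
    rcases ht.1.eq_or_lt with rfl | h0
    · rw [continuousWithinAt_update_same]
      exact hT.mono_left (nhdsWithin_mono _ fun s hs => lt_of_le_of_ne hs.1.1 (Ne.symm hs.2))
    · rw [continuousWithinAt_update_of_ne h0.ne']
      exact (h1.continuousAt (Ioc_mem_nhds h0 ht.2)).continuousWithinAt
  · intro t ht
    rw [Function.update_of_ne ht.1.ne']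
    exact ⟨(main_sub r L (hs.mem_main (h3 t ht).ne)).1, h3 t ht⟩
  · have h5 : Tendsto (fun t => ‖T t‖) (𝓝[<] 1) (𝓝 1) := by
      have h6 := (h1 1 ⟨one_pos, le_rfl⟩).norm
      rw [ContinuousWithinAt, h2] at h6
      refine h6.mono_left ?_
      rw [← nhdsWithin_Ioo_eq_nhdsLT (zero_lt_one' ℝ)]
      exact nhdsWithin_mono _ Ioo_subset_Ioc_self
    refine h5.congr' ?_
    filter_upwards [Ioo_mem_nhdsLT (zero_lt_one' ℝ)] with t ht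
    rw [Function.update_of_ne ht.1.ne']

end CoreP

open CoreP in
theorem core (hF : S_FR) (hG : S_GREEN) (hLi : S_LIN) (hE : S_EDAT) (hRe : S_REG) (hM : S_MULT)
    (hS : S_SH) (h1 : S_ARC1) (h2 : S_ARC2) (ha : S_ARCa) (hb : S_ARCb) (hc : S_ARCc)
    (hZ : S_ZEX) (hT : S_TPATH) (hP : S_POSAT) : S_CORE := by
  intro r A B z₀ z₁ m L v hx
  have hcf := hx.cfg
  have hL := hcf.cont
  obtain ⟨φ, F, h, s0, s1, hf⟩ := hF r A B z₁ L v hcf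
  obtain ⟨H, hH⟩ := hG _ hL.isOpen_main (bdd_main r L) (preconn_main r L) hL.reg
  obtain ⟨a, b, c, l0, Y, lam, k, hl⟩ := hLi r A B z₀ z₁ m L v φ F h s0 s1 H hx hf hH
  obtain ⟨he, heY⟩ := hE r A B z₀ z₁ L v φ F h s0 s1 H a b c l0 Y lam k hf hx.mem0 hH hl
  obtain ⟨hnz, Fb, hB⟩ := hRe r A B z₀ z₁ L v φ F h s0 s1 a b c hf hx.mem0 he
  have hR : Reg2 r A B z₀ z₁ L v φ F h s0 s1 a b c Fb := ⟨hf, hx.mem0, hl.bal, hnz, he, hB⟩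
  obtain ⟨G, hGm⟩ := hM r A B z₀ z₁ L v φ F h s0 s1 a b c Fb hR
  obtain ⟨hS0, hS1⟩ := hS r A B z₀ z₁ m L v φ F h s0 s1 Fb G hx hf hB hGm
  have hU := hf.unif
  -- the common end of both cases
  have fin : ∀ (T : Set ℂ) (y1 y0 : ℝ), Arc r L Fb s0 s1 z₁ T y1 y0 →
      (∀ y ∈ Zer v F s0 s1, y ∈ Icc s0 s1 → Fb y = Fb y0) → ‖Fb y0‖ ≠ r →
      (∀ y ∈ Y, lam y = 0) → (A = 0 → ‖Fb y0‖ = 1) →
      (A < 0 → Fb y0 ∈ ann r ∧ QD r z₀ z₁ a b c (Fb y0) ≠ 0 ∧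
        (∃ C : ℝ, ∀ᶠ z in 𝓝 (Fb y0), |v z| ≤ C * ‖z - Fb y0‖ ^ (3 / 2 : ℝ)) ∧
        ∃ T : ℝ → ℂ, ContinuousOn T (Ico 0 1) ∧ T 0 = Fb y0 ∧
          (∀ t ∈ Ioo (0 : ℝ) 1, T t ∈ ann r ∧ v (T t) < 0) ∧
          Tendsto (fun t => ‖T t‖) (𝓝[<] 1) (𝓝 1)) →
      ∃ a b c κ g, Crit r A B z₀ z₁ a b c κ v g ∧ ann r ⊆ closure (main r L) ∧
        ((∀ p ∈ L, ‖p‖ ≠ r) → ∀ t ∈ Icc (0 : ℝ) 1, r < ‖κ t‖) := by
    intro T y1 y0 hA hz hr hY h0 hn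
    have hl0 : 0 < l0 := by
      rcases hl.nz with h3 | ⟨y, hy, h3⟩
      · exact h3
      · exact absurd (hY y hy) h3.ne'
    have hl0' : (l0 : ℂ) ≠ 0 := by exact_mod_cast hl0.ne'
    refine ⟨_, _, _, _, _, crit ha hb hP (Reg2.smul hR (inv_pos.2 hl0)) hA hH hz hr ?_ h0 ?_,
      ?_, ?_⟩
    · intro z hz' hne
      rw [QD_smul, ← hl.iden z hz' hne, Finset.sum_eq_zero fun y hy => by simp [hY y hy]]
      push_cast
      field_simp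
      ring
    · intro hA0
      obtain ⟨g1, g2, g3⟩ := hn hA0
      refine ⟨g1, ?_, g3⟩
      rw [QD_smul]
      exact mul_ne_zero (by exact_mod_cast (inv_pos.2 hl0).ne') g2
    · intro z hz'
      by_cases hzK : z ∈ Fb '' uIcc y1 y0
      · obtain ⟨x, -, rfl⟩ := hzK
        exact frontier_subset_closure (hB.mem hU x).1
      · exact subset_closure (hA.compl ▸ ⟨hz', hzK⟩)
    · intro hn' t ht
      have hm := uIcc_subset_Icc hA.m1 hA.m0 (par_mem ht)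
      refine lt_of_le_of_ne (hB.mem hU _).2.2.1.1 fun he' => ?_
      have h3 := (hB.mem_LA hU hf.pic hm).2.2 (by rw [← he']; exact hL.r1.ne)
      exact hn' _ h3 he'.symm
  rcases hcf.cases with ⟨hA, ho⟩ | ⟨hA, ho, -⟩
  · have hT' : Tgt L Fb s0 s1 0 (sphere 0 1) := Or.inl ⟨rfl, ho⟩
    obtain ⟨y1, hy1, e1⟩ := h2 r L φ F h s0 s1 Fb G _ 0 z₁ hU hf.pic hB hGm hT' hcf.m1 hcf.mem
      (hS0 hA)
    obtain ⟨y0, hArc, -⟩ := h1 r L φ F h s0 s1 Fb G _ 0 y1 hU hf.pic hB hGm hT' hy1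
      (e1 ▸ hcf.m1) (e1 ▸ hS0 hA)
    rw [e1] at hArc
    have hn1 : ‖Fb y0‖ = 1 := mem_sphere_zero_iff_norm.1 hArc.en
    have hZ0 := hf.pv.nz hA
    refine fin _ y1 y0 hArc (fun y hy => ?_) (by rw [hn1]; exact hL.r1.ne') (fun y hy => ?_)
      (fun _ => hn1) (fun h3 => absurd hA h3.ne)
    · rw [hZ0] at hy; exact hy.elim
    · have := (hl.sub y hy).1
      rw [hZ0] at this; exact this.elim
  · obtain ⟨y, hyI, hy⟩ := hZ r A B z₁ L v φ F h s0 s1 hf hA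
    have hT' : Tgt L Fb s0 s1 y {Fb y} := Or.inr ⟨rfl, hyI, ho⟩
    obtain ⟨y1, hy1, e1⟩ := h2 r L φ F h s0 s1 Fb G _ y z₁ hU hf.pic hB hGm hT' hcf.m1 hcf.mem
      (hS1 y hy)
    obtain ⟨y0, hArc, e0⟩ := h1 r L φ F h s0 s1 Fb G _ y y1 hU hf.pic hB hGm hT' hy1
      (e1 ▸ hcf.m1) (e1 ▸ hS1 y hy)
    rw [e1] at hArc
    obtain rfl := e0 ho
    obtain ⟨g1, g2, g3, g4⟩ := hc r A B z₀ z₁ L v φ F h s0 s1 a b c Fb y1 y0 hR hArc hA hy hS1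
    obtain ⟨T, t1, t2, -, t3, t4, -⟩ := hT r A B z₁ L v φ F h s0 s1 y0 z₀ hf hy hx.mem0
      hx.im_nonneg
    refine fin _ y1 y0 hArc (fun x hx' hx'' => (g3 x hx' hx'').1) g1.1.ne' (fun x hx' => ?_)
      (fun h3 => absurd h3 hA.ne) (fun _ => ⟨g1, g2, g4, ?_⟩)
    · by_contra h3
      have h4 := hl.sub x hx'
      exact (g3 x h4.1 h4.2.1).2 (heY x hx' (lt_of_le_of_ne (hl.lamn x hx') (Ne.symm h3)))
    · exact tpath' hcf.sol hB (hL.low _ ((hB.mem_LA hU hf.pic hyI).2.2 g1.2.ne)) t1 t2 t3 t4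

end Pool.Agent.P.MP_3bd355_an
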