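import Pool.Agent.P.MP_3bd355_an.Stmts

/-! First properties of critical configurations. -/

open Set Filter Metric Complex InnerProductSpace
open scoped Topology ComplexConjugate Real

namespace Pool.Agent.P.MP_3bd355_an

namespace Crit1P

variable {r A B : ℝ} {z₀ z₁ a b : ℂ} {c : ℝ} {κ : ℝ → ℂ} {v g : ℂ → ℝ}

theorem closedK (h : Crit r A B z₀ z₁ a b c κ v g) : IsClosed (κ '' Icc 0 1) :=
  (isCompact_Icc.image_of_continuousOn h.cont).isClosed

theorem openU (h : Crit r A B z₀ z₁ a b c κ v g) : IsOpen (ann r \ κ '' Icc 0 1) :=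
  (isOpen_ann r).sdiff (closedK h)

theorem mem_cann (H : CH r A B z₀ z₁) (h : Crit r A B z₀ z₁ a b c κ v g) :
    ∀ t ∈ Icc (0 : ℝ) 1, κ t ∈ cann r := by
  intro t ht
  rcases ht.2.lt_or_eq with h1 | rfl
  · exact ⟨(h.mem t ⟨ht.1, h1⟩).1, (h.mem t ⟨ht.1, h1⟩).2.le⟩
  · rcases H.A0.lt_or_eq with hA | hA
    · exact ann_sub_cann r (h.end_neg hA).1
    · have := (h.end_zero hA).1
      exact ⟨by rw [this]; exact H.r1.le, this.le⟩

theorem sub (h : Crit r A B z₀ z₁ a b c κ v g) : Sub v (ann r) := by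
  refine Sub.removable (isOpen_ann r) (finite_singleton (κ 1)) h.v_cont ?_
  refine Sub.of_locmin ((isOpen_ann r).sdiff isClosed_singleton)
    (h.v_cont.mono sdiff_subset).upperSemicontinuousOn ?_
  intro z hz
  by_cases hK : z ∈ κ '' Icc 0 1
  · right
    obtain ⟨t, ht, rfl⟩ := hK
    have h1 : t < 1 := lt_of_le_of_ne ht.2 fun e => hz.2 (by rw [e]; rfl)
    have h0 : v (κ t) = 0 := h.v_zero _ hz.1 ⟨t, ht, rfl⟩
    have := h.v_pos t ⟨ht.1, h1⟩ hz.1.1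
    show ∀ᶠ y in 𝓝 (κ t), v (κ t) ≤ v y
    rw [h0]
    exact this
  · left
    exact ⟨_, (openU h).mem_nhds ⟨hz.1, hK⟩, Sub.of_harm h.v_harm⟩

theorem hug (h : Crit r A B z₀ z₁ a b c κ v g) :
    ∃ S : Set ℂ, S.Finite ∧ ∀ t ∈ Icc (0 : ℝ) 1, ‖κ t‖ = r → κ t ∉ S →
      Tendsto v (𝓝[ann r] (κ t)) (𝓝 0) := by
  rcases h.touch with hn | ⟨s₁, s₂, h0, -, h1, hi, -, -⟩
  · exact ⟨∅, finite_empty, fun t ht e => absurd e (hn t ht).ne'⟩
  · have hsub : Icc s₁ s₂ ⊆ Icc (0 : ℝ) 1 := Icc_subset_Icc h0.le h1.le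
    have hJ : IsPreconnected (κ '' Icc s₁ s₂) := isPreconnected_Icc.image _ (h.cont.mono hsub)
    have hs : κ '' Icc s₁ s₂ ⊆ sphere 0 r := by
      rintro _ ⟨t, ht, rfl⟩
      rw [mem_sphere_zero_iff_norm]
      exact (hi t (hsub ht)).2 ht
    refine ⟨_, circle_arc hJ hs, fun t ht e hS => h.v_hug _ e fun hc => hS ⟨⟨t, (hi t ht).1 e, rfl⟩, ?_⟩⟩
    refine closure_mono ?_ hc
    exact sdiff_subset_sdiff_right (image_mono hsub)

theorem le_B (H : CH r A B z₀ z₁) (h : Crit r A B z₀ z₁ a b c κ v g) : ∀ z ∈ ann r, v z ≤ B := by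
  obtain ⟨S, hS, hh⟩ := hug h
  obtain ⟨C, hC⟩ := h.v_bdd
  refine (sub h).mpx (isOpen_ann r) (bdd_ann r) ⟨C, fun z hz => (le_abs_self _).trans (hC z hz)⟩
    hS ?_
  intro p hp hpS
  rw [frontier_ann H.r0 H.r1] at hp
  rcases hp with hp | hp
  · by_cases hK : p ∈ κ '' Icc 0 1
    · obtain ⟨t, ht, rfl⟩ := hK
      exact LS.of_tendsto (hh t ht hp hpS) H.B0.le
    · exact LS.of_tendsto (h.v_inner p hp hK) le_rfl
  · exact LS.of_tendsto (h.v_outer p hp) (H.A0.trans H.B0.le)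

theorem ge_A (H : CH r A B z₀ z₁) (h : Crit r A B z₀ z₁ a b c κ v g) : ∀ z ∈ ann r, A ≤ v z := by
  obtain ⟨S, hS, hh⟩ := hug h
  obtain ⟨C, hC⟩ := h.v_bdd
  have hs : Sub (fun z => -v z) (ann r \ κ '' Icc 0 1) :=
    Sub.of_harm fun z hz => (h.v_harm z hz).neg
  have key : ∀ z ∈ ann r \ κ '' Icc 0 1, -v z ≤ -A := by
    refine hs.mpx (openU h) ((bdd_ann r).subset sdiff_subset)
      ⟨C, fun z hz => (neg_le_abs _).trans (hC z hz.1)⟩ hS ?_
    intro p hp hpS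
    have hcl : p ∈ cann r := by
      rw [← closure_ann H.r0 H.r1]
      exact closure_mono sdiff_subset hp.1
    have hnU : p ∉ ann r \ κ '' Icc 0 1 := by
      have := hp.2
      rwa [(openU h).interior_eq] at this
    have lim : ∀ d : ℝ, A ≤ d → Tendsto v (𝓝[ann r] p) (𝓝 d) →
        LS (fun z => -v z) (ann r \ κ '' Icc 0 1) p (-A) := fun d hd ht =>
      (LS.of_tendsto ht.neg (neg_le_neg hd)).mono sdiff_subset
    rcases hcl.1.lt_or_eq with h1 | h1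
    · rcases hcl.2.lt_or_eq with h2 | h2
      · have hpa : p ∈ ann r := ⟨h1, h2⟩
        have hK : p ∈ κ '' Icc 0 1 := by
          by_contra hK
          exact hnU ⟨hpa, hK⟩
        refine lim 0 H.A0 ?_
        rw [← h.v_zero p hpa hK]
        exact h.v_cont p hpa
      · exact lim A le_rfl (h.v_outer p h2)
    · by_cases hK : p ∈ κ '' Icc 0 1
      · obtain ⟨t, ht, rfl⟩ := hK
        exact lim 0 H.A0 (hh t ht h1.symm hpS)
      · exact lim B (H.A0.trans H.B0.le) (h.v_inner p h1.symm hK)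
  intro z hz
  by_cases hK : z ∈ κ '' Icc 0 1
  · rw [h.v_zero z hz hK]
    exact H.A0
  · exact neg_le_neg_iff.1 (key z ⟨hz, hK⟩)

theorem curve (H : CH r A B z₀ z₁) (h : Crit r A B z₀ z₁ a b c κ v g) :
    ∃ γ : ℝ → ℂ, ContinuousOn γ (Ico 0 1) ∧ γ 0 = z₁ ∧
      (∀ t ∈ Ico (0 : ℝ) 1, (∃ s ∈ Icc (0 : ℝ) 1, γ t = κ s ∧ ‖κ s‖ < 1) ∨
        (γ t ∈ ann r ∧ v (γ t) < 0)) ∧
      Tendsto (fun t => ‖γ t‖) (𝓝[<] 1) (𝓝 1) := by
  rcases H.A0.lt_or_eq with hA | hA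
  · obtain ⟨h1, -, -, T, hT, hT0, hTm, hTl⟩ := h.end_neg hA
    obtain ⟨γ, hγ, hγ0, hγm, hγe⟩ := concat h.cont hT hT0.symm
    refine ⟨γ, hγ, hγ0.trans h.start, fun t ht => ?_, ?_⟩
    · rcases hγm t ht with ⟨s, hs, e⟩ | ⟨s, hs, e⟩
      · left
        refine ⟨s, hs, e, ?_⟩
        rcases hs.2.lt_or_eq with h2 | rfl
        · exact (h.mem s ⟨hs.1, h2⟩).2
        · exact h1.2
      · right
        rw [e]
        exact hTm s hs
    · have ht : Tendsto (fun t : ℝ => 2 * t - 1) (𝓝[<] 1) (𝓝[<] 1) := by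
        refine tendsto_nhdsWithin_iff.2 ⟨?_, ?_⟩
        · have : Tendsto (fun t : ℝ => 2 * t - 1) (𝓝 1) (𝓝 (2 * 1 - 1)) :=
            ((continuous_const.mul continuous_id).sub continuous_const).tendsto 1
          rw [show (2 : ℝ) * 1 - 1 = 1 by norm_num] at this
          exact this.mono_left nhdsWithin_le_nhds
        · filter_upwards [self_mem_nhdsWithin] with t ht
          have : t < 1 := ht
          show 2 * t - 1 < 1
          linarith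
      refine (hTl.comp ht).congr' ?_
      filter_upwards [Ico_mem_nhdsLT (show (1 / 2 : ℝ) < 1 by norm_num)] with t ht
      simp only [Function.comp, hγe t ht]
  · refine ⟨κ, h.cont.mono Ico_subset_Icc_self, h.start,
      fun t ht => Or.inl ⟨t, Ico_subset_Icc_self ht, rfl, (h.mem t ht).2⟩, ?_⟩
    have h1 : Tendsto (fun t => ‖κ t‖) (𝓝[Icc 0 1] 1) (𝓝 ‖κ 1‖) :=
      (h.cont 1 (right_mem_Icc.2 zero_le_one)).norm
    rw [(h.end_zero hA).1] at h1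
    refine h1.mono_left (nhdsWithin_le_iff.2 ?_)
    exact mem_of_superset (Ico_mem_nhdsLT zero_lt_one) Ico_subset_Icc_self

theorem gadm (H : CH r A B z₀ z₁) (h : Crit r A B z₀ z₁ a b c κ v g) :
    ∃ γ, GAdm r A B z₁ v γ := by
  obtain ⟨γ, hc, h0, hm, hl⟩ := curve H h
  obtain ⟨S, hS, hh⟩ := hug h
  refine ⟨γ, sub h, fun p hp => LS.of_tendsto (h.v_outer p hp) le_rfl, fun p _ => ?_, hc, h0,
    fun t ht => ?_, hl, fun t ht hr => ?_, S, hS, fun t ht hr hn => ?_⟩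
  · exact LS.of_eventually (by filter_upwards [self_mem_nhdsWithin] with z hz using le_B H h z hz)
  · rcases hm t ht with ⟨s, hs, e, h1⟩ | ⟨h1, -⟩
    · rw [e]
      exact ⟨(mem_cann H h s hs).1, h1⟩
    · exact ⟨h1.1.le, h1.2⟩
  · rcases hm t ht with ⟨s, hs, e, h1⟩ | ⟨-, h1⟩
    · rw [e] at hr ⊢
      exact (h.v_zero _ ⟨hr, h1⟩ ⟨s, hs, rfl⟩).le
    · exact h1.le
  · rcases hm t ht with ⟨s, hs, e, -⟩ | ⟨h1, -⟩
    · rw [e] at hr hn ⊢
      exact LS.of_tendsto (hh s hs hr hn) le_rfl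
    · exact absurd hr h1.1.ne'

theorem adm (H : CH r A B z₀ z₁) (h : Crit r A B z₀ z₁ a b c κ v g)
    (hn : ∀ t ∈ Icc (0 : ℝ) 1, r < ‖κ t‖) : Adm r A B z₁ (fun z => (v z : EReal)) := by
  obtain ⟨γ, hc, h0, hm, hl⟩ := curve H h
  refine ⟨⟨?_, fun z _ => EReal.coe_ne_top _, fun x ρ hρ hb k hk hs z hz => ?_⟩,
    fun p hp => ?_, fun p hp => ?_, γ, hc, h0, fun t ht => ?_, hl⟩
  · exact (continuous_coe_real_ereal.comp_continuousOn h.v_cont).upperSemicontinuousOn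
  · exact EReal.coe_le_coe_iff.2
      ((sub h).2 x ρ hρ hb k hk (fun y hy => EReal.coe_le_coe_iff.1 (hs y hy)) z hz)
  · exact (continuous_coe_real_ereal.tendsto A).comp (h.v_outer p hp)
  · refine (continuous_coe_real_ereal.tendsto B).comp (h.v_inner p hp ?_)
    rintro ⟨t, ht, rfl⟩
    exact (hn t ht).ne' hp
  · rcases hm t ht with ⟨s, hs, e, h1⟩ | ⟨h1, h2⟩
    · rw [e]
      have ha : κ s ∈ ann r := ⟨hn s hs, h1⟩
      refine ⟨ha, ?_⟩
      show ((v (κ s) : ℝ) : EReal) ≤ 0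
      rw [h.v_zero _ ha ⟨s, hs, rfl⟩]
      exact le_rfl
    · exact ⟨h1, EReal.coe_nonpos.2 h2.le⟩

end Crit1P

theorem crit1 : S_CRIT1 := fun _ _ _ _ _ _ _ _ _ _ _ H h =>
  ⟨Crit1P.sub h, fun z hz => ⟨Crit1P.ge_A H h z hz, Crit1P.le_B H h z hz⟩, Crit1P.mem_cann H h,
    Crit1P.hug h, Crit1P.gadm H h, Crit1P.adm H h⟩

end Pool.Agent.P.MP_3bd355_an
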