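import Pool.Agent.P.MP_3bd355_an.Stmts

/-! The Dirichlet problem by the method of Perron. -/

open Set Filter Metric Complex InnerProductSpace
open scoped Topology ComplexConjugate Real

namespace Pool.Agent.P.MP_3bd355_an

namespace DirP

/-- The Perron family. -/
def Fam (W : Set ℂ) (f : ℂ → ℝ) (v : ℂ → ℝ) : Prop :=
  Sub v W ∧ ContinuousOn v W ∧ ∀ q ∈ frontier W, LS v W q (f q)

variable {W : Set ℂ} {f : ℂ → ℝ} {a b : ℝ}

theorem Fam.const (hab : ∀ p ∈ frontier W, a ≤ f p ∧ f p ≤ b) : Fam W f (fun _ => a) :=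
  ⟨Sub.const a W, continuousOn_const, fun q hq =>
    LS.of_eventually (Eventually.of_forall fun _ => (hab q hq).1)⟩

theorem Fam.sup {v w : ℂ → ℝ} (hv : Fam W f v) (hw : Fam W f w) :
    Fam W f (fun z => Max.max (v z) (w z)) :=
  ⟨hv.1.max hw.1, ContinuousOn.sup hv.2.1 hw.2.1, fun q hq => (hv.2.2 q hq).max (hw.2.2 q hq)⟩

theorem Fam.le (hW : IsOpen W) (hb : Bornology.IsBounded W)
    (hab : ∀ p ∈ frontier W, a ≤ f p ∧ f p ≤ b) {v : ℂ → ℝ} (hv : Fam W f v) :
    ∀ z ∈ W, v z ≤ b :=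
  hv.1.mp0 hW hb fun p hp => (hv.2.2 p hp).le (hab p hp).2

theorem Fam.modify (hW : IsOpen W) {v : ℂ → ℝ} (hv : Fam W f v) {c : ℂ} {ρ : ℝ} (hρ : 0 < ρ)
    (hc : closedBall c ρ ⊆ W) :
    ∃ w, Fam W f w ∧ HarmonicOnNhd w (ball c ρ) ∧ ∀ z ∈ W, v z ≤ w z := by
  obtain ⟨w, h1, h2, h3, h4, h5⟩ := hv.1.modify hW hv.2.1 hρ hc
  refine ⟨w, ⟨h1, h2, fun q hq => (hv.2.2 q hq).of_le ?_⟩, h3, h4⟩
  have hq' : q ∉ closedBall c ρ := fun h => by
    rw [hW.frontier_eq] at hq
    exact hq.2 (hc h)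
  have : ∀ᶠ z in 𝓝 q, z ∉ closedBall c ρ := isClosed_closedBall.isOpen_compl.mem_nhds hq'
  filter_upwards [mem_nhdsWithin_of_mem_nhds this] with z hz
  exact (h5 z fun h => hz (ball_subset_closedBall h)).le

/-- The Perron function. -/
noncomputable def per (W : Set ℂ) (f : ℂ → ℝ) (z : ℂ) : ℝ := ⨆ v : {v // Fam W f v}, v.1 z

theorem le_per (hW : IsOpen W) (hb : Bornology.IsBounded W)
    (hab : ∀ p ∈ frontier W, a ≤ f p ∧ f p ≤ b) {v : ℂ → ℝ} (hv : Fam W f v) {z : ℂ}
    (hz : z ∈ W) : v z ≤ per W f z := by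
  have hbd : BddAbove (range fun v : {v // Fam W f v} => v.1 z) :=
    ⟨b, by rintro _ ⟨w, rfl⟩; exact w.2.le hW hb hab z hz⟩
  exact le_ciSup hbd (⟨v, hv⟩ : {v // Fam W f v})

theorem per_le (hab : ∀ p ∈ frontier W, a ≤ f p ∧ f p ≤ b) {z : ℂ} {c : ℝ}
    (h : ∀ v, Fam W f v → v z ≤ c) : per W f z ≤ c := by
  have : Nonempty {v // Fam W f v} := ⟨⟨_, Fam.const hab⟩⟩
  exact ciSup_le fun v => h v.1 v.2

theorem per_harm (hW : IsOpen W) (hb : Bornology.IsBounded W)
    (hab : ∀ p ∈ frontier W, a ≤ f p ∧ f p ≤ b) : HarmonicOnNhd (per W f) W := by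
  intro c hc
  obtain ⟨ρ, hρ, hcb⟩ : ∃ ρ > 0, closedBall c ρ ⊆ W := by
    obtain ⟨ε, hε, h⟩ := Metric.isOpen_iff.1 hW c hc
    exact ⟨ε / 2, by positivity, (closedBall_subset_ball (by linarith)).trans h⟩
  have : Nonempty {v // Fam W f v} := ⟨⟨_, Fam.const hab⟩⟩
  have : IsDirectedOrder {v // Fam W f v} := ⟨fun v w =>
    ⟨⟨_, v.2.sup w.2⟩, fun z => le_max_left (v.1 z) (w.1 z), fun z => le_max_right (v.1 z) (w.1 z)⟩⟩
  choose m hm1 hm2 hm3 using fun v : {v // Fam W f v} => v.2.modify hW hρ hcb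
  have hsub : ball c ρ ⊆ W := ball_subset_closedBall.trans hcb
  have key := harm_limit (l := (atTop : Filter {v // Fam W f v})) (u := m) (f := per W f)
    (U := ball c ρ) isOpen_ball ?_ ?_
  · exact key.1 c (mem_ball_self hρ)
  · intro z hz
    obtain ⟨ε, hε, h⟩ := Metric.isOpen_iff.1 isOpen_ball z hz
    refine ⟨ε, hε, |a| + |b|, ?_⟩
    filter_upwards [eventually_ge_atTop (⟨_, Fam.const hab⟩ : {v // Fam W f v})] with v hv
    refine ⟨(hm2 v).mono h, fun y hy => ?_⟩
    have hy' : y ∈ W := hsub (h hy)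
    have h1 : a ≤ v.1 y := hv y
    have h2 := hm3 v y hy'
    have h3 := (hm1 v).le hW hb hab y hy'
    rw [abs_le]
    constructor
    · linarith [neg_abs_le a, abs_nonneg b]
    · linarith [le_abs_self b, abs_nonneg a]
  · intro z hz
    have hz' : z ∈ W := hsub hz
    rw [tendsto_order]
    constructor
    · intro t ht
      obtain ⟨v0, hv0⟩ := exists_lt_of_lt_ciSup ht
      filter_upwards [eventually_ge_atTop v0] with v hv
      have h1 : v0.1 z ≤ v.1 z := hv z
      exact lt_of_lt_of_le hv0 (h1.trans (hm3 v z hz'))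
    · intro t ht
      exact Eventually.of_forall fun v => lt_of_le_of_lt (le_per hW hb hab (hm1 v) hz') ht

theorem per_upper (h : S_BL) (hW : IsOpen W) (hb : Bornology.IsBounded W) (hR : Reg W)
    (hab : ∀ p ∈ frontier W, a ≤ f p ∧ f p ≤ b) {p : ℂ} (hp : p ∈ frontier W) {c : ℝ}
    (hc : ∀ᶠ q in 𝓝[frontier W] p, f q ≤ c) : LS (per W f) W p c := by
  intro ε hε
  obtain ⟨K, hK1, hK2, hK3, hK4, hK5⟩ := hR p hp
  obtain ⟨y, hy, hyp⟩ := hK3.exists_ne p
  obtain ⟨ρ1, hρ1, h1⟩ := Metric.mem_nhdsWithin_iff.1 hc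
  set M : ℝ := |b - c| + 1 with hM
  have hM0 : 0 < M := by positivity
  obtain ⟨δ, hδ0, -, hδ⟩ := h (ε / (2 * M)) (by positivity)
  set ρ : ℝ := min ρ1 (dist y p) with hρ
  have hρ0 : 0 < ρ := lt_min hρ1 (dist_pos.2 hyp)
  have hnK : ¬ K ⊆ ball p ρ := fun hs => by
    have := mem_ball.1 (hs hy)
    exact absurd (min_le_right ρ1 (dist y p)) (not_le.2 this)
  have hev : ∀ᶠ z in 𝓝[W] p, z ∈ ball p (δ * ρ) :=
    mem_nhdsWithin_of_mem_nhds (ball_mem_nhds p (by positivity))
  filter_upwards [hev, self_mem_nhdsWithin] with z hz hzW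
  have : per W f z ≤ c + ε / 2 := by
    refine per_le hab fun v hv => ?_
    have hs : Sub (fun z => M⁻¹ * (v z - c)) W :=
      (hv.1.sub_harm (harmonicOnNhd_const c)).const_mul (by positivity)
    have := hδ p ρ K W ∅ (fun z => M⁻¹ * (v z - c)) hρ0 hK1 hK2 hK4 hnK hW hK5 finite_empty hs
      (fun y hy => by
        have h2 := hv.le hW hb hab y hy
        have h3 := le_abs_self (b - c)
        rw [inv_mul_le_iff₀ hM0]
        linarith)
      (fun q hq hqb _ => by
        have h2 : f q ≤ c := h1 ⟨ball_subset_ball (min_le_left _ _) hqb, hq⟩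
        have h3 : LS (fun z => v z - c) W q (c - c) :=
          ((hv.2.2 q hq).le h2).sub_tendsto tendsto_const_nhds
        have h4 := h3.const_mul (k := M⁻¹) (by positivity)
        simpa using h4) z hzW hz
    rw [inv_mul_le_iff₀ hM0] at this
    have h5 : M * (ε / (2 * M)) = ε / 2 := by field_simp
    linarith
  linarith

theorem LS.of_forall {u : ℂ → ℝ} {p : ℂ} {c : ℝ} (h : ∀ η > 0, LS u W p (c + η)) : LS u W p c := by
  intro ε hε
  filter_upwards [h (ε / 2) (by positivity) (ε / 2) (by positivity)] with z hz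
  linarith

/-- The barrier. -/
theorem barrier (h : S_BL) (hW : IsOpen W) (hb : Bornology.IsBounded W) (hR : Reg W) {p : ℂ}
    (hp : p ∈ frontier W) :
    ∃ β : ℂ → ℝ, HarmonicOnNhd β W ∧ (∀ z ∈ W, ‖z - p‖ ≤ β z) ∧ LS β W p 0 := by
  obtain ⟨D, hD⟩ := (Metric.isBounded_iff_subset_closedBall p).1 hb.closure
  have hab : ∀ q ∈ frontier W, (0 : ℝ) ≤ ‖q - p‖ ∧ ‖q - p‖ ≤ D := fun q hq =>
    ⟨norm_nonneg _, by
      have := hD (frontier_subset_closure hq)
      rwa [mem_closedBall, dist_eq_norm] at this⟩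
  have hcont : Continuous fun z : ℂ => ‖z - p‖ := by fun_prop
  refine ⟨per W (fun q => ‖q - p‖), per_harm hW hb hab, fun z hz => ?_, ?_⟩
  · refine le_per (v := fun z => ‖z - p‖) hW hb hab ⟨Sub.norm_sub p W, hcont.continuousOn, ?_⟩ hz
    intro q _
    exact LS.of_tendsto (hcont.continuousAt.tendsto.mono_left nhdsWithin_le_nhds) le_rfl
  · refine LS.of_forall fun η hη => per_upper h hW hb hR hab hp ?_
    have : ∀ᶠ q in 𝓝 p, q ∈ ball p η := ball_mem_nhds p hη
    filter_upwards [mem_nhdsWithin_of_mem_nhds this] with q hq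
    rw [mem_ball, dist_eq_norm] at hq
    linarith

theorem per_lower (h : S_BL) (hW : IsOpen W) (hb : Bornology.IsBounded W) (hR : Reg W)
    (hab : ∀ p ∈ frontier W, a ≤ f p ∧ f p ≤ b) {p : ℂ} (hp : p ∈ frontier W) {c : ℝ}
    (hc : ∀ᶠ q in 𝓝[frontier W] p, c ≤ f q) : LS (fun z => -per W f z) W p (-c) := by
  obtain ⟨β, hβ1, hβ2, hβ3⟩ := barrier h hW hb hR hp
  obtain ⟨ρ, hρ, h1⟩ := Metric.mem_nhdsWithin_iff.1 hc
  set C : ℝ := |c - a| / ρ with hC
  have hC0 : 0 ≤ C := by positivity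
  have hharm : HarmonicOnNhd (fun z => c - C * β z) W := fun z hz =>
    (harmonicAt_const c).sub (harm_const_mul (hβ1 z hz) C)
  have hfam : Fam W f (fun z => c - C * β z) := by
    refine ⟨Sub.of_harm hharm, hharm.continuousOn, fun q hq => ?_⟩
    have hcont : Continuous fun z : ℂ => c - C * ‖z - p‖ := by fun_prop
    have h2 : c - C * ‖q - p‖ ≤ f q := by
      by_cases hqb : q ∈ ball p ρ
      · have h3 : c ≤ f q := h1 ⟨hqb, hq⟩
        have h4 : 0 ≤ C * ‖q - p‖ := by positivity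
        linarith
      · rw [mem_ball, dist_eq_norm, not_lt] at hqb
        have h3 : C * ρ ≤ C * ‖q - p‖ := mul_le_mul_of_nonneg_left hqb hC0
        have h4 : C * ρ = |c - a| := by rw [hC]; field_simp
        have h5 := le_abs_self (c - a)
        have h6 := (hab q hq).1
        linarith
    have h3 : LS (fun z : ℂ => c - C * ‖z - p‖) W q (f q) :=
      LS.of_tendsto (hcont.continuousAt.tendsto.mono_left nhdsWithin_le_nhds) h2
    refine h3.of_le ?_
    filter_upwards [self_mem_nhdsWithin] with z hz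
    have := mul_le_mul_of_nonneg_left (hβ2 z hz) hC0
    linarith
  have h2 : LS (fun z => C * β z - c) W p (C * 0 - c) :=
    (hβ3.const_mul hC0).sub_tendsto tendsto_const_nhds
  have h3 : C * 0 - c = -c := by ring
  rw [h3] at h2
  refine h2.of_le ?_
  filter_upwards [self_mem_nhdsWithin] with z hz
  have := le_per hW hb hab hfam hz
  linarith

end DirP

open DirP in
theorem dir (h : S_BL) : S_DIR := by
  intro W f a b hW hb hR hab
  refine ⟨per W f, per_harm hW hb hab, fun z hz => ⟨le_per hW hb hab (Fam.const hab) hz,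
    per_le hab fun v hv => hv.le hW hb hab z hz⟩, fun p hp c hc => per_upper h hW hb hR hab hp hc,
    fun p hp c hc => per_lower h hW hb hR hab hp hc, fun p hp hc => ?_⟩
  refine tendsto_of_LS (DirP.LS.of_forall fun η hη => per_upper h hW hb hR hab hp ?_)
    (DirP.LS.of_forall fun η hη => ?_)
  · exact (hc.tendsto.eventually (gt_mem_nhds (by linarith : f p < f p + η))).mono
      fun q hq => le_of_lt hq
  · have h1 : -f p + η = -(f p - η) := by ring
    rw [h1]
    refine per_lower h hW hb hR hab hp ?_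
    exact (hc.tendsto.eventually (lt_mem_nhds (by linarith : f p - η < f p))).mono
      fun q hq => le_of_lt hq

theorem solex (h : S_DIR) : S_SOLEX := by
  classical
  intro r A B L hL hA
  set W := main r L with hWdef
  have hW : IsOpen W := hL.isOpen_main
  set f : ℂ → ℝ := fun p => if p ∈ Ex r L then B else if p ∈ L then 0 else A with hf
  have hab : ∀ p ∈ frontier W, -(|A| + |B|) ≤ f p ∧ f p ≤ |A| + |B| := by
    intro p _
    have h1 := le_abs_self A
    have h2 := le_abs_self B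
    have h3 := neg_abs_le A
    have h4 := neg_abs_le B
    have h5 := abs_nonneg A
    have h6 := abs_nonneg B
    simp only [hf]
    split_ifs <;> constructor <;> linarith
  obtain ⟨u, hu1, hu2, hu3, hu4, -⟩ := h W f _ _ hW (bdd_main r L) hL.reg hab
  have key : ∀ p, p ∉ W → ∀ c : ℝ, (∀ᶠ q in 𝓝 p, q ∈ frontier W → f q = c) →
      Tendsto (W.indicator u) (𝓝[W] p) (𝓝 c) := by
    intro p hp c hc
    by_cases hcl : p ∈ closure W
    · have hpf : p ∈ frontier W := by
        rw [hW.frontier_eq]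
        exact ⟨hcl, hp⟩
      have hc' : ∀ᶠ q in 𝓝[frontier W] p, f q = c := eventually_nhdsWithin_iff.2 hc
      have h1 := tendsto_of_LS (hu3 p hpf c (hc'.mono fun q hq => hq.le))
        (hu4 p hpf c (hc'.mono fun q hq => hq.ge))
      refine h1.congr' ?_
      filter_upwards [self_mem_nhdsWithin] with z hz
      rw [indicator_of_mem hz]
    · rw [mem_closure_iff_nhdsWithin_neBot, not_neBot] at hcl
      rw [hcl]
      exact tendsto_bot
  have hLc : IsClosed L := hL.cpt.isClosed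
  have hlt : ∀ (p : ℂ) (t : ℝ), ‖p‖ < t → ∀ᶠ q in 𝓝 p, ‖q‖ < t := fun p t hp =>
    continuous_norm.continuousAt.eventually (gt_mem_nhds hp)
  refine ⟨W.indicator u, fun z hz => ?_, ⟨|A| + |B|, fun z => ?_⟩, fun z hz => ?_,
    fun p hp hE => ?_, fun p hp hpL => ?_, fun p hp => ?_⟩
  · refine (harmonicAt_congr_nhds ?_).2 (hu1 z hz)
    filter_upwards [hW.mem_nhds hz] with y hy
    rw [indicator_of_mem hy]
  · by_cases hz : z ∈ W
    · rw [indicator_of_mem hz]
      exact abs_le.2 (hu2 z hz)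
    · rw [indicator_of_notMem hz, abs_zero]
      positivity
  · exact indicator_of_notMem hz u
  · refine key p (fun hpW => (main_sub r L hpW).2 hp) 0 ?_
    have h1 : ∀ᶠ q in 𝓝 p, q ∉ closure (Ex r L) := isClosed_closure.isOpen_compl.mem_nhds hE
    have h2 : ∀ᶠ q in 𝓝 p, A = 0 ∨ ‖q‖ < 1 := by
      rcases hA with hA | hA
      · exact Eventually.of_forall fun _ => Or.inl hA
      · exact (hlt p 1 (hA p hp)).mono fun q hq => Or.inr hq
    filter_upwards [h1, h2] with q hq1 hq2 hq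
    have h3 : q ∉ Ex r L := fun h => hq1 (subset_closure h)
    simp only [hf, if_neg h3]
    split_ifs with h4
    · rfl
    · rcases (hL.frontier_sub hq).2.2 with h5 | h5 | h5
      · exact absurd h5 h4
      · exact absurd h5 h3
      · rcases hq2 with h6 | h6
        · exact h6
        · exact absurd h5 h6.ne
  · refine key p (fun hpW => ((main_sub r L hpW).1.2.ne hp)) A ?_
    have h1 : ∀ᶠ q in 𝓝 p, q ∉ L := hLc.isOpen_compl.mem_nhds hpL
    have h2 : ∀ᶠ q in 𝓝 p, r < ‖q‖ :=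
      continuous_norm.continuousAt.eventually (lt_mem_nhds (show r < ‖p‖ by rw [hp]; exact hL.r1))
    filter_upwards [h1, h2] with q hq1 hq2 _
    have h3 : q ∉ Ex r L := fun h => hq2.ne' h.1
    simp only [hf, if_neg h3, if_neg hq1]
  · refine key p (fun hpW => ((main_sub r L hpW).1.1.ne' hp.1)) B ?_
    have h1 : ∀ᶠ q in 𝓝 p, q ∉ L := hLc.isOpen_compl.mem_nhds hp.2.1
    have h2 : ∀ᶠ q in 𝓝 p, ‖q‖ < 1 := hlt p 1 (by rw [hp.1]; exact hL.r1)
    filter_upwards [h1, h2] with q hq1 hq2 hq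
    rcases (hL.frontier_sub hq).2.2 with h5 | h5 | h5
    · exact absurd h5 hq1
    · simp only [hf, if_pos h5]
    · exact absurd h5 hq2.ne

end Pool.Agent.P.MP_3bd355_an
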