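import Pool.Agent.P.MP_3bd355_an.Stmts

/-! Package `Edat`: the pulled back quadratic differential along the real line. -/

open Set Filter Metric Complex InnerProductSpace
open scoped Topology ComplexConjugate Real

namespace Pool.Agent.P.MP_3bd355_an

namespace EdatP

/-- `u` has a boundary pole of weight `m` at `x`. -/
def PP (u : ℂ → ℝ) (x m : ℝ) : Prop :=
  ∃ Φ, RefAt (fun η : ℂ => u η - m * (-2 / (η - x)).im) x Φ

theorem PP.add {u w : ℂ → ℝ} {x m n : ℝ} (h1 : PP u x m) (h2 : PP w x n) :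
    PP (fun η => u η + w η) x (m + n) := by
  obtain ⟨Φ, a1, a2, a3⟩ := h1
  obtain ⟨Ψ, b1, b2, b3⟩ := h2
  refine ⟨fun η => Φ η + Ψ η, a1.add b1, ?_, ?_⟩
  · filter_upwards [a2, b2] with t e1 e2
    rw [add_im, e1, e2, add_zero]
  · filter_upwards [a3, b3] with η e1 e2
    rw [add_im, ← e1, ← e2]; ring

theorem PP.mul {u : ℂ → ℝ} {x m : ℝ} (h : PP u x m) (c : ℝ) :
    PP (fun η => c * u η) x (c * m) := by
  obtain ⟨Φ, a1, a2, a3⟩ := h
  refine ⟨fun η => c * Φ η, analyticAt_const.mul a1, ?_, ?_⟩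
  · filter_upwards [a2] with t e1
    rw [im_ofReal_mul, e1, mul_zero]
  · filter_upwards [a3] with η e1
    rw [im_ofReal_mul, ← e1]; ring

theorem PP.sum {ι : Type} (s : Finset ι) {u : ι → ℂ → ℝ} {x : ℝ} {m : ι → ℝ}
    (h : ∀ i ∈ s, PP (u i) x (m i)) : PP (fun η => ∑ i ∈ s, u i η) x (∑ i ∈ s, m i) := by
  classical
  induction s using Finset.induction_on with
  | empty => exact ⟨fun _ => 0, analyticAt_const, by simp, by simp⟩
  | insert a s ha ih =>
    simp only [Finset.sum_insert ha]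
    exact (h a (by simp)).add (ih fun i hi => h i (by simp [hi]))

theorem PP.of_ref {u : ℂ → ℝ} {x : ℝ} (h : ∃ Φ, RefAt u x Φ) : PP u x 0 := by
  simpa [PP] using h

theorem ne_of_upH {η : ℂ} (hη : η ∈ upH) (x : ℝ) : η - x ≠ 0 := fun h => by
  have h1 : 0 < η.im := hη
  have h2 := congrArg Complex.im h
  simp only [sub_im, ofReal_im, sub_zero, zero_im] at h2
  exact h1.ne' h2

/-- The gradient of a function with a singular part `Im g`. -/
theorem grad_sing {u : ℂ → ℝ} {x d c : ℝ} {Φ g g' : ℂ → ℂ}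
    (h : RefAt (fun η => u η - d - c * (g η).im) x Φ)
    (hu : ∀ᶠ η : ℂ in 𝓝[upH] (x : ℂ), HarmonicAt u η) (hg : ∀ η ∈ upH, HasDerivAt g (g' η) η) :
    ∀ᶠ η : ℂ in 𝓝[upH] (x : ℂ), grad u η = -I * (deriv Φ η + c * g' η) := by
  filter_upwards [h.grad, hu, self_mem_nhdsWithin] with η e1 e2 e3
  have d1 : DifferentiableAt ℝ (fun η => (g η).im) η :=
    imCLM.differentiableAt.comp η ((hg η e3).differentiableAt.restrictScalars ℝ)
  rw [grad_sub ((harm_diff e2).sub_const d) (d1.const_mul c),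
    grad_sub (harm_diff e2) (differentiableAt_const d), grad_const, grad_const_mul,
    grad_im (hg η e3).differentiableAt, (hg η e3).deriv] at e1
  linear_combination e1

theorem PP.grad {u : ℂ → ℝ} {x m : ℝ} {Φ : ℂ → ℂ}
    (h : RefAt (fun η : ℂ => u η - m * (-2 / (η - x)).im) x Φ)
    (hu : ∀ᶠ η : ℂ in 𝓝[upH] (x : ℂ), HarmonicAt u η) :
    ∀ᶠ η : ℂ in 𝓝[upH] (x : ℂ), grad u η = -I * (deriv Φ η + m * (2 / (η - x) ^ 2)) := by
  refine grad_sing (d := 0) (g := fun η => -2 / (η - x)) (by simpa using h) hu fun η hη => ?_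
  have := (hasDerivAt_const η (-2 : ℂ)).fun_div ((hasDerivAt_id η).sub_const (x : ℂ))
    (ne_of_upH hη x)
  refine this.congr_deriv ?_
  simp

theorem hasDerivAt_log' (x : ℝ) : ∀ η ∈ upH,
    HasDerivAt (fun η : ℂ => log (η - x)) (1 / (η - x)) η := fun η hη => by
  have h1 : 0 < η.im := hη
  exact ((hasDerivAt_id η).sub_const (x : ℂ)).clog (Or.inr (by simpa using h1.ne'))

/-- The cofactor in `Ord` is real on the line. -/
theorem ord_grad {u : ℂ → ℝ} {x : ℝ} {j : ℕ} (h : Ord u x j) : ∃ (V : ℂ → ℂ) (c : ℝ),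
    AnalyticAt ℂ V x ∧ 0 < c ∧ V x = c ∧ (∀ᶠ t : ℝ in 𝓝 x, (V t).im = 0) ∧
      ∀ᶠ η : ℂ in 𝓝[upH] (x : ℂ), grad u η = -I * ((η - x) ^ j * V η) := by
  obtain ⟨Φ, V, c, h1, h2, h3, h4, h5⟩ := h
  refine ⟨V, c, h2, h3, h4, ?_, ?_⟩
  · filter_upwards [h1.deriv_im, continuous_ofReal.continuousAt.eventually h5] with t e1 e2
    by_cases ht : t = x
    · rw [ht, h4, ofReal_im]
    · rw [e2, ← ofReal_sub, ← ofReal_pow, im_ofReal_mul] at e1
      exact (mul_eq_zero.1 e1).resolve_left (pow_ne_zero _ (sub_ne_zero.2 ht))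
  · filter_upwards [h1.grad, nhdsWithin_le_nhds h5] with η e1 e2
    rw [e1, e2]

theorem not_Zo {s0 s1 s : ℝ} (h : s1 < s0 + 2 * π) (hs : s = s0 ∨ s = s1) : s ∉ Zo s0 s1 := by
  have hpi := Real.pi_pos
  rintro (h1 | ⟨k, h1, h2⟩)
  · exact h.ne h1
  rcases hs with rfl | rfl
  · have h3 : (k : ℝ) < 0 := by nlinarith
    have h4 : k ≤ -1 := by
      have : k < 0 := by exact_mod_cast h3
      omega
    have h5 : (k : ℝ) ≤ -1 := by exact_mod_cast h4
    nlinarith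
  · have h3 : (0 : ℝ) < k := by nlinarith
    have h4 : 1 ≤ k := by
      have : 0 < k := by exact_mod_cast h3
      omega
    have h5 : (1 : ℝ) ≤ k := by exact_mod_cast h4
    nlinarith

theorem ev_not_cong {x y : ℝ} (h : ∀ n : ℤ, x ≠ y + 2 * π * n) :
    ∀ᶠ t in 𝓝 x, ∀ n : ℤ, t ≠ y + 2 * π * n := by
  have c : Continuous fun t : ℝ => Real.cos (t - y) := by fun_prop
  have h1 : Real.cos (x - y) ≠ 1 := fun e => by
    obtain ⟨n, hn⟩ := (Real.cos_eq_one_iff _).1 e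
    exact h n (by linarith)
  filter_upwards [c.continuousAt.eventually_ne h1] with t ht n hn
  exact ht ((Real.cos_eq_one_iff _).2 ⟨n, by linarith⟩)

variable {r : ℝ} {L : Set ℂ} {φ F : ℂ → ℂ} {h : ℝ} {H : ℂ → ℂ → ℝ}

theorem mart_PP (hU : Unif r L φ F h) {y : ℝ} {k : ℂ → ℝ} (hM : Mart (main r L) F H y k) (x : ℝ)
    [Decidable (∃ n : ℤ, x = y + 2 * π * n)] :
    PP (fun η => k (F η)) x (if ∃ n : ℤ, x = y + 2 * π * n then 1 else 0) := by
  split_ifs with hc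
  · obtain ⟨n, hn⟩ := hc
    obtain ⟨Φ, hΦ⟩ := hM.pole
    have e : y = x + 2 * π * ((-n : ℤ) : ℝ) := by push_cast; linarith
    rw [e] at hΦ
    refine ⟨_, hΦ.shift.congr ?_⟩
    filter_upwards [hU.ev_main x] with η hη
    rw [hU.periodic (-n) hη.1, one_mul]
    congr 3
    push_cast; ring
  · push Not at hc
    refine PP.of_ref (refAt_of_tendsto ?_ ((ev_not_cong hc).mono fun t ht => hM.zero t ht))
    exact (hU.ev_main x).mono fun η hη => hU.harm hη.1 (hM.harm _ hη.2)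

theorem gr_harm (hG : Grn (main r L) H) {z₀ z : ℂ} (h0 : z₀ ∈ main r L) (hz : z ∈ main r L)
    (hne : z ≠ z₀) : HarmonicAt (gr H z₀) z := (hG.harm z₀ h0 z hz).sub (harm_log hne)

theorem ev_ne' (hU : Unif r L φ F h) {z₀ : ℂ} (h0 : z₀ ∈ main r L) (x : ℝ) :
    ∀ᶠ η : ℂ in 𝓝[upH] (x : ℂ), η ∈ St h ∧ F η ∈ main r L ∧ F η ≠ z₀ := by
  filter_upwards [hU.ev_main x, hU.ev_ne x isCompact_singleton (singleton_subset_iff.2 h0)]
    with η a1 a2
  exact ⟨a1.1, a1.2, a2⟩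

theorem gr_PP (hU : Unif r L φ F h) (hG : Grn (main r L) H) {z₀ : ℂ} (h0 : z₀ ∈ main r L)
    (x : ℝ) : PP (fun η => gr H z₀ (F η)) x 0 :=
  PP.of_ref (refAt_of_tendsto
    ((ev_ne' hU h0 x).mono fun _ hη => hU.harm hη.1 (gr_harm hG h0 hη.2.1 hη.2.2))
    (Eventually.of_forall fun t => hU.tendsto_zero (fun p hp _ => hG.bd z₀ h0 p hp) t))

end EdatP

open EdatP in
theorem edat : S_EDAT := by
  classical
  intro r A B z₀ z₁ L v φ F h s0 s1 H a b c l0 Y lam k hF h0 hG hL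
  have hU := hF.unif
  set G : ℂ → ℝ := fun z => l0 * gr H z₀ z + ∑ y ∈ Y, lam y * k y z with hGdef
  set m : ℝ → ℝ := fun x => ∑ y ∈ Y, lam y * (if ∃ n : ℤ, x = y + 2 * π * n then 1 else 0) with hm
  have hPP : ∀ x, PP (fun η => G (F η)) x (m x) := fun x => by
    have := ((gr_PP hU hG h0 x).mul l0).add
      (PP.sum Y fun y hy => (mart_PP hU (hL.mart y hy) x).mul (lam y))
    rwa [mul_zero, zero_add] at this
  have hterm : ∀ x, ∀ y ∈ Y, 0 ≤ lam y * (if ∃ n : ℤ, x = y + 2 * π * n then 1 else 0) :=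
    fun x y hy => mul_nonneg (hL.lamn y hy) (by split_ifs <;> norm_num)
  have hm0 : ∀ x, 0 ≤ m x := fun x => Finset.sum_nonneg (hterm x)
  have hmZ : ∀ x, m x ≠ 0 → x ∈ Zer v F s0 s1 := fun x hx => by
    obtain ⟨y, hy, hne⟩ := Finset.exists_ne_zero_of_sum_ne_zero hx
    split_ifs at hne with hc
    · obtain ⟨n, rfl⟩ := hc
      exact Zer_shift hU (hL.sub y hy).1 n
    · simp at hne
  have hGh : ∀ z ∈ main r L, z ≠ z₀ → HarmonicAt G z := fun z hz hne =>
    (harm_const_mul (gr_harm hG h0 hz hne) l0).add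
      (harm_sum Y fun y hy => harm_const_mul ((hL.mart y hy).harm z hz) (lam y))
  have hGp : ∀ z ∈ main r L, z ≠ z₀ → 0 < G z := fun z hz hne => by
    have a1 := hG.pos z₀ h0 z hz hne
    have a2 : ∀ y ∈ Y, 0 ≤ lam y * k y z := fun y hy =>
      mul_nonneg (hL.lamn y hy) ((hL.mart y hy).pos z hz).le
    rcases hL.nz with h1 | ⟨y, hy, h1⟩
    · exact add_pos_of_pos_of_nonneg (mul_pos h1 a1) (Finset.sum_nonneg a2)
    · exact add_pos_of_nonneg_of_pos (mul_nonneg hL.l0n a1.le)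
        (Finset.sum_pos' a2 ⟨y, hy, mul_pos h1 ((hL.mart y hy).pos z hz)⟩)
  have hGF : ∀ x : ℝ, ∀ᶠ η : ℂ in 𝓝[upH] (x : ℂ), HarmonicAt (fun η => G (F η)) η := fun x =>
    (ev_ne' hU h0 x).mono fun _ hη => hU.harm hη.1 (hGh _ hη.2.1 hη.2.2)
  have hvF : ∀ x : ℝ, ∀ᶠ η : ℂ in 𝓝[upH] (x : ℂ), HarmonicAt (fun η => v (F η)) η := fun x =>
    (hU.ev_main x).mono fun _ hη => hU.harm hη.1 (hF.cfg.sol.harm _ hη.2)
  have hQ : ∀ x : ℝ, ∀ᶠ η : ℂ in 𝓝[upH] (x : ℂ), QD r z₀ z₁ a b c (F η) * deriv F η ^ 2 =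
      grad (fun η => v (F η)) η * grad (fun η => G (F η)) η := fun x => by
    filter_upwards [ev_ne' hU h0 x] with η hη
    have dF := (hU.analytic hη.1).differentiableAt
    have d1 := harm_diff (gr_harm hG h0 hη.2.1 hη.2.2)
    have d2 : ∀ y ∈ Y, DifferentiableAt ℝ (fun z => lam y * k y z) (F η) := fun y hy =>
      (harm_diff ((hL.mart y hy).harm _ hη.2.1)).const_mul _
    rw [grad_comp (harm_diff (hF.cfg.sol.harm _ hη.2.1)) dF,
      grad_comp (harm_diff (hGh _ hη.2.1 hη.2.2)) dF, ← hL.iden _ hη.2.1 hη.2.2, hGdef,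
      grad_add (d1.const_mul l0) (DifferentiableAt.fun_sum d2), grad_const_mul, grad_sum Y d2]
    simp only [grad_const_mul]
    ring
  have reg : ∀ (x : ℝ) (j : ℕ), m x = 0 → Ord (fun η => v (F η)) x j →
      Ed (QD r z₀ z₁ a b c) F x j := fun x j hx ho => by
    obtain ⟨V, c', v1, v2, v3, v4, v5⟩ := ord_grad ho
    obtain ⟨Φ, hΦ⟩ := hPP x
    simp only [hx, zero_mul, sub_zero] at hΦ
    have hp := hΦ.hopf ((ev_ne' hU h0 x).mono fun _ hη => hGp _ hη.2.1 hη.2.2)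
    refine ⟨fun η => -(V η * deriv Φ η), (v1.mul hΦ.1.deriv).neg, ?_, ?_, ?_⟩
    · filter_upwards [v4, hΦ.deriv_im] with t e1 e2
      simp [e1, e2]
    · simp only [v3, neg_re, re_ofReal_mul]
      linarith [mul_pos v2 hp]
    · filter_upwards [hQ x, v5, hΦ.grad] with η e1 e2 e3
      rw [e1, e2, e3]
      linear_combination ((η - x) ^ j * V η * deriv Φ η) * I_sq
  have pol : ∀ x : ℝ, m x ≠ 0 → Ed (QD r z₀ z₁ a b c) F x 0 := fun x hx => by
    obtain ⟨V, c', v1, v2, v3, v4, v5⟩ := ord_grad (hF.tip x (hmZ x hx))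
    obtain ⟨Φ, hΦ⟩ := hPP x
    have hp : 0 < m x := lt_of_le_of_ne (hm0 x) hx.symm
    refine ⟨fun η => -(V η * ((η - x) ^ 2 * deriv Φ η + (2 * m x : ℝ))),
      (v1.mul ((AnalyticAt.mul (by fun_prop) hΦ.1.deriv).add analyticAt_const)).neg, ?_, ?_, ?_⟩
    · filter_upwards [v4, hΦ.deriv_im] with t e1 e2
      rw [← ofReal_sub, ← ofReal_pow, neg_im, mul_im, add_im, im_ofReal_mul, e1, e2, ofReal_im]
      ring
    · simp only [v3, neg_re, re_ofReal_mul, sub_self, ne_eq, OfNat.ofNat_ne_zero,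
        not_false_eq_true, zero_pow, zero_mul, zero_add, ofReal_re]
      nlinarith [mul_pos v2 hp]
    · filter_upwards [hQ x, v5, PP.grad hΦ (hGF x), self_mem_nhdsWithin] with η e1 e2 e3 e4
      have := ne_of_upH e4 x
      have e5 : (η - x) ^ 2 * (2 / (η - x) ^ 2) = 2 := by field_simp
      rw [e1, e2, e3]
      push_cast
      linear_combination ((η - x) ^ 2 * V η * (deriv Φ η + m x * (2 / (η - x) ^ 2))) * I_sq -
        (V η * m x) * e5
  refine ⟨⟨fun x hx => ?_, fun hlt s hs => ?_⟩, fun y hy hp => pol y (ne_of_gt ?_)⟩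
  · by_cases h1 : m x = 0
    · by_cases h2 : Ord (fun η => v (F η)) x 0
      · exact Or.inl (reg x 0 h1 h2)
      · exact Or.inr ⟨⟨hx, h2⟩, reg x 2 h1 (hF.tip x ⟨hx, h2⟩)⟩
    · exact Or.inl (pol x h1)
  · have h1 : m s = 0 := by
      by_contra h1
      exact not_Zo hlt hs (hmZ s h1).1
    obtain ⟨Φ, hΦ⟩ := hPP s
    simp only [h1, zero_mul, sub_zero] at hΦ
    have h2 : ∃ (Ψ : ℂ → ℂ) (d : ℝ), AnalyticAt ℂ Ψ s ∧ ∀ᶠ η : ℂ in 𝓝[upH] (s : ℂ),
        grad (fun η => v (F η)) η = -I * (deriv Ψ η + d * (1 / (η - s))) := by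
      rcases hs with rfl | rfl
      · obtain ⟨Ψ, hΨ⟩ := hF.pv.end0 hlt
        refine ⟨Ψ, B / π, hΨ.1, grad_sing (d := 0) (g := fun η => log (η - s))
          (hΨ.congr (Eventually.of_forall fun η => ?_)) (hvF s) (hasDerivAt_log' s)⟩
        rw [log_im, sub_zero]
      · obtain ⟨Ψ, hΨ⟩ := hF.pv.end1 hlt
        refine ⟨Ψ, -(B / π), hΨ.1, grad_sing (d := B) (g := fun η => log (η - s))
          (hΨ.congr (Eventually.of_forall fun η => ?_)) (hvF s) (hasDerivAt_log' s)⟩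
        rw [log_im]; ring
    obtain ⟨Ψ, d, a1, a2⟩ := h2
    have c1 : ContinuousAt (fun η : ℂ => ‖((η - s) * deriv Ψ η + d) * deriv Φ η‖) s :=
      ((((continuousAt_id.sub continuousAt_const).mul a1.deriv.continuousAt).add
        continuousAt_const).mul hΦ.1.deriv.continuousAt).norm
    refine ⟨‖((s - s : ℂ) * deriv Ψ s + d) * deriv Φ s‖ + 1, ?_⟩
    · filter_upwards [nhdsWithin_le_nhds (c1.eventually (gt_mem_nhds (lt_add_one _))), hQ s, a2,
        hΦ.grad, self_mem_nhdsWithin] with η e0 e1 e2 e3 e4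
      have := ne_of_upH e4 s
      have e5 : (η - s) * (1 / (η - s)) = 1 := by field_simp
      refine le_of_eq_of_le ?_ e0.le
      rw [← norm_mul, ← norm_neg, e1, e2, e3]
      congr 1
      linear_combination (-((η - s) * (deriv Ψ η + d * (1 / (η - s))) * deriv Φ η)) * I_sq +
        (d * deriv Φ η) * e5
  · refine Finset.sum_pos' (hterm y) ⟨y, hy, ?_⟩
    rw [if_pos ⟨0, by simp⟩, mul_one]
    exact hp

end Pool.Agent.P.MP_3bd355_an
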