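import Pool.Agent.P.MP_3bd355_an.Stmts

/-! Existence of configurations: the fold of a competitor, and limits of such folds. -/

open Set Filter Metric Complex InnerProductSpace
open scoped Topology ComplexConjugate Real

namespace Pool.Agent.P.MP_3bd355_an

namespace ExistP

variable {r A B : ℝ} {z₀ z₁ : ℂ} {u : ℂ → ℝ} {γ : ℝ → ℂ}

theorem fold_cases (z : ℂ) : fold z = z ∨ conj (fold z) = z := by
  rcases le_total z.im 0 with h | h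
  · exact Or.inl (fold_of_nonpos h)
  · exact Or.inr (by rw [fold_of_nonneg h, conj_conj])

theorem fh_of_sub (h1 : r < 1) (h : GAdm r A B z₁ u γ) {L : Set ℂ}
    (hL : ∀ p ∈ L, ‖p‖ < 1 → ∃ t ∈ Ico (0 : ℝ) 1, fold (γ t) = p) : FH r u L := by
  obtain ⟨S, hS, hh⟩ := h.hug
  refine ⟨fun p hp ha => ?_, fold '' S, hS.image _, fun p hp hr hpS => ?_⟩
  · obtain ⟨t, ht, rfl⟩ := hL p hp ha.2
    have h2 := h.le t ht (by rw [← norm_fold]; exact ha.1)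
    rcases fold_cases (γ t) with e | e
    · exact Or.inl (by rwa [e])
    · exact Or.inr (by rwa [e])
  · obtain ⟨t, ht, rfl⟩ := hL p hp (hr.trans_lt h1)
    have h2 := hh t ht (by rwa [← norm_fold]) fun hs => hpS ⟨_, hs, rfl⟩
    rcases fold_cases (γ t) with e | e
    · exact Or.inl (by rwa [e])
    · exact Or.inr (by rwa [e])

theorem cont_fold (h : GAdm r A B z₁ u γ) : ContinuousOn (fun s => fold (γ s)) (Ico 0 1) :=
  continuous_fold.comp_continuousOn h.cont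

theorem start_fold (hH : Hyp r A B z₀ z₁) (h : GAdm r A B z₁ u γ) : fold (γ 0) = z₁ := by
  rw [h.start, fold_of_nonpos hH.im1]

theorem init_mem (_h : GAdm r A B z₁ u γ) {t : ℝ} (ht : t < 1) {p : ℂ}
    (hp : p ∈ (fun s => fold (γ s)) '' Icc 0 t) : ∃ s ∈ Ico (0 : ℝ) 1, fold (γ s) = p := by
  obtain ⟨s, hs, e⟩ := hp
  exact ⟨s, ⟨hs.1, hs.2.trans_lt ht⟩, e⟩

theorem init_lt (h : GAdm r A B z₁ u γ) {t : ℝ} (ht : t < 1) :
    ∀ p ∈ (fun s => fold (γ s)) '' Icc 0 t, ‖p‖ < 1 := fun p hp => by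
  obtain ⟨s, hs, rfl⟩ := init_mem h ht hp
  rw [norm_fold]
  exact (h.mem s hs).2

/-- Initial arcs with end times near `t₀` are close to each other. -/
theorem close {g : ℝ → ℂ} (hg : ContinuousOn g (Ico 0 1)) {t₀ : ℝ} (ht : t₀ ∈ Ioo (0 : ℝ) 1)
    {ε : ℝ} (hε : 0 < ε) : ∃ δ > 0, ∀ a b : ℝ, 0 ≤ b → |a - t₀| < δ → |b - t₀| < δ →
      g '' Icc 0 a ⊆ thickening ε (g '' Icc 0 b) := by
  obtain ⟨δ, hδ, h⟩ := Metric.continuousAt_iff.1
    (hg.continuousAt (Ico_mem_nhds ht.1 ht.2)) (ε / 2) (half_pos hε)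
  refine ⟨δ, hδ, fun a b hb h1 h2 => ?_⟩
  rintro _ ⟨s, hs, rfl⟩
  rcases le_or_gt s b with h3 | h3
  · exact self_subset_thickening hε _ ⟨s, ⟨hs.1, h3⟩, rfl⟩
  · refine mem_thickening_iff.2 ⟨g b, ⟨b, ⟨hb, le_rfl⟩, rfl⟩, ?_⟩
    have h4 : dist s t₀ < δ := by
      rw [Real.dist_eq, abs_lt] at *
      constructor <;> linarith [h1.1, h1.2, h2.1, h2.2, hs.2]
    have h5 := h h4
    have h6 := h (show dist b t₀ < δ from h2)
    linarith [dist_triangle_right (g s) (g b) (g t₀)]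

theorem mem_lim {Ls : ℕ → Set ℂ} {L : Set ℂ} (hl : HL Ls L) (hL : Cont r L) {z : ℂ}
    (hz : ∀ k, z ∈ Ls k) : z ∈ L :=
  hl.mem hL.cpt.isClosed fun _ hε => Frequently.of_forall fun k => ⟨z, hz k, by simpa using hε⟩

/-- The limit of configurations on both sides of the first exit time. -/
theorem core (hE : S_SOLEX) (hC : S_CLOSED) (hO : S_OPEN) (hH : Hyp r A B z₀ z₁) (hA : A < 0)
    {Ls Ls' : ℕ → Set ℂ} {L : Set ℂ} (hL : Cont r L) (h1 : ∀ k, Cont r (Ls k))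
    (h2 : ∀ k, Cont r (Ls' k)) (hl : HL Ls L) (hl' : HL Ls' L) (hz : ∀ k, z₁ ∈ Ls k)
    (h3 : ∀ k, ∀ p ∈ Ls k, ‖p‖ < 1) (h4 : ∀ k, ∀ p ∈ Ls' k, ‖p‖ < 1)
    (h5 : ∀ k v, Sol r A B (Ls k) v → Pos r (Ls k) v)
    (h6 : ∀ k v, Sol r A B (Ls' k) v → ¬ Pos r (Ls' k) v) : ∃ v, Cfg r A B z₁ L v := by
  choose vs hvs using fun k => hE r A B _ (h1 k) (Or.inr (h3 k))
  choose ws hws using fun k => hE r A B _ (h2 k) (Or.inr (h4 k))
  have h7 : ∀ p ∈ L, ‖p‖ < 1 := fun p hp => by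
    refine (hL.sub hp).2.lt_of_ne fun e => ?_
    have h8 : ContinuousAt (hf r A B) p :=
      (harm_diff (hf_harm r A B (norm_pos_iff.1 (by rw [e]; exact one_pos)))).continuousAt
    obtain ⟨ε, hε, h9⟩ := Metric.eventually_nhds_iff.1
      (h8.eventually (gt_mem_nhds (show hf r A B p < 0 by rwa [hf_outer r A B e])))
    obtain ⟨k, y, hy, h10⟩ := (hl.near hp hε).exists
    exact (h9 h10).not_ge (Pos.hf_nonneg (h1 k) (Or.inr (h3 k)) hH.B0.le hH.A0 (hvs k)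
      (h5 k _ (hvs k)) y hy)
  obtain ⟨v, hv⟩ := hE r A B L hL (Or.inr h7)
  exact ⟨v, hL, hH.m1, mem_lim hl hL hz, hH.B0, hv,
    hC r A B Ls L vs v hH.A0 hH.B0 hL h1 hl h7 h3 hvs hv fun k => h5 k _ (hvs k),
    Or.inr ⟨hA, h7, hO r A B Ls' L ws v hA hH.B0 hL h2 hl' h7 h4 hws hv fun k => h6 k _ (hws k)⟩⟩

theorem ev_lt {δ : ℝ} (hδ : 0 < δ) : ∀ᶠ k : ℕ in atTop, 1 / ((k : ℝ) + 1) < δ :=
  tendsto_one_div_add_atTop_nhds_zero_nat.eventually (gt_mem_nhds hδ)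

/-- The value at the pole passes to the limit. -/
theorem value (hL : S_LIM) (hL3 : S_LIM3) (hF : S_FOLD1) (hE : S_SOLEX) (hH : Hyp r A B z₀ z₁)
    {m : ℝ}
    {Ls : ℕ → Set ℂ} {L : Set ℂ} {v : ℂ → ℝ} (hc : Cfg r A B z₁ L v) (h1 : ∀ k, Cont r (Ls k))
    (hl : HL Ls L) (h2 : ∀ k, OK A (Ls k)) {σ : ℕ → ℕ} (hσ : StrictMono σ)
    (h3 : ∀ k, ∃ u γ, GAdm r A B z₁ u γ ∧ m - 1 / ((σ k : ℝ) + 1) < u z₀ ∧ FH r u (Ls k)) :
    m ≤ v z₀ := by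
  choose vs hvs using fun k => hE r A B _ (h1 k) (h2 k)
  have h4 : Tendsto (fun k => vs k z₀) atTop (𝓝 (v z₀)) := by
    by_cases hz : z₀ ∈ L
    · rw [hc.sol.zero hz]
      exact hL3 r A B Ls L vs z₀ hc.cont h1 hl hvs hz hH.m0
    · exact ((hL r A B Ls L vs v hc.cont h1 hl hc.ok h2 hvs hc.sol).1).tendsto_at
        (hc.cont.mem_main hH.m0 hH.im0 hz)
  have h5 : Tendsto (fun k => m - 1 / ((σ k : ℝ) + 1)) atTop (𝓝 m) := by
    simpa using (tendsto_one_div_add_atTop_nhds_zero_nat.comp hσ.tendsto_atTop).const_sub m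
  refine le_of_tendsto_of_tendsto' h5 h4 fun k => ?_
  obtain ⟨u, γ, h6, h7, h8⟩ := h3 k
  exact h7.le.trans (hF r A B _ u _ (h1 k) (h2 k) hH.B0.le (hvs k) h6.sh h6.outer h6.inner h8
    z₀ hH.m0 hH.im0).1

end ExistP

open ExistP

theorem e1 (hS : S_STEP) (hE : S_SOLEX) (hC : S_CLOSED) (hO : S_OPEN) : S_E1 := by
  intro r A B z₀ z₁ u γ hH h
  have hg := cont_fold h
  suffices H : ∃ (L : Set ℂ) (v : ℂ → ℝ), Cfg r A B z₁ L v ∧
      ∀ p ∈ L, ‖p‖ < 1 → ∃ t ∈ Ico (0 : ℝ) 1, fold (γ t) = p by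
    obtain ⟨L, v, h1, h2⟩ := H
    refine ⟨L, v, h1, fh_of_sub hH.r1 h h2, fun h3 p hp e => ?_⟩
    obtain ⟨t, ht, rfl⟩ := h2 p hp (e.trans_lt hH.r1)
    rw [norm_fold] at e
    exact (h3 t ht).ne' e
  rcases hH.A0.eq_or_lt with rfl | hA
  · set L := closure ((fun s => fold (γ s)) '' Ico 0 1) with hL
    have hl : Tendsto (fun t => ‖fold (γ t)‖) (𝓝[<] 1) (𝓝 1) := by
      simpa only [norm_fold] using h.lim
    have hs : L ⊆ cann r := by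
      refine closure_minimal ?_ (isCompact_cann r).isClosed
      rintro _ ⟨t, ht, rfl⟩
      exact ⟨by rw [norm_fold]; exact (h.mem t ht).1, by rw [norm_fold]; exact (h.mem t ht).2.le⟩
    have hK : IsCompact L := (isCompact_cann r).of_isClosed_subset isClosed_closure hs
    have hm : z₁ ∈ L := subset_closure ⟨0, ⟨le_rfl, one_pos⟩, start_fold hH h⟩
    have ho : ∃ p ∈ L, ‖p‖ = 1 := by
      obtain ⟨p, hp, hmax⟩ := hK.exists_isMaxOn ⟨_, hm⟩ continuous_norm.continuousOn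
      refine ⟨p, hp, le_antisymm (hs hp).2 (le_of_tendsto hl ?_)⟩
      filter_upwards [Ico_mem_nhdsLT one_pos] with t ht
      exact hmax (subset_closure ⟨t, ht, rfl⟩)
    have hc : Cont r L := by
      obtain ⟨p, hp, e⟩ := ho
      refine ⟨hH.r0, hH.r1, hK, (isPreconnected_Ico.image _ hg).closure,
        ⟨z₁, hm, p, hp, fun e' => hH.m1.2.ne (e' ▸ e)⟩, hs, ?_⟩
      refine closure_minimal (t := {z : ℂ | z.im ≤ 0}) ?_
        (isClosed_le continuous_im continuous_const)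
      rintro _ ⟨t, -, rfl⟩
      exact fold_im _
    obtain ⟨v, hv⟩ := hE r 0 B L hc (Or.inl rfl)
    exact ⟨L, v, ⟨hc, hH.m1, hm, hH.B0, hv, nn_zero hc hv hH.B0.le, Or.inl ⟨rfl, ho⟩⟩,
      fun p hp h1 => SolFP.sub_curve hg hl hp h1⟩
  · obtain ⟨d, -, h1⟩ := hS r A B z₀ z₁ hH hA
    obtain ⟨t₀, ht₀, h2⟩ := h1 u γ h
    choose t ht t' ht' a1 a2 _ a4 a5 a6 a7 using
      fun k : ℕ => h2 (1 / ((k : ℝ) + 1)) Nat.one_div_pos_of_nat
    have hI : Icc 0 t₀ ⊆ Ico (0 : ℝ) 1 := Icc_subset_Ico_right ht₀.2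
    have hc : Cont r ((fun s => fold (γ s)) '' Icc 0 t₀) := by
      refine ⟨hH.r0, hH.r1, isCompact_Icc.image_of_continuousOn (hg.mono hI),
        isPreconnected_Icc.image _ (hg.mono hI),
        (a4 0).nt.mono (image_mono (Icc_subset_Icc_right (ht 0).2)), ?_, ?_⟩
      · rintro _ ⟨s, hs, rfl⟩
        exact ⟨by rw [norm_fold]; exact (h.mem s (hI hs)).1,
          by rw [norm_fold]; exact (h.mem s (hI hs)).2.le⟩
      · rintro _ ⟨s, -, rfl⟩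
        exact fold_im _
    have key : ∀ τ : ℕ → ℝ, (∀ k, 0 ≤ τ k) → (∀ k : ℕ, |τ k - t₀| < 1 / ((k : ℝ) + 1)) →
        HL (fun k => (fun s => fold (γ s)) '' Icc 0 (τ k)) ((fun s => fold (γ s)) '' Icc 0 t₀) := by
      intro τ b1 b2 ε hε
      obtain ⟨δ, hδ, b3⟩ := close hg ht₀ hε
      filter_upwards [ev_lt hδ] with k hk
      exact ⟨b3 _ _ ht₀.1.le ((b2 k).trans hk) (by simpa using hδ),
        b3 _ _ (b1 k) (by simpa using hδ) ((b2 k).trans hk)⟩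
    have p0 : ∀ k : ℕ, 0 < 1 / ((k : ℝ) + 1) := fun _ => Nat.one_div_pos_of_nat
    obtain ⟨v, hv⟩ := core hE hC hO hH hA hc a4 a5
      (key t (fun k => (ht k).1.le) fun k => abs_lt.2
        ⟨by linarith [a1 k], by linarith [(ht k).2, p0 k]⟩)
      (key t' (fun k => ht₀.1.le.trans (ht' k).1) fun k => abs_lt.2
        ⟨by linarith [(ht' k).1, p0 k], by linarith [a2 k]⟩)
      (fun k => ⟨0, ⟨le_rfl, (ht k).1.le⟩, start_fold hH h⟩)
      (fun k => init_lt h ((ht k).2.trans_lt ht₀.2)) (fun k => init_lt h (ht' k).2) a6 a7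
    exact ⟨_, v, hv, fun p hp _ => init_mem h ht₀.2 hp⟩

theorem e2 (hS : S_STEP) (hE : S_SOLEX) (hC : S_CLOSED) (hO : S_OPEN) (hL : S_LIM) (hF : S_FOLD1)
    (h1 : S_E1) (hL3 : S_LIM3) : S_E2 := by
  intro r A B z₀ z₁ m hH h
  choose u γ hu hm using fun k : ℕ => h (1 / ((k : ℝ) + 1)) Nat.one_div_pos_of_nat
  rcases hH.A0.eq_or_lt with rfl | hA
  · choose Ls vs a1 a2 _ using fun k => h1 r 0 B z₀ z₁ (u k) (γ k) hH (hu k)
    have a3 : ∀ k, ∃ p ∈ Ls k, ‖p‖ = 1 := fun k =>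
      (a1 k).cases.elim And.right fun h => absurd h.1 (lt_irrefl _)
    obtain ⟨σ, L, hσ, hc, hl⟩ := blaschke (sub_pos.2 hH.m1.2) (fun k => (a1 k).cont) fun k => by
      obtain ⟨p, hp, e⟩ := a3 k
      refine ⟨p, hp, z₁, (a1 k).mem, ?_⟩
      rw [dist_eq_norm, ← e]
      exact norm_sub_norm_le _ _
    have ho : ∃ p ∈ L, ‖p‖ = 1 := by
      by_contra hn
      obtain ⟨k, hk⟩ := (hl.sub_open hc.cpt (isOpen_ball (x := (0 : ℂ)) (ε := 1)) fun p hp =>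
        mem_ball_zero_iff.2 ((hc.sub hp).2.lt_of_ne fun e => hn ⟨p, hp, e⟩)).exists
      obtain ⟨p, hp, e⟩ := a3 (σ k)
      exact (mem_ball_zero_iff.1 (hk hp)).ne e
    obtain ⟨v, hv⟩ := hE r 0 B L hc (Or.inl rfl)
    have hcf : Cfg r 0 B z₁ L v := ⟨hc, hH.m1, mem_lim hl hc fun k => (a1 (σ k)).mem, hH.B0, hv,
      nn_zero hc hv hH.B0.le, Or.inl ⟨rfl, ho⟩⟩
    exact ⟨L, v, hcf, value hL hL3 hF hE hH hcf (fun k => (a1 (σ k)).cont) hl (fun _ => Or.inl rfl) hσ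
      fun k => ⟨_, _, hu (σ k), hm (σ k), a2 (σ k)⟩⟩
  · obtain ⟨d, hd, h2⟩ := hS r A B z₀ z₁ hH hA
    have h3 : ∀ k : ℕ, ∃ L L' : Set ℂ, Cont r L ∧ Cont r L' ∧ z₁ ∈ L ∧ (∃ x ∈ L, d ≤ dist x z₁) ∧
        (∀ p ∈ L, ‖p‖ < 1) ∧ (∀ p ∈ L', ‖p‖ < 1) ∧ (∀ v, Sol r A B L v → Pos r L v) ∧
        (∀ v, Sol r A B L' v → ¬ Pos r L' v) ∧ FH r (u k) L ∧
        L' ⊆ thickening (1 / ((k : ℝ) + 1)) L ∧ L ⊆ thickening (1 / ((k : ℝ) + 1)) L' := by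
      intro k
      obtain ⟨t₀, ht₀, h4⟩ := h2 _ _ (hu k)
      obtain ⟨δ, hδ, h5⟩ := close (cont_fold (hu k)) ht₀ (Nat.one_div_pos_of_nat (n := k))
      obtain ⟨t, ht, t', ht', a1, a2, ⟨s, hs, a3⟩, a4, a5, a6, a7⟩ := h4 δ hδ
      have b1 : |t - t₀| < δ := abs_lt.2 ⟨by linarith, by linarith [ht.2]⟩
      have b2 : |t' - t₀| < δ := abs_lt.2 ⟨by linarith [ht'.1], by linarith⟩
      exact ⟨_, _, a4, a5, ⟨0, ⟨le_rfl, ht.1.le⟩, start_fold hH (hu k)⟩, ⟨_, ⟨s, hs, rfl⟩, a3⟩,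
        init_lt (hu k) (ht.2.trans_lt ht₀.2), init_lt (hu k) ht'.2, a6, a7,
        fh_of_sub hH.r1 (hu k) fun p hp _ => init_mem (hu k) (ht.2.trans_lt ht₀.2) hp,
        h5 _ _ ht.1.le b2 b1, h5 _ _ (ht₀.1.le.trans ht'.1) b1 b2⟩
    choose Ls Ls' a1 a2 a3 a4 a5 a6 a7 a8 a9 a10 a11 using h3
    obtain ⟨σ, L, hσ, hc, hl⟩ := blaschke hd a1 fun k => by
      obtain ⟨x, hx, e⟩ := a4 k
      exact ⟨x, hx, z₁, a3 k, e⟩
    have hl' : HL (fun k => Ls' (σ k)) L := hl.of_close fun ε hε => by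
      filter_upwards [hσ.tendsto_atTop.eventually (ev_lt hε)] with k hk
      exact ⟨(a10 _).trans (thickening_mono hk.le _), (a11 _).trans (thickening_mono hk.le _)⟩
    obtain ⟨v, hv⟩ := core hE hC hO hH hA hc (fun k => a1 (σ k)) (fun k => a2 (σ k)) hl hl'
      (fun k => a3 (σ k)) (fun k => a5 (σ k)) (fun k => a6 (σ k)) (fun k => a7 (σ k))
      fun k => a8 (σ k)
    exact ⟨L, v, hv, value hL hL3 hF hE hH hv (fun k => a1 (σ k)) hl (fun k => Or.inr (a5 (σ k))) hσ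
      fun k => ⟨_, _, hu (σ k), hm (σ k), a9 (σ k)⟩⟩

end Pool.Agent.P.MP_3bd355_an
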