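import Pool.Agent.P.MP_3bd355_an.Stmts

/-! The folding inequality. -/

open Set Filter Metric Complex InnerProductSpace
open scoped Topology ComplexConjugate Real

namespace Pool.Agent.P.MP_3bd355_an

namespace Fold1P

theorem tend_conj (r : ℝ) (p : ℂ) :
    Tendsto (fun z : ℂ => conj z) (𝓝[ann r] p) (𝓝[ann r] (conj p)) := by
  apply tendsto_nhdsWithin_iff.2
  refine ⟨(Complex.continuous_conj.tendsto p).mono_left nhdsWithin_le_nhds, ?_⟩
  filter_upwards [self_mem_nhdsWithin] with z hz using conj_mem_ann.2 hz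

theorem ls_conj {r : ℝ} {u : ℂ → ℝ} {p : ℂ} {c : ℝ} (h : LS u (ann r) (conj p) c) :
    LS (fun z => u (conj z)) (ann r) p c :=
  h.comp (tend_conj r p)

theorem ls_neg {r : ℝ} {v : ℂ → ℝ} {p : ℂ} {c : ℝ} (h : Tendsto v (𝓝[ann r] p) (𝓝 c)) :
    LS (fun z => -v z) (ann r) p (-c) :=
  LS.of_tendsto h.neg le_rfl

theorem cann_cases {r : ℝ} {p : ℂ} (hp : p ∈ cann r) : p ∈ ann r ∨ ‖p‖ = 1 ∨ ‖p‖ = r := by
  obtain ⟨h1, h2⟩ := hp
  rcases h1.lt_or_eq with h1 | h1
  · rcases h2.lt_or_eq with h2 | h2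
    · exact Or.inl ⟨h1, h2⟩
    · exact Or.inr (Or.inl h2)
  · exact Or.inr (Or.inr h1.symm)

theorem im_ne {r : ℝ} {p : ℂ} (hp : ‖p‖ = r) (h : p ∉ ({(r : ℂ), -(r : ℂ)} : Set ℂ)) :
    p.im ≠ 0 := by
  intro hi
  apply h
  have e : p = (p.re : ℂ) := by
    apply Complex.ext <;> simp [hi]
  rw [e, Complex.norm_real, Real.norm_eq_abs] at hp
  rcases abs_cases p.re with ⟨h1, -⟩ | ⟨h1, -⟩
  · left; rw [e, ← hp, h1]
  · right; rw [e, ← hp, h1]; simp

theorem conj_real {p : ℂ} (h : p.im = 0) : conj p = p := Complex.conj_eq_iff_im.2 h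

variable {r A B : ℝ} {L : Set ℂ} {u v : ℂ → ℝ}

/-- The comparison in the upper half annulus. -/
theorem upper (hL : Cont r L) (hA : OK A L) (hv : Sol r A B L v) (hu : Sub u (ann r))
    (h1 : ∀ p : ℂ, ‖p‖ = 1 → LS u (ann r) p A) (h2 : ∀ p : ℂ, ‖p‖ = r → LS u (ann r) p B)
    {m : ℝ} (hm : 0 ≤ m) (hx : ∀ z ∈ ann r, z.im = 0 → u z - v z ≤ m) :
    ∀ z ∈ ann r, 0 ≤ z.im → u z - v z ≤ m := by
  intro z hz hi
  rcases hi.eq_or_lt with hi | hi
  · exact hx z hz hi.symm
  have hUo : IsOpen (ann r ∩ upH) :=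
    (isOpen_ann r).inter (isOpen_lt continuous_const Complex.continuous_im)
  have hs : Sub (fun z => u z - v z) (ann r ∩ upH) :=
    (hu.mono inter_subset_left).sub_harm (fun y hy => hv.harm y (hL.upper_sub hy))
  obtain ⟨C, hC⟩ := hv.bdd
  refine hs.mpx hUo ((bdd_ann r).subset inter_subset_left) ⟨Max.max A B + C, ?_⟩
    (S := {(r : ℂ), -(r : ℂ)}) (Set.toFinite _) ?_ z ⟨hz, hi⟩
  · intro y hy
    have := (Sub.le_hf hL.r0 hL.r1 hu h1 h2 y hy.1).2
    have := (abs_le.1 (hC y)).1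
    linarith
  intro p hp hpS
  have hc : p ∈ cann r := by
    rw [← closure_ann hL.r0 hL.r1]
    exact closure_mono inter_subset_left hp.1
  have hpi : 0 ≤ p.im := by
    have : closure (ann r ∩ upH) ⊆ {z : ℂ | 0 ≤ z.im} :=
      closure_minimal (fun y hy => show 0 ≤ y.im from le_of_lt hy.2)
        (isClosed_le continuous_const Complex.continuous_im)
    exact this hp.1
  have hpn : p ∉ ann r ∩ upH := by
    have := hp.2
    rwa [hUo.interior_eq] at this
  refine LS.mono (U := ann r) ?_ inter_subset_left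
  rcases cann_cases hc with h | h | h
  · have h0 : p.im = 0 := by
      by_contra hne
      exact hpn ⟨h, lt_of_le_of_ne hpi (Ne.symm hne)⟩
    exact ((LS.of_usc hu.1 h subset_rfl).sub_tendsto (hv.contOn hL p h)).le (hx p h h0)
  · exact ((h1 p h).sub_tendsto (hv.outer hL hA h)).le (by linarith)
  · have hE := hL.upper_Ex h (lt_of_le_of_ne hpi (Ne.symm (im_ne h hpS)))
    exact ((h2 p h).sub_tendsto (hv.inner hL hE)).le (by linarith)

open Classical in
/-- The solution, raised to a constant off the main component. -/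
noncomputable def W (r A B : ℝ) (L : Set ℂ) (v : ℂ → ℝ) (z : ℂ) : ℝ :=
  if z ∈ main r L then v z else Max.max A B

theorem W_ge (hL : Cont r L) (hB : 0 ≤ B) (hv : Sol r A B L v) (z : ℂ) :
    v z ≤ W r A B L v z := by
  unfold W
  split_ifs
  · exact le_rfl
  · exact (hv.bounds hL (lo := min (min A B) 0) (min_le_right _ _)
      ((min_le_left _ _).trans (min_le_left _ _)) ((min_le_left _ _).trans (min_le_right _ _))
      (hB.trans (le_max_right _ _)) (le_max_left _ _) (le_max_right _ _) z).2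

theorem W_off {p : ℂ} (hp : p ∉ closure (main r L)) :
    ∀ᶠ z in 𝓝 p, W r A B L v z = Max.max A B := by
  filter_upwards [isClosed_closure.isOpen_compl.mem_nhds hp] with z hz
  have : z ∉ main r L := fun h => hz (subset_closure h)
  simp [W, this]

theorem W_harm (hL : Cont r L) (hv : Sol r A B L v) {z : ℂ} (hz : z ∈ ann r) (hzL : z ∉ L) :
    HarmonicAt (W r A B L v) z := by
  by_cases h : z ∈ main r L
  · have e : W r A B L v =ᶠ[𝓝 z] v := by
      filter_upwards [hL.isOpen_main.mem_nhds h] with y hy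
      simp [W, hy]
    exact (harmonicAt_congr_nhds e).2 (hv.harm z h)
  · have hc : z ∉ closure (main r L) := fun hc =>
      h ((hL.ev_main hc hzL).self_of_nhdsWithin hz)
    have e : W r A B L v =ᶠ[𝓝 z] fun _ => Max.max A B := W_off hc
    exact (harmonicAt_congr_nhds e).2 (harmonicAt_const _)

theorem W_ls (hL : Cont r L) (hB : 0 ≤ B) (hv : Sol r A B L v) {p : ℂ} {c : ℝ}
    (h : Tendsto v (𝓝[ann r] p) (𝓝 c)) : LS (fun z => -W r A B L v z) (ann r) p (-c) :=
  (ls_neg h).of_le (Eventually.of_forall fun z => neg_le_neg (W_ge hL hB hv z))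

theorem W_beta (hL : Cont r L) (hB : 0 ≤ B) (hv : Sol r A B L v) {p : ℂ} (hp : ‖p‖ = r)
    (hpL : p ∉ L) : LS (fun z => -W r A B L v z) (ann r) p (-B) := by
  by_cases h : p ∈ closure (main r L)
  · exact W_ls hL hB hv (hv.inner hL ⟨hp, hpL, h⟩)
  · apply LS.of_eventually
    filter_upwards [(W_off (A := A) (B := B) (v := v) h).filter_mono nhdsWithin_le_nhds] with z hz
    rw [hz]
    exact neg_le_neg (le_max_right _ _)

/-- The symmetrised difference. -/
noncomputable def sy (r A B : ℝ) (L : Set ℂ) (u v : ℂ → ℝ) (z : ℂ) : ℝ :=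
  (u z + u (conj z)) - (W r A B L v z + W r A B L v (conj z))

theorem sy_conj (z : ℂ) : sy r A B L u v (conj z) = sy r A B L u v z := by
  simp only [sy, Complex.conj_conj]
  ring

theorem sy_ls {p : ℂ} {a b c d m : ℝ} (h1 : LS u (ann r) p a) (h2 : LS u (ann r) (conj p) b)
    (h3 : LS (fun z => -W r A B L v z) (ann r) p (-c))
    (h4 : LS (fun z => -W r A B L v z) (ann r) (conj p) (-d)) (h : a + b - c - d ≤ m) :
    LS (sy r A B L u v) (ann r) p m := by
  have := ((h1.add (ls_conj h2)).add (h3.add (ls_conj h4))).le (d := m) (by linarith)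
  refine this.of_le (Eventually.of_forall fun z => le_of_eq ?_)
  simp only [sy]
  ring

theorem sy_up (hL : Cont r L) (hA : OK A L) (hB : 0 ≤ B) (hv : Sol r A B L v)
    (hu : Sub u (ann r)) (h1 : ∀ p : ℂ, ‖p‖ = 1 → LS u (ann r) p A)
    (h2 : ∀ p : ℂ, ‖p‖ = r → LS u (ann r) p B)
    (hF : ∀ p ∈ L, p ∈ ann r → u p ≤ 0 ∨ u (conj p) ≤ 0) {S : Set ℂ}
    (hS : ∀ p ∈ L, ‖p‖ = r → p ∉ S → LS u (ann r) p 0 ∨ LS u (ann r) (conj p) 0)
    {m : ℝ} (hm : 0 ≤ m) (hb : ∀ z ∈ ann r, 0 ≤ z.im → u z - v z ≤ m ∧ u (conj z) - v z ≤ m)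
    {p : ℂ} (hc : p ∈ cann r) (hi : 0 ≤ p.im) (hL' : p ∈ ann r → conj p ∈ L)
    (e1 : p ∉ ({(r : ℂ), -(r : ℂ)} : Set ℂ)) (e2 : conj p ∉ S)
    (e3 : conj p ∉ closure (Ex r L) \ Ex r L) : LS (sy r A B L u v) (ann r) p m := by
  rcases cann_cases hc with h | h | h
  · have hq := hL' h
    have h' : conj p ∈ ann r := conj_mem_ann.2 h
    refine sy_ls (LS.of_usc hu.1 h subset_rfl) (LS.of_usc hu.1 h' subset_rfl)
      (W_ls hL hB hv (hv.contOn hL p h)) (W_ls hL hB hv (hv.contOn hL _ h')) ?_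
    rw [hv.zero hq]
    obtain ⟨b1, b2⟩ := hb p h hi
    rcases hF _ hq h' with h0 | h0
    · linarith
    · rw [Complex.conj_conj] at h0
      linarith
  · have h' : ‖conj p‖ = 1 := by rwa [Complex.norm_conj]
    exact sy_ls (h1 p h) (h1 _ h') (W_ls hL hB hv (hv.outer hL hA h))
      (W_ls hL hB hv (hv.outer hL hA h')) (by linarith)
  · have h' : ‖conj p‖ = r := by rwa [Complex.norm_conj]
    have hE := hL.upper_Ex h (lt_of_le_of_ne hi (Ne.symm (im_ne h e1)))
    have h3 := W_ls hL hB hv (hv.inner hL hE)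
    by_cases hq : conj p ∈ L
    · have hn : conj p ∉ closure (Ex r L) := fun hh => e3 ⟨hh, fun hE' => hE'.2.1 hq⟩
      have h4 := W_ls hL hB hv (hv.hug hL h' hn)
      rcases hS _ hq h' e2 with h0 | h0
      · exact sy_ls (h2 p h) h0 h3 h4 (by linarith)
      · rw [Complex.conj_conj] at h0
        exact sy_ls h0 (h2 _ h') h3 h4 (by linarith)
    · exact sy_ls (h2 p h) (h2 _ h') h3 (W_beta hL hB hv h' hq) (by linarith)

theorem real_half (hL : Cont r L) (hA : OK A L) (hB : 0 ≤ B) (hv : Sol r A B L v)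
    (hu : Sub u (ann r)) (h1 : ∀ p : ℂ, ‖p‖ = 1 → LS u (ann r) p A)
    (h2 : ∀ p : ℂ, ‖p‖ = r → LS u (ann r) p B) (hF : FH r u L)
    {m : ℝ} (hm : 0 ≤ m) (hb : ∀ z ∈ ann r, 0 ≤ z.im → u z - v z ≤ m ∧ u (conj z) - v z ≤ m) :
    ∀ z ∈ ann r, z.im = 0 → u z - v z ≤ m / 2 := by
  obtain ⟨hF1, S, hSf, hS⟩ := hF
  intro x hx hx0
  have hxc := conj_real hx0
  by_cases hxL : x ∈ L
  · rw [hv.zero hxL]
    rcases hF1 x hxL hx with h | h
    · linarith
    · rw [hxc] at h
      linarith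
  set V : Set ℂ := ann r \ (L ∪ (fun z : ℂ => conj z) ⁻¹' L) with hV
  have hLc : IsClosed L := hL.cpt.isClosed
  have hVo : IsOpen V :=
    (isOpen_ann r).sdiff (hLc.union (hLc.preimage Complex.continuous_conj))
  have hVs : V ⊆ ann r := sdiff_subset
  have hs : Sub (sy r A B L u v) V := by
    refine ((hu.mono hVs).add (hu.comp_conj fun z hz => conj_mem_ann.2 hz.1)).sub_harm
      (g := fun z => W r A B L v z + W r A B L v (conj z)) ?_
    intro z hz
    exact (W_harm hL hv hz.1 (fun h => hz.2 (Or.inl h))).add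
      (harm_conj (W_harm hL hv (conj_mem_ann.2 hz.1) (fun h => hz.2 (Or.inr h))))
  obtain ⟨C, hC⟩ := hv.bdd
  set T : Set ℂ := {(r : ℂ), -(r : ℂ)} ∪ S ∪ (closure (Ex r L) \ Ex r L) with hT
  have hTf : T.Finite := ((Set.toFinite _).union hSf).union hL.exc_finite
  have hT2 : (T ∪ (fun z : ℂ => conj z) ⁻¹' T).Finite :=
    hTf.union (hTf.preimage (fun a _ b _ hab => (starRingEnd ℂ).injective hab))
  have key := hs.mpx hVo ((bdd_ann r).subset hVs) ⟨2 * Max.max A B + 2 * C, ?_⟩ hT2 (c := m) ?_ x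
    ⟨hx, by simp [hxc, hxL]⟩
  · have hm' : x ∈ main r L := hL.mem_main hx hx0.ge hxL
    simp only [sy, hxc, W, hm', if_true] at key
    linarith
  · intro y hy
    have a1 := (Sub.le_hf hL.r0 hL.r1 hu h1 h2 y hy.1).2
    have a2 := (Sub.le_hf hL.r0 hL.r1 hu h1 h2 _ (conj_mem_ann.2 hy.1)).2
    have a3 := (abs_le.1 (hC y)).1
    have a4 := (abs_le.1 (hC (conj y))).1
    have a5 := W_ge hL hB hv y
    have a6 := W_ge hL hB hv (conj y)
    simp only [sy]
    linarith
  intro p hp hpT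
  have hc : p ∈ cann r := by
    rw [← closure_ann hL.r0 hL.r1]
    exact closure_mono hVs hp.1
  have hpn : p ∉ V := by
    have := hp.2
    rwa [hVo.interior_eq] at this
  have hor : p ∈ ann r → p ∈ L ∨ conj p ∈ L := by
    intro h
    by_contra hn
    exact hpn ⟨h, hn⟩
  have t1 : p ∉ T := fun h => hpT (Or.inl h)
  have t2 : conj p ∉ T := fun h => hpT (Or.inr h)
  refine LS.mono (U := ann r) ?_ hVs
  rcases le_total 0 p.im with hi | hi
  · refine sy_up hL hA hB hv hu h1 h2 hF1 hS hm hb hc hi ?_ (fun h => t1 (Or.inl (Or.inl h)))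
      (fun h => t2 (Or.inl (Or.inr h))) (fun h => t2 (Or.inr h))
    intro h
    rcases hor h with h' | h'
    · rwa [conj_real (le_antisymm (hL.low p h') hi)]
    · exact h'
  · have hc' : conj p ∈ cann r := by
      obtain ⟨c1, c2⟩ := hc
      constructor <;> rwa [Complex.norm_conj]
    have hi' : 0 ≤ (conj p).im := by
      rw [Complex.conj_im]
      linarith
    have := sy_up hL hA hB hv hu h1 h2 hF1 hS hm hb hc' hi' ?_
      (fun h => t2 (Or.inl (Or.inl h))) (by
        rw [Complex.conj_conj]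
        exact fun h => t1 (Or.inl (Or.inr h))) (by
        rw [Complex.conj_conj]
        exact fun h => t1 (Or.inr h))
    · exact (ls_conj this).of_le (Eventually.of_forall fun z => le_of_eq (sy_conj z).symm)
    · intro h
      rw [Complex.conj_conj]
      rcases hor (conj_mem_ann.1 h) with h' | h'
      · exact h'
      · have := conj_real (le_antisymm (hL.low _ h') hi')
        rw [Complex.conj_conj] at this
        rwa [this]

end Fold1P

open Fold1P in
theorem fold1 (_h : S_DIR) : S_FOLD1 := by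
  intro r A B L u v hL hA hB hv hu h1 h2 hF
  have hu' : Sub (fun z => u (conj z)) (ann r) := hu.comp_conj fun z hz => conj_mem_ann.2 hz
  have h1' : ∀ p : ℂ, ‖p‖ = 1 → LS (fun z => u (conj z)) (ann r) p A := fun p hp =>
    ls_conj (h1 _ (by rwa [Complex.norm_conj]))
  have h2' : ∀ p : ℂ, ‖p‖ = r → LS (fun z => u (conj z)) (ann r) p B := fun p hp =>
    ls_conj (h2 _ (by rwa [Complex.norm_conj]))
  obtain ⟨C, hC⟩ := hv.bdd
  have hC0 : 0 ≤ C := (abs_nonneg _).trans (hC 0)
  have hM0 : 0 ≤ Max.max A B + C := add_nonneg (hB.trans (le_max_right _ _)) hC0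
  have it : ∀ n : ℕ, ∀ z ∈ ann r, 0 ≤ z.im →
      u z - v z ≤ (Max.max A B + C) * (1 / 2) ^ n ∧
        u (conj z) - v z ≤ (Max.max A B + C) * (1 / 2) ^ n := by
    intro n
    induction n with
    | zero =>
      intro z hz _
      have a1 := (Sub.le_hf hL.r0 hL.r1 hu h1 h2 z hz).2
      have a2 := (Sub.le_hf hL.r0 hL.r1 hu h1 h2 _ (conj_mem_ann.2 hz)).2
      have a3 := (abs_le.1 (hC z)).1
      constructor <;> · rw [pow_zero]; linarith
    | succ n ih =>
      have hm : 0 ≤ (Max.max A B + C) * (1 / 2 : ℝ) ^ n := by positivity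
      have hr := real_half hL hA hB hv hu h1 h2 hF hm ih
      have e : (Max.max A B + C) * (1 / 2 : ℝ) ^ (n + 1) =
          (Max.max A B + C) * (1 / 2 : ℝ) ^ n / 2 := by ring
      rw [e]
      intro z hz hi
      refine ⟨upper hL hA hv hu h1 h2 (by positivity) hr z hz hi,
        upper hL hA hv hu' h1' h2' (by positivity) ?_ z hz hi⟩
      intro y hy hy0
      simp only [conj_real hy0]
      exact hr y hy hy0
  have lim : Tendsto (fun n : ℕ => (Max.max A B + C) * (1 / 2 : ℝ) ^ n) atTop (𝓝 0) := by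
    have := (tendsto_pow_atTop_nhds_zero_of_lt_one (r := (1 / 2 : ℝ)) (by norm_num)
      (by norm_num)).const_mul (Max.max A B + C)
    simpa using this
  intro z hz hi
  constructor
  · have := ge_of_tendsto' lim fun n => (it n z hz hi).1
    linarith
  · have := ge_of_tendsto' lim fun n => (it n z hz hi).2
    linarith

end Pool.Agent.P.MP_3bd355_an
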