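import Pool.Agent.P.MP_3bd355_an.Stmts

/-! The equality cases of the folding inequality. -/

open Set Filter Metric Complex InnerProductSpace
open scoped Topology ComplexConjugate Real

namespace Pool.Agent.P.MP_3bd355_an

namespace Fold2P

variable {r A B : ℝ} {L : Set ℂ} {u v : ℂ → ℝ}

theorem tend_conj (r : ℝ) (p : ℂ) :
    Tendsto (fun z : ℂ => conj z) (𝓝[ann r] p) (𝓝[ann r] (conj p)) :=
  tendsto_nhdsWithin_iff.2 ⟨(continuous_conj.tendsto p).mono_left nhdsWithin_le_nhds,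
    eventually_nhdsWithin_of_forall fun _ hz => conj_mem_ann.2 hz⟩

theorem cann_cases {p : ℂ} (hp : p ∈ cann r) : p ∈ ann r ∨ ‖p‖ = 1 ∨ ‖p‖ = r := by
  rcases hp.1.lt_or_eq with h1 | h1
  · exact hp.2.lt_or_eq.imp (fun h2 => ⟨h1, h2⟩) Or.inl
  · exact Or.inr (Or.inr h1.symm)

theorem open_U (r : ℝ) : IsOpen (ann r ∩ upH) :=
  (isOpen_ann r).inter (isOpen_lt continuous_const continuous_im)

theorem fr_cann (hL : Cont r L) {V : Set ℂ} (hV : IsOpen V) (hs : V ⊆ ann r) {p : ℂ}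
    (hp : p ∈ frontier V) : p ∈ cann r ∧ p ∉ V :=
  ⟨closure_ann hL.r0 hL.r1 ▸ closure_mono hs hp.1, by simpa only [hV.interior_eq] using hp.2⟩

theorem ge_of_ls {f : ℂ → ℝ} {C : Set ℂ} {p : ℂ} {c : ℝ} (h : LS f C p c) (hp : p ∈ closure C)
    (h0 : ∀ z ∈ C, f z = 0) : 0 ≤ c := by
  have := mem_closure_iff_nhdsWithin_neBot.1 hp
  refine le_of_forall_pos_le_add fun ε hε => ?_
  obtain ⟨z, h1, h2⟩ := ((h ε hε).and self_mem_nhdsWithin).exists
  rw [h0 z h2] at h1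
  exact h1.le

/-- A nonpositive difference that vanishes at a point vanishes identically. -/
theorem zero_of {U : Set ℂ} {f : ℂ → ℝ} (hf : Sub f U) (hU : IsOpen U) (hc : IsPreconnected U)
    (h0 : ∀ z ∈ U, f z ≤ 0) {z : ℂ} (hz : z ∈ U) (h : 0 ≤ f z) : ∀ y ∈ U, f y = 0 := fun y hy =>
  (hf.strong hU hc hz (fun x hx => (h0 x hx).trans h) y hy).trans (le_antisymm (h0 z hz) h)

/-- The symmetrised difference. -/
def sy (u v : ℂ → ℝ) (z : ℂ) : ℝ := (u z + u (conj z)) - (v z + v (conj z))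

/-- The symmetric part of the complement. -/
def VV (r : ℝ) (L : Set ℂ) : Set ℂ := ann r \ (L ∪ (fun z : ℂ => conj z) ⁻¹' L)

theorem open_V (hL : Cont r L) : IsOpen (VV r L) :=
  (isOpen_ann r).sdiff (hL.cpt.isClosed.union (hL.cpt.isClosed.preimage continuous_conj))

theorem sy_sub (hL : Cont r L) (hv : Sol r A B L v) (hu : Sub u (ann r)) :
    Sub (sy u v) (VV r L) :=
  ((hu.mono sdiff_subset).add (hu.comp_conj fun _ hz => conj_mem_ann.2 hz.1)).sub_harm
    (g := fun z => v z + v (conj z)) fun z hz =>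
      (hv.harm_diff hL z ⟨hz.1, fun h => hz.2 (Or.inl h)⟩).add
        (harm_conj (hv.harm_diff hL _ ⟨conj_mem_ann.2 hz.1, fun h => hz.2 (Or.inr h)⟩))

theorem sy_ls {p : ℂ} {a b c d : ℝ} (h1 : LS u (ann r) p a) (h2 : LS u (ann r) (conj p) b)
    (h3 : Tendsto v (𝓝[ann r] p) (𝓝 c)) (h4 : Tendsto v (𝓝[ann r] (conj p)) (𝓝 d)) :
    LS (sy u v) (ann r) p (a + b - (c + d)) :=
  (h1.add (h2.comp (tend_conj r p))).sub_tendsto (h3.add (h4.comp (tend_conj r p)))

theorem sy_usc (hL : Cont r L) (hv : Sol r A B L v) (hu : Sub u (ann r)) {p : ℂ}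
    (hp : p ∈ ann r) : LS (sy u v) (ann r) p (sy u v p) :=
  sy_ls (LS.of_usc hu.1 hp subset_rfl) (LS.of_usc hu.1 (conj_mem_ann.2 hp) subset_rfl)
    (hv.contOn hL p hp) (hv.contOn hL _ (conj_mem_ann.2 hp))

theorem sy_L (hv : Sol r A B L v) (hF : FH r u L) {p : ℂ} (hp : p ∈ ann r) (hpL : conj p ∈ L) :
    sy u v p ≤ u p - v p ∨ sy u v p ≤ u (conj p) - v p := by
  have := hF.1 _ hpL (conj_mem_ann.2 hp)
  rw [conj_conj] at this
  rw [sy, hv.zero hpL]
  exact this.imp (fun h => by linarith) fun h => by linarith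

theorem sy_le (hL : Cont r L) (hA : OK A L) (hv : Sol r A B L v) (hu : Sub u (ann r))
    (h1 : ∀ p : ℂ, ‖p‖ = 1 → LS u (ann r) p A) (h2 : ∀ p : ℂ, ‖p‖ = r → LS u (ann r) p B)
    (hF : FH r u L) (hn : ∀ p ∈ L, ‖p‖ ≠ r)
    (hb : ∀ z ∈ ann r, 0 ≤ z.im → u z ≤ v z ∧ u (conj z) ≤ v z) :
    ∀ z ∈ ann r, sy u v z ≤ 0 := by
  have k1 : ∀ p ∈ ann r, conj p ∈ L → sy u v p ≤ 0 := fun p hp hpL => by
    obtain ⟨a, b⟩ := hb p hp (by simpa using hL.low _ hpL)
    rcases sy_L hv hF hp hpL with h | h <;> linarith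
  have k2 : ∀ p ∈ ann r, p ∉ VV r L → sy u v p ≤ 0 := fun p hp hV => by
    rcases not_not.1 (fun h => hV ⟨hp, h⟩) with h | h
    · have := k1 _ (conj_mem_ann.2 hp) (by rwa [conj_conj])
      simp only [sy, conj_conj] at this ⊢
      linarith
    · exact k1 p hp h
  intro z hz
  by_cases hV : z ∈ VV r L
  swap
  · exact k2 z hz hV
  refine (sy_sub hL hv hu).mp0 (open_V hL) ((bdd_ann r).subset sdiff_subset) (fun p hp => ?_) z hV
  obtain ⟨hc, hp'⟩ := fr_cann hL (open_V hL) sdiff_subset hp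
  refine LS.mono (U := ann r) ?_ sdiff_subset
  rcases cann_cases hc with h | h | h
  · exact (sy_usc hL hv hu h).le (k2 p h hp')
  · have h' : ‖conj p‖ = 1 := by rwa [norm_conj]
    exact (sy_ls (h1 p h) (h1 _ h') (hv.outer hL hA h) (hv.outer hL hA h')).le (sub_self _).le
  · have h' : ‖conj p‖ = r := by rwa [norm_conj]
    exact (sy_ls (h2 p h) (h2 _ h') (hv.inner hL (hL.Ex_all hn h))
      (hv.inner hL (hL.Ex_all hn h'))).le (sub_self _).le

/-- When the reflection of the upper half annulus misses `L`, the solution is not larger there. -/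
theorem symm_le (hL : Cont r L) (hA : OK A L) (hv : Sol r A B L v) (hn : ∀ p ∈ L, ‖p‖ ≠ r)
    (hU : ∀ z ∈ ann r ∩ upH, conj z ∉ L) : ∀ z ∈ ann r ∩ upH, v z - v (conj z) ≤ 0 := by
  refine ((Sub.of_harm fun z hz => hv.harm z (hL.upper_sub hz)).sub_harm
    (g := fun z => v (conj z)) fun z hz =>
      harm_conj (hv.harm_diff hL _ ⟨conj_mem_ann.2 hz.1, hU z hz⟩)).mp0 (open_U r)
    ((bdd_ann r).subset inter_subset_left) fun p hp => ?_
  obtain ⟨hc, hp'⟩ := fr_cann hL (open_U r) inter_subset_left hp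
  have key : ∀ {c : ℝ}, Tendsto v (𝓝[ann r] p) (𝓝 c) → Tendsto v (𝓝[ann r] (conj p)) (𝓝 c) →
      LS (fun z => v z - v (conj z)) (ann r ∩ upH) p 0 := fun a b =>
    (LS.of_tendsto (a.sub (b.comp (tend_conj r p))) (sub_self _).le).mono inter_subset_left
  rcases cann_cases hc with h | h | h
  · have h0 : 0 ≤ p.im := closure_minimal (t := {z : ℂ | 0 ≤ z.im})
      (fun y hy => show 0 ≤ y.im from le_of_lt hy.2)
      (isClosed_le continuous_const continuous_im) hp.1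
    have e : conj p = p := conj_eq_iff_im.2 (le_antisymm (not_lt.1 fun h' => hp' ⟨h, h'⟩) h0)
    exact key (hv.contOn hL p h) (e.symm ▸ hv.contOn hL p h)
  · exact key (hv.outer hL hA h) (hv.outer hL hA (by rwa [norm_conj]))
  · exact key (hv.inner hL (hL.Ex_all hn h)) (hv.inner hL (hL.Ex_all hn (by rwa [norm_conj])))

theorem real_closure {x : ℂ} (hx : x ∈ ann r) (h0 : x.im = 0) :
    x ∈ closure (ann r ∩ upH) := by
  refine (isOpen_ann r).inter_closure ⟨hx, ?_⟩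
  rw [show upH = {z : ℂ | 0 < z.im} from rfl, closure_setOfPred_lt_im]
  exact h0.ge

end Fold2P

open Fold2P

theorem fold2 (h : S_FOLD1) : S_FOLD2 := by
  intro r A B L u v z₀ hL hA hB hv hu h1 h2 hF hz₀ hi hle
  have hb := h r A B L u v hL hA hB hv hu h1 h2 hF
  have k1 : ∀ z ∈ ann r, 0 < z.im → u z = v z := fun z hz hz' => sub_eq_zero.1 (zero_of
    ((hu.mono inter_subset_left).sub_harm fun y hy => hv.harm y (hL.upper_sub hy)) (open_U r)
    (preconn_upper hL.r0) (fun y hy => sub_nonpos.2 (hb y hy.1 (le_of_lt hy.2)).1) ⟨hz₀, hi⟩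
    (sub_nonneg.2 hle) z ⟨hz, hz'⟩)
  refine ⟨k1, fun hn z hz hc => ?_⟩
  have k2 : ∀ y ∈ ann r, u y ≤ v y := fun y hy => by
    rcases le_or_gt 0 y.im with h0 | h0
    · exact (hb y hy h0).1
    · have a := sy_le hL hA hv hu h1 h2 hF hn hb y hy
      rw [sy, k1 _ (conj_mem_ann.2 hy) (by simpa using h0)] at a
      linarith
  have hs : main r L ⊆ ann r := fun y hy => (main_sub r L hy).1
  have k3 := zero_of ((hu.mono hs).sub_harm hv.harm) hL.isOpen_main (preconn_main r L)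
    (fun y hy => sub_nonpos.2 (k2 y (hs hy))) (hL.upper_sub ⟨hz₀, hi⟩) (sub_nonneg.2 hle)
  exact le_antisymm (k2 z hz) (sub_nonneg.1 (ge_of_ls
    (((LS.of_usc hu.1 hz subset_rfl).sub_tendsto (hv.contOn hL z hz)).mono hs) hc k3))

theorem fold3 (h : S_FOLD1) : S_FOLD3 := by
  intro r A B L u v z₀ hL hA hB hv hu h1 h2 hF hn hz₀ hi hzL hle
  have hb := h r A B L u v hL hA hB hv hu h1 h2 hF
  have hh : HarmonicOnNhd v (ann r ∩ upH) := fun y hy => hv.harm y (hL.upper_sub hy)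
  by_cases a1 : ∃ z ∈ ann r ∩ upH, v z ≤ u z
  · obtain ⟨z, hz, a1⟩ := a1
    exact Or.inl fun y hy hy' => sub_eq_zero.1 (zero_of ((hu.mono inter_subset_left).sub_harm hh)
      (open_U r) (preconn_upper hL.r0) (fun y hy => sub_nonpos.2 (hb y hy.1 (le_of_lt hy.2)).1) hz
      (sub_nonneg.2 a1) y ⟨hy, hy'⟩)
  by_cases a2 : ∃ z ∈ ann r ∩ upH, v z ≤ u (conj z)
  · obtain ⟨z, hz, a2⟩ := a2
    exact Or.inr fun y hy hy' => sub_eq_zero.1 (zero_of
      ((hu.comp_conj fun _ hz => conj_mem_ann.2 hz.1).sub_harm hh)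
      (open_U r) (preconn_upper hL.r0) (fun y hy => sub_nonpos.2 (hb y hy.1 (le_of_lt hy.2)).2) hz
      (sub_nonneg.2 a2) y ⟨hy, hy'⟩)
  exfalso
  push Not at a1 a2
  have e0 : conj z₀ = z₀ := conj_eq_iff_im.2 hi
  have hV : z₀ ∈ VV r L := ⟨hz₀, by simp [e0, hzL]⟩
  set C := connectedComponentIn (VV r L) z₀ with hC
  have hCo : IsOpen C := (open_V hL).connectedComponentIn
  have hCV : C ⊆ VV r L := connectedComponentIn_subset _ _
  have hCm : z₀ ∈ C := mem_connectedComponentIn hV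
  have k1 : ∀ z ∈ C, sy u v z = 0 := zero_of ((sy_sub hL hv hu).mono hCV) hCo
    isPreconnected_connectedComponentIn
    (fun y hy => sy_le hL hA hv hu h1 h2 hF hn hb y (hCV hy).1) hCm (by rw [sy, e0]; linarith)
  have k2 : ann r ∩ upH ⊆ C := by
    refine (preconn_upper hL.r0).subset_of_closure_inter_subset hCo ?_ fun z ⟨hz, hzU⟩ => ?_
    · obtain ⟨y, hy⟩ := mem_closure_iff.1 (real_closure hz₀ hi) C hCo hCm
      exact ⟨y, hy.2, hy.1⟩
    · by_cases hzV : z ∈ VV r L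
      · obtain ⟨y, hy1, hy2⟩ := mem_closure_iff.1 hz _ (open_V hL).connectedComponentIn
          (mem_connectedComponentIn hzV)
        rw [hC, connectedComponentIn_eq hy2, ← connectedComponentIn_eq hy1]
        exact mem_connectedComponentIn hzV
      · have hzL' : conj z ∈ L := (not_not.1 fun h => hzV ⟨hzU.1, h⟩).resolve_left fun h =>
          (hL.low z h).not_gt hzU.2
        have a3 := ge_of_ls ((sy_usc hL hv hu hzU.1).mono fun y hy => (hCV hy).1) hz k1
        rcases sy_L hv hF hzU.1 hzL' with a4 | a4 <;> linarith [a1 z hzU, a2 z hzU]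
  have hz := base_mem hL.r0 hL.r1
  have a3 := symm_le hL hA hv hn (fun z hz h => (hCV (k2 hz)).2 (Or.inr h)) _ hz
  have a4 := k1 _ (k2 hz)
  rw [sy] at a4
  linarith [a1 _ hz, a2 _ hz]

end Pool.Agent.P.MP_3bd355_an
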