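import Pool.Agent.P.MP_3bd355_an.Stmts

/-! Generalised competitors are bounded by the extremal value. -/

open Set Filter Metric Complex InnerProductSpace
open scoped Topology ComplexConjugate Real

namespace Pool.Agent.P.MP_3bd355_an

namespace GenP

theorem cast_sub {u : ℂ → ℝ} {U : Set ℂ} (hu : Sub u U) : Subharm (fun z => (u z : EReal)) U := by
  refine ⟨fun z hz y hy => ?_, fun z _ => EReal.coe_ne_top _, fun c ρ h1 h2 g hg hs z hz => ?_⟩
  · obtain ⟨c, c1, c2⟩ := EReal.lt_iff_exists_real_btwn.1 hy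
    exact (hu.1 z hz c (EReal.coe_lt_coe_iff.1 c1)).mono fun x hx =>
      (EReal.coe_lt_coe_iff.2 hx).trans c2
  · exact EReal.coe_le_coe_iff.2
      (hu.2 c ρ h1 h2 g hg (fun x hx => EReal.coe_le_coe_iff.1 (hs x hx)) z hz)

theorem tend_max {w h : ℂ → ℝ} {U : Set ℂ} {p : ℂ} {c : ℝ} (hw : LS w U p c)
    (hh : Tendsto h (𝓝[U] p) (𝓝 c)) :
    Tendsto (fun z => ((max (w z) (h z) : ℝ) : EReal)) (𝓝[U] p) (𝓝 (c : EReal)) := by
  refine (continuous_coe_real_ereal.tendsto c).comp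
    (tendsto_order.2 ⟨fun a ha => ?_, fun a ha => ?_⟩)
  · exact (hh.eventually (lt_mem_nhds ha)).mono fun z hz => lt_max_of_lt_right hz
  · filter_upwards [hw (a - c) (by linarith), hh.eventually (gt_mem_nhds ha)] with z h1 h2
    exact max_lt (by linarith) h2

/-- A curve to the outer circle on which a function that is negative near `K` stays negative. -/
theorem curve {r : ℝ} (h0 : 0 < r) (h1 : r < 1) {K : Set ℂ} {w : ℂ → ℝ} (hw : Sub w (ann r))
    (hK : IsPreconnected K) (hs : K ⊆ cann r) (hn : ∀ x ∈ K, ∀ᶠ y in 𝓝[ann r] x, w y < 0)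
    {z p : ℂ} (hz : z ∈ K) (hza : z ∈ ann r) (hp : p ∈ K) (hp1 : ‖p‖ = 1) :
    ∃ γ : ℝ → ℂ, Continuous γ ∧ γ 0 = z ∧ γ 1 = p ∧
      ∀ t ∈ Ico (0 : ℝ) 1, γ t ∈ ann r ∧ w (γ t) < 0 := by
  set N : Set ℂ := {y | y ∈ ann r ∧ w y < 0} with hN
  have oN : IsOpen N := isOpen_iff_mem_nhds.2 fun y hy => by
    have := hw.1 y hy.1 0 hy.2
    rw [(isOpen_ann r).nhdsWithin_eq hy.1] at this
    exact inter_mem ((isOpen_ann r).mem_nhds hy.1) this
  have zN : z ∈ N := ⟨hza, (hn z hz).self_of_nhdsWithin hza⟩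
  set C := connectedComponentIn N z with hC
  have oC : IsOpen C := oN.connectedComponentIn
  have zC : z ∈ C := mem_connectedComponentIn zN
  have key : (∀ᶠ y in 𝓝[ann r] z, y ∈ C) → ∀ᶠ y in 𝓝[ann r] p, y ∈ C := by
    refine hK.induction₂' (fun a b => (∀ᶠ y in 𝓝[ann r] a, y ∈ C) → ∀ᶠ y in 𝓝[ann r] b, y ∈ C)
      (fun x hx => ?_) (fun _ _ _ _ _ _ a b c => b (a c)) hz hp
    obtain ⟨V, V1, V2, V3, V4, -, -⟩ :=
      loc_conn h0 h1 (hs hx) (eventually_nhdsWithin_iff.1 (hn x hx))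
    have e : ∀ a ∈ V, a ∈ K → ∀ b ∈ V, (∀ᶠ y in 𝓝[ann r] a, y ∈ C) →
        ∀ᶠ y in 𝓝[ann r] b, y ∈ C := fun a ha haK b hb h => by
      have : (𝓝[ann r] a).NeBot :=
        mem_closure_iff_nhdsWithin_neBot.1 (by rw [closure_ann h0 h1]; exact hs haK)
      have hV : ∀ᶠ y in 𝓝[ann r] a, y ∈ V := mem_nhdsWithin_of_mem_nhds (V1.mem_nhds ha)
      obtain ⟨y, y1, y2, y3⟩ := (h.and (hV.and eventually_mem_nhdsWithin)).exists
      have sub : V ∩ ann r ⊆ C := by
        rw [hC, connectedComponentIn_eq y1]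
        exact V4.subset_connectedComponentIn ⟨y2, y3⟩ fun q hq => ⟨hq.2, V3 hq.1 hq.2⟩
      filter_upwards [mem_nhdsWithin_of_mem_nhds (V1.mem_nhds hb), self_mem_nhdsWithin]
        with q q1 q2 using sub ⟨q1, q2⟩
    filter_upwards [mem_nhdsWithin_of_mem_nhds (V1.mem_nhds V2), self_mem_nhdsWithin]
      with y y1 y2 using ⟨e x V2 hx y y1, e y y1 y2 x V2⟩
  have CN : C ⊆ N := connectedComponentIn_subset _ _
  obtain ⟨γ, g1, g2, g3, g4⟩ := path_to_bd h0 h1 oC isPreconnected_connectedComponentIn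
    (fun y hy => (CN hy).1) (Or.inr hp1) (key (mem_nhdsWithin_of_mem_nhds (oC.mem_nhds zC))) zC
  exact ⟨γ, g1, g2, g3, fun t ht => CN (g4 t ht)⟩

/-- Raising a function to the exact boundary values. -/
theorem raise {r A B : ℝ} (h0 : 0 < r) (h1 : r < 1) (hA : A ≤ 0) {w : ℂ → ℝ} (hw : Sub w (ann r))
    (ho : ∀ p : ℂ, ‖p‖ = 1 → LS w (ann r) p A) (hi : ∀ p : ℂ, ‖p‖ = r → LS w (ann r) p B)
    {γ : ℝ → ℂ} (g1 : Continuous γ) (g3 : ‖γ 1‖ = 1)
    (g4 : ∀ t ∈ Ico (0 : ℝ) 1, γ t ∈ ann r ∧ w (γ t) < 0) (z₀ : ℂ) :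
    (w z₀ : EReal) ≤ Msup r A B z₀ (γ 0) := by
  obtain ⟨t₀, ht₀, hmin⟩ := isCompact_Icc.exists_isMinOn (nonempty_Icc.2 (zero_le_one' ℝ))
    g1.norm.continuousOn
  set m := ‖γ t₀‖ with hm
  have m1 : r < m := by
    rcases ht₀.2.eq_or_lt with h | h
    · rw [hm, h, g3]; exact h1
    · exact (g4 t₀ ⟨ht₀.1, h⟩).1.1
  have m2 : m ≤ 1 := g3 ▸ hmin (right_mem_Icc.2 zero_le_one)
  have l1 : 0 < Real.log m - Real.log r := sub_pos.2 (Real.log_lt_log h0 m1)
  have l2 : Real.log m ≤ 0 := Real.log_nonpos (by linarith) m2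
  set C := (|A| + |B|) / (Real.log m - Real.log r) with hC
  have C0 : 0 ≤ C := by positivity
  have C1 : C * (Real.log m - Real.log r) = |A| + |B| := div_mul_cancel₀ _ l1.ne'
  have C2 : C * Real.log m ≤ 0 := mul_nonpos_of_nonneg_of_nonpos C0 l2
  have a1 := neg_abs_le A
  have a2 := abs_nonneg A
  have b1 := neg_abs_le B
  have b2 := le_abs_self B
  have hl : HarmonicOnNhd (fun z : ℂ => Real.log ‖z‖) (ann r) :=
    harm_log_norm (f := id) (isOpen_ann r) differentiableOn_id fun z hz h => by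
      have := hz.1; rw [show z = 0 from h, norm_zero] at this; linarith
  set h : ℂ → ℝ := fun z =>
    max (A + C * Real.log ‖z‖) (B + C * Real.log r - C * Real.log ‖z‖) with hh
  have sh : Sub h (ann r) :=
    ((Sub.const A _).add_harm fun z hz => (hl z hz).const_smul (c := C)).max
      ((Sub.const (B + C * Real.log r) _).sub_harm fun z hz => (hl z hz).const_smul (c := C))
  have th : ∀ p : ℂ, ‖p‖ ≠ 0 → Tendsto h (𝓝[ann r] p) (𝓝 (h p)) := fun p hp => by
    have : ContinuousAt (fun z : ℂ => Real.log ‖z‖) p := continuous_norm.continuousAt.log hp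
    exact Tendsto.mono_left ((tendsto_const_nhds.add (this.tendsto.const_mul C)).max
      (tendsto_const_nhds.sub (this.tendsto.const_mul C))) nhdsWithin_le_nhds
  have ad : Adm r A B (γ 0) fun z => ((max (w z) (h z) : ℝ) : EReal) := by
    refine ⟨cast_sub (hw.max sh), fun p hp => tend_max (ho p hp) ?_,
      fun p hp => tend_max (hi p hp) ?_, γ, g1.continuousOn, rfl, fun t ht => ⟨(g4 t ht).1, ?_⟩, ?_⟩
    · convert th p (by rw [hp]; exact one_ne_zero) using 2
      simp only [hh, hp, Real.log_one, mul_zero, add_zero, sub_zero]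
      exact (max_eq_left (by linarith)).symm
    · convert th p (by rw [hp]; exact h0.ne') using 2
      simp only [hh, hp, add_sub_cancel_right]
      exact (max_eq_right (by linarith)).symm
    · have e1 : Real.log ‖γ t‖ ≤ 0 := Real.log_nonpos (norm_nonneg _) (g4 t ht).1.2.le
      have e2 : Real.log m ≤ Real.log ‖γ t‖ :=
        Real.log_le_log (by linarith) (hmin (Ico_subset_Icc_self ht))
      have e3 := mul_le_mul_of_nonneg_left e2 C0
      have e4 := mul_nonpos_of_nonneg_of_nonpos C0 e1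
      exact EReal.coe_nonpos.2 (max_le (g4 t ht).2.le (max_le (by linarith) (by linarith)))
    · have := (g1.norm.tendsto 1).mono_left (nhdsWithin_le_nhds (s := Iio 1))
      rwa [g3] at this
  exact le_iSup₂_of_le (f := fun (u : ℂ → EReal) (_ : Adm r A B (γ 0) u) => u z₀) _ ad
    (EReal.coe_le_coe_iff.2 (le_max_left _ _))

end GenP

open GenP

theorem gen : S_GEN := by
  intro r A B z₀ z₁ K w h0 hz₀ hz₁ hA h
  have h1 : r < 1 := hz₀.1.trans hz₀.2
  obtain ⟨S, hS, hug⟩ := h.hug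
  obtain ⟨p, hp, hp1⟩ := h.out
  set T := (hS.inter_of_left {s | ‖s‖ = r}).toFinset with hT
  have mT : ∀ s, s ∈ T ↔ s ∈ S ∧ ‖s‖ = r := fun s => by simp [hT]
  have ne : ∀ z ∈ ann r, ∀ s ∈ T, z - s ≠ 0 := fun z hz s hs e => by
    have := hz.1; rw [sub_eq_zero.1 e, ((mT s).1 hs).2] at this; exact lt_irrefl _ this
  have np : ∀ z ∈ ann r, ∀ s ∈ T, Real.log ‖(z - s) / 2‖ ≤ 0 := fun z hz s hs => by
    refine Real.log_nonpos (norm_nonneg _) ?_
    have := norm_sub_le z s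
    rw [norm_div, Complex.norm_two]
    linarith [hz.2, ((mT s).1 hs).2]
  set l : ℂ → ℝ := fun z => ∑ s ∈ T, Real.log ‖(z - s) / 2‖ with hl
  have l0 : ∀ z ∈ ann r, l z ≤ 0 := fun z hz => Finset.sum_nonpos (np z hz)
  have hh : HarmonicOnNhd l (ann r) := by
    have : HarmonicOnNhd (fun z => Real.log ‖∏ s ∈ T, (z - s) / 2‖) (ann r) :=
      harm_log_norm (isOpen_ann r) (by fun_prop) fun z hz =>
        Finset.prod_ne_zero_iff.2 fun s hs => div_ne_zero (ne z hz s hs) two_ne_zero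
    intro z hz
    refine (harmonicAt_congr_nhds ?_).1 (this z hz)
    filter_upwards [(isOpen_ann r).mem_nhds hz] with y hy
    rw [norm_prod, Real.log_prod fun s hs =>
      norm_ne_zero_iff.2 (div_ne_zero (ne y hy s hs) two_ne_zero)]
  have main : ∀ η > 0, ((w z₀ - η + η * l z₀ : ℝ) : EReal) ≤ Msup r A B z₀ z₁ := fun η hη => by
    have sw : Sub (fun z => w z - η + η * l z) (ann r) :=
      (h.sh.sub_harm (g := fun _ => η) fun z _ => harmonicAt_const η).add_harm
        fun z hz => (hh z hz).const_smul (c := η)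
    have ls : ∀ {q : ℂ} {c : ℝ}, LS w (ann r) q c →
        ∀ᶠ y in 𝓝[ann r] q, w y - η + η * l y < c := fun hq => by
      filter_upwards [hq η hη, self_mem_nhdsWithin] with y y1 y2
      linarith [mul_nonpos_of_nonneg_of_nonpos hη.le (l0 y y2)]
    obtain ⟨γ, g1, g2, g3, g4⟩ := curve h0 h1 sw h.conn h.sub (fun x hx => by
      obtain ⟨x1, x2⟩ := h.sub hx
      rcases x2.eq_or_lt with x2 | x2
      · exact (ls (h.outer x x2)).mono fun y hy => hy.trans_le hA
      rcases x1.eq_or_lt with x1 | x1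
      swap
      · exact ls fun ε hε => h.sh.1 x ⟨x1, x2⟩ _ (by linarith [h.le x hx ⟨x1, x2⟩])
      by_cases hxS : x ∈ S
      swap
      · exact ls (hug x hx x1.symm hxS)
      have xT := (mT x).2 ⟨hxS, x1.symm⟩
      have tt : Tendsto (fun y : ℂ => ‖(y - x) / 2‖) (𝓝[ann r] x) (𝓝 ‖(x - x) / 2‖) :=
        (by fun_prop : Continuous fun y : ℂ => ‖(y - x) / 2‖).continuousWithinAt
      rw [sub_self, zero_div, norm_zero] at tt
      filter_upwards [h.inner x x1.symm η hη, self_mem_nhdsWithin,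
        tt.eventually (gt_mem_nhds (Real.exp_pos (-B / η)))] with y y1 y2 y3
      have e1 : -Real.log ‖(y - x) / 2‖ ≤ ∑ s ∈ T, -Real.log ‖(y - s) / 2‖ :=
        Finset.single_le_sum (f := fun s => -Real.log ‖(y - s) / 2‖)
          (fun s hs => neg_nonneg.2 (np y y2 s hs)) xT
      rw [Finset.sum_neg_distrib] at e1
      have e2 : Real.log ‖(y - x) / 2‖ < -B / η :=
        (Real.log_lt_iff_lt_exp (norm_pos_iff.2 (div_ne_zero (ne y y2 x xT) two_ne_zero))).2 y3
      rw [lt_div_iff₀ hη] at e2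
      have e3 : l y ≤ Real.log ‖(y - x) / 2‖ := by linarith
      nlinarith) h.mem hz₁ hp hp1
    have := raise (B := B) h0 h1 hA sw
      (fun q hq ε hε => (ls (h.outer q hq)).mono fun y hy => by linarith)
      (fun q hq ε hε => (ls (h.inner q hq)).mono fun y hy => by linarith) g1 (g3 ▸ hp1) g4 z₀
    rwa [g2] at this
  have tt : Tendsto (fun η : ℝ => w z₀ - η + η * l z₀) (𝓝[>] 0) (𝓝 (w z₀ - 0 + 0 * l z₀)) :=
    (by fun_prop : Continuous fun η : ℝ => w z₀ - η + η * l z₀).continuousWithinAt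
  rw [sub_zero, zero_mul, add_zero] at tt
  exact le_of_tendsto ((continuous_coe_real_ereal.tendsto _).comp tt)
    (eventually_nhdsWithin_of_forall main)

end Pool.Agent.P.MP_3bd355_an
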