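import Pool.Agent.P.MP_3bd355_an.Stmts

/-! Existence of the Green function. -/

open Set Filter Metric Complex InnerProductSpace
open scoped Topology ComplexConjugate Real

namespace Pool.Agent.P.MP_3bd355_an

namespace GreenP

section gen
variable {F G : Type} [NormedAddCommGroup F] [NormedSpace ℝ F] [NormedAddCommGroup G]
  [NormedSpace ℝ G] {W : Set ℂ}

/-- `u` solves the Dirichlet problem with data `f`. -/
def IsS (W : Set ℂ) (f u : ℂ → F) : Prop :=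
  HarmonicOnNhd u W ∧ ∀ p ∈ frontier W, Tendsto u (𝓝[W] p) (𝓝 (f p))

theorem IsS.add {f g u w : ℂ → F} (h : IsS W f u) (h' : IsS W g w) :
    IsS W (fun p => f p + g p) (fun z => u z + w z) :=
  ⟨h.1.add h'.1, fun p hp => (h.2 p hp).add (h'.2 p hp)⟩

theorem IsS.sub {f g u w : ℂ → F} (h : IsS W f u) (h' : IsS W g w) :
    IsS W (fun p => f p - g p) (fun z => u z - w z) :=
  ⟨h.1.sub h'.1, fun p hp => (h.2 p hp).sub (h'.2 p hp)⟩

theorem IsS.clm {f u : ℂ → F} (h : IsS W f u) (l : F →L[ℝ] G) :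
    IsS W (fun p => l (f p)) (fun z => l (u z)) :=
  ⟨h.1.comp_CLM l, fun p hp => (l.continuous.tendsto _).comp (h.2 p hp)⟩

/-- A chosen solution. -/
noncomputable def sol (W : Set ℂ) (f : ℂ → F) : ℂ → F := Classical.epsilon (IsS W f)

theorem sol_spec {f : ℂ → F} (h : ∃ u, IsS W f u) : IsS W f (sol W f) := Classical.epsilon_spec h

end gen

variable {W : Set ℂ}

theorem IsS.mul {f u : ℂ → ℂ} (h : IsS W f u) (c : ℂ) :
    IsS W (fun p => c * f p) (fun z => c * u z) := h.clm (ContinuousLinearMap.mul ℝ ℂ c)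

theorem IsS.re {f u : ℂ → ℂ} (h : IsS W f u) :
    IsS W (fun p => (f p).re) (fun z => (u z).re) := h.clm reCLM

theorem IsS.le (hW : IsOpen W) (hb : Bornology.IsBounded W) {f u : ℂ → ℝ} (h : IsS W f u) {c : ℝ}
    (hc : ∀ p ∈ frontier W, f p ≤ c) : ∀ z ∈ W, u z ≤ c :=
  (Sub.of_harm h.1).mp0 hW hb fun p hp => LS.of_tendsto (h.2 p hp) (hc p hp)

theorem IsS.norm_le (hW : IsOpen W) (hb : Bornology.IsBounded W) {f u : ℂ → ℂ} (h : IsS W f u)
    {c : ℝ} (hc : ∀ p ∈ frontier W, ‖f p‖ ≤ c) : ∀ z ∈ W, ‖u z‖ ≤ c := by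
  intro z hz
  obtain ⟨e, he, h1⟩ := Complex.exists_norm_eq_mul_self (u z)
  have := ((h.mul e).re).le hW hb (c := c) (fun p hp => (re_le_norm _).trans
    (by rw [norm_mul, he, one_mul]; exact hc p hp)) z hz
  rwa [← h1, ofReal_re] at this

theorem IsS.unique (hW : IsOpen W) (hb : Bornology.IsBounded W) {f g u w : ℂ → ℝ}
    (h : IsS W f u) (h' : IsS W g w) (e : ∀ p ∈ frontier W, f p = g p) : ∀ z ∈ W, u z = w z := by
  intro z hz
  have h1 := (h.sub h').le hW hb (c := 0) (fun p hp => by simp [e p hp]) z hz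
  have h2 := (h'.sub h).le hW hb (c := 0) (fun p hp => by simp [e p hp]) z hz
  linarith

theorem exR (h : S_DIR) (hW : IsOpen W) (hb : Bornology.IsBounded W) (hr : Reg W) {f : ℂ → ℝ}
    (hf : ContinuousOn f (frontier W)) : IsS W f (sol W f) := by
  have hK : IsCompact (frontier W) := hb.isCompact_closure.of_isClosed_subset isClosed_frontier
    frontier_subset_closure
  obtain ⟨C, hC⟩ := hK.exists_bound_of_continuousOn hf
  obtain ⟨u, h1, -, -, -, h2⟩ := h W f (-C) C hW hb hr fun p hp => abs_le.1 (hC p hp)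
  exact sol_spec ⟨u, h1, fun p hp => h2 p hp (hf p hp)⟩

theorem exC (h : S_DIR) (hW : IsOpen W) (hb : Bornology.IsBounded W) (hr : Reg W) {f : ℂ → ℂ}
    (hf : ContinuousOn f (frontier W)) : IsS W f (sol W f) := by
  have h1 := (exR h hW hb hr (continuous_re.comp_continuousOn hf)).clm ofRealCLM
  have h2 := ((exR h hW hb hr (continuous_im.comp_continuousOn hf)).clm ofRealCLM).mul I
  have h3 := h1.add h2
  refine sol_spec ⟨_, h3.1, fun p hp => ?_⟩
  have h4 := h3.2 p hp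
  have e : ofRealCLM ((re ∘ f) p) + I * ofRealCLM ((im ∘ f) p) = f p := by
    simp [mul_comm I, re_add_im]
  exact e ▸ h4

theorem ne_of_fr (hW : IsOpen W) {p ζ : ℂ} (hp : p ∈ frontier W) (hζ : ζ ∈ W) : p - ζ ≠ 0 :=
  sub_ne_zero.2 fun e => (hW.frontier_eq ▸ hp).2 (e ▸ hζ)

/-- The regular part. -/
noncomputable def HH (W : Set ℂ) (z ζ : ℂ) : ℝ := sol W (fun p => Real.log ‖p - ζ‖) z

/-- The derivative of the regular part. -/
noncomputable def DD (W : Set ℂ) (ζ : ℂ) : ℂ → ℂ := sol W fun p => -(p - ζ)⁻¹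

theorem HH_spec (h : S_DIR) (hW : IsOpen W) (hb : Bornology.IsBounded W) (hr : Reg W) {ζ : ℂ}
    (hζ : ζ ∈ W) : IsS W (fun p => Real.log ‖p - ζ‖) fun z => HH W z ζ :=
  exR h hW hb hr ((continuousOn_id.sub continuousOn_const).norm.log
    fun _ hp => norm_ne_zero_iff.2 (ne_of_fr hW hp hζ))

theorem DD_spec (h : S_DIR) (hW : IsOpen W) (hb : Bornology.IsBounded W) (hr : Reg W) {ζ : ℂ}
    (hζ : ζ ∈ W) : IsS W (fun p => -(p - ζ)⁻¹) (DD W ζ) :=
  exC h hW hb hr ((continuousOn_id.sub continuousOn_const).inv₀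
    fun _ hp => ne_of_fr hW hp hζ).neg

theorem re_pos {a : ℂ} (ha : ‖a‖ < 1) : 0 < (1 - a).re := by
  have := re_le_norm a
  simp only [sub_re, one_re]
  linarith

theorem log_est {a w : ℂ} (ha : ‖a‖ < 1) (hw : ‖w‖ ≤ 1 / 2) :
    ‖log ((1 - a) * (1 - w)) - log (1 - a) + w‖ ≤ ‖w‖ ^ 2 := by
  have hw1 : ‖w‖ < 1 := by linarith
  have h1 := re_pos ha
  have h2 := re_pos hw1
  have a1 := abs_lt.1 (abs_arg_lt_pi_div_two_iff.2 (Or.inl h1))
  have a2 := abs_lt.1 (abs_arg_lt_pi_div_two_iff.2 (Or.inl h2))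
  rw [(log_mul_eq_add_log_iff (fun e => by simp [e] at h1) (fun e => by simp [e] at h2)).2
    ⟨by linarith, by linarith⟩]
  have h3 := norm_log_one_add_sub_self_le (z := -w) (by rwa [norm_neg])
  rw [norm_neg] at h3
  have e : log (1 - a) + log (1 - w) - log (1 - a) + w = log (1 + -w) - -w := by
    rw [← sub_eq_add_neg]; ring
  rw [e]
  refine h3.trans ?_
  have h4 : (1 - ‖w‖)⁻¹ ≤ 2 := by
    rw [inv_le_comm₀ (by linarith) two_pos]; linarith
  nlinarith [sq_nonneg ‖w‖]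

/-- The regular part is locally the real part of a holomorphic function of the pole. -/
theorem holo (h : S_DIR) (hW : IsOpen W) (hb : Bornology.IsBounded W) (hr : Reg W) {ζ₀ z : ℂ}
    (hζ : ζ₀ ∈ W) (hz : z ∈ W) : ∃ F : ℂ → ℂ, (∀ᶠ ζ in 𝓝 ζ₀, HasDerivAt F (DD W ζ z) ζ) ∧
      ∀ᶠ ζ in 𝓝 ζ₀, HH W z ζ = HH W z ζ₀ + (F ζ).re := by
  obtain ⟨R, hR, hRW⟩ := Metric.isOpen_iff.1 hW ζ₀ hζ
  have hp : ∀ p ∈ frontier W, R ≤ ‖p - ζ₀‖ := fun p hp => by
    by_contra hlt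
    exact (hW.frontier_eq ▸ hp).2 (hRW (mem_ball_iff_norm.2 (not_le.1 hlt)))
  have ha : ∀ ζ ∈ ball ζ₀ R, ∀ p ∈ frontier W, ‖(ζ - ζ₀) / (p - ζ₀)‖ < 1 := fun ζ hζ p h => by
    rw [norm_div, div_lt_one (hR.trans_le (hp p h))]
    exact (mem_ball_iff_norm.1 hζ).trans_le (hp p h)
  have hS : ∀ ζ ∈ ball ζ₀ R, IsS W (fun p => log (1 - (ζ - ζ₀) / (p - ζ₀)))
      (sol W fun p => log (1 - (ζ - ζ₀) / (p - ζ₀))) := fun ζ hζ' =>
    exC h hW hb hr ((continuousOn_const.sub (continuousOn_const.div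
      (continuousOn_id.sub continuousOn_const) fun p hp => ne_of_fr hW hp hζ)).clog
        fun p hp => Or.inl (re_pos (ha ζ hζ' p hp)))
  refine ⟨fun ζ => sol W (fun p => log (1 - (ζ - ζ₀) / (p - ζ₀))) z, ?_, ?_⟩
  · filter_upwards [ball_mem_nhds ζ₀ (half_pos hR)] with ζ hζ'
    have hζR : ζ ∈ ball ζ₀ R := ball_subset_ball (half_le_self hR.le) hζ'
    have hζ1 := mem_ball_iff_norm.1 hζ'
    have hq : ∀ p ∈ frontier W, R / 2 ≤ ‖p - ζ‖ := fun p h => by
      have := norm_sub_le_norm_sub_add_norm_sub p ζ ζ₀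
      linarith [hp p h]
    rw [hasDerivAt_iff_isLittleO_nhds_zero]
    refine Asymptotics.IsBigO.trans_isLittleO (g := fun k : ℂ => k ^ 2)
      (Asymptotics.IsBigO.of_bound ((R / 2)⁻¹ ^ 2) ?_) (Asymptotics.isLittleO_pow_id one_lt_two)
    filter_upwards [ball_mem_nhds (0 : ℂ) (show 0 < R / 4 by positivity)] with k hk
    rw [mem_ball_zero_iff] at hk
    have hk' : ζ + k ∈ ball ζ₀ R := by
      rw [mem_ball_iff_norm, add_sub_right_comm]
      linarith [norm_add_le (ζ - ζ₀) k]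
    have h1 := (((hS _ hk').sub (hS _ hζR)).sub ((DD_spec h hW hb hr (hRW hζR)).mul k)).norm_le
      hW hb (c := (R / 2)⁻¹ ^ 2 * ‖k ^ 2‖) (fun p hp' => ?_) z hz
    · simpa only [smul_eq_mul] using h1
    have n0 := ne_of_fr hW hp' hζ
    have n1 := ne_of_fr hW hp' (hRW hζR)
    have b1 : ‖k / (p - ζ)‖ ≤ ‖k‖ / (R / 2) := by
      rw [norm_div]
      exact div_le_div_of_nonneg_left (norm_nonneg _) (half_pos hR) (hq p hp')
    have b2 : ‖k‖ / (R / 2) ≤ 1 / 2 := by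
      rw [div_le_iff₀ (half_pos hR)]; linarith
    have e1 : 1 - (ζ + k - ζ₀) / (p - ζ₀) = (1 - (ζ - ζ₀) / (p - ζ₀)) * (1 - k / (p - ζ)) := by
      field_simp
      ring
    have e2 : ∀ x y : ℂ, x - y - k * -(p - ζ)⁻¹ = x - y + k / (p - ζ) := fun x y => by
      rw [div_eq_mul_inv]; ring
    rw [e1, e2]
    refine (log_est (ha ζ hζR p hp') (b1.trans b2)).trans ?_
    rw [norm_pow, ← mul_pow, mul_comm, ← div_eq_mul_inv]
    gcongr
  · filter_upwards [ball_mem_nhds ζ₀ hR] with ζ hζ'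
    refine (HH_spec h hW hb hr (hRW hζ')).unique hW hb
      ((HH_spec h hW hb hr hζ).add (hS ζ hζ').re) (fun p hp' => ?_) z hz
    have n0 := ne_of_fr hW hp' hζ
    have n1 := ne_of_fr hW hp' (hRW hζ')
    have e1 : 1 - (ζ - ζ₀) / (p - ζ₀) = (p - ζ) / (p - ζ₀) := by
      field_simp
      ring
    rw [log_re, e1, norm_div, Real.log_div (norm_ne_zero_iff.2 n1) (norm_ne_zero_iff.2 n0)]
    ring

theorem harm_pole (h : S_DIR) (hW : IsOpen W) (hb : Bornology.IsBounded W) (hr : Reg W) {z : ℂ}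
    (hz : z ∈ W) : HarmonicOnNhd (HH W z) W := by
  intro ζ hζ
  obtain ⟨F, h1, h2⟩ := holo h hW hb hr hζ hz
  have hF : AnalyticAt ℂ F ζ :=
    analyticAt_iff_eventually_differentiableAt.2 (h1.mono fun _ hx => hx.differentiableAt)
  exact (harmonicAt_congr_nhds h2).2 ((harmonicAt_const _).add hF.harmonicAt_re)

theorem fderiv_pole (h : S_DIR) (hW : IsOpen W) (hb : Bornology.IsBounded W) (hr : Reg W)
    {ζ z : ℂ} (hζ : ζ ∈ W) (hz : z ∈ W) (β : ℂ) :
    fderiv ℝ (HH W z) ζ β = (β * DD W ζ z).re := by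
  obtain ⟨F, h1, h2⟩ := holo h hW hb hr hζ hz
  have h3 : HasFDerivAt (fun ζ' => HH W z ζ + (F ζ').re) _ ζ :=
    (reCLM.hasFDerivAt.comp ζ (h1.self_of_nhds.hasFDerivAt.restrictScalars ℝ)).const_add _
  rw [(h3.congr_of_eventuallyEq h2).fderiv]
  simp [mul_comm]

theorem gr_bd (h : S_DIR) (hW : IsOpen W) (hb : Bornology.IsBounded W) (hr : Reg W) {ζ p : ℂ}
    (hζ : ζ ∈ W) (hp : p ∈ frontier W) : Tendsto (gr (HH W) ζ) (𝓝[W] p) (𝓝 0) := by
  have h1 : ContinuousAt (fun z => Real.log ‖z - ζ‖) p :=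
    (continuousAt_id.sub continuousAt_const).norm.log (norm_ne_zero_iff.2 (ne_of_fr hW hp hζ))
  have h2 := ((HH_spec h hW hb hr hζ).2 p hp).sub (h1.tendsto.mono_left nhdsWithin_le_nhds)
  rwa [sub_self] at h2

theorem gr_harm (h : S_DIR) (hW : IsOpen W) (hb : Bornology.IsBounded W) (hr : Reg W) {ζ : ℂ}
    (hζ : ζ ∈ W) : HarmonicOnNhd (gr (HH W) ζ) (W \ {ζ}) := fun z hz =>
  ((HH_spec h hW hb hr hζ).1 z hz.1).sub (harm_log hz.2)

theorem gr_top (h : S_DIR) (hW : IsOpen W) (hb : Bornology.IsBounded W) (hr : Reg W) {ζ : ℂ}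
    (hζ : ζ ∈ W) : Tendsto (gr (HH W) ζ) (𝓝[≠] ζ) atTop := by
  have h1 : Tendsto (fun z => HH W z ζ) (𝓝[≠] ζ) (𝓝 (HH W ζ ζ)) :=
    (harm_diff ((HH_spec h hW hb hr hζ).1 ζ hζ)).continuousAt.tendsto.mono_left
      nhdsWithin_le_nhds
  have h2 : Tendsto (fun z => -Real.log ‖z - ζ‖) (𝓝[≠] ζ) atTop :=
    tendsto_neg_atBot_atTop.comp
      (Real.tendsto_log_nhdsGT_zero.comp (tendsto_norm_sub_self_nhdsNE ζ))
  exact h1.add_atTop h2

theorem gr_nonneg (h : S_DIR) (hW : IsOpen W) (hb : Bornology.IsBounded W) (hr : Reg W) {ζ : ℂ}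
    (hζ : ζ ∈ W) : ∀ z ∈ W \ {ζ}, 0 ≤ gr (HH W) ζ z := by
  intro z hz
  refine neg_nonpos.1 ((Sub.of_harm (gr_harm h hW hb hr hζ).neg).mp0
    (hW.sdiff isClosed_singleton) (hb.subset sdiff_subset) (c := 0) (fun p hp => ?_) z hz)
  by_cases e : p = ζ
  · subst e
    refine LS.of_eventually (Eventually.filter_mono (nhdsWithin_mono _ fun x hx => hx.2) ?_)
    exact ((gr_top h hW hb hr hζ).eventually_ge_atTop 0).mono fun x hx => neg_nonpos.2 hx
  · have hp' : p ∈ frontier W := by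
      rw [(hW.sdiff isClosed_singleton).frontier_eq] at hp
      rw [hW.frontier_eq]
      exact ⟨closure_mono sdiff_subset hp.1, fun hp' => hp.2 ⟨hp', e⟩⟩
    have h1 := (gr_bd h hW hb hr hζ hp').neg
    rw [neg_zero] at h1
    exact (LS.of_tendsto h1 le_rfl).mono sdiff_subset

theorem symm_le (h : S_DIR) (hW : IsOpen W) (hb : Bornology.IsBounded W) (hr : Reg W) {z : ℂ}
    (hz : z ∈ W) : ∀ ζ ∈ W, HH W ζ z - HH W z ζ ≤ 0 := by
  refine (Sub.of_harm ((HH_spec h hW hb hr hz).1.sub (harm_pole h hW hb hr hz))).mp0 hW hb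
    fun p hp => (LS.of_tendsto (gr_bd h hW hb hr hz hp) le_rfl).of_le ?_
  have h1 : ∀ᶠ ζ in 𝓝 p, ζ ≠ z :=
    isOpen_ne.eventually_mem (sub_ne_zero.1 (ne_of_fr hW hp hz))
  filter_upwards [self_mem_nhdsWithin, mem_nhdsWithin_of_mem_nhds h1] with ζ hζ hne
  have h2 := gr_nonneg h hW hb hr hζ z ⟨hz, fun e => hne e.symm⟩
  simp only [gr, Pi.sub_apply] at h2 ⊢
  rw [norm_sub_rev] at h2
  linarith

end GreenP

open GreenP in
theorem green (h : S_DIR) : S_GREEN := by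
  intro W hW hb hc hr
  have hs : ∀ z ∈ W, ∀ ζ ∈ W, HH W z ζ = HH W ζ z := fun z hz ζ hζ => by
    linarith [symm_le h hW hb hr hz ζ hζ, symm_le h hW hb hr hζ z hz]
  refine ⟨HH W, fun ζ hζ => (HH_spec h hW hb hr hζ).1, hs, fun ζ hζ p hp => gr_bd h hW hb hr hζ hp,
    fun ζ hζ z hz hne => ?_, fun ζ hζ β z hz => ?_, fun ζ hζ β p hp => ?_,
    fun ζ hζ β z hz hne => ?_⟩
  · refine lt_of_le_of_ne (gr_nonneg h hW hb hr hζ z ⟨hz, hne⟩) fun e => ?_
    have h1 := harm_zero_of_min (hW.sdiff isClosed_singleton)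
      (preconn_diff_finite hW hc (finite_singleton ζ)) (gr_harm h hW hb hr hζ)
      (gr_nonneg h hW hb hr hζ) ⟨hz, hne⟩ e.symm
    have h2 : ∀ᶠ y in 𝓝[≠] ζ, y ∈ W \ {ζ} :=
      Filter.inter_mem (mem_nhdsWithin_of_mem_nhds (hW.mem_nhds hζ)) self_mem_nhdsWithin
    obtain ⟨y, a, b⟩ := (((gr_top h hW hb hr hζ).eventually_gt_atTop 0).and h2).exists
    exact a.ne' (h1 y b)
  · refine (harmonicAt_congr_nhds ?_).2 (((DD_spec h hW hb hr hζ).mul β).re.1 z hz)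
    filter_upwards [hW.mem_nhds hz] with y hy using fderiv_pole h hW hb hr hζ hy β
  · have n := ne_of_fr hW hp hζ
    have h1 : ContinuousAt (fun z => (β / (z - ζ)).re) p :=
      continuous_re.continuousAt.comp
        (continuousAt_const.div (continuousAt_id.sub continuousAt_const) n)
    have h2 := (((DD_spec h hW hb hr hζ).mul β).re.2 p hp).add
      (h1.tendsto.mono_left nhdsWithin_le_nhds)
    have e : (β * -(p - ζ)⁻¹).re + (β / (p - ζ)).re = 0 := by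
      rw [← add_re, div_eq_mul_inv, mul_neg, neg_add_cancel, zero_re]
    rw [e] at h2
    refine h2.congr' ?_
    filter_upwards [self_mem_nhdsWithin] with y hy
    rw [dp, fderiv_pole h hW hb hr hζ hy β]
  · have e : gr (HH W) z =ᶠ[𝓝 ζ] fun y => HH W z y - Real.log ‖y - z‖ := by
      filter_upwards [hW.mem_nhds hζ] with y hy
      rw [gr, hs y hy z hz]
    rw [grad_congr e, grad_sub (harm_diff (harm_pole h hW hb hr hz ζ hζ))
      (harm_diff (harm_log hne.symm)), grad_log hne.symm, dp, fderiv_eq_grad, ← add_re]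
    congr 1
    have n : z - ζ ≠ 0 := sub_ne_zero.2 hne
    have n' : ζ - z ≠ 0 := sub_ne_zero.2 hne.symm
    field_simp
    ring

end Pool.Agent.P.MP_3bd355_an
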