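import Pool.Agent.P.MP_3bd355_an.Stmts

/-! Convergence of the solutions under Hausdorff convergence of the continua. -/

open Set Filter Metric Complex InnerProductSpace
open scoped Topology ComplexConjugate Real

namespace Pool.Agent.P.MP_3bd355_an

namespace LimP

/-- Two sided form of the barrier estimate. -/
theorem bl2 (h : S_BL) (M : ℝ) (hM : 0 < M) {ε : ℝ} (hε : 0 < ε) : ∃ δ : ℝ, 0 < δ ∧ δ < 1 ∧
    ∀ (p : ℂ) (ρ : ℝ) (K W S : Set ℂ) (u : ℂ → ℝ) (c : ℝ), 0 < ρ → IsCompact K →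
      IsPreconnected K → p ∈ K → ¬ K ⊆ ball p ρ → IsOpen W → Disjoint K W → S.Finite →
      HarmonicOnNhd u W → (∀ z ∈ W, |u z - c| ≤ M) →
      (∀ q ∈ frontier W, q ∈ ball p ρ → q ∉ S → Tendsto u (𝓝[W] q) (𝓝 c)) →
      ∀ z ∈ W, z ∈ ball p (δ * ρ) → |u z - c| ≤ ε := by
  obtain ⟨δ, hδ0, hδ1, hδ⟩ := h (ε / M) (div_pos hε hM)
  refine ⟨δ, hδ0, hδ1, ?_⟩
  intro p ρ K W S u c hρ hK hKc hp hn hW hd hS hu hb hq z hz hzb
  have key : ∀ s : ℝ, |s| = 1 → s * (u z - c) ≤ ε := by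
    intro s hs
    have hharm : HarmonicOnNhd (fun y => (s / M) * (u y - c)) W := by
      intro y hy
      exact harm_const_mul ((hu y hy).sub (harmonicAt_const c)) (s / M)
    have h1 := hδ p ρ K W S (fun y => (s / M) * (u y - c)) hρ hK hKc hp hn hW hd hS
      (Sub.of_harm hharm) ?_ ?_ z hz hzb
    · have h2 : s / M * (u z - c) = s * (u z - c) / M := by ring
      simp only [h2] at h1
      exact (div_le_div_iff_of_pos_right hM).1 h1
    · intro y hy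
      have h2 : s / M * (u y - c) = s * (u y - c) / M := by ring
      simp only [h2]
      rw [div_le_one hM]
      calc s * (u y - c) ≤ |s * (u y - c)| := le_abs_self _
        _ = |u y - c| := by rw [abs_mul, hs, one_mul]
        _ ≤ M := hb y hy
    · intro q hq1 hq2 hq3
      have h3 : Tendsto (fun y => (s / M) * (u y - c)) (𝓝[W] q) (𝓝 ((s / M) * (c - c))) :=
        ((hq q hq1 hq2 hq3).sub_const c).const_mul _
      exact LS.of_tendsto h3 (by simp)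
  have h1 := key 1 (by simp)
  have h2 := key (-1) (by simp)
  rw [abs_le]
  constructor <;> linarith

theorem sphere_not_sub {R ρ : ℝ} {p : ℂ} (hp : ‖p‖ = R) (hρ : ρ ≤ 2 * R) :
    ¬ sphere (0 : ℂ) R ⊆ ball p ρ := by
  intro h
  have h1 : -p ∈ sphere (0 : ℂ) R := by simp [hp]
  have h2 := h h1
  rw [mem_ball, dist_eq_norm] at h2
  have h3 : -p - p = (-2 : ℂ) * p := by ring
  rw [h3, norm_mul] at h2
  simp only [norm_neg, Complex.norm_ofNat, hp] at h2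
  linarith

theorem preconn_sphere (R : ℝ) : IsPreconnected (sphere (0 : ℂ) R) :=
  isPreconnected_sphere (by rw [Complex.rank_real_complex]; exact Cardinal.one_lt_two) 0 R

theorem disj_sphere {r R : ℝ} (hR : R = r ∨ R = 1) {W : Set ℂ} (hW : W ⊆ ann r) :
    Disjoint (sphere (0 : ℂ) R) W := by
  rw [Set.disjoint_left]
  intro z hz hzW
  have h1 := hW hzW
  rw [mem_sphere_zero_iff_norm] at hz
  rcases hR with hR | hR
  · exact absurd h1.1 (by rw [hz, hR]; exact lt_irrefl _)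
  · exact absurd h1.2 (by rw [hz, hR]; exact lt_irrefl _)

theorem main_ann (r : ℝ) (L : Set ℂ) : main r L ⊆ ann r := fun _ hz => (main_sub r L hz).1

theorem norm_lt_of_ball {p q : ℂ} {ρ : ℝ} (h : q ∈ ball p ρ) : ‖q‖ < ‖p‖ + ρ := by
  rw [mem_ball, dist_eq_norm] at h
  calc ‖q‖ = ‖p + (q - p)‖ := by ring_nf
    _ ≤ ‖p‖ + ‖q - p‖ := norm_add_le _ _
    _ < ‖p‖ + ρ := by linarith

theorem lt_norm_of_ball {p q : ℂ} {ρ : ℝ} (h : q ∈ ball p ρ) : ‖p‖ - ρ < ‖q‖ := by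
  have := norm_lt_of_ball (mem_ball_comm.1 h)
  linarith

theorem abs_sub_bd {r A B c : ℝ} {L : Set ℂ} {v : ℂ → ℝ} (hL : Cont r L) (h : Sol r A B L v)
    (hc : |c| ≤ max |A| |B|) (z : ℂ) : |v z - c| ≤ 2 * max |A| |B| + 1 := by
  have h1 := h.abs_le hL z
  have h2 := abs_sub (v z) c
  linarith

variable {r A B : ℝ} {Ls : ℕ → Set ℂ} {L : Set ℂ} {vs : ℕ → ℂ → ℝ}

theorem Mpos (A B : ℝ) : 0 < 2 * max |A| |B| + 1 := by
  have := le_max_left |A| |B|
  have := abs_nonneg A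
  linarith

/-- The estimate at an exposed point. -/
theorem est_Ex (h : S_BL) (hL : Cont r L) (hLs : ∀ k, Cont r (Ls k)) (hH : HL Ls L)
    (hs : ∀ k, Sol r A B (Ls k) (vs k)) {p : ℂ} (hp : p ∈ Ex r L) {ε : ℝ} (hε : 0 < ε) :
    ∃ ρ > 0, ∀ᶠ k in atTop, ∀ z ∈ ball p ρ ∩ ann r, |vs k z - B| ≤ ε := by
  obtain ⟨δ, hδ0, hδ1, hδ⟩ := bl2 h _ (Mpos A B) hε
  obtain ⟨ρ₀, hρ₀, hk⟩ := hH.kern_bd hL hp.2.2 hp.2.1
  have h0 := hL.r0
  have h1 := hL.r1
  set ρ := min ρ₀ (min r (1 - r)) with hρdef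
  have hρ : 0 < ρ := lt_min hρ₀ (lt_min h0 (by linarith))
  have hρ1 : ρ ≤ ρ₀ := min_le_left _ _
  have hρ2 : ρ ≤ r := (min_le_right _ _).trans (min_le_left _ _)
  have hρ3 : ρ ≤ 1 - r := (min_le_right _ _).trans (min_le_right _ _)
  refine ⟨δ * ρ, mul_pos hδ0 hρ, ?_⟩
  filter_upwards [hk] with k hk z hz
  have hle : δ * ρ ≤ ρ₀ := by nlinarith
  refine hδ p ρ (sphere 0 r) (main r (Ls k)) ∅ (vs k) B hρ (isCompact_sphere _ _)
    (preconn_sphere r) (mem_sphere_zero_iff_norm.2 hp.1) (sphere_not_sub hp.1 (by linarith))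
    (hLs k).isOpen_main (disj_sphere (Or.inl rfl) (main_ann _ _)) finite_empty (hs k).harm
    (fun y _ => abs_sub_bd (hLs k) (hs k) (le_max_right _ _) y) ?_ z
    (hk.2 ⟨ball_subset_ball hle hz.1, hz.2⟩) hz.1
  intro q hq hqb _
  rcases ((hLs k).frontier_sub hq).2.2 with h2 | h2 | h2
  · exact absurd h2 (Set.disjoint_left.1 hk.1 (ball_subset_ball hρ1 hqb))
  · exact (hs k).atB q h2
  · have := norm_lt_of_ball hqb
    rw [hp.1] at this
    linarith

/-- The estimate at a point of the outer circle off `L`. -/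
theorem est_A (h : S_BL) (hL : Cont r L) (hLs : ∀ k, Cont r (Ls k)) (hH : HL Ls L)
    (hs : ∀ k, Sol r A B (Ls k) (vs k)) {p : ℂ} (hp : ‖p‖ = 1) (hpL : p ∉ L)
    (hpc : p ∈ closure (main r L)) {ε : ℝ} (hε : 0 < ε) :
    ∃ ρ > 0, ∀ᶠ k in atTop, ∀ z ∈ ball p ρ ∩ ann r, |vs k z - A| ≤ ε := by
  obtain ⟨δ, hδ0, hδ1, hδ⟩ := bl2 h _ (Mpos A B) hε
  obtain ⟨ρ₀, hρ₀, hk⟩ := hH.kern_bd hL hpc hpL
  have h0 := hL.r0
  have h1 := hL.r1
  set ρ := min ρ₀ (1 - r) with hρdef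
  have hρ : 0 < ρ := lt_min hρ₀ (by linarith)
  have hρ1 : ρ ≤ ρ₀ := min_le_left _ _
  have hρ3 : ρ ≤ 1 - r := min_le_right _ _
  refine ⟨δ * ρ, mul_pos hδ0 hρ, ?_⟩
  filter_upwards [hk] with k hk z hz
  have hle : δ * ρ ≤ ρ₀ := by nlinarith
  refine hδ p ρ (sphere 0 1) (main r (Ls k)) ∅ (vs k) A hρ (isCompact_sphere _ _)
    (preconn_sphere 1) (mem_sphere_zero_iff_norm.2 hp) (sphere_not_sub hp (by linarith))
    (hLs k).isOpen_main (disj_sphere (Or.inr rfl) (main_ann _ _)) finite_empty (hs k).harm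
    (fun y _ => abs_sub_bd (hLs k) (hs k) (le_max_left _ _) y) ?_ z
    (hk.2 ⟨ball_subset_ball hle hz.1, hz.2⟩) hz.1
  intro q hq hqb _
  have hqL : q ∉ Ls k := Set.disjoint_left.1 hk.1 (ball_subset_ball hρ1 hqb)
  rcases ((hLs k).frontier_sub hq).2.2 with h2 | h2 | h2
  · exact absurd h2 hqL
  · have := lt_norm_of_ball hqb
    rw [hp, h2.1] at this
    linarith
  · exact (hs k).atA q h2 hqL

theorem abs_zero_le (A B : ℝ) : |(0 : ℝ)| ≤ max |A| |B| := by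
  rw [abs_zero]
  exact (abs_nonneg A).trans (le_max_left _ _)

/-- The estimate at a point of `L` on the outer circle. -/
theorem est_L1 (h : S_BL) (hL : Cont r L) (hLs : ∀ k, Cont r (Ls k)) (hA : A = 0)
    (hs : ∀ k, Sol r A B (Ls k) (vs k)) {p : ℂ} (hp : ‖p‖ = 1) {ε : ℝ} (hε : 0 < ε) :
    ∃ ρ > 0, ∀ k, ∀ z ∈ ball p ρ, |vs k z - 0| ≤ ε := by
  obtain ⟨δ, hδ0, hδ1, hδ⟩ := bl2 h _ (Mpos A B) hε
  have h0 := hL.r0
  have h1 := hL.r1
  refine ⟨δ * (1 - r), mul_pos hδ0 (by linarith), ?_⟩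
  intro k z hz
  by_cases hzW : z ∈ main r (Ls k)
  swap
  · rw [(hs k).off z hzW]
    simpa using hε.le
  refine hδ p (1 - r) (sphere 0 1) (main r (Ls k)) ∅ (vs k) 0 (by linarith)
    (isCompact_sphere _ _)
    (preconn_sphere 1) (mem_sphere_zero_iff_norm.2 hp) (sphere_not_sub hp (by linarith))
    (hLs k).isOpen_main (disj_sphere (Or.inr rfl) (main_ann _ _)) finite_empty (hs k).harm
    (fun y _ => abs_sub_bd (hLs k) (hs k) (abs_zero_le A B) y) ?_ z hzW hz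
  intro q hq hqb _
  have hqr : r < ‖q‖ := by
    have := lt_norm_of_ball hqb
    rw [hp] at this
    linarith
  by_cases hqL : q ∈ Ls k
  · refine (hs k).atL q hqL fun hc => ?_
    have := ((hLs k).closure_Ex hc).1
    linarith
  rcases ((hLs k).frontier_sub hq).2.2 with h2 | h2 | h2
  · exact absurd h2 hqL
  · have := h2.1
    linarith
  · have := (hs k).atA q h2 hqL
    rwa [hA] at this

/-- The estimate at a point of `L` in the open annulus. -/
theorem est_L2 (h : S_BL) (hL : Cont r L) (hLs : ∀ k, Cont r (Ls k)) (hH : HL Ls L)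
    (hs : ∀ k, Sol r A B (Ls k) (vs k)) {p : ℂ} (hpL : p ∈ L) (hp : p ∈ ann r) {ε : ℝ}
    (hε : 0 < ε) : ∃ ρ > 0, ∀ᶠ k in atTop, ∀ z ∈ ball p ρ, |vs k z - 0| ≤ ε := by
  obtain ⟨δ, hδ0, hδ1, hδ⟩ := bl2 h _ (Mpos A B) hε
  obtain ⟨d, hd, hdk⟩ := hH.diam hL.nt
  obtain ⟨ρ₀, hρ₀, hsub⟩ := Metric.isOpen_iff.1 (isOpen_ann r) p hp
  set ρ := min (ρ₀ / 2) (d / 2) with hρdef
  have hρ : 0 < ρ := lt_min (by linarith) (by linarith)
  have hρ1 : ρ ≤ ρ₀ / 2 := min_le_left _ _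
  have hρ2 : ρ ≤ d / 2 := min_le_right _ _
  have hη : 0 < δ * ρ / 2 := by positivity
  have hle : δ * ρ ≤ ρ := by nlinarith
  refine ⟨δ * ρ / 2, hη, ?_⟩
  filter_upwards [hdk, hH.near hpL hη] with k hk1 hk2 z hz
  obtain ⟨y, hy, hyp⟩ := hk2
  obtain ⟨a, ha, b, hb, hab⟩ := hk1
  by_cases hzW : z ∈ main r (Ls k)
  swap
  · rw [(hs k).off z hzW]
    simpa using hε.le
  refine hδ y ρ (Ls k) (main r (Ls k)) ∅ (vs k) 0 hρ (hLs k).cpt (hLs k).conn hy ?_
    (hLs k).isOpen_main ?_ finite_empty (hs k).harm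
    (fun y _ => abs_sub_bd (hLs k) (hs k) (abs_zero_le A B) y) ?_ z hzW ?_
  · intro hc
    have h1 := mem_ball.1 (hc ha)
    have h2 := mem_ball.1 (hc hb)
    have h3 := dist_triangle_right a b y
    linarith
  · rw [Set.disjoint_left]
    intro x hx hxW
    exact (main_sub r _ hxW).2 hx
  · intro q hq hqb _
    have hqa : q ∈ ann r := by
      apply hsub
      rw [mem_ball] at hqb ⊢
      have := dist_triangle q y p
      linarith
    rcases ((hLs k).frontier_sub hq).2.2 with h2 | h2 | h2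
    · refine (hs k).atL q h2 fun hc => ?_
      have h3 := ((hLs k).closure_Ex hc).1
      have h4 := hqa.1
      linarith
    · have h3 := h2.1
      have h4 := hqa.1
      linarith
    · have h4 := hqa.2
      linarith
  · rw [mem_ball] at hz ⊢
    have h1 := dist_triangle z p y
    rw [dist_comm p y] at h1
    linarith

/-- Shielding: the component of a point of the main component near a hidden point of `L` on the
inner circle does not reach the exposed arc of the approximating continuum. -/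
theorem shield (hL : Cont r L) (hLs : ∀ k, Cont r (Ls k)) (hH : HL Ls L) {p : ℂ} (hpL : p ∈ L)
    (hp : ‖p‖ = r) {ρ : ℝ} (hdis : Disjoint (closedBall p ρ) (closure (Ex r L))) {z : ℂ}
    (hz : z ∈ main r L) (hzb : z ∈ ball p ρ) :
    ∀ᶠ k in atTop, z ∈ main r (Ls k) ∧ ∀ q ∈ Ex r (Ls k), q ∈ ball p ρ →
      q ∉ closure (connectedComponentIn (main r (Ls k) ∩ ball p ρ) z) := by
  have h0 := hL.r0
  have h1 := hL.r1
  obtain ⟨t₁, t₂, ht1, ht2, ht12, he1, he2, hE, hcE, hhid⟩ := hL.exc ⟨p, hpL, hp⟩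
  have hir : (r * exp (I * (π / 2 : ℝ)) : ℂ) = I * r := by
    have : I * ((π / 2 : ℝ) : ℂ) = π / 2 * I := by push_cast; ring
    rw [this, exp_pi_div_two_mul_I]
    ring
  have hirn : ‖(I * r : ℂ)‖ = r := by simp [abs_of_pos h0]
  have hirE : (I * r : ℂ) ∈ Ex r L := hL.upper_Ex hirn (by simpa using h0)
  obtain ⟨γ₁, hγ₁c, hγ₁0, hγ₁1, hγ₁m⟩ := path_to_bd h0 h1 hL.isOpen_main (preconn_main r L)
    (main_ann r L) (Or.inl hirn) (hL.ev_main hirE.2.2 hirE.2.1) hz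
  have hΓc : IsCompact (γ₁ '' Icc 0 1) := isCompact_Icc.image hγ₁c
  have hΓL : ∀ x ∈ γ₁ '' Icc 0 1, x ∉ L := by
    rintro x ⟨t, ht, rfl⟩
    rcases eq_or_lt_of_le ht.2 with h2 | h2
    · rw [h2, hγ₁1]
      exact hirE.2.1
    · exact (main_sub r L (hγ₁m t ⟨ht.1, h2⟩)).2
  set O : Set ℂ := (γ₁ '' Icc 0 1 ∪ closedBall p ρ)ᶜ with hO
  have hOo : IsOpen O := (hΓc.isClosed.union isClosed_closedBall).isOpen_compl
  have hmemO : ∀ e ∈ L, e ∈ closure (Ex r L) → e ∈ O := by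
    intro e heL hec hc
    rcases hc with hc | hc
    · exact hΓL e hc heL
    · exact Set.disjoint_left.1 hdis hc hec
  have he1c : (r * exp (I * t₁) : ℂ) ∈ closure (Ex r L) := by
    rw [hcE]
    exact ⟨t₁, ⟨le_rfl, by linarith [Real.pi_pos]⟩, rfl⟩
  have he2c : (r * exp (I * t₂) : ℂ) ∈ closure (Ex r L) := by
    rw [hcE]
    exact ⟨t₂, ⟨by linarith [Real.pi_pos], le_rfl⟩, rfl⟩
  obtain ⟨V₁, hV₁o, hV₁m, hV₁s, -, hV₁c, -⟩ :=
    loc_conn h0 h1 (hL.sub he1) (hOo.mem_nhds (hmemO _ he1 he1c))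
  obtain ⟨V₂, hV₂o, hV₂m, hV₂s, -, hV₂c, -⟩ :=
    loc_conn h0 h1 (hL.sub he2) (hOo.mem_nhds (hmemO _ he2 he2c))
  obtain ⟨ε₁, hε₁, hb₁⟩ := Metric.isOpen_iff.1 hV₁o _ hV₁m
  obtain ⟨ε₂, hε₂, hb₂⟩ := Metric.isOpen_iff.1 hV₂o _ hV₂m
  filter_upwards [hH.kern hL isCompact_singleton (singleton_subset_iff.2 hz),
    hH.near he1 hε₁, hH.near he2 hε₂,
    hH.sub_open hL.cpt hΓc.isClosed.isOpen_compl (fun x hx hc => hΓL x hc hx)]
    with k hk1 hk2 hk3 hk4
  have hzk : z ∈ main r (Ls k) := hk1 rfl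
  refine ⟨hzk, fun q hq hqb hqc => ?_⟩
  set V := connectedComponentIn (main r (Ls k) ∩ ball p ρ) z with hV
  have hUo : IsOpen (main r (Ls k) ∩ ball p ρ) := (hLs k).isOpen_main.inter isOpen_ball
  have hVo : IsOpen V := hUo.connectedComponentIn
  have hVs : V ⊆ main r (Ls k) ∩ ball p ρ := connectedComponentIn_subset _ _
  have hVa : V ⊆ ann r := fun x hx => main_ann _ _ (hVs hx).1
  have hzV : z ∈ V := mem_connectedComponentIn ⟨hzk, hzb⟩
  have hqcann : q ∈ cann r := ⟨hq.1.ge, by rw [hq.1]; exact h1.le⟩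
  have hev : ∀ᶠ y in 𝓝[ann r] q, y ∈ V := by
    have h2 := (hLs k).ev_main hq.2.2 hq.2.1
    rw [eventually_nhdsWithin_iff] at h2
    have h3 : {y | y ∈ ann r → y ∈ main r (Ls k)} ∩ ball p ρ ∈ 𝓝 q :=
      inter_mem h2 (isOpen_ball.mem_nhds hqb)
    obtain ⟨V₀, hV₀o, hV₀m, hV₀s, hV₀c, -, -⟩ := loc_conn h0 h1 hqcann h3
    obtain ⟨x, hx1, hx2⟩ := mem_closure_iff.1 hqc V₀ hV₀o hV₀m
    have h4 : V₀ ∩ ann r ⊆ V := by
      have h5 : V₀ ∩ ann r ⊆ main r (Ls k) ∩ ball p ρ :=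
        fun y hy => ⟨(hV₀s hy.1).1 hy.2, (hV₀s hy.1).2⟩
      have h6 := hV₀c.subset_connectedComponentIn (x := x) ⟨hx1, hVa hx2⟩ h5
      rwa [← connectedComponentIn_eq hx2] at h6
    rw [eventually_nhdsWithin_iff]
    filter_upwards [hV₀o.mem_nhds hV₀m] with y hy hya
    exact h4 ⟨hy, hya⟩
  obtain ⟨γ₂, hγ₂c, hγ₂0, hγ₂1, hγ₂m⟩ := path_to_bd h0 h1 hVo isPreconnected_connectedComponentIn
    hVa (Or.inl hq.1) hev hzV
  have hqn : q ∉ closure (Ex r L) :=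
    Set.disjoint_left.1 hdis (ball_subset_closedBall hqb)
  have hqh : q ∈ sphere (0 : ℂ) r \ Ex r L :=
    ⟨mem_sphere_zero_iff_norm.2 hq.1, fun hc => hqn (subset_closure hc)⟩
  rw [hhid] at hqh
  obtain ⟨θ, hθ, hθq⟩ := hqh
  have hper : (r * exp (I * ((t₁ + 2 * π : ℝ) : ℂ)) : ℂ) = r * exp (I * t₁) := by
    have : I * ((t₁ + 2 * π : ℝ) : ℂ) = I * t₁ + 2 * π * I := by push_cast; ring
    rw [this, exp_add, exp_two_pi_mul_I, mul_one]
  have hθ1 : t₂ < θ := by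
    refine lt_of_le_of_ne hθ.1 fun hc => hqn ?_
    rw [← hθq, ← hc]
    exact he2c
  have hθ2 : θ < t₁ + 2 * π := by
    refine lt_of_le_of_ne hθ.2 fun hc => hqn ?_
    rw [← hθq, hc]
    simp only
    rw [hper]
    exact he1c
  set γ : ℝ → ℂ := fun t => if t ≤ 1 / 2 then γ₁ (1 - 2 * t) else γ₂ (2 * t - 1) with hγ
  have hγc : Continuous γ := by
    refine Continuous.if_le (hγ₁c.comp (by fun_prop)) (hγ₂c.comp (by fun_prop)) continuous_id
      continuous_const ?_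
    intro t ht
    simp only [ht]
    norm_num [hγ₁0, hγ₂0]
  set K : Set ℂ := (Ls k ∪ V₁ ∩ cann r) ∪ V₂ ∩ cann r with hK
  have hKc : IsPreconnected K := by
    obtain ⟨y₁, hy₁, hy₁d⟩ := hk2
    obtain ⟨y₂, hy₂, hy₂d⟩ := hk3
    refine IsPreconnected.union y₂ (Or.inl hy₂) ⟨hb₂ hy₂d, (hLs k).sub hy₂⟩ ?_ hV₂c
    exact IsPreconnected.union y₁ hy₁ ⟨hb₁ hy₁d, (hLs k).sub hy₁⟩ (hLs k).conn hV₁c
  have hKO : ∀ x ∈ K, x ∈ Ls k ∨ x ∈ O := by
    rintro x ((hx | hx) | hx)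
    · exact Or.inl hx
    · exact Or.inr (hV₁s hx.1)
    · exact Or.inr (hV₂s hx.1)
  obtain ⟨t, ht, htK⟩ := cross (c := 0) h0 (θ₁ := π / 2) (θ₂ := t₂) (θ₃ := θ) (θ₄ := t₁ + 2 * π)
    (by linarith [Real.pi_pos]) hθ1 hθ2 (by linarith [Real.pi_pos]) (γ := γ) hγc.continuousOn
    (by simp only [hγ]; rw [zero_add, hir, if_pos (by norm_num), ← hγ₁1]; norm_num)
    (by simp only [hγ]; rw [zero_add, if_neg (by norm_num)]; norm_num [hγ₂1, ← hθq])
    (by
      intro t ht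
      rw [sub_zero]
      simp only [hγ]
      split_ifs with h2
      · exact (main_ann r L (hγ₁m _ ⟨by linarith, by linarith [ht.1]⟩)).1
      · exact (hVa (hγ₂m _ ⟨by linarith, by linarith [ht.2]⟩)).1)
    (K := K) hKc
    (by
      rintro x ((hx | hx) | hx) <;> rw [sub_zero]
      · exact ((hLs k).sub hx).1
      · exact hx.2.1
      · exact hx.2.1)
    (by rw [zero_add]; exact Or.inr ⟨hV₂m, hL.sub he2⟩)
    (by rw [zero_add, hper]; exact Or.inl (Or.inr ⟨hV₁m, hL.sub he1⟩))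
  simp only [hγ] at htK
  split_ifs at htK with h2
  · have h3 : γ₁ (1 - 2 * t) ∈ γ₁ '' Icc 0 1 := ⟨_, ⟨by linarith, by linarith [ht.1]⟩, rfl⟩
    rcases hKO _ htK with h4 | h4
    · exact hk4 h4 h3
    · exact h4 (Or.inl h3)
  · rcases eq_or_lt_of_le ht.2 with h5 | h5
    · have h6 : γ₂ (2 * t - 1) = q := by rw [h5, ← hγ₂1]; norm_num
      rw [h6] at htK
      rcases hKO _ htK with h4 | h4
      · exact hq.2.1 h4
      · exact h4 (Or.inr (ball_subset_closedBall hqb))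
    · have h6 := hVs (hγ₂m (2 * t - 1) ⟨by linarith, by linarith⟩)
      rcases hKO _ htK with h4 | h4
      · exact (main_sub r _ h6.1).2 h4
      · exact h4 (Or.inr (ball_subset_closedBall h6.2))

/-- The estimate at a hidden point of `L` on the inner circle. -/
theorem est_L3 (h : S_BL) (hL : Cont r L) (hLs : ∀ k, Cont r (Ls k)) (hH : HL Ls L)
    (hs : ∀ k, Sol r A B (Ls k) (vs k)) {p : ℂ} (hpL : p ∈ L) (hp : ‖p‖ = r)
    (hpE : p ∉ closure (Ex r L)) {ε : ℝ} (hε : 0 < ε) :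
    ∃ ρ > 0, ∀ z ∈ ball p ρ ∩ main r L, ∀ᶠ k in atTop, |vs k z - 0| ≤ ε := by
  obtain ⟨δ, hδ0, hδ1, hδ⟩ := bl2 h _ (Mpos A B) hε
  have h0 := hL.r0
  have h1 := hL.r1
  obtain ⟨ρ₀, hρ₀, hsub⟩ := Metric.isOpen_iff.1 isClosed_closure.isOpen_compl p hpE
  set ρ := min (ρ₀ / 2) (min r (1 - r)) with hρdef
  have hρ : 0 < ρ := lt_min (by linarith) (lt_min h0 (by linarith))
  have hρ1 : ρ ≤ ρ₀ / 2 := min_le_left _ _
  have hρ2 : ρ ≤ r := (min_le_right _ _).trans (min_le_left _ _)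
  have hρ3 : ρ ≤ 1 - r := (min_le_right _ _).trans (min_le_right _ _)
  have hle : δ * ρ ≤ ρ := by nlinarith
  have hdis : Disjoint (closedBall p ρ) (closure (Ex r L)) := by
    rw [Set.disjoint_left]
    intro x hx
    exact hsub (closedBall_subset_ball (by linarith) hx)
  refine ⟨δ * ρ, mul_pos hδ0 hρ, fun z hz => ?_⟩
  have hzb : z ∈ ball p ρ := ball_subset_ball hle hz.1
  filter_upwards [shield hL hLs hH hpL hp hdis hz.2 hzb] with k hk
  set V := connectedComponentIn (main r (Ls k) ∩ ball p ρ) z with hV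
  have hUo : IsOpen (main r (Ls k) ∩ ball p ρ) := (hLs k).isOpen_main.inter isOpen_ball
  have hVo : IsOpen V := hUo.connectedComponentIn
  have hVs : V ⊆ main r (Ls k) ∩ ball p ρ := connectedComponentIn_subset _ _
  have hVm : V ⊆ main r (Ls k) := fun x hx => (hVs hx).1
  have hzV : z ∈ V := mem_connectedComponentIn ⟨hk.1, hzb⟩
  refine hδ p ρ (sphere 0 r) V (closure (Ex r (Ls k)) \ Ex r (Ls k)) (vs k) 0 hρ
    (isCompact_sphere _ _) (preconn_sphere r) (mem_sphere_zero_iff_norm.2 hp)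
    (sphere_not_sub hp (by linarith)) hVo
    (disj_sphere (Or.inl rfl) (hVm.trans (main_ann _ _))) (hLs k).exc_finite
    (fun y hy => (hs k).harm y (hVm hy))
    (fun y _ => abs_sub_bd (hLs k) (hs k) (abs_zero_le A B) y) ?_ z hzV hz.1
  intro q hq hqb hqS
  rw [hVo.frontier_eq] at hq
  have hqW : q ∉ main r (Ls k) := by
    intro hc
    apply hq.2
    have h2 : q ∈ main r (Ls k) ∩ ball p ρ := ⟨hc, hqb⟩
    have h3 : IsOpen (connectedComponentIn (main r (Ls k) ∩ ball p ρ) q) :=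
      hUo.connectedComponentIn
    obtain ⟨x, hx1, hx2⟩ := mem_closure_iff.1 hq.1 _ h3 (mem_connectedComponentIn h2)
    have h4 := (connectedComponentIn_eq hx1).trans (connectedComponentIn_eq hx2).symm
    rw [hV, ← h4]
    exact mem_connectedComponentIn h2
  have hqf : q ∈ frontier (main r (Ls k)) := by
    rw [(hLs k).isOpen_main.frontier_eq]
    exact ⟨closure_mono hVm hq.1, hqW⟩
  rcases ((hLs k).frontier_sub hqf).2.2 with h2 | h2 | h2
  · refine ((hs k).atL q h2 fun hc => hqS ⟨hc, fun hc' => hc'.2.1 h2⟩).mono_left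
      (nhdsWithin_mono _ hVm)
  · exact absurd hq.1 (hk.2 q h2 hqb)
  · have := norm_lt_of_ball hqb
    rw [hp] at this
    linarith

theorem tendsto_of_est {l : Filter ℕ} [l.NeBot] (hl : l ≤ atTop) {W : Set ℂ} {f : ℂ → ℝ}
    (hf : ∀ z, Tendsto (fun k => vs k z) l (𝓝 (f z))) {p : ℂ} {c : ℝ}
    (h : ∀ ε > 0, ∃ ρ > 0, ∀ z ∈ ball p ρ ∩ W, ∀ᶠ k in atTop, |vs k z - c| ≤ ε) :
    Tendsto (W.indicator f) (𝓝[W] p) (𝓝 c) := by
  rw [Metric.tendsto_nhdsWithin_nhds]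
  intro ε hε
  obtain ⟨ρ, hρ, h1⟩ := h (ε / 2) (by linarith)
  refine ⟨ρ, hρ, fun z hz hzp => ?_⟩
  rw [indicator_of_mem hz, Real.dist_eq]
  have h2 : Tendsto (fun k => |vs k z - c|) l (𝓝 |f z - c|) := ((hf z).sub_const c).abs
  have h3 := le_of_tendsto h2 ((h1 z ⟨hzp, hz⟩).filter_mono hl)
  linarith

theorem loc_bd (hL : Cont r L) (hLs : ∀ k, Cont r (Ls k)) (hH : HL Ls L)
    (hs : ∀ k, Sol r A B (Ls k) (vs k)) {l : Filter ℕ} (hl : l ≤ atTop) :
    ∀ z ∈ main r L, ∃ ρ > 0, ∃ M : ℝ, ∀ᶠ i in l,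
      HarmonicOnNhd (vs i) (ball z ρ) ∧ ∀ y ∈ ball z ρ, |vs i y| ≤ M := by
  intro z hz
  obtain ⟨ρ, hρ, hsub⟩ := nhds_basis_closedBall.mem_iff.1 (hL.isOpen_main.mem_nhds hz)
  refine ⟨ρ, hρ, max |A| |B|, Eventually.filter_mono hl ?_⟩
  filter_upwards [hH.kern hL (isCompact_closedBall z ρ) hsub] with k hk
  exact ⟨fun y hy => (hs k).harm y (hk (ball_subset_closedBall hy)),
    fun y _ => (hs k).abs_le (hLs k) y⟩

theorem sol_limit (h : S_BL) (hL : Cont r L) (hLs : ∀ k, Cont r (Ls k)) (hH : HL Ls L)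
    (hA : OK A L) (hs : ∀ k, Sol r A B (Ls k) (vs k)) {l : Filter ℕ} [l.NeBot] (hl : l ≤ atTop)
    {f : ℂ → ℝ} (hf : ∀ z, Tendsto (fun k => vs k z) l (𝓝 (f z))) :
    Sol r A B L ((main r L).indicator f) where
  harm := by
    have h1 := (harm_limit hL.isOpen_main (loc_bd hL hLs hH hs hl) fun z _ => hf z).1
    intro z hz
    refine (harmonicAt_congr_nhds ?_).2 (h1 z hz)
    filter_upwards [hL.isOpen_main.mem_nhds hz] with y hy
    exact indicator_of_mem hy f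
  bdd := by
    refine ⟨max |A| |B|, fun z => ?_⟩
    by_cases hz : z ∈ main r L
    · rw [indicator_of_mem hz]
      exact le_of_tendsto (hf z).abs (Eventually.of_forall fun k => (hs k).abs_le (hLs k) z)
    · rw [indicator_of_notMem hz]
      exact abs_zero_le A B
  off := fun z hz => indicator_of_notMem hz f
  atL := by
    intro p hp hpE
    refine tendsto_of_est hl hf fun ε hε => ?_
    have h1 := hL.sub hp
    rcases eq_or_lt_of_le h1.1 with h2 | h2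
    · exact est_L3 h hL hLs hH hs hp h2.symm hpE hε
    rcases eq_or_lt_of_le h1.2 with h3 | h3
    · have hA0 : A = 0 := by
        rcases hA with hA | hA
        · exact hA
        · exact absurd (hA p hp) (by rw [h3]; exact lt_irrefl _)
      obtain ⟨ρ, hρ, h4⟩ := est_L1 h hL hLs hA0 hs h3 hε
      exact ⟨ρ, hρ, fun z hz => Eventually.of_forall fun k => h4 k z hz.1⟩
    · obtain ⟨ρ, hρ, h4⟩ := est_L2 h hL hLs hH hs hp ⟨h2, h3⟩ hε
      exact ⟨ρ, hρ, fun z hz => h4.mono fun k hk => hk z hz.1⟩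
  atA := by
    intro p hp hpL
    refine tendsto_of_est hl hf fun ε hε => ?_
    by_cases hpc : p ∈ closure (main r L)
    · obtain ⟨ρ, hρ, h4⟩ := est_A h hL hLs hH hs hp hpL hpc hε
      exact ⟨ρ, hρ, fun z hz => h4.mono fun k hk => hk z ⟨hz.1, main_ann _ _ hz.2⟩⟩
    · obtain ⟨ρ, hρ, hsub⟩ := Metric.isOpen_iff.1 isClosed_closure.isOpen_compl p hpc
      exact ⟨ρ, hρ, fun z hz => absurd (subset_closure hz.2) (hsub hz.1)⟩
  atB := by
    intro p hp
    refine tendsto_of_est hl hf fun ε hε => ?_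
    obtain ⟨ρ, hρ, h4⟩ := est_Ex h hL hLs hH hs hp hε
    exact ⟨ρ, hρ, fun z hz => h4.mono fun k hk => hk z ⟨hz.1, main_ann _ _ hz.2⟩⟩

end LimP

open LimP in
theorem lim (h : S_BL) : S_LIM := by
  intro r A B Ls L vs v hL hLs hH hA _ hs hv
  refine ⟨?_, fun p hp ε hε => est_Ex h hL hLs hH hs hp hε⟩
  refine (harm_limit hL.isOpen_main (loc_bd hL hLs hH hs le_rfl) fun z hz => ?_).2.1
  rw [tendsto_iff_ultrafilter]
  intro U hU
  have hex : ∀ y : ℂ, ∃ a : ℝ, Tendsto (fun k => vs k y) U (𝓝 a) := by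
    intro y
    have h1 : (↑(U.map fun k => vs k y) : Filter ℝ) ≤
        𝓟 (Icc (-(max |A| |B|)) (max |A| |B|)) := by
      rw [le_principal_iff, Ultrafilter.coe_map, mem_map]
      exact Eventually.of_forall fun k => abs_le.1 ((hs k).abs_le (hLs k) y)
    obtain ⟨a, -, ha⟩ := isCompact_Icc.ultrafilter_le_nhds _ h1
    exact ⟨a, ha⟩
  choose f hf using hex
  have h1 := (sol_limit h hL hLs hH hA hs hU hf).unique hL hv
  have h2 : f z = v z := by rw [← h1, indicator_of_mem hz]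
  rw [← h2]
  exact hf z

end Pool.Agent.P.MP_3bd355_an
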