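import Pool.Agent.P.MP_3bd355_an.Stmts

/-! The multiplier rule. -/

open Set Filter Metric Complex InnerProductSpace
open scoped Topology ComplexConjugate Real

namespace Pool.Agent.P.MP_3bd355_an

namespace LinP

/-- The real part of the product with a fixed number. -/
noncomputable def reMul (X : ℂ) : ℂ →ₗ[ℝ] ℝ where
  toFun a := (a * X).re
  map_add' a b := by simp [add_mul]
  map_smul' c a := by simp [mul_assoc]

/-- The linear functionals on the space of variations. -/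
noncomputable def Lf (S : Set ℂ) (X : ℂ → ℂ) (t : ℝ) :
    (Finsupp.supported ℂ ℝ S × ℝ) →ₗ[ℝ] ℝ :=
  ((Finsupp.lsum ℝ (fun ζ => reMul (X ζ))).comp (Finsupp.supported ℂ ℝ S).subtype).comp
      (LinearMap.fst ℝ _ _) + t • LinearMap.snd ℝ _ _

theorem Lf_apply (S : Set ℂ) (X : ℂ → ℂ) (t : ℝ) (x : Finsupp.supported ℂ ℝ S × ℝ) :
    Lf S X t x = ∑ ζ ∈ x.1.1.support, (x.1.1 ζ * X ζ).re + t * x.2 := by
  simp [Lf, Finsupp.sum, reMul]

theorem Lf_single (S : Set ℂ) (X : ℂ → ℂ) (t : ℝ) {ζ : ℂ} (hζ : ζ ∈ S) (a : ℂ) :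
    Lf S X t (⟨Finsupp.single ζ a, Finsupp.single_mem_supported ℝ a hζ⟩, 0) = (a * X ζ).re := by
  simp [Lf, reMul]

theorem Lf_one (S : Set ℂ) (X : ℂ → ℂ) (t : ℝ) : Lf S X t (0, 1) = t := by
  simp [Lf]

theorem eq_of_re {X Y : ℂ} (h : ∀ a : ℂ, (a * X).re = (a * Y).re) : X = Y := by
  have h1 := h 1
  have h2 := h I
  apply Complex.ext
  · simpa using h1
  · simpa using h2

theorem re_rho (r : ℝ) {z : ℂ} (hz : z ≠ 0) {Z : Finset ℂ} (hZ : ∀ ζ ∈ Z, ζ ≠ 0) (a : ℂ → ℂ)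
    (c₀ : ℝ) (X : ℂ) : (X * rho r Z a c₀ z).re =
      ∑ ζ ∈ Z, (a ζ * (-X * vk r (ζ / z) + conj X * vk r (ζ * conj z))).re + (-X.im) * c₀ := by
  unfold rho
  rw [mul_add, Finset.mul_sum, add_re, re_sum, add_comm]
  congr 1
  · exact Finset.sum_congr rfl fun ζ hζ => re_field r hz (hZ ζ hζ) X (a ζ)
  · simp

theorem dp_harm {W : Set ℂ} {H : ℂ → ℂ → ℝ} (hH : Grn W H) {ζ : ℂ} (hζ : ζ ∈ W) (β : ℂ) {z : ℂ}
    (hz : z ∈ W) (hne : z ≠ ζ) : HarmonicAt (dp H β ζ) z := by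
  have h1 := hH.dharm ζ hζ β z hz
  have h2 : AnalyticAt ℂ (fun y : ℂ => β / (y - ζ)) z :=
    analyticAt_const.div (analyticAt_id.sub analyticAt_const) (sub_ne_zero.2 hne)
  have h3 := h2.harmonicAt_re
  exact h1.add h3

theorem DD_harm {W : Set ℂ} {H : ℂ → ℂ → ℝ} (hH : Grn W H) (v : ℂ → ℝ) {Z : Finset ℂ}
    (hZ : ∀ ζ ∈ Z, ζ ∈ W) (a : ℂ → ℂ) : HarmonicOnNhd (DD H v Z a) (W \ Z) := by
  intro z hz
  have h := harm_const_mul (harm_sum Z (u := fun ζ => dp H (2 * a ζ * ζ ^ 2 * grad v ζ) ζ)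
    (fun ζ hζ => dp_harm hH (hZ ζ hζ) _ hz.1 (fun e => hz.2 (by simpa [e] using hζ)))) (-1)
  have e : DD H v Z a = fun y => -1 * ∑ ζ ∈ Z, dp H (2 * a ζ * ζ ^ 2 * grad v ζ) ζ y := by
    funext y
    simp [DD]
  rw [e]
  exact h

theorem DD_bd {W : Set ℂ} {H : ℂ → ℂ → ℝ} (hH : Grn W H) (v : ℂ → ℝ) {Z : Finset ℂ}
    (hZ : ∀ ζ ∈ Z, ζ ∈ W) (a : ℂ → ℂ) {p : ℂ} (hp : p ∈ frontier W) :
    Tendsto (DD H v Z a) (𝓝[W] p) (𝓝 0) := by
  have h := (tendsto_finsetSum Z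
    (fun ζ hζ => hH.dbd ζ (hZ ζ hζ) (2 * a ζ * ζ ^ 2 * grad v ζ) p hp)).neg
  simp only [Finset.sum_const_zero, neg_zero] at h
  exact h

theorem DD_lim {W : Set ℂ} {F : ℂ → ℂ} {H : ℂ → ℂ → ℝ} {y : ℝ} {k : ℂ → ℝ} (hk : Mart W F H y k)
    (v : ℂ → ℝ) {Z : Finset ℂ} (hZ : ∀ ζ ∈ Z, ζ ∈ W) (a : ℂ → ℂ) :
    Tendsto (fun τ : ℝ => DD H v Z a (F (y + τ * I)) / τ) (𝓝[>] 0)
      (𝓝 (∑ ζ ∈ Z, (a ζ * (-(2 * ζ ^ 2 * grad v ζ * grad k ζ))).re)) := by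
  have h := (tendsto_finsetSum Z
    (fun ζ hζ => hk.dlim ζ (hZ ζ hζ) (2 * a ζ * ζ ^ 2 * grad v ζ))).neg
  have e : (∑ ζ ∈ Z, (a ζ * (-(2 * ζ ^ 2 * grad v ζ * grad k ζ))).re) =
      -∑ ζ ∈ Z, (2 * a ζ * ζ ^ 2 * grad v ζ * grad k ζ).re := by
    rw [← Finset.sum_neg_distrib]
    refine Finset.sum_congr rfl fun ζ _ => ?_
    rw [← neg_re]
    congr 1
    ring
  rw [e]
  refine h.congr fun τ => ?_
  simp only [DD, neg_div, Finset.sum_div]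

theorem DD_val {W : Set ℂ} {H : ℂ → ℂ → ℝ} (hH : Grn W H) (v : ℂ → ℝ) {Z : Finset ℂ} {z₀ : ℂ}
    (h0 : z₀ ∈ W) (hZ : ∀ ζ ∈ Z, ζ ∈ W ∧ ζ ≠ z₀) (a : ℂ → ℂ) :
    DD H v Z a z₀ = ∑ ζ ∈ Z, (a ζ * (-(2 * ζ ^ 2 * grad v ζ * grad (gr H z₀) ζ))).re := by
  unfold DD
  rw [← Finset.sum_neg_distrib]
  refine Finset.sum_congr rfl fun ζ hζ => ?_
  rw [hH.dgrad ζ (hZ ζ hζ).1 _ z₀ h0 (hZ ζ hζ).2.symm, ← neg_re]
  congr 1
  ring

theorem gr_harm {W : Set ℂ} {H : ℂ → ℂ → ℝ} (hH : Grn W H) {z₀ : ℂ} (h0 : z₀ ∈ W) {z : ℂ}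
    (hz : z ∈ W) (hne : z ≠ z₀) : HarmonicAt (gr H z₀) z :=
  (hH.harm z₀ h0 z hz).sub (harm_log hne)

theorem ne_zero_of_ann {r : ℝ} (h0 : 0 < r) {z : ℂ} (hz : z ∈ ann r) : z ≠ 0 := by
  rintro rfl
  have := hz.1
  simp at this
  linarith

/-- Extension of the identity from the upper half annulus. -/
theorem extend {r : ℝ} {L : Set ℂ} (hL : Cont r L) {z₀ : ℂ} {f g : ℂ → ℂ}
    (hf : AnalyticOnNhd ℂ f (main r L \ {z₀})) (hg : AnalyticOnNhd ℂ g (main r L \ {z₀}))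
    (h : ∀ z ∈ ann r ∩ upH, z ≠ z₀ → f z = g z) : EqOn f g (main r L \ {z₀}) := by
  have hU : IsOpen (ann r ∩ upH) :=
    (isOpen_ann r).inter (isOpen_lt continuous_const continuous_im)
  have hU' : IsOpen ((ann r ∩ upH) \ {z₀}) := hU.sdiff isClosed_singleton
  have hb := base_mem hL.r0 hL.r1
  obtain ⟨p, hp⟩ : ((ann r ∩ upH) \ {z₀}).Nonempty := by
    have hinf : (ann r ∩ upH).Infinite := infinite_of_mem_nhds _ (hU.mem_nhds hb)
    exact (hinf.sdiff (finite_singleton z₀)).nonempty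
  refine hf.eqOn_of_preconnected_of_eventuallyEq hg
    (preconn_diff_finite hL.isOpen_main (preconn_main r L) (finite_singleton z₀))
    (z₀ := p) ⟨hL.upper_sub hp.1, hp.2⟩ ?_
  filter_upwards [hU'.mem_nhds hp] with z hz using h z hz.1 hz.2

end LinP

open LinP

theorem lin (hM : S_MART) (hP : S_POSV) (hV : S_VARB) (hS : S_SC) (hG : S_GORDAN) : S_LIN := by
  classical
  intro r A B z₀ z₁ m L v φ F h s0 s1 H hE hF hH
  obtain ⟨K, hK⟩ := hS r A B z₁ L v hE.cfg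
  have hL := hE.cfg.cont
  have h0 : z₀ ∈ main r L := hE.mem0
  have hWa : ∀ z ∈ main r L, z ∈ ann r := fun z hz => (main_sub r L hz).1
  have hz0 : z₀ ≠ 0 := ne_zero_of_ann hL.r0 hE.hyp.m0
  have hz1 : z₁ ≠ 0 := ne_zero_of_ann hL.r0 hE.hyp.m1
  choose k hk using fun y : ℝ => hM r L φ F h H y hF.unif hH
  obtain ⟨Y, hY⟩ : ∃ Y : Finset ℝ,
      ∀ y, y ∈ Y ↔ y ∈ Zer v F s0 s1 ∧ y ∈ Icc s0 s1 ∧ y < s0 + 2 * π := by
    refine ⟨hF.pv.fin.toFinset.filter (fun y => y < s0 + 2 * π), fun y => ?_⟩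
    simp only [Finset.mem_filter, Finite.mem_toFinset, mem_inter_iff, and_assoc]
  obtain ⟨S, hS'⟩ : ∃ S : Set ℂ, ∀ z, z ∈ S ↔ z ∈ main r L ∧ z ∉ K ∧ z ≠ z₀ :=
    ⟨{z | z ∈ main r L ∧ z ∉ K ∧ z ≠ z₀}, fun _ => Iff.rfl⟩
  obtain ⟨X0, hX0⟩ : ∃ X0 : ℂ, X0 = grad v z₀ * z₀ := ⟨_, rfl⟩
  obtain ⟨l, μ, hl0, hl1, hid⟩ := hG (Finsupp.supported ℂ ℝ S × ℝ) (Option Y) (Fin 3)
    (fun i => Option.elim i
      (Lf S (fun ζ => -(2 * ζ ^ 2 * grad v ζ * grad (gr H z₀) ζ) -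
        (-X0 * vk r (ζ / z₀) + conj X0 * vk r (ζ * conj z₀))) X0.im)
      (fun y => Lf S (fun ζ => -(2 * ζ ^ 2 * grad v ζ * grad (k y) ζ)) 0))
    ![Lf S (fun _ => 1) 0,
      Lf S (fun ζ => -1 * vk r (ζ / z₁) + conj 1 * vk r (ζ * conj z₁)) (-(1 : ℂ).im),
      Lf S (fun ζ => -(-I) * vk r (ζ / z₁) + conj (-I) * vk r (ζ * conj z₁)) (-(-I).im)] (by
      intro x hx
      have hZ : ∀ ζ ∈ x.1.1.support, ζ ∈ main r L ∧ ζ ∉ K ∧ ζ ≠ z₀ := fun ζ hζ =>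
        (hS' ζ).1 ((Finsupp.mem_supported ℝ _).1 x.1.2 hζ)
      have hZ0 : ∀ ζ ∈ x.1.1.support, ζ ≠ 0 := fun ζ hζ =>
        ne_zero_of_ann hL.r0 (hWa ζ (hZ ζ hζ).1)
      have g0 := hx 0
      have g1 := hx 1
      have g2 := hx 2
      simp only [Matrix.cons_val_zero, Matrix.cons_val_one, Matrix.cons_val_two, Matrix.head_cons,
        Matrix.tail_cons, Lf_apply] at g0 g1 g2
      rw [← re_rho r hz1 hZ0] at g1 g2
      have hrho : rho r x.1.1.support x.1.1 x.2 z₁ = 0 := by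
        apply Complex.ext
        · simpa using g1
        · simpa using g2
      by_contra hcon
      push Not at hcon
      have hpos := hP r A B z₁ L v (DD H v x.1.1.support x.1.1) φ F h s0 s1 x.1.1.support hF
        (fun ζ hζ => (hZ ζ hζ).1) (DD_harm hH v (fun ζ hζ => (hZ ζ hζ).1) _)
        (fun p hp => DD_bd hH v (fun ζ hζ => (hZ ζ hζ).1) _ hp) (by
          intro y hy1 hy2 hy3
          have hy := hcon (some ⟨y, (hY y).2 ⟨hy1, hy2, hy3⟩⟩)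
          simp only [Option.elim, Lf_apply, zero_mul, add_zero] at hy
          exact ⟨_, hy, DD_lim (hk y) v (fun ζ hζ => (hZ ζ hζ).1) _⟩)
      have hle := hV r A B z₀ z₁ m L K v H x.1.1.support x.1.1 x.2 hE hK hH hZ
        (by simpa using g0) hrho hpos
      have hn := hcon none
      simp only [Option.elim, Lf_apply, mul_sub, sub_re, Finset.sum_sub_distrib] at hn
      rw [DD_val hH v h0 (fun ζ hζ => ⟨(hZ ζ hζ).1, (hZ ζ hζ).2.2⟩), ← hX0,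
        re_rho r hz0 hZ0] at hle
      linarith)
  obtain ⟨lam, hlam⟩ : ∃ lam : ℝ → ℝ, ∀ y : Y, lam y = l (some y) :=
    ⟨fun y => if hy : y ∈ Y then l (some ⟨y, hy⟩) else 0, fun y => by simp⟩
  refine ⟨l none * X0 / 2, (μ 1 - I * μ 2) / 2, -μ 0 / 2, l none, Y, lam, k,
    fun y hy => (hY y).1 hy, fun y _ => hk y, hl0 none,
    fun y hy => by rw [hlam ⟨y, hy⟩]; exact hl0 _, ?_, ?_, ?_⟩
  · obtain ⟨i, hi⟩ := hl1
    cases i with
    | none => exact Or.inl hi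
    | some y => exact Or.inr ⟨y, y.2, by rw [hlam y]; exact hi⟩
  · have h1 := hid (0, 1)
    simp [Fintype.sum_option, Fin.sum_univ_three, Lf_one] at h1
    simp
    linarith
  · have key : ∀ ζ ∈ S, grad v ζ * (l none * grad (gr H z₀) ζ +
        ∑ y ∈ Y, (lam y : ℂ) * grad (k y) ζ) =
        QD r z₀ z₁ (l none * X0 / 2) ((μ 1 - I * μ 2) / 2) (-μ 0 / 2) ζ := by
      intro ζ hζ
      have hζ0 : ζ ≠ 0 := ne_zero_of_ann hL.r0 (hWa ζ ((hS' ζ).1 hζ).1)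
      have e : (l none : ℂ) * (-(2 * ζ ^ 2 * grad v ζ * grad (gr H z₀) ζ) -
          (-X0 * vk r (ζ / z₀) + conj X0 * vk r (ζ * conj z₀))) +
          ∑ y : Y, (l (some y) : ℂ) * -(2 * ζ ^ 2 * grad v ζ * grad (k y) ζ) =
          μ 0 * 1 + μ 1 * (-1 * vk r (ζ / z₁) + conj 1 * vk r (ζ * conj z₁)) +
            μ 2 * (-(-I) * vk r (ζ / z₁) + conj (-I) * vk r (ζ * conj z₁)) := by
        apply eq_of_re
        intro a
        have h1 := hid (⟨Finsupp.single ζ a, Finsupp.single_mem_supported ℝ a hζ⟩, 0)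
        simp only [Fintype.sum_option, Fin.sum_univ_three, Option.elim, Matrix.cons_val_zero,
          Matrix.cons_val_one, Matrix.cons_val_two, Matrix.head_cons, Matrix.tail_cons,
          Lf_single S _ _ hζ] at h1
        have hm : ∀ (t : ℝ) (X : ℂ), (a * (t * X)).re = t * (a * X).re := fun t X => by
          rw [mul_left_comm, re_ofReal_mul]
        simp only [mul_add a, Finset.mul_sum, add_re, re_sum, hm] at h1 ⊢
        exact h1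
      have e2 : ∑ y : Y, (l (some y) : ℂ) * -(2 * ζ ^ 2 * grad v ζ * grad (k y) ζ) =
          -(2 * ζ ^ 2 * grad v ζ) * ∑ y ∈ Y, (lam y : ℂ) * grad (k y) ζ := by
        rw [Finset.mul_sum, ← Finset.sum_coe_sort Y]
        refine Finset.sum_congr rfl fun y _ => ?_
        rw [hlam y]
        ring
      rw [e2] at e
      unfold QD
      rw [eq_div_iff (pow_ne_zero 2 hζ0)]
      simp only [map_div₀, map_mul, map_sub, conj_ofReal, conj_I, map_one, map_neg, map_ofNat,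
        ofReal_div, ofReal_neg, ofReal_ofNat] at e ⊢
      linear_combination (-1 / 2 : ℂ) * e
    intro ζ hζ hne
    refine extend hL (z₀ := z₀)
      (f := fun ζ => grad v ζ * (l none * grad (gr H z₀) ζ + ∑ y ∈ Y, (lam y : ℂ) * grad (k y) ζ))
      ?_ ?_ ?_ ⟨hζ, hne⟩
    · intro z hz
      refine (grad_analytic (hE.cfg.sol.harm z hz.1)).mul
        ((analyticAt_const.mul (grad_analytic (gr_harm hH h0 hz.1 hz.2))).add ?_)
      exact Finset.analyticAt_fun_sum Y fun y _ =>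
        analyticAt_const.mul (grad_analytic ((hk y).harm z hz.1))
    · intro z hz
      refine QD_analytic hL.r0 hL.r1 hE.hyp.m0 hE.hyp.m1 _ _ _ (ann_sub_cann r (hWa z hz.1)) hz.2
        (Or.inl ?_)
      rintro rfl
      exact (main_sub r L hz.1).2 hE.cfg.mem
    · intro z hz hne
      refine key z ((hS' z).2 ⟨hL.upper_sub hz, fun hzK => ?_, hne⟩)
      have h1 := hK.low z hzK
      have h2 : 0 < z.im := hz.2
      linarith

end Pool.Agent.P.MP_3bd355_an
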