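import Pool.Agent.P.MP_3bd355_an.Stmts

/-! Package `Loc1`: the local form of the uniformising map at a real point. -/

open Set Filter Metric Complex InnerProductSpace
open scoped Topology ComplexConjugate Real

namespace Pool.Agent.P.MP_3bd355_an

namespace Loc1P

theorem tend_real (x : ℝ) : Tendsto (fun t : ℝ => (t : ℂ)) (𝓝 x) (𝓝 (x : ℂ)) :=
  continuous_ofReal.tendsto x

/-- A root of a function that is real on the line and positive at `x`. -/
theorem exists_root {T : ℂ → ℂ} {x : ℝ} (hT : AnalyticAt ℂ T x)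
    (hr : ∀ᶠ t : ℝ in 𝓝 x, (T t).im = 0) (hp : 0 < (T x).re) {k : ℕ} (hk : k ≠ 0) :
    ∃ R : ℂ → ℂ, AnalyticAt ℂ R x ∧ (∀ᶠ t : ℝ in 𝓝 x, (R t).im = 0) ∧ 0 < (R x).re ∧
      ∀ᶠ η : ℂ in 𝓝 (x : ℂ), R η ^ k = T η := by
  have hpos : ∀ᶠ η : ℂ in 𝓝 (x : ℂ), 0 < (T η).re :=
    (continuous_re.continuousAt.comp hT.continuousAt).eventually (lt_mem_nhds hp)
  have hre : ∀ w : ℂ, w.im = 0 → 0 < w.re →
      exp (log w / k) = (Real.exp (Real.log w.re / k) : ℝ) := fun w h1 h2 => by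
    have e : w = (w.re : ℂ) := Complex.ext (by simp) (by simp [h1])
    rw [ofReal_exp, ofReal_div, ofReal_log h2.le, ← e, ofReal_natCast]
  refine ⟨fun η => exp (log (T η) / k), ?_, ?_, ?_, ?_⟩
  · exact ((hT.clog (Or.inl hp)).div_const).cexp
  · filter_upwards [hr, (tend_real x).eventually hpos] with t h1 h2
    rw [hre _ h1 h2, ofReal_im]
  · show 0 < (exp (log (T x) / k)).re
    rw [hre _ hr.self_of_nhds hp, ofReal_re]
    exact Real.exp_pos _
  · filter_upwards [hpos] with η h1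
    have h2 : T η ≠ 0 := fun h => by simp [h] at h1
    have h3 : (k : ℂ) ≠ 0 := by exact_mod_cast hk
    rw [← exp_nat_mul, mul_div_cancel₀ _ h3, exp_log h2]

/-- A primitive of `(η - x) ^ m * V` is the power of a real chart. -/
theorem exists_prim {V : ℂ → ℂ} {x : ℝ} (hV : AnalyticAt ℂ V x)
    (hr : ∀ᶠ t : ℝ in 𝓝 x, (V t).im = 0) (hp : 0 < (V x).re) (m : ℕ) :
    ∃ χ : ℂ → ℂ, RChart χ x ∧
      ∀ᶠ η : ℂ in 𝓝 (x : ℂ), HasDerivAt (fun w => χ w ^ (m + 1)) ((η - x) ^ m * V η) η := by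
  have hW : AnalyticAt ℂ (fun η : ℂ => (η - x) ^ m * V η) x :=
    ((analyticAt_id.sub analyticAt_const).pow m).mul hV
  obtain ⟨δ₁, hδ₁, h1⟩ := Metric.eventually_nhds_iff_ball.1 hW.eventually_analyticAt
  obtain ⟨P, hP0, hP⟩ := (DifferentiableOn.isExactOn_ball (f := fun η : ℂ => (η - x) ^ m * V η)
    (c := x) (r := δ₁) fun η hη => (h1 η hη).differentiableAt.differentiableWithinAt).with_val_at
    x 0
  have hPe : ∀ᶠ η : ℂ in 𝓝 (x : ℂ), HasDerivAt P ((η - x) ^ m * V η) η :=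
    eventually_of_mem (ball_mem_nhds _ hδ₁) hP
  have hPa : AnalyticAt ℂ P x :=
    analyticAt_iff_eventually_differentiableAt.2 (hPe.mono fun _ h => h.differentiableAt)
  have hV0 : V x ≠ 0 := fun h => by simp [h] at hp
  have ho1 : analyticOrderAt (deriv P) x = m :=
    hPa.deriv.analyticOrderAt_eq_natCast.2 ⟨V, hV, hV0, hPe.mono fun _ h => h.deriv⟩
  have ho2 : analyticOrderAt P x = (m + 1 : ℕ) := by
    have := hPa.analyticOrderAt_deriv_add_one
    rw [ho1] at this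
    simp only [hP0, sub_zero] at this
    rw [Nat.cast_add, Nat.cast_one]
    exact this.symm
  obtain ⟨T, hT, -, hPT⟩ := hPa.analyticOrderAt_eq_natCast.1 ho2
  simp only [smul_eq_mul] at hPT
  -- the value of `T` at `x`
  have hTx : (m + 1) * T x = V x := by
    have h2 : ∀ᶠ η : ℂ in 𝓝[≠] (x : ℂ), (m + 1) * T η + (η - x) * deriv T η = V η := by
      filter_upwards [nhdsWithin_le_nhds hPe, nhdsWithin_le_nhds hPT.eventually_nhds,
        nhdsWithin_le_nhds hT.eventually_analyticAt, self_mem_nhdsWithin] with η a1 a2 a3 a4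
      have a5 := (((hasDerivAt_id η).sub_const (x : ℂ)).pow (m + 1)).mul
        a3.differentiableAt.hasDerivAt
      have a6 := a1.unique (a5.congr_of_eventuallyEq a2)
      have a7 : (η - x) ^ m ≠ 0 := pow_ne_zero _ (sub_ne_zero.2 a4)
      refine mul_left_cancel₀ a7 ?_
      rw [a6]
      simp only [id, Pi.pow_apply, Nat.add_sub_cancel, Nat.cast_add, Nat.cast_one]
      ring
    have h3 : ContinuousAt (fun η : ℂ => (m + 1) * T η + (η - x) * deriv T η) x :=
      (continuousAt_const.mul hT.continuousAt).add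
        ((continuousAt_id.sub continuousAt_const).mul hT.deriv.continuousAt)
    have h4 := tendsto_nhds_unique_of_eventuallyEq (h3.tendsto.mono_left nhdsWithin_le_nhds)
      (hV.continuousAt.tendsto.mono_left nhdsWithin_le_nhds) h2
    simpa using h4
  have hm : (0 : ℝ) < m + 1 := by positivity
  have hTre : (m + 1) * (T x).re = (V x).re := by simpa using congrArg re hTx
  have hTim : (m + 1) * (T x).im = (V x).im := by simpa using congrArg im hTx
  -- `P` is real on the line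
  have hPr : ∀ᶠ t : ℝ in 𝓝 x, (P t).im = 0 := by
    obtain ⟨δ, hδ, h2⟩ := Metric.eventually_nhds_iff_ball.1 (hr.and ((tend_real x).eventually hPe))
    have h3 : ∀ t ∈ ball x δ, HasDerivAt (fun s : ℝ => (P s).im) 0 t := fun t ht => by
      have a1 := (imCLM.hasFDerivAt.comp_hasDerivAt t (h2 t ht).2.comp_ofReal)
      have a2 : imCLM (((t : ℂ) - x) ^ m * V t) = 0 := by
        rw [imCLM_apply, ← ofReal_sub, ← ofReal_pow, im_ofReal_mul, (h2 t ht).1, mul_zero]
      rw [a2] at a1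
      exact a1
    filter_upwards [ball_mem_nhds x hδ] with t ht
    have := isOpen_ball.is_const_of_deriv_eq_zero (convex_ball x δ).isPreconnected
      (fun s hs => (h3 s hs).differentiableAt.differentiableWithinAt)
      (fun s hs => (h3 s hs).deriv) ht (mem_ball_self hδ)
    simpa [hP0] using this
  have hTr : ∀ᶠ t : ℝ in 𝓝 x, (T t).im = 0 := by
    filter_upwards [hPr, (tend_real x).eventually hPT] with t a1 a2
    by_cases htx : t = x
    · rw [htx]
      rw [hr.self_of_nhds] at hTim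
      exact (mul_eq_zero.1 hTim).resolve_left hm.ne'
    · rw [a2, ← ofReal_sub, ← ofReal_pow, im_ofReal_mul] at a1
      exact (mul_eq_zero.1 a1).resolve_left (pow_ne_zero _ (sub_ne_zero.2 htx))
  have hTp : 0 < (T x).re := by
    by_contra h
    nlinarith [not_lt.1 h]
  obtain ⟨R, hR, hRr, hRp, hRk⟩ := exists_root hT hTr hTp (Nat.succ_ne_zero m)
  refine ⟨fun η => (η - x) * R η, ⟨(analyticAt_id.sub analyticAt_const).mul hR, by simp, ?_, ?_⟩,
    ?_⟩
  · filter_upwards [hRr] with t ht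
    rw [← ofReal_sub, im_ofReal_mul, ht, mul_zero]
  · have := (((hasDerivAt_id (x : ℂ)).sub_const (x : ℂ)).mul hR.differentiableAt.hasDerivAt).deriv
    have e : deriv (fun η : ℂ => (η - x) * R η) x = R x := by
      refine Eq.trans this ?_
      simp
    rwa [e]
  · filter_upwards [hPe, (hPT.and hRk).eventually_nhds] with η a1 a2
    refine a1.congr_of_eventuallyEq (a2.mono fun w hw => ?_)
    simp only [mul_pow]
    rw [hw.1, ← hw.2]

theorem half_conv (x δ : ℝ) : Convex ℝ (ball (x : ℂ) δ ∩ upH) :=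
  (convex_ball _ _).inter (convex_halfSpace_im_gt 0)

/-- The differential equation `g' ^ 2 = -4 P' ^ 2 g` has the solution `g = - P ^ 2`. -/
theorem ode {g P W : ℂ → ℂ} {x : ℝ}
    (h : ∀ᶠ η : ℂ in 𝓝[upH] (x : ℂ), AnalyticAt ℂ g η ∧ g η ≠ 0 ∧ AnalyticAt ℂ W η ∧ W η ≠ 0 ∧
      HasDerivAt P (W η) η ∧ deriv g η ^ 2 = -4 * W η ^ 2 * g η)
    (hg : Tendsto g (𝓝[upH] (x : ℂ)) (𝓝 0)) (hP : Tendsto P (𝓝[upH] (x : ℂ)) (𝓝 0)) :
    ∀ᶠ η : ℂ in 𝓝[upH] (x : ℂ), g η = -P η ^ 2 := by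
  obtain ⟨δ, hδ, h1⟩ := Metric.mem_nhdsWithin_iff.1 h
  have hD : ball (x : ℂ) δ ∩ upH ∈ 𝓝[upH] (x : ℂ) := Metric.mem_nhdsWithin_iff.2 ⟨δ, hδ, Subset.rfl⟩
  have hO : IsOpen (ball (x : ℂ) δ ∩ upH) := isOpen_ball.inter isOpen_upH
  set u : ℂ → ℂ := fun η => deriv g η / W η with hu
  have hu2 : ∀ η ∈ ball (x : ℂ) δ ∩ upH, u η ^ 2 = -4 * g η := fun η hη => by
    obtain ⟨-, -, -, a4, -, a6⟩ := h1 hη
    simp only [hu]
    rw [div_pow, a6]
    field_simp
  have hd : ∀ η ∈ ball (x : ℂ) δ ∩ upH, HasDerivAt (fun w => u w + 2 * P w) 0 η := fun η hη => by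
    obtain ⟨a1, a2, a3, a4, a5, -⟩ := h1 hη
    have b1 : HasDerivAt u (deriv u η) η := (a1.deriv.div a3 a4).differentiableAt.hasDerivAt
    have b2 := (b1.pow 2).unique ((a1.differentiableAt.hasDerivAt.const_mul (-4)).congr_of_eventuallyEq
      (eventually_of_mem (hO.mem_nhds hη) hu2))
    have b3 : deriv g η = u η * W η := by simp only [hu]; field_simp
    have b4 : u η ≠ 0 := fun h0 => by
      have := hu2 η hη
      rw [h0] at this
      exact a2 (by linear_combination this / 4)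
    have b5 : deriv u η + 2 * W η = 0 := by
      refine mul_left_cancel₀ b4 ?_
      rw [b3] at b2
      norm_num at b2
      linear_combination b2 / 2
    exact b5 ▸ b1.add (a5.const_mul 2)
  obtain ⟨c, hc⟩ := hO.exists_is_const_of_deriv_eq_zero (half_conv x δ).isPreconnected
    (fun s hs => (hd s hs).differentiableAt.differentiableWithinAt) fun s hs => (hd s hs).deriv
  have he : ∀ᶠ η : ℂ in 𝓝[upH] (x : ℂ), (c - 2 * P η) ^ 2 = -4 * g η :=
    eventually_of_mem hD fun η hη => by rw [← hc η hη, add_sub_cancel_right, hu2 η hη]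
  have h0 := tendsto_nhds_unique_of_eventuallyEq (((hP.const_mul 2).const_sub c).pow 2)
    (hg.const_mul (-4)) he
  have hc0 : c = 0 := by simpa using h0
  filter_upwards [he] with η hη
  rw [hc0] at hη
  linear_combination hη / 4

end Loc1P

open Loc1P in
theorem loc1 : S_LOC1 := by
  rintro Q ψ F p x n e ⟨m, rfl⟩ hC ⟨E, hE, hEr, hEn, hEq⟩ hF hFt
  have hn : n ≠ 0 := Nat.one_le_iff_ne_zero.1 hC.pos
  have hn' : (n : ℂ) ≠ 0 := by exact_mod_cast hn
  obtain ⟨R, hR, hRr, hRp, hR2⟩ := exists_root (T := fun η => -E η) hE.neg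
    (hEr.mono fun t ht => by simp [ht]) (by simpa using hEn) two_ne_zero
  obtain ⟨χ, hχ, hχd⟩ := exists_prim (V := fun η => (n / 2 : ℝ) * R η)
    (analyticAt_const.mul hR) (hRr.mono fun t ht => by rw [im_ofReal_mul, ht, mul_zero])
    (by rw [re_ofReal_mul]; have := Nat.pos_of_ne_zero hn; positivity) m
  have hFt' : Tendsto F (𝓝[upH] (x : ℂ)) (𝓝[≠] p) :=
    tendsto_nhdsWithin_iff.2 ⟨hFt, hF.mono fun _ h => h.2⟩
  have hψ0 : ∀ᶠ z in 𝓝[≠] p, ψ z ≠ 0 := hC.ana.differentiableAt.hasDerivAt.eventually_ne hC.dne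
  have hR0 : ∀ᶠ η : ℂ in 𝓝 (x : ℂ), R η ≠ 0 :=
    hR.continuousAt.eventually_ne fun h => by simp [h] at hRp
  have hf : ∀ᶠ η : ℂ in 𝓝[upH] (x : ℂ), AnalyticAt ℂ (fun w => ψ (F w)) η ∧ ψ (F η) ≠ 0 := by
    filter_upwards [hF, hFt.eventually hC.ana.eventually_analyticAt, hFt'.eventually hψ0]
      with η a1 a2 a3
    exact ⟨a2.comp a1.1, a3⟩
  have hχt : Tendsto χ (𝓝[upH] (x : ℂ)) (𝓝[upH] 0) := hχ.map_upH.le
  have key := ode (g := fun w => ψ (F w) ^ n) (P := fun w => χ w ^ (m + 1))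
    (W := fun η => (η - x) ^ m * ((n / 2 : ℝ) * R η)) (x := x) ?_ ?_ ?_
  · have hall := (key.and hf).and ((hχt.eventually self_mem_nhdsWithin).and
      (nhdsWithin_le_nhds hχ.ana.eventually_analyticAt))
    obtain ⟨δ, hδ, h1⟩ := Metric.mem_nhdsWithin_iff.1 hall
    have hD : ball (x : ℂ) δ ∩ upH ∈ 𝓝[upH] (x : ℂ) :=
      Metric.mem_nhdsWithin_iff.2 ⟨δ, hδ, Subset.rfl⟩
    have hs : ∀ η ∈ ball (x : ℂ) δ ∩ upH, χ η ∈ slitPlane := fun η hη =>
      Or.inr (ne_of_gt (h1 hη).2.1)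
    have hne : ∀ η ∈ ball (x : ℂ) δ ∩ upH, χ η ^ (th n (m + m) : ℂ) ≠ 0 := fun η hη h0 =>
      slitPlane_ne_zero (hs η hη) ((cpow_eq_zero_iff _ _).1 h0).1
    have hq : ∀ η ∈ ball (x : ℂ) δ ∩ upH, (ψ (F η) / χ η ^ (th n (m + m) : ℂ)) ^ n = -1 :=
      fun η hη => by
        have a1 : (th n (m + m) : ℂ) * n = ((m + 1) * 2 : ℕ) := by
          unfold th; push_cast; field_simp; ring
        have a2 : χ η ≠ 0 := slitPlane_ne_zero (hs η hη)
        rw [div_pow, ← cpow_mul_nat, a1, cpow_natCast, pow_mul, (h1 hη).1.1]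
        field_simp
    have hfin : {w : ℂ | w ^ n = -1}.Finite := by
      refine (Polynomial.nthRoots n (-1 : ℂ)).toFinset.finite_toSet.subset fun w hw => ?_
      simpa [Polynomial.mem_nthRoots (Nat.pos_of_ne_zero hn)] using hw
    obtain ⟨η₀, hη₀⟩ := Filter.nonempty_of_mem hD
    obtain ⟨κ, hκ, hκe⟩ := (half_conv x δ).isPreconnected.eqOn_const_of_mapsTo hfin.isDiscrete
      (f := fun η => ψ (F η) / χ η ^ (th n (m + m) : ℂ))
      (fun η hη => ((h1 hη).1.2.1.continuousAt.div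
        ((h1 hη).2.2.continuousAt.cpow continuousAt_const (hs η hη)) (hne η hη)).continuousWithinAt)
      hq ⟨_, hq η₀ hη₀⟩
    refine ⟨κ, χ, hκ, hχ, eventually_of_mem hD fun η hη => ?_⟩
    have := hκe hη
    simp only [Function.const] at this
    rw [← this, div_mul_cancel₀ _ (hne η hη)]
  · filter_upwards [hf, hF, hFt.eventually hC.ana.eventually_analyticAt, hFt'.eventually hC.eq, hEq,
      nhdsWithin_le_nhds hR.eventually_analyticAt, nhdsWithin_le_nhds hR0,
      nhdsWithin_le_nhds hR2, nhdsWithin_le_nhds hχd, self_mem_nhdsWithin]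
      with η a1 a2 a3 a4 a5 a6 a7 a8 a9 a10
    have b1 : η - x ≠ 0 := fun h0 => by
      have : (0 : ℝ) < η.im := a10
      rw [sub_eq_zero.1 h0] at this
      simp at this
    refine ⟨a1.1.pow n, pow_ne_zero _ a1.2,
      ((analyticAt_id.sub analyticAt_const).pow m).mul (analyticAt_const.mul a6),
      mul_ne_zero (pow_ne_zero _ b1) (mul_ne_zero (by simpa using hn) a7), a9, ?_⟩
    have b2 := ((a3.differentiableAt.hasDerivAt.comp η a2.1.differentiableAt.hasDerivAt).pow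
      n).deriv
    have b3 : deriv (fun w => ψ (F w) ^ n) η =
        n * ψ (F η) ^ (n - 1) * (deriv ψ (F η) * deriv F η) := b2
    obtain ⟨k, rfl⟩ := Nat.exists_eq_succ_of_ne_zero hn
    rw [b3]
    refine mul_left_cancel₀ (pow_ne_zero 2 a1.2) ?_
    simp only [Nat.succ_eq_add_one, Nat.add_sub_cancel] at a4 ⊢
    push_cast
    rw [pow_add] at a5
    linear_combination
      (-((k : ℂ) + 1) ^ 2 * ψ (F η) ^ (k + 1) * deriv F η ^ 2) * a4 +
      (((k : ℂ) + 1) ^ 2 * ψ (F η) ^ (k + 1) * ψ (F η) ^ 2) * a5 +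
      (((k : ℂ) + 1) ^ 2 * ψ (F η) ^ (k + 1) * ψ (F η) ^ 2 * ((η - x) ^ m) ^ 2) * a8
  · have := ((hC.ana.continuousAt.tendsto.comp hFt).pow n)
    rwa [hC.zero, zero_pow hn] at this
  · have := (hχt.mono_right nhdsWithin_le_nhds).pow (m + 1)
    rwa [zero_pow (Nat.succ_ne_zero m)] at this

end Pool.Agent.P.MP_3bd355_an
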