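import Pool.Agent.P.MP_3bd355_an.Stmts

/-! The local structure of the boundary map from its normal form. -/

open Set Filter Metric Complex InnerProductSpace
open scoped Topology ComplexConjugate Real

namespace Pool.Agent.P.MP_3bd355_an

namespace Loc2P

theorem pw_eq {w : ℂ} (hw : w ≠ 0) (θ : ℝ) :
    w ^ (θ : ℂ) = ((‖w‖ ^ θ : ℝ) : ℂ) * exp (I * (arg w * θ : ℝ)) := by
  rw [cpow_def_of_ne_zero hw, Real.rpow_def_of_pos (norm_pos_iff.2 hw), ofReal_exp, ← exp_add,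
    Complex.log]
  congr 1
  push_cast
  ring

theorem pw_cont {w : ℂ} {θ : ℝ} (hθ : 0 < θ) :
    ContinuousWithinAt (fun z : ℂ => z ^ (θ : ℂ)) {z | 0 ≤ z.im} w := by
  by_cases h : 0 ≤ w.re ∨ w.im ≠ 0
  · exact (continuousAt_cpow_const_of_re_pos h (by simpa using hθ)).continuousWithinAt
  · push Not at h
    have h0 : w ≠ 0 := fun e => by simp [e] at h
    refine ((continuous_exp.continuousAt.comp_continuousWithinAt
      ((continuousWithinAt_log_of_re_neg_of_im_zero h.1 h.2).mul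
        (continuousWithinAt_const (b := (θ : ℂ))))).congr_of_eventuallyEq ?_
          (cpow_def_of_ne_zero h0 _))
    filter_upwards [mem_nhdsWithin_of_mem_nhds (isOpen_ne.mem_nhds h0)] with z hz
    exact cpow_def_of_ne_zero hz _

theorem th_pos {n e : ℕ} (hn : 1 ≤ n) : 0 < th n e := by
  unfold th
  have : (0 : ℝ) < n := by exact_mod_cast hn
  positivity

theorem norm_root {n : ℕ} (hn : 1 ≤ n) {κ : ℂ} (h : κ ^ n = -1) : ‖κ‖ = 1 := by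
  have := congrArg norm h
  rw [norm_pow, norm_neg, norm_one] at this
  exact (pow_eq_one_iff_of_nonneg (norm_nonneg _) (by omega)).1 this

theorem rchart {χ : ℂ → ℂ} {x : ℝ} (h : RChart χ x) : Chart (fun z => deriv χ z ^ 2) x 2 χ :=
  ⟨h.ana, h.zero, fun e => by simpa [e] using h.dpos, by norm_num,
    Eventually.of_forall fun _ => mul_comm _ _⟩

theorem small {ψ : ℂ → ℂ} {p : ℂ} (h : ContinuousAt ψ p) (h0 : ψ p = 0) {θ : ℝ} (hθ : 0 < θ) :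
    Tendsto (fun z => ‖ψ z‖ ^ θ⁻¹) (𝓝 p) (𝓝 0) := by
  have := (h.norm.rpow_const (p := θ⁻¹) (Or.inr (inv_pos.2 hθ).le)).tendsto
  rwa [h0, norm_zero, Real.zero_rpow (inv_pos.2 hθ).ne'] at this

variable {Q ψ F : ℂ → ℂ} {Fb : ℝ → ℂ} {x : ℝ} {n : ℕ} {κ : ℂ} {χ : ℂ → ℂ} {θ : ℝ}

theorem bdry_eq (hC : Chart Q (Fb x) n ψ) (hB : Bd F Fb) (hχ : RChart χ x) (hθ : 0 < θ)
    (h : ∀ᶠ η : ℂ in 𝓝[upH] (x : ℂ), ψ (F η) = κ * χ η ^ (θ : ℂ)) :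
    ∀ᶠ t : ℝ in 𝓝 x, ψ (Fb t) = κ * χ t ^ (θ : ℂ) := by
  have h1 : ∀ᶠ η : ℂ in 𝓝[upH] (x : ℂ), χ η ∈ upH :=
    (show Tendsto χ _ _ from hχ.map_upH.le).eventually self_mem_nhdsWithin
  filter_upwards [eventually_upH h, eventually_upH h1,
    hB.cont.continuousAt.eventually hC.ana.eventually_analyticAt,
    continuous_ofReal.continuousAt.eventually hχ.ana.eventually_analyticAt] with t h2 h3 h4 h5
  have : (𝓝[upH] (t : ℂ)).NeBot := (tendsto_vert t).neBot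
  refine tendsto_nhds_unique_of_eventuallyEq (h4.continuousAt.tendsto.comp (hB.lim t))
    (Tendsto.const_mul κ ((pw_cont (w := χ t) hθ).tendsto.comp ?_)) h2
  exact tendsto_nhdsWithin_iff.2 ⟨h5.continuousAt.tendsto.mono_left nhdsWithin_le_nhds,
    h3.mono fun η hη => le_of_lt (show 0 < (χ η).im from hη)⟩

theorem right_eq (hC : Chart Q (Fb x) n ψ) (hB : Bd F Fb) (hχ : RChart χ x) (hθ : 0 < θ)
    (h : ∀ᶠ η : ℂ in 𝓝[upH] (x : ℂ), ψ (F η) = κ * χ η ^ (θ : ℂ)) :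
    ∀ᶠ t : ℝ in 𝓝[>] x, 0 < (χ t).re ∧ ψ (Fb t) = (((χ t).re ^ θ : ℝ) : ℂ) * κ := by
  filter_upwards [mem_nhdsWithin_of_mem_nhds (bdry_eq hC hB hχ hθ h),
    mem_nhdsWithin_of_mem_nhds hχ.real,
    (show Tendsto (fun t : ℝ => (χ t).re) _ _ from hχ.map_right.le).eventually
      self_mem_nhdsWithin] with t h1 h2 h3
  have e : χ t = ((χ t).re : ℂ) := Complex.ext rfl h2
  refine ⟨h3, ?_⟩
  rw [h1, ofReal_cpow (le_of_lt h3), ← e, mul_comm]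

theorem left_eq (hC : Chart Q (Fb x) n ψ) (hB : Bd F Fb) (hχ : RChart χ x) (hθ : 0 < θ)
    (h : ∀ᶠ η : ℂ in 𝓝[upH] (x : ℂ), ψ (F η) = κ * χ η ^ (θ : ℂ)) :
    ∀ᶠ t : ℝ in 𝓝[<] x, (χ t).re < 0 ∧
      ψ (Fb t) = (((-(χ t).re) ^ θ : ℝ) : ℂ) * κ * exp (I * (π * θ : ℝ)) := by
  filter_upwards [mem_nhdsWithin_of_mem_nhds (bdry_eq hC hB hχ hθ h),
    mem_nhdsWithin_of_mem_nhds hχ.real,
    (show Tendsto (fun t : ℝ => (χ t).re) _ _ from hχ.map_left.le).eventually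
      self_mem_nhdsWithin] with t h1 h2 h3
  have h3' : (χ t).re < 0 := h3
  have e : ‖χ t‖ = -(χ t).re := by rw [← abs_re_eq_norm.2 h2, abs_of_neg h3']
  refine ⟨h3, ?_⟩
  rw [h1, pw_eq (fun e => by simp [e] at h3'), arg_eq_pi_iff.2 ⟨h3', h2⟩, e]
  ring

theorem cov (hC : Chart Q (Fb x) n ψ) (hB : Bd F Fb) (hκ : ‖κ‖ = 1) (hχ : RChart χ x) (hθ : 0 < θ)
    (h : ∀ᶠ η : ℂ in 𝓝[upH] (x : ℂ), ψ (F η) = κ * χ η ^ (θ : ℂ)) :
    ∀ U ∈ 𝓝[upH] (x : ℂ), ∀ᶠ z in 𝓝 (Fb x),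
      (∃ s : ℝ, 0 < s ∧ ∃ ϑ ∈ Ioo (0 : ℝ) (π * θ), ψ z = s * κ * exp (I * ϑ)) →
        ∃ η ∈ U, F η = z := by
  intro U hU
  obtain ⟨W, hW, hi⟩ := hC.inj
  have h1 := image_mem_map (m := χ) (inter_mem hU (inter_mem h (hB.lim x hW)))
  rw [hχ.map_upH] at h1
  obtain ⟨ε, hε, h2⟩ := Metric.mem_nhdsWithin_iff.1 h1
  filter_upwards [hW, (small hC.ana.continuousAt hC.zero hθ).eventually (gt_mem_nhds hε)]
    with z hz h3
  rintro ⟨s, hs, ϑ, hϑ, e⟩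
  have h4 : ‖ψ z‖ = s := by
    rw [e, norm_mul, norm_mul, hκ, norm_exp_I_mul_ofReal, norm_real, Real.norm_of_nonneg hs.le]
    ring
  have h5 : 0 < s ^ θ⁻¹ := Real.rpow_pos_of_pos hs _
  have h6 : 0 < ϑ / θ := div_pos hϑ.1 hθ
  have h7 : ϑ / θ < π := (div_lt_iff₀ hθ).2 hϑ.2
  set w : ℂ := ((s ^ θ⁻¹ : ℝ) : ℂ) * exp (((ϑ / θ : ℝ) : ℂ) * I) with hw
  have h8 : ‖w‖ = s ^ θ⁻¹ := by
    rw [hw, norm_mul, norm_exp_ofReal_mul_I, norm_real, Real.norm_of_nonneg h5.le, mul_one]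
  have h9 : arg w = ϑ / θ := by
    rw [hw, exp_mul_I]
    exact arg_mul_cos_add_sin_mul_I h5 ⟨by linarith [Real.pi_pos], h7.le⟩
  obtain ⟨η, ⟨hη, h10, h11⟩, h12⟩ := h2 (a := w) ⟨by rw [mem_ball_zero_iff, h8, ← h4]; exact h3, by
    show 0 < w.im
    rw [hw, im_ofReal_mul, exp_ofReal_mul_I_im]
    exact mul_pos h5 (Real.sin_pos_of_pos_of_lt_pi h6 h7)⟩
  refine ⟨η, hη, hi h11 hz ?_⟩
  rw [show ψ (F η) = _ from h10, h12, pw_eq (norm_pos_iff.1 (h8 ▸ h5)), h8, h9,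
    Real.rpow_inv_rpow hs.le hθ.ne', div_mul_cancel₀ _ hθ.ne', e]
  ring

theorem low (hC : Chart Q (Fb x) n ψ) (hB : Bd F Fb) (hκ : ‖κ‖ = 1) (hχ : RChart χ x) (hθ : 0 < θ)
    (h : ∀ᶠ η : ℂ in 𝓝[upH] (x : ℂ), ψ (F η) = κ * χ η ^ (θ : ℂ)) :
    ∃ c > 0, ∀ᶠ η : ℂ in 𝓝[upH] (x : ℂ), c * ‖η - x‖ ^ θ ≤ ‖F η - Fb x‖ := by
  obtain ⟨g, g1, g2, g3, -⟩ := (rchart hχ).inv
  obtain ⟨C, hC0, h1⟩ := hC.ana.differentiableAt.isBigO_sub.exists_pos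
  obtain ⟨D, hD0, h2⟩ := g1.differentiableAt.isBigO_sub.exists_pos
  have h3 : Tendsto χ (𝓝 x) (𝓝 0) := hχ.zero ▸ hχ.ana.continuousAt.tendsto
  have hD : 0 < D ^ θ := Real.rpow_pos_of_pos hD0 _
  refine ⟨(D ^ θ * C)⁻¹, by positivity, ?_⟩
  filter_upwards [h, (hB.lim x).eventually h1.bound, mem_nhdsWithin_of_mem_nhds g3,
    mem_nhdsWithin_of_mem_nhds (h3.eventually h2.bound)] with η h4 h5 h6 h7
  rw [hC.zero, sub_zero, h4, norm_mul, hκ, one_mul, norm_cpow_real] at h5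
  rw [h6, g2, sub_zero] at h7
  rw [inv_mul_le_iff₀ (by positivity)]
  calc ‖η - x‖ ^ θ ≤ (D * ‖χ η‖) ^ θ := Real.rpow_le_rpow (norm_nonneg _) h7 hθ.le
    _ = D ^ θ * ‖χ η‖ ^ θ := Real.mul_rpow hD0.le (norm_nonneg _)
    _ ≤ D ^ θ * (C * ‖F η - Fb x‖) := by gcongr
    _ = _ := by ring

theorem ana (hC : Chart Q (Fb x) 2 ψ) (hκ : κ ^ 2 = -1) (hB : Bd F Fb) (hχ : RChart χ x)
    (h : ∀ᶠ t : ℝ in 𝓝 x, ψ (Fb t) = κ * χ t) (hQ : ContinuousAt Q (Fb x)) :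
    AnalyticAt ℝ Fb x ∧ ∃ ρ : ℝ, 0 < ρ ∧ Q (Fb x) * deriv Fb x ^ 2 = -(ρ : ℂ) := by
  obtain ⟨g, g1, -, g3, -⟩ := hC.inv
  obtain ⟨W, hW, hi⟩ := hC.inj
  have h1 : AnalyticAt ℝ Fb x := by
    have h2 : AnalyticAt ℂ (fun z => g (κ * χ z)) x :=
      AnalyticAt.comp_of_eq (f := fun z => κ * χ z) g1 (analyticAt_const.mul hχ.ana)
        (by simp [hχ.zero])
    refine (AnalyticAt.comp (f := fun t : ℝ => (t : ℂ)) (h2.restrictScalars (𝕜 := ℝ))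
      (ofRealCLM.analyticAt x)).congr ?_
    filter_upwards [h, hB.cont.continuousAt.eventually g3] with t h3 h4
    simp only [Function.comp]
    rw [← h3, h4]
  have h2 : Q (Fb x) = deriv ψ (Fb x) ^ 2 := by
    refine tendsto_nhds_unique_of_eventuallyEq (l := 𝓝[≠] (Fb x))
      (hQ.tendsto.mono_left nhdsWithin_le_nhds)
      ((hC.ana.deriv.continuousAt.pow 2).tendsto.mono_left nhdsWithin_le_nhds) ?_
    filter_upwards [hC.eq, mem_nhdsWithin_of_mem_nhds hW, self_mem_nhdsWithin] with z h3 h4 h5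
    have h6 : ψ z ≠ 0 := fun e => h5 (hi h4 (mem_of_mem_nhds hW) (e.trans hC.zero.symm))
    exact mul_right_cancel₀ (pow_ne_zero 2 h6) (h3.trans (mul_comm _ _))
  have h3 : deriv ψ (Fb x) * deriv Fb x = κ * deriv χ x :=
    (HasDerivAt.comp x hC.ana.differentiableAt.hasDerivAt
      h1.differentiableAt.hasDerivAt).unique
      ((hχ.ana.differentiableAt.hasDerivAt.comp_ofReal.const_mul κ).congr_of_eventuallyEq h)
  have h4 : (deriv χ x).im = 0 := (RefAt.deriv_im (u := fun η => (χ η).im)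
    ⟨hχ.ana, hχ.real, Eventually.of_forall fun _ => rfl⟩).self_of_nhds
  have h5 : deriv χ x = ((deriv χ x).re : ℂ) := Complex.ext rfl h4
  refine ⟨h1, (deriv χ x).re ^ 2, pow_pos hχ.dpos 2, ?_⟩
  rw [h2, ← mul_pow, h3, mul_pow, hκ, ofReal_pow, ← h5]
  ring

end Loc2P

open Loc2P in
theorem loc2 : S_LOC2 := by
  intro Q ψ F Fb x n e κ χ hC hB hκ hχ h
  have hθ : 0 < th n e := th_pos hC.pos
  have hn := norm_root hC.pos hκ
  have hR := right_eq hC hB hχ hθ h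
  have hL := left_eq hC hB hχ hθ h
  obtain ⟨W, hW, hi⟩ := hC.inj
  have hW' : ∀ᶠ t in 𝓝 x, Fb t ∈ W := hB.cont.continuousAt hW
  have hs := small hC.ana.continuousAt hC.zero hθ
  refine ⟨hκ, ?_, cov hC hB hn hχ hθ h, hR.mono fun t ht => ⟨_, Real.rpow_pos_of_pos ht.1 _, ht.2⟩,
    hL.mono fun t ht => ⟨_, Real.rpow_pos_of_pos (neg_pos.2 ht.1) _, ht.2⟩, fun U hU => ?_,
    fun U hU => ?_, ?_, ?_, low hC hB hn hχ hθ h⟩
  · filter_upwards [h, (show Tendsto χ _ _ from hχ.map_upH.le).eventually self_mem_nhdsWithin]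
      with η h1 h2
    have h3 : 0 < (χ η).im := h2
    have h4 : χ η ≠ 0 := fun e => by simp [e] at h3
    refine ⟨‖χ η‖ ^ th n e, Real.rpow_pos_of_pos (norm_pos_iff.2 h4) _, arg (χ η) * th n e,
      ⟨mul_pos ((arg_nonneg_iff.2 h3.le).lt_of_ne fun e => h3.ne' (arg_eq_zero_iff.1 e.symm).2) hθ,
        mul_lt_mul_of_pos_right (arg_lt_pi_iff.2 (Or.inr h3.ne')) hθ⟩, ?_⟩
    rw [h1, pw_eq h4]
    ring
  · have h1 := image_mem_map (m := fun t : ℝ => (χ t).re)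
      (inter_mem hU (inter_mem hR (mem_nhdsWithin_of_mem_nhds hW')))
    rw [hχ.map_right] at h1
    obtain ⟨ε, hε, h2⟩ := mem_nhdsGT_iff_exists_Ioo_subset.1 h1
    filter_upwards [hW, hs.eventually (gt_mem_nhds hε)] with z hz h3
    rintro ⟨s, hs, e⟩
    have h4 : ‖ψ z‖ = s := by rw [e, norm_mul, hn, norm_real, Real.norm_of_nonneg hs.le, mul_one]
    obtain ⟨t, ⟨ht, h5, h6⟩, h7⟩ := h2 ⟨Real.rpow_pos_of_pos hs _, h4 ▸ h3⟩
    refine ⟨t, ht, hi h6 hz ?_⟩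
    rw [h5.2, show (χ t).re = _ from h7, Real.rpow_inv_rpow hs.le hθ.ne', e]
  · have h1 := image_mem_map (m := fun t : ℝ => (χ t).re)
      (inter_mem hU (inter_mem hL (mem_nhdsWithin_of_mem_nhds hW')))
    rw [hχ.map_left] at h1
    obtain ⟨ε, hε, h2⟩ := mem_nhdsLT_iff_exists_Ioo_subset.1 h1
    filter_upwards [hW, hs.eventually (gt_mem_nhds (neg_pos.2 (show ε < 0 from hε)))] with z hz h3
    rintro ⟨s, hs, e'⟩
    have h4 : ‖ψ z‖ = s := by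
      rw [e', norm_mul, norm_mul, hn, norm_exp_I_mul_ofReal, norm_real, Real.norm_of_nonneg hs.le]
      ring
    obtain ⟨t, ⟨ht, h5, h6⟩, h7⟩ := h2 (a := -s ^ (th n e)⁻¹)
      ⟨lt_neg.1 (h4 ▸ h3), neg_lt_zero.2 (Real.rpow_pos_of_pos hs _)⟩
    refine ⟨t, ht, hi h6 hz ?_⟩
    rw [h5.2, show (χ t).re = _ from h7, neg_neg, Real.rpow_inv_rpow hs.le hθ.ne', e']
  · obtain ⟨V, hV, hj⟩ := (rchart hχ).inj
    have hV' : ∀ᶠ t : ℝ in 𝓝 x, (t : ℂ) ∈ V := continuous_ofReal.continuousAt hV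
    obtain ⟨u, hu, h1⟩ := mem_nhdsGT_iff_exists_Ioo_subset.1
      (inter_mem hR (mem_nhdsWithin_of_mem_nhds (inter_mem hV' hχ.real)))
    have h2 : ∀ t ∈ Ico x u, 0 ≤ (χ t).re ∧ ψ (Fb t) = (((χ t).re ^ th n e : ℝ) : ℂ) * κ ∧
        (t : ℂ) ∈ V ∧ (χ t).im = 0 := fun t ht => by
      rcases ht.1.eq_or_lt with rfl | h3
      · simp [hχ.zero, hC.zero, Real.zero_rpow hθ.ne', mem_of_mem_nhds hV]
      · obtain ⟨h4, h5⟩ := h1 ⟨h3, ht.2⟩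
        exact ⟨h4.1.le, h4.2, h5⟩
    refine ⟨u - x, sub_pos.2 hu, fun t ht t' ht' e => ?_⟩
    rw [add_sub_cancel] at ht ht'
    obtain ⟨a1, a2, a3, a4⟩ := h2 t ht
    obtain ⟨b1, b2, b3, b4⟩ := h2 t' ht'
    rw [e, b2] at a2
    have h3 := ofReal_injective (mul_right_cancel₀ (norm_ne_zero_iff.1 (hn ▸ one_ne_zero)) a2)
    exact ofReal_injective (hj a3 b3 (Complex.ext
      (Real.rpow_left_injOn hθ.ne' a1 b1 h3.symm) (a4.trans b4.symm)))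
  · rintro rfl rfl
    refine ana hC hκ hB hχ ((bdry_eq hC hB hχ hθ h).mono fun t ht => ?_)
    simpa [th] using ht

theorem loc (h1 : S_LOC1) (h2 : S_LOC2) : S_LOC := by
  intro r L φ F h Fb Q ψ x n e hU hB he hC hE
  obtain ⟨κ, χ, a1, a2, a3⟩ := h1 Q ψ F (Fb x) x n e he hC hE ((hU.ev_main x).mono fun η hη =>
    ⟨hU.analytic hη.1, fun e => (hB.mem hU x).2.2.2 (e ▸ hη.2)⟩) (hB.lim x)
  exact ⟨κ, h2 Q ψ F Fb x n e κ χ hC hB a1 a2 a3⟩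

end Pool.Agent.P.MP_3bd355_an
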