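import Pool.Agent.P.MP_3bd355_an.Stmts

/-! Assembly of the structure theorem. -/

open Set Filter Metric Complex InnerProductSpace
open scoped Topology ComplexConjugate Real

namespace Pool.Agent.P.MP_3bd355_an

namespace MainP

lemma norm_rot {ω : ℂ} (hω : ‖ω‖ = 1) (z : ℂ) : ‖ω * z‖ = ‖z‖ := by rw [norm_mul, hω, one_mul]

lemma rot_mem {r : ℝ} {ω z : ℂ} (hω : ‖ω‖ = 1) (hz : z ∈ ann r) : ω * z ∈ ann r := by
  simpa only [ann, mem_ofPred_eq, norm_rot hω] using hz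

lemma conj_mul_rot {ω : ℂ} (hω : ‖ω‖ = 1) (z : ℂ) : conj ω * (ω * z) = z := by
  rw [← mul_assoc, conj_mul', hω]; simp

lemma hyp_rot {r A B : ℝ} {z₀ z₁ ω : ℂ} (h0 : 0 < r) (m0 : z₀ ∈ ann r) (m1 : z₁ ∈ ann r)
    (hA : A ≤ 0) (hh : 0 < hf r A B z₁) (hω : ‖ω‖ = 1) (i0 : 0 ≤ (ω * z₀).im)
    (i1 : (ω * z₁).im ≤ 0) : Hyp r A B (ω * z₀) (ω * z₁) :=
  ⟨h0, m0.1.trans m0.2, rot_mem hω m0, rot_mem hω m1, hA,
    by simpa only [hf, norm_rot hω] using hh, i0, i1⟩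

lemma normalise {ω : ℂ} (h : ω ≠ 0) : ∃ s : ℝ, 0 < s ∧ ‖(s : ℂ) * ω‖ = 1 :=
  ⟨‖ω‖⁻¹, inv_pos.2 (norm_pos_iff.2 h), by
    rw [norm_mul, Complex.norm_real, Real.norm_of_nonneg (inv_nonneg.2 (norm_nonneg _)),
      inv_mul_cancel₀ (norm_ne_zero_iff.2 h)]⟩

lemma im_smul (s : ℝ) (ω z : ℂ) : ((s : ℂ) * ω * z).im = s * (ω * z).im := by
  rw [mul_assoc]; simp

lemma exists_frame' {z₀ z₁ : ℂ} (h0 : z₀ ≠ 0) (h1 : z₁ ≠ 0)
    (h : ∀ t : ℝ, 0 < t → z₀ ≠ t * z₁) : ∃ ω : ℂ, 0 < (ω * z₀).im ∧ (ω * z₁).im ≤ 0 := by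
  have hp : 0 < normSq z₀ := normSq_pos.2 h0
  have hq : 0 < normSq z₁ := normSq_pos.2 h1
  rcases lt_trichotomy (conj z₁ * z₀).im 0 with hi | hi | hi
  · refine ⟨-conj z₁, by simpa using hi, ?_⟩
    rw [neg_mul, ← normSq_eq_conj_mul_self]; simp
  · refine ⟨I * conj z₀, ?_, ?_⟩
    · rw [mul_assoc, ← normSq_eq_conj_mul_self]; simpa using hp
    · by_contra hc
      push Not at hc
      apply h ((conj z₁ * z₀).re / normSq z₁)
      · apply div_pos _ hq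
        have : (I * conj z₀ * z₁).im = (conj z₁ * z₀).re := by simp; ring
        rwa [this] at hc
      · have e : ((conj z₁ * z₀).re : ℂ) = conj z₁ * z₀ := Complex.ext (by simp) (by simp [hi])
        have hc1 : conj z₁ ≠ 0 := by simpa using h1
        push_cast
        rw [e, normSq_eq_conj_mul_self]
        field_simp
  · refine ⟨conj z₁, hi, ?_⟩
    rw [← normSq_eq_conj_mul_self]; simp

lemma exists_frame {z₀ z₁ : ℂ} (h0 : z₀ ≠ 0) (h1 : z₁ ≠ 0)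
    (h : ∀ t : ℝ, 0 < t → z₀ ≠ t * z₁) :
    ∃ ω : ℂ, ‖ω‖ = 1 ∧ 0 < (ω * z₀).im ∧ (ω * z₁).im ≤ 0 := by
  obtain ⟨ω, h2, h3⟩ := exists_frame' h0 h1 h
  obtain ⟨s, hs, hn⟩ := normalise (ω := ω) (by rintro rfl; simp at h2)
  exact ⟨s * ω, hn, by rw [im_smul]; positivity,
    by rw [im_smul]; exact mul_nonpos_of_nonneg_of_nonpos hs.le h3⟩

lemma real_frame {z₀ z₁ : ℂ} (h1 : z₁ ≠ 0) (h : ¬ ∀ t : ℝ, 0 < t → z₀ ≠ t * z₁) :
    ∃ ω : ℂ, ‖ω‖ = 1 ∧ (ω * z₀).im = 0 ∧ (ω * z₁).im = 0 := by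
  push Not at h
  obtain ⟨t, -, rfl⟩ := h
  obtain ⟨s, -, hn⟩ := normalise (ω := conj z₁) (by simpa using h1)
  have e : (conj z₁ * z₁).im = 0 := by rw [← normSq_eq_conj_mul_self]; simp
  refine ⟨s * conj z₁, hn, ?_, by rw [im_smul, e, mul_zero]⟩
  rw [im_smul, show conj z₁ * (t * z₁) = t * (conj z₁ * z₁) by ring, im_ofReal_mul, e]
  simp

lemma ls_conj {r : ℝ} {u : ℂ → ℝ} {p : ℂ} {c : ℝ} (h : LS u (ann r) (conj p) c) :
    LS (fun z => u (conj z)) (ann r) p c := fun ε hε =>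
  (continuous_conj.continuousWithinAt.tendsto_nhdsWithin
    fun _ hz => conj_mem_ann.2 hz).eventually (h ε hε)

lemma fh_conj {r : ℝ} {u : ℂ → ℝ} {L : Set ℂ} (h : FH r u L) : FH r (fun z => u (conj z)) L := by
  obtain ⟨h1, S, hS, h2⟩ := h
  refine ⟨fun p hp ha => ?_, S, hS, fun p hp hr hn => ?_⟩
  · simpa only [conj_conj] using (h1 p hp ha).symm
  · exact (h2 p hp hr hn).symm.imp ls_conj fun h => ls_conj (by rwa [conj_conj])

end MainP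

open MainP in
theorem main2 (hM : S_MREAL) (h1 : S_E1) (h2 : S_E2) (hS : S_SC) (hC : S_CORE)
    (hF1 : S_FOLD1) (hF2 : S_FOLD2) (hF3 : S_FOLD3) (hB : S_BR) (hC1 : S_CRIT1) (hR : S_ROT)
    (hRc : S_ROTc) (hO : S_CONF) (hP : S_MPOS) : S_MAIN2 := by
  intro r A B z₀ z₁ h0 m0 m1 hA hh hne
  have hr1 : r < 1 := m0.1.trans m0.2
  have hB0 : 0 < B := B_pos h0 m1 hA hh
  have hch : CH r A B z₀ z₁ := ⟨h0, hr1, m0, m1, hA, hB0⟩
  have n0 : z₀ ≠ 0 := norm_pos_iff.1 (h0.trans m0.1)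
  have n1 : z₁ ≠ 0 := norm_pos_iff.1 (h0.trans m1.1)
  obtain ⟨ω, hω, i0, i1, i2⟩ : ∃ ω : ℂ, ‖ω‖ = 1 ∧ 0 ≤ (ω * z₀).im ∧ (ω * z₁).im ≤ 0 ∧
      (0 < (ω * z₀).im ∨ ((ω * z₀).im = 0 ∧ (ω * z₁).im = 0 ∧
        ((A = 0 ∧ z₀ ≠ z₁) ∨ Msup r A B z₀ z₁ ≠ 0))) := by
    by_cases hray : ∀ t : ℝ, 0 < t → z₀ ≠ t * z₁
    · obtain ⟨ω, hω, i0, i1⟩ := exists_frame n0 n1 hray
      exact ⟨ω, hω, i0.le, i1, Or.inl i0⟩
    · obtain ⟨ω, hω, i0, i1⟩ := real_frame n1 hray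
      exact ⟨ω, hω, i0.ge, i1.le, Or.inr ⟨i0, i1, hne.resolve_left hray⟩⟩
  have hω' : ‖conj ω‖ = 1 := by simpa using hω
  have hy := hyp_rot h0 m0 m1 hA hh hω i0 i1
  obtain ⟨r1, r2, -⟩ := hR r A B z₀ z₁ ω hω
  obtain ⟨-, -, r3⟩ := hR r A B (ω * z₀) (ω * z₁) (conj ω) hω'
  simp only [conj_mul_rot hω, conj_conj] at r3
  obtain ⟨m, hm, hAm, hb, happ⟩ := hM r A B _ _ hy.ch
  have up : ∀ L v, Cfg r A B (ω * z₁) L v → v (ω * z₀) ≤ m := fun L v hc => by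
    obtain ⟨K, hK⟩ := hS r A B _ L v hc
    exact hb K v (SC.gc hc hK)
  have mem : ∀ L v, Cfg r A B (ω * z₁) L v → m ≤ v (ω * z₀) → ω * z₀ ∈ main r L := by
    intro L v hc hv
    rcases i2 with i2 | ⟨-, -, i2⟩
    · exact hc.cont.upper_sub ⟨hy.m0, i2⟩
    · refine hc.sol.mem_main ?_
      rw [le_antisymm (up L v hc) hv]
      rcases i2 with ⟨rfl, i2⟩ | i2
      · obtain ⟨L', v', hc', hv'⟩ := hP r B _ _ h0 hy.m0 hy.m1 hB0 i0 i1 fun e =>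
          i2 (by rw [← conj_mul_rot hω z₀, e, conj_mul_rot hω])
        exact (hv'.trans_le (up L' v' hc')).ne'
      · rintro rfl
        exact i2 (by rw [← r2, hm]; rfl)
  refine ⟨?_, fun a b c κ v g hcr => ⟨?_, (hC1 r A B z₀ z₁ a b c κ v g hch hcr).2.2.2.2.2, ?_⟩,
    fun u hu hum => ?_⟩
  · obtain ⟨L, v, hc, hv⟩ := h2 r A B _ _ m hy happ
    obtain ⟨a, b, c, κ, g, hcr, -⟩ := hC r A B _ _ m L v ⟨hy, hc, hb, hv, mem L v hc hv⟩
    refine ⟨a, b, c, _, _, _, r3 a b c κ v g hcr, ?_⟩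
    rw [← r2, hm, le_antisymm (up L v hc) hv]
  · obtain ⟨m', hm', -, hb', -⟩ := hM r A B z₀ z₁ hch
    obtain ⟨γ, hγ⟩ := (hC1 r A B z₀ z₁ a b c κ v g hch hcr).2.2.2.2.1
    rw [hm']
    exact_mod_cast hb' _ v (hγ.gc h0 hr1)
  · intro hv ω' j0 j1 t ht
    obtain ⟨s, hs, hn⟩ := normalise (ω := ω') (by rintro rfl; simp at j0)
    have j2 : 0 < ((s : ℂ) * ω' * z₀).im := by rw [im_smul]; positivity
    have hy' := hyp_rot h0 m0 m1 hA hh hn j2.le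
      (by rw [im_smul]; exact mul_nonpos_of_nonneg_of_nonpos hs.le j1)
    obtain ⟨-, q2, q3⟩ := hR r A B z₀ z₁ _ hn
    have := hO r A B _ _ a b c _ _ _ hy' j2 (q3 a b c κ v g hcr)
      (by rw [q2, ← hv, conj_mul_rot hn]) t ht
    rw [im_smul] at this
    by_contra hcon
    push Not at hcon
    exact absurd (mul_pos hs hcon) (not_lt.2 this)
  · obtain ⟨w, γ, hg, hγ, hw⟩ := hB r A B _ _ h0 hr1 hA hB0.le (r1 u hu)
    have hw0 : w (ω * z₀) = m := by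
      have := hw _ hy.m0
      rw [conj_mul_rot hω, hum, ← r2, hm, max_eq_left (by exact_mod_cast (by linarith))] at this
      exact_mod_cast this
    obtain ⟨L, v, hc, hfh, hn⟩ := h1 r A B _ _ w γ hy hg
    have hle := (hF1 r A B L w v hc.cont hc.ok hB0.le hc.sol hg.sh hg.outer hg.inner hfh _ hy.m0
      hy.im0).1
    have hmm := mem L v hc (hw0 ▸ hle)
    obtain ⟨a, b, c, κ, g, hcr, hcl, hph⟩ := hC r A B _ _ m L v ⟨hy, hc, hb, hw0 ▸ hle, hmm⟩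
    have hq := base_mem h0 hr1
    obtain ⟨a, b, κ, v, g, hcr, hph, heq⟩ : ∃ a b κ v g,
        Crit r A B (ω * z₀) (ω * z₁) a b c κ v g ∧ (∀ t ∈ Icc (0 : ℝ) 1, r < ‖κ t‖) ∧
          ∀ z ∈ ann r, w z = v z := by
      rcases i2 with i2 | ⟨i2, i3, -⟩
      · exact ⟨a, b, κ, v, g, hcr, hph (hn hγ), fun z hz => (hF2 r A B L w v _ hc.cont hc.ok hB0.le
          hc.sol hg.sh hg.outer hg.inner hfh hy.m0 i2 (hw0 ▸ up L v hc)).2 (hn hγ) z hz (hcl hz)⟩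
      · rcases hF3 r A B L w v _ hc.cont hc.ok hB0.le hc.sol hg.sh hg.outer hg.inner hfh (hn hγ)
          hy.m0 i2 (main_sub r L hmm).2 (hw0 ▸ up L v hc) with e | e
        · exact ⟨a, b, κ, v, g, hcr, hph (hn hγ), fun z hz => (hF2 r A B L w v _ hc.cont hc.ok
            hB0.le hc.sol hg.sh hg.outer hg.inner hfh hq.1 hq.2 (e _ hq.1 hq.2).ge).2 (hn hγ) z hz
            (hcl hz)⟩
        · have k := (hF2 r A B L (fun z => w (conj z)) v _ hc.cont hc.ok hB0.le hc.sol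
            (hg.sh.comp_conj fun _ hz => conj_mem_ann.2 hz)
            (fun p hp => ls_conj (hg.outer _ (by rw [norm_conj, hp])))
            (fun p hp => ls_conj (hg.inner _ (by rw [norm_conj, hp]))) (fh_conj hfh) hq.1 hq.2
            (e _ hq.1 hq.2).ge).2 (hn hγ)
          have k2 := hRc r A B _ _ a b c κ v g hcr
          rw [conj_eq_iff_im.2 i2, conj_eq_iff_im.2 i3] at k2
          refine ⟨_, _, _, _, _, k2, fun t ht => by rw [norm_conj]; exact hph (hn hγ) t ht,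
            fun z hz => ?_⟩
          have := k _ (conj_mem_ann.2 hz) (hcl (conj_mem_ann.2 hz))
          rwa [conj_conj] at this
    refine ⟨a, b, c, _, _, _, r3 a b c κ v g hcr, fun t ht => ?_, fun z hz => ?_⟩
    · rw [norm_rot hω']; exact hph t ht
    · have hz' := rot_mem hω hz
      have e1 := hw _ hz'
      rw [conj_mul_rot hω, heq _ hz'] at e1
      have e2 : A ≤ v (ω * z) := ((hC1 r A B _ _ a b c κ v g hy.ch hcr).2.1 _ hz').1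
      rcases max_choice (u z) ((A - 1 : ℝ) : EReal) with e3 | e3
      · rw [← e3, ← e1]
      · rw [e3] at e1
        have : v (ω * z) = A - 1 := by exact_mod_cast e1
        linarith

theorem main_of (h : S_MAIN2) : S_MAIN := fun r A B z₀ z₁ h0 m0 m1 hA hh hne =>
  h r A B z₀ z₁ h0 m0 m1 hA hh (Or.inl hne)

end Pool.Agent.P.MP_3bd355_an
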