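import Pool.Agent.P.MP_3bd355_an.Stmts

/-! The Martin kernel. -/

open Set Filter Metric Complex InnerProductSpace
open scoped Topology ComplexConjugate Real

namespace Pool.Agent.P.MP_3bd355_an

namespace MartP

theorem mob_id (a w : ℂ) :
    ‖1 - conj w * a‖ ^ 2 = ‖a - w‖ ^ 2 + (1 - ‖a‖ ^ 2) * (1 - ‖w‖ ^ 2) := by
  simp only [Complex.sq_norm, Complex.normSq_apply]
  simp
  ring

/-- The Green function of the disc. -/
noncomputable def GD (a w : ℂ) : ℝ := Real.log ‖1 - conj w * a‖ - Real.log ‖a - w‖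

theorem X_nonneg {a w : ℂ} (ha : ‖a‖ ≤ 1) (hw : ‖w‖ ≤ 1) :
    0 ≤ (1 - ‖a‖ ^ 2) * (1 - ‖w‖ ^ 2) := by
  have h1 := norm_nonneg a
  have h2 := norm_nonneg w
  apply mul_nonneg <;> nlinarith

theorem GD_bounds {a w : ℂ} (ha : ‖a‖ ≤ 1) (hw : ‖w‖ ≤ 1) (h : a ≠ w) :
    (1 - ‖a‖ ^ 2) * (1 - ‖w‖ ^ 2) / (‖a - w‖ ^ 2 + (1 - ‖a‖ ^ 2) * (1 - ‖w‖ ^ 2)) ≤ 2 * GD a w ∧
      2 * GD a w ≤ (1 - ‖a‖ ^ 2) * (1 - ‖w‖ ^ 2) / ‖a - w‖ ^ 2 := by
  have hN : 0 < ‖a - w‖ ^ 2 := by
    have : 0 < ‖a - w‖ := norm_pos_iff.2 (sub_ne_zero.2 h)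
    positivity
  have hX := X_nonneg ha hw
  set N := ‖a - w‖ ^ 2 with hNd
  set X := (1 - ‖a‖ ^ 2) * (1 - ‖w‖ ^ 2) with hXd
  have e : 2 * GD a w = Real.log ((N + X) / N) := by
    rw [Real.log_div (by linarith) hN.ne', ← mob_id, hNd, Real.log_pow, Real.log_pow, GD]
    push_cast
    ring
  have hp : 0 < (N + X) / N := by positivity
  rw [e]
  constructor
  · have h1 := Real.one_sub_inv_le_log_of_pos hp
    have h2 : 1 - ((N + X) / N)⁻¹ = X / (N + X) := by
      field_simp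
      ring
    linarith
  · have h1 := Real.log_le_sub_one_of_pos hp
    have h2 : (N + X) / N - 1 = X / N := by
      field_simp
      ring
    linarith

theorem GD_nonneg {a w : ℂ} (ha : ‖a‖ ≤ 1) (hw : ‖w‖ ≤ 1) (h : a ≠ w) : 0 ≤ GD a w := by
  have h1 := (GD_bounds ha hw h).1
  have hX := X_nonneg ha hw
  have h2 : 0 ≤ (1 - ‖a‖ ^ 2) * (1 - ‖w‖ ^ 2) /
      (‖a - w‖ ^ 2 + (1 - ‖a‖ ^ 2) * (1 - ‖w‖ ^ 2)) := by positivity
  linarith

theorem GD_le {a w : ℂ} (ha : ‖a‖ ≤ 1) (hw : ‖w‖ ≤ 1) (h : ‖a‖ ≠ ‖w‖) :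
    2 * GD a w ≤ (1 - ‖a‖ ^ 2) * (1 - ‖w‖ ^ 2) / (‖a‖ - ‖w‖) ^ 2 := by
  have hne : a ≠ w := fun e => h (by rw [e])
  refine (GD_bounds ha hw hne).2.trans ?_
  have h1 : 0 < (‖a‖ - ‖w‖) ^ 2 := by
    have := sub_ne_zero.2 h
    positivity
  refine div_le_div_of_nonneg_left (X_nonneg ha hw) h1 ?_
  have h2 := abs_norm_sub_norm_le a w
  rw [← sq_abs]
  exact pow_le_pow_left₀ (abs_nonneg _) h2 2

theorem norm_expI (η : ℂ) : ‖exp (I * η)‖ = Real.exp (-η.im) := by
  rw [Complex.norm_exp]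
  simp

theorem one_sub_le (τ : ℝ) : 1 - Real.exp (-τ) ^ 2 ≤ 2 * τ := by
  have h := Real.add_one_le_exp (-(2 * τ))
  have e : Real.exp (-τ) ^ 2 = Real.exp (-(2 * τ)) := by
    rw [← Real.exp_nat_mul]
    congr 1
    push_cast
    ring
  linarith

theorem le_one_sub {τ : ℝ} (h : 0 ≤ τ) : 2 * τ / (1 + 2 * τ) ≤ 1 - Real.exp (-τ) ^ 2 := by
  have h1 := Real.add_one_le_exp (2 * τ)
  have e : Real.exp (-τ) ^ 2 = (Real.exp (2 * τ))⁻¹ := by
    rw [← Real.exp_nat_mul, ← Real.exp_neg]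
    congr 1
    push_cast
    ring
  have h2 : (Real.exp (2 * τ))⁻¹ ≤ (1 + 2 * τ)⁻¹ := inv_anti₀ (by linarith) (by linarith)
  have h3 : 2 * τ / (1 + 2 * τ) = 1 - (1 + 2 * τ)⁻¹ := by
    field_simp
    ring
  linarith

variable {r : ℝ} {L : Set ℂ} {φ F : ℂ → ℂ} {h : ℝ} {H : ℂ → ℂ → ℝ}

theorem deriv_phi_ne (hU : Unif r L φ F h) {η : ℂ} (hη : η ∈ St h) : deriv φ (F η) ≠ 0 := by
  intro h0
  have hW := hU.cont.isOpen_main
  have h1 : HasDerivAt φ (deriv φ (F η)) (F η) :=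
    (hU.dφ.differentiableAt (hW.mem_nhds (hU.maps η hη))).hasDerivAt
  have h2 : HasDerivAt F (deriv F η) η := (hU.analytic hη).differentiableAt.hasDerivAt
  have h3 := h1.comp η h2
  have h4 : HasDerivAt (fun y : ℂ => exp (I * y)) (exp (I * η) * (I * 1)) η :=
    ((hasDerivAt_id η).const_mul I).cexp
  have h5 : (φ ∘ F) =ᶠ[𝓝 η] fun y : ℂ => exp (I * y) := by
    filter_upwards [(isOpen_St h).mem_nhds hη] with y hy
    exact hU.comp y hy
  have h6 := (h4.congr_of_eventuallyEq h5).unique h3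
  rw [h0, zero_mul] at h6
  simp at h6

/-- The difference of the two Green functions. -/
theorem exists_d (hU : Unif r L φ F h) (hH : Grn (main r L) H) {η : ℂ} (hη : η ∈ St h) :
    ∃ d : ℂ → ℝ, HarmonicOnNhd d (main r L) ∧
      ∀ z ∈ main r L, z ≠ F η → d z = GD (φ z) (exp (I * η)) - gr H (F η) z := by
  have hW := hU.cont.isOpen_main
  have hζ := hU.maps η hη
  have hw : ‖exp (I * η)‖ < 1 := by
    rw [← hU.comp η hη]
    exact hU.lt _ hζ
  refine ⟨fun z => Real.log ‖1 - conj (exp (I * η)) * φ z‖ -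
    Real.log ‖dslope φ (F η) z‖ - H z (F η), ?_, ?_⟩
  · have h1 : HarmonicOnNhd (fun z => Real.log ‖1 - conj (exp (I * η)) * φ z‖) (main r L) := by
      refine harm_log_norm (f := fun z => 1 - conj (exp (I * η)) * φ z) hW
        ((differentiableOn_const _).sub (hU.dφ.const_mul _)) ?_
      intro z hz h0
      have h2 : ‖conj (exp (I * η)) * φ z‖ < 1 := by
        rw [norm_mul, Complex.norm_conj]
        have := hU.lt z hz
        have h3 := norm_nonneg (φ z)
        have h4 := norm_nonneg (exp (I * η))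
        nlinarith
      have h3 : conj (exp (I * η)) * φ z = 1 := by linear_combination -h0
      rw [h3] at h2
      simp at h2
    have h2 : HarmonicOnNhd (fun z => Real.log ‖dslope φ (F η) z‖) (main r L) := by
      refine harm_log_norm hW ((Complex.differentiableOn_dslope (hW.mem_nhds hζ)).2 hU.dφ) ?_
      intro z hz
      by_cases e : z = F η
      · rw [e, dslope_same]
        exact deriv_phi_ne hU hη
      · rw [dslope_of_ne _ e, slope_def_field]
        refine div_ne_zero (sub_ne_zero.2 fun e' => e (hU.inj hz hζ e')) (sub_ne_zero.2 e)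
    exact (h1.sub h2).sub (hH.harm _ hζ)
  · intro z hz e
    have e1 : φ z - φ (F η) ≠ 0 := sub_ne_zero.2 fun e' => e (hU.inj hz hζ e')
    have e2 : z - F η ≠ 0 := sub_ne_zero.2 e
    simp only [GD, gr]
    rw [dslope_of_ne _ e, slope_def_field, norm_div, Real.log_div (norm_ne_zero_iff.2 e1)
      (norm_ne_zero_iff.2 e2), hU.comp η hη]
    ring

theorem ev_ne_bd (hU : Unif r L φ F h) {p ζ : ℂ} (hp : p ∈ frontier (main r L))
    (hζ : ζ ∈ main r L) : ∀ᶠ z in 𝓝[main r L] p, z ∈ main r L ∧ z ≠ ζ := by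
  have h1 : p ≠ ζ := fun e => (hU.cont.frontier_sub hp).2.1 (e ▸ hζ)
  filter_upwards [self_mem_nhdsWithin, mem_nhdsWithin_of_mem_nhds (isOpen_ne.mem_nhds h1)]
    with z hz hz'
  exact ⟨hz, hz'⟩

/-- Comparison with the Green function of the disc. -/
theorem cmp (hU : Unif r L φ F h) (hH : Grn (main r L) H) :
    ∃ C τ₀ : ℝ, 0 < τ₀ ∧ ∀ η ∈ St h, η.im < τ₀ → ∀ z ∈ main r L, z ≠ F η →
      GD (φ z) (exp (I * η)) - C * η.im ≤ gr H (F η) z ∧
        gr H (F η) z ≤ GD (φ z) (exp (I * η)) := by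
  have hW := hU.cont.isOpen_main
  have hh := hU.hpos
  have he1 : Real.exp (-h) < 1 := Real.exp_lt_one_iff.2 (by linarith)
  have he0 := Real.exp_pos (-h)
  obtain ⟨δ, hδ, hδ3⟩ : ∃ δ : ℝ, 0 < δ ∧ 3 * δ = 1 - Real.exp (-h) :=
    ⟨(1 - Real.exp (-h)) / 3, by linarith, by ring⟩
  refine ⟨1 / δ ^ 2, δ, hδ, fun η hη hτ => ?_⟩
  obtain ⟨d, hd, hde⟩ := exists_d hU hH hη
  have hζ := hU.maps η hη
  have hτ0 : 0 < η.im := hη.1
  have hwn := norm_expI η
  have hw : ‖exp (I * η)‖ < 1 := by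
    rw [hwn]
    exact Real.exp_lt_one_iff.2 (by linarith)
  have hw2 : 1 - δ ≤ ‖exp (I * η)‖ := by
    rw [hwn]
    have := Real.add_one_le_exp (-η.im)
    linarith
  have hne : ∀ z ∈ main r L, z ≠ F η → φ z ≠ exp (I * η) := fun z hz e e' =>
    e (hU.inj hz hζ (by rw [e', hU.comp η hη]))
  have lower : ∀ z ∈ main r L, -d z ≤ 0 := by
    refine (Sub.of_harm hd.neg).mp0 hW (bdd_main r L) fun p hp => ?_
    refine (LS.of_tendsto (hH.bd _ hζ p hp) le_rfl).of_le ?_
    filter_upwards [ev_ne_bd hU hp hζ] with z hz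
    have h1 := GD_nonneg (hU.lt z hz.1).le hw.le (hne z hz.1 hz.2)
    have h2 := hde z hz.1 hz.2
    simp only [Pi.neg_apply]
    linarith
  have upper : ∀ z ∈ main r L, d z ≤ 1 / δ ^ 2 * η.im := by
    refine (Sub.of_harm hd).mp0 hW (bdd_main r L) fun p hp => ?_
    have key : LS (fun z => GD (φ z) (exp (I * η))) (main r L) p (1 / δ ^ 2 * η.im) := by
      by_cases hY : p ∈ YS r L
      · have h1 := hU.bdY p hp hY
        have h2 : Tendsto (fun z => (1 - ‖φ z‖ ^ 2) * (1 - ‖exp (I * η)‖ ^ 2) /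
            (‖φ z‖ - ‖exp (I * η)‖) ^ 2 / 2) (𝓝[main r L] p)
            (𝓝 ((1 - 1 ^ 2) * (1 - ‖exp (I * η)‖ ^ 2) / (1 - ‖exp (I * η)‖) ^ 2 / 2)) := by
          refine Tendsto.div_const (Tendsto.div ?_ ?_ ?_) 2
          · exact (tendsto_const_nhds.sub (h1.pow 2)).mul tendsto_const_nhds
          · exact (h1.sub tendsto_const_nhds).pow 2
          · have : 0 < 1 - ‖exp (I * η)‖ := by linarith
            positivity
        refine (LS.of_tendsto h2 (by simp; positivity)).of_le ?_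
        filter_upwards [self_mem_nhdsWithin, h1.eventually (lt_mem_nhds hw)] with z hz hz'
        have := GD_le (hU.lt z hz).le hw.le hz'.ne'
        linarith
      · refine LS.of_eventually ?_
        filter_upwards [self_mem_nhdsWithin, hU.bdO p hp hY δ hδ] with z hz hz'
        have h1 : δ ≤ ‖exp (I * η)‖ - ‖φ z‖ := by linarith
        have h2 := GD_le (hU.lt z hz).le hw.le (by linarith : ‖φ z‖ < ‖exp (I * η)‖).ne
        have h3 : δ ^ 2 ≤ (‖φ z‖ - ‖exp (I * η)‖) ^ 2 := by nlinarith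
        have h4 : 1 - ‖exp (I * η)‖ ^ 2 ≤ 2 * η.im := by
          rw [hwn]
          exact one_sub_le _
        have h5 : (1 - ‖φ z‖ ^ 2) * (1 - ‖exp (I * η)‖ ^ 2) ≤ 2 * η.im := by
          have h6 : 0 ≤ 1 - ‖exp (I * η)‖ ^ 2 := by
            have := norm_nonneg (exp (I * η))
            nlinarith
          nlinarith [sq_nonneg ‖φ z‖]
        have h6 : (1 - ‖φ z‖ ^ 2) * (1 - ‖exp (I * η)‖ ^ 2) / (‖φ z‖ - ‖exp (I * η)‖) ^ 2 ≤
            2 * η.im / δ ^ 2 :=
          div_le_div₀ (by linarith) h5 (by positivity) h3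
        have h7 : 2 * η.im / δ ^ 2 = 2 * (1 / δ ^ 2 * η.im) := by ring
        linarith
    refine key.of_le ?_
    filter_upwards [ev_ne_bd hU hp hζ] with z hz
    have h1 := hH.pos _ hζ z hz.1 hz.2
    have h2 := hde z hz.1 hz.2
    linarith
  intro z hz e
  have h1 := lower z hz
  have h2 := upper z hz
  have h3 := hde z hz e
  constructor <;> linarith

theorem gr_symm (hH : Grn (main r L) H) {z ζ : ℂ} (hz : z ∈ main r L) (hζ : ζ ∈ main r L) :
    gr H z ζ = gr H ζ z := by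
  simp only [gr]
  rw [hH.symm z hz ζ hζ, norm_sub_rev]

theorem gr_harm (hH : Grn (main r L) H) {z ζ : ℂ} (hz : z ∈ main r L) (hζ : ζ ∈ main r L)
    (e : z ≠ ζ) : HarmonicAt (gr H ζ) z :=
  (hH.harm ζ hζ z hz).sub (harm_log e)

theorem exists_lim (hU : Unif r L φ F h) (hH : Grn (main r L) H) (y : ℝ) {z : ℂ}
    (hz : z ∈ main r L) : ∃ c : ℝ, 0 < c ∧
      Tendsto (fun τ : ℝ => gr H (F (y + τ * I)) z / τ) (𝓝[>] 0) (𝓝 c) := by
  have hev : ∀ x : ℝ, ∀ᶠ η : ℂ in 𝓝[upH] (x : ℂ), η ∈ St h ∧ F η ∈ main r L ∧ F η ≠ z := by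
    intro x
    filter_upwards [hU.ev_main x, hU.ev_ne x (isCompact_singleton (x := z))
      (singleton_subset_iff.2 hz)] with η h1 h2
    exact ⟨h1.1, h1.2, h2⟩
  obtain ⟨Φ, hΦ⟩ : ∃ Φ, RefAt (fun η => gr H z (F η)) y Φ := by
    refine refAt_of_tendsto ?_ (Eventually.of_forall fun t => ?_)
    · filter_upwards [hev y] with η hη
      exact hU.harm hη.1 (gr_harm hH hη.2.1 hz hη.2.2)
    · exact hU.tendsto_zero (fun p hp _ => hH.bd z hz p hp) t
  refine ⟨(deriv Φ y).re, hΦ.hopf ?_, ?_⟩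
  · filter_upwards [hev y] with η hη
    exact hH.pos z hz _ hη.2.1 hη.2.2
  · refine hΦ.tendsto_div.congr' ?_
    filter_upwards [(tendsto_vert y).eventually (hev y)] with τ hτ
    rw [gr_symm hH hz hτ.2.1]

/-- The Poisson kernel. -/
noncomputable def PK (y : ℝ) (a : ℂ) : ℝ := (1 - ‖a‖ ^ 2) / ‖a - exp (I * y)‖ ^ 2

theorem tendsto_w (y : ℝ) :
    Tendsto (fun τ : ℝ => exp (I * (y + τ * I))) (𝓝[>] 0) (𝓝 (exp (I * y))) := by
  have h1 : Continuous fun τ : ℝ => exp (I * (y + τ * I)) := by fun_prop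
  have h2 := h1.tendsto 0
  simp only [ofReal_zero, zero_mul, add_zero] at h2
  exact h2.mono_left nhdsWithin_le_nhds

theorem ne_expI {a : ℂ} (ha : ‖a‖ < 1) (y : ℝ) : ‖a - exp (I * y)‖ ^ 2 ≠ 0 := by
  refine pow_ne_zero 2 (norm_ne_zero_iff.2 (sub_ne_zero.2 fun e => ?_))
  rw [e, norm_expI] at ha
  simp at ha

theorem k_bounds (hU : Unif r L φ F h) (hH : Grn (main r L) H) (y : ℝ) : ∃ C : ℝ,
    ∀ z ∈ main r L, ∀ c : ℝ,
      Tendsto (fun τ : ℝ => gr H (F (y + τ * I)) z / τ) (𝓝[>] 0) (𝓝 c) →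
        PK y (φ z) - C ≤ c ∧ c ≤ PK y (φ z) := by
  obtain ⟨C, τ₀, hτ₀, hC⟩ := cmp hU hH
  refine ⟨C, fun z hz c hc => ?_⟩
  have ha := hU.lt z hz
  have hM : 0 ≤ 1 - ‖φ z‖ ^ 2 := by
    have := norm_nonneg (φ z)
    nlinarith
  have hN : Tendsto (fun τ : ℝ => ‖φ z - exp (I * (y + τ * I))‖ ^ 2) (𝓝[>] 0)
      (𝓝 (‖φ z - exp (I * y)‖ ^ 2)) := ((tendsto_const_nhds.sub (tendsto_w y)).norm).pow 2
  have hev : ∀ᶠ τ : ℝ in 𝓝[>] 0, 0 < τ ∧ φ z ≠ exp (I * (y + τ * I)) ∧
      ‖exp (I * (y + τ * I))‖ = Real.exp (-τ) ∧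
      GD (φ z) (exp (I * (y + τ * I))) - C * τ ≤ gr H (F (y + τ * I)) z ∧
        gr H (F (y + τ * I)) z ≤ GD (φ z) (exp (I * (y + τ * I))) := by
    filter_upwards [self_mem_nhdsWithin, (tendsto_vert y).eventually (hU.ev_main y),
      (tendsto_vert y).eventually (hU.ev_ne y (isCompact_singleton (x := z))
      (singleton_subset_iff.2 hz)), mem_nhdsWithin_of_mem_nhds (gt_mem_nhds hτ₀)]
      with τ h0 h1 h2 h3
    have him : ((y : ℂ) + τ * I).im = τ := by simp
    have hne : z ≠ F (y + τ * I) := fun e => h2 (by rw [← e]; rfl)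
    have h4 := hC _ h1.1 (by rw [him]; exact h3) z hz hne
    rw [him] at h4
    refine ⟨h0, fun e => hne (hU.inj hz h1.2 (by rw [e, hU.comp _ h1.1])), ?_, h4⟩
    rw [norm_expI, him]
  constructor
  · have h1 : Tendsto (fun τ : ℝ => (1 - ‖φ z‖ ^ 2) / ((1 + 2 * τ) *
        (‖φ z - exp (I * (y + τ * I))‖ ^ 2 + 2 * τ)) - C) (𝓝[>] 0)
        (𝓝 ((1 - ‖φ z‖ ^ 2) / ((1 + 2 * 0) * (‖φ z - exp (I * y)‖ ^ 2 + 2 * 0)) - C)) := by
      have ht : Tendsto (fun τ : ℝ => 2 * τ) (𝓝[>] 0) (𝓝 (2 * 0)) :=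
        (tendsto_id.mono_left nhdsWithin_le_nhds).const_mul 2
      refine (tendsto_const_nhds.div ((tendsto_const_nhds.add ht).mul (hN.add ht)) ?_).sub
        tendsto_const_nhds
      simpa using ne_expI ha y
    simp only [mul_zero, add_zero, one_mul] at h1
    refine le_of_tendsto_of_tendsto h1 hc ?_
    filter_upwards [hev] with τ ⟨h0, h2, h3, h4, _⟩
    have hw : ‖exp (I * (y + τ * I))‖ ≤ 1 := by
      rw [h3]
      exact Real.exp_le_one_iff.2 (by linarith)
    have h5 := (GD_bounds ha.le hw h2).1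
    have hNp : 0 < ‖φ z - exp (I * (y + τ * I))‖ ^ 2 := by
      have : 0 < ‖φ z - exp (I * (y + τ * I))‖ := norm_pos_iff.2 (sub_ne_zero.2 h2)
      positivity
    have h6 := le_one_sub h0.le
    have h7 := one_sub_le τ
    rw [h3] at h5
    set N := ‖φ z - exp (I * (y + τ * I))‖ ^ 2
    set M := 1 - ‖φ z‖ ^ 2 with hMd
    set s := 1 - Real.exp (-τ) ^ 2
    have hM1 : M ≤ 1 := by
      rw [hMd]
      nlinarith [sq_nonneg ‖φ z‖]
    have hs0 : 0 ≤ s := le_trans (by positivity) h6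
    have h8 : M * (2 * τ / (1 + 2 * τ)) / (N + 2 * τ) ≤ M * s / (N + M * s) := by
      refine div_le_div₀ (by positivity) (mul_le_mul_of_nonneg_left h6 hM) (by positivity) ?_
      nlinarith
    have h9 : M * (2 * τ / (1 + 2 * τ)) / (N + 2 * τ) =
        2 * (τ * (M / ((1 + 2 * τ) * (N + 2 * τ)))) := by
      field_simp
    rw [le_div_iff₀ h0]
    nlinarith
  · have h1 : Tendsto (fun τ : ℝ => (1 - ‖φ z‖ ^ 2) / ‖φ z - exp (I * (y + τ * I))‖ ^ 2)
        (𝓝[>] 0) (𝓝 (PK y (φ z))) := tendsto_const_nhds.div hN (ne_expI ha y)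
    refine le_of_tendsto_of_tendsto hc h1 ?_
    filter_upwards [hev] with τ ⟨h0, h2, h3, _, h4⟩
    have hw : ‖exp (I * (y + τ * I))‖ ≤ 1 := by
      rw [h3]
      exact Real.exp_le_one_iff.2 (by linarith)
    have h5 := (GD_bounds ha.le hw h2).2
    have hNp : 0 < ‖φ z - exp (I * (y + τ * I))‖ ^ 2 := by
      have : 0 < ‖φ z - exp (I * (y + τ * I))‖ := norm_pos_iff.2 (sub_ne_zero.2 h2)
      positivity
    have h7 := one_sub_le τ
    rw [h3] at h5
    set N := ‖φ z - exp (I * (y + τ * I))‖ ^ 2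
    set M := 1 - ‖φ z‖ ^ 2
    set s := 1 - Real.exp (-τ) ^ 2
    have h8 : M * s / N ≤ M * (2 * τ) / N :=
      div_le_div_of_nonneg_right (mul_le_mul_of_nonneg_left h7 hM) hNp.le
    have h9 : M * (2 * τ) / N = 2 * (M / N * τ) := by ring
    rw [div_le_iff₀ h0]
    linarith

theorem PK_re (y : ℝ) {a : ℂ} (ha : a ≠ exp (I * y)) :
    PK y a = ((exp (I * y) + a) / (exp (I * y) - a)).re := by
  have h1 : ‖exp (I * y)‖ = 1 := by
    rw [norm_expI]
    simp
  have h2 : normSq (exp (I * y)) = 1 := by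
    rw [← Complex.sq_norm, h1]
    norm_num
  have h3 : normSq (exp (I * y) - a) ≠ 0 := by
    rw [Ne, normSq_eq_zero]
    exact sub_ne_zero.2 ha.symm
  rw [PK, norm_sub_rev, Complex.sq_norm, Complex.sq_norm, Complex.div_re]
  set w := exp (I * y)
  rw [normSq_apply] at h2
  field_simp
  simp only [normSq_apply, add_re, sub_re, add_im, sub_im]
  linear_combination -h2

theorem cot_bound {t : ℂ} (h0 : t ≠ 0) (h1 : ‖t‖ ≤ 1 / 2) :
    exp t ≠ 1 ∧ ‖(1 + exp t) / (1 - exp t) + 2 / t‖ ≤ 8 := by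
  have he := Complex.norm_exp_sub_one_sub_id_le (x := t) (by linarith)
  set e := exp t - 1 - t with hed
  have ht : 0 < ‖t‖ := norm_pos_iff.2 h0
  have hx : exp t = 1 + t + e := by rw [hed]; ring
  have hd : ‖t‖ / 2 ≤ ‖1 - exp t‖ := by
    have h2 : 1 - exp t = -(t + e) := by rw [hx]; ring
    have h3 : ‖t‖ ≤ ‖t + e‖ + ‖e‖ := by
      have := norm_sub_le (t + e) e
      simpa using this
    rw [h2, norm_neg]
    nlinarith
  have hne : 1 - exp t ≠ 0 := norm_pos_iff.1 (by linarith)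
  refine ⟨fun e' => hne (by rw [e']; ring), ?_⟩
  have h4 : (1 + exp t) / (1 - exp t) + 2 / t = (t ^ 2 + t * e - 2 * e) / (t * (1 - exp t)) := by
    field_simp
    rw [hx]
    ring
  rw [h4, norm_div, norm_mul, div_le_iff₀ (by positivity)]
  have h5 : ‖t ^ 2 + t * e - 2 * e‖ ≤ ‖t‖ ^ 2 + ‖t‖ * ‖e‖ + 2 * ‖e‖ := by
    refine (norm_sub_le _ _).trans (add_le_add ((norm_add_le _ _).trans ?_) ?_)
    · rw [norm_pow, norm_mul]
    · rw [norm_mul]
      simp
  have h6 : ‖t‖ * ‖e‖ ≤ ‖t‖ ^ 2 := by nlinarith [norm_nonneg e]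
  nlinarith

theorem PK_pole (y : ℝ) {η : ℂ} (h0 : η ≠ y) (h1 : ‖η - y‖ ≤ 1 / 2) :
    |PK y (exp (I * η)) - (-2 / (η - y)).im| ≤ 8 := by
  have hs : η - y ≠ 0 := sub_ne_zero.2 h0
  have ht0 : I * (η - y) ≠ 0 := mul_ne_zero I_ne_zero hs
  have ht1 : ‖I * (η - y)‖ ≤ 1 / 2 := by simpa using h1
  obtain ⟨h2, h3⟩ := cot_bound ht0 ht1
  have hx : exp (I * η) = exp (I * y) * exp (I * (η - y)) := by
    rw [← Complex.exp_add]
    congr 1
    ring
  have hy := Complex.exp_ne_zero (I * y)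
  have hne : exp (I * η) ≠ exp (I * y) := by
    intro e
    rw [hx] at e
    exact h2 (mul_left_cancel₀ hy (by rw [e, mul_one]))
  have h4 : (exp (I * y) + exp (I * η)) / (exp (I * y) - exp (I * η)) =
      (1 + exp (I * (η - y))) / (1 - exp (I * (η - y))) := by
    rw [hx, ← mul_one_add, ← mul_one_sub, mul_div_mul_left _ _ hy]
  have h5 : (-2 / (η - y)).im = -(2 / (I * (η - y))).re := by
    have : 2 / (I * (η - y)) = I * (-2 / (η - y)) := by
      field_simp
      simp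
    rw [this]
    simp
  rw [PK_re y hne, h4, h5, sub_neg_eq_add, ← add_re]
  exact (abs_re_le_norm _).trans h3

end MartP

open MartP in
theorem mart : S_MART := by
  intro r L φ F h H y hU hH
  have hW := hU.cont.isOpen_main
  choose! k hk0 hk using fun z (hz : z ∈ main r L) => exists_lim hU hH y hz
  obtain ⟨C, hC⟩ := k_bounds hU hH y
  have hlim := harm_limit (l := 𝓝[>] (0 : ℝ)) (u := fun τ z => gr H (F (y + τ * I)) z / τ)
    (f := k) hW ?_ hk
  · have hzero : ∀ x : ℝ, (∀ n : ℤ, x ≠ y + 2 * π * n) →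
        Tendsto (fun η : ℂ => k (F η)) (𝓝[upH] (x : ℂ)) (𝓝 0) := by
      intro x hx
      have hne : ‖exp (I * x) - exp (I * y)‖ ^ 2 ≠ 0 := by
        refine pow_ne_zero 2 (norm_ne_zero_iff.2 (sub_ne_zero.2 fun e => ?_))
        obtain ⟨n, hn⟩ := Complex.exp_eq_exp_iff_exists_int.1 e
        have h1 := congrArg Complex.im hn
        simp at h1
        exact hx n (by linarith)
      have h1 : Tendsto (fun η : ℂ => exp (I * η)) (𝓝[upH] (x : ℂ)) (𝓝 (exp (I * x))) :=
        ((by fun_prop : Continuous fun η : ℂ => exp (I * η)).tendsto _).mono_left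
          nhdsWithin_le_nhds
      have h2 : Tendsto (fun η : ℂ => PK y (exp (I * η))) (𝓝[upH] (x : ℂ))
          (𝓝 (PK y (exp (I * x)))) :=
        (tendsto_const_nhds.sub (h1.norm.pow 2)).div
          ((h1.sub tendsto_const_nhds).norm.pow 2) hne
      have h3 : PK y (exp (I * x)) = 0 := by
        rw [PK, norm_expI]
        simp
      rw [h3] at h2
      refine tendsto_of_tendsto_of_tendsto_of_le_of_le' tendsto_const_nhds h2 ?_ ?_
      · filter_upwards [hU.ev_main x] with η hη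
        exact (hk0 _ hη.2).le
      · filter_upwards [hU.ev_main x] with η hη
        rw [← hU.comp η hη.1]
        exact (hC _ hη.2 _ (hk _ hη.2)).2
    have hupne : ∀ η ∈ upH, η ≠ (y : ℂ) := by
      intro η hη e
      rw [e] at hη
      simp [upH] at hη
    refine ⟨k, hlim.1, hk0, hzero, ?_, ?_⟩
    · refine refAt_exc ?_ ⟨|C| + 8, ?_⟩ ?_
      · filter_upwards [hU.ev_main y, self_mem_nhdsWithin] with η hη hη'
        refine (hU.harm hη.1 (hlim.1 _ hη.2)).sub (AnalyticAt.harmonicAt_im ?_)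
        exact analyticAt_const.div (analyticAt_id.sub analyticAt_const)
          (sub_ne_zero.2 (hupne η hη'))
      · filter_upwards [hU.ev_main y, self_mem_nhdsWithin, mem_nhdsWithin_of_mem_nhds
          (closedBall_mem_nhds (y : ℂ) (by norm_num : (0 : ℝ) < 1 / 2))] with η hη hη' hb
        have h1 := PK_pole y (hupne η hη') (mem_closedBall_iff_norm.1 hb)
        have h2 := hC _ hη.2 _ (hk _ hη.2)
        rw [hU.comp η hη.1] at h2
        have h3 := le_abs_self C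
        have h4 := abs_nonneg C
        rw [abs_le] at h1 ⊢
        constructor <;> linarith [h1.1, h1.2, h2.1, h2.2]
      · have hb : ∀ᶠ t : ℝ in 𝓝[≠] y, |t - y| < 2 * π :=
          mem_nhdsWithin_of_mem_nhds (ball_mem_nhds y (by positivity : (0 : ℝ) < 2 * π))
        filter_upwards [self_mem_nhdsWithin, hb] with t ht ht'
        have hty : t ≠ y := ht
        have h1 := hzero t fun n e => by
          have hn : n ≠ 0 := by
            rintro rfl
            exact hty (by simpa using e)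
          have h2 : (1 : ℝ) ≤ |(n : ℝ)| := by exact_mod_cast Int.one_le_abs hn
          have h3 : |t - y| = 2 * π * |(n : ℝ)| := by
            rw [e, add_sub_cancel_left, abs_mul, abs_of_pos (by positivity : (0 : ℝ) < 2 * π)]
          have h4 := Real.pi_pos
          nlinarith
        have h2 : ContinuousAt (fun η : ℂ => (-2 / (η - y)).im) t := by
          refine Complex.continuous_im.continuousAt.comp ?_
          refine continuousAt_const.div (continuousAt_id.sub continuousAt_const) ?_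
          exact sub_ne_zero.2 (by exact_mod_cast hty)
        have h3 : (-2 / ((t : ℂ) - y)).im = 0 := by
          have : (-2 / ((t : ℂ) - y)) = ((-2 / (t - y) : ℝ) : ℂ) := by push_cast; rfl
          rw [this, ofReal_im]
        have h4 := h1.sub (h2.tendsto.mono_left (nhdsWithin_le_nhds (s := upH)))
        rw [h3, sub_zero] at h4
        exact h4
    · intro ζ hζ β
      have h1 := ((hlim.2.2 ζ hζ).const_mul β)
      have h2 := (Complex.continuous_re.tendsto _).comp h1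
      refine h2.congr' ?_
      filter_upwards [(tendsto_vert y).eventually (hU.ev_main y),
        (tendsto_vert y).eventually (hU.ev_ne y (isCompact_singleton (x := ζ))
        (singleton_subset_iff.2 hζ))] with τ h3 h4
      rw [hH.dgrad ζ hζ β _ h3.2 h4]
      have h5 : (fun z => gr H (F (y + τ * I)) z / τ) =
          fun z => τ⁻¹ * gr H (F (y + τ * I)) z := by
        funext z
        ring
      simp only [Function.comp]
      rw [h5, grad_const_mul, ← mul_assoc, mul_comm β, mul_assoc, re_ofReal_mul]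
      ring
  · intro z hz
    obtain ⟨ρ, hρ, hb⟩ := Metric.isOpen_iff.1 hW z hz
    have hcb : closedBall z (ρ / 2) ⊆ main r L :=
      (closedBall_subset_ball (by linarith)).trans hb
    refine ⟨ρ / 4, by positivity, 3 * (k z + 1), ?_⟩
    filter_upwards [self_mem_nhdsWithin, (tendsto_vert y).eventually (hU.ev_main y),
      (tendsto_vert y).eventually (hU.ev_ne y (isCompact_closedBall z (ρ / 2)) hcb),
      (hk z hz).eventually (gt_mem_nhds (lt_add_one (k z)))] with τ h0 h1 h2 h3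
    have hτ : 0 < τ := h0
    have hne : ∀ x ∈ ball z (ρ / 2), x ≠ F (y + τ * I) := fun x hx e =>
      h2 (e ▸ ball_subset_closedBall hx)
    have hh : HarmonicOnNhd (fun x => gr H (F (y + τ * I)) x / τ) (ball z (ρ / 2)) := by
      intro x hx
      have h4 := harm_const_mul
        (gr_harm hH (hcb (ball_subset_closedBall hx)) h1.2 (hne x hx)) τ⁻¹
      simpa only [div_eq_inv_mul] using h4
    have hp : ∀ x ∈ ball z (ρ / 2), 0 ≤ gr H (F (y + τ * I)) x / τ := fun x hx =>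
      div_nonneg (hH.pos _ h1.2 x (hcb (ball_subset_closedBall hx)) (hne x hx)).le hτ.le
    have hsub : ball z (ρ / 4) ⊆ ball z (ρ / 2) := ball_subset_ball (by linarith)
    refine ⟨fun x hx => hh x (hsub hx), fun x hx => ?_⟩
    have h4 := (harnack_ball hh hp (hsub hx)).2
    have h5 : ‖x - z‖ < ρ / 4 := mem_ball_iff_norm.1 hx
    have h6 : (ρ / 2 + ‖x - z‖) / (ρ / 2 - ‖x - z‖) ≤ 3 := by
      rw [div_le_iff₀ (by linarith)]
      linarith
    have h7 := hp z (mem_ball_self (by linarith))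
    rw [abs_of_nonneg (hp x (hsub hx))]
    refine h4.trans ((mul_le_mul_of_nonneg_right h6 h7).trans ?_)
    linarith

end Pool.Agent.P.MP_3bd355_an
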