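import Pool.Agent.P.MP_3bd355_an.Stmts

/-! Multiplicities of the boundary map. -/

open Set Filter Metric Complex InnerProductSpace
open scoped Topology ComplexConjugate Real

namespace Pool.Agent.P.MP_3bd355_an

namespace MultP

theorem th_one : th 2 0 = 1 := by norm_num [th]

theorem sector {w κ : ℂ} (hκ : κ ≠ 0) (h : 0 < (w / κ).im) :
    ∃ s : ℝ, 0 < s ∧ ∃ ϑ ∈ Ioo (0 : ℝ) (π * th 2 0), w = s * κ * exp (I * ϑ) := by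
  have h0 : w / κ ≠ 0 := fun e => by simp [e] at h
  refine ⟨‖w / κ‖, norm_pos_iff.2 h0, arg (w / κ), ⟨lt_of_le_of_ne (arg_nonneg_iff.2 h.le)
    fun e => h.ne' (arg_eq_zero_iff.1 e.symm).2, ?_⟩, ?_⟩
  · rw [th_one, mul_one]
    exact arg_lt_pi_iff.2 (Or.inr h.ne')
  · rw [mul_right_comm, mul_comm I, norm_mul_exp_arg_mul_I, div_mul_cancel₀ _ hκ]

theorem root_cases {κ₁ κ₂ : ℂ} (h₁ : κ₁ ^ 2 = -1) (h₂ : κ₂ ^ 2 = -1) (h : κ₂ ≠ κ₁) :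
    κ₂ = -κ₁ :=
  (sq_eq_sq_iff_eq_or_eq_neg.1 (h₂.trans h₁.symm)).resolve_left h

theorem ev_re (x : ℝ) {δ : ℝ} (hδ : 0 < δ) : ∀ᶠ η : ℂ in 𝓝[upH] (x : ℂ), |η.re - x| < δ := by
  refine mem_nhdsWithin_of_mem_nhds ?_
  filter_upwards [ball_mem_nhds (x : ℂ) hδ] with η hη
  have := abs_re_le_norm (η - x)
  rw [sub_re, ofReal_re] at this
  exact this.trans_lt (by simpa [dist_eq_norm] using hη)

variable {r : ℝ} {L : Set ℂ} {φ F Q ψ : ℂ → ℂ} {h : ℝ} {Fb : ℝ → ℂ}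

/-- two preimages of one point cannot have the same sector -/
theorem same (hU : Unif r L φ F h) (hB : Bd F Fb) {x₁ x₂ : ℝ} {n e : ℕ} {κ : ℂ} (hne : x₁ ≠ x₂)
    (hd : |x₂ - x₁| < 2 * π) (he : Fb x₁ = Fb x₂) (h₁ : Loc Q ψ F Fb x₁ n e κ)
    (h₂ : Loc Q ψ F Fb x₂ n e κ) : False := by
  have d0 : 0 < |x₂ - x₁| := abs_pos.2 (sub_ne_zero.2 hne.symm)
  obtain ⟨δ, hδ, δ1, δ2⟩ : ∃ δ : ℝ, 0 < δ ∧ 2 * δ ≤ |x₂ - x₁| ∧ 2 * δ ≤ 2 * π - |x₂ - x₁| :=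
    ⟨min |x₂ - x₁| (2 * π - |x₂ - x₁|) / 2, by
      have := lt_min d0 (sub_pos.2 hd)
      linarith, by linarith [min_le_left |x₂ - x₁| (2 * π - |x₂ - x₁|)],
      by linarith [min_le_right |x₂ - x₁| (2 * π - |x₂ - x₁|)]⟩
  have h3 := h₂.cov {η | η ∈ St h ∧ |η.re - x₂| < δ}
    (((hU.ev_main x₂).mono fun _ h => h.1).and (ev_re x₂ hδ))
  rw [← he] at h3
  obtain ⟨η, ⟨⟨h4, h5⟩, h6, -⟩, h7⟩ := ((((hB.lim x₁).eventually h3).and h₁.img).and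
    (hU.ev_main x₁)).and (ev_re x₁ hδ) |>.exists
  obtain ⟨η', ⟨h8, h9⟩, h10⟩ := h4 h5
  obtain ⟨k, hk⟩ := hU.inj_mod h6 h8 h10.symm
  have h11 : η'.re = η.re + 2 * π * k := by rw [hk, add_re, ofReal_re]
  have h12 : |2 * π * k - (x₂ - x₁)| < 2 * δ := by
    rw [abs_lt] at h7 h9 ⊢
    constructor <;> linarith [h7.1, h7.2, h9.1, h9.2]
  rcases eq_or_ne k 0 with rfl | hk0
  · rw [Int.cast_zero, mul_zero, zero_sub, abs_neg] at h12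
    linarith
  · have h13 : (1 : ℝ) ≤ |(k : ℝ)| := by exact_mod_cast Int.one_le_abs hk0
    have h14 := abs_sub_abs_le_abs_sub (2 * π * k) (x₂ - x₁)
    rw [abs_mul, abs_of_pos Real.two_pi_pos] at h14
    nlinarith [Real.two_pi_pos]

/-- two opposite sectors cover a neighbourhood -/
theorem opp (hU : Unif r L φ F h) {x₁ x₂ s0 s1 : ℝ} {κ : ℂ} (hx : x₁ ∈ Ioo s0 s1)
    (he : Fb x₁ = Fb x₂) (hc : Chart Q (Fb x₁) 2 ψ) (h₁ : Loc Q ψ F Fb x₁ 2 0 κ)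
    (h₂ : Loc Q ψ F Fb x₂ 2 0 (-κ)) :
    ∀ᶠ z in 𝓝 (Fb x₁), z ∈ main r L ∨ z ∈ Fb '' Icc s0 s1 := by
  have hκ : κ ≠ 0 := fun e => by
    have := h₁.root
    rw [e] at this
    norm_num at this
  have h3 := h₁.cov {η | F η ∈ main r L} ((hU.ev_main x₁).mono fun _ h => h.2)
  have h4 := h₂.cov {η | F η ∈ main r L} ((hU.ev_main x₂).mono fun _ h => h.2)
  rw [← he] at h4
  have h5 := h₁.covR (Icc s0 s1) (mem_nhdsWithin_of_mem_nhds (Icc_mem_nhds hx.1 hx.2))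
  have h6 := h₁.covL (Icc s0 s1) (mem_nhdsWithin_of_mem_nhds (Icc_mem_nhds hx.1 hx.2))
  obtain ⟨U, hU', h7⟩ := hc.inj
  filter_upwards [h3, h4, h5, h6, hU'] with z h3 h4 h5 h6 hz
  have e : ψ z = ψ z / κ * κ := (div_mul_cancel₀ _ hκ).symm
  rcases lt_trichotomy 0 (ψ z / κ).im with h8 | h8 | h8
  · obtain ⟨η, h9, rfl⟩ := h3 (sector hκ h8)
    exact Or.inl h9
  · have e2 : ψ z / κ = ((ψ z / κ).re : ℝ) := Complex.ext (by simp) (by simpa using h8.symm)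
    rw [e2] at e
    right
    rcases lt_trichotomy 0 (ψ z / κ).re with h9 | h9 | h9
    · obtain ⟨t, ht, rfl⟩ := h5 ⟨_, h9, e⟩
      exact mem_image_of_mem _ ht
    · rw [← h9, ofReal_zero, zero_mul, ← hc.zero] at e
      exact ⟨x₁, Ioo_subset_Icc_self hx, (h7 hz (mem_of_mem_nhds hU') e).symm⟩
    · obtain ⟨t, ht, rfl⟩ := h6 ⟨-(ψ z / κ).re, neg_pos.2 h9, by
        rw [th_one, mul_one, mul_comm I, exp_pi_mul_I]
        push_cast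
        linear_combination e⟩
      exact mem_image_of_mem _ ht
  · obtain ⟨η, h9, rfl⟩ := h4 (sector (neg_ne_zero.2 hκ) (by rw [div_neg, neg_im]; linarith))
    exact Or.inl h9

end MultP

open MultP in
theorem mult (h : S_LOC) : S_MULT := by
  intro r A B z₀ z₁ L v φ F hh s0 s1 a b c Fb R
  have hU := R.fr.unif
  have h0 := hU.cont.r0
  have h1 := hU.cont.r1
  have m0 : z₀ ∈ ann r := (main_sub r L R.m0).1
  have m1 := R.fr.cfg.m1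
  obtain ⟨S, hS, s0', s1', hQ⟩ := R.nz.finite h0 h1 m0 m1
  have hd : ∀ x₁ ∈ Ioo s0 s1, ∀ x₂ ∈ Ioo s0 s1, |x₂ - x₁| < 2 * π := fun x₁ h₁ x₂ h₂ => by
    have := R.fr.pic.le
    rw [abs_lt]
    constructor <;> linarith [h₁.1, h₁.2, h₂.1, h₂.2]
  have key : ∀ x ∈ Ioo s0 s1, Fb x ∉ S ∪ Fb '' (Zer v F s0 s1 ∩ Icc s0 s1) → ∃ ψ,
      Chart (QD r z₀ z₁ a b c) (Fb x) 2 ψ ∧ ∀ y ∈ Ioo s0 s1, Fb y = Fb x →
        ∃ κ, Loc (QD r z₀ z₁ a b c) ψ F Fb y 2 0 κ := by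
    intro x _ hG
    rw [mem_union, not_or] at hG
    have hc := (R.bd.mem hU x).2.2.1
    obtain ⟨n, ψ, h2, -, h3⟩ := R.nz.chart h0 h1 m0 m1 hc fun e => hG.1 (e ▸ s0')
    obtain rfl := (h3 fun e => hG.1 (e ▸ s1')).2 (hQ _ hc hG.1)
    refine ⟨ψ, h2, fun y hy e => h r L φ F hh Fb _ ψ y 2 0 hU R.bd Even.zero (e ▸ h2) ?_⟩
    exact (R.edat.ed y (Ioo_sub_Zo hy)).resolve_right fun h4 =>
      hG.2 ⟨y, ⟨h4.1, Ioo_subset_Icc_self hy⟩, e⟩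
  refine ⟨S ∪ Fb '' (Zer v F s0 s1 ∩ Icc s0 s1), hS.union (R.fr.pv.fin.image _), ?_, ?_, ?_⟩
  · rintro p hp x₁ x₂ x₃ a1 a2 a3 a4 rfl e2 e3
    have i1 : x₁ ∈ Ioo s0 s1 := ⟨a1, by linarith⟩
    have i2 : x₂ ∈ Ioo s0 s1 := ⟨by linarith, by linarith⟩
    have i3 : x₃ ∈ Ioo s0 s1 := ⟨by linarith, a4⟩
    obtain ⟨ψ, -, h3⟩ := key x₁ i1 hp
    obtain ⟨κ₁, l1⟩ := h3 x₁ i1 rfl
    obtain ⟨κ₂, l2⟩ := h3 x₂ i2 e2
    obtain ⟨κ₃, l3⟩ := h3 x₃ i3 e3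
    by_cases c2 : κ₂ = κ₁
    · exact same hU R.bd a2.ne (hd _ i1 _ i2) e2.symm l1 (c2 ▸ l2)
    by_cases c3 : κ₃ = κ₁
    · exact same hU R.bd (a2.trans a3).ne (hd _ i1 _ i3) e3.symm l1 (c3 ▸ l3)
    have c4 : κ₃ = κ₂ := (root_cases l1.root l3.root c3).trans (root_cases l1.root l2.root c2).symm
    exact same hU R.bd a3.ne (hd _ i2 _ i3) (e2.trans e3.symm) l2 (c4 ▸ l3)
  · rintro p hp x₁ i1 x₂ i2 hne rfl e2
    obtain ⟨ψ, h2, h3⟩ := key x₁ i1 hp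
    obtain ⟨κ₁, l1⟩ := h3 x₁ i1 rfl
    obtain ⟨κ₂, l2⟩ := h3 x₂ i2 e2
    by_cases c2 : κ₂ = κ₁
    · exact (same hU R.bd hne (hd _ i1 _ i2) e2.symm l1 (c2 ▸ l2)).elim
    obtain rfl := root_cases l1.root l2.root c2
    exact opp hU i1 e2.symm h2 l1 l2
  · intro x₁ x₂ a1 a2 a3
    obtain ⟨x, b1, b2⟩ := exists_between a2
    have hm := R.bd.mem hU x
    obtain ⟨n, ψ, h2, -⟩ := R.nz.chart h0 h1 m0 m1 hm.2.2.1 fun e => hm.2.2.2 (e ▸ R.m0)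
    obtain ⟨e, he, h3⟩ : ∃ e, Even e ∧ Ed (QD r z₀ z₁ a b c) F x e :=
      (R.edat.ed x (Ioo_sub_Zo ⟨by linarith, by linarith⟩)).elim (fun h => ⟨0, Even.zero, h⟩)
        fun h => ⟨2, even_two, h.2⟩
    obtain ⟨κ, l⟩ := h r L φ F hh Fb _ ψ x n e hU R.bd he h2 h3
    obtain ⟨τ, hτ, h4⟩ := l.injR
    refine ((Ico_infinite (lt_min (lt_add_of_pos_right x hτ) b2)).image
      (h4.mono (Ico_subset_Ico_right (min_le_left _ _)))).mono (image_mono fun t ht => ?_)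
    exact ⟨b1.trans_le ht.1, ht.2.trans_le (min_le_right _ _)⟩

end Pool.Agent.P.MP_3bd355_an
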