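import Pool.Agent.P.MP_3bd355_an.Stmts

/-! The failure of positivity passes to Hausdorff limits. -/

open Set Filter Metric Complex InnerProductSpace
open scoped Topology ComplexConjugate Real

namespace Pool.Agent.P.MP_3bd355_an

namespace OpenP

/-- The points that see only the main component, the exposed arc and the outer circle. -/
def vis (r : ℝ) (L : Set ℂ) : Set ℂ :=
  interior {z | z ∈ cann r → z ∈ main r L ∨ z ∈ Ex r L ∨ ‖z‖ = 1}

theorem vis_main {r : ℝ} {L : Set ℂ} (h : Cont r L) {q : ℂ} (hq : q ∈ main r L) : q ∈ vis r L := by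
  rw [vis, mem_interior_iff_mem_nhds]
  filter_upwards [h.isOpen_main.mem_nhds hq] with z hz _
  exact Or.inl hz

theorem vis_Ex {r : ℝ} {L : Set ℂ} (h : Cont r L) {q : ℂ} (hq : q ∈ Ex r L) : q ∈ vis r L := by
  rw [vis, mem_interior_iff_mem_nhds]
  have h1 := eventually_nhdsWithin_iff.1 (h.ev_main hq.2.2 hq.2.1)
  filter_upwards [h1, h.Ex_nhds hq] with z hz1 hz2 hz
  rcases hz.1.eq_or_lt with ha | ha
  · exact Or.inr (Or.inl (hz2 ha.symm))
  · rcases hz.2.eq_or_lt with hb | hb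
    · exact Or.inr (Or.inr hb)
    · exact Or.inl (hz1 ⟨ha, hb⟩)

theorem vis_out {r : ℝ} {L : Set ℂ} (h : Cont r L) (hL : ∀ p ∈ L, ‖p‖ < 1) {q : ℂ}
    (hq : ‖q‖ = 1) : q ∈ vis r L := by
  rw [vis, mem_interior_iff_mem_nhds]
  have hqL : q ∉ L := fun hm => (hL q hm).ne hq
  have h1 := eventually_nhdsWithin_iff.1 (h.ev_main (h.outer_closure hL hq) hqL)
  have h2 : ∀ᶠ z in 𝓝 q, r < ‖z‖ :=
    continuous_norm.continuousAt.eventually (lt_mem_nhds (h.r1.trans_eq hq.symm))
  filter_upwards [h1, h2] with z hz1 hz2 hz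
  rcases hz.2.eq_or_lt with hb | hb
  · exact Or.inr (Or.inr hb)
  · exact Or.inl (hz1 ⟨hz2, hb⟩)

theorem ev_compact {C : Set ℂ} (hC : IsCompact C) {P : ℕ → ℂ → Prop}
    (h : ∀ q ∈ C, ∃ t ∈ 𝓝 q, ∀ᶠ k in atTop, ∀ z ∈ t, P k z) : ∀ᶠ k in atTop, ∀ z ∈ C, P k z := by
  refine hC.induction_on (p := fun s => ∀ᶠ k in atTop, ∀ z ∈ s, P k z) ?_ ?_ ?_ ?_
  · exact Eventually.of_forall fun _ _ hz => hz.elim
  · exact fun s t hst ht => ht.mono fun k hk z hz => hk z (hst hz)
  · intro s t hs ht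
    filter_upwards [hs, ht] with k h1 h2 z hz
    exact hz.elim (h1 z) (h2 z)
  · intro q hq
    obtain ⟨t, ht, h'⟩ := h q hq
    exact ⟨t, nhdsWithin_le_nhds ht, h'⟩

end OpenP

open OpenP in
theorem opn (hL : S_LIM) (hP : S_PN) : S_OPEN := by
  intro r A B Ls L vs v hA hB hc hcs hH hL1 hLs1 hvs hv hnp
  by_contra hcon
  have hpos : ∀ p ∈ L, ∀ᶠ z in 𝓝[main r L] p, 0 < v z := by
    intro p hp
    by_contra hn
    exact hcon ⟨p, hp, by simpa [not_eventually] using hn⟩
  obtain ⟨hlu, hex⟩ := hL r A B Ls L vs v hc hcs hH (Or.inr hL1) (fun k => Or.inr (hLs1 k)) hvs hv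
  obtain ⟨δ, hδ, hδL, hδW⟩ := hc.collar hL1
  set O : Set ℂ := interior {z | z ∈ main r L → 0 < v z} ∩ ball 0 (1 - δ / 2) with hO
  have hOo : IsOpen O := isOpen_interior.inter isOpen_ball
  have hLO : L ⊆ O := fun p hp =>
    ⟨mem_interior_iff_mem_nhds.2 (eventually_nhdsWithin_iff.1 (hpos p hp)),
      mem_ball_zero_iff.2 (by linarith [hδL p hp])⟩
  set Lh : Set ℂ := cann r \ vis r L with hLh
  have hLhc : IsCompact Lh := (isCompact_cann r).diff isOpen_interior
  have hLLh : L ⊆ Lh := by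
    intro p hp
    refine ⟨hc.sub hp, fun hi => ?_⟩
    rcases interior_subset hi (hc.sub hp) with h | h | h
    · exact (main_sub r L h).2 hp
    · exact h.2.1 hp
    · exact (hL1 p hp).ne h
  have hLhO : Lh ⊆ O ∪ (closure (main r L))ᶜ := by
    intro q hq
    by_cases hcl : q ∈ closure (main r L)
    · left
      by_cases hW : q ∈ main r L
      · exact (hq.2 (vis_main hc hW)).elim
      · have hfr : q ∈ frontier (main r L) := by
          rw [hc.isOpen_main.frontier_eq]; exact ⟨hcl, hW⟩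
        rcases (hc.frontier_sub hfr).2.2 with h | h | h
        · exact hLO h
        · exact (hq.2 (vis_Ex hc h)).elim
        · exact (hq.2 (vis_out hc hL1 h)).elim
    · exact Or.inr hcl
  obtain ⟨ε, hε, hth⟩ := hLhc.exists_cthickening_subset_open
    (hOo.union isClosed_closure.isOpen_compl) hLhO
  have hCc : IsCompact (cann r ∩ (cthickening ε Lh \ thickening ε Lh)) :=
    (isCompact_cann r).inter_right (isClosed_cthickening.sdiff isOpen_thickening)
  have hC : ∀ᶠ k in atTop, ∀ z ∈ cann r ∩ (cthickening ε Lh \ thickening ε Lh),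
      z ∈ ann r → 0 < vs k z := by
    refine ev_compact hCc fun q hq => ?_
    have hqv : q ∈ vis r L := by
      by_contra hn
      exact hq.2.2 (self_subset_thickening hε _ ⟨hq.1, hn⟩)
    have hqO : q ∈ closure (main r L) → q ∈ O := fun hcl =>
      (hth hq.2.1).resolve_right fun h => h hcl
    rcases interior_subset hqv hq.1 with h | h | h
    · have hvq : 0 < v q := interior_subset (hqO (subset_closure h)).1 h
      obtain ⟨t, ht, hk⟩ := Metric.tendstoLocallyUniformlyOn_iff.1 hlu (v q / 2) (by linarith) q h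
      rw [hc.isOpen_main.nhdsWithin_eq h] at ht
      have h2 : ∀ᶠ z in 𝓝 q, v q / 2 < v z :=
        (hv.harm q h).1.continuousAt.eventually (lt_mem_nhds (by linarith))
      refine ⟨_, inter_mem ht h2, hk.mono fun k hk z hz _ => ?_⟩
      have h3 := hk z hz.1
      have h4 : v q / 2 < v z := hz.2
      rw [Real.dist_eq, abs_lt] at h3
      linarith [h3.2]
    · obtain ⟨ρ, hρ, hk⟩ := hex q h (B / 2) (by linarith)
      refine ⟨_, ball_mem_nhds q hρ, hk.mono fun k hk z hz hza => ?_⟩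
      have h3 := abs_le.1 (hk z ⟨hz, hza⟩)
      linarith [h3.1]
    · have := mem_ball_zero_iff.1 (hqO (hc.outer_closure hL1 h)).2
      linarith
  obtain ⟨k, hk1, hk2⟩ := (hC.and (hH ε hε)).exists
  obtain ⟨hN, δ', hδ', hneg⟩ := (hP r A B (Ls k) (vs k) (hcs k) (hvs k) hA.le hB).2 hA (hLs1 k)
  have hNa : ∀ z, vs k z < 0 → z ∈ ann r := fun z hz =>
    (main_sub r _ ((hvs k).mem_main hz.ne)).1
  have hcover : {z | vs k z < 0} ⊆ thickening ε Lh ∪ (cthickening ε Lh)ᶜ := by
    intro z hz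
    by_contra hn
    rw [mem_union, not_or, mem_compl_iff, not_not] at hn
    have := hk1 z ⟨ann_sub_cann r (hNa z hz), hn.2, hn.1⟩ (hNa z hz)
    exact lt_asymm this hz
  have h1 : ({z | vs k z < 0} ∩ thickening ε Lh).Nonempty := by
    have hn := hnp k
    simp only [Pos, not_forall, not_eventually, not_le] at hn
    obtain ⟨p, hp, hf⟩ := hn
    have hpt : thickening ε Lh ∈ 𝓝 p :=
      isOpen_thickening.mem_nhds (thickening_subset_of_subset ε hLLh (hk2.1 hp))
    obtain ⟨z, hz1, hz2⟩ := (hf.and_eventually (nhdsWithin_le_nhds hpt)).exists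
    exact ⟨z, hz1, hz2⟩
  have h2 : ({z | vs k z < 0} ∩ (cthickening ε Lh)ᶜ).Nonempty := by
    obtain ⟨s, hs1, hs2⟩ : ∃ s : ℝ, max r (max (1 - δ') (1 - δ / 2)) < s ∧ s < 1 :=
      exists_between (max_lt hc.r1 (max_lt (by linarith) (by linarith)))
    simp only [max_lt_iff] at hs1
    have hns : ‖(s : ℂ)‖ = s := by
      rw [norm_real, Real.norm_eq_abs, abs_of_pos (hc.r0.trans hs1.1)]
    have hsa : (s : ℂ) ∈ ann r := ⟨by rw [hns]; exact hs1.1, by rw [hns]; exact hs2⟩
    refine ⟨s, hneg _ hsa (by rw [hns]; exact hs1.2.1), fun hm => ?_⟩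
    rcases hth hm with h | h
    · have := mem_ball_zero_iff.1 h.2
      rw [hns] at this
      linarith [hs1.2.2]
    · exact h (subset_closure (hδW _ hsa (by rw [hns]; linarith [hs1.2.2])))
  obtain ⟨z, -, hz1, hz2⟩ := hN _ _ isOpen_thickening isClosed_cthickening.isOpen_compl hcover h1 h2
  exact hz2 (thickening_subset_cthickening ε Lh hz1)

end Pool.Agent.P.MP_3bd355_an
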