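import Pool.Agent.P.MP_3bd355_an.Stmts

/-! The sets where the solution is positive or negative are connected; reflection. -/

open Set Filter Metric Complex InnerProductSpace
open scoped Topology ComplexConjugate Real

namespace Pool.Agent.P.MP_3bd355_an

namespace PNP

theorem gen {r : ℝ} {L E S : Set ℂ} {w : ℂ → ℝ} (hL : Cont r L)
    (hw : HarmonicOnNhd w (main r L)) (hb : ∃ M : ℝ, ∀ z, w z ≤ M)
    (hoff : ∀ z, z ∉ main r L → w z = 0) (hE : IsPreconnected E) (hEc : E ⊆ cann r)
    (hpos : ∀ p ∈ E, ∀ᶠ z in 𝓝[ann r] p, 0 < w z) (hS : S.Finite)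
    (hls : ∀ p ∈ frontier (main r L), p ∉ S → p ∉ E → LS w (main r L) p 0) :
    IsPreconnected {z | 0 < w z} := by
  set P := {z | 0 < w z} with hP
  have hPW : P ⊆ main r L := fun z hz => by
    by_contra h
    have h1 : 0 < w z := hz
    rw [hoff z h] at h1
    exact lt_irrefl _ h1
  have hPo : IsOpen P := by
    rw [isOpen_iff_mem_nhds]
    intro z hz
    exact (harm_diff (hw z (hPW hz))).continuousAt.eventually (lt_mem_nhds hz)
  have hPa : P ⊆ ann r := fun z hz => (main_sub r L (hPW hz)).1
  have ex : ∀ p : ℂ, ∃ (V : Set ℂ) (x : ℂ), p ∈ E → IsOpen V ∧ p ∈ V ∧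
      V ∩ ann r ⊆ connectedComponentIn P x := by
    intro p
    by_cases hp : p ∈ E
    · have h1 := hpos p hp
      rw [eventually_nhdsWithin_iff] at h1
      obtain ⟨V, hV, hpV, hVO, hc, -, x, hx⟩ := loc_conn hL.r0 hL.r1 (hEc hp) h1
      exact ⟨V, x, fun _ => ⟨hV, hpV,
        hc.subset_connectedComponentIn hx fun y hy => hVO hy.1 hy.2⟩⟩
    · exact ⟨∅, 0, fun h => absurd h hp⟩
  choose V x hV using ex
  have same : ∀ p ∈ E, ∀ q ∈ E,
      connectedComponentIn P (x p) = connectedComponentIn P (x q) := by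
    intro p hp q hq
    refine hE.induction₂
      (fun a b => connectedComponentIn P (x a) = connectedComponentIn P (x b)) ?_
      (fun _ _ _ _ _ _ h1 h2 => h1.trans h2) (fun _ _ _ _ h => h.symm) hp hq
    intro a ha
    obtain ⟨h1, h2, h3⟩ := hV a ha
    filter_upwards [nhdsWithin_le_nhds (h1.mem_nhds h2), self_mem_nhdsWithin] with b hb1 hb2
    obtain ⟨k1, k2, k3⟩ := hV b hb2
    have hcl : b ∈ closure (ann r) := by
      rw [closure_ann hL.r0 hL.r1]
      exact hEc hb2
    obtain ⟨y, hy1, hy2⟩ := mem_closure_iff.mp hcl _ (h1.inter k1) ⟨hb1, k2⟩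
    rw [connectedComponentIn_eq (h3 ⟨hy1.1, hy2⟩), connectedComponentIn_eq (k3 ⟨hy1.2, hy2⟩)]
  have meet : ∀ z ∈ P, ∃ p ∈ E, connectedComponentIn P z = connectedComponentIn P (x p) := by
    intro z hz
    by_contra hne
    push Not at hne
    set D := connectedComponentIn P z with hD
    have hDP : D ⊆ P := connectedComponentIn_subset _ _
    have hDo : IsOpen D := hPo.connectedComponentIn
    have hDW : D ⊆ main r L := hDP.trans hPW
    obtain ⟨M, hM⟩ := hb
    have hmp := ((Sub.of_harm hw).mono hDW).mpx hDo ((bdd_main r L).subset hDW)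
      ⟨M, fun y _ => hM y⟩ hS (c := 0) (by
        intro q hq hqS
        have hqD : q ∈ closure D := frontier_subset_closure hq
        rw [hDo.frontier_eq] at hq
        by_cases hqW : q ∈ main r L
        · have hc := (harm_diff (hw q hqW)).continuousAt
          refine LS.of_tendsto (hc.tendsto.mono_left nhdsWithin_le_nhds) ?_
          by_contra hlt
          have hqP : q ∈ P := not_le.mp hlt
          have h1 : IsOpen (connectedComponentIn P q) := hPo.connectedComponentIn
          obtain ⟨y, hy1, hy2⟩ := mem_closure_iff.mp hqD _ h1 (mem_connectedComponentIn hqP)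
          apply hq.2
          rw [hD, connectedComponentIn_eq hy2, ← connectedComponentIn_eq hy1]
          exact mem_connectedComponentIn hqP
        · have hf : q ∈ frontier (main r L) := by
            rw [hL.isOpen_main.frontier_eq]
            exact ⟨closure_mono hDW hqD, hqW⟩
          refine (hls q hf hqS fun hqE => ?_).mono hDW
          obtain ⟨h1, h2, h3⟩ := hV q hqE
          obtain ⟨y, hy1, hy2⟩ := mem_closure_iff.mp hqD _ h1 h2
          apply hne q hqE
          rw [hD, connectedComponentIn_eq hy2,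
            connectedComponentIn_eq (h3 ⟨hy1, hPa (hDP hy2)⟩)])
    exact absurd (hmp z (mem_connectedComponentIn hz)) (not_le.mpr hz)
  refine isPreconnected_of_forall_pair fun a ha b hb' => ⟨connectedComponentIn P a,
    connectedComponentIn_subset _ _, mem_connectedComponentIn ha, ?_,
    isPreconnected_connectedComponentIn⟩
  obtain ⟨p, hp, h1⟩ := meet a ha
  obtain ⟨q, hq, h2⟩ := meet b hb'
  rw [h1, same p hp q hq, ← h2]
  exact mem_connectedComponentIn hb'

theorem collar {r : ℝ} (h0 : 0 < r) {Q : ℂ → Prop}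
    (h : ∀ p : ℂ, ‖p‖ = 1 → ∀ᶠ z in 𝓝[ann r] p, Q z) :
    ∃ δ > 0, ∀ z ∈ ann r, 1 - δ < ‖z‖ → Q z := by
  have hs : sphere (0 : ℂ) 1 ⊆ interior {z | z ∈ ann r → Q z} := by
    intro p hp
    rw [mem_interior_iff_mem_nhds]
    have h1 := h p (mem_sphere_zero_iff_norm.mp hp)
    rwa [eventually_nhdsWithin_iff] at h1
  obtain ⟨δ, hδ, hth⟩ :=
    (isCompact_sphere (0 : ℂ) 1).exists_thickening_subset_open isOpen_interior hs
  refine ⟨δ, hδ, fun z hz hz' => interior_subset (hth ?_) hz⟩
  have hz0 : 0 < ‖z‖ := h0.trans hz.1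
  rw [mem_thickening_iff]
  refine ⟨((‖z‖⁻¹ : ℝ) : ℂ) * z, ?_, ?_⟩
  · rw [mem_sphere_zero_iff_norm, norm_mul, Complex.norm_real, Real.norm_eq_abs,
      abs_of_pos (inv_pos.mpr hz0), inv_mul_cancel₀ hz0.ne']
  · have e : z - ((‖z‖⁻¹ : ℝ) : ℂ) * z = ((1 - ‖z‖⁻¹ : ℝ) : ℂ) * z := by
      push_cast
      ring
    have h2 : 1 ≤ ‖z‖⁻¹ := (one_le_inv₀ hz0).mpr hz.2.le
    rw [dist_eq_norm, e, norm_mul, Complex.norm_real, Real.norm_eq_abs, abs_sub_comm,
      abs_of_nonneg (by linarith), sub_mul, inv_mul_cancel₀ hz0.ne']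
    linarith

end PNP

open PNP in
theorem pn : S_PN := by
  intro r A B L v hL hv hA hB
  obtain ⟨C, hC⟩ := hv.bdd
  have hnE : ∀ p ∈ L, p ∉ closure (Ex r L) \ Ex r L → p ∉ closure (Ex r L) :=
    fun p hp h1 h2 => h1 ⟨h2, fun h3 => h3.2.1 hp⟩
  refine ⟨?_, fun hA' hL1 => ?_⟩
  · refine gen hL hv.harm ⟨C, fun z => (le_abs_self _).trans (hC z)⟩ hv.off hL.preconn_Ex
      (fun p hp => ⟨hp.1.ge, by rw [hp.1]; exact hL.r1.le⟩)
      (fun p hp => (hv.inner hL hp).eventually (lt_mem_nhds hB)) hL.exc_finite ?_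
    intro p hp hS hE
    by_cases hpL : p ∈ L
    · exact LS.of_tendsto (hv.atL p hpL (hnE p hpL hS)) le_rfl
    · rcases (hL.frontier_sub hp).2.2 with h | h | h
      · exact absurd h hpL
      · exact absurd h hE
      · exact LS.of_tendsto (hv.atA p h hpL) hA
  · have hout : ∀ p : ℂ, ‖p‖ = 1 → ∀ᶠ z in 𝓝[ann r] p, v z < 0 := fun p hp =>
      (hv.outer hL (Or.inr hL1) hp).eventually (gt_mem_nhds hA')
    refine ⟨?_, collar hL.r0 hout⟩
    have h1 : IsPreconnected {z | 0 < -v z} := by
      refine gen (E := sphere 0 1) hL (w := fun z => -v z) (fun z hz => (hv.harm z hz).neg)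
        ⟨C, fun z => (neg_le_abs _).trans (hC z)⟩ (fun z hz => by simp [hv.off z hz])
        (isPreconnected_sphere (by rw [Complex.rank_real_complex]; norm_num) _ _)
        (fun p hp => by
          have := mem_sphere_zero_iff_norm.mp hp
          exact ⟨by rw [this]; exact hL.r1.le, this.le⟩)
        (fun p hp => (hout p (mem_sphere_zero_iff_norm.mp hp)).mono fun z hz => neg_pos.mpr hz)
        hL.exc_finite ?_
      intro p hp hS hE
      rcases (hL.frontier_sub hp).2.2 with h | h | h
      · exact LS.of_tendsto (hv.atL p h (hnE p h hS)).neg (by simp)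
      · exact LS.of_tendsto (hv.atB p h).neg (by linarith)
      · exact absurd (mem_sphere_zero_iff_norm.mpr h) hE
    simpa using h1

theorem refl : S_REFL := by
  intro r A B L v hL hO hA hB hv hs z hz
  rcases le_or_gt z.im 0 with hi | hi
  · rw [fold_of_nonpos hi]
  rw [fold_of_nonneg hi.le]
  have hup : IsOpen upH := isOpen_lt continuous_const continuous_im
  have hU : IsOpen (ann r ∩ upH) := (isOpen_ann r).inter hup
  have hsub : Sub (fun y => v (conj y) - v y) (ann r ∩ upH) :=
    (hs.comp_conj fun y hy => conj_mem_ann.mpr hy.1).sub_harm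
      fun y hy => hv.harm y (hL.upper_sub hy)
  have hbd := fun y => hv.bounds hL (lo := A) (hi := B) hA le_rfl (hA.trans hB) hB (hA.trans hB)
    le_rfl y
  have hcj : ∀ q : ℂ, Tendsto (fun y : ℂ => conj y) (𝓝[ann r ∩ upH] q) (𝓝[ann r] (conj q)) := by
    intro q
    refine tendsto_nhdsWithin_iff.mpr ⟨continuous_conj.continuousAt.tendsto.mono_left
      nhdsWithin_le_nhds, ?_⟩
    exact eventually_nhdsWithin_of_forall fun y hy => conj_mem_ann.mpr hy.1
  have hle : ∀ q : ℂ, 𝓝[ann r ∩ upH] q ≤ 𝓝[ann r] q := fun q =>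
    nhdsWithin_mono _ inter_subset_left
  have hmp := hsub.mpx hU ((bdd_ann r).subset inter_subset_left)
    ⟨B - A, fun y _ => by linarith [(hbd (conj y)).2, (hbd y).1]⟩
    (S := {(r : ℂ), -(r : ℂ)}) (Set.toFinite _) (c := 0) (by
      intro q hq hqS
      have hq1 : q ∈ cann r := by
        rw [← closure_ann hL.r0 hL.r1]
        exact closure_mono inter_subset_left (frontier_subset_closure hq)
      have hq2 : 0 ≤ q.im :=
        closure_minimal (t := {y : ℂ | 0 ≤ y.im}) (fun y hy => le_of_lt (show 0 < y.im from hy.2))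
          (isClosed_le continuous_const continuous_im) (frontier_subset_closure hq)
      rw [hU.frontier_eq] at hq
      rcases hq1.2.eq_or_lt with h1 | h1
      · have t1 := (hv.outer hL hO (p := conj q) (by rw [Complex.norm_conj, h1])).comp (hcj q)
        have t2 := (hv.outer hL hO h1).mono_left (hle q)
        exact LS.of_tendsto (t1.sub t2) (by simp)
      rcases hq1.1.eq_or_lt with h2 | h2
      · rcases hq2.eq_or_lt with h3 | h3
        · exfalso
          apply hqS
          have e : q = (q.re : ℂ) := Complex.ext (by simp) (by simp [← h3])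
          have h4 : |q.re| = r := by
            rw [h2]
            conv_rhs => rw [e]
            rw [Complex.norm_real, Real.norm_eq_abs]
          rcases (abs_eq hL.r0.le).mp h4 with h5 | h5
          · left
            rw [e, h5]
          · right
            rw [e, h5]
            simp
        · have t2 := (hv.inner hL (hL.upper_Ex h2.symm h3)).mono_left (hle q)
          have t1 : LS (fun y => v (conj y)) (ann r ∩ upH) q B :=
            LS.of_eventually (Eventually.of_forall fun y => (hbd _).2)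
          exact (t1.sub_tendsto t2).le (by simp)
      · have hqa : q ∈ ann r := ⟨h2, h1⟩
        have h3 : q.im = 0 := by
          rcases hq2.eq_or_lt with h3 | h3
          · exact h3.symm
          · exact absurd ⟨hqa, h3⟩ hq.2
        have e : conj q = q := conj_eq_iff_im.mpr h3
        have t0 : Tendsto v (𝓝[ann r] q) (𝓝 (v q)) := hv.contOn hL q hqa
        have t3 := hcj q
        rw [e] at t3
        exact LS.of_tendsto ((t0.comp t3).sub (t0.mono_left (hle q))) (by simp))
  have := hmp z ⟨hz, hi⟩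
  linarith

end Pool.Agent.P.MP_3bd355_an
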