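import Pool.Agent.P.MP_3bd355_an.Stmts

/-! The picture of the solution on the real line. -/

open Set Filter Metric Complex InnerProductSpace
open scoped Topology ComplexConjugate Real

namespace Pool.Agent.P.MP_3bd355_an

namespace PVP

variable {r A B h s0 s1 : ℝ} {z₁ : ℂ} {L : Set ℂ} {v : ℂ → ℝ} {φ F : ℂ → ℂ}

theorem harm_ev (hU : Unif r L φ F h) {u : ℂ → ℝ} (hu : HarmonicOnNhd u (main r L)) (x : ℝ) :
    ∀ᶠ η : ℂ in 𝓝[upH] (x : ℂ), HarmonicAt (fun y => u (F y)) η :=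
  (hU.ev_main x).mono fun _ hη => hU.harm hη.1 (hu _ hη.2)

theorem ref_Zo (hC : Cfg r A B z₁ L v) (hU : Unif r L φ F h) (hP : Pic r L F s0 s1) {x : ℝ}
    (hx : x ∈ Zo s0 s1) : ∃ Φ, RefAt (fun η => v (F η)) x Φ :=
  refAt_of_tendsto (harm_ev hU hC.sol.harm x)
    (mem_of_superset (isOpen_Zo.mem_nhds hx) fun t ht => hP.uz A B v hC.ok hC.sol t ht)

theorem freq_ne (hC : Cfg r A B z₁ L v) (hU : Unif r L φ F h) (x : ℝ) :
    ∃ᶠ η : ℂ in 𝓝[upH] (x : ℂ), v (F η) ≠ 0 := by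
  intro h0
  simp only [ne_eq, not_not] at h0
  obtain ⟨η, h1, h2, h3⟩ :=
    ((eventually_eventually_nhdsWithin.2 h0).and ((hU.ev_main x).and self_mem_nhdsWithin)).exists
  rw [isOpen_upH.nhdsWithin_eq h3] at h1
  have h4 : ∀ᶠ z in 𝓝 (F η), v z = 0 := by
    rw [← hU.map_nhds h2.1]
    exact h1
  obtain ⟨z, hz, h5⟩ := hC.sol.not_const hC.cont hC.B0
  exact h5.ne' (harm_identity hC.cont.isOpen_main (preconn_main r L) hC.sol.harm h2.2
    h4.eventually_nhds.frequently z hz)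

theorem ord_A0 (hC : Cfg r A B z₁ L v) (hU : Unif r L φ F h) (hP : Pic r L F s0 s1) (hA : A = 0)
    {x : ℝ} (hx : x ∈ Zo s0 s1) : Ord (fun η => v (F η)) x 0 := by
  obtain ⟨Φ, hΦ⟩ := ref_Zo hC hU hP hx
  subst hA
  exact hΦ.ord_zero (hΦ.hopf ((hU.ev_main x).mono fun η hη =>
    hC.sol.pos_of_zero hC.cont hC.B0 _ hη.2))

theorem ord_neg (hC : Cfg r A B z₁ L v) (hU : Unif r L φ F h) (hP : Pic r L F s0 s1)
    (hL : ∀ p ∈ L, ‖p‖ < 1) {x : ℝ} (hx : x ∈ Zo s0 s1) :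
    ∃ j : ℕ, Even j ∧ Ord (fun η => v (F η)) x j := by
  obtain ⟨Φ, hΦ⟩ := ref_Zo hC hU hP hx
  obtain ⟨ω, C, h1, h2, h3, h4⟩ := hC.nn
  have hLA : ∀ p ∈ LA L, p ∈ L := by
    rintro p (hp | ⟨-, q, hq, hq1⟩)
    exacts [hp, absurd hq1 (hL q hq).ne]
  obtain ⟨Ψ, hΨ⟩ := refAt_of_tendsto (harm_ev hU h1 x)
    (mem_of_superset (isOpen_Zo.mem_nhds hx) fun t ht O hO =>
      hP.push hU (P := fun z => ω z ∈ O) (fun p hp => h3 p (hLA p hp) hO)
        (Zo_not_Eo hP.lt hP.le ht))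
  refine hΦ.exists_ord (hΦ.nonneg (C := |C| * (|(deriv Ψ x).re| + 1) ^ 2) ?_) (freq_ne hC hU x)
  filter_upwards [hΨ.lin one_pos, hU.ev_main x] with η h5 h6
  have h7 := h2 _ h6.2
  have h8 : 0 < η.im := h6.1.1
  have h9 : ω (F η) ≤ (|(deriv Ψ x).re| + 1) * η.im := by
    have := (abs_le.1 h5).2
    nlinarith [le_abs_self (deriv Ψ x).re]
  have h10 : ω (F η) ^ 2 ≤ ((|(deriv Ψ x).re| + 1) * η.im) ^ 2 := pow_le_pow_left₀ h7.1 h9 2
  have h11 : C * ω (F η) ^ 2 ≤ |C| * ((|(deriv Ψ x).re| + 1) * η.im) ^ 2 :=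
    (mul_le_mul_of_nonneg_right (le_abs_self C) (sq_nonneg _)).trans
      (mul_le_mul_of_nonneg_left h10 (abs_nonneg C))
  have h12 := h4 _ h6.2
  nlinarith

theorem arg_right {s t : ℝ} (hst : s < t) :
    Tendsto (fun η : ℂ => arg (η - s)) (𝓝[upH] (t : ℂ)) (𝓝 0) := by
  have h1 : ((t : ℂ) - s) ∈ slitPlane := Or.inl (by simpa using hst)
  have h2 : arg ((t : ℂ) - s) = 0 := by
    rw [← ofReal_sub]
    exact arg_ofReal_of_nonneg (by linarith)
  have h3 : ContinuousAt (fun η : ℂ => arg (η - s)) t :=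
    ContinuousAt.comp (f := fun η : ℂ => η - s) (continuousAt_arg h1) (by fun_prop)
  exact h2 ▸ h3.tendsto.mono_left nhdsWithin_le_nhds

theorem arg_left {s t : ℝ} (hst : t < s) :
    Tendsto (fun η : ℂ => arg (η - s)) (𝓝[upH] (t : ℂ)) (𝓝 π) := by
  refine (tendsto_arg_nhdsWithin_im_nonneg_of_re_neg_of_im_zero (z := (t : ℂ) - s)
    (by simpa using hst) (by simp)).comp (tendsto_nhdsWithin_iff.2 ⟨?_, ?_⟩)
  · exact (by fun_prop : ContinuousAt (fun η : ℂ => η - s) t).tendsto.mono_left nhdsWithin_le_nhds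
  · filter_upwards [self_mem_nhdsWithin] with η hη
    simpa using le_of_lt hη

theorem tendsto_Eo (hC : Cfg r A B z₁ L v) (hU : Unif r L φ F h) (hP : Pic r L F s0 s1) {x : ℝ}
    (hx : x ∈ Eo s0 s1) : Tendsto (fun η => v (F η)) (𝓝[upH] (x : ℂ)) (𝓝 B) := by
  obtain ⟨p, hp, h1⟩ := hP.toEx x hx
  exact (hC.sol.atB p hp).comp (tendsto_nhdsWithin_iff.2 ⟨h1, (hU.ev_main x).mono fun _ h => h.2⟩)

theorem harm_arg_ev (s x : ℝ) :
    ∀ᶠ η : ℂ in 𝓝[upH] (x : ℂ), HarmonicAt (fun y : ℂ => B / π * arg (y - s)) η := by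
  filter_upwards [self_mem_nhdsWithin] with η hη
  refine harm_const_mul (harm_arg (f := fun y => y - s) (by fun_prop) (Or.inr ?_)) _
  simpa using ne_of_gt hη

theorem abs_arg_le (B : ℝ) (z : ℂ) : |B / π * arg z| ≤ |B| := by
  rw [abs_mul, abs_div, abs_of_pos Real.pi_pos, div_mul_eq_mul_div, div_le_iff₀ Real.pi_pos]
  exact mul_le_mul_of_nonneg_left (abs_arg_le_pi z) (abs_nonneg B)

theorem end0 (hC : Cfg r A B z₁ L v) (hU : Unif r L φ F h) (hP : Pic r L F s0 s1)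
    (ht : s1 < s0 + 2 * π) :
    ∃ Φ, RefAt (fun η : ℂ => v (F η) - B / π * arg (η - s0)) s0 Φ := by
  obtain ⟨C, hb⟩ := hC.sol.bdd
  refine refAt_exc ?_ ⟨C + |B|, Eventually.of_forall fun η => ?_⟩ ?_
  · filter_upwards [harm_ev hU hC.sol.harm s0, harm_arg_ev (B := B) s0 s0] with η h1 h2
    exact h1.sub h2
  · exact (abs_sub _ _).trans (add_le_add (hb _) (abs_arg_le B _))
  · rw [← nhdsLT_sup_nhdsGT, eventually_sup]
    constructor
    · filter_upwards [Ioo_mem_nhdsLT (show s1 - 2 * π < s0 by linarith)] with t h1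
      have h2 : t ∈ Eo s0 s1 := ⟨-1, by push_cast; linarith [h1.1], by push_cast; linarith [h1.2]⟩
      have h3 := (tendsto_Eo hC hU hP h2).sub ((arg_left h1.2).const_mul (B / π))
      rwa [div_mul_cancel₀ _ Real.pi_ne_zero, sub_self] at h3
    · filter_upwards [Ioo_mem_nhdsGT hP.lt] with t h1
      simpa using (hP.uz A B v hC.ok hC.sol t (Ioo_sub_Zo h1)).sub
        ((arg_right h1.1).const_mul (B / π))

theorem end1 (hC : Cfg r A B z₁ L v) (hU : Unif r L φ F h) (hP : Pic r L F s0 s1)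
    (ht : s1 < s0 + 2 * π) :
    ∃ Φ, RefAt (fun η : ℂ => v (F η) - B + B / π * arg (η - s1)) s1 Φ := by
  obtain ⟨C, hb⟩ := hC.sol.bdd
  refine refAt_exc ?_ ⟨C + |B| + |B|, Eventually.of_forall fun η => ?_⟩ ?_
  · filter_upwards [harm_ev hU hC.sol.harm s1, harm_arg_ev (B := B) s1 s1] with η h1 h2
    exact (h1.sub (harmonicAt_const B)).add h2
  · exact (abs_add_le _ _).trans
      (add_le_add ((abs_sub _ _).trans (add_le_add (hb _) le_rfl)) (abs_arg_le B _))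
  · rw [← nhdsLT_sup_nhdsGT, eventually_sup]
    constructor
    · filter_upwards [Ioo_mem_nhdsLT hP.lt] with t h1
      have h3 := ((hP.uz A B v hC.ok hC.sol t (Ioo_sub_Zo h1)).sub_const B).add
        ((arg_left h1.2).const_mul (B / π))
      rwa [div_mul_cancel₀ _ Real.pi_ne_zero, sub_add_cancel] at h3
    · filter_upwards [Ioo_mem_nhdsGT ht] with t h1
      simpa using ((tendsto_Eo hC hU hP (Ioo_sub_Eo h1)).sub_const B).add
        ((arg_right h1.1).const_mul (B / π))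

/-- Positivity above the points that are not zeros. -/
theorem pos_ev (hF : Fr r A B z₁ L v φ F h s0 s1) {x : ℝ} (hx : x ∈ Icc s0 s1)
    (hz : x ∉ Zer v F s0 s1) : ∀ᶠ η : ℂ in 𝓝[upH] (x : ℂ), 0 < v (F η) := by
  rcases Icc_cases hF.pic.le hx with h1 | ⟨h1, rfl | rfl⟩
  · obtain ⟨c, hc, h2⟩ := Ord.zero_pos (by_contra fun h => hz ⟨h1, h⟩)
    filter_upwards [h2, self_mem_nhdsWithin] with η h3 h4
    exact (mul_pos hc h4).trans_le h3
  · obtain ⟨Φ, hΦ⟩ := hF.pv.end0 h1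
    filter_upwards [RefAt.jump_right (u := fun η => v (F η)) hF.cfg.B0 hΦ,
      self_mem_nhdsWithin] with η h3 h4
    exact lt_of_lt_of_le h4 h3
  · obtain ⟨Φ, hΦ⟩ := hF.pv.end1 h1
    filter_upwards [RefAt.jump_left (u := fun η => v (F η)) hF.cfg.B0 hΦ,
      self_mem_nhdsWithin] with η h3 h4
    exact lt_of_lt_of_le h4 h3

end PVP

open PVP

theorem pv : S_PV := by
  intro r A B z₁ L v φ F h s0 s1 hC hU hP
  have ho : ∀ x ∈ Zo s0 s1, ∃ j : ℕ, Even j ∧ Ord (fun η : ℂ => v (F η)) x j := by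
    intro x hx
    rcases hC.cases with ⟨hA, -⟩ | ⟨-, hL, -⟩
    exacts [⟨0, Even.zero, ord_A0 hC hU hP hA hx⟩, ord_neg hC hU hP hL hx]
  refine ⟨ho, fun hA => eq_empty_of_forall_notMem fun x hx => hx.2 (ord_A0 hC hU hP hA hx.1), ?_,
    end0 hC hU hP, end1 hC hU hP⟩
  by_contra hi
  obtain ⟨x, hx, ha⟩ := Set.Infinite.exists_accPt_of_subset_isCompact hi isCompact_Icc
    inter_subset_right
  refine accPt_iff_frequently_nhdsNE.1 ha ?_
  rcases Icc_cases hP.le hx with h1 | ⟨h1, rfl | rfl⟩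
  · obtain ⟨j, hj, h2⟩ := ho x h1
    exact (h2.isolated hj).mono fun t h3 h4 => h4.1.2 h3
  · obtain ⟨Φ, hΦ⟩ := end0 hC hU hP h1
    rw [← nhdsLT_sup_nhdsGT, eventually_sup]
    refine ⟨eventually_mem_nhdsWithin.mono fun t h3 h4 => not_le.2 h3 h4.2.1, ?_⟩
    exact (RefAt.jump_right_ord (u := fun η => v (F η)) hC.B0 hΦ).mono fun t h3 h4 => h4.1.2 h3
  · obtain ⟨Φ, hΦ⟩ := end1 hC hU hP h1
    rw [← nhdsLT_sup_nhdsGT, eventually_sup]
    refine ⟨?_, eventually_mem_nhdsWithin.mono fun t h3 h4 => not_le.2 h3 h4.2.2⟩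
    exact (RefAt.jump_left_ord (u := fun η => v (F η)) hC.B0 hΦ).mono fun t h3 h4 => h4.1.2 h3

theorem zex : S_ZEX := by
  intro r A B z₁ L v φ F h s0 s1 hF hA
  by_contra hn
  rcases hF.cfg.cases with ⟨h0, -⟩ | ⟨-, -, p, hp, hf⟩
  · exact hA.ne h0
  · refine hf ((hF.pic.pull hF.unif (P := fun z => 0 < v z) (Or.inl hp) fun x hx =>
      ⟨univ, univ_mem, (pos_ev hF hx fun h => hn ⟨x, hx, h⟩).mono fun _ h _ => h⟩).mono
      fun z h => not_le.2 h)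

theorem posat : S_POSAT := by
  intro r A B z₁ L v φ F h s0 s1 Fb x hF hB hx _ hy
  have h1 : ∀ᶠ z in 𝓝[main r L] (Fb x), 0 < v z :=
    hB.pull hF.unif hF.pic (hB.mem_LA hF.unif hF.pic hx).1 fun y h1 h2 =>
      pos_ev hF h1 fun h3 => hy y h3 h1 h2
  have h2 : ∀ᶠ z in 𝓝 (Fb x), 0 ≤ v z := by
    filter_upwards [eventually_nhdsWithin_iff.1 h1] with z hz
    by_cases hm : z ∈ main r L
    exacts [(hz hm).le, (hF.cfg.sol.off z hm).ge]
  refine ⟨h2, fun hh => ?_⟩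
  have h3 : v (Fb x) = 0 := hF.cfg.sol.off _ (hB.mem hF.unif x).2.2.2
  have h4 := harm_const_of_locmin hh (h2.mono fun z hz => h3 ▸ hz)
  obtain ⟨η, h5, h6⟩ := ((hB.tendsto hF.unif x).eventually
    (h1.and (h4.filter_mono nhdsWithin_le_nhds))).exists
  exact h5.ne' (h6.trans h3)

end Pool.Agent.P.MP_3bd355_an
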