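import Pool.Agent.P.MP_3bd355_an.Stmts

/-! The picture on the real line. -/

open Set Filter Metric Complex InnerProductSpace
open scoped Topology ComplexConjugate Real

namespace Pool.Agent.P.MP_3bd355_an

namespace PicP

variable {r : ℝ} {L : Set ℂ} {φ F : ℂ → ℂ} {h : ℝ}

theorem neBot_up (x : ℝ) : (𝓝[upH] (x : ℂ)).NeBot :=
  (tendsto_vert x).neBot

theorem exists_shift (s x : ℝ) : ∃ k : ℤ, x - 2 * π * k ∈ Ico s (s + 2 * π) := by
  have hp : (0 : ℝ) < 2 * π := by positivity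
  refine ⟨toIcoDiv hp s x, ?_⟩
  have := sub_toIcoDiv_zsmul_mem_Ico hp s x
  rw [zsmul_eq_mul] at this
  rwa [mul_comm (2 * π)]

theorem exp_eq {x y : ℝ} (he : exp (I * x) = exp (I * y)) : ∃ k : ℤ, x = y + 2 * π * k := by
  obtain ⟨n, hn⟩ := exp_eq_exp_iff_exists_int.1 he
  refine ⟨n, ?_⟩
  have := congrArg Complex.im hn
  simp at this
  linarith

theorem tend_shift (hU : Unif r L φ F h) {x : ℝ} {p : ℂ} (k : ℤ)
    (hx : Tendsto F (𝓝[upH] (x : ℂ)) (𝓝 p)) :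
    Tendsto F (𝓝[upH] ((x + 2 * π * k : ℝ) : ℂ)) (𝓝 p) := by
  intro O hO
  exact hU.shift_ev (P := fun z => z ∈ O) k (hx hO)

theorem tend_main (hU : Unif r L φ F h) {x : ℝ} {p : ℂ} {l : Filter ℂ}
    (hl : l ≤ 𝓝[upH] (x : ℂ)) (hx : Tendsto F l (𝓝 p)) : Tendsto F l (𝓝[main r L] p) :=
  tendsto_nhdsWithin_iff.2 ⟨hx, ((hU.ev_main x).filter_mono hl).mono fun _ hη => hη.2⟩

theorem ang_eq (hU : Unif r L φ F h) {x y : ℝ} {p : ℂ} {l : Filter ℂ} [l.NeBot]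
    (hl : l ≤ 𝓝[upH] (x : ℂ)) (hx : Tendsto F l (𝓝 p))
    (hy : Tendsto φ (𝓝[main r L] p) (𝓝 (exp (I * y)))) : ∃ k : ℤ, x = y + 2 * π * k := by
  have h1 : Tendsto (fun η => φ (F η)) l (𝓝 (exp (I * y))) := hy.comp (tend_main hU hl hx)
  have h2 : Tendsto (fun η : ℂ => exp (I * η)) l (𝓝 (exp (I * x))) := by
    have hc : Continuous (fun η : ℂ => exp (I * η)) := by fun_prop
    exact (hc.tendsto (x : ℂ)).mono_left (hl.trans nhdsWithin_le_nhds)
  have h3 : Tendsto (fun η => φ (F η)) l (𝓝 (exp (I * x))) :=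
    h2.congr' (((hU.ev_main x).filter_mono hl).mono fun η hη => (hU.comp η hη.1).symm)
  exact exp_eq (tendsto_nhds_unique h3 h1)

theorem clus (hU : Unif r L φ F h) {x : ℝ} (g : Ultrafilter ℂ) (hg : ↑g ≤ 𝓝[upH] (x : ℂ)) :
    ∃ p ∈ frontier (main r L), p ∈ YS r L ∧ Tendsto F g (𝓝 p) := by
  have hm : ∀ᶠ η in (g : Filter ℂ), F η ∈ cann r :=
    ((hU.ev_main x).filter_mono hg).mono fun η hη => ann_sub_cann r (main_sub r L hη.2).1
  obtain ⟨p, -, hp⟩ := (isCompact_cann r).ultrafilter_le_nhds (g.map F)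
    (by rw [le_principal_iff]; exact hm)
  have hp' : Tendsto F g (𝓝 p) := hp
  by_contra hn
  have hcl : IsClosed (frontier (main r L) ∩ YS r L) := isClosed_frontier.inter hU.cont.closed_YS
  have hpn : p ∉ frontier (main r L) ∩ YS r L := fun hh => hn ⟨p, hh.1, hh.2, hp'⟩
  obtain ⟨N, hN, hNc, hNs⟩ := exists_mem_nhds_isClosed_subset (hcl.isOpen_compl.mem_nhds hpn)
  have h1 := hU.push (P := fun z => z ∉ N) (fun q hq hq' =>
    mem_nhdsWithin_of_mem_nhds (hNc.isOpen_compl.mem_nhds fun hqN => hNs hqN ⟨hq, hq'⟩)) x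
  obtain ⟨η, h2, h3⟩ := ((h1.filter_mono hg).and (hp' hN)).exists
  exact h2 h3

theorem mem_LA (hU : Unif r L φ F h) {p : ℂ} (hp : p ∈ frontier (main r L)) (hY : p ∈ YS r L)
    (hE : p ∉ Ex r L) : p ∈ LA L := by
  obtain ⟨-, -, h1 | h1 | h1⟩ := hU.cont.frontier_sub hp
  · exact Or.inl h1
  · exact absurd h1 hE
  · rcases hY with (h2 | h2) | h2
    · exact Or.inl h2
    · have := h2.1
      have := hU.cont.r1
      linarith
    · exact Or.inr ⟨h1, h2.2⟩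

/-- The set of real points at which `F` tends to an exposed point. -/
def EE (r : ℝ) (L : Set ℂ) (F : ℂ → ℂ) : Set ℝ :=
  {x | ∃ p ∈ Ex r L, Tendsto F (𝓝[upH] (x : ℂ)) (𝓝 p)}

theorem EE_shift (hU : Unif r L φ F h) {x : ℝ} (hx : x ∈ EE r L F) (k : ℤ) :
    x + 2 * π * k ∈ EE r L F := by
  obtain ⟨p, hp, hx⟩ := hx
  exact ⟨p, hp, tend_shift hU k hx⟩

theorem EE_shift' (hU : Unif r L φ F h) {x : ℝ} (hx : x ∈ EE r L F) (k : ℤ) :
    x - 2 * π * k ∈ EE r L F := by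
  have := EE_shift hU hx (-k)
  push_cast at this
  rwa [mul_neg, ← sub_eq_add_neg] at this

theorem EE_open (ha : S_PICa) (hU : Unif r L φ F h) (ht : ∃ p ∈ L, ‖p‖ = r) :
    IsOpen (EE r L F) := by
  rw [isOpen_iff_mem_nhds]
  rintro x ⟨p, hp, hx⟩
  obtain ⟨y, h1, -, h3, -⟩ := ha r L φ F h hU ht p hp
  haveI := neBot_up x
  obtain ⟨k, hk⟩ := ang_eq hU le_rfl hx h1
  have hc : Tendsto (fun t : ℝ => t - 2 * π * k) (𝓝 x) (𝓝 y) := by
    have hc : Continuous (fun t : ℝ => t - 2 * π * k) := by fun_prop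
    have := hc.tendsto x
    rwa [show x - 2 * π * k = y by rw [hk]; ring] at this
  filter_upwards [hc.eventually h3] with t ht
  have := EE_shift hU (x := t - 2 * π * k) ht k
  rwa [sub_add_cancel] at this

theorem out_EE (ha : S_PICa) (hU : Unif r L φ F h) (ht : ∃ p ∈ L, ‖p‖ = r) {x : ℝ}
    (hx : x ∉ EE r L F) {O : Set ℂ} (hO : IsOpen O) (hs : LA L ⊆ O) :
    ∀ᶠ η : ℂ in 𝓝[upH] (x : ℂ), F η ∈ O := by
  refine mem_iff_ultrafilter.2 fun g hg => ?_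
  obtain ⟨p, hp, hY, hF⟩ := clus hU g hg
  by_cases hE : p ∈ Ex r L
  · obtain ⟨y, h1, h2, -, -⟩ := ha r L φ F h hU ht p hE
    obtain ⟨k, hk⟩ := ang_eq hU hg hF h1
    exact absurd (hk ▸ EE_shift hU ⟨p, hE, h2⟩ k) hx
  · exact hF (hO.mem_nhds (hs (mem_LA hU hp hY hE)))

theorem not_discrete (hE : S_SOLEX) (hU : Unif r L φ F h)
    (hd : ∀ x : ℝ, ∀ᶠ t : ℝ in 𝓝[≠] x, t ∈ EE r L F) : False := by
  obtain ⟨om, hom⟩ := hE r 0 1 L hU.cont (Or.inl rfl)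
  obtain ⟨C, hC⟩ := hom.bdd
  have key : ∀ x : ℝ, ∀ᶠ η : ℂ in 𝓝[upH] (x : ℂ), 1 / 2 < om (F η) := by
    intro x
    obtain ⟨Φ, hΦ⟩ := refAt_exc (u := fun η => 1 - om (F η)) (x := x)
      ((hU.ev_main x).mono fun η hη =>
        (harmonicAt_const (1 : ℝ)).sub (hU.harm hη.1 (hom.harm _ hη.2)))
      ⟨1 + C, Eventually.of_forall fun η => by
        have := abs_le.1 (hC (F η))
        rw [abs_le]; constructor <;> linarith [this.1, this.2]⟩
      ((hd x).mono fun t ht => by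
        obtain ⟨q, hq, hF⟩ := ht
        have h1 := (hom.atB q hq).comp (tend_main hU le_rfl hF)
        have h2 := (tendsto_const_nhds (x := (1 : ℝ))).sub h1
        rw [sub_self] at h2
        exact h2)
    filter_upwards [hΦ.tendsto.eventually (gt_mem_nhds (show (0 : ℝ) < 1 / 2 by norm_num))]
      with η hη
    linarith
  obtain ⟨p, hpL, hpf, hpE⟩ := hU.cont.exists_hidden
  have h1 := hU.pull (P := fun z => 1 / 2 < om z) (p := p) (Or.inl (Or.inl hpL)) 0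
    (fun x _ => ⟨univ, univ_mem, (key x).mono fun η hη _ => hη⟩)
  have h2 := (hom.atL p hpL hpE).eventually (gt_mem_nhds (show (0 : ℝ) < 1 / 2 by norm_num))
  haveI : (𝓝[main r L] p).NeBot := mem_closure_iff_nhdsWithin_neBot.1 (frontier_subset_closure hpf)
  obtain ⟨z, h3, h4⟩ := (h1.and h2).exists
  linarith

theorem not_full (hE : S_SOLEX) (hU : Unif r L φ F h) (s : ℝ) :
    ¬ Ioo s (s + 2 * π) ⊆ EE r L F := by
  intro hs
  refine not_discrete hE hU fun x => ?_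
  obtain ⟨k, hk⟩ := exists_shift s x
  have hp : (0 : ℝ) < 2 * π := by positivity
  have h1 : ∀ᶠ t : ℝ in 𝓝[≠] x, t ≠ s + 2 * π * k := by
    by_cases hx : x = s + 2 * π * k
    · rw [← hx]; exact self_mem_nhdsWithin
    · exact mem_nhdsWithin_of_mem_nhds (isOpen_ne.mem_nhds hx)
  have h2 : ∀ᶠ t : ℝ in 𝓝[≠] x, t ∈ Ioo (s - 2 * π + 2 * π * k) (s + 2 * π + 2 * π * k) :=
    mem_nhdsWithin_of_mem_nhds (Ioo_mem_nhds (by linarith [hk.1]) (by linarith [hk.2]))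
  filter_upwards [h1, h2] with t ht1 ht2
  rcases lt_or_gt_of_ne ht1 with h3 | h3
  · have h4 := EE_shift hU (hs (a := t - 2 * π * k + 2 * π)
      ⟨by linarith [ht2.1], by linarith⟩) (k - 1)
    push_cast at h4
    rwa [show t - 2 * π * k + 2 * π + 2 * π * (k - 1) = t by ring] at h4
  · have h4 := EE_shift hU (hs (a := t - 2 * π * k) ⟨by linarith, by linarith [ht2.2]⟩) k
    rwa [sub_add_cancel] at h4

theorem loc_open (ha : S_PICa) (hU : Unif r L φ F h) (ht : ∃ p ∈ L, ‖p‖ = r) {p : ℂ}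
    (hp : p ∈ Ex r L) {t : ℝ} (hF : Tendsto F (𝓝[upH] (t : ℂ)) (𝓝 p)) {U : Set ℝ}
    (hUt : U ∈ 𝓝 t) :
    ∀ᶠ q in 𝓝[Ex r L] p, ∃ t' ∈ U, Tendsto F (𝓝[upH] (t' : ℂ)) (𝓝 q) := by
  obtain ⟨y, h1, -, -, h4⟩ := ha r L φ F h hU ht p hp
  haveI := neBot_up t
  obtain ⟨k, hk⟩ := ang_eq hU le_rfl hF h1
  have hc : Tendsto (fun s : ℝ => s + 2 * π * k) (𝓝 y) (𝓝 t) := by
    have hc : Continuous (fun s : ℝ => s + 2 * π * k) := by fun_prop
    have := hc.tendsto y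
    rwa [← hk] at this
  filter_upwards [h4 _ (hc hUt)] with q hq
  obtain ⟨s, hs, hq⟩ := hq
  exact ⟨s + 2 * π * k, hs, tend_shift hU k hq⟩

theorem inj_ang (ha : S_PICa) (hU : Unif r L φ F h) (ht : ∃ p ∈ L, ‖p‖ = r) {p : ℂ}
    (hp : p ∈ Ex r L) {t t' : ℝ} (hF : Tendsto F (𝓝[upH] (t : ℂ)) (𝓝 p))
    (hF' : Tendsto F (𝓝[upH] (t' : ℂ)) (𝓝 p)) (h1 : t < t') (h2 : t' < t + 2 * π) : False := by
  obtain ⟨y, h3, -, -, -⟩ := ha r L φ F h hU ht p hp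
  haveI := neBot_up t
  haveI := neBot_up t'
  obtain ⟨k, hk⟩ := ang_eq hU le_rfl hF h3
  obtain ⟨k', hk'⟩ := ang_eq hU le_rfl hF' h3
  have hp : (0 : ℝ) < 2 * π := by positivity
  have h4 : (k : ℝ) < k' := by
    by_contra hh
    have := mul_le_mul_of_nonneg_left (not_lt.1 hh) hp.le
    linarith
  have h5 : (k' : ℝ) < k + 1 := by
    by_contra hh
    have := mul_le_mul_of_nonneg_left (not_lt.1 hh) hp.le
    linarith
  have h6 : k < k' := by exact_mod_cast h4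
  have h7 : k' < k + 1 := by exact_mod_cast h5
  omega

theorem no_gap (ha : S_PICa) (hU : Unif r L φ F h) (ht : ∃ p ∈ L, ‖p‖ = r) {s a c b : ℝ}
    (hs : s ∉ EE r L F) (hc : c ∉ EE r L F) (h1 : s < a) (h2 : a < c) (h3 : c < b)
    (h4 : b < s + 2 * π) (haE : a ∈ EE r L F) (hbE : b ∈ EE r L F) : False := by
  set X : Set ℂ := {q | ∃ t ∈ Ioo s c, Tendsto F (𝓝[upH] (t : ℂ)) (𝓝 q)} with hX
  set Y : Set ℂ := {q | ∃ t ∈ Ioo c (s + 2 * π), Tendsto F (𝓝[upH] (t : ℂ)) (𝓝 q)} with hY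
  have hdis : ∀ q ∈ Ex r L, q ∈ X → q ∈ Y → False := by
    rintro q hq ⟨t, htI, hF⟩ ⟨t', htI', hF'⟩
    exact inj_ang ha hU ht hq hF hF' (by linarith [htI.2, htI'.1]) (by linarith [htI.1, htI'.2])
  have hcov : ∀ q ∈ Ex r L, q ∈ X ∨ q ∈ Y := by
    intro q hq
    obtain ⟨y, -, h5, -, -⟩ := ha r L φ F h hU ht q hq
    obtain ⟨k, hk⟩ := exists_shift s y
    have h6 : Tendsto F (𝓝[upH] ((y - 2 * π * k : ℝ) : ℂ)) (𝓝 q) := by
      have := tend_shift hU (-k) h5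
      rwa [show y + 2 * π * ((-k : ℤ) : ℝ) = y - 2 * π * k by push_cast; ring] at this
    have h7 : y - 2 * π * k ∈ EE r L F := ⟨q, hq, h6⟩
    have h8 : s < y - 2 * π * k := lt_of_le_of_ne hk.1 fun he => hs (he ▸ h7)
    rcases lt_trichotomy (y - 2 * π * k) c with h9 | h9 | h9
    · exact Or.inl ⟨_, ⟨h8, h9⟩, h6⟩
    · exact absurd (h9 ▸ h7) hc
    · exact Or.inr ⟨_, ⟨h9, hk.2⟩, h6⟩
  obtain ⟨pa, hpa, hFa⟩ := haE
  obtain ⟨pb, hpb, hFb⟩ := hbE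
  have hloc : ∀ p ∈ Ex r L, ∀ᶠ q in 𝓝[Ex r L] p, (p ∈ X ↔ q ∈ X) := by
    intro p hp
    rcases hcov p hp with ⟨t, htI, hF⟩ | ⟨t, htI, hF⟩
    · filter_upwards [loc_open ha hU ht hp hF (Ioo_mem_nhds htI.1 htI.2)] with q hq
      exact ⟨fun _ => hq, fun _ => ⟨t, htI, hF⟩⟩
    · filter_upwards [loc_open ha hU ht hp hF (Ioo_mem_nhds htI.1 htI.2), self_mem_nhdsWithin]
        with q hq hqE
      exact ⟨fun hpX => (hdis p hp hpX ⟨t, htI, hF⟩).elim, fun hqX => (hdis q hqE hqX hq).elim⟩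
  have hXa : pa ∈ X := ⟨a, ⟨h1, h2⟩, hFa⟩
  have hXb : pb ∈ X :=
    (hU.cont.preconn_Ex.induction₂' (fun p q => (p ∈ X ↔ q ∈ X))
      (fun p hp => (hloc p hp).mono fun q hq => ⟨hq, hq.symm⟩)
      (fun _ _ _ _ _ _ h5 h6 => h5.trans h6) hpa hpb).1 hXa
  exact hdis pb hpb hXb ⟨b, ⟨h3, h4⟩, hFb⟩

theorem EE_eq (ha : S_PICa) (hE : S_SOLEX) (hU : Unif r L φ F h) (ht : ∃ p ∈ L, ‖p‖ = r) :
    ∃ s0 s1 : ℝ, s0 < s1 ∧ s1 < s0 + 2 * π ∧ Eo s0 s1 = EE r L F := by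
  have hp : (0 : ℝ) < 2 * π := by positivity
  obtain ⟨s, hs⟩ : ∃ s, s ∉ EE r L F := by
    by_contra hn
    push Not at hn
    exact not_full hE hU 0 fun t _ => hn t
  set G : Set ℝ := EE r L F ∩ Ioo s (s + 2 * π) with hG
  have hrep : ∀ x ∈ EE r L F, ∃ k : ℤ, x - 2 * π * k ∈ G := by
    intro x hx
    obtain ⟨k, hk⟩ := exists_shift s x
    have h7 := EE_shift' hU hx k
    exact ⟨k, h7, lt_of_le_of_ne hk.1 fun he => hs (he ▸ h7), hk.2⟩
  have hne : G.Nonempty := by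
    have hr := hU.cont.r0
    have hq : (I * r : ℂ) ∈ Ex r L := hU.cont.upper_Ex (by simp [abs_of_pos hr]) (by simpa using hr)
    obtain ⟨y, -, h5, -, -⟩ := ha r L φ F h hU ht _ hq
    obtain ⟨k, hk⟩ := hrep y ⟨_, hq, h5⟩
    exact ⟨_, hk⟩
  have hGo : IsOpen G := (EE_open ha hU ht).inter isOpen_Ioo
  have hbb : BddBelow G := ⟨s, fun t ht => ht.2.1.le⟩
  have hba : BddAbove G := ⟨s + 2 * π, fun t ht => ht.2.2.le⟩
  have hGI : G = Ioo (sInf G) (sSup G) := by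
    apply Subset.antisymm
    · intro t htG
      obtain ⟨ε, hε, hb⟩ := Metric.isOpen_iff.1 hGo t htG
      have h1 : t - ε / 2 ∈ G := hb (by rw [mem_ball, Real.dist_eq, abs_lt]; constructor <;> linarith)
      have h2 : t + ε / 2 ∈ G := hb (by rw [mem_ball, Real.dist_eq, abs_lt]; constructor <;> linarith)
      exact ⟨by linarith [csInf_le hbb h1], by linarith [le_csSup hba h2]⟩
    · intro t htI
      obtain ⟨a, haG, hat⟩ := exists_lt_of_csInf_lt hne htI.1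
      obtain ⟨b, hbG, htb⟩ := exists_lt_of_lt_csSup hne htI.2
      refine ⟨?_, by linarith [haG.2.1], by linarith [hbG.2.2]⟩
      by_contra hc
      exact no_gap ha hU ht hs hc haG.2.1 hat htb hbG.2.2 haG.1 hbG.1
  have h1 : s ≤ sInf G := le_csInf hne fun t ht => ht.2.1.le
  have h2 : sSup G ≤ s + 2 * π := csSup_le hne fun t ht => ht.2.2.le
  have h3 : sInf G < sSup G := by
    obtain ⟨t, htG⟩ := hne
    rw [hGI] at htG
    exact htG.1.trans htG.2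
  refine ⟨sSup G - 2 * π, sInf G, ?_, by linarith, ?_⟩
  · by_contra hn
    refine not_full hE hU s fun t htI => ?_
    have : t ∈ G := by
      rw [hGI]
      exact ⟨by linarith [htI.1], by linarith [htI.2]⟩
    exact this.1
  · ext x
    constructor
    · rintro ⟨k, hk⟩
      rw [sub_add_cancel, ← hGI] at hk
      have := EE_shift hU hk.1 k
      rwa [sub_add_cancel] at this
    · intro hx
      obtain ⟨k, hk⟩ := hrep x hx
      refine ⟨k, ?_⟩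
      rwa [sub_add_cancel, ← hGI]

theorem pic_nt (hU : Unif r L φ F h) (hn : ∀ p ∈ L, ‖p‖ ≠ r) : Pic r L F 0 (0 + 2 * π) := by
  have hp : (0 : ℝ) < 2 * π := by positivity
  have hLA : ∀ p ∈ frontier (main r L), p ∈ YS r L → p ∈ LA L := by
    intro p hpf hY
    rcases hY with (h2 | h2) | h2
    · exact Or.inl h2
    · obtain ⟨q, hq, hqr⟩ := h2.2
      exact absurd hqr (hn q hq)
    · exact Or.inr ⟨le_antisymm (hU.cont.frontier_sub hpf).1.2 h2.1, h2.2⟩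
  refine ⟨by linarith, le_rfl, ⟨?_, fun hh => absurd hh (lt_irrefl _)⟩, ?_, ?_, ?_⟩
  · rintro ⟨q, hq, hqr⟩
    exact absurd hqr (hn q hq)
  · rintro x ⟨k, hk⟩
    exact absurd (hk.1.trans hk.2) (lt_irrefl _)
  · intro x _ O hO hs
    exact hU.push (P := fun z => z ∈ O) (fun p hpf hY =>
      mem_nhdsWithin_of_mem_nhds (hO.mem_nhds (hs (hLA p hpf hY)))) x
  · intro A B v hA hv x _
    refine hU.tendsto_zero (fun p hpf hY => ?_) x
    by_cases hpL : p ∈ L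
    · exact hv.nontouch hU.cont hn hpL
    · rcases hLA p hpf hY with h1 | ⟨h1, q, hq, hq1⟩
      · exact absurd h1 hpL
      · rcases hA with hA | hA
        · exact hA ▸ hv.atA p h1 hpL
        · exact absurd hq1 (hA q hq).ne

end PicP

theorem pic (ha : S_PICa) (hb : S_PICb) (hE : S_SOLEX) : S_PIC := by
  intro r L φ F h hU
  by_cases ht : ∃ p ∈ L, ‖p‖ = r
  · obtain ⟨s0, s1, h1, h2, h3⟩ := PicP.EE_eq ha hE hU ht
    refine ⟨s0, s1, h1, h2.le, ⟨fun _ => h2, fun _ => ht⟩, ?_, ?_, ?_⟩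
    · intro x hx
      rw [h3] at hx
      exact hx
    · intro x hx O hO hs
      rw [h3] at hx
      exact PicP.out_EE ha hU ht hx hO hs
    · refine hb r L φ F h s0 s1 hU h1 h2 ht fun p hp => ?_
      obtain ⟨y, h4, h5, -, -⟩ := ha r L φ F h hU ht p hp
      exact ⟨y, h3 ▸ ⟨p, hp, h5⟩, h4⟩
  · exact ⟨0, 0 + 2 * π, PicP.pic_nt hU fun p hp hr => ht ⟨p, hp, hr⟩⟩

end Pool.Agent.P.MP_3bd355_an
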