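import Pool.Agent.P.MP_3bd355_an.Stmts

/-! The local structure of the uniformisation at an exposed point. -/

open Set Filter Metric Complex InnerProductSpace
open scoped Topology ComplexConjugate Real

namespace Pool.Agent.P.MP_3bd355_an

namespace PicAP

variable {r : ℝ} {L : Set ℂ} {φ F : ℂ → ℂ} {h : ℝ}

/-- The chart of the exterior of the inner circle at `p`. -/
noncomputable def zc (p η : ℂ) : ℂ := p * exp (-I * η)

/-- The inverse chart. -/
noncomputable def zi (p w : ℂ) : ℂ := I * log (w / p)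

theorem cont_zc (p : ℂ) : Continuous (zc p) := by
  unfold zc; fun_prop

theorem ana_zc (p η : ℂ) : AnalyticAt ℂ (zc p) η := by
  unfold zc; fun_prop

theorem zc_zero (p : ℂ) : zc p ((0 : ℝ) : ℂ) = p := by simp [zc]

theorem norm_zc (p η : ℂ) : ‖zc p η‖ = ‖p‖ * Real.exp η.im := by
  simp [zc, norm_exp]

theorem zc_zi {p w : ℂ} (hp : p ≠ 0) (hw : w ≠ 0) : zc p (zi p w) = w := by
  have : -I * (I * log (w / p)) = log (w / p) := by
    rw [← mul_assoc, neg_mul, I_mul_I, neg_neg, one_mul]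
  rw [zc, zi, this, exp_log (div_ne_zero hw hp)]
  field_simp

theorem zi_im (p w : ℂ) : (zi p w).im = Real.log (‖w‖ / ‖p‖) := by
  simp [zi, log_re]

theorem zi_tendsto {p : ℂ} (hp : p ≠ 0) : Tendsto (zi p) (𝓝 p) (𝓝 ((0 : ℝ) : ℂ)) := by
  have h1 : ContinuousAt (fun w : ℂ => log (w / p)) p :=
    ContinuousAt.clog (by fun_prop (disch := exact hp)) (by simp [div_self hp])
  have h2 : ContinuousAt (zi p) p := continuousAt_const.mul h1
  have h3 : zi p p = ((0 : ℝ) : ℂ) := by simp [zi, div_self hp]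
  rw [← h3]
  exact h2

theorem tendsto_zc (hL : Cont r L) {p : ℂ} (hp : ‖p‖ = r) {t : ℝ} (ht : zc p t ∈ Ex r L) :
    Tendsto (zc p) (𝓝[upH] (t : ℂ)) (𝓝[main r L] (zc p t)) := by
  rw [hL.nhds_eq ht.2.2 ht.2.1]
  have hc : Tendsto (zc p) (𝓝[upH] (t : ℂ)) (𝓝 (zc p t)) :=
    (cont_zc p).continuousAt.tendsto.mono_left nhdsWithin_le_nhds
  refine tendsto_nhdsWithin_iff.2 ⟨hc, ?_⟩
  have h1 : ∀ᶠ η in 𝓝[upH] (t : ℂ), ‖zc p η‖ < 1 :=
    hc.norm.eventually (gt_mem_nhds (ht.1.trans_lt hL.r1))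
  filter_upwards [h1, self_mem_nhdsWithin] with η h1 h2
  refine ⟨?_, h1⟩
  rw [norm_zc, hp]
  exact lt_mul_of_one_lt_right hL.r0 (Real.one_lt_exp_iff.2 h2)

theorem norm_tendsto (hU : Unif r L φ F h) (hT : ∃ p ∈ L, ‖p‖ = r) {q : ℂ} (hq : q ∈ Ex r L) :
    Tendsto (fun z => ‖φ z‖) (𝓝[main r L] q) (𝓝 1) := by
  refine hU.bdY q ?_ (Or.inl (Or.inr ⟨hq.1.le, hT⟩))
  rw [hU.cont.isOpen_main.frontier_eq]
  exact ⟨hq.2.2, fun hW => (main_sub r L hW).1.1.ne' hq.1⟩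

theorem ev_Ex (hL : Cont r L) {p : ℂ} (hp : p ∈ Ex r L) : ∀ᶠ t : ℝ in 𝓝 0, zc p t ∈ Ex r L := by
  have h1 : Tendsto (fun t : ℝ => zc p t) (𝓝 0) (𝓝 p) := by
    have := ((cont_zc p).comp continuous_ofReal).tendsto 0
    rwa [Function.comp_apply, zc_zero] at this
  filter_upwards [h1.eventually (hL.Ex_nhds hp)] with t ht
  exact ht (by rw [norm_zc, hp.1]; simp)

/-- The reflected logarithm of `φ`. -/
theorem exists_phi (hU : Unif r L φ F h) (hT : ∃ p ∈ L, ‖p‖ = r) {p : ℂ} (hp : p ∈ Ex r L) :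
    ∃ (Φ : ℂ → ℂ) (y : ℝ), AnalyticAt ℂ Φ ((0 : ℝ) : ℂ) ∧ (∀ᶠ t : ℝ in 𝓝 0, (Φ t).im = 0) ∧
      0 < (deriv Φ ((0 : ℝ) : ℂ)).re ∧
      ∀ᶠ η in 𝓝[upH] ((0 : ℝ) : ℂ), zc p η ∈ main r L ∧ 0 < (Φ η).im ∧
        φ (zc p η) = exp (I * (y + Φ η)) := by
  have hL := hU.cont
  have hE := ev_Ex hL hp
  have hz := tendsto_zc hL hp.1 hE.self_of_nhds
  have hW : ∀ᶠ η in 𝓝[upH] ((0 : ℝ) : ℂ), zc p η ∈ main r L :=
    hz.eventually self_mem_nhdsWithin
  have hne : ∀ᶠ η in 𝓝[upH] ((0 : ℝ) : ℂ), 0 < ‖φ (zc p η)‖ :=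
    ((norm_tendsto hU hT hE.self_of_nhds).comp hz).eventually (lt_mem_nhds one_pos)
  have hana : ∀ η, zc p η ∈ main r L → AnalyticAt ℂ (fun η => φ (zc p η)) η := fun η hη =>
    (hU.dφ.analyticAt (hL.isOpen_main.mem_nhds hη)).comp (ana_zc p η)
  obtain ⟨Φ, hΦ⟩ := refAt_of_tendsto (u := fun η => -Real.log ‖φ (zc p η)‖) (x := 0)
    (by
      filter_upwards [hW, hne] with η h1 h2
      exact ((hana η h1).harmonicAt_log_norm (norm_pos_iff.1 h2)).neg)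
    (by
      filter_upwards [hE] with t ht
      have := (((norm_tendsto hU hT ht).comp (tendsto_zc hL hp.1 ht)).log one_ne_zero).neg
      simpa using this)
  have hpos : ∀ᶠ η in 𝓝[upH] ((0 : ℝ) : ℂ), 0 < -Real.log ‖φ (zc p η)‖ := by
    filter_upwards [hW, hne] with η h1 h2
    exact neg_pos.2 (Real.log_neg h2 (hU.lt _ h1))
  have hd := hΦ.hopf hpos
  have hall : ∀ᶠ η in 𝓝[upH] ((0 : ℝ) : ℂ), zc p η ∈ main r L ∧ AnalyticAt ℂ Φ η ∧
      0 < (Φ η).im ∧ ‖φ (zc p η) * exp (-I * Φ η)‖ = 1 := by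
    filter_upwards [hW, hne, hpos, hΦ.2.2,
      nhdsWithin_le_nhds hΦ.1.eventually_analyticAt] with η h1 h2 h3 h4 h5
    refine ⟨h1, h5, h4 ▸ h3, ?_⟩
    have : (-I * Φ η).re = -Real.log ‖φ (zc p η)‖ := by rw [h4]; simp
    rw [norm_mul, norm_exp, this, Real.exp_neg, Real.exp_log h2, mul_inv_cancel₀ h2.ne']
  obtain ⟨ρ, hρ, hb⟩ := Metric.mem_nhdsWithin_iff.1 hall
  have hcv : Convex ℝ (ball ((0 : ℝ) : ℂ) ρ ∩ upH) :=
    (convex_ball _ _).inter (convex_halfSpace_im_gt 0)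
  have hmem : ball ((0 : ℝ) : ℂ) ρ ∩ upH ∈ 𝓝[upH] ((0 : ℝ) : ℂ) :=
    inter_mem (nhdsWithin_le_nhds (ball_mem_nhds _ hρ)) self_mem_nhdsWithin
  obtain ⟨c, hc⟩ := Filter.nonempty_of_mem hmem
  have hconst := Complex.eqOn_of_isPreconnected_of_isMaxOn_norm
    (f := fun η => φ (zc p η) * exp (-I * Φ η)) hcv.isPreconnected (isOpen_ball.inter isOpen_upH)
    (fun η hη => ((hana η (hb hη).1).mul
      (by have := (hb hη).2.1; fun_prop)).differentiableAt.differentiableWithinAt) hc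
    (fun η hη => by
      show ‖φ (zc p η) * exp (-I * Φ η)‖ ≤ ‖φ (zc p c) * exp (-I * Φ c)‖
      rw [(hb hη).2.2.2, (hb hc).2.2.2])
  refine ⟨Φ, arg (φ (zc p c) * exp (-I * Φ c)), hΦ.1, hΦ.2.1, hd, ?_⟩
  filter_upwards [hmem] with η hη
  refine ⟨(hb hη).1, (hb hη).2.2.1, ?_⟩
  have e1 : φ (zc p η) * exp (-I * Φ η) = φ (zc p c) * exp (-I * Φ c) := hconst hη
  have e2 := norm_mul_exp_arg_mul_I (φ (zc p c) * exp (-I * Φ c))
  rw [(hb hc).2.2.2, ofReal_one, one_mul] at e2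
  rw [mul_add, exp_add, mul_comm I (arg _ : ℂ), e2, ← e1, mul_assoc, ← exp_add]
  simp

end PicAP

open PicAP

theorem pica : S_PICa := by
  intro r L φ F h hU hT p hp
  have hL := hU.cont
  have hp0 : p ≠ 0 := norm_pos_iff.1 (hp.1.symm ▸ hL.r0)
  obtain ⟨Φ, y, hana, hreal, hd, hev⟩ := exists_phi hU hT hp
  have hΦ0 : (Φ ((0 : ℝ) : ℂ)).im = 0 := hreal.self_of_nhds
  have hcast : ∀ t : ℝ, (Φ t).im = 0 → (y : ℂ) + Φ t = ((y + (Φ t).re : ℝ) : ℂ) := fun t ht => by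
    apply Complex.ext <;> simp [ht]
  have hF : ∀ᶠ η in 𝓝[upH] ((0 : ℝ) : ℂ), F (y + Φ η) = zc p η := by
    have h1 : ∀ᶠ η in 𝓝 ((0 : ℝ) : ℂ), (Φ η).im < h :=
      (continuous_im.continuousAt.comp hana.continuousAt).eventually
        (gt_mem_nhds (by rw [Function.comp_apply, hΦ0]; exact hU.hpos))
    filter_upwards [hev, nhdsWithin_le_nhds h1] with η h2 h3
    have hS : (y : ℂ) + Φ η ∈ St h := ⟨by simpa using h2.2.1, by simpa using h3⟩
    exact hU.inj (hU.maps _ hS) h2.1 ((hU.comp _ hS).trans h2.2.2.symm)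
  have key : ∀ᶠ t : ℝ in 𝓝 0, zc p t ∈ Ex r L ∧
      Tendsto F (𝓝[upH] ((y + (Φ t).re : ℝ) : ℂ)) (𝓝 (zc p t)) := by
    have h1 : ∀ᶠ t : ℝ in 𝓝 0, AnalyticAt ℂ Φ t :=
      continuous_ofReal.continuousAt.eventually hana.eventually_analyticAt
    have h2 : ∀ᶠ t : ℝ in 𝓝 0, 0 < (deriv Φ t).re :=
      ((continuous_re.continuousAt.comp hana.deriv.continuousAt).comp
        continuous_ofReal.continuousAt).eventually (lt_mem_nhds hd)
    filter_upwards [ev_Ex hL hp, h1, h2, hreal.eventually_nhds, eventually_upH hF]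
      with t e1 e2 e3 e4 e5
    refine ⟨e1, ?_⟩
    have hχ : RChart (fun η => Φ η - Φ t) t :=
      ⟨e2.sub analyticAt_const, sub_self _, e4.mono fun s hs => by
        rw [sub_im, hs, e4.self_of_nhds, sub_zero], by rwa [deriv_sub_const]⟩
    have h3 : Tendsto (fun ζ => F (ζ + ((y + (Φ t).re : ℝ) : ℂ))) (𝓝[upH] 0) (𝓝 (zc p t)) := by
      rw [← hχ.map_upH, tendsto_map'_iff]
      refine ((cont_zc p).continuousAt.tendsto.mono_left nhdsWithin_le_nhds).congr' ?_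
      filter_upwards [e5] with η hη
      rw [Function.comp_apply, ← hcast t e4.self_of_nhds, ← hη]
      congr 1
      ring
    have h4 := tendsto_shift (y + (Φ t).re) (-(y + (Φ t).re))
    rw [add_neg_cancel, ofReal_zero] at h4
    refine (h3.comp h4).congr fun η => ?_
    simp only [Function.comp_apply]
    congr 1
    push_cast
    ring
  have hX : HasStrictDerivAt (fun t : ℝ => y + (Φ t).re) (deriv Φ ((0 : ℝ) : ℂ)).re 0 :=
    hana.hasStrictDerivAt.real_of_complex.const_add y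
  refine ⟨y + (Φ ((0 : ℝ) : ℂ)).re, ?_, ?_, ?_, fun U hUx => ?_⟩
  · have h1 : Tendsto (zi p) (𝓝[main r L] p) (𝓝[upH] ((0 : ℝ) : ℂ)) := by
      refine tendsto_nhdsWithin_iff.2 ⟨(zi_tendsto hp0).mono_left nhdsWithin_le_nhds, ?_⟩
      filter_upwards [self_mem_nhdsWithin] with w hw
      show 0 < (zi p w).im
      rw [zi_im, hp.1]
      exact Real.log_pos ((one_lt_div hL.r0).2 (main_sub r L hw).1.1)
    have h2 : Tendsto (fun η => exp (I * (y + Φ η))) (𝓝[upH] ((0 : ℝ) : ℂ))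
        (𝓝 (exp (I * ((y + (Φ ((0 : ℝ) : ℂ)).re : ℝ) : ℂ)))) := by
      rw [← hcast 0 hΦ0]
      have : ContinuousAt (fun η => exp (I * (y + Φ η))) ((0 : ℝ) : ℂ) := by
        have := hana.continuousAt
        fun_prop
      exact this.tendsto.mono_left nhdsWithin_le_nhds
    refine (h2.comp h1).congr' ?_
    filter_upwards [h1.eventually hev, self_mem_nhdsWithin] with w h3 hw
    have hw0 : w ≠ 0 := norm_pos_iff.1 (hL.r0.trans (main_sub r L hw).1.1)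
    rw [Function.comp_apply, ← h3.2.2, zc_zi hp0 hw0]
  · have := key.self_of_nhds.2
    rwa [zc_zero] at this
  · rw [← hX.map_nhds_eq hd.ne', eventually_map]
    exact key.mono fun t ht => ⟨_, ht.1, ht.2⟩
  · have h1 : ∀ᶠ t : ℝ in 𝓝 0, y + (Φ t).re ∈ U := hX.hasDerivAt.continuousAt hUx
    have h2 : Tendsto (fun q => (zi p q).re) (𝓝[Ex r L] p) (𝓝 0) := by
      have := (continuous_re.tendsto _).comp (zi_tendsto hp0)
      exact this.mono_left nhdsWithin_le_nhds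
    filter_upwards [h2.eventually (key.and h1), self_mem_nhdsWithin] with q h3 hq
    have hq0 : q ≠ 0 := norm_pos_iff.1 (hq.1.symm ▸ hL.r0)
    have e : (((zi p q).re : ℝ) : ℂ) = zi p q := by
      apply Complex.ext
      · simp
      · rw [ofReal_im, zi_im, hq.1, hp.1, div_self hL.r0.ne', Real.log_one]
    refine ⟨_, h3.2, ?_⟩
    have := h3.1.2
    rwa [show zc p (((zi p q).re : ℝ) : ℂ) = q by rw [e, zc_zi hp0 hq0]] at this

end Pool.Agent.P.MP_3bd355_an
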