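import Pool.Agent.P.MP_3bd355_an.Stmts

/-! Package 10: the solution tends to zero along the part of the line that corresponds to `L`. -/

open Set Filter Metric Complex InnerProductSpace
open scoped Topology ComplexConjugate Real

namespace Pool.Agent.P.MP_3bd355_an

namespace PicBP

theorem gap {s0 s1 x : ℝ} (h1 : s1 < s0 + 2 * π) (hx : x ∈ Zo s0 s1) :
    ∃ d > 0, ∀ y ∈ Eo s0 s1, d ≤ 1 - (exp (I * y) * exp (-(I * x))).re := by
  obtain ⟨k, hk⟩ := hx.resolve_left h1.ne
  obtain ⟨d, hd, h⟩ := (isCompact_Icc (a := s1) (b := s0 + 2 * π)).exists_forall_le'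
    (f := fun t => 1 - Real.cos (t - x)) (by fun_prop) (a := 0) (fun t ht => by
      refine sub_pos.2 ((Real.cos_le_one _).lt_of_ne fun e => ?_)
      obtain ⟨n, hn⟩ := (Real.cos_eq_one_iff _).1 e
      have hp := Real.pi_pos
      have a1 : (0 : ℝ) < (n + k : ℤ) := by
        push_cast
        nlinarith [hk.2, ht.1]
      have a2 : ((n + k : ℤ) : ℝ) < 1 := by
        push_cast
        nlinarith [hk.1, ht.2]
      have b1 : 0 < n + k := by exact_mod_cast a1
      have b2 : n + k < 1 := by exact_mod_cast a2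
      omega)
  refine ⟨d, hd, fun y ⟨m, hm⟩ => ?_⟩
  have e : exp (I * y) * exp (-(I * x)) = exp (((y - x : ℝ) : ℂ) * I) := by
    rw [← Complex.exp_add]
    congr 1
    push_cast
    ring
  have := h _ (Ioo_subset_Icc_self hm)
  rw [e, exp_ofReal_mul_I_re, ← Real.cos_sub_int_mul_two_pi _ m]
  refine this.trans_eq ?_
  congr 2
  ring

variable {r : ℝ} {L : Set ℂ} {φ F : ℂ → ℂ} {h : ℝ}

theorem outer_barrier (hU : Unif r L φ F h) {A : ℝ} (hA : OK A L) (x : ℝ) :
    ∃ g : ℂ → ℝ, HarmonicOnNhd g (main r L) ∧ (∀ z ∈ main r L, 0 ≤ g z) ∧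
      (∀ p : ℂ, ‖p‖ = 1 → p ∉ L → LS (fun z => -g z) (main r L) p (-|A|)) ∧
      Tendsto (fun η => g (F η)) (𝓝[upH] (x : ℂ)) (𝓝 0) := by
  have hL := hU.cont
  rcases hA with rfl | hA
  · exact ⟨fun _ => 0, fun _ _ => harmonicAt_const 0, fun _ _ => le_rfl,
      fun _ _ _ => LS.of_tendsto tendsto_const_nhds (by simp), tendsto_const_nhds⟩
  have hne := hU.ne fun p hp => (hA p hp).ne
  have hh := hU.hpos
  have hc : 0 ≤ |A| / h := by positivity
  refine ⟨fun z => -(|A| / h) * Real.log ‖φ z‖,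
    fun z hz => harm_const_mul (harm_log_norm hL.isOpen_main hU.dφ hne z hz) _, fun z hz => ?_,
    fun p hp hpL ε hε => ?_, ?_⟩
  · exact mul_nonneg_of_nonpos_of_nonpos (neg_nonpos.2 hc)
      (Real.log_nonpos (norm_nonneg _) (hU.lt z hz).le)
  · have hf : p ∈ frontier (main r L) := by
      rw [hL.isOpen_main.frontier_eq]
      exact ⟨hL.outer_closure hA hp, fun hW => (main_sub r L hW).1.2.ne hp⟩
    have hY : p ∉ YS r L := by
      rintro ((h1 | h1) | ⟨-, q, hq, h1⟩)
      · exact hpL h1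
      · exact absurd (hp ▸ h1.1) hL.r1.not_ge
      · exact (hA q hq).ne h1
    have t1 : ContinuousAt (fun e : ℝ => |A| / h * Real.log (Real.exp (-h) + e)) 0 :=
      continuousAt_const.mul (ContinuousAt.log (by fun_prop) (by simp))
    have t2 : ∀ᶠ e in 𝓝 (0 : ℝ), |A| / h * Real.log (Real.exp (-h) + e) < -|A| + ε := by
      refine t1.eventually (gt_mem_nhds ?_)
      have : |A| / h * -h = -|A| := by field_simp
      simp only [add_zero, Real.log_exp, this]
      linarith
    obtain ⟨e, he1, he2⟩ := ((t2.filter_mono (nhdsWithin_le_nhds (s := Ioi 0))).and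
      self_mem_nhdsWithin).exists
    filter_upwards [hU.bdO p hf hY e he2, self_mem_nhdsWithin] with z h1 h2
    have := mul_le_mul_of_nonneg_left (Real.log_le_log (norm_pos_iff.2 (hne z h2)) h1.le) hc
    linarith
  · have t1 : Tendsto (fun η : ℂ => |A| / h * η.im) (𝓝[upH] (x : ℂ)) (𝓝 0) := by
      have : Continuous fun η : ℂ => |A| / h * η.im := by fun_prop
      simpa using (this.tendsto x).mono_left nhdsWithin_le_nhds
    refine t1.congr' ((hU.ev_main x).mono fun η hη => ?_)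
    simp only [hU.norm_comp hη.1, Real.log_exp]
    ring

theorem inner_barrier (hU : Unif r L φ F h) {s0 s1 : ℝ} (h1 : s1 < s0 + 2 * π)
    (hE : ∀ p ∈ Ex r L, ∃ x ∈ Eo s0 s1, Tendsto φ (𝓝[main r L] p) (𝓝 (exp (I * x)))) (B : ℝ)
    {x : ℝ} (hx : x ∈ Zo s0 s1) :
    ∃ b : ℂ → ℝ, HarmonicOnNhd b (main r L) ∧ (∀ z ∈ main r L, 0 ≤ b z) ∧
      (∀ p ∈ Ex r L, LS (fun z => -b z) (main r L) p (-|B|)) ∧
      Tendsto (fun η => b (F η)) (𝓝[upH] (x : ℂ)) (𝓝 0) := by
  obtain ⟨d, hd, hg⟩ := gap h1 hx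
  set β : ℂ → ℝ := fun w => |B| / d * (1 - w * exp (-(I * x))).re with hβ
  have hc : Continuous β := by fun_prop
  have h0 : 0 ≤ |B| / d := by positivity
  refine ⟨fun z => β (φ z), fun z hz => harm_const_mul (AnalyticAt.harmonicAt_re ?_) _,
    fun z hz => mul_nonneg h0 ?_, fun p hp => ?_, ?_⟩
  · exact analyticAt_const.sub
      ((hU.dφ.analyticAt (hU.cont.isOpen_main.mem_nhds hz)).mul analyticAt_const)
  · have : ‖φ z * exp (-(I * x))‖ ≤ 1 := by
      rw [norm_mul, Complex.norm_exp]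
      simpa using (hU.lt z hz).le
    rw [sub_re, one_re]
    linarith [re_le_norm (φ z * exp (-(I * x)))]
  · obtain ⟨y, hy, ht⟩ := hE p hp
    refine LS.of_tendsto ((hc.tendsto _).comp ht).neg (neg_le_neg ?_)
    have := mul_le_mul_of_nonneg_left (hg y hy) h0
    rw [div_mul_cancel₀ _ hd.ne'] at this
    simpa [hβ] using this
  · have t1 : Tendsto (fun η : ℂ => β (exp (I * η))) (𝓝[upH] (x : ℂ)) (𝓝 0) := by
      have : Continuous fun η : ℂ => β (exp (I * η)) := by fun_prop
      have e : β (exp (I * x)) = 0 := by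
        simp only [hβ, ← Complex.exp_add, add_neg_cancel, Complex.exp_zero, sub_self, zero_re,
          mul_zero]
      exact e ▸ (this.tendsto x).mono_left nhdsWithin_le_nhds
    exact t1.congr' ((hU.ev_main x).mono fun η hη => by simp only [hU.comp η hη.1])

end PicBP

open PicBP in
theorem picb (_h : S_DIR) : S_PICb := by
  intro r L φ F h s0 s1 hU _ h1 _ hE A B v hA hv x hx
  obtain ⟨g, g1, g2, g3, g4⟩ := outer_barrier hU hA x
  obtain ⟨b, b1, b2, b3, b4⟩ := inner_barrier hU h1 hE B hx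
  have hs : Sub (fun z => -(b z + g z)) (main r L) :=
    Sub.of_harm fun z hz => ((b1 z hz).add (g1 z hz)).neg
  have hn : ∀ z ∈ main r L, -(b z + g z) ≤ 0 := fun z hz => by linarith [b2 z hz, g2 z hz]
  have h0 : ∀ p, LS (fun z => -(b z + g z)) (main r L) p 0 := fun p =>
    LS.of_eventually (eventually_nhdsWithin_of_forall hn)
  have hA' : ∀ p : ℂ, ‖p‖ = 1 → p ∉ L → LS (fun z => -(b z + g z)) (main r L) p (-|A|) :=
    fun p hp hpL => (g3 p hp hpL).of_le
      (eventually_nhdsWithin_of_forall fun z hz => by linarith [b2 z hz])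
  have hB' : ∀ p ∈ Ex r L, LS (fun z => -(b z + g z)) (main r L) p (-|B|) :=
    fun p hp => (b3 p hp).of_le
      (eventually_nhdsWithin_of_forall fun z hz => by linarith [g2 z hz])
  have k1 := hv.ge hU.cont hs ⟨0, hn⟩ finite_empty (fun p _ _ => h0 p)
    (fun p hp hpL => (hA' p hp hpL).le (neg_abs_le A)) fun p hp => (hB' p hp).le (neg_abs_le B)
  have k2 := hv.le hU.cont (w := fun z => b z + g z) hs
    ⟨0, fun z hz => add_nonneg (b2 z hz) (g2 z hz)⟩ finite_empty (fun p _ _ => h0 p)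
    (fun p hp hpL => (hA' p hp hpL).le (neg_le_neg (le_abs_self A)))
    fun p hp => (hB' p hp).le (neg_le_neg (le_abs_self B))
  have t : Tendsto (fun η => b (F η) + g (F η)) (𝓝[upH] (x : ℂ)) (𝓝 0) := by
    simpa using b4.add g4
  exact tendsto_of_tendsto_of_tendsto_of_le_of_le' (by simpa using t.neg) t
    ((hU.ev_main x).mono fun η hη => k1 _ hη.2) ((hU.ev_main x).mono fun η hη => k2 _ hη.2)

end Pool.Agent.P.MP_3bd355_an
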