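import Pool.Agent.P.MP_3bd355_an.Stmts

/-! Positivity of the perturbed function near the continuum, and Gordan's alternative. -/

open Set Filter Metric Complex InnerProductSpace
open scoped Topology ComplexConjugate Real

namespace Pool.Agent.P.MP_3bd355_an

namespace PosVP

/-- The local property: for small `ε`, `u + ε w ≥ 0` near the real point `t`. -/
def Good (u w : ℂ → ℝ) (e : ℝ) (t : ℝ) : Prop :=
  ∀ ε ∈ Ioo (0 : ℝ) e, ∀ᶠ η : ℂ in 𝓝[upH] (t : ℂ), 0 ≤ u η + ε * w η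

theorem im_small (t : ℝ) {δ : ℝ} (hδ : 0 < δ) :
    ∀ᶠ η : ℂ in 𝓝[upH] (t : ℂ), 0 < η.im ∧ η.im < δ := St_mem hδ t

theorem loc_pos {u w : ℂ → ℝ} {x c : ℝ} {Φ : ℂ → ℂ} (hc : 0 < c)
    (hu : ∀ᶠ η : ℂ in 𝓝[upH] (x : ℂ), c * η.im ≤ u η) (hw : RefAt w x Φ) :
    ∃ e > 0, ∀ᶠ t : ℝ in 𝓝 x, Good u w e t := by
  set d := (deriv Φ x).re with hd
  have hM : 0 < |d| + 1 := by positivity
  refine ⟨c / (|d| + 1), by positivity, ?_⟩
  filter_upwards [eventually_upH (hu.and (hw.lin one_pos))] with t ht ε hε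
  filter_upwards [ht, self_mem_nhdsWithin] with η ⟨h1, h2⟩ h3
  have h3' : 0 < η.im := h3
  have h4 : ε * (|d| + 1) < c := (lt_div_iff₀ hM).1 hε.2
  have h5 : -((|d| + 1) * η.im) ≤ w η := by
    have := (abs_le.1 h2).1
    have h6 : -|d| ≤ d := neg_abs_le d
    nlinarith
  have h7 : ε * -((|d| + 1) * η.im) ≤ ε * w η := mul_le_mul_of_nonneg_left h5 hε.1.le
  nlinarith

theorem loc_zero {u w : ℂ → ℝ} {x C : ℝ} {Φ : ℂ → ℂ}
    (hu : ∀ᶠ η : ℂ in 𝓝[upH] (x : ℂ), -C * η.im ^ 2 ≤ u η) (hw : RefAt w x Φ)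
    (hd : 0 < (deriv Φ x).re) : ∃ e > 0, ∀ᶠ t : ℝ in 𝓝 x, Good u w e t := by
  set d := (deriv Φ x).re with hd'
  refine ⟨1, one_pos, ?_⟩
  filter_upwards [eventually_upH (hu.and (hw.lin (half_pos hd)))] with t ht ε hε
  have hM : 0 < |C| + 1 := by positivity
  have hε0 := hε.1
  filter_upwards [ht, im_small t (δ := ε * (d / 2) / (|C| + 1)) (by positivity)]
    with η ⟨h1, h2⟩ ⟨h3, h4⟩
  have h5 : η.im * (|C| + 1) < ε * (d / 2) := (lt_div_iff₀ hM).1 h4
  have h6 : d / 2 * η.im ≤ w η := by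
    have := (abs_le.1 h2).1
    nlinarith
  have h7 : ε * (d / 2 * η.im) ≤ ε * w η := mul_le_mul_of_nonneg_left h6 hε0.le
  have h8 : C ≤ |C| := le_abs_self C
  have h9 : C * η.im ^ 2 ≤ (|C| + 1) * η.im ^ 2 := by gcongr; linarith
  have h10 : η.im * (η.im * (|C| + 1)) ≤ η.im * (ε * (d / 2)) :=
    mul_le_mul_of_nonneg_left h5.le h3.le
  nlinarith

theorem cover {u w : ℂ → ℝ} {a b : ℝ}
    (H : ∀ x ∈ Icc a b, ∃ e > 0, ∀ᶠ t : ℝ in 𝓝 x, Good u w e t) :
    ∃ e > 0, ∀ t ∈ Icc a b, Good u w e t := by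
  refine isCompact_Icc.induction_on (p := fun s => ∃ e > 0, ∀ t ∈ s, Good u w e t)
    ⟨1, one_pos, by simp⟩ ?_ ?_ ?_
  · rintro s t hst ⟨e, he, h⟩
    exact ⟨e, he, fun x hx => h x (hst hx)⟩
  · rintro s t ⟨e, he, h⟩ ⟨e', he', h'⟩
    refine ⟨min e e', lt_min he he', ?_⟩
    rintro x (hx | hx) ε hε
    · exact h x hx ε ⟨hε.1, hε.2.trans_le (min_le_left _ _)⟩
    · exact h' x hx ε ⟨hε.1, hε.2.trans_le (min_le_right _ _)⟩
  · intro x hx
    obtain ⟨e, he, h⟩ := H x hx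
    exact ⟨_, nhdsWithin_le_nhds h, e, he, fun t ht => ht⟩

end PosVP

open PosVP

theorem posv : S_POSV := by
  intro r A B z₁ L v D φ F h s0 s1 Z hF hZ hD hD0 hz
  have hU := hF.unif
  have hP := hF.pic
  have hπ := Real.pi_pos
  -- `D ∘ F` reflects across every real point
  have hR : ∀ x : ℝ, ∃ Φ, RefAt (fun η => D (F η)) x Φ := fun x => by
    refine refAt_of_tendsto ?_ (Eventually.of_forall fun t =>
      hU.tendsto_zero (fun p hp _ => hD0 p hp) t)
    filter_upwards [hU.ev_main x, hU.ev_ne x (K := (Z : Set ℂ)) Z.finite_toSet.isCompact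
      fun ζ hζ => hZ ζ hζ] with η ⟨h1, h2⟩ h3
    exact hU.harm h1 (hD _ ⟨h2, h3⟩)
  -- the hypothesis at all zeros of the closed interval
  have hz' : ∀ y ∈ Zer v F s0 s1, y ∈ Icc s0 s1 → ∃ d > 0,
      Tendsto (fun τ : ℝ => D (F (y + τ * I)) / τ) (𝓝[>] 0) (𝓝 d) := by
    intro y hy hI
    rcases lt_or_ge y (s0 + 2 * π) with hlt | hge
    · exact hz y hy hI hlt
    · have he : y = s0 + 2 * π := le_antisymm (hI.2.trans hP.le) hge
      have h1 : y + 2 * π * ((-1 : ℤ) : ℝ) = s0 := by rw [he]; push_cast; ring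
      have h2 := Zer_shift hU hy (-1)
      rw [h1] at h2
      obtain ⟨d, hd, ht⟩ := hz s0 h2 ⟨le_rfl, hP.lt.le⟩ (by linarith)
      refine ⟨d, hd, ht.congr' ?_⟩
      filter_upwards [(tendsto_vert s0).eventually (St_mem hU.hpos s0)] with τ hτ
      have h3 := hU.periodic 1 hτ
      have h4 : (y : ℂ) + τ * I = s0 + τ * I + ((2 * π * ((1 : ℤ) : ℝ) : ℝ) : ℂ) := by
        rw [he]; push_cast; ring
      rw [h4, h3]
  obtain ⟨e, he, hG⟩ := cover (u := fun η => v (F η)) (w := fun η => D (F η)) (a := s0) (b := s1)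
    fun x hx => by
      obtain ⟨Φ, hΦ⟩ := hR x
      rcases Icc_cases hP.le hx with hZo | ⟨hlt, rfl | rfl⟩
      · by_cases h0 : Ord (fun η : ℂ => v (F η)) x 0
        · obtain ⟨c, hc, hu⟩ := h0.zero_pos
          exact loc_pos hc hu hΦ
        · obtain ⟨j, hj, ho⟩ := hF.pv.ord x hZo
          obtain ⟨C, hC⟩ := ho.lower hj
          obtain ⟨d, hd, ht⟩ := hz' x ⟨hZo, h0⟩ hx
          have := tendsto_nhds_unique hΦ.tendsto_div ht
          exact loc_zero hC hΦ (this ▸ hd)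
      · obtain ⟨Ψ, hΨ⟩ := hF.pv.end0 hlt
        refine loc_pos one_pos ?_ hΦ
        simpa only [one_mul] using RefAt.jump_right (u := fun η => v (F η)) hF.cfg.B0 hΨ
      · obtain ⟨Ψ, hΨ⟩ := hF.pv.end1 hlt
        refine loc_pos one_pos ?_ hΦ
        simpa only [one_mul] using RefAt.jump_left (u := fun η => v (F η)) hF.cfg.B0 hΨ
  refine ⟨e, he, fun ε hε p hp => ?_⟩
  refine Pic.pull hU hP (P := fun z => 0 ≤ v z + ε * D z) (Or.inl hp) fun x hx =>
    ⟨univ, univ_mem, ?_⟩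
  filter_upwards [hG x hx ε hε] with η hη _ using hη

theorem gordan : S_GORDAN := by
  intro V _ _ ι κ _ _ f g H
  classical
  let N : Submodule ℝ V := ⨅ j, LinearMap.ker (g j)
  let T : V →ₗ[ℝ] (ι → ℝ) := LinearMap.pi f
  let S : Submodule ℝ (ι → ℝ) := N.map T
  let O : Set (ι → ℝ) := {y | ∀ i, 0 < y i}
  have hOo : IsOpen O := by
    have : O = ⋂ i, {y : ι → ℝ | 0 < y i} := by ext y; simp [O]
    rw [this]
    exact isOpen_iInter_of_finite fun i => isOpen_lt continuous_const (continuous_apply i)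
  have hOc : Convex ℝ O := by
    intro x hx y hy a b ha hb hab i
    have h1 := hx i
    have h2 := hy i
    simp only [Pi.add_apply, Pi.smul_apply, smul_eq_mul]
    rcases ha.eq_or_lt with rfl | ha'
    · have : b = 1 := by linarith
      simpa [this] using h2
    · have := mul_pos ha' h1
      have := mul_nonneg hb h2.le
      linarith
  have hdis : Disjoint O (S : Set (ι → ℝ)) := by
    rw [Set.disjoint_left]
    rintro y hy ⟨x, hx, rfl⟩
    obtain ⟨i, hi⟩ := H x fun j => (Submodule.mem_iInf _).1 hx j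
    exact absurd (hy i) (not_lt.2 hi)
  obtain ⟨ψ, u, h1, h2⟩ := geometric_hahn_banach_open hOc hOo S.convex hdis
  have hu : u ≤ 0 := by simpa using h2 0 S.zero_mem
  have hS : ∀ y ∈ S, ψ y = 0 := by
    intro y hy
    by_contra hne
    have := h2 (((u - 1) / ψ y) • y) (S.smul_mem _ hy)
    rw [map_smul, smul_eq_mul, div_mul_cancel₀ _ hne] at this
    linarith
  let e : ι → ι → ℝ := fun i j => if i = j then 1 else 0
  have hψ : ∀ y : ι → ℝ, ψ y = ∑ i, y i * ψ (e i) := fun y =>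
    LinearMap.pi_apply_eq_sum_univ (ψ : (ι → ℝ) →ₗ[ℝ] ℝ) y
  have hl : ∀ i, ψ (e i) ≤ 0 := by
    intro i
    by_contra hpos
    push Not at hpos
    set t := |u - ψ 1| / ψ (e i) with ht
    have ht0 : 0 ≤ t := by positivity
    have hm : (1 + t • e i) ∈ O := fun j => by
      simp only [Pi.add_apply, Pi.one_apply, Pi.smul_apply, smul_eq_mul, e]
      split_ifs <;> linarith
    have := h1 _ hm
    rw [map_add, map_smul, smul_eq_mul, ht, div_mul_cancel₀ _ hpos.ne'] at this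
    have := le_abs_self (u - ψ 1)
    linarith
  have hex : ∃ i, ψ (e i) < 0 := by
    by_contra hn
    push Not at hn
    have h3 := h1 1 fun _ => one_pos
    rw [hψ] at h3
    have : 0 ≤ ∑ i, (1 : ι → ℝ) i * ψ (e i) := Finset.sum_nonneg fun i _ => by simpa using hn i
    linarith
  let K : V →ₗ[ℝ] ℝ := ∑ i, (-ψ (e i)) • f i
  have hK : ∀ x, K x = ∑ i, -ψ (e i) * f i x := fun x => by
    simp [K, LinearMap.sum_apply]
  have hle : ⨅ j, LinearMap.ker (g j) ≤ LinearMap.ker K := by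
    intro x hx
    rw [LinearMap.mem_ker, hK]
    have h3 := hS (T x) ⟨x, hx, rfl⟩
    rw [hψ] at h3
    have : ∑ i, -ψ (e i) * f i x = -∑ i, T x i * ψ (e i) := by
      rw [← Finset.sum_neg_distrib]
      exact Finset.sum_congr rfl fun i _ => by simp [T]; ring
    rw [this, h3, neg_zero]
  obtain ⟨μ, hμ⟩ := (Submodule.mem_span_range_iff_exists_fun ℝ).1 (mem_span_of_iInf_ker_le_ker hle)
  refine ⟨fun i => -ψ (e i), μ, fun i => neg_nonneg.2 (hl i), hex.imp fun i hi => neg_pos.2 hi,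
    fun x => ?_⟩
  rw [← hK, ← hμ]
  simp [LinearMap.sum_apply]

end Pool.Agent.P.MP_3bd355_an
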