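import Pool.Agent.P.MP_3bd355_an.Stmts

/-! Uniform data for the touching case. -/

open Set Filter Metric Complex InnerProductSpace
open scoped Topology ComplexConjugate Real

namespace Pool.Agent.P.MP_3bd355_an

namespace QuadAP

variable {r ρ : ℝ} {L : Set ℂ} {φ ψ : ℂ → ℂ}

theorem harm_lz {z : ℂ} (hz : z ≠ 0) : HarmonicAt (fun y : ℂ => Real.log ‖y‖) z := by
  simpa using harm_log (a := 0) hz

theorem mem_Om (ht : ∃ p ∈ L, ‖p‖ = r) {z : ℂ} (hz : z ∈ Om r L) : z ∈ main r L ∨ 1 ≤ ‖z‖ := by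
  rcases hz with (h | h) | h
  · exact Or.inl h
  · obtain ⟨p, hp, e⟩ := ht
    exact absurd e (h.2 p hp)
  · exact Or.inr h.1

theorem main_Om : main r L ⊆ Om r L := fun _ hz => Or.inl (Or.inl hz)

theorem outer_sub (hL : Cont r L) (hr : r < ρ) (h1 : ρ < 1) (hb : ∀ p ∈ L, ‖p‖ ≤ ρ) {z : ℂ}
    (hz : ρ < ‖z‖) : z ∈ Om r L := by
  by_cases h : ‖z‖ < 1
  · refine main_Om (sub_main (preconn_ann_gen (a := ρ) (b := 1) (hL.r0.trans hr).le)
      (fun y hy => ⟨⟨hr.trans hy.1, hy.2⟩, fun hyL => (hb y hyL).not_gt hy.1⟩) ?_ ⟨hz, h⟩)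
    have h0 : 0 < ρ := hL.r0.trans hr
    obtain ⟨h2, h3⟩ := base_mem h0 h1
    exact ⟨base ρ, h2, hL.upper_sub ⟨⟨hr.trans h2.1, h2.2⟩, h3⟩⟩
  · exact Or.inr ⟨not_lt.1 h, fun p hp => ((hb p hp).trans_lt h1).ne⟩

theorem log_neg (hR : RMo r L φ ψ) {z : ℂ} (hz : z ∈ Om r L) : Real.log ‖φ z‖ ≤ 0 :=
  Real.log_nonpos (norm_nonneg _) (hR.lt z hz).le

theorem log_mul_eq {z w : ℂ} (hz : z ≠ 0) (hw : w ≠ 0) :
    Real.log (‖z‖ * ‖w‖) = Real.log ‖z‖ + Real.log ‖w‖ :=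
  Real.log_mul (norm_ne_zero_iff.2 hz) (norm_ne_zero_iff.2 hw)

theorem cont_log {p : ℂ} (hp : p ≠ 0) (U : Set ℂ) :
    Tendsto (fun z : ℂ => Real.log ‖z‖) (𝓝[U] p) (𝓝 (Real.log ‖p‖)) :=
  ((harm_diff (harm_lz hp)).continuousAt.tendsto).mono_left nhdsWithin_le_nhds

theorem lower (hL : Cont r L) (hR : RMo r L φ ψ) (hr : r < ρ) (h1 : ρ < 1)
    (hb : ∀ p ∈ L, ‖p‖ ≤ ρ) {z : ℂ} (hz : ρ < ‖z‖) :
    Real.log ‖z‖ + Real.log ‖φ z‖ ≤ Real.log ρ := by
  have h0 : 0 < ρ := hL.r0.trans hr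
  obtain ⟨hne, c, C, hc, hC⟩ := hR.inf fun p hp => ((hb p hp).trans_lt h1).ne
  have hD : IsOpen {z : ℂ | ρ < ‖z‖} := isOpen_lt continuous_const continuous_norm
  have hs : {z : ℂ | ρ < ‖z‖} ⊆ Om r L := fun y hy => outer_sub hL hr h1 hb hy
  have hz0 : ∀ y : ℂ, ρ < ‖y‖ → y ≠ 0 := fun y hy => norm_pos_iff.1 (h0.trans hy)
  have hh : HarmonicOnNhd (fun z : ℂ => Real.log ‖z‖ + Real.log ‖φ z‖) {z : ℂ | ρ < ‖z‖} :=
    fun y hy => (harm_lz (hz0 y hy)).add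
      (harm_log_norm hD (hR.dφ.mono hs) (fun x hx => hne x (hs hx)) y hy)
  refine (Sub.of_harm hh).mpx_unb hD (a := 0) h0 ?_ ⟨max 0 (Real.log C), fun y hy => ?_⟩
    finite_empty (fun p hp _ => ?_) z hz
  · exact disjoint_left.2 fun y hy hy' => (mem_ball_zero_iff.1 hy).not_gt hy'
  · by_cases h : 1 ≤ ‖y‖
    · rw [← log_mul_eq (hz0 y hy) (hne y (hs hy))]
      exact (Real.log_le_log (hc.trans_le (hC y h).1) (hC y h).2).trans (le_max_right _ _)
    · have := Real.log_nonpos (norm_nonneg y) (not_le.1 h).le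
      have := log_neg hR (hs hy)
      exact le_max_of_le_left (by linarith)
  · have hp' : ρ = ‖p‖ := frontier_lt_subset_eq continuous_const continuous_norm hp
    have h2 := cont_log (norm_pos_iff.1 (hp' ▸ h0)) {z : ℂ | ρ < ‖z‖}
    rw [← hp'] at h2
    refine (LS.of_tendsto h2 le_rfl).of_le ?_
    filter_upwards [self_mem_nhdsWithin] with y hy
    have := log_neg hR (hs hy)
    linarith

theorem tendsto_log {U : Set ℂ} {p : ℂ} (h : Tendsto (fun z => ‖φ z‖) (𝓝[U] p) (𝓝 1)) :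
    Tendsto (fun z => -Real.log ‖φ z‖) (𝓝[U] p) (𝓝 0) := by
  have := ((Real.continuousAt_log one_ne_zero).tendsto.comp h).neg
  simpa [Function.comp_def] using this

theorem upper (hL : Cont r L) (hR : RMo r L φ ψ) (ht : ∃ p ∈ L, ‖p‖ = r)
    (hb : ∀ p ∈ L, ‖p‖ ≠ 1) {z : ℂ} (hz : z ∈ Om r L) :
    -Real.log ‖φ z‖ - Real.log ‖z‖ ≤ -Real.log r := by
  obtain ⟨hne, c, C, hc, hC⟩ := hR.inf hb
  have hr : ∀ y ∈ Om r L, r < ‖y‖ := fun y hy => by
    rcases mem_Om ht hy with h | h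
    · exact (main_sub r L h).1.1
    · exact hL.r1.trans_le h
  have hz0 : ∀ y ∈ Om r L, y ≠ 0 := fun y hy => norm_pos_iff.1 (hL.r0.trans (hr y hy))
  have hh : HarmonicOnNhd (fun z : ℂ => -Real.log ‖φ z‖ - Real.log ‖z‖) (Om r L) :=
    fun y hy => (harm_log_norm hL.isOpen_Om hR.dφ hne y hy).neg.sub (harm_lz (hz0 y hy))
  have hfr : ∀ p ∈ frontier (Om r L),
      LS (fun z : ℂ => -Real.log ‖φ z‖ - Real.log ‖z‖) (Om r L) p (-Real.log r) := by
    intro p hp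
    have h1 : r ≤ ‖p‖ := by
      rw [hL.frontier_Om] at hp
      exact (hL.frontier_sub hp.1).1.1
    refine LS.of_tendsto ((tendsto_log (hR.bd p hp)).sub
      (cont_log (norm_pos_iff.1 (hL.r0.trans_le h1)) _)) ?_
    have := Real.log_le_log hL.r0 h1
    linarith
  have hout : ∀ y : ℂ, 1 ≤ ‖y‖ → -Real.log ‖φ y‖ - Real.log ‖y‖ ≤ -Real.log c := fun y hy => by
    have h1 : y ∈ Om r L := Or.inr ⟨hy, hb⟩
    have h2 := Real.log_le_log hc (hC y hy).1
    rw [log_mul_eq (hz0 y h1) (hne y h1)] at h2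
    linarith
  have hmain := (Sub.of_harm (hh.mono main_Om)).mp0 hL.isOpen_main (bdd_main r L)
    (c := max (-Real.log r) (-Real.log c)) fun p hp => by
      by_cases hY : p ∈ YS r L
      · exact ((hfr p (hL.frontier_Om ▸ ⟨hp, hY⟩)).mono main_Om).le (le_max_left _ _)
      · obtain ⟨h1, h2⟩ := hL.frontier_not_YS hp hY
        have h3 : ‖p‖ = 1 := h2.resolve_left (hr p h1).ne'
        exact LS.of_tendsto (((harm_diff (hh p h1)).continuousAt.tendsto).mono_left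
          nhdsWithin_le_nhds) ((hout p h3.ge).trans (le_max_right _ _))
  refine (Sub.of_harm hh).mpx_unb hL.isOpen_Om (a := 0) hL.r0 ?_
    ⟨max (-Real.log r) (-Real.log c), fun y hy => ?_⟩ finite_empty (fun p hp _ => hfr p hp) z hz
  · exact disjoint_left.2 fun y hy hy' => (mem_ball_zero_iff.1 hy).not_gt (hr y hy')
  · rcases mem_Om ht hy with h | h
    · exact hmain y h
    · exact (hout y h).trans (le_max_right _ _)

variable {F : ℂ → ℂ} {h s0 s1 : ℝ}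

theorem atY (hU : Unif r L φ F h) {p : ℂ} (hp : p ∈ YS r L) :
    Tendsto (fun z => -Real.log ‖φ z‖) (𝓝[main r L] p) (𝓝 0) := by
  by_cases hc : p ∈ closure (main r L)
  · refine tendsto_log (hU.bdY p ?_ hp)
    rw [hU.cont.isOpen_main.frontier_eq]
    exact ⟨hc, fun hm => disjoint_left.1 hU.cont.Om_disjoint (main_Om hm) hp⟩
  · rw [notMem_closure_iff_nhdsWithin_eq_bot.1 hc]
    exact tendsto_bot

theorem Ex_YS (ht : ∃ p ∈ L, ‖p‖ = r) {p : ℂ} (hp : p ∈ Ex r L) : p ∈ YS r L :=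
  Or.inl (Or.inr ⟨hp.1.le, ht⟩)

theorem exp_dist (x y : ℝ) : ‖exp (I * x) - exp (I * y)‖ ≤ |x - y| := by
  have e : exp (I * x) - exp (I * y) = exp (I * y) * (exp (I * ((x - y : ℝ) : ℂ)) - 1) := by
    rw [mul_sub, ← exp_add, mul_one]
    push_cast
    ring_nf
  rw [e, norm_mul, norm_exp_I_mul_ofReal, one_mul]
  exact Real.norm_exp_I_mul_ofReal_sub_one_le

theorem near_Ex (hU : Unif r L φ F h) (hP : Pic r L F s0 s1) (ht : ∃ p ∈ L, ‖p‖ = r)
    (hb : ∀ p ∈ L, ‖p‖ ≠ 1) {p : ℂ} (hp : p ∈ Ex r L) :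
    ∀ᶠ z in 𝓝[main r L] p, ‖φ z - exp (I * s1)‖ ≤ 2 * (s0 + 2 * π - s1) := by
  have hl := hP.touch.1 ht
  refine hU.pull (Ex_YS ht hp) s0 fun x _ => ?_
  by_cases hx : x ∈ Eo s0 s1
  · obtain ⟨k, hk⟩ := hx
    refine ⟨univ, univ_mem, ?_⟩
    have h1 : ‖exp (I * x) - exp (I * s1)‖ < 2 * (s0 + 2 * π - s1) := by
      have e : exp (I * x) = exp (I * ((x - 2 * π * k : ℝ) : ℂ)) := by
        rw [exp_eq_exp_iff_exists_int]
        exact ⟨k, by push_cast; ring⟩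
      rw [e]
      refine (exp_dist _ _).trans_lt ?_
      rw [abs_of_pos (sub_pos.2 hk.1)]
      linarith [hk.2]
    have h2 : ContinuousAt (fun η : ℂ => ‖exp (I * η) - exp (I * s1)‖) x := by fun_prop
    filter_upwards [hU.ev_main x, mem_nhdsWithin_of_mem_nhds
      (h2.eventually_lt continuousAt_const h1)] with η h3 h4 _
    rw [hU.comp η h3.1]
    exact h4.le
  · obtain ⟨ε, hε, hs⟩ := nhds_basis_closedBall.mem_iff.1
      (hU.cont.cpt.isClosed.isOpen_compl.mem_nhds hp.2.1)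
    refine ⟨closedBall p ε, closedBall_mem_nhds p hε, ?_⟩
    refine (hP.clZ x hx (closedBall p ε)ᶜ isClosed_closedBall.isOpen_compl ?_).mono
      fun η h1 h2 => absurd h2 h1
    rintro q (hq | ⟨-, q', hq', e⟩)
    · exact fun h => hs h hq
    · exact absurd e (hb q' hq')

theorem bar_eq {z : ℂ} : (-(z + z⁻¹)).im = z.im * (1 / ‖z‖ ^ 2 - 1) := by
  rw [neg_im, add_im, inv_im, normSq_eq_norm_sq]
  ring

theorem bar_le (hL : Cont r L) {v : ℂ → ℝ} (hv : Sol r 0 1 L v) :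
    ∀ z ∈ main r L, r * (-(z + z⁻¹)).im ≤ v z := by
  have h0 := hL.r0
  have hh : ∀ z ∈ cann r, HarmonicAt (fun z : ℂ => r * (-(z + z⁻¹)).im) z := fun z hz => by
    have hz0 : z ≠ 0 := norm_pos_iff.1 (h0.trans_le hz.1)
    have : AnalyticAt ℂ (fun z : ℂ => -(z + z⁻¹)) z :=
      (analyticAt_id.add (analyticAt_id.inv hz0)).neg
    exact harm_const_mul this.harmonicAt_im r
  have hf : ∀ z ∈ cann r, 0 ≤ 1 / ‖z‖ ^ 2 - 1 := fun z hz => by
    have h1 : 0 < ‖z‖ := h0.trans_le hz.1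
    rw [sub_nonneg, le_div_iff₀ (by positivity), one_mul]
    exact pow_le_one₀ h1.le hz.2
  have hLS : ∀ p ∈ cann r, ∀ c : ℝ, r * (-(p + p⁻¹)).im ≤ c →
      LS (fun z : ℂ => r * (-(z + z⁻¹)).im) (main r L) p c := fun p hp c hc =>
    LS.of_tendsto ((harm_diff (hh p hp)).continuousAt.tendsto.mono_left nhdsWithin_le_nhds) hc
  have hm : main r L ⊆ cann r := fun z hz => ann_sub_cann r (main_sub r L hz).1
  obtain ⟨M, hM⟩ := (isCompact_cann r).bddAbove_image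
    (f := fun z : ℂ => r * (-(z + z⁻¹)).im)
    fun z hz => (harm_diff (hh z hz)).continuousAt.continuousWithinAt
  refine hv.ge hL (Sub.of_harm fun z hz => hh z (hm hz))
    ⟨M, fun z hz => hM (mem_image_of_mem _ (hm hz))⟩ finite_empty (fun p hp _ => ?_)
    (fun p hp _ => ?_) fun p hp => ?_
  · refine hLS p (hL.sub hp) 0 ?_
    rw [bar_eq]
    exact mul_nonpos_of_nonneg_of_nonpos h0.le
      (mul_nonpos_of_nonpos_of_nonneg (hL.low p hp) (hf p (hL.sub hp)))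
  · refine hLS p ⟨hp ▸ hL.r1.le, hp.le⟩ 0 ?_
    rw [bar_eq, hp]
    simp
  · have hc : p ∈ cann r := ⟨hp.1.ge, hp.1.le.trans hL.r1.le⟩
    refine hLS p hc 1 ?_
    have h1 := hf p hc
    have h2 : p.im ≤ r := hp.1 ▸ im_le_norm p
    rw [bar_eq]
    rw [hp.1] at h1 ⊢
    calc r * (p.im * (1 / r ^ 2 - 1)) ≤ r * (r * (1 / r ^ 2 - 1)) := by gcongr
      _ = 1 - r ^ 2 := by field_simp
      _ ≤ 1 := by nlinarith

theorem om_le (hU : Unif r L φ F h) (hP : Pic r L F s0 s1) (ht : ∃ p ∈ L, ‖p‖ = r)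
    (hb : ∀ p ∈ L, ‖p‖ ≠ 1) (hl : s0 + 2 * π - s1 < 1) {v : ℂ → ℝ} (hv : Sol r 0 1 L v) :
    ∀ z ∈ main r L, v z ≤ (-Real.log (s0 + 2 * π - s1))⁻¹ *
      (Real.log 2 - Real.log ‖φ z - exp (I * s1)‖) := by
  have hL := hU.cont
  have hl0 : 0 < s0 + 2 * π - s1 := sub_pos.2 (hP.touch.1 ht)
  have hlam : 0 < -Real.log (s0 + 2 * π - s1) := neg_pos.2 (Real.log_neg hl0 hl)
  set lam := -Real.log (s0 + 2 * π - s1) with hlamd
  have he : ‖exp (I * s1)‖ = 1 := norm_exp_I_mul_ofReal s1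
  have hne : ∀ z ∈ main r L, φ z - exp (I * s1) ≠ 0 := fun z hz e => by
    have := hU.lt z hz
    rw [sub_eq_zero.1 e, he] at this
    exact lt_irrefl _ this
  have hpos : ∀ z ∈ main r L, 0 ≤ lam⁻¹ * (Real.log 2 - Real.log ‖φ z - exp (I * s1)‖) :=
    fun z hz => mul_nonneg (inv_pos.2 hlam).le (sub_nonneg.2 (Real.log_le_log
      (norm_pos_iff.2 (hne z hz)) ((norm_sub_le _ _).trans (by linarith [hU.lt z hz]))))
  have hz : ∀ p, LS (fun z => -(lam⁻¹ * (Real.log 2 - Real.log ‖φ z - exp (I * s1)‖)))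
      (main r L) p 0 := fun p => LS.of_eventually
    (eventually_mem_nhdsWithin.mono fun z hz => neg_nonpos.2 (hpos z hz))
  refine hv.le hL (Sub.of_harm fun z hz => ?_) ⟨0, hpos⟩ finite_empty (fun p _ _ => hz p)
    (fun p _ _ => by simpa only [neg_zero] using hz p) fun p hp => LS.of_eventually ?_
  · exact (harm_const_mul ((harmonicAt_const _).sub (harm_log_norm hL.isOpen_main
      (hU.dφ.sub_const _) hne z hz)) _).neg
  · filter_upwards [near_Ex hU hP ht hb hp, self_mem_nhdsWithin] with z h1 h2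
    have h3 := Real.log_le_log (norm_pos_iff.2 (hne z h2)) h1
    rw [Real.log_mul two_ne_zero hl0.ne'] at h3
    rw [neg_le_neg_iff, le_inv_mul_iff₀ hlam]
    linarith

end QuadAP

open QuadAP in
theorem quada (hR : S_RMO) (hP : S_PIC) (hE : S_SOLEX) : S_QUADa := by
  intro r δ h0 h1 hδ
  obtain ⟨ρ, hr, hρ1, hρδ⟩ : ∃ ρ : ℝ, r < ρ ∧ ρ < 1 ∧ 1 - δ ≤ ρ :=
    ⟨max ((1 + r) / 2) (1 - δ), lt_max_of_lt_left (by linarith),
      max_lt (by linarith) (by linarith), le_max_right _ _⟩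
  have hρ0 : 0 < ρ := h0.trans hr
  obtain ⟨t, ht1, ht2⟩ := exists_between hρ1
  have ht0 : 0 < t := hρ0.trans ht1
  have hh : 0 < -Real.log ρ := neg_pos.2 (Real.log_neg hρ0 hρ1)
  have hc : 0 < -Real.log r := neg_pos.2 (Real.log_neg h0 h1)
  have hm : 0 < r * (t * (1 / t ^ 2 - 1)) := by
    refine mul_pos h0 (mul_pos ht0 ?_)
    rw [sub_pos, lt_div_iff₀ (by positivity), one_mul]
    exact pow_lt_one₀ ht0.le ht2 two_ne_zero
  have hq : 0 < 1 - ρ / t := sub_pos.2 ((div_lt_one ht0).2 ht1)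
  have hq1 : 1 - ρ / t ≤ 2 := by have := div_pos hρ0 ht0; linarith
  have hK : 0 ≤ Real.log 2 - Real.log (1 - ρ / t) := sub_nonneg.2 (Real.log_le_log hq hq1)
  set m := r * (t * (1 / t ^ 2 - 1)) with hmd
  set K := Real.log 2 - Real.log (1 - ρ / t) with hKd
  refine ⟨-Real.log ρ, Real.exp (-(K / m)), (-Real.log r)⁻¹, hh, Real.exp_pos _, inv_pos.2 hc,
    fun L hL ht hb => ?_⟩
  have hb' : ∀ p ∈ L, ‖p‖ ≤ ρ := fun p hp => (hb p hp).trans hρδ
  have hb1 : ∀ p ∈ L, ‖p‖ ≠ 1 := fun p hp => ((hb' p hp).trans_lt hρ1).ne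
  obtain ⟨φ, ψ, hφ⟩ := hR r L hL
  have hne := (hφ.inf hb1).1
  have hlow : ∀ z : ℂ, ρ < ‖z‖ → ‖φ z‖ ≤ ρ / ‖z‖ := fun z hz => by
    have h2 := lower hL hφ hr hρ1 hb' hz
    have hz0 : 0 < ‖z‖ := hρ0.trans hz
    have h3 := hne z (outer_sub hL hr hρ1 hb' hz)
    rw [← log_mul_eq (norm_pos_iff.1 hz0) h3, Real.log_le_log_iff
      (mul_pos hz0 (norm_pos_iff.2 h3)) hρ0] at h2
    rwa [le_div_iff₀ hz0, mul_comm]
  have hU := hφ.unif hL hh fun p hp hp' => by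
    have h2 : ‖p‖ = 1 := by
      refine hp'.resolve_left fun e => ?_
      rcases mem_Om ht hp with h | h
      · exact (main_sub r L h).1.1.ne' e
      · linarith
    have h3 := hlow p (h2 ▸ hρ1)
    rwa [neg_neg, Real.exp_log hρ0, ← div_one ρ, ← h2]
  obtain ⟨s0, s1, hPic⟩ := hP _ _ _ _ _ hU
  have hg : HarmonicOnNhd (fun z => -Real.log ‖φ z‖) (main r L) := fun z hz =>
    (harm_log_norm hL.isOpen_main hU.dφ (hU.ne hb1) z hz).neg
  refine ⟨φ, _, s0, s1, hU, hPic, ?_, fun ω hω z hz => ⟨?_, ?_⟩⟩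
  · rw [← le_sub_iff_add_le']
    have hl0 : 0 < s0 + 2 * π - s1 := sub_pos.2 (hPic.touch.1 ht)
    by_cases hl : s0 + 2 * π - s1 < 1
    swap
    · exact (Real.exp_le_one_iff.2 (neg_nonpos.2 (div_nonneg hK hm.le))).trans (not_lt.1 hl)
    obtain ⟨v, hv⟩ := hE r 0 1 L hL (Or.inl rfl)
    have hn : ‖I * (t : ℂ)‖ = t := by simp [abs_of_pos ht0]
    have hi : (I * (t : ℂ)).im = t := by simp
    have hz : I * (t : ℂ) ∈ main r L :=
      hL.upper_sub ⟨⟨by rw [hn]; linarith, by rw [hn]; exact ht2⟩, by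
        change 0 < (I * (t : ℂ)).im
        rwa [hi]⟩
    have h2 := (bar_le hL hv _ hz).trans (om_le hU hPic ht hb1 hl hv _ hz)
    rw [bar_eq, hn, hi, ← hmd] at h2
    have h3 := hlow (I * t) (by rwa [hn])
    rw [hn] at h3
    have h4 : 1 - ρ / t ≤ ‖φ (I * t) - exp (I * s1)‖ := by
      have := norm_sub_norm_le (exp (I * s1)) (φ (I * t))
      rw [norm_exp_I_mul_ofReal, norm_sub_rev] at this
      linarith
    have h5 := Real.log_le_log hq h4
    have hlam : 0 < -Real.log (s0 + 2 * π - s1) := neg_pos.2 (Real.log_neg hl0 hl)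
    rw [le_inv_mul_iff₀ hlam] at h2
    rw [← Real.le_log_iff_exp_le hl0, neg_le, le_div_iff₀ hm]
    linarith
  · have hle : ∀ y ∈ main r L, (-Real.log r)⁻¹ * -Real.log ‖φ y‖ ≤ 1 := fun y hy => by
      have h2 := upper hL hφ ht hb1 (main_Om hy)
      have h3 := Real.log_nonpos (norm_nonneg y) (main_sub r L hy).1.2.le
      rw [inv_mul_le_iff₀ hc]
      linarith
    have hY : ∀ p ∈ YS r L, LS (fun y => (-Real.log r)⁻¹ * -Real.log ‖φ y‖) (main r L) p 0 :=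
      fun p hp => LS.of_tendsto ((atY hU hp).const_mul _) (by simp)
    have := hω.ge hL (Sub.of_harm fun y hy => harm_const_mul (hg y hy) (-Real.log r)⁻¹)
      ⟨1, hle⟩ finite_empty (fun p hp _ => hY p (Or.inl (Or.inl hp)))
      (fun p _ _ => LS.of_eventually (eventually_mem_nhdsWithin.mono hle))
      (fun p hp => hY p (Ex_YS ht hp)) z hz
    linarith
  · have hpos : ∀ y ∈ main r L, 0 ≤ (-Real.log ρ)⁻¹ * -Real.log ‖φ y‖ := fun y hy =>
      mul_nonneg (inv_pos.2 hh).le (neg_nonneg.2 (log_neg hφ (main_Om hy)))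
    have hz0 : ∀ p, LS (fun y => -((-Real.log ρ)⁻¹ * -Real.log ‖φ y‖)) (main r L) p 0 :=
      fun p => LS.of_eventually
        (eventually_mem_nhdsWithin.mono fun y hy => neg_nonpos.2 (hpos y hy))
    have := hω.le hL (w := fun y => (-Real.log ρ)⁻¹ * -Real.log ‖φ y‖)
      (Sub.of_harm fun y hy => (harm_const_mul (hg y hy) (-Real.log ρ)⁻¹).neg) ⟨0, hpos⟩
      finite_empty (fun p _ _ => hz0 p) (fun p hp _ => ?_)
      (fun p _ => by simpa only [neg_zero] using hz0 p) z hz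
    · rwa [le_inv_mul_iff₀ hh] at this
    have h2 := (((cont_log (norm_pos_iff.1 (hp ▸ one_pos)) (main r L)).sub_const
      (Real.log ρ)).const_mul (-Real.log ρ)⁻¹).neg
    refine (LS.of_tendsto h2 ?_).of_le ?_
    · rw [hp, Real.log_one, zero_sub, inv_mul_cancel₀ hh.ne']
    · have h3 : ∀ᶠ y : ℂ in 𝓝 p, ρ < ‖y‖ :=
        continuousAt_const.eventually_lt continuous_norm.continuousAt (hp ▸ hρ1)
      filter_upwards [mem_nhdsWithin_of_mem_nhds h3] with y hy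
      have h4 := lower hL hφ hr hρ1 hb' hy
      rw [neg_le_neg_iff]
      exact mul_le_mul_of_nonneg_left (by linarith) (inv_pos.2 hh).le

end Pool.Agent.P.MP_3bd355_an
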