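import Pool.Agent.P.MP_3bd355_an.Stmts

/-! The quadratic lower bound in the touching case. -/

open Set Filter Metric Complex InnerProductSpace
open scoped Topology ComplexConjugate Real

namespace Pool.Agent.P.MP_3bd355_an

namespace QuadTP

theorem arctan_le {s : ℝ} (hs : 0 ≤ s) : Real.arctan s ≤ s := by
  have h := Real.le_tan (Real.arctan_nonneg.2 hs) (Real.arctan_lt_pi_div_two s)
  rwa [Real.tan_arctan] at h

theorem le_arctan {s : ℝ} (h0 : 0 ≤ s) (h1 : s ≤ 1) : s / 2 ≤ Real.arctan s := by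
  have hp := Real.pi_gt_three
  have hc : 7 / 8 ≤ Real.cos (s / 2) := by
    have := Real.one_sub_sq_div_two_le_cos (x := s / 2)
    nlinarith
  have hs : Real.sin (s / 2) ≤ s / 2 := Real.sin_le (by linarith)
  have ht : Real.tan (s / 2) ≤ s := by
    rw [Real.tan_eq_sin_div_cos, div_le_iff₀ (by linarith)]
    nlinarith
  have := Real.arctan_strictMono.monotone ht
  rwa [Real.arctan_tan (by linarith) (by linarith)] at this

/-- The key estimate for a difference of two angles. -/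
theorem diff_ge {y d l : ℝ} (hy : 0 < y) (hd : y ≤ d) (hl : 0 < l) :
    y / (2 * d) - 2 * y / l ≤ Real.arctan (l / 2 / y) - Real.arctan (d / y) := by
  have hd0 : 0 < d := hy.trans_le hd
  have e1 : l / 2 / y = (2 * y / l)⁻¹ := by field_simp
  have e2 : d / y = (y / d)⁻¹ := by field_simp
  rw [e1, e2, Real.arctan_inv_of_pos (by positivity), Real.arctan_inv_of_pos (by positivity)]
  have h1 := arctan_le (s := 2 * y / l) (by positivity)
  have h2 := le_arctan (s := y / d) (by positivity) ((div_le_one hd0).2 hd)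
  have e3 : y / (2 * d) = y / d / 2 := by field_simp
  linarith

theorem hmI_ge {a b d l : ℝ} {η : ℂ} (hη : η ∈ upH) (hd : η.im ≤ d) (hl : 0 < l)
    (h : (a - η.re ≤ d ∧ l / 2 ≤ b - η.re) ∨ (η.re - b ≤ d ∧ l / 2 ≤ η.re - a)) :
    (η.im / (2 * d) - 2 * η.im / l) / π ≤ hmI a b η := by
  have hy : 0 < η.im := hη
  rw [hmI_eq hη]
  refine div_le_div_of_nonneg_right ((diff_ge hy hd hl).trans ?_) Real.pi_pos.le
  have hm := Real.arctan_strictMono.monotone
  rcases h with ⟨h1, h2⟩ | ⟨h1, h2⟩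
  · have a1 := hm (div_le_div_of_nonneg_right h1 hy.le)
    have a2 := hm (div_le_div_of_nonneg_right h2 hy.le)
    linarith
  · have a1 := hm (div_le_div_of_nonneg_right h1 hy.le)
    have a2 := hm (div_le_div_of_nonneg_right h2 hy.le)
    rw [← neg_sub b, neg_div, Real.arctan_neg] at a1
    rw [← neg_sub a, neg_div, Real.arctan_neg] at a2
    linarith

theorem frontier_St {h : ℝ} {p : ℂ} (hp : p ∈ frontier (St h)) : p.im = 0 ∨ p.im = h := by
  have h1 : p ∈ closure (St h) := frontier_subset_closure hp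
  have h2 : p ∉ St h := by
    rw [(isOpen_St h).frontier_eq] at hp
    exact hp.2
  have hc : IsClosed {z : ℂ | 0 ≤ z.im ∧ z.im ≤ h} :=
    (isClosed_le continuous_const continuous_im).inter (isClosed_le continuous_im continuous_const)
  have h3 : p ∈ {z : ℂ | 0 ≤ z.im ∧ z.im ≤ h} :=
    closure_minimal (fun z (hz : z ∈ St h) => And.intro hz.1.le hz.2.le) hc h1
  by_contra hn
  push Not at hn
  exact h2 ⟨lt_of_le_of_ne h3.1 (Ne.symm hn.1), lt_of_le_of_ne h3.2 hn.2⟩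

/-- Lower bound for the harmonic measure of the exposed arc. -/
theorem omb_ge {r : ℝ} {L : Set ℂ} {φ F : ℂ → ℂ} {h s0 s1 a b : ℝ} {w : ℂ → ℝ}
    (hU : Unif r L φ F h) (hP : Pic r L F s0 s1) (hw : Sol r 0 1 L w) (hab : a ≤ b)
    (hJ : Ioo a b ⊆ Eo s0 s1) : ∀ η ∈ St h, hmI a b η - η.im / h ≤ w (F η) := by
  have hh := hU.hpos
  have hw0 : ∀ z, 0 ≤ w z := fun z =>
    (hw.bounds hU.cont (lo := 0) (hi := 1) le_rfl le_rfl zero_le_one zero_le_one zero_le_one
      le_rfl z).1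
  have hSt : St h ⊆ upH := fun z hz => hz.1
  have hle : ∀ η ∈ St h, hmI a b η - η.im / h - w (F η) ≤ 1 - η.im / h := fun η hη => by
    linarith [(hmI_mem hab (hSt hη)).2, hw0 (F η)]
  have hq : ∀ η ∈ St h, 0 ≤ η.im / h := fun η hη => div_nonneg hη.1.le hh.le
  have hharm : HarmonicOnNhd (fun η : ℂ => hmI a b η - η.im / h - w (F η)) (St h) := by
    intro η hη
    have h1 : HarmonicAt (fun y : ℂ => y.im / h) η := by
      have := harm_const_mul (analyticAt_id (𝕜 := ℂ) (z := η)).harmonicAt_im h⁻¹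
      refine (harmonicAt_congr_nhds (Eventually.of_forall fun y => ?_)).1 this
      simp only [id]
      rw [div_eq_inv_mul]
    exact ((hmI_harm a b η (hSt hη)).sub h1).sub (hU.harm hη (hw.harm _ (hU.maps η hη)))
  have key := (Sub.of_harm hharm).mpx_unb (isOpen_St h) (a := -I) (ρ := 1) one_pos ?_
    ⟨1, fun η hη => by linarith [hle η hη, hq η hη]⟩
    (S := {(a : ℂ), (b : ℂ)}) (Set.toFinite _) (c := 0) ?_
  · intro η hη
    linarith [key η hη]
  · refine Set.disjoint_left.2 fun z hz hz' => ?_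
    have h1 : |(z - -I).im| ≤ ‖z - -I‖ := abs_im_le_norm _
    have h2 : ‖z - -I‖ < 1 := mem_ball_iff_norm.1 hz
    have h3 : (z - -I).im = z.im + 1 := by simp
    rw [h3] at h1
    linarith [le_abs_self (z.im + 1), hz'.1]
  · intro p hp hS
    rcases frontier_St hp with h0 | h0
    · have ep : p = (p.re : ℂ) := by apply Complex.ext <;> simp [h0]
      have hfil : 𝓝[St h] p ≤ 𝓝[upH] ((p.re : ℝ) : ℂ) := by
        rw [← ep]
        exact nhdsWithin_mono _ hSt
      have hna : p.re ≠ a := fun e => hS (Or.inl (by rw [ep, e]))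
      have hnb : p.re ≠ b := fun e => hS (Or.inr (by rw [ep, e]; rfl))
      by_cases hin : p.re < a ∨ b < p.re
      · refine (LS.of_tendsto ((hmI_out hab hin).mono_left hfil) le_rfl).of_le ?_
        filter_upwards [self_mem_nhdsWithin] with η hη
        linarith [hq η hη, hw0 (F η)]
      · push Not at hin
        obtain ⟨q, hq1, hq2⟩ := hP.toEx p.re
          (hJ ⟨lt_of_le_of_ne hin.1 (Ne.symm hna), lt_of_le_of_ne hin.2 hnb⟩)
        have h1 : Tendsto F (𝓝[upH] ((p.re : ℝ) : ℂ)) (𝓝[main r L] q) :=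
          tendsto_nhdsWithin_iff.2 ⟨hq2, (hU.ev_main p.re).mono fun η hη => hη.2⟩
        have h2 := ((hw.atB q hq1).comp h1).mono_left hfil
        have h3 : Tendsto (fun η => 1 - w (F η)) (𝓝[St h] p) (𝓝 (1 - 1)) :=
          tendsto_const_nhds.sub h2
        refine (LS.of_tendsto h3 (by norm_num)).of_le ?_
        filter_upwards [self_mem_nhdsWithin] with η hη
        linarith [hq η hη, (hmI_mem hab (hSt hη)).2]
    · have h3 : Tendsto (fun η : ℂ => 1 - η.im / h) (𝓝[St h] p) (𝓝 (1 - p.im / h)) :=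
        (Continuous.tendsto (by fun_prop) p).mono_left nhdsWithin_le_nhds
      refine (LS.of_tendsto h3 (by rw [h0, div_self hh.ne']; norm_num)).of_le ?_
      filter_upwards [self_mem_nhdsWithin] with η hη
      exact hle η hη

/-- The estimate away from the exposed arc. -/
theorem far {C₀ : ℝ} (hC : ∀ (u : ℂ → ℝ) (x ρ M : ℝ), 0 < ρ →
      HarmonicOnNhd u (ball (x : ℂ) ρ ∩ upH) → (∀ η ∈ ball (x : ℂ) ρ ∩ upH, |u η| ≤ M) →
      (∀ t : ℝ, |t - x| < ρ → Tendsto u (𝓝[upH] (t : ℂ)) (𝓝 0)) →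
      ∃ n : ℝ, |n| ≤ C₀ * M / ρ ∧ Tendsto (fun τ : ℝ => u (x + τ * I) / τ) (𝓝[>] 0) (𝓝 n) ∧
        ∀ τ : ℝ, 0 < τ → τ < ρ / 4 → |u (x + τ * I) - n * τ| ≤ C₀ * M * τ ^ 2 / ρ ^ 2)
    {r A B : ℝ} {L : Set ℂ} {φ F : ℂ → ℂ} {h s0 s1 d : ℝ} {v : ℂ → ℝ}
    (hU : Unif r L φ F h) (hP : Pic r L F s0 s1) (hL : ∀ p ∈ L, ‖p‖ < 1) (hv : Sol r A B L v)
    (hpos : Pos r L v) (hd : 0 < d) (hdh : d ≤ h) {η : ℂ} (h0 : 0 < η.im) (h1 : η.im < d / 4)
    (h2 : s0 + d < η.re) (h3 : η.re < s1 - d) :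
    -(C₀ * max |A| |B| * η.im ^ 2 / d ^ 2) ≤ v (F η) := by
  have hZ : ∀ t : ℝ, |t - η.re| < d → t ∈ Zo s0 s1 := fun t ht => by
    rw [abs_lt] at ht
    exact Ioo_sub_Zo ⟨by linarith, by linarith⟩
  have hharm : HarmonicOnNhd (fun y => v (F y)) (ball ((η.re : ℝ) : ℂ) d ∩ upH) := by
    intro y hy
    have hy1 : |(y - η.re).im| ≤ ‖y - η.re‖ := abs_im_le_norm _
    have hy2 : ‖y - η.re‖ < d := mem_ball_iff_norm.1 hy.1
    have hy3 : (y - η.re).im = y.im := by simp
    rw [hy3] at hy1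
    have hS : y ∈ St h := ⟨hy.2, by linarith [le_abs_self y.im]⟩
    exact hU.harm hS (hv.harm _ (hU.maps y hS))
  obtain ⟨n, -, hn, hτ⟩ := hC (fun y => v (F y)) η.re d (max |A| |B|) hd hharm
    (fun y _ => hv.abs_le hU.cont _) (fun t ht => hP.uz A B v (Or.inr hL) hv t (hZ t ht))
  have hev : ∀ᶠ y : ℂ in 𝓝[upH] ((η.re : ℝ) : ℂ), 0 ≤ v (F y) := by
    refine hP.push hU (P := fun z => 0 ≤ v z) (fun p hp => ?_)
      (Zo_not_Eo hP.lt hP.le (hZ _ (by simpa using hd)))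
    rcases hp with hp | ⟨-, q, hq, hq1⟩
    · exact hpos p hp
    · exact absurd hq1 (hL q hq).ne
  have hn0 : 0 ≤ n := by
    refine ge_of_tendsto hn ?_
    filter_upwards [(tendsto_vert η.re).eventually hev, self_mem_nhdsWithin] with τ a1 a2
    exact div_nonneg a1 (le_of_lt a2)
  have h4 := (abs_le.1 (hτ η.im h0 h1)).1
  rw [re_add_im] at h4
  linarith [mul_nonneg hn0 h0.le]

end QuadTP

theorem quadt (ha : S_QUADa) (hE : S_SOLEX) : S_QUADt := by
  intro r δ A B h0 h1 hδ hA hB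
  obtain ⟨h, l, c, hh, hl, hc, H⟩ := ha r δ h0 h1 hδ
  obtain ⟨C₀, hC₀, hC⟩ := quad_basic
  have hπ := Real.pi_pos
  set K : ℝ := -A / h + B * (2 / l / π) + B / h with hK
  have hK0 : 0 < K := by
    have : 0 ≤ -A / h := div_nonneg (by linarith) hh.le
    positivity
  set d : ℝ := min h (B / (2 * π * K)) with hd
  have hd0 : 0 < d := lt_min hh (by positivity)
  have hdh : d ≤ h := min_le_left _ _
  have hdK : K ≤ B / (2 * d) / π := by
    have : d ≤ B / (2 * π * K) := min_le_right _ _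
    rw [le_div_iff₀ (by positivity)] at this
    rw [le_div_iff₀ hπ, le_div_iff₀ (by positivity)]
    linarith
  have hM : 0 ≤ max |A| |B| := le_max_of_le_left (abs_nonneg A)
  have hC1 : 0 ≤ -A / (c * (d / 4)) ^ 2 := div_nonneg (by linarith) (by positivity)
  have hC2 : 0 ≤ C₀ * max |A| |B| / (d ^ 2 * c ^ 2) := by positivity
  refine ⟨-A / (c * (d / 4)) ^ 2 + C₀ * max |A| |B| / (d ^ 2 * c ^ 2), ?_⟩
  intro L v ω hL ht hδL hv hω hpos z hz
  have hL1 : ∀ p ∈ L, ‖p‖ < 1 := fun p hp => by linarith [hδL p hp]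
  obtain ⟨φ, F, s0, s1, hU, hP, hs, Hω⟩ := H L hL ht hδL
  obtain ⟨hω1, hω2⟩ := Hω ω hω z hz
  obtain ⟨w, hw⟩ := hE r 0 1 L hL (Or.inl rfl)
  have hlin : v = fun z => A * ω z + B * w z := by
    have := hω.lin hL hw A B
    simp only [mul_one, mul_zero, add_zero, zero_add] at this
    exact hv.unique hL this
  have hvz : v z = A * ω z + B * w z := by rw [hlin]
  have hωb := hω.bounds hL (lo := 0) (hi := 1) le_rfl zero_le_one le_rfl zero_le_one le_rfl
    zero_le_one z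
  have hwb := hw.bounds hL (lo := 0) (hi := 1) le_rfl le_rfl zero_le_one zero_le_one zero_le_one
    le_rfl z
  have hφ0 : 0 < ‖φ z‖ := norm_pos_iff.2 (hU.ne (fun p hp => (hL1 p hp).ne) z hz)
  have hsq : 0 ≤ ω z ^ 2 := sq_nonneg _
  by_cases hy : d / 4 ≤ -Real.log ‖φ z‖
  · have a1 : c * (d / 4) ≤ ω z := by linarith [mul_le_mul_of_nonneg_left hy hc.le]
    have a2 : (c * (d / 4)) ^ 2 ≤ ω z ^ 2 := by gcongr
    have a3 : -A ≤ -A / (c * (d / 4)) ^ 2 * ω z ^ 2 := by
      rw [div_mul_eq_mul_div, le_div_iff₀ (by positivity)]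
      exact mul_le_mul_of_nonneg_left a2 (by linarith)
    have a4 : A ≤ v z := by
      linarith [mul_le_mul_of_nonpos_left hωb.2 hA, mul_nonneg hB.le hwb.1]
    linarith [mul_nonneg hC2 hsq]
  · push Not at hy
    have a0 : Real.exp (-h) < ‖φ z‖ := by
      rw [← Real.exp_log hφ0]
      exact Real.exp_lt_exp.2 (by linarith)
    obtain ⟨η, hη, hre, hF, him⟩ := hU.onto hz a0 ((s1 + s0 + 2 * π) / 2 - 2 * π)
    have ey : -Real.log ‖φ z‖ = η.im := by rw [← him, Real.log_exp, neg_neg]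
    rw [ey] at hy hω2
    have hω1' : c * η.im ≤ ω z := by rw [← ey]; linarith
    have hy0 : 0 < η.im := hη.1
    have near : ∀ a b : ℝ, a ≤ b → Ioo a b ⊆ Eo s0 s1 →
        ((a - η.re ≤ d ∧ l / 2 ≤ b - η.re) ∨ (η.re - b ≤ d ∧ l / 2 ≤ η.re - a)) → 0 ≤ v z := by
      intro a b hab hJ hx
      have b1 := QuadTP.omb_ge hU hP hw hab hJ η hη
      have b2 := QuadTP.hmI_ge (a := a) (b := b) hη.1 (by linarith : η.im ≤ d) hl hx
      rw [hF] at b1
      have b3 : ω z ≤ η.im / h := by rw [le_div_iff₀ hh]; linarith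
      have b4 : A * (η.im / h) ≤ A * ω z := mul_le_mul_of_nonpos_left b3 hA
      have b5 : B * ((η.im / (2 * d) - 2 * η.im / l) / π - η.im / h) ≤ B * w z :=
        mul_le_mul_of_nonneg_left (by linarith) hB.le
      have b6 : A * (η.im / h) + B * ((η.im / (2 * d) - 2 * η.im / l) / π - η.im / h) =
          η.im * (B / (2 * d) / π - K) := by
        rw [hK]
        field_simp
        ring
      have b7 : 0 ≤ η.im * (B / (2 * d) / π - K) := mul_nonneg hy0.le (by linarith)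
      linarith
    have fin0 : 0 ≤ v z → -(-A / (c * (d / 4)) ^ 2 + C₀ * max |A| |B| / (d ^ 2 * c ^ 2)) *
        ω z ^ 2 ≤ v z := fun h => by linarith [mul_nonneg (add_nonneg hC1 hC2) hsq]
    by_cases c1 : s1 - d ≤ η.re
    · exact fin0 (near s1 (s0 + 2 * π) hP.le Ioo_sub_Eo
        (Or.inl ⟨by linarith, by linarith [hre.2]⟩))
    by_cases c2 : η.re ≤ s0 + d
    · refine fin0 (near (s1 - 2 * π) s0 (by linarith [hP.le]) (fun x hx => ⟨-1, ?_⟩)
        (Or.inr ⟨by linarith, by linarith [hre.1]⟩))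
      push_cast
      exact ⟨by linarith [hx.1], by linarith [hx.2]⟩
    push Not at c1 c2
    have b1 := QuadTP.far hC hU hP hL1 hv hpos hd0 hdh hy0 hy c2 c1
    rw [hF] at b1
    have b2 : (c * η.im) ^ 2 ≤ ω z ^ 2 := by gcongr
    have b3 : C₀ * max |A| |B| * η.im ^ 2 / d ^ 2 ≤
        C₀ * max |A| |B| / (d ^ 2 * c ^ 2) * ω z ^ 2 := by
      have e : C₀ * max |A| |B| * η.im ^ 2 / d ^ 2 =
          C₀ * max |A| |B| / (d ^ 2 * c ^ 2) * (c * η.im) ^ 2 := by field_simp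
      rw [e]
      exact mul_le_mul_of_nonneg_left b2 hC2
    linarith [mul_nonneg hC1 hsq]

end Pool.Agent.P.MP_3bd355_an
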