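import Pool.Agent.P.MP_3bd355_an.Stmts
import Pool.Agent.P.MP_41df0b_an.RMT

/-! The Riemann mapping theorem for domains with holomorphic logarithms. -/

open Set Filter Metric Complex InnerProductSpace
open scoped Topology ComplexConjugate Real

namespace Pool.Agent.P.MP_3bd355_an

namespace RMP

open Pool.Agent.P.MP_41df0b_an

/-- Holomorphic square roots exist on `U`. -/
def SQ (U : Set ℂ) : Prop := ∀ g : ℂ → ℂ, DifferentiableOn ℂ g U → (∀ z ∈ U, g z ≠ 0) →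
  ∃ s : ℂ → ℂ, DifferentiableOn ℂ s U ∧ ∀ z ∈ U, s z ^ 2 = g z

theorem sq_of_log (h : S_LOG) {U : Set ℂ} (hU : IsOpen U) (hN : NC U) : SQ U := by
  intro g hg h0
  obtain ⟨l, hl, he⟩ := h U g hU hN hg h0
  refine ⟨fun z => exp (l z / 2), (hl.div_const 2).cexp, fun z hz => ?_⟩
  rw [← he z hz, sq, ← Complex.exp_add]
  congr 1
  ring

theorem sq_deriv {U : Set ℂ} (hU : IsOpen U) {s g : ℂ → ℂ} (hs : DifferentiableOn ℂ s U)
    (h : ∀ z ∈ U, s z ^ 2 = g z) {z g' : ℂ} (hz : z ∈ U) (hg : HasDerivAt g g' z)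
    (h0 : s z ≠ 0) : deriv s z = (2 * s z)⁻¹ * g' := by
  have h1 : HasDerivAt s (deriv s z) z := (hs.differentiableAt (hU.mem_nhds hz)).hasDerivAt
  have h2 : HasDerivAt (fun y => s y * s y) (deriv s z * s z + s z * deriv s z) z := h1.mul h1
  have h3 : HasDerivAt g (deriv s z * s z + s z * deriv s z) z := by
    refine h2.congr_of_eventuallyEq ?_
    filter_upwards [hU.mem_nhds hz] with y hy
    rw [← h y hy, sq]
  rw [← h3.unique hg]
  field_simp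
  ring

theorem exists_start {U : Set ℂ} (hUo : IsOpen U) (hS : SQ U) (hU : U ≠ univ) {q : ℂ}
    (hq : q ∈ U) : ∃ f : ℂ → ℂ, DifferentiableOn ℂ f U ∧ InjOn f U ∧ (∀ z ∈ U, ‖f z‖ < 1) ∧
      ∀ z ∈ U, deriv f z ≠ 0 := by
  obtain ⟨a, ha⟩ := (ne_univ_iff_exists_notMem U).1 hU
  have hne : ∀ z ∈ U, z - a ≠ 0 := fun z hz h => ha (sub_eq_zero.1 h ▸ hz)
  obtain ⟨s, hsd, hs⟩ := hS (fun z => z - a) (differentiableOn_id.sub_const a) hne
  have hs0 : ∀ z ∈ U, s z ≠ 0 := by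
    intro z hz h
    apply hne z hz
    rw [← hs z hz, h]
    simp
  have hds : ∀ z ∈ U, deriv s z ≠ 0 := by
    intro z hz
    rw [sq_deriv hUo hsd hs hz ((hasDerivAt_id z).sub_const a) (hs0 z hz)]
    exact mul_ne_zero (inv_ne_zero (mul_ne_zero two_ne_zero (hs0 z hz))) one_ne_zero
  have hsq : ∀ z ∈ U, ∀ w ∈ U, s z ^ 2 = s w ^ 2 → z = w := by
    intro z hz w hw h
    rw [hs z hz, hs w hw] at h
    exact sub_left_injective h
  have him : s '' U ∈ 𝓝 (s q) := by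
    have h1 : HasStrictDerivAt s (deriv s q) q :=
      (hsd.analyticAt (hUo.mem_nhds hq)).hasStrictDerivAt
    rw [← h1.map_nhds_eq (hds q hq)]
    exact image_mem_map (hUo.mem_nhds hq)
  obtain ⟨ε, hε, hb⟩ := Metric.mem_nhds_iff.1 him
  have hfar : ∀ z ∈ U, ε ≤ ‖s z + s q‖ := by
    intro z hz
    by_contra hlt
    have h1 : -s z ∈ ball (s q) ε := by
      rw [mem_ball, dist_eq_norm, ← norm_neg]
      have : -(-s z - s q) = s z + s q := by ring
      rw [this]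
      exact not_le.1 hlt
    obtain ⟨w, hw, hwz⟩ := hb h1
    have h2 : w = z := hsq w hw z hz (by rw [hwz]; ring)
    rw [h2] at hwz
    apply hs0 z hz
    linear_combination hwz / 2
  have hd0 : ∀ z ∈ U, s z + s q ≠ 0 := fun z hz =>
    norm_pos_iff.1 (lt_of_lt_of_le hε (hfar z hz))
  have hε' : ((ε / 2 : ℝ) : ℂ) ≠ 0 := ofReal_ne_zero.2 (by positivity)
  have hder : ∀ z ∈ U, HasDerivAt (fun z => ((ε / 2 : ℝ) : ℂ) * (s z + s q)⁻¹)
      (((ε / 2 : ℝ) : ℂ) * (-deriv s z / (s z + s q) ^ 2)) z := fun z hz =>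
    ((((hsd.differentiableAt (hUo.mem_nhds hz)).hasDerivAt).add_const (s q)).fun_inv
      (hd0 z hz)).const_mul _
  refine ⟨fun z => ((ε / 2 : ℝ) : ℂ) * (s z + s q)⁻¹,
    fun z hz => (hder z hz).differentiableAt.differentiableWithinAt, fun z hz w hw h => ?_,
    fun z hz => ?_, fun z hz => ?_⟩
  · have h1 := inv_injective (mul_left_cancel₀ hε' h)
    exact hsq z hz w hw (by rw [add_right_cancel h1])
  · have h1 := hfar z hz
    rw [norm_mul, norm_inv, norm_real, Real.norm_of_nonneg (by positivity), ← div_eq_mul_inv,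
      div_lt_one (by linarith)]
    linarith
  · rw [(hder z hz).deriv]
    exact mul_ne_zero hε' (div_ne_zero (neg_ne_zero.2 (hds z hz)) (pow_ne_zero _ (hd0 z hz)))

theorem improve {U : Set ℂ} (hUo : IsOpen U) (hS : SQ U) {q : ℂ} (hq : q ∈ U)
    {f : ℂ → ℂ} (hf : Fam U q f) {a : ℂ} (ha : ‖a‖ < 1) (hna : ∀ z ∈ U, f z ≠ a) :
    ∃ F, Fam U q F ∧ ‖deriv f q‖ < ‖deriv F q‖ := by
  have hder : ∀ z ∈ U, HasDerivAt (fun z => mob a (f z))
      ((1 - conj a * a) / (1 - conj a * f z) ^ 2 * deriv f z) z := fun z hz =>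
    (hasDerivAt_mob ha (hf.lt_one z hz).le).comp z
      (hf.diff.differentiableAt (hUo.mem_nhds hz)).hasDerivAt
  have hg0 : ∀ z ∈ U, mob a (f z) ≠ 0 := fun z hz =>
    div_ne_zero (sub_ne_zero.2 (hna z hz)) (mob_den_ne ha (hf.lt_one z hz).le)
  obtain ⟨s, hsd, hs⟩ := hS (fun z => mob a (f z))
    (fun z hz => (hder z hz).differentiableAt.differentiableWithinAt) hg0
  have hs0 : ∀ z ∈ U, s z ≠ 0 := by
    intro z hz h
    apply hg0 z hz
    rw [← hs z hz, h]; simp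
  have hsd' : ∀ z ∈ U, deriv s z =
      ((2 * s z)⁻¹ * ((1 - conj a * a) / (1 - conj a * f z) ^ 2 * deriv f z)) :=
    fun z hz => sq_deriv hUo hsd hs hz (hder z hz) (hs0 z hz)
  have hsl : ∀ z ∈ U, ‖s z‖ < 1 := by
    intro z hz
    have h := norm_mob_lt ha (hf.lt_one z hz)
    rw [← hs z hz, norm_pow] at h
    exact lt_of_pow_lt_pow_left₀ 2 zero_le_one (by simpa using h)
  have hsi : InjOn s U := by
    intro z hz w hw h
    apply hf.inj hz hw
    apply mob_inj ha (hf.lt_one z hz) (hf.lt_one w hw)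
    rw [← hs z hz, ← hs w hw, h]
  have hsne : ∀ z ∈ U, deriv s z ≠ 0 := by
    intro z hz
    rw [hsd' z hz]
    refine mul_ne_zero (inv_ne_zero (by simpa using hs0 z hz)) (mul_ne_zero (div_ne_zero
      (mob_den_ne ha ha.le) (pow_ne_zero _ (mob_den_ne ha (hf.lt_one z hz).le))) (hf.dne z hz))
  obtain ⟨hF, hFd⟩ := Fam.of_mob hUo hsd hsi hsl hsne hq
  refine ⟨_, hF, ?_⟩
  have hβ : ‖s q‖ ^ 2 = ‖a‖ := by
    rw [← norm_pow, hs q hq, hf.zero]; simp [mob]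
  have hβ0 : 0 < ‖s q‖ := norm_pos_iff.2 (hs0 q hq)
  have hβ1 := hsl q hq
  have hd0 : 0 < ‖deriv f q‖ := norm_pos_iff.2 (hf.dne q hq)
  rw [hFd, hsd' q hq, norm_mul, norm_mul, norm_div, norm_one_sub_conj_mul_self ha,
    hf.zero, ← hβ, norm_inv, norm_mul]
  have h1 : 0 < 1 - ‖s q‖ ^ 2 := by nlinarith
  simp only [mul_zero, sub_zero, one_pow, norm_one, div_one, Complex.norm_ofNat]
  rw [lt_div_iff₀ h1, ← sub_pos]
  have : (2 * ‖s q‖)⁻¹ * ((1 - (‖s q‖ ^ 2) ^ 2) * ‖deriv f q‖) - ‖deriv f q‖ * (1 - ‖s q‖ ^ 2)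
      = (2 * ‖s q‖)⁻¹ * (1 - ‖s q‖ ^ 2) * (1 - ‖s q‖) ^ 2 * ‖deriv f q‖ := by
    field_simp; ring
  rw [this]
  have : 0 < 1 - ‖s q‖ := by linarith
  positivity

end RMP

theorem rm (h : S_LOG) : S_RM := by
  intro U q hUo hUc hN hU hq
  have hS := RMP.sq_of_log h hUo hN
  obtain ⟨g, hg1, hg2, hg3, hg4⟩ := RMP.exists_start hUo hS hU hq
  have h0 := (Pool.Agent.P.MP_41df0b_an.Fam.of_mob hUo hg1 hg2 hg3 hg4 hq).1
  obtain ⟨f, hf, hmax⟩ := Pool.Agent.P.MP_41df0b_an.Fam.exists_max hUo hUc hq h0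
  refine ⟨f, hf.diff, hf.inj, ?_, hf.zero, hf.dne⟩
  ext w
  rw [mem_ball_zero_iff]
  constructor
  · rintro ⟨z, hz, rfl⟩
    exact hf.lt_one z hz
  · intro hw
    by_contra hn
    obtain ⟨F, hF, hlt⟩ := RMP.improve hUo hS hq hf hw fun z hz hzw => hn ⟨z, hz, hzw⟩
    exact absurd (hmax F hF) (not_le.2 hlt)

end Pool.Agent.P.MP_3bd355_an
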