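import Pool.Agent.P.MP_3bd355_an.Stmts

/-! The Riemann map of the domain `Om r L`. -/

open Set Filter Metric Complex InnerProductSpace
open scoped Topology ComplexConjugate Real

namespace Pool.Agent.P.MP_3bd355_an

namespace RMOP

/-- The inverse of a Riemann map, and the behaviour of the map near the boundary. -/
theorem inverse {U : Set ℂ} {φ : ℂ → ℂ} (hU : IsOpen U) (hd : DifferentiableOn ℂ φ U)
    (hi : InjOn φ U) (him : φ '' U = ball 0 1) (hne : ∀ z ∈ U, deriv φ z ≠ 0) :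
    ∃ ψ : ℂ → ℂ, DifferentiableOn ℂ ψ (ball 0 1) ∧
      (∀ w ∈ ball (0 : ℂ) 1, ψ w ∈ U ∧ φ (ψ w) = w) ∧
      ∀ (l : Filter ℂ) (j : ℂ → ℂ), (∀ᶠ z in l, j z ∈ U) →
        (∀ K : Set ℂ, IsCompact K → K ⊆ U → ∀ᶠ z in l, j z ∉ K) →
        Tendsto (fun z => ‖φ (j z)‖) l (𝓝 1) := by
  have hl : ∀ z ∈ U, Function.invFunOn φ U (φ z) = z := fun z hz => hi.leftInvOn_invFunOn hz
  have hr : ∀ w ∈ ball (0 : ℂ) 1, Function.invFunOn φ U w ∈ U ∧ φ (Function.invFunOn φ U w) = w :=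
    fun w hw => Function.invFunOn_pos (by
      rw [← him] at hw
      exact hw)
  have hdψ : DifferentiableOn ℂ (Function.invFunOn φ U) (ball 0 1) := by
    intro w hw
    rw [← him] at hw
    obtain ⟨z, hz, rfl⟩ := hw
    have h1 : HasStrictDerivAt φ (deriv φ z) z :=
      ((hd.analyticAt (hU.mem_nhds hz)).contDiffAt (n := 1)).hasStrictDerivAt one_ne_zero
    have h2 : ∀ᶠ x in 𝓝 z, Function.invFunOn φ U (φ x) = x := by
      filter_upwards [hU.mem_nhds hz] with x hx using hl x hx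
    exact (h1.to_local_left_inverse (hne z hz) h2).hasDerivAt.differentiableAt.differentiableWithinAt
  refine ⟨_, hdψ, hr, fun l j hj hK => ?_⟩
  rw [tendsto_order]
  constructor
  · intro s hs
    have hsub : closedBall (0 : ℂ) s ⊆ ball 0 1 := closedBall_subset_ball hs
    have hc : IsCompact (Function.invFunOn φ U '' closedBall 0 s) :=
      (isCompact_closedBall _ _).image_of_continuousOn (hdψ.continuousOn.mono hsub)
    filter_upwards [hj, hK _ hc (by
      rintro _ ⟨w, hw, rfl⟩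
      exact (hr w (hsub hw)).1)] with z hz hz'
    by_contra h
    exact hz' ⟨φ (j z), by simpa using not_lt.1 h, hl _ hz⟩
  · intro s hs
    filter_upwards [hj] with z hz
    have : φ (j z) ∈ ball (0 : ℂ) 1 := him ▸ mem_image_of_mem φ hz
    exact lt_trans (by simpa using this) hs

variable {r : ℝ} {L : Set ℂ}

theorem not_mem_Om (h : Cont r L) {a : ℂ} (ha : a ∈ L) : a ∉ Om r L := fun h1 =>
  Set.disjoint_left.1 h.Om_disjoint h1 (Or.inl (Or.inl ha))

theorem case_out (hR : S_RM) (h : Cont r L) (ho : ∃ p ∈ L, ‖p‖ = 1) : ∃ φ ψ, RMo r L φ ψ := by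
  obtain ⟨a, ha⟩ := h.nt.nonempty
  have hb : base r ∈ Om r L := Or.inl (Or.inl (h.upper_sub (base_mem h.r0 h.r1)))
  obtain ⟨φ, hd, hi, him, -, hne⟩ := hR (Om r L) (base r) h.isOpen_Om h.preconn_Om (h.nc_Om ho)
    (fun e => not_mem_Om h ha (e ▸ mem_univ a)) hb
  obtain ⟨ψ, hψ, hr, hbd⟩ := inverse h.isOpen_Om hd hi him hne
  refine ⟨φ, ψ, hd, hi, fun z hz => ?_, hψ.mono sdiff_subset, fun w hw => hr w hw.1,
    fun p hp => ?_, fun hn => ?_⟩
  · have : φ z ∈ ball (0 : ℂ) 1 := him ▸ mem_image_of_mem φ hz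
    simpa using this
  · refine hbd _ id self_mem_nhdsWithin fun K hK hKU => ?_
    rw [h.isOpen_Om.frontier_eq] at hp
    exact mem_nhdsWithin_of_mem_nhds (hK.isClosed.isOpen_compl.mem_nhds fun h1 => hp.2 (hKU h1))
  · obtain ⟨p, hp, hp1⟩ := ho
    exact absurd hp1 (hn p hp)

theorem case_in (hR : S_RM) (h : Cont r L) (ho : ∀ p ∈ L, ‖p‖ ≠ 1) : ∃ φ ψ, RMo r L φ ψ := by
  obtain ⟨a, ha, b, hb, hab⟩ := h.nt
  have ha1 : ‖a‖ < 1 := lt_of_le_of_ne (h.sub ha).2 (ho a ha)
  have hout : ∀ z : ℂ, 1 ≤ ‖z‖ → z ∈ Om r L := fun z hz => Or.inr ⟨hz, ho⟩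
  have hza : ∀ z ∈ Om r L, z - a ≠ 0 := fun z hz e => not_mem_Om h ha (sub_eq_zero.1 e ▸ hz)
  set U : Set ℂ := (fun z => (z - a)⁻¹) '' Om r L ∪ {0} with hU
  have hmem : ∀ w : ℂ, w ∈ U ↔ w = 0 ∨ a + w⁻¹ ∈ Om r L := by
    intro w
    constructor
    · rintro (⟨z, hz, rfl⟩ | hw)
      · right
        simpa using hz
      · exact Or.inl hw
    · rintro (hw | hw)
      · exact Or.inr hw
      · exact Or.inl ⟨_, hw, by simp⟩
  have hball : closedBall (0 : ℂ) (1 / 2) ⊆ U := by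
    intro w hw
    rw [hmem]
    by_cases h0 : w = 0
    · exact Or.inl h0
    right
    apply hout
    have h1 : ‖w‖ ≤ 1 / 2 := by simpa using hw
    have h2 : 0 < ‖w‖ := norm_pos_iff.2 h0
    have h3 : 2 ≤ ‖w⁻¹‖ := by
      rw [norm_inv, le_inv_comm₀ (by norm_num) h2]
      linarith
    have h4 := norm_sub_le (a + w⁻¹) a
    rw [add_sub_cancel_left] at h4
    linarith
  have hU0 : U ∈ 𝓝 (0 : ℂ) := mem_of_superset (closedBall_mem_nhds _ (by norm_num)) hball
  have hUo : IsOpen U := by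
    rw [isOpen_iff_mem_nhds]
    intro w hw
    by_cases h0 : w = 0
    · rw [h0]
      exact hU0
    have h1 : a + w⁻¹ ∈ Om r L := ((hmem w).1 hw).resolve_left h0
    have h2 : ContinuousAt (fun w : ℂ => a + w⁻¹) w := continuousAt_const.add (continuousAt_inv₀ h0)
    filter_upwards [h2.eventually (h.isOpen_Om.mem_nhds h1)] with y hy
    exact (hmem y).2 (Or.inr hy)
  have hjd : DifferentiableOn ℂ (fun z : ℂ => (z - a)⁻¹) (Om r L) :=
    (differentiableOn_id.sub_const a).inv hza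
  have hUc : IsPreconnected U := by
    have h1 : IsPreconnected ((fun z => (z - a)⁻¹) '' Om r L) :=
      h.preconn_Om.image _ hjd.continuousOn
    have h2 : U = (fun z => (z - a)⁻¹) '' Om r L ∪ closedBall 0 (1 / 2) := by
      refine Subset.antisymm (union_subset_union_right _ ?_) (union_subset subset_union_left hball)
      rw [singleton_subset_iff]
      exact mem_closedBall_self (by norm_num)
    have h3 : (1 / 2 : ℂ) ∈ closedBall (0 : ℂ) (1 / 2) := by simp
    rw [h2]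
    exact IsPreconnected.union (1 / 2) ((hball h3).resolve_right (by simp)) h3 h1
      (convex_closedBall _ _).isPreconnected
  have hUn : U ≠ univ := by
    intro e
    have h1 : (b - a)⁻¹ ∈ U := e ▸ mem_univ _
    rcases (hmem _).1 h1 with h2 | h2
    · exact hab (sub_eq_zero.1 (inv_eq_zero.1 h2)).symm
    · exact not_mem_Om h hb (by simpa using h2)
  have h0U : (0 : ℂ) ∈ U := Or.inr rfl
  obtain ⟨φ, hd, hi, him, hφ0, hne⟩ := hR U 0 hUo hUc (h.nc_inv ho ha) hUn h0U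
  obtain ⟨ψ, hψ, hr, hbd⟩ := inverse hUo hd hi him hne
  have hj : ∀ z ∈ Om r L, (z - a)⁻¹ ∈ U := fun z hz => Or.inl ⟨z, hz, rfl⟩
  have hφne : ∀ w ∈ U, w ≠ 0 → φ w ≠ 0 := fun w hw h0 e => h0 (hi hw h0U (e.trans hφ0.symm))
  have hψne : ∀ w ∈ ball (0 : ℂ) 1 \ {0}, ψ w ≠ 0 := fun w hw e => by
    have h1 := (hr w hw.1).2
    rw [e, hφ0] at h1
    exact hw.2 h1.symm
  refine ⟨fun z => φ (z - a)⁻¹, fun w => a + (ψ w)⁻¹, hd.comp hjd hj, fun x hx y hy e => ?_,
    fun z hz => ?_, ((hψ.mono sdiff_subset).inv hψne).const_add a, fun w hw => ⟨?_, ?_⟩,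
    fun p hp => ?_, fun _ => ⟨fun z hz => hφne _ (hj z hz) (inv_ne_zero (hza z hz)), ?_⟩⟩
  · have h1 := hi (hj x hx) (hj y hy) e
    simpa using h1
  · have : φ (z - a)⁻¹ ∈ ball (0 : ℂ) 1 := him ▸ mem_image_of_mem φ (hj z hz)
    simpa using this
  · exact ((hmem _).1 (hr w hw.1).1).resolve_left (hψne w hw)
  · simpa using (hr w hw.1).2
  · refine hbd _ (fun z => (z - a)⁻¹) ?_ fun K hK hKU => ?_
    · filter_upwards [self_mem_nhdsWithin] with z hz using hj z hz
    rw [h.isOpen_Om.frontier_eq] at hp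
    by_cases hpa : p = a
    · have h1 : Tendsto (fun z : ℂ => z - a) (𝓝[Om r L] p) (𝓝[≠] 0) := by
        refine tendsto_nhdsWithin_iff.2 ⟨?_, ?_⟩
        · have : Tendsto (fun z : ℂ => z - a) (𝓝 p) (𝓝 (p - a)) :=
            (continuous_id.sub continuous_const).tendsto p
          rw [hpa, sub_self] at this
          rw [hpa]
          exact this.mono_left nhdsWithin_le_nhds
        · filter_upwards [self_mem_nhdsWithin] with z hz using hza z hz
      exact (tendsto_inv₀_nhdsNE_zero.comp h1).eventually (Bornology.isBounded_def.1 hK.isBounded)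
    · have h1 : ContinuousAt (fun z : ℂ => (z - a)⁻¹) p :=
        (continuousAt_id.sub continuousAt_const).inv₀ (sub_ne_zero.2 hpa)
      have h2 : (p - a)⁻¹ ∉ K := fun h3 => by
        rcases (hmem _).1 (hKU h3) with h4 | h4
        · exact hpa (sub_eq_zero.1 (inv_eq_zero.1 h4))
        · exact hp.2 (by simpa using h4)
      exact mem_nhdsWithin_of_mem_nhds (h1.eventually (hK.isClosed.isOpen_compl.mem_nhds h2))
  · have hg : ContinuousOn (fun w => ‖dslope φ 0 w‖) U :=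
      ((differentiableOn_dslope hU0).2 hd).continuousOn.norm
    have hfac : ∀ w : ℂ, φ w = w * dslope φ 0 w := fun w => by
      have := sub_smul_dslope φ 0 w
      rw [hφ0, sub_zero, sub_zero, smul_eq_mul] at this
      exact this.symm
    have hgne : ∀ w ∈ U, 0 < ‖dslope φ 0 w‖ := by
      intro w hw
      rw [norm_pos_iff]
      by_cases h0 : w = 0
      · rw [h0, dslope_same]
        exact hne 0 h0U
      · intro e
        exact hφne w hw h0 (by rw [hfac w, e, mul_zero])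
    have hE : IsCompact (closedBall (0 : ℂ) 3 \ ball 0 1) :=
      (isCompact_closedBall _ _).diff isOpen_ball
    have hEO : closedBall (0 : ℂ) 3 \ ball 0 1 ⊆ Om r L := fun z hz => hout z (by simpa using hz.2)
    set C : Set ℂ := closedBall 0 (1 / 2) ∪ (fun z => (z - a)⁻¹) '' (closedBall (0 : ℂ) 3 \ ball 0 1)
      with hC
    have hCc : IsCompact C :=
      (isCompact_closedBall _ _).union (hE.image_of_continuousOn (hjd.continuousOn.mono hEO))
    have hCU : C ⊆ U := union_subset hball (by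
      rintro _ ⟨z, hz, rfl⟩
      exact hj z (hEO hz))
    have hCn : C.Nonempty := ⟨0, Or.inl (mem_closedBall_self (by norm_num))⟩
    obtain ⟨w₁, hw₁, hmin⟩ := hCc.exists_isMinOn hCn (hg.mono hCU)
    obtain ⟨w₂, hw₂, hmax⟩ := hCc.exists_isMaxOn hCn (hg.mono hCU)
    have hm := hgne w₁ (hCU hw₁)
    refine ⟨‖dslope φ 0 w₁‖ / 2, ‖dslope φ 0 w₂‖ / (1 - ‖a‖), half_pos hm, fun z hz => ?_⟩
    have e1 := norm_sub_le z a
    have e2 := norm_sub_norm_le z a
    have e3 : 0 < ‖z - a‖ := by linarith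
    have hzC : (z - a)⁻¹ ∈ C := by
      by_cases h3 : ‖z‖ ≤ 3
      · exact Or.inr ⟨z, ⟨by simpa using h3, by simpa using hz⟩, rfl⟩
      · left
        rw [mem_closedBall, dist_zero_right, norm_inv, inv_le_comm₀ e3 (by norm_num)]
        norm_num
        linarith
    have k1 : ‖dslope φ 0 w₁‖ ≤ ‖dslope φ 0 (z - a)⁻¹‖ := hmin hzC
    have k2 : ‖dslope φ 0 (z - a)⁻¹‖ ≤ ‖dslope φ 0 w₂‖ := hmax hzC
    have e4 : ‖z‖ * ‖φ (z - a)⁻¹‖ = ‖z‖ / ‖z - a‖ * ‖dslope φ 0 (z - a)⁻¹‖ := by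
      rw [hfac (z - a)⁻¹, norm_mul, norm_inv]
      ring
    have e5 : 1 / 2 ≤ ‖z‖ / ‖z - a‖ := by
      rw [le_div_iff₀ e3]
      linarith
    have e6 : ‖z‖ / ‖z - a‖ ≤ 1 / (1 - ‖a‖) := by
      rw [div_le_div_iff₀ e3 (by linarith)]
      nlinarith [norm_nonneg a]
    rw [e4]
    constructor
    · calc ‖dslope φ 0 w₁‖ / 2 = 1 / 2 * ‖dslope φ 0 w₁‖ := by ring
        _ ≤ _ := mul_le_mul e5 k1 hm.le (by positivity)
    · calc _ ≤ 1 / (1 - ‖a‖) * ‖dslope φ 0 w₂‖ :=
            mul_le_mul e6 k2 (norm_nonneg _) (by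
              have : 0 < 1 - ‖a‖ := by linarith
              positivity)
        _ = _ := by ring

end RMOP

theorem rmo (h : S_RM) : S_RMO := by
  intro r L hL
  by_cases ho : ∃ p ∈ L, ‖p‖ = 1
  · exact RMOP.case_out h hL ho
  · exact RMOP.case_in h hL fun p hp e => ho ⟨p, hp, e⟩

end Pool.Agent.P.MP_3bd355_an
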