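import Pool.Agent.P.MP_3bd355_an.Stmts

/-! Limits on the continuum, a positive competitor, and reflection of critical configurations. -/

open Set Filter Metric Complex InnerProductSpace
open scoped Topology ComplexConjugate Real

namespace Pool.Agent.P.MP_3bd355_an

namespace RayP

theorem tend {S T : Set ℂ} (h : ∀ z ∈ S, conj z ∈ T) (p : ℂ) :
    Tendsto (fun z => conj z) (𝓝[S] p) (𝓝[T] (conj p)) :=
  continuous_conj.continuousWithinAt.tendsto_nhdsWithin h

theorem qd (r : ℝ) (z₀ z₁ a b : ℂ) (c : ℝ) (z : ℂ) :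
    QD r (conj z₀) (conj z₁) (conj a) (conj b) c (conj z) = conj (QD r z₀ z₁ a b c z) := by
  simp only [QD, map_div₀, map_add, map_sub, map_mul, map_pow, conj_ofReal, ← vk_conj]

theorem grad_conj (u : ℂ → ℝ) (z : ℂ) : grad (fun y => u (conj y)) z = conj (grad u (conj z)) := by
  have h := conjCLE.comp_right_fderiv (f := u) (x := z)
  have e : (fun y => u (conj y)) = u ∘ conjCLE := rfl
  unfold grad
  rw [e, h]
  simp

theorem nsub (z w : ℂ) : ‖conj z - w‖ = ‖z - conj w‖ := by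
  rw [← norm_conj, map_sub, conj_conj]

end RayP

open RayP

theorem lim3 (h : S_BL) : S_LIM3 := by
  intro r A B Ls L vs p hL hk hH hv hp ha
  rw [Metric.tendsto_nhds]
  intro ε hε
  obtain ⟨M, hM, hb⟩ : ∃ M : ℝ, 0 < M ∧ ∀ k z, |vs k z| ≤ M :=
    ⟨max |A| |B| + 1, by positivity, fun k z => ((hv k).abs_le (hk k) z).trans (by linarith)⟩
  obtain ⟨δ, d0, d1, hδ⟩ := h (ε / 2 / M) (by positivity)
  obtain ⟨d, hd, h1⟩ := hH.diam hL.nt
  obtain ⟨s, hs, h2⟩ := Metric.isOpen_iff.1 (isOpen_ann r) p ha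
  have hρ : 0 < min d s / 2 := half_pos (lt_min hd hs)
  filter_upwards [h1, hH.near hp (mul_pos d0 hρ)] with k ⟨x, hx, y, hy, h3⟩ ⟨q, hq, h4⟩
  have h5 : ¬ Ls k ⊆ ball q (min d s / 2) := fun h5 => by
    have := dist_triangle_right x y q
    linarith [mem_ball.1 (h5 hx), mem_ball.1 (h5 hy), min_le_left d s]
  have h6 : ball q (min d s / 2) ⊆ ann r := fun z hz => h2 (by
    have := dist_triangle z q p
    rw [mem_ball] at hz ⊢
    nlinarith [min_le_right d s])
  by_cases hW : p ∈ main r (Ls k)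
  · have key : ∀ σ : ℝ, |σ| = 1 → σ / M * vs k p ≤ ε / 2 / M := fun σ hσ => by
      refine hδ q _ (Ls k) (main r (Ls k)) ∅ (fun z => σ / M * vs k z) hρ (hk k).cpt (hk k).conn hq
        h5 (hk k).isOpen_main (disjoint_left.2 fun z hz h => (main_sub r _ h).2 hz) finite_empty
        (Sub.of_harm fun z hz => harm_const_mul ((hv k).harm z hz) _) (fun z _ => ?_)
        (fun t ht h7 _ => ?_) p hW (mem_ball'.2 h4)
      · rw [div_mul_eq_mul_div, div_le_one hM]
        exact (le_abs_self _).trans (by rw [abs_mul, hσ, one_mul]; exact hb k z)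
      · have h8 := h6 h7
        rcases ((hk k).frontier_sub ht).2.2 with h9 | h9 | h9
        · exact LS.of_tendsto (((hv k).atL t h9 fun h =>
            h8.1.ne' ((hk k).closure_Ex h).1).const_mul _) (mul_zero _).le
        · exact absurd h9.1 h8.1.ne'
        · exact absurd h9 h8.2.ne
    have h7 := key 1 abs_one
    have h8 := key (-1) (by simp)
    rw [div_mul_eq_mul_div, div_le_div_iff_of_pos_right hM] at h7 h8
    rw [Real.dist_0_eq_abs, abs_lt]
    constructor <;> linarith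
  · simpa [(hv k).off p hW] using hε

theorem mpos (h : S_SOLEX) : S_MPOS := by
  intro r B z₀ z₁ h0 m0 m1 hB i0 i1 hne
  let L : Set ℂ := {w | w.re ≤ z₁.re} ∩ {w | z₁.re ≤ w.re} ∩ {w | w.im ≤ z₁.im} ∩ closedBall 0 1
  have h1 : z₁.re ^ 2 + z₁.im ^ 2 = ‖z₁‖ ^ 2 := by rw [Complex.sq_norm, normSq_apply]; ring
  have h2 : ‖z₁‖ ^ 2 < 1 := by nlinarith [m1.2, norm_nonneg z₁]
  have hz : z₁ ∈ L := ⟨⟨⟨le_refl z₁.re, le_refl z₁.re⟩, le_refl z₁.im⟩, by simpa using m1.2.le⟩
  have hp1 : ‖(⟨z₁.re, -√(1 - z₁.re ^ 2)⟩ : ℂ)‖ = 1 := by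
    rw [← sq_eq_sq₀ (norm_nonneg _) zero_le_one, Complex.sq_norm, normSq_mk, neg_mul_neg,
      Real.mul_self_sqrt (by nlinarith)]
    ring
  have hp : (⟨z₁.re, -√(1 - z₁.re ^ 2)⟩ : ℂ) ∈ L :=
    ⟨⟨⟨le_refl z₁.re, le_refl z₁.re⟩, (Real.neg_sqrt_le_of_sq_le (by linarith) :
      -√(1 - z₁.re ^ 2) ≤ z₁.im)⟩, by simpa using hp1.le⟩
  have hL : Cont r L := by
    refine ⟨h0, m1.1.trans m1.2, (isCompact_closedBall 0 1).inter_left
      (((isClosed_le continuous_re continuous_const).inter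
        (isClosed_le continuous_const continuous_re)).inter
        (isClosed_le continuous_im continuous_const)),
      ((((convex_halfSpace_re_le _).inter (convex_halfSpace_re_ge _)).inter
        (convex_halfSpace_im_le _)).inter (convex_closedBall 0 1)).isPreconnected,
      ⟨_, hp, z₁, hz, fun e => m1.2.ne (e ▸ hp1)⟩, fun w hw => ⟨m1.1.le.trans ?_, by simpa using hw.2⟩,
      fun w hw => le_trans hw.1.2 i1⟩
    have h3 : w.re = z₁.re := le_antisymm hw.1.1.1 hw.1.1.2
    have h4 : w.im ≤ z₁.im := hw.1.2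
    have h5 : w.re ^ 2 + w.im ^ 2 = ‖w‖ ^ 2 := by rw [Complex.sq_norm, normSq_apply]; ring
    refine (sq_le_sq₀ (norm_nonneg _) (norm_nonneg _)).1 ?_
    rw [← h1, ← h5, h3]
    nlinarith
  obtain ⟨v, hv⟩ := h r 0 B L hL (Or.inl rfl)
  refine ⟨L, v, ⟨hL, m1, hz, hB, hv, nn_zero hL hv hB.le, Or.inl ⟨rfl, _, hp, hp1⟩⟩,
    hv.pos_of_zero hL hB _ (hL.mem_main m0 i0 fun hw => hne ?_)⟩
  exact Complex.ext (le_antisymm hw.1.1.1 hw.1.1.2) (le_antisymm hw.1.2 (i1.trans i0))

theorem rotc : S_ROTc := by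
  intro r A B z₀ z₁ a b c κ v g h
  have im : ∀ z, z ∈ (fun t => conj (κ t)) '' Icc 0 1 ↔ conj z ∈ κ '' Icc 0 1 := fun z =>
    ⟨fun ⟨t, ht, e⟩ => ⟨t, ht, by rw [← e, conj_conj]⟩, fun ⟨t, ht, e⟩ => ⟨t, ht, by
      simp only [e, conj_conj]⟩⟩
  have mW : ∀ z ∈ ann r \ (fun t => conj (κ t)) '' Icc 0 1, conj z ∈ ann r \ κ '' Icc 0 1 :=
    fun z hz => ⟨conj_mem_ann.2 hz.1, fun e => hz.2 ((im z).2 e)⟩
  have n0 : ∀ z, z ≠ conj z₀ → conj z ≠ z₀ := fun z hz e => hz (by rw [← e, conj_conj])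
  have tt := fun p => tend (S := ann r) (T := ann r) (fun z hz => conj_mem_ann.2 hz) p
  have cs : ∀ p : ℂ, Tendsto (fun z : ℂ => conj z) (𝓝 (conj p)) (𝓝 p) := fun p =>
    continuous_conj.tendsto' _ _ (conj_conj p)
  have q0 : ∀ z, QD r (conj z₀) (conj z₁) (conj a) (conj b) c (conj z) = 0 ↔
      QD r z₀ z₁ a b c z = 0 := fun z => by rw [qd, map_eq_zero]
  refine
    { bal := by rw [← map_add, conj_im, h.bal, neg_zero]
      b_ne := (map_ne_zero _).2 h.b_ne
      cont := continuous_conj.comp_continuousOn h.cont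
      inj := fun s hs t ht e => h.inj hs ht ((starRingEnd ℂ).injective e)
      start := by simp only [h.start]
      mem := by simpa only [norm_conj] using h.mem
      avoid := fun e => h.avoid (by simpa only [conj_conj] using (im _).1 e)
      traj := fun t ht hr => ?_
      touch := by simpa only [norm_conj, q0] using h.touch
      v_cont := h.v_cont.comp continuous_conj.continuousOn fun z hz => conj_mem_ann.2 hz
      v_bdd := h.v_bdd.imp fun C hC z hz => hC _ (conj_mem_ann.2 hz)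
      v_harm := fun z hz => harm_conj (h.v_harm _ (mW z hz))
      v_zero := fun z hz hk => h.v_zero _ (conj_mem_ann.2 hz) ((im z).1 hk)
      v_outer := fun p hp => (h.v_outer _ (by rw [norm_conj, hp])).comp (tt p)
      v_inner := fun p hp hk =>
        (h.v_inner _ (by rw [norm_conj, hp]) fun e => hk ((im p).2 e)).comp (tt p)
      v_hug := fun p hp hk => (h.v_hug _ (by rw [norm_conj, hp]) fun e => hk ?_).comp (tt p)
      v_pos := fun t ht hr => (cs _).eventually (h.v_pos t ht (by rwa [norm_conj] at hr))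
      g_harm := fun z hz => harm_conj (h.g_harm _ ⟨mW z hz.1, n0 z hz.2⟩)
      g_pole := ?_
      g_bd := fun p hp => (h.g_bd _ ?_).comp (tend mW p)
      prod := fun z hz hn => ?_
      end_zero := by simpa only [norm_conj, q0] using h.end_zero
      end_neg := fun hA => ?_ }
  · obtain ⟨a1, ρ, hρ, e⟩ := h.traj t ht (by rwa [norm_conj] at hr)
    refine ⟨(conjCLE.analyticAt _).comp a1, ρ, hρ, ?_⟩
    have hd : deriv (fun t => conj (κ t)) t = conj (deriv κ t) :=
      (conjCLE.hasFDerivAt.comp_hasDerivAt t a1.differentiableAt.hasDerivAt).deriv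
    rw [qd, hd, ← map_pow, ← map_mul, e, map_neg, conj_ofReal]
  · have := map_mem_closure (f := fun z : ℂ => conj z) continuous_conj e
      (t := sphere 0 r \ (fun t => conj (κ t)) '' Icc 0 1) fun y hy =>
        ⟨by simpa using hy.1, fun e' => hy.2 (by simpa only [conj_conj] using (im _).1 e')⟩
    simpa only [conj_conj] using this
  · obtain ⟨H, H1, H2⟩ := h.g_pole
    refine ⟨fun z => H (conj z), harm_conj (by rwa [conj_conj]), ?_⟩
    have := tend (S := {conj z₀}ᶜ) (T := {z₀}ᶜ) n0 (conj z₀)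
    rw [conj_conj] at this
    filter_upwards [this.eventually H2] with z hz
    rw [hz, nsub]
  · have e : ann r \ (fun t => conj (κ t)) '' Icc 0 1 =
        conjCLE.toHomeomorph ⁻¹' (ann r \ κ '' Icc 0 1) :=
      Set.ext fun z => ⟨mW z, fun hz => ⟨conj_mem_ann.1 hz.1, fun e => hz.2 ((im z).1 e)⟩⟩
    rw [e, ← Homeomorph.preimage_frontier] at hp
    exact hp
  · rw [grad_conj, grad_conj, ← map_mul, h.prod _ (mW z hz) (n0 z hn), ← qd, conj_conj]
  · obtain ⟨a1, a2, ⟨C, hC⟩, T, T1, T2, T3, T4⟩ := h.end_neg hA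
    refine ⟨conj_mem_ann.2 a1, fun e => a2 ((q0 _).1 e), ⟨C, ?_⟩, fun t => conj (T t),
      continuous_conj.comp_continuousOn T1, by simp only [T2], fun t ht => ?_,
      by simpa only [norm_conj] using T4⟩
    · filter_upwards [(cs _).eventually hC] with z hz
      rwa [nsub] at hz
    · simpa only [conj_mem_ann, conj_conj] using T3 t ht

end Pool.Agent.P.MP_3bd355_an
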