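import Pool.Agent.P.MP_3bd355_an.Stmts

/-! Boundary values of the uniformising map. -/

open Set Filter Metric Complex InnerProductSpace
open scoped Topology ComplexConjugate Real

namespace Pool.Agent.P.MP_3bd355_an

namespace RegP

theorem ring {S : Set ℂ} (hS : S.Finite) (p : ℂ) {d : ℝ} (hd : 0 < d) :
    ∃ s ρ : ℝ, 0 < ρ ∧ 0 < s - ρ ∧ s + ρ < d ∧ ∀ z ∈ S, ρ < |dist z p - s| := by
  have hT := hS.image fun z => dist z p
  obtain ⟨s, hs, hs'⟩ := ((Ioo_infinite hd).sdiff hT).nonempty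
  obtain ⟨ε, hε, hb⟩ := Metric.isOpen_iff.1 (isOpen_Ioo.sdiff hT.isClosed) s ⟨hs, hs'⟩
  have m1 := hb (a := s - ε / 2) (by rw [mem_ball, Real.dist_eq, abs_lt]; constructor <;> linarith)
  have m2 := hb (a := s + ε / 2) (by rw [mem_ball, Real.dist_eq, abs_lt]; constructor <;> linarith)
  refine ⟨s, ε / 2, by linarith, m1.1.1, m2.1.2, fun z hz => lt_of_not_ge fun h => ?_⟩
  exact (hb (a := dist z p) (by rw [mem_ball, Real.dist_eq]; linarith)).2 ⟨z, hz, rfl⟩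

theorem crossing {f : ℂ → ℂ} {V : Set ℂ} {p η₁ η₂ : ℂ} {s ρ M : ℝ} (hV : IsOpen V)
    (hc : Convex ℝ V) (hf : DifferentiableOn ℂ f V) (hM : 0 ≤ M)
    (hb : ∀ η ∈ V, |dist (f η) p - s| ≤ ρ → ‖deriv f η‖ ≤ M) (h1 : η₁ ∈ V) (h2 : η₂ ∈ V)
    (e1 : dist (f η₁) p ≤ s - ρ) (e2 : s + ρ ≤ dist (f η₂) p) : 2 * ρ ≤ M * ‖η₂ - η₁‖ := by
  have hm : ∀ t ∈ Icc (0 : ℝ) 1, η₁ + t * (η₂ - η₁) ∈ V := fun t ht => by
    simpa using hc.add_smul_sub_mem h1 h2 ht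
  have hd : ∀ t ∈ Icc (0 : ℝ) 1, HasDerivAt (fun t : ℝ => f (η₁ + t * (η₂ - η₁)))
      (deriv f (η₁ + t * (η₂ - η₁)) * (η₂ - η₁)) t := fun t ht => by
    have a1 : HasDerivAt (fun w : ℂ => η₁ + w * (η₂ - η₁)) (η₂ - η₁) t := by
      simpa using ((hasDerivAt_id (t : ℂ)).mul_const (η₂ - η₁)).const_add η₁
    exact (((hf.differentiableAt (hV.mem_nhds (hm t ht))).hasDerivAt).comp (t : ℂ) a1).comp_ofReal
  have hg : ∀ t ∈ Icc (0 : ℝ) 1, ContinuousAt (fun t : ℝ => dist (f (η₁ + t * (η₂ - η₁))) p) t :=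
    fun t ht => (hd t ht).continuousAt.dist continuousAt_const
  have key := image_le_of_liminf_slope_right_le_deriv_boundary
    (f := fun t : ℝ => max (s - ρ) (min (s + ρ) (dist (f (η₁ + t * (η₂ - η₁))) p)))
    (a := 0) (b := 1) (B := fun t => s - ρ + M * ‖η₂ - η₁‖ * t) (B' := fun _ => M * ‖η₂ - η₁‖)
    (fun t ht => ContinuousAt.continuousWithinAt
      (continuousAt_const.max (continuousAt_const.min (hg t ht))))
    (by simp [e1]) (by fun_prop)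
    (fun t _ => by simpa using (((hasDerivAt_id t).const_mul (M * ‖η₂ - η₁‖)).const_add
      (s - ρ)).hasDerivWithinAt) (fun t ht r hr => ?_) (x := 1) (by simp)
  · simp only [ofReal_one, one_mul, add_sub_cancel, min_eq_left e2, mul_one] at key
    linarith [le_max_right (s - ρ) (s + ρ)]
  have ht' := Ico_subset_Icc_self ht
  have hr0 : 0 < r := lt_of_le_of_lt (by positivity) hr
  by_cases hin : |dist (f (η₁ + t * (η₂ - η₁))) p - s| ≤ ρ
  · have a1 := (hd t ht').hasDerivWithinAt.liminf_right_norm_slope_le (r := r) (by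
      rw [norm_mul]
      exact (mul_le_mul_of_nonneg_right (hb _ (hm t ht') hin) (norm_nonneg _)).trans_lt hr)
    refine (a1.and_eventually self_mem_nhdsWithin).mono fun z ⟨hz, hz'⟩ => lt_of_le_of_lt ?_ hz
    have hz'' : 0 < z - t := sub_pos.2 hz'
    rw [slope_def_field, div_eq_inv_mul, Real.norm_eq_abs, abs_of_pos hz'']
    gcongr
    refine (le_abs_self _).trans ((abs_max_sub_max_le_max _ _ _ _).trans ?_)
    rw [sub_self, abs_zero]
    refine max_le (norm_nonneg _) ((abs_min_sub_min_le_max _ _ _ _).trans ?_)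
    rw [sub_self, abs_zero]
    exact max_le (norm_nonneg _) ((abs_dist_sub_le _ _ _).trans (dist_eq_norm _ _).le)
  · refine Eventually.frequently (eventually_nhdsWithin_of_eventually_nhds ?_)
    rcases lt_abs.1 (not_le.1 hin) with h | h
    · filter_upwards [(hg t ht').eventually (Ioi_mem_nhds (show s + ρ < _ by linarith))] with z hz
      rw [slope_def_field, min_eq_left (le_of_lt hz), min_eq_left (by linarith)]
      simpa using hr0
    · filter_upwards [(hg t ht').eventually (Iio_mem_nhds (show _ < s - ρ by linarith))] with z hz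
      rw [slope_def_field, max_eq_left ((min_le_right _ _).trans (le_of_lt hz)),
        max_eq_left ((min_le_right _ _).trans (by linarith))]
      simpa using hr0

end RegP

open RegP

theorem reg0 : S_REG0 := by
  intro Q f K S V x C hK hS hQ hV hc hx hf hm hC
  have : (𝓝[V] x).NeBot := mem_closure_iff_nhdsWithin_neBot.1 hx
  have hev : ∀ᶠ η in 𝓝[V] x, f η ∈ K := eventually_nhdsWithin_of_forall hm
  obtain ⟨p, -, hp⟩ := hK.exists_mapClusterPt (f := 𝓝[V] x) (u := f) (tendsto_principal.2 hev)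
  refine ⟨p, hK.tendsto_nhds_of_unique_mapClusterPt hev fun q _ hq => by_contra fun hne => ?_⟩
  obtain ⟨s, ρ, hρ, r1, r2, r3⟩ := ring hS p (dist_pos.2 hne)
  have hR : IsCompact (K ∩ {z | |dist z p - s| ≤ ρ}) :=
    hK.inter_right (isClosed_le (by fun_prop) continuous_const)
  have hR' : ∀ z ∈ K ∩ {z | |dist z p - s| ≤ ρ}, ContinuousAt Q z ∧ Q z ≠ 0 := fun z hz =>
    hQ z hz.1 fun h => absurd hz.2 (not_le.2 (r3 z h))
  obtain ⟨B, hB⟩ := hR.exists_bound_of_continuousOn (f := fun z => (Q z)⁻¹)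
    fun z hz => ((hR' z hz).1.inv₀ (hR' z hz).2).continuousWithinAt
  have hb : ∀ η ∈ V, |dist (f η) p - s| ≤ ρ → ‖deriv f η‖ ≤ √(B * C) := fun η hη h => by
    refine Real.le_sqrt_of_sq_le ?_
    have e : deriv f η ^ 2 = (Q (f η))⁻¹ * (Q (f η) * deriv f η ^ 2) := by
      rw [inv_mul_cancel_left₀ (hR' _ ⟨hm hη, h⟩).2]
    rw [← norm_pow, e, norm_mul]
    exact mul_le_mul (hB _ ⟨hm hη, h⟩) (hC η hη) (norm_nonneg _)
      ((norm_nonneg _).trans (hB _ ⟨hm hη, h⟩))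
  have hM := Real.sqrt_nonneg (B * C)
  have hδ : 0 < ρ / (√(B * C) + 1) := by positivity
  have hev' : ∀ᶠ η in 𝓝[V] x, η ∈ V ∧ η ∈ ball x (ρ / (√(B * C) + 1)) :=
    (eventually_mem_nhdsWithin).and (mem_nhdsWithin_of_mem_nhds (ball_mem_nhds x hδ))
  obtain ⟨η₁, a1, a2, a3⟩ := ((hp.frequently (ball_mem_nhds p r1)).and_eventually hev').exists
  obtain ⟨η₂, b1, b2, b3⟩ :=
    ((hq.frequently (ball_mem_nhds q (sub_pos.2 r2))).and_eventually hev').exists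
  have := crossing hV hc hf hM hb a2 b2 (mem_ball.1 a1).le
    (by linarith [mem_ball.1 b1, dist_triangle_left q p (f η₂)])
  have d1 := dist_triangle_right η₂ η₁ x
  rw [dist_eq_norm] at d1
  have d2 : ‖η₂ - η₁‖ * (√(B * C) + 1) < 2 * ρ := by
    rw [← lt_div_iff₀ (by positivity), mul_div_assoc]
    linarith [mem_ball.1 a3, mem_ball.1 b3]
  nlinarith [norm_nonneg (η₂ - η₁)]

namespace RegP

theorem upH_open : IsOpen upH := isOpen_lt continuous_const continuous_im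

theorem mem_cl (x : ℝ) : (x : ℂ) ∈ closure upH := by
  rw [upH, closure_setOfPred_lt_im]; simp

variable {Q F : ℂ → ℂ} {K S : Set ℂ}

theorem lim_half (h : S_REG0) (hK : IsCompact K) (hS : S.Finite)
    (hQ : ∀ p ∈ K, p ∉ S → ContinuousAt Q p ∧ Q p ≠ 0) {x C : ℝ}
    (he : ∀ᶠ η in 𝓝[upH] (x : ℂ), DifferentiableAt ℂ F η ∧ F η ∈ K ∧
      ‖Q (F η) * deriv F η ^ 2‖ ≤ C) : ∃ p, Tendsto F (𝓝[upH] (x : ℂ)) (𝓝 p) := by
  obtain ⟨δ, hδ, hb⟩ := Metric.mem_nhdsWithin_iff.1 he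
  have e : 𝓝[ball (x : ℂ) δ ∩ upH] (x : ℂ) = 𝓝[upH] (x : ℂ) := by
    rw [inter_comm]; exact (nhdsWithin_restrict' _ (ball_mem_nhds _ hδ)).symm
  rw [← e]
  refine h Q F K S _ x C hK hS hQ (isOpen_ball.inter upH_open)
    ((convex_ball _ _).inter (convex_halfSpace_im_gt 0)) ?_
    (fun η hη => (hb hη).1.differentiableWithinAt) (fun η hη => (hb hη).2.1) fun η hη => (hb hη).2.2
  rw [mem_closure_iff_nhdsWithin_neBot, e]
  exact mem_closure_iff_nhdsWithin_neBot.1 (mem_cl x)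

theorem root {w : ℂ} (hw : 0 < w.im) : ∃ ξ : ℂ, 0 < ξ.re ∧ 0 < ξ.im ∧ ξ ^ 2 = w := by
  obtain ⟨ξ, rfl⟩ := IsSepClosed.exists_pow_nat_eq w 2
  have : 0 < ξ.re * ξ.im := by simp [sq] at hw; linarith
  rcases pos_and_pos_or_neg_and_neg_of_mul_pos this with h | h
  · exact ⟨ξ, h.1, h.2, rfl⟩
  · exact ⟨-ξ, by simpa using h.1, by simpa using h.2, by ring⟩

theorem lim_end (h : S_REG0) (hK : IsCompact K) (hS : S.Finite)
    (hQ : ∀ p ∈ K, p ∉ S → ContinuousAt Q p ∧ Q p ≠ 0) {x C : ℝ}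
    (he : ∀ᶠ η in 𝓝[upH] (x : ℂ), DifferentiableAt ℂ F η ∧ F η ∈ K ∧
      ‖η - x‖ * ‖Q (F η) * deriv F η ^ 2‖ ≤ C) : ∃ p, Tendsto F (𝓝[upH] (x : ℂ)) (𝓝 p) := by
  obtain ⟨δ, hδ, hb⟩ := Metric.mem_nhdsWithin_iff.1 he
  have hs := Real.sqrt_pos.2 hδ
  obtain ⟨V, hV⟩ : ∃ V : Set ℂ, V = ball 0 √δ ∩ ({ξ | 0 < ξ.re} ∩ {ξ | 0 < ξ.im}) := ⟨_, rfl⟩
  have hm : ∀ ξ ∈ V, (x : ℂ) + ξ ^ 2 ∈ ball (x : ℂ) δ ∩ upH := fun ξ hξ => by
    rw [hV] at hξ
    obtain ⟨a1, a2, a3⟩ := hξ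
    rw [mem_ball_zero_iff, Real.lt_sqrt (norm_nonneg _)] at a1
    refine ⟨by simpa using a1, ?_⟩
    have := mul_pos (show 0 < ξ.re from a2) (show 0 < ξ.im from a3)
    simp [upH, sq]; linarith
  have hd : ∀ ξ ∈ V, HasDerivAt (fun ξ => F (x + ξ ^ 2)) (deriv F (x + ξ ^ 2) * (2 * ξ)) ξ :=
    fun ξ hξ => (hb (hm ξ hξ)).1.hasDerivAt.comp ξ (by
      simpa using (hasDerivAt_pow 2 ξ).const_add (x : ℂ))
  have hnear : ∀ ε > 0, ∀ᶠ η in 𝓝[upH] (x : ℂ), ∃ ξ ∈ V, ‖ξ‖ < ε ∧ x + ξ ^ 2 = η := fun ε hε => by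
    filter_upwards [self_mem_nhdsWithin, mem_nhdsWithin_of_mem_nhds (ball_mem_nhds _
      (lt_min hδ (pow_pos hε 2)))] with η h1 h2
    obtain ⟨ξ, b1, b2, b3⟩ := root (w := η - x) (by simpa [upH] using h1)
    rw [mem_ball, dist_eq_norm, ← b3, norm_pow, lt_min_iff] at h2
    refine ⟨ξ, hV ▸ ⟨?_, b1, b2⟩, lt_of_pow_lt_pow_left₀ 2 hε.le h2.2, by rw [b3]; ring⟩
    rw [mem_ball_zero_iff, Real.lt_sqrt (norm_nonneg _)]
    exact h2.1
  have := mem_closure_iff_nhdsWithin_neBot.1 (mem_cl x)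
  obtain ⟨p, hp⟩ := h Q (fun ξ => F (x + ξ ^ 2)) K S V 0 (4 * C) hK hS hQ
    (hV ▸ isOpen_ball.inter ((isOpen_lt continuous_const continuous_re).inter upH_open))
    (hV ▸ (convex_ball _ _).inter ((convex_halfSpace_re_gt 0).inter (convex_halfSpace_im_gt 0)))
    (Metric.mem_closure_iff.2 fun ε hε => by
      obtain ⟨_, ξ, c1, c2, -⟩ := (hnear ε hε).exists
      exact ⟨ξ, c1, by simpa using c2⟩)
    (fun ξ hξ => (hd ξ hξ).differentiableAt.differentiableWithinAt)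
    (fun ξ hξ => (hb (hm ξ hξ)).2.1) fun ξ hξ => by
      have := (hb (hm ξ hξ)).2.2
      rw [add_sub_cancel_left, ← norm_mul] at this
      rw [(hd ξ hξ).deriv, show Q (F (x + ξ ^ 2)) * (deriv F (x + ξ ^ 2) * (2 * ξ)) ^ 2 =
        4 * (ξ ^ 2 * (Q (F (x + ξ ^ 2)) * deriv F (x + ξ ^ 2) ^ 2)) by ring, norm_mul]
      simp only [Complex.norm_ofNat]
      linarith
  refine ⟨p, fun N hN => ?_⟩
  obtain ⟨ε, hε, hε'⟩ := Metric.mem_nhdsWithin_iff.1 (hp hN)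
  refine mem_map.2 ((hnear ε hε).mono fun η ⟨ξ, c1, c2, c3⟩ => ?_)
  exact c3 ▸ hε' ⟨mem_ball_zero_iff.2 c2, c1⟩

theorem Ed_ev {x : ℝ} {e : ℕ} (h : Ed Q F x e) : ∃ C : ℝ, ∀ᶠ η in 𝓝[upH] (x : ℂ),
    Q (F η) ≠ 0 ∧ ‖Q (F η) * deriv F η ^ 2‖ ≤ C := by
  obtain ⟨E, h1, -, h3, h4⟩ := h
  have hc : ContinuousAt (fun η : ℂ => ‖(η - x) ^ e * E η‖) x :=
    (ContinuousAt.mul (by fun_prop) h1.continuousAt).norm
  refine ⟨‖((x : ℂ) - x) ^ e * E x‖ + 1, ?_⟩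
  filter_upwards [h4, self_mem_nhdsWithin,
    mem_nhdsWithin_of_mem_nhds (hc.eventually (Iio_mem_nhds (lt_add_one _))),
    mem_nhdsWithin_of_mem_nhds (h1.continuousAt.eventually_ne (y := 0) fun e => by simp [e] at h3)]
    with η a1 a2 a3 a4
  refine ⟨fun e0 => ?_, a1 ▸ le_of_lt a3⟩
  rw [e0, zero_mul] at a1
  exact mul_ne_zero (pow_ne_zero _ (sub_ne_zero.2 fun e1 => by simp [e1, upH] at a2)) a4 a1.symm

end RegP

theorem reg (h : S_REG0) : S_REG := by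
  intro r A B z₀ z₁ L v φ F hh s0 s1 a b c hF h0 hE
  have hU := hF.unif
  have hP := hF.pic
  have r0 := hU.cont.r0
  have r1 := hU.cont.r1
  have m0 : z₀ ∈ ann r := (main_sub r L h0).1
  have m1 := hF.cfg.m1
  have hEd : ∀ x ∈ Zo s0 s1, ∃ e, Ed (QD r z₀ z₁ a b c) F x e := fun x hx =>
    (hE.ed x hx).elim (fun h => ⟨0, h⟩) fun h => ⟨2, h.2⟩
  have hNZ : NZ r z₀ z₁ a b c := by
    obtain ⟨x, hx⟩ := nonempty_Ioo.2 hP.lt
    obtain ⟨e, he⟩ := hEd x (Ioo_sub_Zo hx)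
    obtain ⟨C, hC⟩ := Ed_ev he
    have := mem_closure_iff_nhdsWithin_neBot.1 (mem_cl x)
    obtain ⟨η, a1, a2, a3⟩ := (hC.and ((hU.ev_main x).and
      (hU.ev_ne x isCompact_singleton (singleton_subset_iff.2 h0)))).exists
    exact ⟨F η, (main_sub r L a2.2).1, a3, fun e => (main_sub r L a2.2).2 (e ▸ hF.cfg.mem), a1.1⟩
  refine ⟨hNZ, ?_⟩
  obtain ⟨O, P, -, o2, o3, o4, o5⟩ := QD_num r0 r1 m0 m1 a b c
  obtain ⟨z, z1, z2, z3, z4⟩ := hNZ
  have hfin : (cann r \ {z | P z ≠ 0}).Finite := by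
    rcases o4.eqOn_zero_or_eventually_ne_zero_of_preconnected o2 with e | e
    · have hz := o3 (ann_sub_cann r z1)
      rw [o5 z hz z2 z3, e hz] at z4
      simp at z4
    · exact (isCompact_cann r).finite_sdiff_of_mem_codiscreteWithin (codiscreteWithin_mono o3 e)
  have hS := (hfin.insert z₀).insert z₁
  have hQ : ∀ p ∈ cann r, p ∉ insert z₁ (insert z₀ (cann r \ {z | P z ≠ 0})) →
      ContinuousAt (QD r z₀ z₁ a b c) p ∧ QD r z₀ z₁ a b c p ≠ 0 := fun p hp hn => by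
    have p1 : p ≠ z₁ := fun e => hn (Or.inl e)
    have p0 : p ≠ z₀ := fun e => hn (Or.inr (Or.inl e))
    have p2 : P p ≠ 0 := by_contra fun e => hn (Or.inr (Or.inr ⟨hp, e⟩))
    refine ⟨(QD_analytic r0 r1 m0 m1 a b c hp p0 (Or.inl p1)).continuousAt, ?_⟩
    rw [o5 p (o3 hp) p0 p1]
    exact div_ne_zero p2 (mul_ne_zero (sub_ne_zero.2 p0) (sub_ne_zero.2 p1))
  have hev : ∀ x : ℝ, ∀ᶠ η in 𝓝[upH] (x : ℂ), DifferentiableAt ℂ F η ∧ F η ∈ cann r := fun x =>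
    (hU.ev_main x).mono fun η hη =>
      ⟨(hU.analytic hη.1).differentiableAt, ann_sub_cann r (main_sub r L hη.2).1⟩
  have hI : ∀ x ∈ Icc s0 s1, ∃ p, Tendsto F (𝓝[upH] (x : ℂ)) (𝓝 p) := fun x hx => by
    rcases Icc_cases hP.le hx with e | ⟨e1, e2⟩
    · obtain ⟨e, he⟩ := hEd x e
      obtain ⟨C, hC⟩ := Ed_ev he
      exact lim_half h (isCompact_cann r) hS hQ (C := C)
        (((hev x).and hC).mono fun η hη => ⟨hη.1.1, hη.1.2, hη.2.2⟩)
    · obtain ⟨C, hC⟩ := hE.ends e1 x e2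
      exact lim_end h (isCompact_cann r) hS hQ (C := C)
        (((hev x).and hC).mono fun η hη => ⟨hη.1.1, hη.1.2, hη.2⟩)
  have hall : ∀ x : ℝ, ∃ p, Tendsto F (𝓝[upH] (x : ℂ)) (𝓝 p) := fun x => by
    by_cases hx : x ∈ Eo s0 s1
    · obtain ⟨p, -, hp⟩ := hP.toEx x hx
      exact ⟨p, hp⟩
    · obtain ⟨k, hk⟩ := (not_Eo hP.lt hP.le).1 hx
      obtain ⟨p, hp⟩ := hI _ hk
      refine ⟨p, fun N hN => ?_⟩
      have := hU.shift_ev (P := fun z => z ∈ N) k (hp hN)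
      rwa [sub_add_cancel] at this
  refine ⟨fun x => extendFrom upH F x, ?_, fun x => tendsto_extendFrom (hall x)⟩
  exact (continuousOn_extendFrom (B := range ((↑) : ℝ → ℂ)) (by rintro _ ⟨x, rfl⟩; exact mem_cl x)
    (by rintro _ ⟨x, rfl⟩; exact hall x)).comp_continuous continuous_ofReal mem_range_self

end Pool.Agent.P.MP_3bd355_an
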