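import Pool.Agent.P.MP_3bd355_an.Stmts

/-! Minimality of the free boundary. -/

open Set Filter Metric Complex InnerProductSpace
open scoped Topology ComplexConjugate Real

namespace Pool.Agent.P.MP_3bd355_an

namespace ShP

variable {r A B m h s0 s1 : ℝ} {z₀ z₁ : ℂ} {L K G : Set ℂ} {v : ℂ → ℝ} {φ F : ℂ → ℂ} {Fb : ℝ → ℂ}

theorem core (hS : S_SHR) (hP : S_PN) (hA : S_POSAT) (hE : Ext r A B z₀ z₁ m L v)
    (hF : Fr r A B z₁ L v φ F h s0 s1) (hB : Bd F Fb) (hK : Cont r K) (h1 : z₁ ∈ K)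
    (h2 : ∃ p ∈ K, ‖p‖ = 1) (h3 : ∀ z ∈ K, z ∈ ann r → v z ≤ 0) (h4 : Disjoint K (Ex r L))
    (h0 : z₀ ∉ K) {x : ℝ} (hx : x ∈ Ioo s0 s1)
    (hz : Fb x ∉ Fb '' (Zer v F s0 s1 ∩ Icc s0 s1)) (hn : ‖Fb x‖ ≠ 1) : Fb x ∈ K := by
  obtain ⟨h5, h6⟩ := hS r A B z₀ z₁ m L K v hE hK h1 h2 h3 h4
    (hK.mem_main (main_sub r L hE.mem0).1 hE.im_nonneg h0)
  have hC := hF.cfg
  have hsub : {z | 0 < v z} ⊆ main r K := by
    refine sub_main (hP r A B L v hC.cont hC.sol hC.A0 hC.B0).1 (fun z hz => ?_) ?_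
    · have h7 := (main_sub r L (hC.sol.mem_main (ne_of_gt hz))).1
      exact ⟨h7, fun h8 => not_le.2 hz (h3 z h8 h7)⟩
    · have h7 : (r : ℂ) * I ∈ Ex r K :=
        hK.upper_Ex (by simp [abs_of_pos hK.r0]) (by simpa using hK.r0)
      have h8 := mem_closure_iff_nhdsWithin_neBot.1 h7.2.2
      exact ((((h6 _ h7).mono_left (nhdsWithin_mono _ fun z hz => (main_sub r K hz).1)).eventually
        (lt_mem_nhds hC.B0)).and self_mem_nhdsWithin).exists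
  have hx' : x ∈ Icc s0 s1 := Ioo_subset_Icc_self hx
  have ho : Ord (fun η => v (F η)) x 0 :=
    by_contra fun h7 => hz ⟨x, ⟨⟨Ioo_sub_Zo hx, h7⟩, hx'⟩, rfl⟩
  have hcl : Fb x ∈ closure (main r K) :=
    mem_closure_of_frequently_of_tendsto (ho.freq_pos.mono fun η hη => hsub hη) (hB.lim x)
  by_contra hn'
  have hc := (hB.mem hF.unif x).2.2.1
  rcases hc.1.eq_or_lt with h7 | h7
  · have h8 := ((h6 _ ⟨h7.symm, hn', hcl⟩).mono_left
      (nhdsWithin_mono _ fun z hz => (main_sub r L hz).1)).comp (hB.tendsto hF.unif x)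
    exact hC.B0.ne' (tendsto_nhds_unique h8 (hF.pic.uz A B v hC.ok hC.sol x (Ioo_sub_Zo hx)))
  · have h8 : Fb x ∈ ann r := ⟨h7, hc.2.lt_of_ne hn⟩
    exact (hA r A B z₁ L v φ F h s0 s1 Fb x hF hB hx' h8 fun y h9 h10 e => hz ⟨y, ⟨h9, h10⟩, e⟩).2
      (h5 _ ((hK.ev_main hcl hn').self_of_nhdsWithin h8))

theorem dens (hF : Fr r A B z₁ L v φ F h s0 s1) (hB : Bd F Fb) (hM : Mult r L Fb s0 s1 G)
    (hK : IsClosed K) (H : ∀ x ∈ Ioo s0 s1, Fb x ∉ Fb '' (Zer v F s0 s1 ∩ Icc s0 s1) →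
      ‖Fb x‖ ≠ 1 → Fb x ∈ K) {x : ℝ} (hx : x ∈ Icc s0 s1) (hn : ‖Fb x‖ ≠ 1) : Fb x ∈ K := by
  by_contra h1
  have h2 : ∀ᶠ t in 𝓝 x, Fb t ∉ K ∧ ‖Fb t‖ ≠ 1 :=
    (hB.cont.continuousAt.eventually (hK.isOpen_compl.mem_nhds h1)).and
      (hB.cont.norm.continuousAt.eventually_ne hn)
  obtain ⟨a, b, h3, h4⟩ := mem_nhds_iff_exists_Ioo_subset.1 h2
  obtain ⟨_, ⟨t, ht, rfl⟩, h5⟩ := (hM.inf (max a s0) (min b s1) (le_max_right _ _)
    (max_lt (lt_min (h3.1.trans h3.2) (h3.1.trans_le hx.2)) (lt_min (hx.1.trans_lt h3.2) hF.pic.lt))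
    (min_le_right _ _)).exists_notMem_finite (hF.pv.fin.image Fb)
  have h6 := h4 ⟨(le_max_left _ _).trans_lt ht.1, ht.2.trans_le (min_le_left _ _)⟩
  exact h6.1 (H t ⟨(le_max_right _ _).trans_lt ht.1, ht.2.trans_le (min_le_right _ _)⟩ h5 h6.2)

end ShP

open ShP

theorem sh (h : S_SHR) (hP : S_PN) (hT : S_TPATH) (hA : S_POSAT) : S_SH := by
  intro r A B z₀ z₁ m L v φ F h' s0 s1 Fb G hE hF hB hM
  have hC := hF.cfg
  refine ⟨fun _ L' h1 h2 h3 h4 ⟨p, hp, hp1⟩ x hx hn => ?_,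
    fun y hy L' h1 h2 h3 h4 ⟨p, hp, hp1⟩ x hx hn => ?_⟩
  · have h5 : ‖p‖ = 1 := by simpa using hp1
    have hK : Cont r L' := ⟨hC.cont.r0, hC.cont.r1, h1, h2,
      ⟨p, hp, z₁, h4, fun e => hC.m1.2.ne (e ▸ h5)⟩, fun z hz => (h3 z hz).1,
      fun z hz => (h3 z hz).2.2.2⟩
    exact dens hF hB hM h1.isClosed (fun t h6 h7 h8 => core h hP hA hE hF hB hK h4 ⟨p, hp, h5⟩
      (fun z hz _ => (hC.sol.off z (h3 z hz).2.1).le)
      (disjoint_left.2 fun z hz => (h3 z hz).2.2.1) (fun hz => (h3 _ hz).2.1 hE.mem0) h6 h7 h8) hx hn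
  · obtain rfl : p = Fb y := hp1
    obtain ⟨T, t1, t2, t3, t4, t5, -⟩ :=
      hT r A B z₁ L v φ F h' s0 s1 y z₀ hF hy hE.mem0 hE.im_nonneg
    have t7 : Tendsto T (𝓝[>] 0) (𝓝 (Fb y)) := by
      have h5 := (continuous_fold.tendsto _).comp ((hB.lim y).comp (tendsto_vert y))
      rw [fold_of_nonpos (h3 _ hp).2.2.2] at h5
      exact h5.congr' (t5.mono fun t ht => ht.symm)
    have t8 : ContinuousOn (Function.update T 0 (Fb y)) (Icc 0 1) := by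
      rw [continuousOn_update_iff, Icc_sdiff_left]
      exact ⟨t1, fun _ => t7.mono_left (nhdsWithin_mono _ Ioc_subset_Ioi_self)⟩
    have t9 : ∀ z ∈ L' ∪ Function.update T 0 (Fb y) '' Icc 0 1,
        z ∈ L' ∨ z = T 1 ∨ ∃ t ∈ Ioo (0 : ℝ) 1, z = T t := by
      rintro _ (hz | ⟨t, ht, rfl⟩)
      · exact Or.inl hz
      · rcases ht.1.eq_or_lt with rfl | h5
        · exact Or.inl (by simpa using hp)
        · rw [Function.update_of_ne h5.ne']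
          rcases ht.2.eq_or_lt with rfl | h6
          exacts [Or.inr (Or.inl rfl), Or.inr (Or.inr ⟨t, ⟨h5, h6⟩, rfl⟩)]
    have t10 : T 1 ∈ L' ∪ Function.update T 0 (Fb y) '' Icc 0 1 :=
      Or.inr ⟨1, ⟨zero_le_one, le_rfl⟩, Function.update_of_ne one_ne_zero _ _⟩
    have t11 : ∀ t ∈ Ioo (0 : ℝ) 1, T t ∈ main r L := fun t ht => hC.sol.mem_main (t4 t ht).ne
    have hK : Cont r (L' ∪ Function.update T 0 (Fb y) '' Icc 0 1) := by
      refine ⟨hC.cont.r0, hC.cont.r1, h1.union (isCompact_Icc.image_of_continuousOn t8),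
        h2.union (Fb y) hp ⟨0, ⟨le_rfl, zero_le_one⟩, Function.update_self _ _ _⟩
          (isPreconnected_Icc.image _ t8),
        ⟨_, t10, z₁, Or.inl h4, fun e => hC.m1.2.ne (e ▸ t2)⟩, fun z hz => ?_, fun z hz => ?_⟩
      · rcases t9 z hz with h5 | rfl | ⟨t, ht, rfl⟩
        exacts [(h3 z h5).1, ⟨hC.cont.r1.le.trans t2.ge, t2.le⟩,
          ann_sub_cann r (main_sub r L (t11 t ht)).1]
      · rcases t9 z hz with h5 | rfl | ⟨t, ht, rfl⟩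
        exacts [(h3 z h5).2.2.2, (t3 1 ⟨zero_lt_one, le_rfl⟩).1, (t3 t (Ioo_subset_Ioc_self ht)).1]
    refine dens hF hB hM h1.isClosed (fun t h6 h7 h8 => ?_) hx hn
    have h9 := core h hP hA hE hF hB hK (Or.inl h4) ⟨_, t10, t2⟩ (fun z hz ha => ?_)
      (disjoint_left.2 fun z hz he => ?_) (fun hz => ?_) h6 h7 h8
    · rcases t9 _ h9 with h5 | e | ⟨s, hs, e⟩
      exacts [h5, absurd (e ▸ t2) h8, absurd (e ▸ t11 s hs) (hB.mem hF.unif t).2.2.2]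
    · rcases t9 z hz with h5 | rfl | ⟨s, hs, rfl⟩
      exacts [(hC.sol.off z (h3 z h5).2.1).le, absurd t2 ha.2.ne, (t4 s hs).le]
    · rcases t9 z hz with h5 | rfl | ⟨s, hs, rfl⟩
      exacts [(h3 z h5).2.2.1 he, hC.cont.r1.ne (he.1 ▸ t2),
        (main_sub r L (t11 s hs)).1.1.ne' he.1]
    · rcases t9 _ hz with h5 | e | ⟨s, hs, e⟩
      exacts [(h3 _ h5).2.1 hE.mem0, (t3 1 ⟨zero_lt_one, le_rfl⟩).2 e.symm,
        (t3 s (Ioo_subset_Ioc_self hs)).2 e.symm]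

end Pool.Agent.P.MP_3bd355_an
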