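import Pool.Agent.P.MP_3bd355_an.Stmts

/-! Shrinking the continuum of an extremal configuration. -/

open Set Filter Metric Complex InnerProductSpace
open scoped Topology ComplexConjugate Real

namespace Pool.Agent.P.MP_3bd355_an

namespace ShrP

open Classical in
/-- The boundary data. -/
noncomputable def dat (r A B : ℝ) (K : Set ℂ) (v : ℂ → ℝ) (q : ℂ) : ℝ :=
  if q ∈ ann r then v q else if ‖q‖ = 1 then A else if q ∈ Ex r K then B else 0

variable {r A B : ℝ} {K : Set ℂ} {v : ℂ → ℝ}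

theorem dat_ann {q : ℂ} (h : q ∈ ann r) : dat r A B K v q = v q := if_pos h

theorem dat_one {q : ℂ} (h : ‖q‖ = 1) : dat r A B K v q = A := by
  rw [dat, if_neg (fun h' => h'.2.ne h), if_pos h]

theorem dat_Ex (h1 : r < 1) {q : ℂ} (h : q ∈ Ex r K) : dat r A B K v q = B := by
  rw [dat, if_neg (fun h' => h'.1.ne' h.1), if_neg (by rw [h.1]; exact h1.ne), if_pos h]

theorem dat_zero {q : ℂ} (h0 : q ∉ ann r) (h1 : ‖q‖ ≠ 1) (h : q ∉ Ex r K) :
    dat r A B K v q = 0 := by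
  rw [dat, if_neg h0, if_neg h1, if_neg h]

theorem cw {T : Set ℂ} {p : ℂ} {c : ℝ} (hv : Tendsto v (𝓝[ann r] p) (𝓝 c))
    (hb : ∀ᶠ q in 𝓝 p, q ∈ T → q ∉ ann r → dat r A B K v q = c) :
    Tendsto (dat r A B K v) (𝓝[T] p) (𝓝 c) := by
  intro O hO
  have h1 : ∀ᶠ q in 𝓝 p, q ∈ ann r → v q ∈ O := eventually_nhdsWithin_iff.1 (hv hO)
  refine mem_map.2 (eventually_nhdsWithin_iff.2 ?_)
  filter_upwards [h1, hb] with q a1 a2 hq
  by_cases ha : q ∈ ann r
  · rw [dat_ann ha]
    exact a1 ha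
  · rw [a2 hq ha]
    exact mem_of_mem_nhds hO

theorem ls_glue {W : Set ℂ} {u g : ℂ → ℝ} {p : ℂ} {c : ℝ} (hW : IsOpen W) (hp : p ∉ W)
    (h1 : ∀ z ∈ W, g z = u z) (h2 : ∀ z, z ∉ W → g z = v z) (hv : LS v (ann r) p c)
    (hu : p ∈ frontier W → LS u W p c) : LS g (ann r) p c := by
  intro ε hε
  have h3 : ∀ᶠ z in 𝓝[W] p, u z < c + ε := by
    by_cases hc : p ∈ closure W
    · exact hu (by rw [hW.frontier_eq]; exact ⟨hc, hp⟩) ε hε
    · rw [notMem_closure_iff_nhdsWithin_eq_bot.1 hc]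
      exact eventually_bot
  filter_upwards [hv ε hε, (eventually_nhdsWithin_iff.1 h3).filter_mono nhdsWithin_le_nhds]
    with z a1 a2
  by_cases hz : z ∈ W
  · rw [h1 z hz]
    exact a2 hz
  · rwa [h2 z hz]

end ShrP

open ShrP

theorem shr (h : S_DIR) : S_SHR := by
  classical
  intro r A B z₀ z₁ m L K v hE hK hz₁ hout hle hdis h0
  have hc := hE.cfg
  have hL := hc.cont
  have hA := hc.A0
  have hB := hc.B0
  have hbd : ∀ z, A ≤ v z ∧ v z ≤ B := fun z =>
    Sol.bounds hL hc.sol hA le_rfl (hA.trans hB.le) hB.le (hA.trans hB.le) le_rfl z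
  have hW := hK.isOpen_main
  have hWa : main r K ⊆ ann r := fun z hz => (main_sub r K hz).1
  obtain ⟨u, hu, hub, -, -, hlim⟩ := h (main r K) (dat r A B K v) A B hW (bdd_main r K) hK.reg
    (fun p _ => by
      unfold dat
      split_ifs
      exacts [hbd p, ⟨le_rfl, hA.trans hB.le⟩, ⟨hA.trans hB.le, le_rfl⟩, ⟨hA, hB.le⟩])
  have t1 : ∀ p ∈ frontier (main r K), p ∈ ann r → Tendsto u (𝓝[main r K] p) (𝓝 (v p)) := by
    intro p hp ha
    rw [← dat_ann (A := A) (B := B) (K := K) (v := v) ha]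
    refine hlim p hp ?_
    rw [ContinuousWithinAt, dat_ann ha]
    refine cw (Sol.contOn hL hc.sol p ha) ?_
    filter_upwards [(isOpen_ann r).mem_nhds ha] with q a1 _ a2 using absurd a1 a2
  have t2 : ∀ p ∈ frontier (main r K), ‖p‖ = 1 → Tendsto u (𝓝[main r K] p) (𝓝 A) := by
    intro p hp h1
    rw [← dat_one (r := r) (A := A) (B := B) (K := K) (v := v) h1]
    refine hlim p hp ?_
    rw [ContinuousWithinAt, dat_one h1]
    refine cw (Sol.outer hL hc.ok hc.sol h1) ?_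
    have : ∀ᶠ q in 𝓝 p, r < ‖q‖ :=
      continuous_norm.continuousAt.eventually (lt_mem_nhds (hL.r1.trans_eq h1.symm))
    filter_upwards [this] with q a1 a2 a3
    refine dat_one (le_antisymm (hK.frontier_sub a2).1.2 (not_lt.1 fun h2 => a3 ⟨a1, h2⟩))
  have lt1 : ∀ p : ℂ, ‖p‖ = r → ∀ᶠ q in 𝓝 p, ‖q‖ < 1 := fun p hp =>
    continuous_norm.continuousAt.eventually (gt_mem_nhds (hp.trans_lt hL.r1))
  have t3 : ∀ p ∈ Ex r K, Tendsto u (𝓝[main r K] p) (𝓝 B) := by
    intro p hp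
    have hf : p ∈ frontier (main r K) := by
      rw [hW.frontier_eq]
      exact ⟨hp.2.2, fun h1 => (hWa h1).1.ne' hp.1⟩
    rw [← dat_Ex (A := A) (B := B) (v := v) hL.r1 hp]
    refine hlim p hf ?_
    rw [ContinuousWithinAt, dat_Ex hL.r1 hp]
    refine tendsto_const_nhds.congr' (eventually_nhdsWithin_iff.2 ?_)
    filter_upwards [lt1 p hp.1, hK.cpt.isClosed.isOpen_compl.mem_nhds hp.2.1] with q a1 a2 a3
    rcases (hK.frontier_sub a3).2.2 with h1 | h1 | h1
    · exact absurd h1 a2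
    · exact (dat_Ex hL.r1 h1).symm
    · exact absurd h1 a1.ne
  set S : Set ℂ := (closure (Ex r K) \ Ex r K) ∪ (closure (Ex r L) \ Ex r L) with hS
  have hSf : S.Finite := hK.exc_finite.union hL.exc_finite
  have t4 : ∀ p ∈ K, ‖p‖ = r → p ∉ S → Tendsto v (𝓝[ann r] p) (𝓝 0) := fun p hp hr hs =>
    Sol.hug hL hc.sol hr fun h1 => hs (Or.inr ⟨h1, fun h2 => disjoint_left.1 hdis hp h2⟩)
  have t5 : ∀ p ∈ K, ‖p‖ = r → p ∉ S → p ∈ frontier (main r K) →
      Tendsto u (𝓝[main r K] p) (𝓝 0) := by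
    intro p hp hr hs hf
    have h1 : p ∉ closure (Ex r K) := fun h1 => hs (Or.inl ⟨h1, fun h2 => h2.2.1 hp⟩)
    have h2 : dat r A B K v p = 0 := dat_zero (fun h3 => h3.1.ne' hr)
      (by rw [hr]; exact hL.r1.ne) fun h3 => h3.2.1 hp
    rw [← h2]
    refine hlim p hf ?_
    rw [ContinuousWithinAt, h2]
    refine cw (t4 p hp hr hs) ?_
    filter_upwards [lt1 p hr, isClosed_closure.isOpen_compl.mem_nhds h1] with q a1 a2 _ a4
    exact dat_zero a4 a1.ne fun h3 => a2 (subset_closure h3)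
  have hsub : Sub (fun z => v z - u z) (main r K) := (hc.sub.mono hWa).sub_harm hu
  have hge : ∀ z ∈ main r K, v z - u z ≤ 0 := by
    refine hsub.mpx hW (bdd_main r K) ⟨B - A, fun z hz => ?_⟩ hSf fun p hp hs => ?_
    · linarith [(hbd z).2, (hub z hz).1]
    have hf := hK.frontier_sub hp
    by_cases h1 : ‖p‖ = 1
    · exact (((LS.of_tendsto (Sol.outer hL hc.ok hc.sol h1) le_rfl).mono hWa).sub_tendsto
        (t2 p hp h1)).le (sub_self _).le
    rcases hf.1.1.eq_or_lt with h2 | h2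
    · rcases hf.2.2 with h3 | h3 | h3
      · exact (((LS.of_tendsto (t4 p h3 h2.symm hs) le_rfl).mono hWa).sub_tendsto
          (t5 p h3 h2.symm hs hp)).le (sub_self _).le
      · exact ((LS.of_eventually (Eventually.of_forall fun z => (hbd z).2)).sub_tendsto
          (t3 p h3)).le (sub_self _).le
      · exact absurd h3 h1
    · have ha : p ∈ ann r := ⟨h2, hf.1.2.lt_of_ne h1⟩
      exact ((LS.of_usc hc.sub.1 ha hWa).sub_tendsto (t1 p hp ha)).le (sub_self _).le
  set g : ℂ → ℝ := fun z => if z ∈ main r K then u z else v z with hg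
  have g1 : ∀ z ∈ main r K, g z = u z := fun z hz => if_pos hz
  have g2 : ∀ z, z ∉ main r K → g z = v z := fun z hz => if_neg hz
  have hGC : GC r A B z₁ K g := by
    refine ⟨hK.cpt, hK.conn, hK.sub, hz₁, hout, ?_, fun z hz ha => ?_, fun p hp => ?_,
      fun p _ => LS.of_eventually (Eventually.of_forall fun z => ?_), S, hSf,
      fun p hp hr hs => ?_⟩
    · refine Sub.glue (isOpen_ann r) hW hWa hc.sub (Sub.of_harm hu)
        (fun p hp ha => LS.of_tendsto (t1 p hp ha) le_rfl) (fun z hz => ?_) fun z _ hz => g2 z hz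
      rw [g1 z hz, max_eq_right (sub_nonpos.1 (hge z hz))]
    · rw [g2 z fun h1 => (main_sub r K h1).2 hz]
      exact hle z hz ha
    · exact ls_glue hW (fun h1 => (hWa h1).2.ne hp) g1 g2
        (LS.of_tendsto (Sol.outer hL hc.ok hc.sol hp) le_rfl)
        fun hf => LS.of_tendsto (t2 p hf hp) le_rfl
    · by_cases hz : z ∈ main r K
      · rw [g1 z hz]
        exact (hub z hz).2
      · rw [g2 z hz]
        exact (hbd z).2
    · exact ls_glue hW (fun h1 => (hWa h1).1.ne' hr) g1 g2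
        (LS.of_tendsto (t4 p hp hr hs) le_rfl) fun hf => LS.of_tendsto (t5 p hp hr hs hf) le_rfl
  have hm := (hE.bound K g hGC).trans hE.ge
  rw [g1 z₀ h0] at hm
  have hz : v z₀ - u z₀ = 0 := le_antisymm (hge z₀ h0) (sub_nonneg.2 hm)
  have heq : ∀ z ∈ main r K, u z = v z := fun z hz' => by
    have := hsub.strong hW (preconn_main r K) h0 (fun y hy => by rw [hz]; exact hge y hy) z hz'
    linarith
  refine ⟨fun z hz' => (harmonicAt_congr_nhds (eventually_of_mem (hW.mem_nhds hz') heq)).1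
    (hu z hz'), fun p hp => ?_⟩
  rw [← hK.nhds_eq hp.2.2 hp.2.1]
  exact (t3 p hp).congr' (eventually_nhdsWithin_of_forall heq)

end Pool.Agent.P.MP_3bd355_an
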