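import Pool.Agent.P.MP_3bd355_an.Stmts

/-! Small continua, and the first exit time. -/

open Set Filter Metric Complex InnerProductSpace
open scoped Topology ComplexConjugate Real

namespace Pool.Agent.P.MP_3bd355_an

namespace SmallP

theorem hf_le {r A B : ℝ} (h0 : 0 < r) (h1 : r < 1) (hAB : A ≤ B) {z : ℂ} (hz : r ≤ ‖z‖) :
    hf r A B z ≤ B := by
  have h2 : Real.log r < 0 := Real.log_neg h0 h1
  have h3 : Real.log r ≤ Real.log ‖z‖ := Real.log_le_log h0 hz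
  have h4 : (B - A) * Real.log ‖z‖ / Real.log r ≤ B - A := by
    rw [div_le_iff_of_neg h2]
    exact mul_le_mul_of_nonneg_left h3 (sub_nonneg.2 hAB)
  unfold hf
  linarith

theorem ne_zero {r : ℝ} (h0 : 0 < r) {z : ℂ} (hz : r ≤ ‖z‖) : z ≠ 0 :=
  norm_pos_iff.1 (h0.trans_le hz)

theorem log_le {z z₁ : ℂ} (hz : ‖z‖ ≤ 1) (h1 : ‖z₁‖ ≤ 1) (hne : z ≠ z₁) :
    Real.log ‖z - z₁‖ - Real.log 2 ≤ 0 :=
  sub_nonpos.2 (Real.log_le_log (norm_pos_iff.2 (sub_ne_zero.2 hne))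
    ((norm_sub_le _ _).trans (by linarith)))

end SmallP

open SmallP

theorem small : S_SMALL := by
  intro r A B z₁ h0 hz hA hp
  have h1 : r < 1 := hz.1.trans hz.2
  have hB : 0 < B := B_pos h0 hz hA hp
  have hc : ContinuousAt (hf r A B) z₁ := (harm_diff (hf_harm r A B (ne_zero h0 hz.1.le))).continuousAt
  obtain ⟨ρ, hρ, h2⟩ := nhds_basis_closedBall.mem_iff.1
    (inter_mem ((isOpen_ann r).mem_nhds hz) (inter_mem
      (hc.eventually (lt_mem_nhds (half_lt_self hp))) (closedBall_mem_nhds z₁ one_pos)))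
  have hρ1 : ρ ≤ 1 := by
    have := (h2 (show z₁ + ρ ∈ closedBall z₁ ρ by simp [abs_of_pos hρ])).2.2
    simpa [abs_of_pos hρ] using this
  have hl : 0 < Real.log 2 - Real.log ρ := sub_pos.2 (Real.log_lt_log hρ (by linarith))
  obtain ⟨K, hK, hK2⟩ : ∃ K : ℝ, 0 < K ∧ K * (Real.log 2 - Real.log ρ) = hf r A B z₁ / 2 :=
    ⟨_, div_pos (half_pos hp) hl, div_mul_cancel₀ _ hl.ne'⟩
  refine ⟨min (ρ / 2) (2 * Real.exp (-B / K)), lt_min (half_pos hρ) (by positivity),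
    fun z h => (h2 (closedBall_subset_closedBall ((min_le_left _ _).trans (by linarith)) h)).1, ?_⟩
  intro L v hL hm hs hv
  let w : ℂ → ℝ := fun z => hf r A B z + K * (Real.log ‖z - z₁‖ - Real.log 2)
  have hw : ∀ z, r ≤ ‖z‖ → z ≠ z₁ → HarmonicAt w z := fun z h3 h4 =>
    (hf_harm r A B (ne_zero h0 h3)).add
      (harm_const_mul ((harm_log h4).sub (harmonicAt_const _)) K)
  have hls : ∀ p, r ≤ ‖p‖ → p ≠ z₁ → ∀ c, w p ≤ c → LS w (main r L) p c := fun p h3 h4 c h5 =>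
    LS.of_tendsto ((harm_diff (hw p h3 h4)).continuousAt.tendsto.mono_left nhdsWithin_le_nhds) h5
  have hle : ∀ p, ‖p‖ ≤ 1 → p ≠ z₁ → w p ≤ hf r A B p := fun p h3 h4 =>
    add_le_of_nonpos_right (mul_nonpos_of_nonneg_of_nonpos hK.le (log_le h3 hz.2.le h4))
  have hne : ∀ z ∈ main r L, z ≠ z₁ := fun z h e => (main_sub r L h).2 (e ▸ hm)
  have hge : ∀ z ∈ main r L, w z ≤ v z := by
    refine hv.ge hL (Sub.of_harm fun z h => hw z (main_sub r L h).1.1.le (hne z h))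
      ⟨B, fun z h => (hle z (main_sub r L h).1.2.le (hne z h)).trans
        (hf_le h0 h1 (by linarith) (main_sub r L h).1.1.le)⟩ (finite_singleton z₁)
      (fun p hp hn => hls p (hL.sub hp).1 hn 0 ?_)
      (fun p hp hn => hls p (by linarith) (fun e => hn (e ▸ hm)) A ?_)
      fun p hp => hls p hp.1.ge (fun e => hp.2.1 (e ▸ hm)) B ?_
    · have h3 : Real.log ‖p - z₁‖ ≤ Real.log (2 * Real.exp (-B / K)) :=
        Real.log_le_log (norm_pos_iff.2 (sub_ne_zero.2 hn))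
          ((mem_closedBall_iff_norm.1 (hs hp)).trans (min_le_right _ _))
      rw [Real.log_mul two_ne_zero (Real.exp_pos _).ne', Real.log_exp] at h3
      have h4 : K * (Real.log ‖p - z₁‖ - Real.log 2) ≤ K * (-B / K) :=
        mul_le_mul_of_nonneg_left (by linarith) hK.le
      rw [mul_div_cancel₀ _ hK.ne'] at h4
      have h5 := hf_le h0 h1 (show A ≤ B by linarith) (hL.sub hp).1
      show hf r A B p + _ ≤ 0
      linarith
    · exact (hle p hp.le fun e => hn (e ▸ hm)).trans (hf_outer r A B hp).le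
    · exact (hle p (by linarith [hp.1]) fun e => hp.2.1 (e ▸ hm)).trans (hf_inner h0 h1 A B hp.1).le
  have hV : IsOpen (main r L ∩ ball z₁ ρ) := hL.isOpen_main.inter isOpen_ball
  have hmp : ∀ z ∈ main r L ∩ ball z₁ ρ, -v z ≤ 0 := by
    refine Sub.mp0 (Sub.of_harm fun z h => (hv.harm z h.1).neg) hV
      (isBounded_ball.subset inter_subset_right) fun q hq => ?_
    have h3 : q ∈ closedBall z₁ ρ :=
      closure_ball_subset_closedBall (closure_mono inter_subset_right hq.1)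
    refine LS.of_tendsto (c := -v q) (((hv.contOn hL).continuousAt
      ((isOpen_ann r).mem_nhds (h2 h3).1)).tendsto.neg.mono_left nhdsWithin_le_nhds) ?_
    by_cases h4 : q ∈ main r L
    · have h5 : ‖q - z₁‖ = ρ := le_antisymm (mem_closedBall_iff_norm.1 h3) (not_lt.1 fun h =>
        hq.2 (hV.interior_eq.symm ▸ ⟨h4, mem_ball_iff_norm.2 h⟩))
      have h6 := hge q h4
      have h7 : hf r A B z₁ / 2 < hf r A B q := (h2 h3).2.1
      simp only [w, h5] at h6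
      nlinarith
    · simp [hv.off q h4]
  intro p hp
  have h3 : p ∈ ball z₁ ρ :=
    closedBall_subset_ball ((min_le_left _ _).trans_lt (half_lt_self hρ)) (hs hp)
  filter_upwards [self_mem_nhdsWithin, nhdsWithin_le_nhds (isOpen_ball.mem_nhds h3)] with z h4 h5
  exact neg_nonpos.1 (hmp z ⟨h4, h5⟩)

theorem step (hS : S_SMALL) (hE : S_SOLEX) : S_STEP := by
  intro r A B z₀ z₁ hH hA
  obtain ⟨d, hd, h1, h2⟩ := hS r A B z₁ hH.r0 hH.m1 hH.A0 hH.h1
  refine ⟨d, hd, fun u γ hγ => ?_⟩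
  set f : ℝ → ℂ := fun s => fold (γ s) with hf_def
  have fc : ContinuousOn f (Ico 0 1) := continuous_fold.comp_continuousOn hγ.cont
  have f0 : f 0 = z₁ := by simp only [f, hγ.start]; exact fold_of_nonpos hH.im1
  have fn : ∀ s, ‖f s‖ = ‖γ s‖ := fun s => norm_fold _
  have fl : Tendsto (fun t => ‖f t‖) (𝓝[<] 1) (𝓝 1) := by simpa only [fn] using hγ.lim
  obtain ⟨q, hq, hq2⟩ := (isCompact_closedBall z₁ d).exists_isMaxOn
    (nonempty_closedBall.2 hd.le) continuous_norm.continuousOn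
  obtain ⟨b, hb, hb2⟩ := ((fl.eventually (lt_mem_nhds (h1 hq).2)).and
    (Ioo_mem_nhdsLT zero_lt_one)).exists
  have fb : ContinuousOn (fun s => dist (f s) z₁) (Icc 0 b) :=
    (continuous_id.dist continuous_const).comp_continuousOn (fc.mono (Icc_subset_Ico_right hb2.2))
  have hD : IsCompact (Icc 0 b ∩ (fun s => dist (f s) z₁) ⁻¹' Ici d) :=
    isCompact_Icc.of_isClosed_subset (fb.preimage_isClosed_of_isClosed isClosed_Icc isClosed_Ici)
      inter_subset_left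
  obtain ⟨a, ha, ha2⟩ := hD.exists_isLeast ⟨b, ⟨hb2.1.le, le_rfl⟩,
    not_lt.1 fun h => not_le.2 hb (hq2 (mem_closedBall.2 h.le))⟩
  have ad : d ≤ dist (f a) z₁ := ha.2
  have a0 : 0 < a := ha.1.1.lt_of_ne fun e => by
    rw [← e, f0, dist_self] at ad
    exact not_le.2 hd ad
  have a1 : a < 1 := ha.1.2.trans_lt hb2.2
  have hin : ∀ s ∈ Icc 0 a, dist (f s) z₁ ≤ d := by
    have h3 : Ico 0 a ⊆ Icc 0 b ∩ (fun s => dist (f s) z₁) ⁻¹' Iic d := fun s hs =>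
      ⟨⟨hs.1, hs.2.le.trans ha.1.2⟩, show dist (f s) z₁ ≤ d from le_of_not_ge fun h =>
        not_le.2 hs.2 (ha2 ⟨⟨hs.1, hs.2.le.trans ha.1.2⟩, h⟩)⟩
    have h4 := closure_minimal h3 (fb.preimage_isClosed_of_isClosed isClosed_Icc isClosed_Iic)
    rw [closure_Ico a0.ne] at h4
    exact fun s hs => (h4 hs).2
  have lt1 : ∀ t < 1, ∀ p ∈ f '' Icc 0 t, ‖p‖ < 1 := by
    rintro t ht _ ⟨s, hs, rfl⟩
    exact fn s ▸ (hγ.mem s ⟨hs.1, hs.2.trans_lt ht⟩).2
  have hC : ∀ t ∈ Ico a 1, Cont r (f '' Icc 0 t) := fun t ht => by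
    have h3 := fc.mono (Icc_subset_Ico_right ht.2)
    refine ⟨hH.r0, hH.r1, isCompact_Icc.image_of_continuousOn h3, isPreconnected_Icc.image f h3,
      ⟨f a, ⟨a, ⟨a0.le, ht.1⟩, rfl⟩, z₁, ⟨0, ⟨le_rfl, a0.le.trans ht.1⟩, f0⟩, fun e => ?_⟩, ?_, ?_⟩
    · rw [e, dist_self] at ad
      exact not_le.2 hd ad
    · rintro _ ⟨s, hs, rfl⟩
      have h4 := hγ.mem s ⟨hs.1, hs.2.trans_lt ht.2⟩
      exact ⟨fn s ▸ h4.1, fn s ▸ h4.2.le⟩
    · rintro _ ⟨s, -, rfl⟩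
      exact fold_im _
  let T : Set ℝ := {t | t ∈ Ico a 1 ∧ ∃ v, Sol r A B (f '' Icc 0 t) v ∧ ¬ Pos r (f '' Icc 0 t) v}
  have hT : T.Nonempty := by
    have h3 : Tendsto (fun t => hf r A B (f t)) (𝓝[<] 1) (𝓝 A) := by
      have h4 := (((fl.log one_ne_zero).const_mul (B - A)).div_const (Real.log r)).const_add A
      simpa [hf] using h4
    obtain ⟨t, h4, h5⟩ := ((h3.eventually (gt_mem_nhds hA)).and (Ioo_mem_nhdsLT a1)).exists
    have h6 : t ∈ Ico a 1 := ⟨h5.1.le, h5.2⟩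
    obtain ⟨v, hv⟩ := hE r A B _ (hC t h6) (Or.inr (lt1 t h5.2))
    exact ⟨t, h6, v, hv, fun hp => not_le.2 h4 (hp.hf_nonneg (hC t h6) (Or.inr (lt1 t h5.2))
      hH.B0.le hH.A0 hv _ ⟨t, ⟨a0.le.trans h6.1, le_rfl⟩, rfl⟩)⟩
  have hb : BddBelow T := ⟨a, fun t ht => ht.1.1⟩
  have h3 : a ≤ sInf T := le_csInf hT fun t ht => ht.1.1
  have h4 : sInf T < 1 := by
    obtain ⟨t, ht⟩ := hT
    exact (csInf_le hb ht).trans_lt ht.1.2
  refine ⟨sInf T, ⟨a0.trans_le h3, h4⟩, fun η hη => ?_⟩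
  obtain ⟨t', h5, h6⟩ := exists_lt_of_csInf_lt hT (lt_add_of_pos_right _ hη)
  have h7 : max a (sInf T - η / 2) ≤ sInf T := max_le h3 (by linarith)
  have h8 : max a (sInf T - η / 2) ∈ Ico a 1 := ⟨le_max_left _ _, h7.trans_lt h4⟩
  refine ⟨max a (sInf T - η / 2), ⟨a0.trans_le h8.1, h7⟩, t', ⟨csInf_le hb h5, h5.1.2⟩,
    lt_max_of_lt_right (by linarith), h6, ⟨a, ⟨a0.le, h8.1⟩, ad⟩, hC _ h8, hC _ h5.1,
    fun v hv => ?_, fun v hv => ?_⟩
  · rcases le_total (sInf T - η / 2) a with h | h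
    · rw [max_eq_left h] at hv ⊢
      refine h2 _ v (hC a ⟨le_rfl, a1⟩) ⟨0, ⟨le_rfl, a0.le⟩, f0⟩ ?_ hv
      rintro _ ⟨s, hs, rfl⟩
      exact hin s hs
    · by_contra hn
      have h9 := csInf_le hb (show _ ∈ T from ⟨h8, v, hv, hn⟩)
      rw [max_eq_right h] at h9
      linarith
  · obtain ⟨h9, w, hw, hn⟩ := h5
    rwa [hv.unique (hC _ h9) hw]

end Pool.Agent.P.MP_3bd355_an
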