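import Pool.Agent.P.MP_3bd355_an.Stmts

/-! All zeros of the normal derivative are double. -/

open Set Filter Metric Complex InnerProductSpace
open scoped Topology ComplexConjugate Real

namespace Pool.Agent.P.MP_3bd355_an

namespace TipP

/-- Add two radial pieces to a curve. -/
theorem join {c e₁ e₃ : ℂ} (h₁ : ‖e₁‖ = 1) (h₃ : ‖e₃‖ = 1) {P : Set ℂ} {τ R : ℝ} (hR : 0 < R)
    (hRτ : R < τ) {p : ℝ → ℂ} (hp : Continuous p) (hp0 : p 0 = c + τ * e₁)
    (hp1 : p 1 = c + τ * e₃) (hin : ∀ t ∈ Icc (0 : ℝ) 1, p t ∈ P ∧ R < ‖p t - c‖)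
    (hr₁ : ∀ s ∈ Ioc (0 : ℝ) τ, c + s * e₁ ∈ P) (hr₃ : ∀ s ∈ Ioc (0 : ℝ) τ, c + s * e₃ ∈ P) :
    ∃ γ : ℝ → ℂ, Continuous γ ∧ γ 0 = c + R * e₁ ∧ γ 1 = c + R * e₃ ∧
      (∀ t ∈ Ioo (0 : ℝ) 1, R < ‖γ t - c‖) ∧ ∀ t ∈ Icc (0 : ℝ) 1, γ t ∈ P := by
  set γ : ℝ → ℂ := fun t => p (max 0 (min 1 (3 * t - 1))) -
    (((τ - R) * max 0 (1 - 3 * t) : ℝ) : ℂ) * e₁ -
    (((τ - R) * max 0 (3 * t - 2) : ℝ) : ℂ) * e₃ with hγ
  have hA : ∀ t : ℝ, t ≤ 1 / 3 → γ t = c + ((τ - (τ - R) * (1 - 3 * t) : ℝ) : ℂ) * e₁ := by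
    intro t ht
    have e1 : max 0 (min 1 (3 * t - 1)) = 0 :=
      max_eq_left (min_le_of_right_le (by linarith))
    have e2 : max 0 (1 - 3 * t) = 1 - 3 * t := max_eq_right (by linarith)
    have e3 : max 0 (3 * t - 2) = 0 := max_eq_left (by linarith)
    simp only [hγ, e1, e2, e3, hp0]
    push_cast
    ring
  have hB : ∀ t : ℝ, 1 / 3 ≤ t → t ≤ 2 / 3 → γ t = p (3 * t - 1) := by
    intro t ht ht'
    have e1 : max 0 (min 1 (3 * t - 1)) = 3 * t - 1 := by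
      rw [min_eq_right (by linarith), max_eq_right (by linarith)]
    have e2 : max 0 (1 - 3 * t) = 0 := max_eq_left (by linarith)
    have e3 : max 0 (3 * t - 2) = 0 := max_eq_left (by linarith)
    simp only [hγ, e1, e2, e3]
    push_cast
    ring
  have hC : ∀ t : ℝ, 2 / 3 ≤ t → γ t = c + ((τ - (τ - R) * (3 * t - 2) : ℝ) : ℂ) * e₃ := by
    intro t ht
    have e1 : max 0 (min 1 (3 * t - 1)) = 1 := by
      rw [min_eq_left (by linarith), max_eq_right (by linarith)]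
    have e2 : max 0 (1 - 3 * t) = 0 := max_eq_left (by linarith)
    have e3 : max 0 (3 * t - 2) = 3 * t - 2 := max_eq_right (by linarith)
    simp only [hγ, e1, e2, e3, hp1]
    push_cast
    ring
  have hn : ∀ (s : ℝ) (e : ℂ), ‖e‖ = 1 → 0 ≤ s → ‖c + s * e - c‖ = s := by
    intro s e he hs
    rw [add_sub_cancel_left, norm_mul, he, mul_one, Complex.norm_real, Real.norm_eq_abs,
      abs_of_nonneg hs]
  have hd : 0 < τ - R := by linarith
  refine ⟨γ, by simp only [hγ]; fun_prop, ?_, ?_, ?_, ?_⟩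
  · rw [hA 0 (by norm_num)]
    congr 3
    ring
  · rw [hC 1 (by norm_num)]
    congr 3
    ring
  · intro t ht
    rcases le_total t (1 / 3) with h1 | h1
    · have := mul_pos hd ht.1
      rw [hA t h1, hn _ _ h₁ (by nlinarith)]
      nlinarith
    rcases le_total t (2 / 3) with h2 | h2
    · rw [hB t h1 h2]
      exact (hin _ ⟨by linarith, by linarith⟩).2
    · have := mul_pos hd (sub_pos.2 ht.2)
      rw [hC t h2, hn _ _ h₃ (by nlinarith)]
      nlinarith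
  · intro t ht
    rcases le_total t (1 / 3) with h1 | h1
    · have := mul_nonneg hd.le ht.1
      have := mul_nonneg hd.le (sub_nonneg.2 h1)
      rw [hA t h1]
      exact hr₁ _ ⟨by nlinarith, by nlinarith⟩
    rcases le_total t (2 / 3) with h2 | h2
    · rw [hB t h1 h2]
      exact (hin _ ⟨by linarith, by linarith⟩).1
    · have := mul_nonneg hd.le (sub_nonneg.2 ht.2)
      have := mul_nonneg hd.le (sub_nonneg.2 h2)
      rw [hC t h2]
      exact hr₃ _ ⟨by nlinarith, by nlinarith⟩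

/-- The curved ray. -/
noncomputable def ray (x : ℝ) (e : ℂ) (τ : ℝ) : ℂ := x - I * log (1 + I * τ * e)

theorem ray_slope (x : ℝ) (e : ℂ) :
    Tendsto (fun τ : ℝ => (ray x e τ - x) / τ) (𝓝[>] 0) (𝓝 e) := by
  have h1 : HasDerivAt (fun τ : ℝ => (1 : ℂ) + I * τ * e) (I * e) 0 := by
    have := ((Complex.ofRealCLM.hasDerivAt (x := (0 : ℝ))).const_mul I).mul_const e
    simpa using this.const_add 1
  have h2 : HasDerivAt (fun τ : ℝ => log (1 + I * τ * e)) (I * e) 0 := by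
    have := h1.clog_real (by simp)
    simpa using this
  have h3 : HasDerivAt (ray x e) e 0 := by
    have := (h2.const_mul I).const_sub (x : ℂ)
    have e1 : -(I * (I * e)) = e := by rw [← mul_assoc, I_mul_I]; ring
    rw [e1] at this
    exact this
  have h4 := h3.tendsto_slope_zero_right
  refine h4.congr fun τ => ?_
  simp [ray, div_eq_inv_mul]

theorem ray_tendsto (x : ℝ) {e : ℂ} (he : 0 < e.im) :
    Tendsto (ray x e) (𝓝[>] 0) (𝓝[upH] (x : ℂ)) := by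
  have h1 := ray_slope x e
  have h0 : Tendsto (fun τ : ℝ => (τ : ℂ)) (𝓝[>] 0) (𝓝 0) := by
    have : Tendsto (fun τ : ℝ => (τ : ℂ)) (𝓝 0) (𝓝 ((0 : ℝ) : ℂ)) :=
      Complex.continuous_ofReal.tendsto 0
    simpa using this.mono_left nhdsWithin_le_nhds
  have hE : ∀ᶠ τ : ℝ in 𝓝[>] 0, x + τ * ((ray x e τ - x) / τ) = ray x e τ := by
    filter_upwards [self_mem_nhdsWithin] with τ hτ
    have : (τ : ℂ) ≠ 0 := by exact_mod_cast (ne_of_gt hτ)
    field_simp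
    ring
  refine tendsto_nhdsWithin_iff.2 ⟨?_, ?_⟩
  · have := (h0.mul h1).const_add (x : ℂ)
    simp only [zero_mul, add_zero] at this
    exact this.congr' hE
  · have h2 : ∀ᶠ τ : ℝ in 𝓝[>] 0, 0 < ((ray x e τ - x) / τ).im :=
      ((Complex.continuous_im.tendsto e).comp h1).eventually (lt_mem_nhds he)
    filter_upwards [hE, h2, self_mem_nhdsWithin] with τ h3 h4 h5
    change 0 < (ray x e τ).im
    rw [← h3]
    simp only [add_im, ofReal_im, mul_im, ofReal_re, zero_mul, add_zero, zero_add]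
    exact mul_pos h5 h4

theorem ray_sign {u : ℂ → ℝ} {x : ℝ} {j : ℕ} (h : Ord u x j) {e : ℂ} (he : 0 < e.im)
    (hn : ‖e‖ = 1) {σ : ℝ} (hσ : |σ| = 1) (hs : σ * (e ^ (j + 1)).im = 1) :
    ∀ᶠ τ : ℝ in 𝓝[>] 0, 0 < σ * u (ray x e τ) := by
  obtain ⟨c, hc, hε⟩ := h.asymp
  have h1 := (ray_tendsto x he).eventually (hε (c / 2) (by positivity))
  have h2 := ray_slope x e
  have h3 : Tendsto (fun τ : ℝ => c * (σ * (((ray x e τ - x) / τ) ^ (j + 1)).im) -
      c / 2 * ‖(ray x e τ - x) / τ‖ ^ (j + 1)) (𝓝[>] 0)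
      (𝓝 (c * (σ * (e ^ (j + 1)).im) - c / 2 * ‖e‖ ^ (j + 1))) :=
    ((((Complex.continuous_im.tendsto _).comp (h2.pow (j + 1))).const_mul σ).const_mul c).sub
      ((h2.norm.pow (j + 1)).const_mul _)
  rw [hs, hn, one_pow] at h3
  have h4 := h3.eventually (lt_mem_nhds (show (0 : ℝ) < c * 1 - c / 2 * 1 by linarith))
  filter_upwards [h1, h4, self_mem_nhdsWithin] with τ a1 a2 a3
  have a3' : (0 : ℝ) < τ := a3
  have hτ : (τ : ℂ) ≠ 0 := by exact_mod_cast a3'.ne'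
  set q : ℂ := (ray x e τ - x) / τ with hq
  have e1 : ray x e τ - x = τ * q := by rw [hq]; field_simp
  have e2 : ((τ * q : ℂ) ^ (j + 1)).im = τ ^ (j + 1) * (q ^ (j + 1)).im := by
    rw [mul_pow, ← Complex.ofReal_pow, Complex.im_ofReal_mul]
  have e3 : ‖(τ * q : ℂ)‖ ^ (j + 1) = τ ^ (j + 1) * ‖q‖ ^ (j + 1) := by
    rw [norm_mul, mul_pow, Complex.norm_real, Real.norm_eq_abs, abs_of_pos a3']
  rw [e1, e2, e3] at a1
  have hp : 0 < τ ^ (j + 1) := pow_pos a3' _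
  have a4 := mul_pos hp a2
  have a5 : |σ * (u (ray x e τ) - c * (τ ^ (j + 1) * (q ^ (j + 1)).im))| ≤
      c / 2 * (τ ^ (j + 1) * ‖q‖ ^ (j + 1)) := by
    rw [abs_mul, hσ, one_mul]
    exact a1
  have a6 := (abs_le.1 a5).1
  nlinarith

variable {r : ℝ} {L : Set ℂ} {φ F : ℂ → ℂ} {h : ℝ} {v : ℂ → ℝ}

theorem ray_mem (hU : Unif r L φ F h) {x : ℝ} {j : ℕ} (hO : Ord (fun η => v (F η)) x j) {θ : ℝ}
    (h0 : 0 < θ) (h1 : θ < π) {σ : ℝ} (hσ : |σ| = 1) (hs : σ * Real.sin ((j + 1) * θ) = 1) :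
    ∀ᶠ τ : ℝ in 𝓝[>] 0, exp (I * x) + τ * exp (I * ((x + π / 2 + θ : ℝ) : ℂ)) ∈
      φ '' {z | 0 < σ * v z} := by
  have he : 0 < (exp (I * θ)).im := by
    rw [mul_comm, Complex.exp_ofReal_mul_I_im]
    exact Real.sin_pos_of_pos_of_lt_pi h0 h1
  have hn : ‖exp (I * θ)‖ = 1 := by rw [mul_comm, Complex.norm_exp_ofReal_mul_I]
  have hs' : σ * (exp (I * θ) ^ (j + 1)).im = 1 := by
    rw [← Complex.exp_nat_mul]
    have : ((j + 1 : ℕ) : ℂ) * (I * θ) = (((j + 1) * θ : ℝ) : ℂ) * I := by push_cast; ring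
    rw [this, Complex.exp_ofReal_mul_I_im]
    exact hs
  have a1 := ray_sign hO he hn hσ hs'
  have a2 := (ray_tendsto x he).eventually (hU.ev_main x)
  have a3 : ∀ᶠ τ : ℝ in 𝓝[>] 0, τ ∈ Ioo (0 : ℝ) 1 := Ioo_mem_nhdsGT one_pos
  filter_upwards [a1, a2, a3] with τ b1 b2 b3
  refine ⟨F (ray x (exp (I * θ)) τ), b1, ?_⟩
  rw [hU.comp _ b2.1]
  have hne : (1 : ℂ) + I * τ * exp (I * θ) ≠ 0 := by
    intro h0
    have e1 : I * τ * exp (I * θ) = -1 := by linear_combination h0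
    have e2 := congrArg norm e1
    rw [norm_mul, norm_mul, hn, Complex.norm_I, Complex.norm_real, Real.norm_eq_abs,
      abs_of_pos b3.1, norm_neg, norm_one] at e2
    linarith [b3.2]
  have e1 : I * ray x (exp (I * θ)) τ = I * x + log (1 + I * τ * exp (I * θ)) := by
    unfold ray
    linear_combination (-log (1 + I * τ * exp (I * θ))) * I_mul_I
  have e2 : I * ((x + π / 2 + θ : ℝ) : ℂ) = I * x + π / 2 * I + I * θ := by push_cast; ring
  rw [e1, e2, Complex.exp_add, Complex.exp_add, Complex.exp_add, Complex.exp_log hne,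
    Complex.exp_pi_div_two_mul_I]
  ring

theorem path_img (hU : Unif r L φ F h) {W : Set ℂ} (hW : IsOpen W) (hc : IsPreconnected W)
    (hs : W ⊆ main r L) {a b c : ℂ} (ha : a ∈ φ '' W) (hb : b ∈ φ '' W) (hn : ‖c‖ = 1) :
    ∃ (p : ℝ → ℂ) (d : ℝ), 0 < d ∧ Continuous p ∧ p 0 = a ∧ p 1 = b ∧
      ∀ t ∈ Icc (0 : ℝ) 1, p t ∈ φ '' W ∧ d ≤ ‖p t - c‖ := by
  obtain ⟨a', ha', rfl⟩ := ha
  obtain ⟨b', hb', rfl⟩ := hb
  obtain ⟨γ, hγ, h0, h1, hm⟩ := path_of_open hW hc ha' hb'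
  have hp : Continuous fun t => φ (γ t) :=
    hU.dφ.continuousOn.comp_continuous hγ fun t => hs (hm t)
  obtain ⟨t₀, -, ht₀⟩ := isCompact_Icc.exists_isMinOn (s := Icc (0 : ℝ) 1)
    ⟨0, left_mem_Icc.2 zero_le_one⟩ (f := fun t => ‖φ (γ t) - c‖)
    (hp.sub continuous_const).norm.continuousOn
  refine ⟨fun t => φ (γ t), ‖φ (γ t₀) - c‖, ?_, hp, by simp only [h0], by simp only [h1],
    fun t ht => ⟨⟨γ t, hm t, rfl⟩, ht₀ ht⟩⟩
  refine norm_pos_iff.2 (sub_ne_zero.2 fun e => ?_)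
  have := hU.lt _ (hs (hm t₀))
  rw [e, hn] at this
  exact lt_irrefl _ this

theorem isOpen_sign {A B : ℝ} (hS : Sol r A B L v) (σ : ℝ) :
    IsOpen {z | 0 < σ * v z} ∧ {z | 0 < σ * v z} ⊆ main r L := by
  have hs : {z | 0 < σ * v z} ⊆ main r L := by
    intro z hz
    refine hS.mem_main fun e => ?_
    simp [e] at hz
  refine ⟨isOpen_iff_mem_nhds.2 fun z hz => ?_, hs⟩
  have hc : ContinuousAt v z := (hS.harm z (hs hz)).1.continuousAt
  exact (hc.const_mul σ).eventually (lt_mem_nhds hz)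

end TipP

open TipP in
theorem tip (h : S_PN) : S_TIP := by
  intro r A B z₁ L v φ F hh s0 s1 hC hU hP x hx
  obtain ⟨j, hj, hO⟩ := hP.ord x hx.1
  have hj0 : j ≠ 0 := by
    rintro rfl
    exact hx.2 hO
  by_cases hj2 : j = 2
  · subst hj2
    exact hO
  exfalso
  have hj4 : 4 ≤ j := by
    obtain ⟨k, hk⟩ := hj
    omega
  obtain ⟨hA, hL1, -⟩ : A < 0 ∧ (∀ p ∈ L, ‖p‖ < 1) ∧
      ∃ p ∈ L, ∃ᶠ z in 𝓝[main r L] p, v z ≤ 0 := by
    rcases hC.cases with h0 | h0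
    · rw [hP.nz h0.1] at hx
      exact absurd hx (notMem_empty x)
    · exact h0
  obtain ⟨c1, c2⟩ := h r A B L v hC.cont hC.sol hA.le hC.B0
  have c3 := (c2 hA hL1).1
  have c1' : IsPreconnected {z | 0 < (1 : ℝ) * v z} := by simpa using c1
  have c3' : IsPreconnected {z | 0 < (-1 : ℝ) * v z} := by simpa using c3
  obtain ⟨o1, s1'⟩ := isOpen_sign hC.sol 1
  obtain ⟨o3, s3'⟩ := isOpen_sign hC.sol (-1)
  have hjr : (4 : ℝ) ≤ j := by exact_mod_cast hj4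
  set a : ℝ := π / (2 * (j + 1)) with ha
  have hπ := Real.pi_pos
  have ha0 : 0 < a := by positivity
  have haπ : (j + 1) * a = π / 2 := by rw [ha]; field_simp
  have ha7 : 7 * a < π := by nlinarith
  have r1 := ray_mem hU hO (θ := a) ha0 (by linarith) (σ := 1) (by simp) (by rw [haπ]; simp)
  have r2 := ray_mem hU hO (θ := 3 * a) (by linarith) (by linarith) (σ := -1) (by simp) (by
    have : ((j : ℝ) + 1) * (3 * a) = π / 2 + π := by linarith
    rw [this, Real.sin_add_pi]; simp)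
  have r3 := ray_mem hU hO (θ := 5 * a) (by linarith) (by linarith) (σ := 1) (by simp) (by
    have : ((j : ℝ) + 1) * (5 * a) = π / 2 + 2 * π := by linarith
    rw [this, Real.sin_add_two_pi]; simp)
  have r4 := ray_mem hU hO (θ := 7 * a) (by linarith) (by linarith) (σ := -1) (by simp) (by
    have : ((j : ℝ) + 1) * (7 * a) = π / 2 + π + 2 * π := by linarith
    rw [this, Real.sin_add_two_pi, Real.sin_add_pi]; simp)
  obtain ⟨τ, hτ, hall⟩ := (mem_nhdsGT_iff_exists_Ioc_subset).1 (r1.and (r2.and (r3.and r4)))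
  have hτ0 : (0 : ℝ) < τ := hτ
  have hτm : τ ∈ Ioc (0 : ℝ) τ := ⟨hτ0, le_rfl⟩
  have hne : ∀ y : ℝ, ‖exp (I * y)‖ = 1 := fun y => by
    rw [mul_comm, Complex.norm_exp_ofReal_mul_I]
  obtain ⟨p, d, hd, hp, hp0, hp1, hpm⟩ :=
    path_img hU o1 c1' s1' (hall hτm).1 (hall hτm).2.2.1 (hne x)
  obtain ⟨q, d', hd', hq, hq0, hq1, hqm⟩ :=
    path_img hU o3 c3' s3' (hall hτm).2.1 (hall hτm).2.2.2 (hne x)
  set R : ℝ := min τ (min d d') / 2 with hR
  have m0 : 0 < min τ (min d d') := lt_min hτ0 (lt_min hd hd')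
  have m1 : min τ (min d d') ≤ τ := min_le_left _ _
  have m2 : min τ (min d d') ≤ d := (min_le_right _ _).trans (min_le_left _ _)
  have m3 : min τ (min d d') ≤ d' := (min_le_right _ _).trans (min_le_right _ _)
  have hR0 : 0 < R := by linarith
  obtain ⟨γ, hγ, g0, g1, go, gm⟩ := join (hne _) (hne _) hR0 (by linarith : R < τ) hp hp0 hp1
    (fun t ht => ⟨(hpm t ht).1, by linarith [(hpm t ht).2]⟩)
    (fun s hs => (hall hs).1) (fun s hs => (hall hs).2.2.1)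
  obtain ⟨κ, hκ, k0, k1, ko, km⟩ := join (hne _) (hne _) hR0 (by linarith : R < τ) hq hq0 hq1
    (fun t ht => ⟨(hqm t ht).1, by linarith [(hqm t ht).2]⟩)
    (fun s hs => (hall hs).2.1) (fun s hs => (hall hs).2.2.2)
  have hn : ∀ y : ℝ, ‖exp (I * x) + R * exp (I * y) - exp (I * x)‖ = R := by
    intro y
    rw [add_sub_cancel_left, norm_mul, hne, mul_one, Complex.norm_real, Real.norm_eq_abs,
      abs_of_pos hR0]
  obtain ⟨t, ht, s, hs, e⟩ := cross hR0 (θ₁ := x + π / 2 + a) (θ₂ := x + π / 2 + 3 * a)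
    (θ₃ := x + π / 2 + 5 * a) (θ₄ := x + π / 2 + 7 * a) (by linarith) (by linarith) (by linarith)
    (by linarith) hγ.continuousOn g0 g1 go (K := κ '' Icc 0 1)
    (isPreconnected_Icc.image _ hκ.continuousOn)
    (by
      rintro _ ⟨s, hs, rfl⟩
      rcases hs.1.eq_or_lt with e | e
      · rw [← e, k0, hn]
      rcases hs.2.eq_or_lt with e' | e'
      · rw [e', k1, hn]
      exact (ko s ⟨e, e'⟩).le)
    ⟨0, left_mem_Icc.2 zero_le_one, k0⟩ ⟨1, right_mem_Icc.2 zero_le_one, k1⟩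
  obtain ⟨z, hz, ez⟩ := gm t ht
  obtain ⟨w, hw, ew⟩ := km s hs
  have : z = w := hU.inj (s1' hz) (s3' hw) (by rw [ez, ew, e])
  subst this
  have b1 : 0 < (1 : ℝ) * v z := hz
  have b2 : 0 < (-1 : ℝ) * v z := hw
  linarith

end Pool.Agent.P.MP_3bd355_an
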