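import Pool.Agent.P.MP_3bd355_an.Stmts

/-! The curve from a tip to the outer circle on which the function is negative. -/

open Set Filter Metric Complex InnerProductSpace
open scoped Topology ComplexConjugate Real

namespace Pool.Agent.P.MP_3bd355_an

namespace TpathP

theorem fold_eq {z q : ℂ} (hq : 0 ≤ q.im) (h : fold z = q) : z = q := by
  have h1 : -|z.im| = q.im := congrArg Complex.im h
  have h2 : |z.im| = 0 := le_antisymm (by linarith) (abs_nonneg _)
  rw [← h, fold_of_nonpos (abs_eq_zero.1 h2).le]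

theorem sc_of {r : ℝ} {L : Set ℂ} {v : ℂ → ℝ} {T : ℝ → ℂ} (hL : Cont r L)
    (hc : ContinuousOn T (Ioc 0 1)) (h1 : ‖T 1‖ = 1) (hi : ∀ t ∈ Ioc (0 : ℝ) 1, (T t).im ≤ 0)
    (hv : ∀ t ∈ Ioo (0 : ℝ) 1, T t ∈ ann r ∧ v (T t) < 0)
    (hO : ∀ O : Set ℂ, IsOpen O → L ⊆ O → ∀ᶠ t : ℝ in 𝓝[>] 0, T t ∈ O) :
    SC r L v (L ∪ T '' Ioc 0 1) := by
  have hsub : L ∪ T '' Ioc 0 1 ⊆ cann r := by
    rintro z (hz | ⟨t, ht, rfl⟩)
    · exact hL.sub hz
    · rcases ht.2.eq_or_lt with rfl | h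
      · exact ⟨hL.r1.le.trans h1.ge, h1.le⟩
      · exact ann_sub_cann r (hv t ⟨ht.1, h⟩).1
  refine ⟨(isCompact_cann r).of_isClosed_subset ?_ hsub, ?_, subset_union_left, hsub, ?_,
    ⟨T 1, Or.inr ⟨1, ⟨one_pos, le_rfl⟩, rfl⟩, h1⟩, ?_⟩
  · refine isClosed_of_closure_subset fun z hz => ?_
    by_cases hzL : z ∈ L
    · exact Or.inl hzL
    obtain ⟨U, O, hU, hO', hzU, hLO, hd⟩ := normal_separation (isClosed_singleton (x := z))
      hL.cpt.isClosed (disjoint_singleton_left.2 hzL)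
    obtain ⟨ε, hε, h2⟩ := (nhdsGT_basis (0 : ℝ)).eventually_iff.1 (hO O hO' hLO)
    have h3 : IsClosed (T '' Icc ε 1) := (isCompact_Icc.image_of_continuousOn
      (hc.mono fun t ht => ⟨hε.trans_le ht.1, ht.2⟩)).isClosed
    have h4 : L ∪ T '' Ioc 0 1 ⊆ Uᶜ ∪ T '' Icc ε 1 := by
      rintro w (hw | ⟨t, ht, rfl⟩)
      · exact Or.inl fun h => disjoint_left.1 hd h (hLO hw)
      · rcases lt_or_ge t ε with h | h
        · exact Or.inl fun h' => disjoint_left.1 hd h' (h2 ⟨ht.1, h⟩)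
        · exact Or.inr ⟨t, ⟨h, ht.2⟩, rfl⟩
    rcases closure_minimal h4 (hU.isClosed_compl.union h3) hz with h5 | ⟨t, ht, rfl⟩
    · exact absurd (hzU rfl) h5
    · exact Or.inr ⟨t, ⟨hε.trans_le ht.1, ht.2⟩, rfl⟩
  · obtain ⟨p, hp, hp'⟩ : ∃ p ∈ L, p ∈ closure (T '' Ioc 0 1) := by
      by_contra h
      push Not at h
      obtain ⟨t, h2, h3⟩ := ((hO _ isClosed_closure.isOpen_compl h).and
        (Ioc_mem_nhdsGT one_pos)).exists
      exact h2 (subset_closure ⟨t, h3, rfl⟩)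
    have h2 : IsPreconnected (insert p (T '' Ioc 0 1)) :=
      (isPreconnected_Ioc.image T hc).subset_closure (subset_insert _ _)
        (insert_subset hp' subset_closure)
    have h3 := IsPreconnected.union p hp (mem_insert _ _) hL.conn h2
    rwa [union_insert, insert_eq_of_mem (mem_union_left _ hp)] at h3
  · rintro z (hz | ⟨t, ht, rfl⟩)
    exacts [hL.low z hz, hi t ht]
  · rintro z (hz | ⟨t, ht, rfl⟩) hzL
    · exact absurd hz hzL
    · rcases ht.2.eq_or_lt with rfl | h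
      exacts [Or.inl h1, Or.inr (hv t ⟨ht.1, h⟩).2]

end TpathP

open TpathP in
theorem tpath (hP : S_PN) (hR : S_REFL) : S_TPATH := by
  intro r A B z₁ L v φ F h s0 s1 y q hF hy hq hqi
  have hL := hF.cfg.cont
  have hS := hF.cfg.sol
  obtain ⟨hA, hL1, -⟩ := hF.cfg.cases.resolve_left fun h0 => by
    rw [hF.pv.nz h0.1] at hy
    exact hy
  obtain ⟨hN, δ, hδ, hcol⟩ := (hP r A B L v hL hS hA.le hF.cfg.B0).2 hA hL1
  have hNa : {z | v z < 0} ⊆ ann r := fun z hz => (main_sub r L (hS.mem_main (ne_of_lt hz))).1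
  have hNo : IsOpen {z | v z < 0} := by
    have := (hS.contOn hL).isOpen_inter_preimage (isOpen_ann r) (isOpen_Iio (a := (0 : ℝ)))
    convert this using 1
    exact (inter_eq_right.2 hNa).symm
  have hqa : q ∈ ann r := (main_sub r L hq).1
  have e1 := (hF.tip y hy).two_neg
  have e2 := (tendsto_vert y).eventually (hF.unif.ev_main y)
  have e3 := (tendsto_vert y).eventually
    (hF.unif.ev_ne y isCompact_singleton (singleton_subset_iff.2 hq))
  obtain ⟨ε, hε, h2⟩ := (nhdsGT_basis (0 : ℝ)).eventually_iff.1 (e1.and (e2.and e3))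
  obtain ⟨τ, hτ0, hτ1, hτε⟩ : ∃ τ : ℝ, 0 < τ ∧ τ < 1 ∧ τ < ε :=
    ⟨min ε 1 / 2, by positivity, by linarith [min_le_right ε 1],
      by linarith [min_le_left ε 1, lt_min hε one_pos]⟩
  have h3 : ∀ t : ℝ, 0 < t → t ≤ τ → F (y + t * I) ∈ {z | v z < 0} \ {q} := fun t h0 h1 =>
    ⟨(h2 ⟨h0, h1.trans_lt hτε⟩).1, (h2 ⟨h0, h1.trans_lt hτε⟩).2.2⟩
  have hne : (1 : ℂ) ≠ q := fun e => by
    have := hqa.2
    rw [← e, norm_one] at this
    exact lt_irrefl _ this
  obtain ⟨γ, g1, g2, g3, g4⟩ := path_to_bd hL.r0 hL.r1 (hNo.sdiff isClosed_singleton)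
    (preconn_diff_finite hNo hN (finite_singleton q)) (fun z hz => hNa hz.1) (p := 1)
    (Or.inr norm_one) (by
      have a1 : ∀ᶠ z : ℂ in 𝓝 1, 1 - δ < ‖z‖ :=
        continuous_norm.continuousAt.eventually (lt_mem_nhds (by simpa using hδ))
      filter_upwards [self_mem_nhdsWithin, nhdsWithin_le_nhds a1,
        nhdsWithin_le_nhds (eventually_ne_nhds hne)] with z b1 b2 b3
      exact ⟨hcol z b1 b2, b3⟩) (h3 τ hτ0 le_rfl)
  set T0 : ℝ → ℂ := fun t => F (y + (min t τ : ℝ) * I) + γ (max 0 ((t - τ) / (1 - τ))) - γ 0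
    with hT0
  have a1 : ∀ t ≤ τ, T0 t = F (y + t * I) := fun t ht => by
    simp only [hT0]
    rw [min_eq_left ht, max_eq_left (div_nonpos_of_nonpos_of_nonneg (by linarith) (by linarith))]
    ring
  have a2 : ∀ t, τ ≤ t → T0 t = γ ((t - τ) / (1 - τ)) := fun t ht => by
    simp only [hT0]
    rw [min_eq_right ht, max_eq_right (div_nonneg (by linarith) (by linarith)), g2]
    ring
  have a3 : T0 1 = 1 := by rw [a2 1 hτ1.le, div_self (by linarith), g3]
  have a4 : ∀ t ∈ Ioo (0 : ℝ) 1, T0 t ∈ {z | v z < 0} \ {q} := fun t ht => by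
    rcases le_total t τ with h4 | h4
    · rw [a1 t h4]
      exact h3 t ht.1 h4
    · rw [a2 t h4]
      exact g4 _ ⟨div_nonneg (by linarith) (by linarith),
        (div_lt_one (by linarith)).2 (by linarith [ht.2])⟩
  have a5 : ContinuousOn T0 (Ioc 0 1) := by
    refine (ContinuousOn.add (hF.unif.dF.continuousOn.comp (by fun_prop) fun t ht => ?_)
      (g1.comp (by fun_prop)).continuousOn).sub continuousOn_const
    exact (h2 ⟨lt_min ht.1 hτ0, (min_le_right _ _).trans_lt hτε⟩).2.1.1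
  have a6 : ∀ᶠ t : ℝ in 𝓝[>] 0, fold (T0 t) = fold (F (y + t * I)) := by
    filter_upwards [Ioc_mem_nhdsGT hτ0] with t ht
    rw [a1 t ht.2]
  have a7 : ‖fold (T0 1)‖ = 1 := by rw [norm_fold, a3, norm_one]
  have a8 : ∀ t ∈ Ioo (0 : ℝ) 1, fold (T0 t) ∈ ann r ∧ v (fold (T0 t)) < 0 := fun t ht =>
    ⟨by
      have := hNa (a4 t ht).1
      exact ⟨by rw [norm_fold]; exact this.1, by rw [norm_fold]; exact this.2⟩,
    (hR r A B L v hL hF.cfg.ok hA.le hF.cfg.B0.le hS hF.cfg.sub _ (hNa (a4 t ht).1)).trans_lt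
      (a4 t ht).1⟩
  have a9 : ContinuousOn (fun t => fold (T0 t)) (Ioc 0 1) := continuous_fold.comp_continuousOn a5
  refine ⟨fun t => fold (T0 t), a9, a7, fun t ht => ⟨fold_im _, fun e => ?_⟩,
    fun t ht => (a8 t ht).2, a6, sc_of hL a9 a7 (fun t _ => fold_im _) a8 fun O hO hLO => ?_⟩
  · have h4 := fold_eq hqi e
    rcases ht.2.eq_or_lt with rfl | h5
    · exact hne (a3.symm.trans h4)
    · exact (a4 t ⟨ht.1, h5⟩).2 h4
  · have h4 := (tendsto_vert y).eventually (hF.pic.clZ y (Zo_not_Eo hF.pic.lt hF.pic.le hy.1)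
      (fold ⁻¹' O) (hO.preimage continuous_fold) (by
        rintro p (hp | ⟨-, p', h5, h6⟩)
        · show fold p ∈ O
          rw [fold_of_nonpos (hL.low p hp)]
          exact hLO hp
        · exact absurd h6 (hL1 p' h5).ne))
    filter_upwards [h4, a6] with t b1 b2
    rw [b2]
    exact b1

end Pool.Agent.P.MP_3bd355_an
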