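import Pool.Agent.P.MP_3bd355_an.Stmts

/-! The inverse of the map `y ↦ y exp (ε ρ y)` on the annulus without small discs. -/

open Set Filter Metric Complex InnerProductSpace
open scoped Topology ComplexConjugate Real

namespace Pool.Agent.P.MP_3bd355_an

namespace VarAP

lemma compact_Rg (r : ℝ) (Z : Finset ℂ) (δ : ℝ) : IsCompact (Rg r Z δ) := by
  apply (isCompact_closedBall (0 : ℂ) 1).of_isClosed_subset
  · have e : Rg r Z δ =
        ({z : ℂ | r ≤ ‖z‖} ∩ {z : ℂ | ‖z‖ ≤ 1}) ∩ ⋂ ζ ∈ Z, {z : ℂ | δ ≤ dist z ζ} := by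
      ext z
      simp [Rg, cann]
    rw [e]
    refine ((isClosed_le continuous_const continuous_norm).inter
      (isClosed_le continuous_norm continuous_const)).inter ?_
    exact isClosed_biInter fun ζ _ => isClosed_le continuous_const (by fun_prop)
  · intro z hz
    simpa using hz.1.2

/-- Uniform bounds on a neighbourhood of a compact set. -/
lemma exists_bounds {K U : Set ℂ} {ρ : ℂ → ℂ} (hK : IsCompact K) (hU : IsOpen U) (hKU : K ⊆ U)
    (hρ : ∀ z ∈ U, AnalyticAt ℂ ρ z) {s₀ : ℝ} (hs₀ : 0 < s₀) :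
    ∃ s M : ℝ, 0 < s ∧ s ≤ s₀ ∧ 1 ≤ M ∧ ∀ z ∈ K, ∀ y ∈ closedBall z (2 * s),
      AnalyticAt ℂ ρ y ∧ ‖ρ y‖ ≤ M ∧ ‖deriv ρ y‖ ≤ M := by
  obtain ⟨t, ht, htU⟩ := hK.exists_cthickening_subset_open hU hKU
  have hK' : IsCompact (cthickening t K) := hK.cthickening
  have c1 : ContinuousOn ρ (cthickening t K) := fun z hz =>
    (hρ z (htU hz)).continuousAt.continuousWithinAt
  have c2 : ContinuousOn (deriv ρ) (cthickening t K) := fun z hz =>
    (hρ z (htU hz)).deriv.continuousAt.continuousWithinAt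
  obtain ⟨M1, hM1⟩ := hK'.exists_bound_of_continuousOn c1
  obtain ⟨M2, hM2⟩ := hK'.exists_bound_of_continuousOn c2
  refine ⟨min s₀ (t / 2), max 1 (max M1 M2), lt_min hs₀ (by linarith), min_le_left _ _,
    le_max_left _ _, fun z hz y hy => ?_⟩
  have hy' : y ∈ cthickening t K := by
    apply closedBall_subset_cthickening hz t
    refine closedBall_subset_closedBall ?_ hy
    have := min_le_right s₀ (t / 2)
    linarith
  exact ⟨hρ y (htU hy'), (hM1 y hy').trans ((le_max_left _ _).trans (le_max_right _ _)),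
    (hM2 y hy').trans ((le_max_right _ _).trans (le_max_right _ _))⟩

/-- The mean value inequality on a disc. -/
lemma lip {f : ℂ → ℂ} {z : ℂ} {t M : ℝ} (han : ∀ y ∈ closedBall z t, AnalyticAt ℂ f y)
    (hd : ∀ y ∈ closedBall z t, ‖deriv f y‖ ≤ M) {x y : ℂ} (hx : x ∈ closedBall z t)
    (hy : y ∈ closedBall z t) : ‖f y - f x‖ ≤ M * ‖y - x‖ :=
  (convex_closedBall z t).norm_image_sub_le_of_norm_deriv_le
    (fun w hw => (han w hw).differentiableAt) hd hx hy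

/-- A map close to the identity has an analytic inverse. -/
lemma inv_exists {K : Set ℂ} {Ψ : ℂ → ℂ} {s : ℝ} (hs : 0 < s)
    (han : ∀ z ∈ K, ∀ y ∈ closedBall z (2 * s), AnalyticAt ℂ Ψ y)
    (hd : ∀ z ∈ K, ∀ y ∈ closedBall z (2 * s), ‖deriv Ψ y - 1‖ ≤ 1 / 2)
    (hg : ∀ z ∈ K, ∀ y ∈ closedBall z (2 * s), ‖Ψ y - y‖ ≤ s / 2) :
    ∃ Θ : ℂ → ℂ, (∀ z ∈ K, AnalyticAt ℂ Θ z ∧ deriv Θ z ≠ 0 ∧ Θ z ∈ ball z s ∧ Ψ (Θ z) = z) ∧
      ∀ w ∈ K, ∀ y ∈ ball w s, Ψ y = w → Θ w = y := by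
  classical
  have hl : ∀ z ∈ K, ∀ x ∈ closedBall z (2 * s), ∀ y ∈ closedBall z (2 * s),
      ‖(Ψ y - y) - (Ψ x - x)‖ ≤ 1 / 2 * ‖y - x‖ := by
    intro z hz x hx y hy
    refine lip (f := fun y => Ψ y - y) (fun w hw => (han z hz w hw).sub analyticAt_id)
      (fun w hw => ?_) hx hy
    have : deriv (fun y => Ψ y - y) w = deriv Ψ w - 1 :=
      ((han z hz w hw).differentiableAt.hasDerivAt.sub (hasDerivAt_id w)).deriv
    rw [this]
    exact hd z hz w hw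
  have hinj : ∀ z ∈ K, ∀ x ∈ closedBall z (2 * s), ∀ y ∈ closedBall z (2 * s),
      Ψ x = Ψ y → x = y := by
    intro z hz x hx y hy hxy
    have h1 := hl z hz x hx y hy
    have e : (Ψ y - y) - (Ψ x - x) = -(y - x) := by rw [hxy]; ring
    rw [e, norm_neg] at h1
    have : ‖y - x‖ = 0 := by linarith [norm_nonneg (y - x)]
    exact (sub_eq_zero.1 (norm_eq_zero.1 this)).symm
  have hex : ∀ z ∈ K, ∃ y ∈ ball z s, Ψ y = z := by
    intro z hz
    have hsub : closedBall z (s / 2) ⊆ closedBall z (2 * s) :=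
      closedBall_subset_closedBall (by linarith)
    have hm : MapsTo (fun y => z - (Ψ y - y)) (closedBall z (s / 2)) (closedBall z (s / 2)) := by
      intro y hy
      rw [mem_closedBall, dist_eq_norm]
      have e : z - (Ψ y - y) - z = -(Ψ y - y) := by ring
      rw [e, norm_neg]
      exact hg z hz y (hsub hy)
    have hc : ContractingWith (1 / 2) (hm.restrict _ _ _) := by
      refine ⟨by norm_num, LipschitzWith.of_dist_le_mul fun x y => ?_⟩
      rw [Subtype.dist_eq, Subtype.dist_eq, MapsTo.val_restrict_apply, MapsTo.val_restrict_apply,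
        dist_eq_norm, dist_eq_norm]
      have e : z - (Ψ x - x) - (z - (Ψ y - y)) = -((Ψ x - x) - (Ψ y - y)) := by ring
      rw [e, norm_neg]
      have := hl z hz y (hsub y.2) x (hsub x.2)
      simpa using this
    obtain ⟨y, hy, hfix, -⟩ := hc.exists_fixedPoint' isClosed_closedBall.isComplete hm
      (x := z) (mem_closedBall_self (by linarith)) (edist_ne_top _ _)
    refine ⟨y, closedBall_subset_ball (by linarith) hy, ?_⟩
    have : z - (Ψ y - y) = y := hfix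
    linear_combination -this
  let Θ : ℂ → ℂ := fun w => if h : ∃ y ∈ ball w s, Ψ y = w then h.choose else 0
  have hΘ : ∀ w, (∃ y ∈ ball w s, Ψ y = w) → Θ w ∈ ball w s ∧ Ψ (Θ w) = w := by
    intro w h
    simp only [Θ, dif_pos h]
    exact h.choose_spec
  have huniq : ∀ z ∈ K, ∀ w ∈ ball z s, ∀ y ∈ ball w s, Ψ y = w → Θ w = y := by
    intro z hz w hw y hy hyw
    obtain ⟨h1, h2⟩ := hΘ w ⟨y, hy, hyw⟩
    have hb : ball w s ⊆ closedBall z (2 * s) := by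
      intro x hx
      rw [mem_closedBall]
      have := dist_triangle x w z
      rw [mem_ball] at hx hw
      linarith
    exact hinj z hz _ (hb h1) _ (hb hy) (h2.trans hyw.symm)
  refine ⟨Θ, fun z hz => ?_, fun w hw y hy hyw => huniq w hw w (mem_ball_self hs) y hy hyw⟩
  obtain ⟨h1, h2⟩ := hΘ z (hex z hz)
  have hb : ball z s ⊆ closedBall z (2 * s) :=
    ball_subset_closedBall.trans (closedBall_subset_closedBall (by linarith))
  have hA := han z hz _ (hb h1)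
  have hne : deriv Ψ (Θ z) ≠ 0 := by
    intro h0
    have := hd z hz _ (hb h1)
    rw [h0] at this
    norm_num at this
  have hev : ∀ᶠ y in 𝓝 (Θ z), Θ (Ψ y) = y := by
    have e1 : ∀ᶠ y in 𝓝 (Θ z), y ∈ ball z s := isOpen_ball.mem_nhds h1
    have e2 : ∀ᶠ y in 𝓝 (Θ z), Ψ y ∈ ball z s := by
      apply hA.continuousAt.eventually_mem
      rw [h2]
      exact ball_mem_nhds _ hs
    filter_upwards [e1, e2] with y hy1 hy2
    refine huniq z hz _ hy2 y ?_ rfl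
    rw [mem_ball, dist_comm, dist_eq_norm]
    have := hg z hz y (hb hy1)
    linarith
  refine ⟨?_, ?_, h1, h2⟩
  · have : AnalyticAt ℂ (Θ ∘ Ψ) (Θ z) :=
      analyticAt_id.congr (by filter_upwards [hev] with y hy using hy.symm)
    have := (analyticAt_comp_iff_of_deriv_ne_zero hA hne).1 this
    rwa [h2] at this
  · have := (hA.hasStrictDerivAt.to_local_left_inverse hne hev).hasDerivAt.deriv
    rw [h2] at this
    rw [this]
    exact inv_ne_zero hne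

/-- The real part of `ρ` is controlled by the distance to a circle on which it vanishes. -/
lemma re_bound {K : Set ℂ} {ρ : ℂ → ℂ} {s M t : ℝ} (hs : 0 < s) (ht : 0 < t) (hM : 1 ≤ M)
    (hs1 : s ≤ 1)
    (hb : ∀ z ∈ K, ∀ y ∈ closedBall z (2 * s),
      AnalyticAt ℂ ρ y ∧ ‖ρ y‖ ≤ M ∧ ‖deriv ρ y‖ ≤ M)
    (hK : ∀ p : ℂ, ‖p‖ = t → p ∈ K ∧ (ρ p).re = 0) {y : ℂ} (hy0 : y ≠ 0) (hy : ‖ρ y‖ ≤ M) :
    |(ρ y).re| ≤ M / s * |‖y‖ - t| := by
  have hMs : M ≤ M / s := by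
    rw [le_div_iff₀ hs]
    nlinarith
  by_cases h : s ≤ |‖y‖ - t|
  · calc |(ρ y).re| ≤ M := (abs_re_le_norm _).trans hy
      _ = M / s * s := by field_simp
      _ ≤ M / s * |‖y‖ - t| := by
        apply mul_le_mul_of_nonneg_left h
        positivity
  · push Not at h
    have hn : 0 < ‖y‖ := norm_pos_iff.2 hy0
    set p : ℂ := ((t / ‖y‖ : ℝ) : ℂ) * y with hp
    have hpn : ‖p‖ = t := by
      rw [hp, norm_mul, Complex.norm_real, Real.norm_eq_abs, abs_of_pos (by positivity)]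
      field_simp
    have hd : ‖y - p‖ = |‖y‖ - t| := by
      have e : y - p = ((1 - t / ‖y‖ : ℝ) : ℂ) * y := by
        rw [hp]; push_cast; ring
      rw [e, norm_mul, Complex.norm_real, Real.norm_eq_abs]
      have e2 : ‖y‖ - t = (1 - t / ‖y‖) * ‖y‖ := by field_simp
      rw [e2, abs_mul, abs_of_pos hn]
    obtain ⟨hpK, hre⟩ := hK p hpn
    have hyb : y ∈ closedBall p (2 * s) := by
      rw [mem_closedBall, dist_eq_norm, hd]
      linarith
    have := lip (fun w hw => (hb p hpK w hw).1) (fun w hw => (hb p hpK w hw).2.2)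
      (mem_closedBall_self (by linarith)) hyb
    calc |(ρ y).re| = |(ρ y - ρ p).re| := by rw [sub_re, hre, sub_zero]
      _ ≤ ‖ρ y - ρ p‖ := abs_re_le_norm _
      _ ≤ M * |‖y‖ - t| := by rwa [hd] at this
      _ ≤ M / s * |‖y‖ - t| := mul_le_mul_of_nonneg_right hMs (abs_nonneg _)

/-- The modulus moves by less than half the distance to the circle. -/
lemma mod_bound {y a : ℂ} {ε C t : ℝ} (hε : 0 < ε) (hy : ‖y‖ ≤ 2) (h1 : ε * ‖a‖ ≤ 1)
    (hC : |a.re| ≤ C * |‖y‖ - t|) (hεC : 8 * (ε * C) ≤ 1) :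
    |‖y * exp (ε * a)‖ - ‖y‖| ≤ |‖y‖ - t| / 2 := by
  have e : ((ε : ℂ) * a).re = ε * a.re := by simp
  rw [norm_mul, norm_exp, e]
  have h2 : |ε * a.re| ≤ 1 := by
    rw [abs_mul, abs_of_pos hε]
    exact (mul_le_mul_of_nonneg_left (abs_re_le_norm _) hε.le).trans h1
  have h3 := Real.abs_exp_sub_one_le h2
  have e2 : ‖y‖ * Real.exp (ε * a.re) - ‖y‖ = ‖y‖ * (Real.exp (ε * a.re) - 1) := by ring
  rw [e2, abs_mul, abs_norm]
  rw [abs_mul, abs_of_pos hε] at h3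
  have h4 : ε * |a.re| ≤ ε * (C * |‖y‖ - t|) := mul_le_mul_of_nonneg_left hC hε.le
  have h5 : 0 ≤ |‖y‖ - t| := abs_nonneg _
  calc ‖y‖ * |Real.exp (ε * a.re) - 1| ≤ 2 * (2 * (ε * |a.re|)) :=
        mul_le_mul hy h3 (abs_nonneg _) (by norm_num)
    _ ≤ 4 * (ε * C) * |‖y‖ - t| := by nlinarith
    _ ≤ |‖y‖ - t| / 2 := by nlinarith

lemma sign_of {a b t : ℝ} (h : |a - b| ≤ |b - t| / 2) :
    (b = t ↔ a = t) ∧ (b ≤ t ↔ a ≤ t) ∧ (t ≤ b ↔ t ≤ a) := by
  rw [abs_le] at h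
  rcases le_total 0 (b - t) with h0 | h0
  · rw [abs_of_nonneg h0] at h
    refine ⟨⟨fun _ => ?_, fun _ => ?_⟩, ⟨fun _ => ?_, fun _ => ?_⟩, ⟨fun _ => ?_, fun _ => ?_⟩⟩ <;>
      linarith [h.1, h.2]
  · rw [abs_of_nonpos h0] at h
    refine ⟨⟨fun _ => ?_, fun _ => ?_⟩, ⟨fun _ => ?_, fun _ => ?_⟩, ⟨fun _ => ?_, fun _ => ?_⟩⟩ <;>
      linarith [h.1, h.2]

lemma norm_eps {a : ℂ} {ε M : ℝ} (hε : 0 < ε) (ha : ‖a‖ ≤ M) : ‖(ε : ℂ) * a‖ ≤ ε * M := by
  rw [norm_mul, Complex.norm_real, Real.norm_eq_abs, abs_of_pos hε]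
  exact mul_le_mul_of_nonneg_left ha hε.le

lemma move_bound {y a : ℂ} {ε M : ℝ} (hε : 0 < ε) (hy : ‖y‖ ≤ 2) (ha : ‖a‖ ≤ M)
    (h1 : ε * M ≤ 1) : ‖y * exp (ε * a) - y‖ ≤ 4 * (ε * M) := by
  have h2 := norm_eps hε ha
  have h3 := norm_exp_sub_one_le (h2.trans h1)
  have e : y * exp (ε * a) - y = y * (exp (ε * a) - 1) := by ring
  rw [e, norm_mul]
  calc ‖y‖ * ‖exp (ε * a) - 1‖ ≤ 2 * (2 * ‖(ε : ℂ) * a‖) :=
        mul_le_mul hy h3 (norm_nonneg _) (by norm_num)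
    _ ≤ 4 * (ε * M) := by linarith

lemma deriv_bound {ρ : ℂ → ℂ} {y : ℂ} {ε M : ℝ} (hε : 0 < ε) (hy : ‖y‖ ≤ 2)
    (hρ : AnalyticAt ℂ ρ y) (ha : ‖ρ y‖ ≤ M) (hb : ‖deriv ρ y‖ ≤ M) (h1 : 16 * (ε * M) ≤ 1) :
    ‖deriv (fun y => y * exp (ε * ρ y)) y - 1‖ ≤ 1 / 2 := by
  have hd : HasDerivAt (fun y => y * exp (ε * ρ y))
      (1 * exp (ε * ρ y) + y * (exp (ε * ρ y) * (ε * deriv ρ y))) y :=
    (hasDerivAt_id y).mul ((hρ.differentiableAt.hasDerivAt.const_mul (ε : ℂ)).cexp)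
  rw [hd.deriv]
  have hM : 0 ≤ ε * M := mul_nonneg hε.le ((norm_nonneg _).trans ha)
  have h2 := norm_eps hε ha
  have h3 := norm_exp_sub_one_le (h2.trans (by linarith))
  have h4 := norm_eps hε hb
  have h5 : ‖exp (ε * ρ y)‖ ≤ 3 / 2 := by
    have : ‖exp (ε * ρ y)‖ ≤ ‖exp (ε * ρ y) - 1‖ + ‖(1 : ℂ)‖ := by
      simpa using norm_add_le (exp (ε * ρ y) - 1) 1
    rw [norm_one] at this
    linarith
  have e : 1 * exp (ε * ρ y) + y * (exp (ε * ρ y) * (ε * deriv ρ y)) - 1 =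
      (exp (ε * ρ y) - 1) + y * (exp (ε * ρ y) * (ε * deriv ρ y)) := by ring
  rw [e]
  have h6 : ‖y * (exp (ε * ρ y) * (ε * deriv ρ y))‖ ≤ 2 * (3 / 2 * (ε * M)) := by
    rw [norm_mul, norm_mul (exp _)]
    exact mul_le_mul hy (mul_le_mul h5 h4 (norm_nonneg _) (by norm_num)) (by positivity)
      (by norm_num)
  have := norm_add_le (exp (ε * ρ y) - 1) (y * (exp (ε * ρ y) * (ε * deriv ρ y)))
  linarith

lemma second_bound {y z a b : ℂ} {ε M : ℝ} (hε : 0 < ε) (hy : ‖y‖ ≤ 2) (ha : ‖a‖ ≤ M)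
    (hb : ‖b‖ ≤ M) (h1 : ε * M ≤ 1) (hz : y * exp (ε * a) = z) (hab : ‖a - b‖ ≤ M * ‖y - z‖) :
    ‖y - (z - ε * z * b)‖ ≤ 14 * M ^ 2 * ε ^ 2 := by
  have hM : 0 ≤ M := (norm_nonneg _).trans ha
  have h2 := norm_eps hε ha
  have h3 := norm_exp_sub_one_sub_id_le (h2.trans h1)
  have h4 : ‖y - z‖ ≤ 4 * (ε * M) := by
    rw [norm_sub_rev, ← hz]
    exact move_bound hε hy ha h1
  have e : y - (z - ε * z * b) =
      -(y * (exp (ε * a) - 1 - ε * a)) - ε * (y * (a - b) + (y - z) * b) := by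
    rw [← hz]; ring
  have h5 : ‖y * (exp (ε * a) - 1 - ε * a)‖ ≤ 2 * (ε * M) ^ 2 := by
    rw [norm_mul]
    exact mul_le_mul hy (h3.trans (by gcongr)) (norm_nonneg _) (by norm_num)
  have h6 : ‖y * (a - b) + (y - z) * b‖ ≤ 3 * M * (4 * (ε * M)) := by
    have k1 : ‖y * (a - b)‖ ≤ 2 * (M * (4 * (ε * M))) := by
      rw [norm_mul]
      exact mul_le_mul hy (hab.trans (by gcongr)) (norm_nonneg _) (by norm_num)
    have k2 : ‖(y - z) * b‖ ≤ 4 * (ε * M) * M := by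
      rw [norm_mul]
      exact mul_le_mul h4 hb (norm_nonneg _) (by positivity)
    have := norm_add_le (y * (a - b)) ((y - z) * b)
    nlinarith
  have h7 := norm_eps hε h6
  rw [e]
  have := norm_sub_le (-(y * (exp (ε * a) - 1 - ε * a))) (ε * (y * (a - b) + (y - z) * b))
  rw [norm_neg] at this
  nlinarith

end VarAP

open VarAP in
theorem vara : S_VARA := by
  intro r Z ρ O δ hr0 hr1 hO hcO hρ hre hδ hZ
  have hU : IsOpen (O \ (Z : Set ℂ)) := hO.sdiff Z.finite_toSet.isClosed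
  have hKU : Rg r Z δ ⊆ O \ (Z : Set ℂ) := by
    intro z hz
    refine ⟨hcO hz.1, fun hzZ => ?_⟩
    have := hz.2 z hzZ
    rw [dist_self] at this
    linarith
  obtain ⟨s, M, hs, hs0, hM, hb⟩ := exists_bounds (compact_Rg r Z δ) hU hKU
    (fun z hz => hρ z hz.1 hz.2) (s₀ := min (δ / 2) (r / 4)) (lt_min (by linarith) (by linarith))
  have hsδ : s ≤ δ / 2 := hs0.trans (min_le_left _ _)
  have hsr : s ≤ r / 4 := hs0.trans (min_le_right _ _)
  have hs1 : s ≤ 1 := by linarith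
  have hcirc : ∀ p : ℂ, ‖p‖ = r ∨ ‖p‖ = 1 → p ∈ Rg r Z δ ∧ (ρ p).re = 0 := by
    intro p hp
    refine ⟨⟨?_, fun ζ hζ => ?_⟩, hre p hp⟩
    · rcases hp with hp | hp <;> constructor <;> linarith
    · by_contra hlt
      push Not at hlt
      have := hZ ζ hζ (show p ∈ closedBall ζ (2 * δ) by rw [mem_closedBall]; linarith)
      rcases hp with hp | hp
      · linarith [this.1]
      · linarith [this.2]
  have hnorm : ∀ z ∈ Rg r Z δ, ∀ y ∈ closedBall z (2 * s), y ≠ 0 ∧ ‖y‖ ≤ 2 := by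
    intro z hz y hy
    rw [mem_closedBall, dist_eq_norm] at hy
    have h1 := abs_le.1 ((abs_norm_sub_norm_le y z).trans hy)
    have h2 := hz.1.1
    have h3 := hz.1.2
    refine ⟨norm_pos_iff.1 (by linarith [h1.1]), by linarith [h1.2]⟩
  refine ⟨14 * M ^ 2, s / (16 * M), by positivity, fun ε hε => ?_⟩
  have hε0 := hε.1
  have hεM : 16 * (ε * M) ≤ s := by
    have := hε.2.le
    rw [le_div_iff₀ (by positivity)] at this
    linarith
  have hεM1 : ε * M ≤ 1 := by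
    have : 0 ≤ ε * M := by positivity
    linarith
  have hεC : 8 * (ε * (M / s)) ≤ 1 := by
    have e : 8 * (ε * (M / s)) = 8 * (ε * M) / s := by ring
    rw [e, div_le_one hs]
    have : 0 ≤ ε * M := by positivity
    linarith
  have hmove : ∀ z ∈ Rg r Z δ, ∀ y ∈ closedBall z (2 * s), ‖y * exp (ε * ρ y) - y‖ ≤ s / 2 := by
    intro z hz y hy
    have := move_bound hε0 (hnorm z hz y hy).2 (hb z hz y hy).2.1 hεM1
    linarith
  have hsign : ∀ z ∈ Rg r Z δ, ∀ y ∈ closedBall z (2 * s), ∀ t : ℝ, t = r ∨ t = 1 →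
      (‖y‖ = t ↔ ‖y * exp (ε * ρ y)‖ = t) ∧ (‖y‖ ≤ t ↔ ‖y * exp (ε * ρ y)‖ ≤ t) ∧
        (t ≤ ‖y‖ ↔ t ≤ ‖y * exp (ε * ρ y)‖) := by
    intro z hz y hy t ht
    have ht0 : 0 < t := by rcases ht with h | h <;> linarith
    have h1 := re_bound hs ht0 hM hs1 hb
      (fun p hp => hcirc p (by rcases ht with h | h <;> [left; right] <;> linarith))
      (hnorm z hz y hy).1 (hb z hz y hy).2.1
    exact sign_of (mod_bound hε0 (hnorm z hz y hy).2
      ((mul_le_mul_of_nonneg_left (hb z hz y hy).2.1 hε0.le).trans hεM1) h1 hεC)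
  obtain ⟨Θ, hΘ, huniq⟩ := inv_exists (K := Rg r Z δ) (Ψ := fun y => y * exp (ε * ρ y)) hs
    (fun z hz y hy => analyticAt_id.mul ((analyticAt_const.mul (hb z hz y hy).1).cexp))
    (fun z hz y hy => deriv_bound hε0 (hnorm z hz y hy).2 (hb z hz y hy).1 (hb z hz y hy).2.1
      (hb z hz y hy).2.2 (by linarith)) hmove
  refine ⟨Θ, fun z hz => ?_, fun y hy => ?_⟩
  · obtain ⟨h1, h2, h3, h4⟩ := hΘ z hz
    have h5 : Θ z ∈ closedBall z (2 * s) :=
      (ball_subset_closedBall.trans (closedBall_subset_closedBall (by linarith))) h3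
    have hr := hsign z hz _ h5 r (Or.inl rfl)
    have h1' := hsign z hz _ h5 1 (Or.inr rfl)
    have h4' : Θ z * exp (ε * ρ (Θ z)) = z := h4
    rw [h4'] at hr h1'
    have hzz : z ∈ closedBall z (2 * s) := mem_closedBall_self (by linarith)
    refine ⟨h1, h2, ⟨⟨hr.2.2.2 hz.1.1, h1'.2.1.2 hz.1.2⟩, fun ζ hζ => ?_⟩, hr.1, h1'.1, ?_⟩
    · have k1 := hz.2 ζ hζ
      have k2 := dist_triangle z (Θ z) ζ
      rw [mem_ball, dist_comm] at h3
      linarith
    · exact second_bound hε0 (hnorm z hz _ h5).2 (hb z hz _ h5).2.1 (hb z hz _ hzz).2.1 hεM1 h4'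
        (lip (fun w hw => (hb z hz w hw).1) (fun w hw => (hb z hz w hw).2.2) hzz h5)
  · have hyK : y ∈ Rg r Z δ := ⟨hy.1, fun ζ hζ => by linarith [hy.2 ζ hζ]⟩
    have hyy : y ∈ closedBall y (2 * s) := mem_closedBall_self (by linarith)
    have hr := hsign y hyK _ hyy r (Or.inl rfl)
    have h1' := hsign y hyK _ hyy 1 (Or.inr rfl)
    have hm := hmove y hyK y hyy
    have hw : y * exp (ε * ρ y) ∈ Rg r Z δ := by
      refine ⟨⟨hr.2.2.1 hy.1.1, h1'.2.1.1 hy.1.2⟩, fun ζ hζ => ?_⟩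
      have k1 := hy.2 ζ hζ
      have k2 := dist_triangle y (y * exp (ε * ρ y)) ζ
      rw [dist_comm y (y * exp (ε * ρ y)), dist_eq_norm (y * exp (ε * ρ y)) y] at k2
      linarith
    refine ⟨hw, huniq _ hw y ?_ rfl⟩
    rw [mem_ball, dist_comm, dist_eq_norm]
    linarith

end Pool.Agent.P.MP_3bd355_an
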