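import Pool.Agent.P.MP_3bd355_an.Stmts

/-! Non-attainment near the inner circle: the assembly. -/

open Set Filter Metric Complex InnerProductSpace
open scoped Topology ComplexConjugate Real

namespace Pool.Agent.P.MP_3bd355_an

namespace NaP

/-- The half annulus that contains `z₀`. -/
def half (r σ : ℝ) : Set ℂ := {z | z ∈ ann r ∧ 0 < σ * z.im}

theorem isOpen_half (r σ : ℝ) : IsOpen (half r σ) :=
  (isOpen_ann r).inter (isOpen_lt continuous_const (continuous_const.mul continuous_im))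

theorem half_sub {r σ : ℝ} {κ : ℝ → ℂ} (hκ : ∀ t ∈ Icc (0 : ℝ) 1, σ * (κ t).im ≤ 0) :
    half r σ ⊆ ann r \ κ '' Icc 0 1 := by
  rintro z ⟨hz, hi⟩
  refine ⟨hz, ?_⟩
  rintro ⟨t, ht, rfl⟩
  exact absurd (hκ t ht) (not_le.2 hi)

/-- A uniform bound for the gradient of `v`. -/
theorem gradv (hC1 : S_CRIT1) {r A B σ : ℝ} {z : ℂ} (hz : z ∈ half r σ) :
    ∃ m : ℝ, 0 ≤ m ∧ ∀ (z₀ z₁ a b : ℂ) (c : ℝ) (κ : ℝ → ℂ) (v g : ℂ → ℝ), CH r A B z₀ z₁ →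
      Crit r A B z₀ z₁ a b c κ v g → (∀ t ∈ Icc (0 : ℝ) 1, σ * (κ t).im ≤ 0) →
      ‖grad v z‖ ≤ m := by
  obtain ⟨R, hR, hb⟩ := Metric.isOpen_iff.1 (isOpen_half r σ) z hz
  refine ⟨4 * |B - A| / R, by positivity, fun z₀ z₁ a b c κ v g hch hc hκ => ?_⟩
  refine grad_bound hR (fun y hy => hc.v_harm y (half_sub hκ (hb hy))) fun y hy => ?_
  have h1 := (hC1 r A B z₀ z₁ a b c κ v g hch hc).2.1 y (hb hy).1
  have h2 := hch.A0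
  have h3 := hch.B0
  rw [abs_of_pos (by linarith : 0 < B - A), abs_le]
  constructor <;> linarith [h1.1, h1.2]

/-- A uniform bound for the gradient of `g`. -/
theorem gradg (hC2 : S_CRIT2) {r A B σ : ℝ} {z₀ z : ℂ} (hz : z ∈ half r σ) (hne : z ≠ z₀) :
    ∃ m : ℝ, ∀ (z₁ a b : ℂ) (c : ℝ) (κ : ℝ → ℂ) (v g : ℂ → ℝ), CH r A B z₀ z₁ →
      Crit r A B z₀ z₁ a b c κ v g → (∀ t ∈ Icc (0 : ℝ) 1, σ * (κ t).im ≤ 0) →
      ‖grad g z‖ ≤ m := by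
  have hd : 0 < ‖z - z₀‖ := norm_pos_iff.2 (sub_ne_zero.2 hne)
  obtain ⟨R, hR, hb⟩ := Metric.isOpen_iff.1 ((isOpen_half r σ).inter isOpen_ball) z
    ⟨hz, mem_ball_self (half_pos hd)⟩
  have hfar : ∀ y ∈ ball z R, ‖z - z₀‖ / 2 ≤ ‖y - z₀‖ := by
    intro y hy
    have h1 : dist y z < ‖z - z₀‖ / 2 := (hb hy).2
    have h2 := dist_triangle_left z z₀ y
    rw [dist_eq_norm z z₀, dist_eq_norm y z₀] at h2
    linarith
  have hy0 : ∀ y ∈ ball z R, y ≠ z₀ := by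
    intro y hy h
    have := hfar y hy
    rw [h, sub_self, norm_zero] at this
    linarith
  refine ⟨4 * Real.log (2 / (‖z - z₀‖ / 2)) / R, fun z₁ a b c κ v g hch hc hκ => ?_⟩
  refine grad_bound hR (fun y hy => hc.g_harm y ⟨half_sub hκ (hb hy).1, hy0 y hy⟩) fun y hy => ?_
  have h1 := (hC2 r A B z₀ z₁ a b c κ v g hch hc).2.1 y (half_sub hκ (hb hy).1) (hy0 y hy)
  rw [abs_of_nonneg h1.1]
  refine h1.2.trans (Real.log_le_log ?_ ?_)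
  · exact div_pos two_pos ((half_pos hd).trans_le (hfar y hy))
  · exact div_le_div_of_nonneg_left zero_le_two (half_pos hd) (hfar y hy)

theorem boundQ (hC1 : S_CRIT1) (hC2 : S_CRIT2) (r A B σ : ℝ) (z₀ : ℂ) :
    ∃ M : ℂ → ℝ, ∀ (z₁ a b : ℂ) (c : ℝ) (κ : ℝ → ℂ) (v g : ℂ → ℝ), CH r A B z₀ z₁ →
      Crit r A B z₀ z₁ a b c κ v g → (∀ t ∈ Icc (0 : ℝ) 1, σ * (κ t).im ≤ 0) →
      ∀ z ∈ ann r, 0 < σ * z.im → z ≠ z₀ → ‖QD r z₀ z₁ a b c z‖ ≤ M z := by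
  have key : ∀ z : ℂ, ∃ m : ℝ, z ∈ half r σ → z ≠ z₀ →
      ∀ (z₁ a b : ℂ) (c : ℝ) (κ : ℝ → ℂ) (v g : ℂ → ℝ), CH r A B z₀ z₁ →
        Crit r A B z₀ z₁ a b c κ v g → (∀ t ∈ Icc (0 : ℝ) 1, σ * (κ t).im ≤ 0) →
        ‖QD r z₀ z₁ a b c z‖ ≤ m := by
    intro z
    by_cases hz : z ∈ half r σ ∧ z ≠ z₀
    · obtain ⟨m₁, hm₁, h1⟩ := gradv hC1 (A := A) (B := B) hz.1
      obtain ⟨m₂, h2⟩ := gradg hC2 (A := A) (B := B) hz.1 hz.2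
      refine ⟨m₁ * m₂, fun _ _ z₁ a b c κ v g hch hc hκ => ?_⟩
      rw [← hc.prod z (half_sub hκ hz.1) hz.2, norm_mul]
      exact mul_le_mul (h1 z₀ z₁ a b c κ v g hch hc hκ) (h2 z₁ a b c κ v g hch hc hκ)
        (norm_nonneg _) hm₁
    · exact ⟨0, fun h1 h2 => absurd ⟨h1, h2⟩ hz⟩
  choose M hM using key
  exact ⟨M, fun z₁ a b c κ v g hch hc hκ z hz hi hne => hM z ⟨hz, hi⟩ hne z₁ a b c κ v g hch hc hκ⟩

theorem hf_pos {r A B : ℝ} (h0 : 0 < r) (h1 : r < 1) (hB : 0 < B) :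
    ∃ d > 0, ∀ s ∈ Ioo (1 : ℝ) (1 + d), 0 < hf r A B ((s : ℂ) * (r : ℂ)) := by
  have hr : ((1 : ℝ) : ℂ) * (r : ℂ) ≠ 0 := by simpa using h0.ne'
  have hc : ContinuousAt (fun s : ℝ => hf r A B ((s : ℂ) * (r : ℂ))) 1 :=
    ContinuousAt.comp (f := fun s : ℝ => (s : ℂ) * (r : ℂ))
      (harm_diff (hf_harm r A B hr)).continuousAt (by fun_prop)
  have hv : hf r A B (((1 : ℝ) : ℂ) * (r : ℂ)) = B :=
    hf_inner h0 h1 A B (by simp [abs_of_pos h0])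
  have he : ∀ᶠ s : ℝ in 𝓝 1, 0 < hf r A B ((s : ℂ) * (r : ℂ)) :=
    hc.eventually (lt_mem_nhds (hB.trans_eq hv.symm))
  obtain ⟨d, hd, h⟩ := Metric.eventually_nhds_iff.1 he
  refine ⟨d, hd, fun s hs => h ?_⟩
  rw [Real.dist_eq, abs_of_pos (by linarith [hs.1])]
  linarith [hs.2]

theorem mul_mem_ann {r : ℝ} {ω z : ℂ} (hω : ‖ω‖ = 1) (hz : z ∈ ann r) : ω * z ∈ ann r := by
  simpa [ann, hω] using hz

/-- The statement in the frame `b₀ = r`. -/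
theorem na_real (hM : S_MAIN) (hR : S_ROT) (h0 : S_NA0) (h2 : S_NA2) (h3 : S_NA3) (h4 : S_NA4)
    (hC1 : S_CRIT1) (hC2 : S_CRIT2) {r A B σ : ℝ} {z₀ : ℂ} (hr : 0 < r) (hz₀ : z₀ ∈ ann r)
    (hA : A ≤ 0) (hB : 0 < B) (hσ : σ = 1 ∨ σ = -1) (hi : 0 < σ * z₀.im) :
    ∃ d > 0, ∀ s ∈ Ioo (1 : ℝ) (1 + d), (s : ℂ) * (r : ℂ) ∈ ann r ∧
      0 < hf r A B ((s : ℂ) * (r : ℂ)) ∧
      ∀ u, Adm r A B ((s : ℂ) * (r : ℂ)) u → u z₀ < Msup r A B z₀ ((s : ℂ) * (r : ℂ)) := by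
  have hr1 : r < 1 := hz₀.1.trans hz₀.2
  have hn0 : 0 < ‖z₀‖ := hr.trans hz₀.1
  have hσ1 : |σ| = 1 := by rcases hσ with h | h <;> simp [h]
  have hrn : ‖(r : ℂ)‖ = r := by simp [abs_of_pos hr]
  set ω : ℂ := ((σ / ‖z₀‖ : ℝ) : ℂ) * conj z₀ with hωdef
  have hω : ‖ω‖ = 1 := by
    rw [hωdef, norm_mul, norm_real, Real.norm_eq_abs, abs_div, hσ1, abs_of_pos hn0, norm_conj]
    field_simp
  have hω0 : (ω * z₀).im = 0 := by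
    rw [hωdef, mul_assoc, im_ofReal_mul]
    simp only [mul_im, conj_re, conj_im]
    ring
  have hωim : ω.im < 0 := by
    rw [hωdef, im_ofReal_mul, conj_im]
    have : 0 < σ * z₀.im / ‖z₀‖ := div_pos hi hn0
    have e : σ / ‖z₀‖ * -z₀.im = -(σ * z₀.im / ‖z₀‖) := by ring
    rw [e]
    linarith
  obtain ⟨c₀, hc₀, d₂, hd₂, H2⟩ := h2 r A B (ω * z₀) (ω * r) hr (mul_mem_ann hω hz₀) hω0 hA hB
    (by rw [norm_mul, hω, hrn, one_mul]) (by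
      rw [im_mul_ofReal]
      exact mul_neg_of_neg_of_pos hωim hr)
  obtain ⟨ρ, hρ, H0⟩ := h0 r A B r hr hr1 hA hB hrn
  obtain ⟨m, -, Hm⟩ := gradv hC1 (A := A) (B := B) (⟨hz₀, hi⟩ : z₀ ∈ half r σ)
  obtain ⟨M, HM⟩ := boundQ hC1 hC2 r A B σ z₀
  obtain ⟨ρ₁, ρ₂, d₃, hd₃, hρ₁, he, hρ₂, hρ₂r, hrd, hrd1, H3⟩ :=
    h3 r z₀ σ c₀ (‖z₀‖ * m / 2) ρ M hr hz₀ hσ hc₀ hρ
  obtain ⟨d₄, hd₄, H4⟩ := hf_pos (A := A) hr hr1 hB
  refine ⟨min (min d₂ d₃) d₄, by positivity, fun s hs => ?_⟩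
  have hs1 : 1 < s := hs.1
  have hs2 : s < 1 + d₂ := by linarith [hs.2, min_le_left (min d₂ d₃) d₄, min_le_left d₂ d₃]
  have hs3 : s < 1 + d₃ := by linarith [hs.2, min_le_left (min d₂ d₃) d₄, min_le_right d₂ d₃]
  have hs4 : s < 1 + d₄ := by linarith [hs.2, min_le_right (min d₂ d₃) d₄]
  set z₁ : ℂ := (s : ℂ) * (r : ℂ) with hz₁def
  have hz₁n : ‖z₁‖ = s * r := by
    rw [hz₁def, norm_mul, hrn, norm_real, Real.norm_eq_abs, abs_of_pos (by linarith)]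
  have hz₁ : z₁ ∈ ann r := ⟨by rw [hz₁n]; nlinarith, by rw [hz₁n]; nlinarith⟩
  have hz₁i : z₁.im = 0 := by simp [hz₁def]
  have hz₁d : ‖z₁ - r‖ = (s - 1) * r := by
    have : z₁ - r = ((s - 1 : ℝ) : ℂ) * (r : ℂ) := by rw [hz₁def]; push_cast; ring
    rw [this, norm_mul, hrn, norm_real, Real.norm_eq_abs, abs_of_pos (by linarith)]
  have hpos : 0 < hf r A B z₁ := H4 s ⟨hs1, hs4⟩
  refine ⟨hz₁, hpos, fun u hu => ?_⟩
  have hle : u z₀ ≤ Msup r A B z₀ z₁ := le_iSup₂ (f := fun u (_ : Adm r A B z₁ u) => u z₀) u hu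
  refine lt_of_le_of_ne hle fun heq => ?_
  obtain ⟨-, M2, M3⟩ := hM r A B z₀ z₁ hr hz₀ hz₁ hA hpos (by
    intro t _ h
    rw [h, im_ofReal_mul, hz₁i] at hi
    simp at hi)
  obtain ⟨a, b, c, κ, v, g, hc, hoff, huv⟩ := M3 u hu heq
  have hconf := (M2 a b c κ v g hc).2.2 (by rw [← huv z₀ hz₀, heq])
  have hch : CH r A B z₀ z₁ := ⟨hr, hr1, hz₀, hz₁, hA, hB⟩
  have hκ : ∀ t ∈ Icc (0 : ℝ) 1, σ * (κ t).im ≤ 0 := by
    intro t ht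
    have := hconf (σ : ℂ) (by rwa [im_ofReal_mul]) (by rw [im_ofReal_mul, hz₁i]; simp) t ht
    rwa [im_ofReal_mul] at this
  have hκω : ∀ t ∈ Icc (0 : ℝ) 1, (ω * κ t).im ≤ 0 := by
    intro t ht
    have h1 : ∀ ε : ℝ, 0 < ε → (ω * κ t).im + ε * (σ * (κ t).im) ≤ 0 := by
      intro ε hε
      have e : ∀ y : ℂ, ((ω + ((ε * σ : ℝ) : ℂ)) * y).im = (ω * y).im + ε * (σ * y.im) := by
        intro y
        rw [add_mul, add_im, im_ofReal_mul, mul_assoc ε]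
      rw [← e]
      refine hconf _ ?_ ?_ t ht
      · rw [e, hω0, zero_add]
        exact mul_pos hε hi
      · rw [e, hz₁i, hz₁def, ← ofReal_mul, im_mul_ofReal]
        have : ω.im * (s * r) < 0 := mul_neg_of_neg_of_pos hωim (by positivity)
        linarith
    have h5 : Tendsto (fun ε : ℝ => (ω * κ t).im + ε * (σ * (κ t).im)) (𝓝[>] 0)
        (𝓝 ((ω * κ t).im + 0 * (σ * (κ t).im))) :=
      (Continuous.tendsto (by fun_prop) 0).mono_left nhdsWithin_le_nhds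
    have h6 := le_of_tendsto h5 (eventually_nhdsWithin_of_forall fun ε hε => h1 ε hε)
    simpa using h6
  have ha1 : c₀ ≤ |a.im| := by
    refine H2 (ω * z₁) a b c _ _ _ (mul_mem_ann hω hz₁) ?_
      ((hR r A B z₀ z₁ ω hω).2.2 a b c κ v g hc) (fun t ht => ?_) hκω
    · rw [dist_eq_norm, ← mul_sub, norm_mul, hω, one_mul, hz₁d]
      nlinarith
    · rw [norm_mul, hω, one_mul]
      exact hoff t ht
  obtain ⟨-, -, ha, hsg⟩ := hC2 r A B z₀ z₁ a b c κ v g hch hc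
  have ha2 : ‖a‖ ≤ ‖z₀‖ * m / 2 := by
    have := Hm z₀ z₁ a b c κ v g hch hc hκ
    rw [ha, norm_div, norm_mul]
    simp only [Complex.norm_ofNat]
    gcongr
  have H := H3 s ⟨hs1, hs3⟩ a b c hc.bal ha1 ha2 (HM z₁ a b c κ v g hch hc hκ) (hsg hoff)
  have hcann := (hC1 r A B z₀ z₁ a b c κ v g hch hc).2.2.1
  have hball := h4 r ρ₁ ρ₂ (QD r z₀ z₁ a b c) κ hr hρ₁ he hρ₂r hc.cont
    (by rw [hc.start, hz₁d]; nlinarith) hoff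
    (fun t ht => hc.traj t ht (hoff t (Ioo_subset_Icc_self ht)))
    (fun t ht h5 h6 => H (κ t) (hcann t (Ioo_subset_Icc_self ht)) h5 h6)
  exact H0 z₀ z₁ a b c κ v g hch hc (hball.trans (ball_subset_ball hρ₂))

end NaP

theorem na (hM : S_MAIN) (hR : S_ROT) (h0 : S_NA0) (h2 : S_NA2) (h3 : S_NA3) (h4 : S_NA4)
    (hC1 : S_CRIT1) (hC2 : S_CRIT2) : S_NA := by
  intro r A B z₀ b₀ hr hz₀ hA hB hb hi
  have hb0 : b₀ ≠ 0 := norm_pos_iff.1 (hb ▸ hr)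
  set ω : ℂ := (r : ℂ) / b₀ with hωdef
  have hω : ‖ω‖ = 1 := by
    rw [hωdef, norm_div, hb, norm_real, Real.norm_eq_abs, abs_of_pos hr, div_self hr.ne']
  have hωi : (ω * z₀).im = r * (z₀ / b₀).im := by
    rw [← im_ofReal_mul, hωdef]
    congr 1
    ring
  obtain ⟨σ, hσ, hσi⟩ : ∃ σ : ℝ, (σ = 1 ∨ σ = -1) ∧ 0 < σ * (ω * z₀).im := by
    rcases lt_or_gt_of_ne hi with h | h
    · exact ⟨-1, Or.inr rfl, by rw [hωi]; nlinarith⟩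
    · exact ⟨1, Or.inl rfl, by rw [hωi]; nlinarith⟩
  obtain ⟨d, hd, H⟩ := NaP.na_real hM hR h0 h2 h3 h4 hC1 hC2 hr (NaP.mul_mem_ann hω hz₀) hA hB hσ hσi
  refine ⟨d, hd, fun s hs => ?_⟩
  obtain ⟨H1, H2, H3⟩ := H s hs
  have e : ω * ((s : ℂ) * b₀) = (s : ℂ) * (r : ℂ) := by
    rw [hωdef]
    field_simp
  have en : ‖(s : ℂ) * b₀‖ = ‖(s : ℂ) * (r : ℂ)‖ := by rw [← e, norm_mul ω, hω, one_mul]
  refine ⟨?_, ?_, fun u hu => ?_⟩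
  · simpa only [ann, mem_ofPred_eq, en] using H1
  · simpa only [hf, en] using H2
  · obtain ⟨R1, R2, -⟩ := hR r A B z₀ ((s : ℂ) * b₀) ω hω
    have h5 := H3 _ (e ▸ R1 u hu)
    have h6 : conj ω * (ω * z₀) = z₀ := by
      rw [← mul_assoc, conj_mul', hω]
      simp
    rw [← R2, e]
    simpa only [h6] using h5

end Pool.Agent.P.MP_3bd355_an
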