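import Pool.Agent.P.MP_3bd355_an.Stmts

/-! Critical arcs are not small, and a uniform boundary point lemma. -/

open Set Filter Metric Complex InnerProductSpace
open scoped Topology ComplexConjugate Real

namespace Pool.Agent.P.MP_3bd355_an

namespace Na01P

lemma harm_bar (k l : ℝ) {a z : ℂ} (h : z ≠ a) :
    HarmonicAt (fun y => k * (l - Real.log ‖y - a‖)) z :=
  harm_const_mul ((harmonicAt_const l).sub (harm_log h)) k

lemma hf_le {r A B : ℝ} (h0 : 0 < r) (h1 : r < 1) (hAB : A ≤ B) {z : ℂ} (hz : r ≤ ‖z‖) :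
    hf r A B z ≤ B := by
  have hl : Real.log r < 0 := Real.log_neg h0 h1
  have h2 : Real.log r ≤ Real.log ‖z‖ := Real.log_le_log h0 hz
  have h3 : (B - A) * Real.log ‖z‖ / Real.log r ≤ B - A := by
    rw [div_le_iff_of_neg hl]
    exact mul_le_mul_of_nonneg_left h2 (by linarith)
  unfold hf
  linarith

/-- The logarithmic barrier in a ring. -/
lemma barrier {f : ℂ → ℝ} {y : ℂ} {R ε m : ℝ} (hε : 0 < ε) (hεR : ε < R)
    (hf : Sub (fun z => -f z) (ball y R)) (h0 : ∀ z ∈ ball y R, 0 ≤ f z)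
    (hm : ∀ z ∈ closedBall y ε, m ≤ f z) {w : ℂ} (hw1 : ε < ‖w - y‖) (hw2 : ‖w - y‖ < R) :
    m / (Real.log R - Real.log ε) * (Real.log R - Real.log ‖w - y‖) ≤ f w := by
  have hl : 0 < Real.log R - Real.log ε := sub_pos.2 (Real.log_lt_log hε hεR)
  set k := m / (Real.log R - Real.log ε) with hk
  set O : Set ℂ := ball y R \ closedBall y ε with hO
  have hOo : IsOpen O := isOpen_ball.sdiff isClosed_closedBall
  have hne : ∀ z : ℂ, ε ≤ ‖z - y‖ → z ≠ y := by
    intro z hz h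
    rw [h, sub_self, norm_zero] at hz
    linarith
  have hOy : ∀ z ∈ O, ε < ‖z - y‖ ∧ ‖z - y‖ < R := by
    intro z hz
    have h1 := hz.1
    have h2 := hz.2
    rw [mem_ball, dist_eq_norm] at h1
    rw [mem_closedBall, dist_eq_norm, not_le] at h2
    exact ⟨h2, h1⟩
  have hs : Sub (fun z => -f z + k * (Real.log R - Real.log ‖z - y‖)) O :=
    (hf.mono sdiff_subset).add_harm fun z hz => harm_bar k _ (hne z (hOy z hz).1.le)
  have key := hs.mp0 hOo (isBounded_ball.subset sdiff_subset) (c := 0) ?_ w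
    ⟨by rwa [mem_ball, dist_eq_norm], by rwa [mem_closedBall, dist_eq_norm, not_le]⟩
  · linarith
  intro p hp
  rw [hOo.frontier_eq] at hp
  have hcl : ε ≤ ‖p - y‖ ∧ ‖p - y‖ ≤ R := by
    have hn : Continuous fun z : ℂ => ‖z - y‖ := by fun_prop
    have hc : IsClosed ({z : ℂ | ε ≤ ‖z - y‖} ∩ {z : ℂ | ‖z - y‖ ≤ R}) :=
      (isClosed_le continuous_const hn).inter (isClosed_le hn continuous_const)
    have hs' : O ⊆ {z : ℂ | ε ≤ ‖z - y‖} ∩ {z : ℂ | ‖z - y‖ ≤ R} :=
      fun z hz => ⟨(hOy z hz).1.le, (hOy z hz).2.le⟩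
    exact closure_minimal hs' hc hp.1
  have ht : Tendsto (fun z => k * (Real.log R - Real.log ‖z - y‖)) (𝓝[O] p)
      (𝓝 (k * (Real.log R - Real.log ‖p - y‖))) :=
    ((harm_diff (harm_bar k _ (hne p hcl.1))).continuousAt.tendsto).mono_left nhdsWithin_le_nhds
  rcases hcl.2.eq_or_lt with h | h
  · have h1 : LS (fun z => -f z) O p 0 := LS.of_eventually <| by
      filter_upwards [self_mem_nhdsWithin] with z hz
      have := h0 z hz.1
      linarith
    have := h1.add (LS.of_tendsto ht le_rfl)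
    rw [h] at this
    simpa using this
  · have hpb : p ∈ ball y R := by rwa [mem_ball, dist_eq_norm]
    have hpc : p ∈ closedBall y ε := by
      by_contra hc
      exact hp.2 ⟨hpb, hc⟩
    have he : ‖p - y‖ = ε := le_antisymm (by rwa [mem_closedBall, dist_eq_norm] at hpc) hcl.1
    have h1 : LS (fun z => -f z) O p (-f p) := LS.of_usc hf.1 hpb sdiff_subset
    have := h1.add (LS.of_tendsto ht le_rfl)
    refine this.le ?_
    rw [he, hk, div_mul_cancel₀ _ hl.ne']
    have := hm p hpc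
    linarith

/-- Uniform positivity spreads through a connected open set. -/
lemma spread {U : Set ℂ} (hU : IsOpen U) (hc : IsPreconnected U) (P : (ℂ → ℝ) → Prop)
    (hP : ∀ f, P f → Sub (fun z => -f z) U ∧ ∀ z ∈ U, 0 ≤ f z) {q : ℂ} (hq : q ∈ U) {s c : ℝ}
    (hs : 0 < s) (hc0 : 0 < c) (hq' : ∀ f, P f → ∀ z ∈ ball q s, c ≤ f z) :
    ∀ y ∈ U, ∃ ε > 0, ∃ m > 0, ∀ f, P f → ∀ z ∈ ball y ε, m ≤ f z := by
  set G : Set ℂ := {y | ∃ ε > 0, ∃ m > 0, ∀ f, P f → ∀ z ∈ ball y ε, m ≤ f z} with hG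
  have hGo : IsOpen G := by
    rw [Metric.isOpen_iff]
    rintro y ⟨ε, hε, m, hm, h⟩
    refine ⟨ε / 2, by linarith, fun x hx => ⟨ε / 2, by linarith, m, hm, fun f hf z hz => ?_⟩⟩
    refine h f hf z ?_
    rw [mem_ball] at *
    linarith [dist_triangle z x y]
  refine hc.subset_of_closure_inter_subset hGo ⟨q, hq, s, hs, c, hc0, hq'⟩ ?_
  rintro x ⟨hxc, hxU⟩
  obtain ⟨δ, hδ, hb⟩ := Metric.isOpen_iff.1 hU x hxU
  obtain ⟨y, ⟨ε, hε, m, hm, h⟩, hxy⟩ := Metric.mem_closure_iff.1 hxc (δ / 4) (by linarith)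
  set e := min (ε / 2) (δ / 4) with he
  have he0 : 0 < e := lt_min (by linarith) (by linarith)
  have he1 : e ≤ ε / 2 := min_le_left _ _
  have he2 : e ≤ δ / 4 := min_le_right _ _
  have hsub : ball y (3 * δ / 4) ⊆ U := by
    intro z hz
    apply hb
    rw [mem_ball] at *
    linarith [dist_triangle z y x, dist_comm x y]
  have hl : 0 < Real.log (3 * δ / 4) - Real.log e := sub_pos.2 (Real.log_lt_log he0 (by linarith))
  have hl2 : 0 < Real.log (3 * δ / 4) - Real.log (δ / 2) :=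
    sub_pos.2 (Real.log_lt_log (by linarith) (by linarith))
  refine ⟨δ / 4, by linarith,
    min m (m / (Real.log (3 * δ / 4) - Real.log e) * (Real.log (3 * δ / 4) - Real.log (δ / 2))),
    lt_min hm (by positivity), fun f hf z hz => ?_⟩
  have hme : ∀ z ∈ closedBall y e, m ≤ f z := fun z hz =>
    h f hf z (closedBall_subset_ball (by linarith) hz)
  by_cases hz1 : z ∈ closedBall y e
  · exact (min_le_left _ _).trans (hme z hz1)
  · rw [mem_closedBall, dist_eq_norm, not_le] at hz1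
    have hz2 : ‖z - y‖ ≤ δ / 2 := by
      rw [← dist_eq_norm]
      rw [mem_ball] at hz
      linarith [dist_triangle z x y]
    have := barrier he0 (by linarith : e < 3 * δ / 4) ((hP f hf).1.mono hsub)
      (fun z hz => (hP f hf).2 z (hsub hz)) hme hz1 (by linarith)
    refine (min_le_right _ _).trans (le_trans ?_ this)
    have h3 : Real.log ‖z - y‖ ≤ Real.log (δ / 2) := Real.log_le_log (by linarith) hz2
    exact mul_le_mul_of_nonneg_left (by linarith) (by positivity)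

end Na01P

open Na01P in
theorem na1 (h : S_DIR) : S_NA1 := by
  intro r x₀ q s c hr hx₀ hxi hs hq hc
  have _ := h
  have hUo : IsOpen (ann r ∩ upH) := (isOpen_ann r).inter isOpen_upH
  obtain ⟨δ₀, hδ₀, hb⟩ := Metric.isOpen_iff.1 (isOpen_ann r) x₀ hx₀
  set δ := δ₀ / 2 with hδ
  have hδ0 : 0 < δ := by linarith
  set y : ℂ := x₀ + δ * I with hy
  have hsub : ball y δ ⊆ ann r ∩ upH := by
    intro z hz
    rw [mem_ball, dist_eq_norm] at hz
    constructor
    · apply hb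
      rw [mem_ball, dist_eq_norm]
      have e : z - x₀ = (z - y) + δ * I := by rw [hy]; ring
      have h1 : ‖(δ : ℂ) * I‖ = δ := by simp [abs_of_pos hδ0]
      have := norm_add_le (z - y) (δ * I)
      rw [e]
      linarith
    · have h1 := (abs_le.1 ((abs_im_le_norm (z - y)).trans hz.le)).1
      have h2 := abs_lt.1 ((abs_im_le_norm (z - y)).trans_lt hz)
      have e : (z - y).im = z.im - δ := by simp [hy, hxi]
      rw [e] at h2
      show 0 < z.im
      linarith [h2.1]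
  obtain ⟨ε, hε, m, hm, hP⟩ := spread hUo (preconn_upper hr)
    (fun f => Sub (fun z => -f z) (ann r ∩ upH) ∧ (∀ z ∈ ann r ∩ upH, 0 ≤ f z) ∧
      ∀ z ∈ closedBall q s, c ≤ f z) (fun f hf => ⟨hf.1, hf.2.1⟩)
    (hq (mem_closedBall_self hs.le)) hs hc
    (fun f hf z hz => hf.2.2 z (ball_subset_closedBall hz)) y (hsub (mem_ball_self hδ0))
  set e := min (ε / 2) (δ / 2) with he
  have he0 : 0 < e := lt_min (by linarith) (by linarith)
  have he1 : e ≤ ε / 2 := min_le_left _ _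
  have he2 : e ≤ δ / 2 := min_le_right _ _
  have hl : 0 < Real.log δ - Real.log e := sub_pos.2 (Real.log_lt_log he0 (by linarith))
  refine ⟨m / (Real.log δ - Real.log e) / δ, by positivity, fun f h1 h2 h3 => ?_⟩
  filter_upwards [Ioo_mem_nhdsGT (show (0 : ℝ) < δ / 2 by linarith)] with τ hτ
  have hn : ‖x₀ + τ * I - y‖ = δ - τ := by
    have e : x₀ + τ * I - y = ((τ - δ : ℝ) : ℂ) * I := by rw [hy]; push_cast; ring
    rw [e, norm_mul, norm_I, mul_one, Complex.norm_real, Real.norm_eq_abs,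
      abs_of_neg (by linarith [hτ.2])]
    ring
  have := barrier he0 (by linarith : e < δ) (h1.mono hsub) (fun z hz => h2 z (hsub hz))
    (fun z hz => hP f ⟨h1, h2, h3⟩ z (closedBall_subset_ball (by linarith) hz))
    (w := x₀ + τ * I) (by rw [hn]; linarith [hτ.2]) (by rw [hn]; linarith [hτ.1])
  refine le_trans ?_ this
  rw [hn]
  have h4 : τ / δ ≤ Real.log δ - Real.log (δ - τ) := by
    have h5 := Real.log_le_sub_one_of_pos (show 0 < (δ - τ) / δ by
      apply div_pos <;> linarith [hτ.2])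
    rw [Real.log_div (by linarith [hτ.2]) hδ0.ne'] at h5
    have e : (δ - τ) / δ - 1 = -(τ / δ) := by field_simp; ring
    linarith
  calc m / (Real.log δ - Real.log e) / δ * τ = m / (Real.log δ - Real.log e) * (τ / δ) := by ring
    _ ≤ _ := mul_le_mul_of_nonneg_left h4 (by positivity)

open Na01P in
theorem na0 (h : S_CRIT1) : S_NA0 := by
  intro r A B b₀ hr0 hr1 hA hB hb₀
  have hb0 : b₀ ≠ 0 := by
    intro h0
    rw [h0, norm_zero] at hb₀
    linarith
  have hcont : ContinuousAt (hf r A B) b₀ := (harm_diff (hf_harm r A B hb0)).continuousAt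
  have hev : ∀ᶠ z in 𝓝 b₀, B / 2 < hf r A B z := by
    apply hcont.eventually (lt_mem_nhds _)
    rw [hf_inner hr0 hr1 A B hb₀]
    linarith
  obtain ⟨ρ₀, hρ₀, hball⟩ := Metric.eventually_nhds_iff.1 hev
  set ρ₁ := min (ρ₀ / 2) ((1 - r) / 2) with hρ₁
  have p0 : 0 < ρ₁ := lt_min (by linarith) (by linarith)
  have p1 : ρ₁ ≤ ρ₀ / 2 := min_le_left _ _
  have p2 : ρ₁ ≤ (1 - r) / 2 := min_le_right _ _
  have p3 : ρ₁ ^ 2 / 2 < ρ₁ := by nlinarith
  refine ⟨ρ₁ ^ 2 / 2, by positivity, fun z₀ z₁ a b c κ v g hC hK hsub => ?_⟩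
  have hκ1 : ‖κ 1 - b₀‖ < ρ₁ := by
    have := hsub ⟨1, by simp, rfl⟩
    rw [mem_ball, dist_eq_norm] at this
    linarith
  rcases hA.eq_or_lt with hA0 | hA0
  · have h1 := (hK.end_zero hA0).1
    have h2 := (abs_le.1 (abs_norm_sub_norm_le (κ 1) b₀)).2
    linarith
  obtain ⟨-, -, -, T, hTc, hT0, hTm, hTl⟩ := hK.end_neg hA0
  obtain ⟨-, -, -, ⟨S, hS, hSv⟩, -⟩ := h r A B z₀ z₁ a b c κ v g hC hK
  set K := κ '' Icc 0 1 with hKd
  have hKc : IsCompact K := isCompact_Icc.image_of_continuousOn hK.cont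
  have hUo : IsOpen (ann r \ K) := (isOpen_ann r).sdiff hKc.isClosed
  have hLg : 0 < Real.log 2 - Real.log ρ₁ := sub_pos.2 (Real.log_lt_log p0 (by linarith))
  set k := B / (2 * (Real.log 2 - Real.log ρ₁)) with hk
  have hk0 : 0 < k := by positivity
  have hne : ∀ z ∈ ann r, z ≠ b₀ := by
    rintro z hz rfl
    exact absurd hb₀ hz.1.ne'
  have hne0 : ∀ z : ℂ, r ≤ ‖z‖ → z ≠ 0 := by
    rintro z hz rfl
    rw [norm_zero] at hz
    linarith
  have hbar : ∀ z ∈ ann r, 0 ≤ k * (Real.log 2 - Real.log ‖z - b₀‖) := by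
    intro z hz
    refine mul_nonneg hk0.le (sub_nonneg.2 (Real.log_le_log
      (norm_pos_iff.2 (sub_ne_zero.2 (hne z hz))) ?_))
    have := norm_sub_le z b₀
    linarith [hz.2]
  have hbar2 : ∀ z ∈ ann r, z ∈ ball b₀ (ρ₁ ^ 2 / 2) →
      B ≤ k * (Real.log 2 - Real.log ‖z - b₀‖) := by
    intro z hz hzb
    rw [mem_ball, dist_eq_norm] at hzb
    have h1 := Real.log_le_log (norm_pos_iff.2 (sub_ne_zero.2 (hne z hz))) hzb.le
    rw [Real.log_div (by positivity) (by norm_num), Real.log_pow] at h1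
    have e : B = k * (2 * (Real.log 2 - Real.log ρ₁)) := by rw [hk]; field_simp
    rw [e]
    refine mul_le_mul_of_nonneg_left ?_ hk0.le
    push_cast at h1
    linarith
  have hharm : HarmonicOnNhd
      (fun z => hf r A B z - k * (Real.log 2 - Real.log ‖z - b₀‖) - v z) (ann r \ K) :=
    fun z hz => ((hf_harm r A B (hne0 z hz.1.1.le)).sub (harm_bar k _ (hne z hz.1))).sub
      (hK.v_harm z hz)
  obtain ⟨C, hCv⟩ := hK.v_bdd
  have key := (Sub.of_harm hharm).mpx hUo ((bdd_ann r).subset sdiff_subset)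
    ⟨B + C, fun z hz => by
      have h1 := hf_le hr0 hr1 (by linarith : A ≤ B) hz.1.1.le
      have h2 := hbar z hz.1
      have h3 := (abs_le.1 (hCv z hz.1)).1
      linarith⟩ hS (c := 0) ?_
  · -- the curve `T` crosses the circle of radius `ρ₁`
    have hev1 : ∀ᶠ t in 𝓝[<] (1 : ℝ), r + ρ₁ < ‖T t‖ := hTl.eventually (lt_mem_nhds (by linarith))
    obtain ⟨t₁, ht₁, ht₁'⟩ := (hev1.and (Ioo_mem_nhdsLT (show (0 : ℝ) < 1 by norm_num))).exists
    have hc2 : ContinuousOn (fun t => ‖T t - b₀‖) (Icc 0 t₁) :=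
      ((hTc.mono (Icc_subset_Ico_right ht₁'.2)).sub continuousOn_const).norm
    have hge : ρ₁ ≤ ‖T t₁ - b₀‖ := by
      have := (abs_le.1 (abs_norm_sub_norm_le (T t₁) b₀)).2
      linarith
    obtain ⟨t, ht, hte⟩ := intermediate_value_Icc ht₁'.1.le hc2
      (show ρ₁ ∈ Icc ‖T 0 - b₀‖ ‖T t₁ - b₀‖ from ⟨by rw [hT0]; exact hκ1.le, hge⟩)
    have hte' : ‖T t - b₀‖ = ρ₁ := hte
    have ht0 : 0 < t := by
      refine lt_of_le_of_ne ht.1 ?_
      rintro rfl
      rw [hT0] at hte'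
      linarith
    obtain ⟨h1, h2⟩ := hTm t ⟨ht0, ht.2.trans_lt ht₁'.2⟩
    have h3 : T t ∉ K := fun hm => h2.ne (hK.v_zero _ h1 hm)
    have h4 := key (T t) ⟨h1, h3⟩
    have h5 := hball (show dist (T t) b₀ < ρ₀ by rw [dist_eq_norm, hte']; linarith)
    have e : k * (Real.log 2 - Real.log ρ₁) = B / 2 := by rw [hk]; field_simp
    simp only [hte', e] at h4
    linarith
  intro p hp hpS
  rw [hUo.frontier_eq] at hp
  have hpc : p ∈ cann r := by
    rw [← closure_ann hr0 hr1]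
    exact closure_mono sdiff_subset hp.1
  have hmono : 𝓝[ann r \ K] p ≤ 𝓝[ann r] p := nhdsWithin_mono _ sdiff_subset
  have hhf : Tendsto (hf r A B) (𝓝[ann r \ K] p) (𝓝 (hf r A B p)) :=
    ((harm_diff (hf_harm r A B (hne0 p hpc.1))).continuousAt.tendsto).mono_left nhdsWithin_le_nhds
  have case1 : Tendsto v (𝓝[ann r] p) (𝓝 (hf r A B p)) →
      LS (fun z => hf r A B z - k * (Real.log 2 - Real.log ‖z - b₀‖) - v z) (ann r \ K) p 0 := by
    intro hv
    have h1 := LS.of_tendsto (hhf.sub (hv.mono_left hmono)) (d := 0) (by simp)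
    refine h1.of_le ?_
    filter_upwards [self_mem_nhdsWithin] with z hz
    have := hbar z hz.1
    linarith
  have case2 : p ∈ K → Tendsto v (𝓝[ann r] p) (𝓝 0) →
      LS (fun z => hf r A B z - k * (Real.log 2 - Real.log ‖z - b₀‖) - v z) (ann r \ K) p 0 := by
    intro hpK hv
    have h1 := LS.of_tendsto (hv.mono_left hmono).neg (d := 0) (by simp)
    refine h1.of_le ?_
    filter_upwards [self_mem_nhdsWithin,
      mem_nhdsWithin_of_mem_nhds (isOpen_ball.mem_nhds (hsub hpK))] with z hz hzb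
    have h2 := hbar2 z hz.1 hzb
    have h3 := hf_le hr0 hr1 (by linarith : A ≤ B) hz.1.1.le
    linarith
  rcases hpc.2.eq_or_lt with h1 | h1
  · exact case1 (by rw [hf_outer r A B h1]; exact hK.v_outer p h1)
  by_cases hpK : p ∈ K
  · rcases hpc.1.eq_or_lt with h2 | h2
    · obtain ⟨t, ht, rfl⟩ := hpK
      exact case2 ⟨t, ht, rfl⟩ (hSv t ht h2.symm hpS)
    · refine case2 hpK ?_
      have := hK.v_cont p ⟨h2, h1⟩
      rwa [ContinuousWithinAt, hK.v_zero p ⟨h2, h1⟩ hpK] at this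
  · rcases hpc.1.eq_or_lt with h2 | h2
    · exact case1 (by rw [hf_inner hr0 hr1 A B h2.symm]; exact hK.v_inner p h2.symm hpK)
    · exact absurd ⟨⟨h2, h1⟩, hpK⟩ hp.2

end Pool.Agent.P.MP_3bd355_an
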