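import Pool.Agent.P.MP_3bd355_an.Stmts

/-! A uniform lower bound for the imaginary part of the residue at the real point `z₀`. -/

open Set Filter Metric Complex InnerProductSpace
open scoped Topology ComplexConjugate Real

namespace Pool.Agent.P.MP_3bd355_an

namespace Na2P

theorem isOpen_U (r : ℝ) : IsOpen (ann r ∩ upH) := (isOpen_ann r).inter isOpen_upH

theorem frontier_U {r : ℝ} (h0 : 0 < r) (h1 : r < 1) {p : ℂ} (hp : p ∈ frontier (ann r ∩ upH)) :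
    ‖p‖ = r ∨ ‖p‖ = 1 ∨ (p ∈ ann r ∧ p.im = 0) := by
  have hc : p ∈ closure (ann r ∩ upH) := frontier_subset_closure hp
  have hn : p ∉ ann r ∩ upH := by
    rw [(isOpen_U r).frontier_eq] at hp
    exact hp.2
  have h2 : p ∈ cann r := by
    rw [← closure_ann h0 h1]
    exact closure_mono inter_subset_left hc
  have h3 : 0 ≤ p.im := by
    have : closure (ann r ∩ upH) ⊆ {z : ℂ | 0 ≤ z.im} :=
      closure_minimal (fun z hz => (show (0 : ℝ) < z.im from hz.2).le)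
        (isClosed_le continuous_const continuous_im)
    exact this hc
  rcases h2.1.eq_or_lt with h | h
  · exact Or.inl h.symm
  rcases h2.2.eq_or_lt with h' | h'
  · exact Or.inr (Or.inl h')
  refine Or.inr (Or.inr ⟨⟨h, h'⟩, ?_⟩)
  rcases h3.eq_or_lt with h4 | h4
  · exact h4.symm
  · exact absurd ⟨⟨h, h'⟩, h4⟩ hn

/-- The lower bound near the reflected point. -/
theorem lb (hB : S_BL) {r A B : ℝ} {b₀ : ℂ} (h0 : 0 < r) (h1 : r < 1) (hA : A ≤ 0) (hB0 : 0 < B)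
    (hb : ‖b₀‖ = r) (hi : b₀.im < 0) : ∃ ρ > 0, ∀ v : ℂ → ℝ, HarmonicOnNhd v (ann r ∩ upH) →
      (∀ z ∈ ann r, A ≤ v z) → (∀ p : ℂ, ‖p‖ = r → Tendsto v (𝓝[ann r] p) (𝓝 B)) →
      ∀ z ∈ ann r ∩ upH, z ∈ ball (conj b₀) ρ → 3 * B / 4 ≤ v z := by
  have hBA : 0 < B - A := by linarith
  obtain ⟨δ, hδ0, -, hδ⟩ := hB (B / (4 * (B - A))) (by positivity)
  set ρ : ℝ := min (-b₀.im) (1 - r) with hρ
  have hρ0 : 0 < ρ := lt_min (by linarith) (by linarith)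
  have him : ∀ q ∈ ball (conj b₀) ρ, 0 < q.im := by
    intro q hq
    rw [mem_ball, dist_eq_norm] at hq
    have h2 := (abs_im_le_norm (q - conj b₀)).trans_lt (hq.trans_le (min_le_left _ _))
    rw [sub_im, conj_im, abs_lt] at h2
    linarith [h2.1]
  have hlt : ∀ q ∈ ball (conj b₀) ρ, ‖q‖ < 1 := by
    intro q hq
    rw [mem_ball, dist_eq_norm] at hq
    have h2 := hq.trans_le (min_le_right _ _)
    have h3 := norm_le_insert' q (conj b₀)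
    rw [norm_conj, hb] at h3
    linarith
  refine ⟨δ * ρ, by positivity, fun v hv hlo hin z hz hzb => ?_⟩
  have hsub : Sub (fun y => (B - A)⁻¹ * (B - v y)) (ann r ∩ upH) :=
    ((Sub.const B _).sub_harm hv).const_mul (by positivity)
  have key := hδ (conj b₀) ρ (sphere 0 r) (ann r ∩ upH) ∅ (fun y => (B - A)⁻¹ * (B - v y)) hρ0
    (isCompact_sphere _ _)
    (isPreconnected_sphere (by rw [Complex.rank_real_complex]; norm_num) _ _)
    (by simpa using hb)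
    (fun h => by
      have := him b₀ (h (by simpa using hb))
      linarith)
    (isOpen_U r)
    (by
      rw [Set.disjoint_left]
      intro q hq hq'
      have h2 : ‖q‖ = r := by simpa using hq
      exact absurd hq'.1.1 (by rw [h2]; exact lt_irrefl _))
    finite_empty hsub
    (fun y hy => by
      rw [inv_mul_le_iff₀ hBA]
      linarith [hlo y hy.1])
    (fun q hq hqb _ => by
      have h2 : ‖q‖ = r := by
        rcases frontier_U h0 h1 hq with h | h | h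
        · exact h
        · exact absurd (hlt q hqb) (by rw [h]; exact lt_irrefl _)
        · exact absurd (him q hqb) (by rw [h.2]; exact lt_irrefl _)
      have h3 : Tendsto (fun y => (B - A)⁻¹ * (B - v y)) (𝓝[ann r ∩ upH] q)
          (𝓝 ((B - A)⁻¹ * (B - B))) :=
        (tendsto_const_nhds.sub ((hin q h2).mono_left
          (nhdsWithin_mono _ inter_subset_left))).const_mul _
      exact LS.of_tendsto h3 (by simp))
    z hz hzb
  rw [inv_mul_le_iff₀ hBA] at key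
  have : (B - A) * (B / (4 * (B - A))) = B / 4 := by field_simp
  linarith

/-- The odd part is nonnegative in the upper half annulus. -/
theorem odd_nonneg {r A B : ℝ} (h0 : 0 < r) (h1 : r < 1) {v : ℂ → ℝ} (hs : Sub v (ann r))
    (hh : HarmonicOnNhd v (ann r ∩ upH)) (hc : ContinuousOn v (ann r))
    (hA : ∀ p : ℂ, ‖p‖ = 1 → Tendsto v (𝓝[ann r] p) (𝓝 A))
    (hB : ∀ p : ℂ, ‖p‖ = r → Tendsto v (𝓝[ann r] p) (𝓝 B)) :
    Sub (fun z => -(v z - v (conj z))) (ann r ∩ upH) ∧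
      ∀ z ∈ ann r ∩ upH, 0 ≤ v z - v (conj z) := by
  have hsub : Sub (fun z => -(v z - v (conj z))) (ann r ∩ upH) :=
    ((hs.comp_conj (fun z hz => conj_mem_ann.2 hz.1)).sub_harm hh).congr
      (fun z _ => by simp)
  refine ⟨hsub, fun z hz => ?_⟩
  have key := hsub.mp0 (isOpen_U r) ((bdd_ann r).subset inter_subset_left) (c := 0) ?_ z hz
  · linarith
  intro p hp
  have hcj : Tendsto (fun y : ℂ => conj y) (𝓝[ann r ∩ upH] p) (𝓝[ann r] (conj p)) := by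
    refine tendsto_nhdsWithin_iff.2 ⟨?_, ?_⟩
    · exact (continuous_conj.tendsto p).mono_left nhdsWithin_le_nhds
    · filter_upwards [self_mem_nhdsWithin] with y hy using conj_mem_ann.2 hy.1
  obtain ⟨l, h2, h3⟩ : ∃ l : ℝ, Tendsto v (𝓝[ann r] p) (𝓝 l) ∧
      Tendsto v (𝓝[ann r] (conj p)) (𝓝 l) := by
    rcases frontier_U h0 h1 hp with h | h | h
    · exact ⟨B, hB p h, hB _ (by rw [norm_conj, h])⟩
    · exact ⟨A, hA p h, hA _ (by rw [norm_conj, h])⟩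
    · refine ⟨v p, hc p h.1, ?_⟩
      rw [conj_eq_iff_im.2 h.2]
      exact hc p h.1
  have h4 : Tendsto (fun z => -(v z - v (conj z))) (𝓝[ann r ∩ upH] p) (𝓝 (-(l - l))) :=
    ((h2.mono_left (nhdsWithin_mono _ inter_subset_left)).sub (h3.comp hcj)).neg
  exact LS.of_tendsto h4 (by simp)

theorem deriv_lb {v : ℂ → ℝ} {z₀ : ℂ} (hd : DifferentiableAt ℝ v z₀) (him : z₀.im = 0) {c : ℝ}
    (h : ∀ᶠ τ : ℝ in 𝓝[>] 0, c * τ ≤ v (z₀ + τ * I) - v (conj (z₀ + τ * I))) :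
    c ≤ -2 * (grad v z₀).im := by
  have e1 : HasDerivAt (fun τ : ℝ => z₀ + τ * I) I 0 := by
    simpa using ((ofRealCLM.hasDerivAt (x := (0 : ℝ))).mul_const I).const_add z₀
  have e2 : HasDerivAt (fun τ : ℝ => z₀ - τ * I) (-I) 0 := by
    simpa using ((ofRealCLM.hasDerivAt (x := (0 : ℝ))).mul_const I).const_sub z₀
  have f1 : HasDerivAt (fun τ : ℝ => v (z₀ + τ * I)) (fderiv ℝ v z₀ I) 0 := by
    have : HasFDerivAt v (fderiv ℝ v z₀) (z₀ + (0 : ℝ) * I) := by simpa using hd.hasFDerivAt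
    exact this.comp_hasDerivAt (0 : ℝ) e1
  have f2 : HasDerivAt (fun τ : ℝ => v (z₀ - τ * I)) (fderiv ℝ v z₀ (-I)) 0 := by
    have : HasFDerivAt v (fderiv ℝ v z₀) (z₀ - (0 : ℝ) * I) := by simpa using hd.hasFDerivAt
    exact this.comp_hasDerivAt (0 : ℝ) e2
  have f3 := (f1.sub f2).tendsto_slope_zero_right
  have hg : (grad v z₀).im = -fderiv ℝ v z₀ I := by simp [grad]
  have f4 : c ≤ fderiv ℝ v z₀ I - fderiv ℝ v z₀ (-I) := by
    refine ge_of_tendsto f3 ?_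
    filter_upwards [h, self_mem_nhdsWithin] with τ hτ hτ0
    have hτ0' : 0 < τ := hτ0
    have : conj (z₀ + τ * I) = z₀ - τ * I := by
      rw [map_add, conj_eq_iff_im.2 him, map_mul, conj_ofReal, conj_I]
      ring
    rw [this] at hτ
    simp only [Pi.sub_apply, zero_add, ofReal_zero, zero_mul, add_zero, sub_zero, sub_self,
      smul_eq_mul]
    rw [le_inv_mul_iff₀ hτ0']
    linarith
  rw [map_neg] at f4
  rw [hg]
  linarith

/-- The first exit time from a disc. -/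
theorem exit {κ : ℝ → ℂ} (hκ : ContinuousOn κ (Icc 0 1)) {b : ℂ} {ρ : ℝ}
    (h0 : dist (κ 0) b ≤ ρ) (h1 : ∃ t ∈ Icc (0 : ℝ) 1, ρ ≤ dist (κ t) b) :
    ∃ t₁ ∈ Icc (0 : ℝ) 1, dist (κ t₁) b = ρ ∧ ∀ t ∈ Icc 0 t₁, dist (κ t) b ≤ ρ := by
  have hφ : ContinuousOn (fun t => dist (κ t) b) (Icc 0 1) :=
    (continuous_id.dist continuous_const).comp_continuousOn hκ
  have ivt : ∀ t ∈ Icc (0 : ℝ) 1, ρ ≤ dist (κ t) b → ∃ s ∈ Icc 0 t, dist (κ s) b = ρ :=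
    fun t ht hle => intermediate_value_Icc ht.1 (hφ.mono (Icc_subset_Icc_right ht.2)) ⟨h0, hle⟩
  have hcl : IsCompact (Icc (0 : ℝ) 1 ∩ (fun t => dist (κ t) b) ⁻¹' {ρ}) :=
    isCompact_Icc.of_isClosed_subset
      (hφ.preimage_isClosed_of_isClosed isClosed_Icc isClosed_singleton) inter_subset_left
  obtain ⟨t, ht, hle⟩ := h1
  obtain ⟨s, hs, hs'⟩ := ivt t ht hle
  obtain ⟨t₁, ht₁, hmin⟩ := hcl.exists_isLeast ⟨s, ⟨hs.1, hs.2.trans ht.2⟩, hs'⟩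
  refine ⟨t₁, ht₁.1, ht₁.2, fun u hu => ?_⟩
  by_contra hcon
  rw [not_le] at hcon
  have hu' : u ∈ Icc (0 : ℝ) 1 := ⟨hu.1, hu.2.trans ht₁.1.2⟩
  obtain ⟨s', hs1, hs2⟩ := ivt u hu' hcon.le
  have h3 : t₁ ≤ s' := hmin ⟨⟨hs1.1, hs1.2.trans hu'.2⟩, hs2⟩
  have h4 : s' = u := le_antisymm hs1.2 (hu.2.trans h3)
  rw [h4] at hs2
  linarith

/-- The data extracted from one critical configuration. -/
structure Dat (r A B ρ : ℝ) (b₀ : ℂ) (L : Set ℂ) (v : ℂ → ℝ) : Prop where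
  cont : Cont r L
  ball : L ⊆ closedBall b₀ ρ
  diam : ∃ x ∈ L, ∃ y ∈ L, ρ / 2 ≤ dist x y
  sub : Sub v (ann r)
  harm : HarmonicOnNhd v (ann r ∩ upH)
  vc : ContinuousOn v (ann r)
  lo : ∀ z ∈ ann r, A ≤ v z
  hi : ∀ z ∈ ann r, v z ≤ B
  outer : ∀ p : ℂ, ‖p‖ = 1 → Tendsto v (𝓝[ann r] p) (𝓝 A)
  inner : ∀ p : ℂ, ‖p‖ = r → Tendsto v (𝓝[ann r] p) (𝓝 B)
  zero : ∀ p ∈ L, p ∈ ann r ∧ v p = 0

theorem dat (hC1 : S_CRIT1) {r A B ρ : ℝ} {z₀ z₁ a b b₀ : ℂ} {c : ℝ} {κ : ℝ → ℂ} {v g : ℂ → ℝ}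
    (hch : CH r A B z₀ z₁) (h : Crit r A B z₀ z₁ a b c κ v g) (hρ : 0 < ρ) (hρ1 : r + ρ < 1)
    (hb : ‖b₀‖ = r) (hd : dist z₁ b₀ < ρ / 2) (hout : ¬ κ '' Icc 0 1 ⊆ ball b₀ ρ)
    (hr : ∀ t ∈ Icc (0 : ℝ) 1, r < ‖κ t‖) (him : ∀ t ∈ Icc (0 : ℝ) 1, (κ t).im ≤ 0) :
    ∃ L, Dat r A B ρ b₀ L v := by
  obtain ⟨hs, hbd, hca, -⟩ := hC1 r A B z₀ z₁ a b c κ v g hch h
  obtain ⟨t₁, ht₁, he, hle⟩ := exit h.cont (b := b₀) (ρ := ρ) (by rw [h.start]; linarith) (by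
    by_contra hcon
    refine hout ?_
    rintro _ ⟨t, ht, rfl⟩
    by_contra h2
    exact hcon ⟨t, ht, by simpa [mem_ball] using h2⟩)
  have hsubI : Icc 0 t₁ ⊆ Icc (0 : ℝ) 1 := Icc_subset_Icc_right ht₁.2
  have hκ : ContinuousOn κ (Icc 0 t₁) := h.cont.mono hsubI
  have hdiam : ρ / 2 ≤ dist (κ 0) (κ t₁) := by
    have := dist_triangle (κ t₁) (κ 0) b₀
    rw [he, dist_comm (κ t₁), h.start] at this
    rw [h.start]
    linarith
  have m0 : κ 0 ∈ κ '' Icc 0 t₁ := ⟨0, ⟨le_rfl, ht₁.1⟩, rfl⟩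
  have m1 : κ t₁ ∈ κ '' Icc 0 t₁ := ⟨t₁, ⟨ht₁.1, le_rfl⟩, rfl⟩
  refine ⟨κ '' Icc 0 t₁, ⟨hch.r0, hch.r1, isCompact_Icc.image_of_continuousOn hκ,
    isPreconnected_Icc.image _ hκ, ⟨κ 0, m0, κ t₁, m1, fun h2 => ?_⟩, ?_, ?_⟩, ?_,
    ⟨κ 0, m0, κ t₁, m1, hdiam⟩, hs, h.v_harm.mono ?_, h.v_cont, fun z hz => (hbd z hz).1,
    fun z hz => (hbd z hz).2, h.v_outer, fun p hp => h.v_inner p hp ?_, ?_⟩
  · rw [h2, dist_self] at hdiam
    linarith
  · rintro _ ⟨t, ht, rfl⟩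
    exact hca t (hsubI ht)
  · rintro _ ⟨t, ht, rfl⟩
    exact him t (hsubI ht)
  · rintro _ ⟨t, ht, rfl⟩
    exact hle t ht
  · rintro z ⟨hz, hz'⟩
    refine ⟨hz, ?_⟩
    rintro ⟨t, ht, rfl⟩
    exact absurd (show (0 : ℝ) < (κ t).im from hz') (not_lt.2 (him t ht))
  · rintro ⟨t, ht, rfl⟩
    exact absurd (hr t ht) (by rw [hp]; exact lt_irrefl _)
  · rintro _ ⟨t, ht, rfl⟩
    have h2 : κ t ∈ ann r := by
      refine ⟨hr t (hsubI ht), ?_⟩
      have h3 := hle t ht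
      rw [dist_eq_norm] at h3
      have h4 := norm_le_insert' (κ t) b₀
      linarith
    exact ⟨h2, h.v_zero _ h2 ⟨t, hsubI ht, rfl⟩⟩

theorem Dat.le {r A B ρ : ℝ} {b₀ : ℂ} {L : Set ℂ} {v w : ℂ → ℝ} (h : Dat r A B ρ b₀ L v)
    (hA : A ≤ 0) (hw : Sol r 0 B L w) : ∀ z ∈ main r L, v z ≤ w z := by
  have hm : main r L ⊆ ann r := fun z hz => (main_sub r L hz).1
  refine Sol.ge h.cont hw (h.sub.mono hm) ⟨B, fun z hz => h.hi z (hm hz)⟩ finite_empty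
    (fun p hp _ => ?_) (fun p hp _ => ?_) (fun p hp => ?_)
  · exact (LS.of_tendsto (h.vc p (h.zero p hp).1) (h.zero p hp).2.le).mono hm
  · exact (LS.of_tendsto (h.outer p hp) hA).mono hm
  · exact (LS.of_tendsto (h.inner p hp.1) le_rfl).mono hm

/-- Along a subsequence the functions are small on a fixed disc. -/
theorem small (hL : S_LIM) (hE : S_SOLEX) {r A B ρ : ℝ} {b₀ : ℂ} {Ls : ℕ → Set ℂ}
    {vs : ℕ → ℂ → ℝ} (hA : A ≤ 0) (hB : 0 < B) (hρ : 0 < ρ)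
    (h : ∀ k, Dat r A B ρ b₀ (Ls k) (vs k)) :
    ∃ (q : ℂ) (s : ℝ), 0 < s ∧ closedBall q s ⊆ ann r ∩ ball b₀ (2 * ρ) ∧
      ∃ᶠ k in atTop, ∀ z ∈ closedBall q s, vs k z ≤ B / 4 := by
  obtain ⟨σ, L, hσ, hLc, hH⟩ := blaschke (half_pos hρ) (fun k => (h k).cont) (fun k => (h k).diam)
  choose ws hws using fun k => hE r 0 B (Ls (σ k)) (h (σ k)).cont (Or.inl rfl)
  obtain ⟨w, hw⟩ := hE r 0 B L hLc (Or.inl rfl)
  obtain ⟨hlim, -⟩ := hL r 0 B (fun k => Ls (σ k)) L ws w hLc (fun k => (h (σ k)).cont) hH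
    (Or.inl rfl) (fun _ => Or.inl rfl) hws hw
  obtain ⟨p, hpL, hpf, hpE⟩ := hLc.exists_hidden
  have hpb : p ∈ ball b₀ (2 * ρ) := by
    obtain ⟨k, y, hy, hyp⟩ := (hH.near hpL hρ).exists
    have h2 : dist y b₀ ≤ ρ := (h (σ k)).ball hy
    have h3 := dist_triangle p y b₀
    rw [dist_comm p y] at h3
    rw [mem_ball]
    linarith
  have : (𝓝[main r L] p).NeBot := mem_closure_iff_nhdsWithin_neBot.1 (frontier_subset_closure hpf)
  have h1 : ∀ᶠ z in 𝓝[main r L] p, w z < B / 8 :=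
    (hw.atL p hpL hpE).eventually (gt_mem_nhds (by positivity))
  have h2 : ∀ᶠ z in 𝓝[main r L] p, z ∈ ball b₀ (2 * ρ) :=
    mem_nhdsWithin_of_mem_nhds (isOpen_ball.mem_nhds hpb)
  obtain ⟨q, hq1, hq2, hq3⟩ := (h1.and (h2.and self_mem_nhdsWithin)).exists
  have h3 : ∀ᶠ z in 𝓝 q, w z < B / 8 ∧ z ∈ ball b₀ (2 * ρ) ∧ z ∈ main r L :=
    ((harm_diff (hw.harm q hq3)).continuousAt.eventually (gt_mem_nhds hq1)).and
      ((show ∀ᶠ z in 𝓝 q, z ∈ ball b₀ (2 * ρ) from isOpen_ball.mem_nhds hq2).and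
        (hLc.isOpen_main.mem_nhds hq3))
  obtain ⟨s, hs, hsub⟩ := nhds_basis_closedBall.mem_iff.1 h3
  have hm : closedBall q s ⊆ main r L := fun z hz => (hsub hz).2.2
  refine ⟨q, s, hs, fun z hz => ⟨(main_sub r L (hm hz)).1, (hsub hz).2.1⟩, ?_⟩
  have hu : TendstoUniformlyOn ws w atTop (closedBall q s) :=
    (tendstoLocallyUniformlyOn_iff_forall_isCompact hLc.isOpen_main).1 hlim _ hm
      (isCompact_closedBall _ _)
  have h4 := Metric.tendstoUniformlyOn_iff.1 hu (B / 8) (by positivity)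
  have h5 := hH.kern hLc (isCompact_closedBall q s) hm
  refine hσ.tendsto_atTop.frequently (Eventually.frequently ?_)
  filter_upwards [h4, h5] with k hk hk' z hz
  have h6 := (h (σ k)).le hA (hws k) z (hk' hz)
  have h7 := hk z hz
  rw [Real.dist_eq, abs_lt] at h7
  have h8 := (hsub hz).1
  linarith [h7.1]

end Na2P

open Na2P in
theorem na2 (hB : S_BL) (hL : S_LIM) (hE : S_SOLEX) (h0 : S_NA0) (h1 : S_NA1) (hC1 : S_CRIT1)
    (hC2 : S_CRIT2) : S_NA2 := by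
  intro r A B z₀ b₀ hr hz₀ him₀ hA hB0 hb hbi
  have hr1 : r < 1 := hz₀.1.trans hz₀.2
  obtain ⟨ρa, hρa, hout⟩ := h0 r A B b₀ hr hr1 hA hB0 hb
  obtain ⟨ρb, hρb, hlb⟩ := lb hB hr hr1 hA hB0 hb hbi
  obtain ⟨ρ, hρ, e1, e2, e3, e4⟩ : ∃ ρ : ℝ, 0 < ρ ∧ ρ ≤ ρa ∧ 2 * ρ ≤ ρb ∧ 2 * ρ ≤ -b₀.im ∧
      r + ρ < 1 := by
    refine ⟨min (min ρa (ρb / 2)) (min (-b₀.im / 2) ((1 - r) / 2)),
      lt_min (lt_min hρa (by linarith)) (lt_min (by linarith) (by linarith)), ?_, ?_, ?_, ?_⟩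
    · exact (min_le_left _ _).trans (min_le_left _ _)
    · linarith [(min_le_left (min ρa (ρb / 2)) (min (-b₀.im / 2) ((1 - r) / 2))).trans
        (min_le_right _ _)]
    · linarith [(min_le_right (min ρa (ρb / 2)) (min (-b₀.im / 2) ((1 - r) / 2))).trans
        (min_le_left _ _)]
    · linarith [(min_le_right (min ρa (ρb / 2)) (min (-b₀.im / 2) ((1 - r) / 2))).trans
        (min_le_right _ _)]
  by_contra hcon
  have hseq : ∀ k : ℕ, ∃ (L : Set ℂ) (v : ℂ → ℝ), Dat r A B ρ b₀ L v ∧ DifferentiableAt ℝ v z₀ ∧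
      |(z₀ * grad v z₀ / 2).im| < 1 / ((k : ℝ) + 1) := by
    intro k
    by_contra h2
    refine hcon ⟨1 / ((k : ℝ) + 1), by positivity, ρ / 2, half_pos hρ, ?_⟩
    intro z₁ a b c κ v g hz₁ hd hc hrk hik
    by_contra h3
    have hch : CH r A B z₀ z₁ := ⟨hr, hr1, hz₀, hz₁, hA, hB0⟩
    obtain ⟨L, hD⟩ := dat hC1 hch hc hρ e4 hb hd
      (fun h4 => hout z₀ z₁ a b c κ v g hch hc (h4.trans (ball_subset_ball e1))) hrk hik
    obtain ⟨-, -, ha, -⟩ := hC2 r A B z₀ z₁ a b c κ v g hch hc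
    exact h2 ⟨L, v, hD, harm_diff (hc.v_harm z₀ ⟨hz₀, hc.avoid⟩), ha ▸ not_le.1 h3⟩
  choose Ls vs hD hdiff hsm using hseq
  obtain ⟨q, s, hs, hq, hfr⟩ := small hL hE hA hB0 hρ hD
  have hcb : ∀ z ∈ closedBall (conj q) s, conj z ∈ closedBall q s := by
    intro z hz
    rw [mem_closedBall, dist_eq_norm] at hz ⊢
    rwa [← norm_conj, map_sub, conj_conj]
  have hq' : ∀ z ∈ closedBall (conj q) s, z ∈ ann r ∩ upH ∧ z ∈ ball (conj b₀) ρb := by
    intro z hz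
    obtain ⟨h2, h3⟩ := hq (hcb z hz)
    rw [mem_ball, dist_eq_norm] at h3
    refine ⟨⟨conj_mem_ann.1 h2, ?_⟩, ?_⟩
    · have h4 := (abs_im_le_norm (conj z - b₀)).trans_lt h3
      rw [sub_im, conj_im, abs_lt] at h4
      show 0 < z.im
      linarith [h4.2]
    · rw [mem_ball, dist_eq_norm, ← norm_conj, map_sub, conj_conj]
      linarith
  obtain ⟨c', hc', hna⟩ := h1 r z₀ (conj q) s (B / 2) hr hz₀ him₀ hs (fun z hz => (hq' z hz).1)
    (half_pos hB0)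
  have hev : ∀ᶠ k : ℕ in atTop, 1 / ((k : ℝ) + 1) < r * c' / 4 :=
    tendsto_one_div_add_atTop_nhds_zero_nat.eventually (gt_mem_nhds (by positivity))
  obtain ⟨k, hk1, hk2⟩ := (hfr.and_eventually hev).exists
  obtain ⟨hs1, hs2⟩ := odd_nonneg hr hr1 (hD k).sub (hD k).harm (hD k).vc (hD k).outer (hD k).inner
  have h5 := deriv_lb (hdiff k) him₀ (hna (fun z => vs k z - vs k (conj z)) hs1 hs2 (fun z hz => by
    have h6 := hlb (vs k) (hD k).harm (hD k).lo (hD k).inner z (hq' z hz).1 (hq' z hz).2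
    have h7 := hk1 _ (hcb z hz)
    linarith))
  have h6 := hsm k
  have h7 : (z₀ * grad (vs k) z₀ / 2).im = z₀.re * (grad (vs k) z₀).im / 2 := by
    rw [div_ofNat_im, mul_im, him₀]
    ring
  have h8 : r < |z₀.re| := by
    have := hz₀.1
    rwa [← re_add_im z₀, him₀, ofReal_zero, zero_mul, add_zero, norm_real, Real.norm_eq_abs] at this
  rw [h7, abs_div, abs_mul, abs_two] at h6
  have h9 : c' / 2 ≤ |(grad (vs k) z₀).im| := by
    linarith [neg_abs_le (grad (vs k) z₀).im]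
  have h10 : r * (c' / 2) ≤ |z₀.re| * |(grad (vs k) z₀).im| :=
    mul_le_mul h8.le h9 (by positivity) (abs_nonneg _)
  linarith

end Pool.Agent.P.MP_3bd355_an
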