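import Pool.Agent.P.MP_3bd355_an.Stmts

/-! The approximate double pole of the quadratic differential near the inner circle. -/

open Set Filter Metric Complex InnerProductSpace
open scoped Topology ComplexConjugate Real

namespace Pool.Agent.P.MP_3bd355_an

namespace Na3P

theorem small (p q : ℝ) (hq : 0 < q) : ∀ᶠ ω in 𝓝[>] (0 : ℝ), p * ω < q := by
  have h : Tendsto (fun ω : ℝ => p * ω) (𝓝 0) (𝓝 (p * 0)) :=
    (continuous_const.mul continuous_id).tendsto 0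
  rw [mul_zero] at h
  exact (h.eventually (gt_mem_nhds hq)).filter_mono nhdsWithin_le_nhds

theorem ev_bdd {f : ℂ → ℂ} {p : ℂ} (h : ContinuousAt f p) :
    ∀ᶠ x in 𝓝 p, ‖f x‖ ≤ ‖f p‖ + 1 :=
  (h.norm.eventually (gt_mem_nhds (lt_add_one ‖f p‖))).mono fun _ hx => hx.le

theorem bounds {r : ℝ} {z₀ : ℂ} (h0 : 0 < r) (m0 : z₀ ∈ ann r) : ∃ η K : ℝ, 0 < η ∧ 0 ≤ K ∧
    (∀ x : ℂ, ‖x - 1‖ ≤ η → ‖vk r (r * x / z₀)‖ ≤ K ∧ ‖vk r (r * x * conj z₀)‖ ≤ K ∧
      ‖vk0 r x‖ ≤ K ∧ r * x ≠ z₀) ∧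
    ∀ x y : ℂ, ‖x - 1‖ ≤ η → ‖y - 1‖ ≤ η → ‖vk0 r x - vk0 r y‖ ≤ K * ‖x - y‖ := by
  have h1 : r < 1 := m0.1.trans m0.2
  have hr2 : r ^ 2 < 1 := by nlinarith
  obtain ⟨O, -, -, hO, -, hA⟩ := ker_dom h0 h1 m0
  have hrn : ‖(r : ℂ)‖ = r := by rw [Complex.norm_real, Real.norm_of_nonneg h0.le]
  have hrO : (r : ℂ) ∈ O := hO ⟨hrn.ge, hrn.le.trans h1.le⟩
  have hne : (r : ℂ) ≠ z₀ := fun h => by
    have := m0.1
    rw [← h, hrn] at this
    exact lt_irrefl _ this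
  obtain ⟨-, a2, a3⟩ := hA _ hrO
  have hm : ContinuousAt (fun x : ℂ => (r : ℂ) * x) 1 := by fun_prop
  have c1 : ContinuousAt (fun x : ℂ => vk r (r * x / z₀)) 1 :=
    ContinuousAt.comp_of_eq (g := fun y => vk r (y / z₀)) (a3 hne).continuousAt hm (mul_one _)
  have c2 : ContinuousAt (fun x : ℂ => vk r (r * x * conj z₀)) 1 :=
    ContinuousAt.comp_of_eq (g := fun y => vk r (y * conj z₀)) a2.continuousAt hm (mul_one _)
  have a0 : AnalyticAt ℂ (vk0 r) 1 := vk0_analytic h0 h1 (by simpa using hr2) (by simpa using hr2)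
  obtain ⟨L, t, ht, hL⟩ := (a0.contDiffAt (n := 1)).exists_lipschitzOnWith
  have e4 : ∀ᶠ x : ℂ in 𝓝 1, (r : ℂ) * x ≠ z₀ :=
    hm.eventually_ne (by simpa using hne)
  have hev := (ev_bdd c1).and ((ev_bdd c2).and ((ev_bdd a0.continuousAt).and (e4.and ht)))
  obtain ⟨η, hη, hb⟩ := Metric.nhds_basis_closedBall.eventually_iff.1 hev
  refine ⟨η, (‖vk r (r * 1 / z₀)‖ + 1) + (‖vk r (r * 1 * conj z₀)‖ + 1) + (‖vk0 r 1‖ + 1) + L,
    hη, by positivity, fun x hx => ?_, fun x y hx hy => ?_⟩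
  · obtain ⟨b1, b2, b3, b4, -⟩ := hb (mem_closedBall_iff_norm.2 hx)
    have n1 := norm_nonneg (vk r (r * 1 / z₀))
    have n2 := norm_nonneg (vk r (r * 1 * conj z₀))
    have n3 := norm_nonneg (vk0 r 1)
    have n4 := L.coe_nonneg
    exact ⟨by linarith, by linarith, by linarith, b4⟩
  · have := hL.dist_le_mul x (hb (mem_closedBall_iff_norm.2 hx)).2.2.2.2 y
      (hb (mem_closedBall_iff_norm.2 hy)).2.2.2.2
    rw [dist_eq_norm, dist_eq_norm] at this
    refine this.trans (mul_le_mul_of_nonneg_right ?_ (norm_nonneg _))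
    have n1 := norm_nonneg (vk r (r * 1 / z₀))
    have n2 := norm_nonneg (vk r (r * 1 * conj z₀))
    have n3 := norm_nonneg (vk0 r 1)
    linarith

/-- The main terms. -/
noncomputable def N (s μ β : ℝ) (x : ℂ) : ℂ :=
  (-2 * μ * x + 2 * I * β * s * (1 - x ^ 2)) / ((s - x) * (1 - x * s))

theorem decomp {r : ℝ} {z₀ : ℂ} (h0 : 0 < r) (m0 : z₀ ∈ ann r) (C₀ : ℝ) : ∃ η K : ℝ,
    0 < η ∧ η ≤ 1 / 4 ∧ r * (1 + η) < 1 ∧ 0 ≤ K ∧ (∀ x : ℂ, ‖x - 1‖ ≤ η → r * x ≠ z₀) ∧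
    ∀ s ∈ Ioo (1 : ℝ) (1 + η), ∀ (a b : ℂ) (c : ℝ), (a + b).im = 0 → ‖a‖ ≤ C₀ →
      ∀ x : ℂ, 1 ≤ ‖x‖ → ‖x - 1‖ ≤ η → x ≠ s → ∃ R : ℂ, ‖R‖ ≤ K * (1 + |b.re * (s ^ 2 - 1)|) ∧
        (r * x) ^ 2 * QD r z₀ (s * r) a b c (r * x) =
          ((c - 2 * b.re : ℝ) : ℂ) + R + N s (b.re * (s ^ 2 - 1)) b.im x := by
  have h1 : r < 1 := m0.1.trans m0.2
  obtain ⟨η₀, K, hη₀, hK, hb, hL⟩ := bounds h0 m0
  obtain ⟨η, ⟨⟨e1, e2⟩, e3⟩, hη⟩ := ((((small 3 η₀ hη₀).and (small 4 1 one_pos)).and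
    (small r (1 - r) (by linarith))).and self_mem_nhdsWithin).exists
  have hη : 0 < η := hη
  refine ⟨η, 2 * K + |C₀| * (4 * K + 2), hη, by linarith, by linarith, by positivity,
    fun x hx => (hb x (by linarith)).2.2.2, ?_⟩
  rintro s ⟨s1, s2⟩ a b c hab ha x hx1 hx hxs
  have hs0 : (s : ℂ) ≠ 0 := by exact_mod_cast (by linarith : s ≠ 0)
  have hr0 : (r : ℂ) ≠ 0 := by exact_mod_cast h0.ne'
  have hx0 : x ≠ 0 := norm_pos_iff.1 (by linarith)
  have hsn : ‖(s : ℂ)‖ = s := by rw [Complex.norm_real, Real.norm_of_nonneg (by linarith)]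
  have hs1 : ‖(s : ℂ) - 1‖ = s - 1 := by
    rw [← Complex.ofReal_one, ← Complex.ofReal_sub, Complex.norm_real,
      Real.norm_of_nonneg (by linarith)]
  have hx2 : ‖x‖ ≤ 1 + η := by
    have := norm_add_le (x - 1) 1
    rw [sub_add_cancel, norm_one] at this
    linarith
  have hxs1 : 1 < ‖x * s‖ := by rw [norm_mul, hsn]; nlinarith
  have hxs2 : r ^ 2 * ‖x * s‖ < 1 := by
    rw [norm_mul, hsn]
    have p1 : r * ‖x‖ < 1 := by nlinarith
    have p2 : r * s < 1 := by nlinarith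
    have p3 : 0 ≤ r * ‖x‖ := by positivity
    nlinarith
  have d1 : ‖x / s - 1‖ ≤ η₀ := by
    have e : x / s - 1 = ((x - 1) - (s - 1)) / s := by field_simp; ring
    rw [e, norm_div, hsn, div_le_iff₀ (by linarith)]
    have := norm_sub_le (x - 1) ((s : ℂ) - 1)
    nlinarith
  have d2 : ‖x * s - 1‖ ≤ η₀ := by
    have e : x * s - 1 = (x - 1) * s + (s - 1) := by ring
    have := norm_add_le ((x - 1) * s) ((s : ℂ) - 1)
    rw [norm_mul, hsn, hs1] at this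
    rw [e]
    nlinarith [norm_nonneg (x - 1)]
  have d3 : ‖x / s - x * s‖ ≤ 2 * (s ^ 2 - 1) := by
    have e : x / s - x * s = -(x * ((s ^ 2 - 1 : ℝ) : ℂ) / s) := by push_cast; field_simp; ring
    have p : 0 ≤ s ^ 2 - 1 := by nlinarith
    rw [e, norm_neg, norm_div, norm_mul, hsn, Complex.norm_real, Real.norm_of_nonneg p,
      div_le_iff₀ (by linarith)]
    have : ‖x‖ ≤ 2 * s := by linarith
    nlinarith
  have hbi : |b.im| ≤ |C₀| := by
    have e : b.im = -a.im := by rw [add_im] at hab; linarith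
    rw [e, abs_neg]
    exact (abs_im_le_norm a).trans (ha.trans (le_abs_self _))
  have ha' : ‖a‖ ≤ |C₀| := ha.trans (le_abs_self _)
  obtain ⟨b1, b2, -, -⟩ := hb x (by linarith)
  have b3 := (hb _ d1).2.2.1
  have b4 := (hb _ d2).2.2.1
  have b5 := hL _ _ d1 d2
  refine ⟨(a * vk r (r * x / z₀) - conj a * vk r (r * x * conj z₀)) +
    b.re * (vk0 r (x / s) - vk0 r (x * s)) + I * b.im * (vk0 r (x / s) + vk0 r (x * s) + 2),
    ?_, ?_⟩
  · have t1 : ‖a * vk r (r * x / z₀) - conj a * vk r (r * x * conj z₀)‖ ≤ |C₀| * (2 * K) := by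
      refine (norm_sub_le _ _).trans ?_
      rw [norm_mul, norm_mul, Complex.norm_conj]
      have q1 := mul_le_mul ha' b1 (norm_nonneg _) (abs_nonneg _)
      have q2 := mul_le_mul ha' b2 (norm_nonneg _) (abs_nonneg _)
      linarith
    have t2 : ‖(b.re : ℂ) * (vk0 r (x / s) - vk0 r (x * s))‖ ≤
        2 * K * |b.re * (s ^ 2 - 1)| := by
      have p : 0 ≤ s ^ 2 - 1 := by nlinarith
      rw [norm_mul, Complex.norm_real, Real.norm_eq_abs, abs_mul, abs_of_nonneg p]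
      have q1 := b5.trans (mul_le_mul_of_nonneg_left d3 hK)
      have q2 := mul_le_mul_of_nonneg_left q1 (abs_nonneg b.re)
      linarith
    have t3 : ‖I * b.im * (vk0 r (x / s) + vk0 r (x * s) + 2)‖ ≤ |C₀| * (2 * K + 2) := by
      rw [norm_mul, norm_mul, norm_I, one_mul, Complex.norm_real, Real.norm_eq_abs]
      refine mul_le_mul hbi ?_ (norm_nonneg _) (abs_nonneg _)
      have q1 := norm_add₃_le (a := vk0 r (x / s)) (b := vk0 r (x * s)) (c := 2)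
      have q2 : ‖(2 : ℂ)‖ = 2 := by simp
      linarith
    have t4 := norm_add₃_le (a := a * vk r (r * x / z₀) - conj a * vk r (r * x * conj z₀))
      (b := (b.re : ℂ) * (vk0 r (x / s) - vk0 r (x * s)))
      (c := I * b.im * (vk0 r (x / s) + vk0 r (x * s) + 2))
    have p1 : 0 ≤ |C₀| * (4 * K + 2) * |b.re * (s ^ 2 - 1)| := by positivity
    nlinarith
  · have e1 : (r : ℂ) * x / (s * r) = x / s := by field_simp
    have e2 : (r : ℂ) * x * conj ((s : ℂ) * r) = (r : ℂ) ^ 2 * (x * s) := by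
      rw [map_mul, conj_ofReal, conj_ofReal]; ring
    have n1 : (s : ℂ) - x ≠ 0 := sub_ne_zero.2 (Ne.symm hxs)
    have n2 : 1 - x * s ≠ 0 := fun h => by
      rw [← sub_eq_zero.1 h, norm_one] at hxs1
      exact lt_irrefl _ hxs1
    have e3 : vk r (x / s) = vk0 r (x / s) + (s + x) / (s - x) := by
      have n3 : 1 - x / s ≠ 0 := by
        have : 1 - x / s = (s - x) / s := by field_simp
        rw [this]; exact div_ne_zero n1 hs0
      unfold vk0
      field_simp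
      ring
    have e4 : vk r (x * s) = vk0 r (x * s) + (1 + x * s) / (1 - x * s) := by
      unfold vk0; ring
    have e5 : conj b = b.re - I * b.im := by
      apply Complex.ext <;> simp
    have e6 : b = b.re + I * b.im := by
      apply Complex.ext <;> simp
    unfold QD N
    rw [e1, e2, vk_shift h0 h1 hxs1 hxs2, e3, e4, e5]
    generalize vk0 r (x / s) = u
    generalize vk0 r (x * s) = v
    generalize vk r (r * x / z₀) = p
    generalize vk r (r * x * conj z₀) = q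
    conv_lhs => rw [mul_div_cancel₀ _ (pow_ne_zero 2 (mul_ne_zero hr0 hx0))]
    generalize hβ : b.im = β at e6 ⊢
    generalize hα : b.re = α at e6 ⊢
    rw [e6]
    have n2' : 1 - s * x ≠ 0 := by rwa [mul_comm]
    push_cast
    field_simp
    ring

/-- The main terms at the test point. -/
theorem N_test {s μ β τ C : ℝ} {x : ℂ} (s1 : 1 < s) (s2 : s ≤ 2) (hτ : 0 < τ) (hx : ‖x‖ ≤ 2)
    (him : |x.im| = τ) (hβ : |β| ≤ C) : ‖N s μ β x‖ ≤ (4 + 20 * C) / τ ^ 2 * (1 + |μ|) := by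
  have hC : 0 ≤ C := (abs_nonneg _).trans hβ
  have d1 : τ ≤ ‖(s : ℂ) - x‖ := by
    have := abs_im_le_norm ((s : ℂ) - x)
    rwa [sub_im, ofReal_im, zero_sub, abs_neg, him] at this
  have d2 : τ ≤ ‖1 - x * s‖ := by
    have := abs_im_le_norm (1 - x * s)
    rw [sub_im, one_im, zero_sub, abs_neg, im_mul_ofReal, abs_mul, him,
      abs_of_pos (by linarith : 0 < s)] at this
    nlinarith
  have n1 : ‖-2 * μ * x + 2 * I * β * s * (1 - x ^ 2)‖ ≤ (4 + 20 * C) * (1 + |μ|) := by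
    have q1 : ‖1 - x ^ 2‖ ≤ 5 := by
      have := norm_sub_le 1 (x ^ 2)
      rw [norm_one, norm_pow] at this
      nlinarith [norm_nonneg x]
    have q2 : ‖-2 * μ * x‖ ≤ 4 * |μ| := by
      rw [norm_mul, norm_mul, norm_neg, Complex.norm_real, Real.norm_eq_abs]
      have : ‖(2 : ℂ)‖ = 2 := by simp
      rw [this]
      nlinarith [abs_nonneg μ]
    have q3 : ‖2 * I * β * s * (1 - x ^ 2)‖ ≤ 20 * C := by
      rw [norm_mul, norm_mul, norm_mul, norm_mul, norm_I, Complex.norm_real, Complex.norm_real,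
        Real.norm_eq_abs, Real.norm_of_nonneg (by linarith)]
      have : ‖(2 : ℂ)‖ = 2 := by simp
      rw [this]
      have q4 : |β| * s ≤ C * 2 := mul_le_mul hβ s2 (by linarith) hC
      have q5 := mul_le_mul q4 q1 (norm_nonneg _) (by positivity)
      linarith
    have := norm_add_le (-2 * μ * x) (2 * I * β * s * (1 - x ^ 2))
    nlinarith [abs_nonneg μ]
  unfold N
  rw [norm_div, norm_mul, div_mul_eq_mul_div]
  refine div_le_div₀ (by positivity) n1 (by positivity) ?_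
  rw [sq]
  exact mul_le_mul d1 d2 hτ.le (norm_nonneg _)

/-- The main terms on the circle. -/
theorem N_circ {s μ β : ℝ} {x : ℂ} (hx : ‖x‖ = 1) (hxs : x ≠ s) :
    (N s μ β x).re = (2 * μ - 4 * s * β * x.im) / ‖(s : ℂ) - x‖ ^ 2 := by
  have hx0 : x ≠ 0 := norm_pos_iff.1 (by linarith)
  have h1 : x * conj x = 1 := by rw [mul_conj', hx]; simp
  have n1 : (s : ℂ) - x ≠ 0 := sub_ne_zero.2 (Ne.symm hxs)
  have h2 : ((‖(s : ℂ) - x‖ ^ 2 : ℝ) : ℂ) = (s - x) * (s - conj x) := by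
    rw [ofReal_pow, ← mul_conj', map_sub, conj_ofReal]
  have h3 : (x.im : ℂ) = (x - conj x) / (2 * I) := Complex.im_eq_sub_conj x
  have n2 : (s : ℂ) - conj x ≠ 0 := fun h => n1 (by
    have := congrArg conj h
    rwa [map_sub, conj_ofReal, conj_conj, map_zero] at this)
  have h4 : 1 - x * s = -x * (s - conj x) := by linear_combination -h1
  have h5 : 1 - x ^ 2 = -x * (x - conj x) := by linear_combination -h1
  have e : N s μ β x = (((2 * μ - 4 * s * β * x.im) / ‖(s : ℂ) - x‖ ^ 2 : ℝ) : ℂ) := by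
    unfold N
    rw [ofReal_div, h2, h4, h5]
    push_cast
    rw [h3]
    field_simp
    linear_combination (4 * β * s * (x - conj x)) * I_mul_I
  rw [e, ofReal_re]

/-- The main terms on a ring around the point. -/
theorem N_ring {s μ β C : ℝ} {x : ℂ} (s1 : 1 < s) (hμ : μ ≤ 0) (hβ : |β| ≤ C) (hx1 : 1 ≤ ‖x‖)
    (hx : ‖x - 1‖ ≤ 1 / 16) (hs : 16 * (s - 1) ≤ ‖x - 1‖) :
    -μ - 18 * C * ‖x - 1‖ ≤ ((x - 1) ^ 2 / x ^ 2 * N s μ β x).re := by
  have hC : 0 ≤ C := (abs_nonneg _).trans hβ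
  obtain ⟨w, rfl⟩ : ∃ w, x = 1 + w := ⟨x - 1, by ring⟩
  rw [add_sub_cancel_left] at hx hs ⊢
  have hw0 : w ≠ 0 := norm_pos_iff.1 (by linarith)
  have hx0 : 1 + w ≠ 0 := norm_pos_iff.1 (by linarith)
  obtain ⟨δ, rfl⟩ : ∃ δ, s = 1 + δ := ⟨s - 1, by ring⟩
  have hδ : 0 < δ := by linarith
  obtain ⟨e, he⟩ : ∃ e : ℂ, (δ : ℂ) = e * w := ⟨δ / w, by field_simp⟩
  have hen : ‖e‖ ≤ 1 / 16 := by
    have := congrArg norm he
    rw [norm_mul, Complex.norm_real, Real.norm_of_nonneg hδ.le] at this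
    have p : 0 < ‖w‖ := norm_pos_iff.2 hw0
    nlinarith
  have hew : ‖e * w‖ ≤ 1 / 16 := by rw [norm_mul]; nlinarith [norm_nonneg e, norm_nonneg w]
  obtain ⟨v, hv⟩ : ∃ v, v = (1 + w) * (1 - e) * (1 + (e + e * w)) := ⟨_, rfl⟩
  have hv1 : ‖v - 1‖ ≤ 3 / 10 := by
    have q1 : ‖e + e * w‖ ≤ 1 / 8 := (norm_add_le _ _).trans (by linarith)
    have q2 : ‖(1 + w) * (1 - e) - 1‖ ≤ 13 / 100 := by
      have e1 : (1 + w) * (1 - e) - 1 = w - e - e * w := by ring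
      have t1 := norm_sub_le (w - e) (e * w)
      have t2 := norm_sub_le w e
      have t3 : ‖e * w‖ ≤ 1 / 256 := by
        rw [norm_mul]; nlinarith [norm_nonneg e, norm_nonneg w]
      rw [e1]; linarith
    generalize e + e * w = y at hv q1
    obtain ⟨t, ht⟩ : ∃ t, t = (1 + w) * (1 - e) - 1 := ⟨_, rfl⟩
    rw [← ht] at q2
    have e2 : v - 1 = t + y + t * y := by rw [hv, ht]; ring
    have t4 := norm_add₃_le (a := t) (b := y) (c := t * y)
    rw [norm_mul] at t4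
    rw [e2]
    nlinarith [norm_nonneg t, norm_nonneg y]
  have hv2 : 7 / 10 ≤ ‖v‖ := by
    have := norm_sub_norm_le 1 v
    rw [norm_one, norm_sub_rev] at this
    linarith
  have hv0 : v ≠ 0 := norm_pos_iff.1 (by linarith)
  have hu1 : ‖v⁻¹ - 1‖ ≤ 1 / 2 := by
    have e1 : v⁻¹ - 1 = -(v - 1) / v := by field_simp; ring
    rw [e1, norm_div, norm_neg, div_le_iff₀ (by linarith)]
    linarith
  have hu2 : 1 / 2 ≤ (v⁻¹).re := by
    have := (abs_le.1 ((abs_re_le_norm (v⁻¹ - 1)).trans hu1)).1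
    rw [sub_re, one_re] at this
    linarith
  have hu3 : ‖v⁻¹‖ ≤ 3 / 2 := by
    have := norm_add_le (v⁻¹ - 1) 1
    rw [sub_add_cancel, norm_one] at this
    linarith
  have hden : (((1 + δ : ℝ) : ℂ) - (1 + w)) * (1 - (1 + w) * ((1 + δ : ℝ) : ℂ)) =
      w ^ 2 * v / (1 + w) := by
    push_cast
    rw [he, hv]
    field_simp
    ring
  have e : w ^ 2 / (1 + w) ^ 2 * N (1 + δ) μ β (1 + w) = ((-2 * μ : ℝ) : ℂ) * v⁻¹ +
      -(2 * I * β * ((1 + δ : ℝ) : ℂ) * (w * (2 + w)) / (1 + w) * v⁻¹) := by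
    unfold N
    rw [hden]
    push_cast
    field_simp
    ring
  have q : ‖2 * I * β * ((1 + δ : ℝ) : ℂ) * (w * (2 + w)) / (1 + w) * v⁻¹‖ ≤ 18 * C * ‖w‖ := by
    have t1 : ‖2 + w‖ ≤ 3 := by
      have := norm_add_le 2 w
      have h2 : ‖(2 : ℂ)‖ = 2 := by simp
      linarith
    have t2 : ‖2 * I * β * ((1 + δ : ℝ) : ℂ) * (w * (2 + w))‖ ≤ 12 * C * ‖w‖ := by
      rw [norm_mul, norm_mul, norm_mul, norm_mul, norm_mul, norm_I, Complex.norm_real,
        Complex.norm_real, Real.norm_eq_abs, Real.norm_of_nonneg (by linarith)]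
      have h2 : ‖(2 : ℂ)‖ = 2 := by simp
      rw [h2]
      have q4 : |β| * (1 + δ) ≤ C * 2 := mul_le_mul hβ (by linarith) (by linarith) hC
      have q5 : ‖w‖ * ‖2 + w‖ ≤ ‖w‖ * 3 := mul_le_mul_of_nonneg_left t1 (norm_nonneg _)
      have q6 := mul_le_mul q4 q5 (by positivity) (by positivity)
      linarith
    have t3 : ‖2 * I * β * ((1 + δ : ℝ) : ℂ) * (w * (2 + w)) / (1 + w)‖ ≤ 12 * C * ‖w‖ := by
      rw [norm_div]
      exact (div_le_self (norm_nonneg _) hx1).trans t2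
    rw [norm_mul]
    have := mul_le_mul t3 hu3 (norm_nonneg _) (by positivity)
    linarith
  rw [e, add_re, re_ofReal_mul, neg_re]
  have := (abs_le.1 ((abs_re_le_norm _).trans q)).2
  nlinarith

/-- The sign of the coefficient of the double pole. -/
theorem mu_neg {μ β s t c₀ K c' σ : ℝ} (s1 : 1 < s) (ht : 0 < t) (hc : 0 < c₀) (hβ : c₀ ≤ |β|)
    (hσ : β * σ = -|β| * t) {D : ℝ} (hD0 : 0 < D) (hD : D ≤ 9 * t ^ 2) (hK0 : 0 ≤ K)
    (h1 : 9 * K * t < c₀) (h2 : 9 * K * t < 1) (ht1 : t ≤ 1) (hc' : -(K * (1 + |μ|)) ≤ c')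
    (h : c' + (2 * μ - 4 * s * β * σ) / D ≤ 0) : μ ≤ -(c₀ * t) := by
  have e1 : (2 * μ - 4 * s * β * σ) / D ≤ K * (1 + |μ|) := by linarith
  rw [div_le_iff₀ hD0] at e1
  have e2 : K * (1 + |μ|) * D ≤ K * (1 + |μ|) * (9 * t ^ 2) :=
    mul_le_mul_of_nonneg_left hD (by positivity)
  have e3 : -(4 * s * β * σ) = 4 * s * (|β| * t) := by
    rw [mul_assoc (4 * s), hσ]; ring
  have e4 : c₀ * t ≤ s * (|β| * t) := by
    have := mul_le_mul_of_nonneg_right hβ ht.le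
    have p : 0 ≤ |β| * t := by positivity
    nlinarith
  have e5 : K * (9 * t ^ 2) ≤ c₀ * t := by nlinarith
  have e6 : K * (9 * t ^ 2) ≤ 1 := by
    have p : 0 ≤ 9 * K * t := by positivity
    nlinarith
  have e7 : K * (9 * t ^ 2) * |μ| ≤ |μ| := by
    have := mul_le_mul_of_nonneg_right e6 (abs_nonneg μ)
    linarith
  have e8 : 2 * μ + 3 * (c₀ * t) ≤ |μ| := by nlinarith
  have p : 0 < c₀ * t := by positivity
  rcases le_total 0 μ with hμ | hμ
  · rw [abs_of_nonneg hμ] at e8; linarith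
  · rw [abs_of_nonpos hμ] at e8; linarith

/-- Points of the unit circle with a prescribed small imaginary part. -/
theorem circ_pt {σ : ℝ} (h : |σ| ≤ 1) : ∃ x : ℂ, ‖x‖ = 1 ∧ x.im = σ ∧ ‖x - 1‖ ≤ 2 * |σ| := by
  have p : 0 ≤ 1 - σ ^ 2 := by nlinarith [sq_abs σ, abs_nonneg σ]
  have e := Real.sq_sqrt p
  have q0 := Real.sqrt_nonneg (1 - σ ^ 2)
  have q1 : √(1 - σ ^ 2) ≤ 1 := by nlinarith [sq_nonneg σ]
  refine ⟨⟨√(1 - σ ^ 2), σ⟩, ?_, rfl, ?_⟩
  · rw [← sq_eq_sq₀ (norm_nonneg _) zero_le_one, Complex.sq_norm, normSq_mk]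
    nlinarith
  · rw [← sq_le_sq₀ (norm_nonneg _) (by positivity), Complex.sq_norm, normSq_apply, mul_pow,
      sq_abs]
    simp only [sub_re, one_re, sub_im, one_im, sub_zero]
    nlinarith [sq_nonneg σ]

end Na3P

open Na3P in
theorem na3 : S_NA3 := by
  intro r z₀ σ c₀ C₀ ρ M h0 m0 hσ hc₀ hρ
  obtain ⟨η, K, hη, hη4, hrη, hK, hne, hdec⟩ := decomp h0 m0 C₀
  have hr0 : (r : ℂ) ≠ 0 := by exact_mod_cast h0.ne'
  have hrn : ‖(r : ℂ)‖ = r := by rw [Complex.norm_real, Real.norm_of_nonneg h0.le]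
  have hσ1 : |σ| = 1 := by rcases hσ with rfl | rfl <;> simp
  have hσ2 : σ * σ = 1 := by rcases hσ with rfl | rfl <;> simp
  -- the test point
  obtain ⟨x₀, hx₀⟩ : ∃ x₀ : ℂ, x₀ = 1 + ((η / 2 : ℝ) : ℂ) * (1 + σ * I) := ⟨_, rfl⟩
  have t1 : ‖x₀ - 1‖ ≤ η := by
    rw [hx₀, add_sub_cancel_left, norm_mul, Complex.norm_real,
      Real.norm_of_nonneg (by linarith)]
    have := norm_add_le 1 (σ * I)
    rw [norm_one, norm_mul, norm_I, Complex.norm_real, Real.norm_eq_abs, hσ1] at this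
    nlinarith
  have t2 : x₀.im = η / 2 * σ := by rw [hx₀]; simp
  have t3 : 1 < ‖x₀‖ := by
    have := re_le_norm x₀
    have e : x₀.re = 1 + η / 2 := by rw [hx₀]; simp
    linarith
  have t4 : ‖x₀‖ ≤ 1 + η := by
    have := norm_add_le (x₀ - 1) 1
    rw [sub_add_cancel, norm_one] at this
    linarith
  have t5 : r * x₀ ∈ ann r := by
    constructor <;> rw [norm_mul, hrn] <;> nlinarith
  have t6 : 0 < σ * (r * x₀).im := by
    rw [im_ofReal_mul, t2]
    have : σ * (r * (η / 2 * σ)) = r * (η / 2) * (σ * σ) := by ring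
    rw [this, hσ2]; positivity
  have t7 : |x₀.im| = η / 2 := by
    rw [t2, abs_mul, hσ1, abs_of_pos (by linarith), mul_one]
  obtain ⟨K₁, hK₁⟩ : ∃ K₁, K₁ = |M (r * x₀)| + 2 * K + (4 + 20 * |C₀|) / (η / 2) ^ 2 := ⟨_, rfl⟩
  have hK₁0 : 0 ≤ K₁ := by rw [hK₁]; positivity
  -- the point on the circle
  obtain ⟨t, ⟨⟨⟨u1, u2⟩, u3⟩, u4⟩, ht⟩ := (((((small (9 * K₁) c₀ hc₀).and
    (small (9 * K₁) 1 one_pos)).and (small 2 η hη)).and (small 1 1 one_pos)).and
    self_mem_nhdsWithin).exists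
  have ht : 0 < t := ht
  have hm : 0 < c₀ * t := by positivity
  -- the ring
  obtain ⟨ω, ⟨⟨⟨⟨⟨⟨w1, w2⟩, w3⟩, w4⟩, w5⟩, w6⟩, w7⟩⟩ := (((((((small 1 η hη).and
    (small 16 1 one_pos)).and (small r ρ hρ)).and (small K₁ (c₀ * t) hm)).and
    (small K₁ 1 one_pos)).and (small (36 * |C₀|) (c₀ * t) hm)).and self_mem_nhdsWithin).exists
  have hω : 0 < ω := w7
  have hE : 0 < Real.exp 7 := Real.exp_pos 7
  obtain ⟨d, ⟨⟨⟨v1, v2⟩, v3⟩, hd⟩⟩ := ((((small 1 η hη).and (small 1 t ht)).and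
    (small 16 (ω / Real.exp 7) (by positivity))).and self_mem_nhdsWithin).exists
  have hd : 0 < d := hd
  refine ⟨r * (ω / Real.exp 7), r * ω, d, hd, by positivity, le_of_eq (by field_simp), w3.le,
    mul_le_of_le_one_right h0.le (by linarith), mul_le_mul_of_nonneg_left (by linarith) h0.le,
    lt_of_le_of_lt (mul_le_mul_of_nonneg_left (by linarith) h0.le) hrη, ?_⟩
  rintro s ⟨s1, s2⟩ a b c hab hai ha hM hβ z hz hz1 hz2
  have hs : s ∈ Ioo (1 : ℝ) (1 + η) := ⟨s1, by linarith⟩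
  have hbe : b.im = -a.im := by rw [add_im] at hab; linarith
  have hbi : |b.im| ≤ |C₀| := by
    rw [hbe, abs_neg]
    exact (abs_im_le_norm a).trans (ha.trans (le_abs_self _))
  have hbc : c₀ ≤ |b.im| := by rwa [hbe, abs_neg]
  have hdec' := hdec s hs a b c hab ha
  generalize b.re * (s ^ 2 - 1) = μ at hdec'
  generalize c - 2 * b.re = c' at hdec'
  have hμ0 := abs_nonneg μ
  -- the constant is controlled
  have hc' : |c'| + K * (1 + |μ|) ≤ K₁ * (1 + |μ|) := by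
    obtain ⟨R, hR, e⟩ := hdec' x₀ t3.le t1 (fun h => by
      rw [h, ofReal_im, abs_zero] at t7; linarith)
    have q1 := N_test (μ := μ) s1 (by linarith) (by linarith : 0 < η / 2) (by linarith) t7 hbi
    have q2 : ‖(r * x₀) ^ 2 * QD r z₀ (s * r) a b c (r * x₀)‖ ≤ |M (r * x₀)| := by
      rw [norm_mul, norm_pow]
      have q3 : ‖(r : ℂ) * x₀‖ ^ 2 ≤ 1 := pow_le_one₀ (norm_nonneg _) t5.2.le
      have q4 := (hM _ t5 t6 (hne _ t1)).trans (le_abs_self _)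
      have := mul_le_mul q3 q4 (norm_nonneg _) zero_le_one
      linarith
    have e' : (c' : ℂ) = (r * x₀) ^ 2 * QD r z₀ (s * r) a b c (r * x₀) - R - N s μ b.im x₀ := by
      rw [e]; ring
    have q5 : |c'| ≤ |M (r * x₀)| + ‖R‖ + ‖N s μ b.im x₀‖ := by
      rw [← Real.norm_eq_abs, ← Complex.norm_real, e']
      refine (norm_sub_le _ _).trans ?_
      have := norm_sub_le ((r * x₀) ^ 2 * QD r z₀ (s * r) a b c (r * x₀)) R
      linarith
    have q6 : 0 ≤ |M (r * x₀)| * |μ| := by positivity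
    rw [hK₁]
    linarith
  -- the coefficient is negative
  have hμ : μ ≤ -(c₀ * t) := by
    obtain ⟨τ, hτ1, hτ2⟩ : ∃ τ : ℝ, |τ| = t ∧ b.im * τ = -|b.im| * t := by
      rcases le_total 0 b.im with h | h
      · exact ⟨-t, by rw [abs_neg, abs_of_pos ht], by rw [abs_of_nonneg h]; ring⟩
      · exact ⟨t, abs_of_pos ht, by rw [abs_of_nonpos h]; ring⟩
    obtain ⟨x, x1, x2, x3⟩ := circ_pt (σ := τ) (by linarith)
    rw [hτ1] at x3
    have hxs : x ≠ s := fun h => by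
      rw [h, Complex.norm_real, Real.norm_of_nonneg (by linarith)] at x1; linarith
    obtain ⟨R, hR, e⟩ := hdec' x x1.ge (by linarith) hxs
    have q1 := hβ (r * x) (by rw [norm_mul, hrn, x1, mul_one])
    rw [e, add_re, add_re, ofReal_re, N_circ x1 hxs, x2] at q1
    have q2 : 0 < ‖(s : ℂ) - x‖ := norm_pos_iff.2 (sub_ne_zero.2 (Ne.symm hxs))
    have q3 : ‖(s : ℂ) - x‖ ≤ 3 * t := by
      have e1 : (s : ℂ) - x = ((s - 1 : ℝ) : ℂ) - (x - 1) := by push_cast; ring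
      have := norm_sub_le ((s - 1 : ℝ) : ℂ) (x - 1)
      rw [Complex.norm_real, Real.norm_of_nonneg (by linarith)] at this
      rw [e1]; linarith
    have q3' : ‖(s : ℂ) - x‖ ^ 2 ≤ 9 * t ^ 2 :=
      (pow_le_pow_left₀ q2.le q3 2).trans_eq (by ring)
    refine mu_neg s1 ht hc₀ hbc hτ2 (by positivity) q3' hK₁0 u1 u2 (by linarith) ?_ q1
    have q4 := (abs_le.1 ((abs_re_le_norm R).trans hR)).1
    have q5 := neg_abs_le c'
    linarith
  -- the ring
  obtain ⟨x, rfl⟩ : ∃ x, z = r * x := ⟨z / r, by field_simp⟩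
  have ez : (r : ℂ) * x - r = r * (x - 1) := by ring
  rw [ez, norm_mul, hrn] at hz1 hz2
  have y1 : ω / Real.exp 7 ≤ ‖x - 1‖ := le_of_mul_le_mul_left hz1 h0
  have y2 : ‖x - 1‖ ≤ ω := le_of_mul_le_mul_left hz2 h0
  have y3 : 1 ≤ ‖x‖ := by
    have := hz.1
    rw [norm_mul, hrn] at this
    exact (le_mul_iff_one_le_right h0).1 this
  have hx0 : x ≠ 0 := norm_pos_iff.1 (by linarith)
  have hxs : x ≠ s := fun h => by
    rw [h, ← Complex.ofReal_one, ← Complex.ofReal_sub, Complex.norm_real,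
      Real.norm_of_nonneg (by linarith)] at y1
    linarith
  obtain ⟨R, hR, e⟩ := hdec' x y3 (by linarith) hxs
  have e1 : (r * x - r) ^ 2 * QD r z₀ (s * r) a b c (r * x) =
      (x - 1) ^ 2 / x ^ 2 * (c' + R) + (x - 1) ^ 2 / x ^ 2 * N s μ b.im x := by
    rw [← mul_add, ← e]; field_simp
  have q1 := N_ring (μ := μ) s1 (by linarith) hbi y3 (by linarith) (by linarith)
  have q2 : ‖(x - 1) ^ 2 / x ^ 2 * (c' + R)‖ ≤ ω ^ 2 * (K₁ * (1 + |μ|)) := by
    rw [norm_mul]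
    refine mul_le_mul ?_ ?_ (norm_nonneg _) (by positivity)
    · rw [norm_div, norm_pow, norm_pow]
      exact (div_le_self (by positivity) (one_le_pow₀ y3)).trans
        (pow_le_pow_left₀ (norm_nonneg _) y2 2)
    · have := norm_add_le (c' : ℂ) R
      rw [Complex.norm_real, Real.norm_eq_abs] at this
      linarith
  have q3 := (abs_le.1 ((abs_re_le_norm _).trans q2)).1
  rw [abs_of_nonpos (by linarith : μ ≤ 0)] at q3
  have q4 : 18 * |C₀| * ‖x - 1‖ ≤ 18 * |C₀| * ω := mul_le_mul_of_nonneg_left y2 (by positivity)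
  have q5 : ω * (K₁ * ω) ≤ 1 / 16 * (c₀ * t) :=
    mul_le_mul (by linarith) w4.le (by positivity) (by norm_num)
  have q6 : ω * (K₁ * ω) ≤ 1 / 16 * 1 :=
    mul_le_mul (by linarith) w5.le (by positivity) (by norm_num)
  have q7 := mul_le_mul_of_nonneg_right q6 (by linarith : 0 ≤ -μ)
  rw [e1, add_re]
  linarith

end Pool.Agent.P.MP_3bd355_an
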