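import Pool.Agent.P.MP_3bd355_an.Stmts

open Set Filter Metric Complex InnerProductSpace
open scoped Topology ComplexConjugate Real

namespace Pool.Agent.P.MP_3bd355_an

namespace Na4P

/-- A curve whose velocity stays in the closed double sector around the imaginary axis moves
more vertically than horizontally. -/
lemma key (w w' : ℝ → ℂ) (a b : ℝ) (hab : a < b) (hc : ContinuousOn w (Icc a b))
    (hd : ∀ t ∈ Ioo a b, HasDerivAt w (w' t) t) (hc' : ContinuousOn w' (Ioo a b))
    (hne : ∀ t ∈ Ioo a b, w' t ≠ 0) (hre : ∀ t ∈ Ioo a b, (w' t ^ 2).re ≤ 0) :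
    (w b).re - (w a).re ≤ |(w b).im - (w a).im| := by
  have hsq : ∀ t ∈ Ioo a b, (w' t).re ^ 2 ≤ (w' t).im ^ 2 := by
    intro t ht
    have h := hre t ht
    simp only [sq, Complex.mul_re] at h
    nlinarith
  have him : ∀ t ∈ Ioo a b, (w' t).im ≠ 0 := by
    intro t ht h0
    have h := hsq t ht
    rw [h0] at h
    have h1 : (w' t).re = 0 := by nlinarith [sq_nonneg (w' t).re]
    exact hne t ht (Complex.ext h1 h0)
  have hci : ContinuousOn (fun t => (w' t).im) (Ioo a b) :=
    Complex.continuous_im.comp_continuousOn hc'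
  have hm : (a + b) / 2 ∈ Ioo a b := ⟨by linarith, by linarith⟩
  -- monotonicity of `ε Im w - Re w`
  have mono : ∀ ε : ℝ, (∀ t ∈ Ioo a b, (w' t).re ≤ ε * (w' t).im) →
      ε * (w a).im - (w a).re ≤ ε * (w b).im - (w b).re := by
    intro ε hε
    have hder : ∀ t ∈ Ioo a b, HasDerivAt (fun s => ε * (w s).im - (w s).re)
        (ε * (w' t).im - (w' t).re) t := by
      intro t ht
      have h1 : HasDerivAt (fun s => (w s).im) (w' t).im t :=
        (Complex.imCLM.hasFDerivAt.comp_hasDerivAt t (hd t ht))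
      have h2 : HasDerivAt (fun s => (w s).re) (w' t).re t :=
        (Complex.reCLM.hasFDerivAt.comp_hasDerivAt t (hd t ht))
      exact (h1.const_mul ε).sub h2
    have hcont : ContinuousOn (fun s => ε * (w s).im - (w s).re) (Icc a b) :=
      (continuousOn_const.mul (Complex.continuous_im.comp_continuousOn hc)).sub
        (Complex.continuous_re.comp_continuousOn hc)
    have hmono : MonotoneOn (fun s => ε * (w s).im - (w s).re) (Icc a b) := by
      refine monotoneOn_of_deriv_nonneg (convex_Icc a b) hcont ?_ ?_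
      · rw [interior_Icc]
        intro t ht
        exact (hder t ht).differentiableAt.differentiableWithinAt
      · rw [interior_Icc]
        intro t ht
        rw [(hder t ht).deriv]
        have := hε t ht
        linarith
    exact hmono ⟨le_rfl, hab.le⟩ ⟨hab.le, le_rfl⟩ hab.le
  rcases lt_or_gt_of_ne (him _ hm) with hneg | hpos
  · have hall : ∀ t ∈ Ioo a b, (w' t).im < 0 := by
      intro t ht
      exact isPreconnected_Ioo.gt_of_ne hci him ⟨_, hm, hneg⟩ ht
    have h := mono (-1) (by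
      intro t ht
      have h1 := hall t ht
      have h2 := hsq t ht
      nlinarith)
    have := neg_abs_le ((w b).im - (w a).im)
    linarith
  · have hall : ∀ t ∈ Ioo a b, 0 < (w' t).im := by
      intro t ht
      exact isPreconnected_Ioo.lt_of_ne hci him ⟨_, hm, hpos⟩ ht
    have h := mono 1 (by
      intro t ht
      have h1 := hall t ht
      have h2 := hsq t ht
      nlinarith)
    have := le_abs_self ((w b).im - (w a).im)
    linarith

lemma re_sq_nonpos (X u : ℂ) (ρ : ℝ) (hρ : 0 < ρ) (h : X * u ^ 2 = -(ρ : ℂ)) (hX : 0 ≤ X.re) :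
    u ≠ 0 ∧ (u ^ 2).re ≤ 0 := by
  have hρ' : (-(ρ : ℂ)) ≠ 0 := by
    simpa using hρ.ne'
  have hX0 : X ≠ 0 := by
    intro h0
    rw [h0, zero_mul] at h
    exact hρ' h.symm
  refine ⟨?_, ?_⟩
  · intro h0
    rw [h0] at h
    simp only [ne_eq, OfNat.ofNat_ne_zero, not_false_eq_true, zero_pow, mul_zero] at h
    exact hρ' h.symm
  · have h1 : u ^ 2 = -(ρ : ℂ) / X := by
      rw [eq_div_iff hX0, mul_comm]
      exact h
    rw [h1, Complex.div_re]
    simp only [neg_re, ofReal_re, neg_im, ofReal_im, neg_zero, zero_mul, zero_div, add_zero]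
    apply div_nonpos_of_nonpos_of_nonneg
    · nlinarith
    · exact Complex.normSq_nonneg X

end Na4P

theorem na4 : S_NA4 := by
  intro r ρ₁ ρ₂ Q κ hr hρ₁ hexp hρ₂ hκ h0 hout han hQ
  have he7 : (1 : ℝ) < Real.exp 7 := Real.one_lt_exp_iff.mpr (by norm_num)
  have hlt : ρ₁ < ρ₂ := by nlinarith
  set f : ℝ → ℝ := fun t => ‖κ t - r‖ with hf
  have hfc : ContinuousOn f (Icc 0 1) := (hκ.sub continuousOn_const).norm
  by_contra hcon
  rw [not_subset] at hcon
  obtain ⟨z, ⟨t0, ht0, rfl⟩, hz⟩ := hcon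
  rw [mem_ball, dist_eq_norm, not_lt] at hz
  -- first time at which the curve reaches radius `ρ₂`
  have hS2c : IsCompact (Icc (0 : ℝ) 1 ∩ f ⁻¹' Ici ρ₂) :=
    isCompact_Icc.of_isClosed_subset
      (hfc.preimage_isClosed_of_isClosed isClosed_Icc isClosed_Ici) inter_subset_left
  obtain ⟨t2, ht2⟩ := hS2c.exists_isLeast ⟨t0, ht0, hz⟩
  have ht2I : t2 ∈ Icc (0 : ℝ) 1 := ht2.1.1
  have ht2f : ρ₂ ≤ f t2 := ht2.1.2
  have hbef : ∀ t ∈ Icc (0 : ℝ) 1, t < t2 → f t < ρ₂ := by
    intro t ht htt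
    by_contra hh
    exact absurd (ht2.2 ⟨ht, not_lt.mp hh⟩) (not_le.mpr htt)
  have hsub : Icc 0 t2 ⊆ Icc (0 : ℝ) 1 := Icc_subset_Icc_right ht2I.2
  -- last earlier time at which the curve is within radius `ρ₁`
  have hS1c : IsCompact (Icc (0 : ℝ) t2 ∩ f ⁻¹' Iic ρ₁) :=
    isCompact_Icc.of_isClosed_subset
      ((hfc.mono hsub).preimage_isClosed_of_isClosed isClosed_Icc isClosed_Iic) inter_subset_left
  obtain ⟨t1, ht1⟩ := hS1c.exists_isGreatest ⟨0, ⟨le_rfl, ht2I.1⟩, h0⟩
  have ht1I : t1 ∈ Icc (0 : ℝ) t2 := ht1.1.1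
  have ht1f : f t1 ≤ ρ₁ := ht1.1.2
  have haft : ∀ t ∈ Icc (0 : ℝ) t2, t1 < t → ρ₁ < f t := by
    intro t ht htt
    by_contra hh
    exact absurd (ht1.2 ⟨ht, not_lt.mp hh⟩) (not_le.mpr htt)
  have h12 : t1 < t2 := by
    rcases ht1I.2.lt_or_eq with h | h
    · exact h
    · rw [h] at ht1f
      linarith
  have hsub' : Icc t1 t2 ⊆ Icc (0 : ℝ) 1 := Icc_subset_Icc ht1I.1 ht2I.2
  have hsubo : Ioo t1 t2 ⊆ Ioo (0 : ℝ) 1 := Ioo_subset_Ioo ht1I.1 ht2I.2
  have hle : ∀ t ∈ Icc t1 t2, f t ≤ ρ₂ := by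
    have hcl : Icc t1 t2 = closure (Ico t1 t2) := (closure_Ico h12.ne).symm
    rw [hcl]
    refine le_on_closure (f := f) (g := fun _ => ρ₂) ?_ ?_ continuousOn_const
    · intro t ht
      exact (hbef t (hsub' (Ico_subset_Icc_self ht)) ht.2).le
    · rw [← hcl]
      exact hfc.mono hsub'
  have hslit : ∀ t ∈ Icc t1 t2, κ t - r ∈ slitPlane := by
    intro t ht
    by_contra hh
    rw [mem_slitPlane_iff, not_or, not_lt, not_not] at hh
    obtain ⟨h1, h2⟩ := hh
    have h3 := hle t ht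
    have h4 := hout t (hsub' ht)
    have h5 : (κ t).im = 0 := by simpa using h2
    have h6 : (κ t).re ≤ r := by simpa using h1
    have h7 : ‖κ t‖ = |(κ t).re| := (Complex.abs_re_eq_norm.mpr h5).symm
    have h8 : |(κ t - r).re| ≤ f t := Complex.abs_re_le_norm _
    have h9 : (κ t - r).re = (κ t).re - r := by simp
    rw [h9] at h8
    have h10 := neg_abs_le ((κ t).re - r)
    rw [h7, abs_of_nonneg (by linarith)] at h4
    linarith
  have hne : ∀ t ∈ Icc t1 t2, κ t - r ≠ 0 := fun t ht => slitPlane_ne_zero (hslit t ht)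
  have hmain := Na4P.key (fun t => Complex.log (κ t - r)) (fun t => deriv κ t / (κ t - r)) t1 t2 h12
    (ContinuousOn.clog ((hκ.mono hsub').sub continuousOn_const) hslit)
    (by
      intro t ht
      have h1 : HasDerivAt (fun s => κ s - r) (deriv κ t) t :=
        ((han t (hsubo ht)).1.differentiableAt.hasDerivAt).sub_const _
      exact h1.clog_real (hslit t (Ioo_subset_Icc_self ht)))
    (by
      intro t ht
      have h1 : ContinuousAt (deriv κ) t := (han t (hsubo ht)).1.deriv.continuousAt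
      have h2 : ContinuousAt (fun s => κ s - r) t :=
        (han t (hsubo ht)).1.continuousAt.sub continuousAt_const
      exact (h1.div h2 (hne t (Ioo_subset_Icc_self ht))).continuousWithinAt)
    (by
      intro t ht
      obtain ⟨ρ, hρ, hq⟩ := (han t (hsubo ht)).2
      have hn := hne t (Ioo_subset_Icc_self ht)
      refine (Na4P.re_sq_nonpos ((κ t - r) ^ 2 * Q (κ t)) _ ρ hρ ?_
        (hQ t (hsubo ht) (haft t ⟨ht1I.1.trans ht.1.le, ht.2.le⟩ ht.1).le
          (hle t (Ioo_subset_Icc_self ht)))).1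
      rw [← hq]
      field_simp)
    (by
      intro t ht
      obtain ⟨ρ, hρ, hq⟩ := (han t (hsubo ht)).2
      have hn := hne t (Ioo_subset_Icc_self ht)
      refine (Na4P.re_sq_nonpos ((κ t - r) ^ 2 * Q (κ t)) _ ρ hρ ?_
        (hQ t (hsubo ht) (haft t ⟨ht1I.1.trans ht.1.le, ht.2.le⟩ ht.1).le
          (hle t (Ioo_subset_Icc_self ht)))).2
      rw [← hq]
      field_simp)
  simp only [Complex.log_re, Complex.log_im] at hmain
  have hpos1 : 0 < f t1 := norm_pos_iff.mpr (hne t1 ⟨le_rfl, h12.le⟩)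
  have hl1 : Real.log ‖κ t1 - r‖ ≤ Real.log ρ₁ := Real.log_le_log hpos1 ht1f
  have hl2 : Real.log (Real.exp 7 * ρ₁) ≤ Real.log ‖κ t2 - r‖ :=
    Real.log_le_log (by positivity) (hexp.trans ht2f)
  rw [Real.log_mul (Real.exp_pos 7).ne' hρ₁.ne', Real.log_exp] at hl2
  have ha1 := Complex.abs_arg_le_pi (κ t1 - r)
  have ha2 := Complex.abs_arg_le_pi (κ t2 - r)
  have ha3 : |(κ t2 - r).arg - (κ t1 - r).arg| ≤ π + π :=
    (abs_sub _ _).trans (add_le_add ha2 ha1)
  have hpi := Real.pi_lt_d2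
  linarith

end Pool.Agent.P.MP_3bd355_an
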