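import Pool.Agent.P.MP_3bd355_an.Stmts

/-! A critical arc on the ray through its starting point is the outward radial slit. -/

open Set Filter Metric Complex InnerProductSpace
open scoped Topology ComplexConjugate Real

namespace Pool.Agent.P.MP_3bd355_an

namespace Rad1P

/-- Reflection in the circle of radius `sqrt q`. -/
noncomputable def jj (q : ℝ) (z : ℂ) : ℂ := (q : ℂ) / conj z

theorem norm_jj {q : ℝ} (hq : 0 < q) (z : ℂ) : ‖jj q z‖ = q / ‖z‖ := by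
  simp [jj, abs_of_pos hq]

theorem jj_jj {q : ℝ} (hq : 0 < q) (z : ℂ) : jj q (jj q z) = z := by
  have h : (q : ℂ) ≠ 0 := ofReal_ne_zero.2 hq.ne'
  simp only [jj, map_div₀, conj_ofReal, conj_conj]
  by_cases hz : z = 0
  · simp [hz]
  · field_simp

theorem jj_fix {q : ℝ} {z : ℂ} (hz : z ≠ 0) (h : ‖z‖ ^ 2 = q) : jj q z = z := by
  have h1 : conj z ≠ 0 := by simpa using hz
  rw [jj, div_eq_iff h1, mul_conj, normSq_eq_norm_sq, h]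

theorem jj_cont (q : ℝ) {z : ℂ} (hz : z ≠ 0) : ContinuousAt (jj q) z :=
  continuousAt_const.div continuous_conj.continuousAt (by simpa using hz)

theorem jj_ray (q s : ℝ) {z : ℂ} (hz : z ≠ 0) (hs : s ≠ 0) :
    jj q (s * z) = (q / (s * ‖z‖ ^ 2) : ℝ) * z := by
  have h1 : conj z ≠ 0 := by simpa using hz
  have h2 : (s : ℂ) ≠ 0 := ofReal_ne_zero.2 hs
  have h3 : ((‖z‖ ^ 2 : ℝ) : ℂ) = z * conj z := by rw [mul_conj, normSq_eq_norm_sq]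
  rw [jj, map_mul, conj_ofReal, ofReal_div, ofReal_mul, h3]
  field_simp

theorem harm_jj {v : ℂ → ℝ} {q : ℝ} {z : ℂ} (hz : z ≠ 0) (hv : HarmonicAt v (jj q z)) :
    HarmonicAt (fun y => v (jj q y)) z := by
  have h1 : conj z ≠ 0 := by simpa using hz
  exact harm_conj (u := fun y => v ((q : ℂ) / y))
    (harm_comp (f := fun y => (q : ℂ) / y) hv (analyticAt_const.div analyticAt_id h1))

theorem open_D (r q : ℝ) : IsOpen {z : ℂ | q < ‖z‖ ^ 2 ∧ ‖z‖ < 1 ∧ r * ‖z‖ < q} :=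
  (isOpen_lt continuous_const (continuous_norm.pow 2)).inter
    ((isOpen_lt continuous_norm continuous_const).inter
      (isOpen_lt (continuous_const.mul continuous_norm) continuous_const))

theorem closed_D (r q : ℝ) : IsClosed {z : ℂ | q ≤ ‖z‖ ^ 2 ∧ ‖z‖ ≤ 1 ∧ r * ‖z‖ ≤ q} :=
  (isClosed_le continuous_const (continuous_norm.pow 2)).inter
    ((isClosed_le continuous_norm continuous_const).inter
      (isClosed_le (continuous_const.mul continuous_norm) continuous_const))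

/-- The reflection comparison. -/
theorem compare {r A B q : ℝ} {K : Set ℂ} {v : ℂ → ℝ} (h0 : 0 < r) (hq : r ^ 2 < q) (hq1 : q < 1)
    (hK : IsClosed K) (hKj : ∀ z ∈ K, jj q z ∈ K) (hKr : ∀ z ∈ K, ‖z‖ ≠ r)
    (hc : ContinuousOn v (ann r)) (hh : HarmonicOnNhd v (ann r \ K))
    (hz : ∀ z ∈ ann r, z ∈ K → v z = 0)
    (hA : ∀ p : ℂ, ‖p‖ = 1 → Tendsto v (𝓝[ann r] p) (𝓝 A))
    (hB : ∀ p : ℂ, ‖p‖ = r → p ∉ K → Tendsto v (𝓝[ann r] p) (𝓝 B))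
    (hAB : ∀ z ∈ ann r, A ≤ v z ∧ v z ≤ B) :
    ∀ z : ℂ, q < ‖z‖ ^ 2 → ‖z‖ < 1 → r * ‖z‖ < q → z ∉ K → v z ≤ v (jj q z) := by
  have q0 : 0 < q := (pow_pos h0 2).trans hq
  set D : Set ℂ := {z | q < ‖z‖ ^ 2 ∧ ‖z‖ < 1 ∧ r * ‖z‖ < q} \ K with hD
  have hDo : IsOpen D := (open_D r q).sdiff hK
  have big : ∀ z : ℂ, q ≤ ‖z‖ ^ 2 → r < ‖z‖ := fun z h =>
    lt_of_pow_lt_pow_left₀ 2 (norm_nonneg z) (hq.trans_le h)
  have jin : ∀ z : ℂ, q ≤ ‖z‖ ^ 2 → r * ‖z‖ < q → jj q z ∈ ann r := by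
    intro z h1 h2
    have n0 : 0 < ‖z‖ := h0.trans (big z h1)
    refine ⟨?_, ?_⟩
    · rw [norm_jj q0, lt_div_iff₀ n0]
      exact h2
    · rw [norm_jj q0, div_lt_one n0]
      by_contra hcon
      push Not at hcon
      nlinarith
  have hDa : D ⊆ ann r := fun z h => ⟨big z h.1.1.le, h.1.2.1⟩
  have hDj : ∀ z ∈ D, jj q z ∈ ann r := fun z h => jin z h.1.1.le h.1.2.2
  have hharm : HarmonicOnNhd (fun z => v z - v (jj q z)) D := by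
    intro z h
    have z0 : z ≠ 0 := norm_pos_iff.1 (h0.trans (hDa h).1)
    refine (hh z ⟨hDa h, h.2⟩).sub (harm_jj z0 (hh _ ⟨hDj z h, fun hk => h.2 ?_⟩))
    simpa only [jj_jj q0] using hKj _ hk
  have key := (Sub.of_harm hharm).mp0 hDo ((bdd_ann r).subset hDa) (c := 0) (by
    intro p hp
    rw [hDo.frontier_eq] at hp
    have hcl : p ∈ {z : ℂ | q ≤ ‖z‖ ^ 2 ∧ ‖z‖ ≤ 1 ∧ r * ‖z‖ ≤ q} :=
      (closed_D r q).closure_subset_iff.2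
        (fun z (h : z ∈ D) => ⟨h.1.1.le, h.1.2.1.le, h.1.2.2.le⟩) hp.1
    obtain ⟨c1, c2, c3⟩ := hcl
    have n0 : 0 < ‖p‖ := h0.trans (big p c1)
    have p0 : p ≠ 0 := norm_pos_iff.1 n0
    have tj : Tendsto (jj q) (𝓝[D] p) (𝓝[ann r] (jj q p)) :=
      tendsto_nhdsWithin_iff.2 ⟨(jj_cont q p0).tendsto.mono_left nhdsWithin_le_nhds,
        eventually_mem_nhdsWithin.mono hDj⟩
    rcases c2.eq_or_lt with e1 | l1
    · have h1 : LS (fun z => v z - A) D p (A - A) :=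
        LS.of_tendsto (((hA p e1).mono_left (nhdsWithin_mono _ hDa)).sub_const A) le_rfl
      rw [sub_self] at h1
      refine h1.of_le (eventually_mem_nhdsWithin.mono fun z h => ?_)
      linarith [(hAB _ (hDj z h)).1]
    have pa : p ∈ ann r := ⟨big p c1, l1⟩
    have tv : Tendsto v (𝓝[D] p) (𝓝 (v p)) := (hc p pa).mono_left (nhdsWithin_mono _ hDa)
    rcases c3.eq_or_lt with e3 | l3
    · have e : ‖jj q p‖ = r := by
        rw [norm_jj q0, ← e3]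
        field_simp
      have := (hB _ e fun hk => hKr _ hk e).comp tj
      exact LS.of_tendsto (tv.sub this) (by linarith [(hAB p pa).2])
    have ja := jin p c1 l3
    refine LS.of_tendsto (tv.sub ((hc _ ja).tendsto.comp tj)) (le_of_eq ?_)
    rcases c1.eq_or_lt with e2 | l2
    · rw [jj_fix p0 e2.symm, sub_self]
    · have pK : p ∈ K := by
        by_contra hk
        exact hp.2 ⟨⟨l2, l1, l3⟩, hk⟩
      rw [hz p pa pK, hz _ ja (hKj p pK), sub_self])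
  intro z h1 h2 h3 h4
  linarith [key z ⟨⟨h1, h2, h3⟩, h4⟩]

end Rad1P

open Rad1P

theorem rad1 (h : S_CRIT1) : S_RAD1 := by
  intro r A B z₀ z₁ a b c κ v g hH hC hray
  obtain ⟨-, hAB, -, -, -, -⟩ := h r A B z₀ z₁ a b c κ v g hH hC
  have N0 : 0 < ‖z₁‖ := hH.r0.trans hH.m1.1
  have z0 : z₁ ≠ 0 := norm_pos_iff.1 N0
  have hk : ∀ t ∈ Icc (0 : ℝ) 1, κ t = (‖κ t‖ / ‖z₁‖ : ℝ) * z₁ := by
    intro t ht
    obtain ⟨s, hs, e⟩ := hray t ht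
    rw [e, norm_mul, norm_real, Real.norm_of_nonneg hs, mul_div_cancel_right₀ _ N0.ne']
  have nc : ContinuousOn (fun t => ‖κ t‖) (Icc 0 1) := hC.cont.norm
  have ni : InjOn (fun t => ‖κ t‖) (Icc 0 1) := by
    intro t ht u hu e
    refine hC.inj ht hu ?_
    rw [hk t ht, hk u hu, show ‖κ t‖ = ‖κ u‖ from e]
  have m0 : (0 : ℝ) ∈ Icc (0 : ℝ) 1 := ⟨le_rfl, zero_le_one⟩
  have m1 : (1 : ℝ) ∈ Icc (0 : ℝ) 1 := ⟨zero_le_one, le_rfl⟩
  have n0 : ‖κ 0‖ = ‖z₁‖ := by rw [hC.start]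
  have hit : ∀ s : ℝ, s * ‖z₁‖ ∈ uIcc ‖κ 0‖ ‖κ 1‖ → (s : ℂ) * z₁ ∈ κ '' Icc 0 1 := by
    intro s hs
    have := intermediate_value_uIcc (f := fun t => ‖κ t‖) (a := 0) (b := 1)
      (by rwa [uIcc_of_le zero_le_one]) hs
    rw [uIcc_of_le zero_le_one] at this
    obtain ⟨t, ht, e⟩ := this
    refine ⟨t, ht, ?_⟩
    rw [hk t ht, show ‖κ t‖ = s * ‖z₁‖ from e, mul_div_cancel_right₀ _ N0.ne']
  rcases nc.strictMonoOn_of_injOn_Icc' zero_le_one ni with hm | hm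
  · have lo : ∀ t ∈ Icc (0 : ℝ) 1, ‖z₁‖ ≤ ‖κ t‖ := fun t ht =>
      n0 ▸ hm.monotoneOn m0 ht ht.1
    refine ⟨fun t ht => hH.m1.1.trans_le (lo t ht), n0 ▸ hm m0 m1 zero_lt_one, ?_, hk 1 m1⟩
    ext z
    constructor
    · rintro ⟨t, ht, rfl⟩
      refine ⟨‖κ t‖ / ‖z₁‖, (one_le_div N0).2 (lo t ht), ?_, hk t ht⟩
      rw [div_mul_cancel₀ _ N0.ne']
      exact hm.monotoneOn ht m1 ht.2
    · rintro ⟨s, hs, hs', rfl⟩
      refine hit s (mem_uIcc.2 (Or.inl ⟨?_, hs'⟩))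
      rw [n0]
      nlinarith
  exfalso
  have lt1 : ‖κ 1‖ < ‖z₁‖ := n0 ▸ hm m0 m1 zero_lt_one
  rcases hH.A0.eq_or_lt with hA | hA
  · linarith [(hC.end_zero hA).1, hH.m1.2]
  obtain ⟨hR, -, -, T, Tc, T0, Tv, -⟩ := hC.end_neg hA
  have r0 := hH.r0
  have R0 : 0 < ‖κ 1‖ := r0.trans hR.1
  have bd : ∀ t ∈ Icc (0 : ℝ) 1, ‖κ 1‖ ≤ ‖κ t‖ ∧ ‖κ t‖ ≤ ‖z₁‖ := fun t ht =>
    ⟨hm.antitoneOn ht m1 ht.2, n0 ▸ hm.antitoneOn m0 ht ht.1⟩
  set q : ℝ := ‖z₁‖ * ‖κ 1‖ with hq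
  have q0 : 0 < q := mul_pos N0 R0
  have hKj : ∀ z ∈ κ '' Icc 0 1, jj q z ∈ κ '' Icc 0 1 := by
    rintro z ⟨t, ht, rfl⟩
    have t0 : 0 < ‖κ t‖ := R0.trans_le (bd t ht).1
    rw [hk t ht, jj_ray q _ z0 (div_pos t0 N0).ne']
    refine hit _ (mem_uIcc.2 (Or.inr ?_))
    have e : q / (‖κ t‖ / ‖z₁‖ * ‖z₁‖ ^ 2) * ‖z₁‖ = q / ‖κ t‖ := by field_simp
    rw [e, n0, le_div_iff₀ t0, div_le_iff₀ t0, hq]
    constructor
    · nlinarith [(bd t ht).2]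
    · nlinarith [(bd t ht).1]
  have cmp := Rad1P.compare (A := A) (B := B) (q := q) (K := κ '' Icc 0 1) r0
    (by nlinarith [hR.1, hH.m1.1]) (by nlinarith [hR.2, hH.m1.2])
    (isCompact_Icc.image_of_continuousOn hC.cont).isClosed hKj
    (by
      rintro z ⟨t, ht, rfl⟩
      exact (hR.1.trans_le (bd t ht).1).ne')
    hC.v_cont hC.v_harm hC.v_zero hC.v_outer hC.v_inner hAB
  have k0 : κ 1 ≠ 0 := norm_pos_iff.1 R0
  have jk : jj q (κ 1) = z₁ := by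
    rw [hk 1 m1, jj_ray q _ z0 (div_pos R0 N0).ne']
    have : q / (‖κ 1‖ / ‖z₁‖ * ‖z₁‖ ^ 2) = 1 := by
      rw [hq]
      field_simp
    rw [this, ofReal_one, one_mul]
  have tT : Tendsto T (𝓝[Ioo 0 1] 0) (𝓝 (κ 1)) := by
    rw [← T0]
    exact (Tc 0 ⟨le_rfl, zero_lt_one⟩).mono_left (nhdsWithin_mono _ Ioo_subset_Ico_self)
  have tJ : Tendsto (fun t => jj q (T t)) (𝓝[Ioo 0 1] 0) (𝓝 z₁) := by
    rw [← jk]
    exact (jj_cont q k0).tendsto.comp tT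
  have ev : ∀ᶠ z in 𝓝 z₁, 0 ≤ v z ∧ q < ‖z‖ ^ 2 ∧ ‖z‖ < 1 ∧ r * ‖z‖ < q := by
    have e1 := hC.v_pos 0 ⟨le_rfl, zero_lt_one⟩ (n0 ▸ hH.m1.1)
    rw [hC.start] at e1
    refine e1.and ?_
    exact (open_D r q).mem_nhds ⟨by nlinarith, hH.m1.2, by nlinarith [hR.1]⟩
  have : (𝓝[Ioo (0 : ℝ) 1] 0).NeBot := left_nhdsWithin_Ioo_neBot zero_lt_one
  obtain ⟨t, ⟨e0, e1, e2, e3⟩, ht⟩ := ((tJ.eventually ev).and eventually_mem_nhdsWithin).exists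
  have := cmp _ e1 e2 e3 (fun hk' => by
    have h2 := hKj _ hk'
    rw [jj_jj q0] at h2
    linarith [hC.v_zero _ (Tv t ht).1 h2, (Tv t ht).2])
  rw [jj_jj q0] at this
  linarith [(Tv t ht).2]

end Pool.Agent.P.MP_3bd355_an
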