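import Pool.Agent.P.MP_3bd355_an.Stmts2

/-! The radial solution, and monotonicity in the angle. -/

open Set Filter Metric Complex InnerProductSpace
open scoped Topology ComplexConjugate Real

namespace Pool.Agent.P.MP_3bd355_an

namespace X0P

theorem slit_eq {x : ℝ} (hx : 0 < x) (R : ℝ) : slit (x : ℂ) R = seg x R := by
  ext z
  simp only [slit, seg, mem_ofPred_eq, norm_real, Real.norm_eq_abs, abs_of_pos hx]
  constructor
  · rintro ⟨s, h1, h2, rfl⟩
    refine ⟨by simp, ?_, ?_⟩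
    · simp only [mul_re, ofReal_re, ofReal_im, mul_zero, sub_zero]
      nlinarith
    · simpa using h2
  · rintro ⟨h1, h2, h3⟩
    refine ⟨z.re / x, (one_le_div hx).2 h2, by rwa [div_mul_cancel₀ _ hx.ne'], ?_⟩
    refine Complex.ext ?_ (by simp [h1])
    simp only [mul_re, ofReal_re, ofReal_im, mul_zero, sub_zero]
    rw [div_mul_cancel₀ _ hx.ne']

theorem isClosed_seg (x R : ℝ) : IsClosed (seg x R) :=
  (isClosed_eq continuous_im continuous_const).inter
    ((isClosed_le continuous_const continuous_re).inter (isClosed_le continuous_re continuous_const))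

theorem conj_seg {x R : ℝ} {z : ℂ} : conj z ∈ seg x R ↔ z ∈ seg x R := by
  simp [seg]

theorem symm_le {r A B x R : ℝ} {v : ℂ → ℝ} (h0 : 0 < r) (h1 : r < 1)
    (hh : HarmonicOnNhd v (ann r \ seg x R)) (hc : ContinuousOn v (ann r))
    (hz : ∀ z ∈ ann r, z ∈ seg x R → v z = 0)
    (ho : ∀ p : ℂ, ‖p‖ = 1 → Tendsto v (𝓝[ann r] p) (𝓝 A))
    (hi : ∀ p : ℂ, ‖p‖ = r → Tendsto v (𝓝[ann r] p) (𝓝 B)) :
    ∀ z ∈ ann r, v (conj z) ≤ v z := by
  have hO : IsOpen (ann r \ seg x R) := (isOpen_ann r).sdiff (isClosed_seg x R)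
  have tc : ∀ p : ℂ, Tendsto (fun z => conj z) (𝓝[ann r] p) (𝓝[ann r] (conj p)) := fun p =>
    continuous_conj.continuousWithinAt.tendsto_nhdsWithin fun _ hz => conj_mem_ann.2 hz
  have hS : Sub (fun z => v (conj z) - v z) (ann r \ seg x R) :=
    (Sub.of_harm fun z hz => harm_conj
      (hh _ ⟨conj_mem_ann.2 hz.1, fun e => hz.2 (conj_seg.1 e)⟩)).sub_harm hh
  have hle := hS.mp0 hO ((bdd_ann r).subset sdiff_subset) (c := 0) fun p hp => by
    refine LS.mono (LS.of_tendsto (c := 0) ?_ le_rfl) sdiff_subset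
    rw [hO.frontier_eq] at hp
    have hpc : p ∈ cann r := by
      rw [← closure_ann h0 h1]
      exact closure_mono sdiff_subset hp.1
    by_cases ha : p ∈ ann r
    · have hpK : p ∈ seg x R := by
        by_contra hn
        exact hp.2 ⟨ha, hn⟩
      have := ((hc _ (conj_mem_ann.2 ha)).tendsto.comp (tc p)).sub (hc p ha).tendsto
      rwa [hz p ha hpK, hz _ (conj_mem_ann.2 ha) (conj_seg.2 hpK), sub_zero] at this
    · rcases hpc.1.eq_or_lt with e | e
      · simpa using ((hi _ (by rw [norm_conj, e])).comp (tc p)).sub (hi p e.symm)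
      · have e1 : ‖p‖ = 1 := le_antisymm hpc.2 (not_lt.1 fun h => ha ⟨e, h⟩)
        simpa using ((ho _ (by rw [norm_conj, e1])).comp (tc p)).sub (ho p e1)
  intro z hz'
  by_cases hs : z ∈ seg x R
  · rw [hz z hz' hs, hz _ (conj_mem_ann.2 hz') (conj_seg.2 hs)]
  · exact sub_nonpos.1 (hle z ⟨hz', hs⟩)

theorem tend_real {r c : ℝ} {v : ℂ → ℝ} {p : ℂ}
    (h : Tendsto (fun z => (v z : EReal)) (𝓝[ann r] p) (𝓝 (c : EReal))) :
    Tendsto v (𝓝[ann r] p) (𝓝 c) := EReal.tendsto_coe.1 h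

end X0P

open X0P

theorem x0 (hM : S_MAIN) (hR : S_RAD) (hC : S_CRIT1) : S_X0 := by
  intro r A B x x₀ h0 hx hx1 hy hy1 hA hh
  have xp : 0 < x := h0.trans hx
  have h1 : r < 1 := hx.trans hx1
  have nx : ‖(x : ℂ)‖ = x := by rw [norm_real, Real.norm_eq_abs, abs_of_pos xp]
  have m1 : (x : ℂ) ∈ ann r := ⟨by rwa [nx], by rwa [nx]⟩
  have e0 : -(((x₀ / x : ℝ) : ℂ) * x) = -(x₀ : ℂ) := by
    rw [← ofReal_mul, div_mul_cancel₀ _ xp.ne']
  have m0 : -(x₀ : ℂ) ∈ ann r := by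
    have : ‖-(x₀ : ℂ)‖ = x₀ := by
      rw [norm_neg, norm_real, Real.norm_eq_abs, abs_of_pos (h0.trans hy)]
    exact ⟨by rwa [this], by rwa [this]⟩
  obtain ⟨R, v, a1, a2, a3, a4, a5, a6, a7, a8, a9, a10⟩ := hR r A B x (x₀ / x) h0
    (div_pos (h0.trans hy) xp) (e0 ▸ m0) m1 hA hh
  rw [e0] at a9 a10
  rw [slit_eq xp] at a4 a6
  rw [nx] at a1 a7
  have hB := B_pos h0 m1 hA hh
  obtain ⟨a, b, c, κ, w, g, hc, -, hw⟩ := (hM r A B (-x₀) x h0 m0 m1 hA hh fun t ht e => by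
    have := congrArg re e
    simp only [neg_re, ofReal_re, re_ofReal_mul] at this
    nlinarith [mul_pos ht xp]).2.2 _ a8 a9
  have hw' : ∀ z ∈ ann r, v z = w z := fun z hz => EReal.coe_eq_coe_iff.1 (hw z hz)
  have ho := fun p hp => tend_real (a8.outer p hp)
  have hi := fun p hp => tend_real (a8.inner p hp)
  refine ⟨R, v, ⟨h0, hx, a1, a2, hA, hB, a3, a4, a5, a6, ho, hi, fun z hz => ?_, ?_, fun hR1 => ?_,
    fun z hz => le_antisymm (symm_le h0 h1 a4 a5 a6 ho hi z hz) ?_⟩, a8, a9, a10⟩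
  · rw [hw' z hz]
    exact (hC r A B _ _ a b c κ w g ⟨h0, h1, m0, m1, hA, hB⟩ hc).2.1 z hz
  · have := hc.v_pos 0 ⟨le_rfl, one_pos⟩ (by rw [hc.start]; exact m1.1)
    rw [hc.start] at this
    filter_upwards [this, (isOpen_ann r).mem_nhds m1] with z h2 h3
    rwa [hw' z h3]
  · have := a7 (lt_of_le_of_ne hA fun e => hR1.ne (a3.2 e))
    rwa [← ofReal_mul, div_mul_cancel₀ _ xp.ne'] at this
  · simpa only [conj_conj] using symm_le h0 h1 a4 a5 a6 ho hi _ (conj_mem_ann.2 hz)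

theorem x8 (hM : S_MREAL) (hE : S_E1) (hS : S_SC) (hF : S_FOLD1) (hR : S_ROT) : S_X8 := by
  intro r A B z z' z₁ h0 m0 m1 hA hh hn hd
  by_cases e : z' = z
  · rw [e]
  have hne : z - z' ≠ 0 := sub_ne_zero.2 (Ne.symm e)
  have hp : 0 < ‖z - z'‖ := norm_pos_iff.2 hne
  set ω : ℂ := I * conj (z - z') / (‖z - z'‖ : ℝ) with hω
  have h1 : ‖ω‖ = 1 := by
    rw [hω, norm_div, norm_mul, norm_I, norm_conj, norm_real, norm_norm, one_mul, div_self hp.ne']
  have hsq : z'.re ^ 2 + z'.im ^ 2 = z.re ^ 2 + z.im ^ 2 := by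
    have := congrArg (· ^ 2) hn
    simp only [Complex.sq_norm, normSq_apply] at this
    linarith
  have k1 : ω * (z - z') = I * (‖z - z'‖ : ℝ) := by
    have : (‖z - z'‖ : ℂ) ≠ 0 := ofReal_ne_zero.2 hp.ne'
    rw [hω, div_mul_eq_mul_div, mul_assoc, conj_mul']
    field_simp
  have k2 : (ω * (z + z')).im = 0 := by
    rw [hω, div_mul_eq_mul_div, div_ofReal_im]
    simp only [mul_im, mul_re, I_re, I_im, conj_re, conj_im, sub_re, sub_im, add_re, add_im]
    rw [div_eq_zero_iff]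
    left
    linarith
  have k3 := congrArg re k1
  have k4 := congrArg im k1
  rw [mul_sub] at k3 k4
  rw [mul_add] at k2
  simp only [sub_re, sub_im, add_im, mul_re I, mul_im I, I_re, I_im, ofReal_re, ofReal_im, zero_mul,
    mul_zero, sub_zero, one_mul, zero_add] at k2 k3 k4
  have hc : ω * z' = conj (ω * z) := Complex.ext (by rw [conj_re]; linarith)
    (by rw [conj_im]; linarith)
  have i0 : 0 < (ω * z).im := by linarith
  have nr : ∀ w : ℂ, ‖ω * w‖ = ‖w‖ := fun w => by rw [norm_mul, h1, one_mul]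
  have i1 : (ω * z₁).im ≤ 0 := by
    rw [← nr, ← nr (z - z₁), mul_sub, mul_sub, hc] at hd
    have := pow_le_pow_left₀ (norm_nonneg _) hd 2
    simp only [Complex.sq_norm, normSq_apply, sub_re, sub_im, conj_re, conj_im] at this
    by_contra hcon
    nlinarith [mul_pos i0 (not_le.1 hcon)]
  have ma : ∀ w ∈ ann r, ω * w ∈ ann r := fun w hw => by
    simpa only [ann, mem_ofPred_eq, nr] using hw
  have hy : Hyp r A B (ω * z) (ω * z₁) := ⟨h0, m0.1.trans m0.2, ma _ m0, ma _ m1, hA,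
    by simpa only [hf, nr] using hh, i0.le, i1⟩
  rw [← (hR r A B z' z₁ ω h1).2.1, ← (hR r A B z z₁ ω h1).2.1, hc]
  obtain ⟨m, hm, -, hb, -⟩ := hM r A B _ _ hy.ch
  obtain ⟨m', hm', -, -, ha⟩ := hM r A B (conj (ω * z)) (ω * z₁)
    ⟨h0, hy.r1, conj_mem_ann.2 hy.m0, hy.m1, hA, hy.B0⟩
  rw [hm, hm', EReal.coe_le_coe_iff]
  refine le_of_forall_pos_le_add fun η hη => ?_
  obtain ⟨u, γ, hu, hl⟩ := ha η hη
  obtain ⟨L, v, hcf, hfh, -⟩ := hE r A B _ _ u γ hy hu
  obtain ⟨K, hK⟩ := hS r A B _ L v hcf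
  have q1 := (hF r A B L u v hcf.cont hcf.ok hy.B0.le hcf.sol hu.sh hu.outer hu.inner hfh _ hy.m0
    i0.le).2
  have q2 := hb K v (SC.gc hcf hK)
  linarith

end Pool.Agent.P.MP_3bd355_an
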