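import Pool.Agent.P.MP_3bd355_an.Stmts2

/-! The logarithmic gradient at points of the two circles. -/

open Set Filter Metric Complex InnerProductSpace
open scoped Topology ComplexConjugate Real

namespace Pool.Agent.P.MP_3bd355_an

namespace X1P

theorem isClosed_seg (x R : ℝ) : IsClosed (seg x R) :=
  (isClosed_eq continuous_im continuous_const).inter
    ((isClosed_le continuous_const continuous_re).inter (isClosed_le continuous_re continuous_const))

theorem norm_chart (p : ℂ) (σ : ℝ) (η : ℂ) :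
    ‖p * exp (σ * I * η)‖ = ‖p‖ * Real.exp (-(σ * η.im)) := by
  rw [norm_mul, norm_exp]
  simp

theorem core {U : Set ℂ} {p : ℂ} {σ L : ℝ} {v : ℂ → ℝ} (hp : p ≠ 0) (hσ : σ * σ = 1)
    (hH : ∀ᶠ z in 𝓝[U] p, HarmonicAt v z)
    (hU : ∀ᶠ z in 𝓝 p, z ∈ U ↔ σ * Real.log (‖z‖ / ‖p‖) < 0)
    (hL : ∀ q : ℂ, ‖q‖ = ‖p‖ → Tendsto v (𝓝[U] q) (𝓝 L))
    (hpos : ∀ z ∈ U, 0 ≤ σ * (v z - L)) :
    ∃ c : ℝ, c ≤ 0 ∧ Tendsto (LGr v) (𝓝[U] p) (𝓝 (c : ℂ)) := by
  have hp' : ‖p‖ ≠ 0 := norm_ne_zero_iff.2 hp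
  have hσ' : (σ : ℂ) * σ = 1 := by exact_mod_cast hσ
  set f : ℂ → ℂ := fun η => p * exp (σ * I * η) with hf
  have cf : Continuous f := by simp only [hf]; fun_prop
  have f0 : f ((0 : ℝ) : ℂ) = p := by simp [hf]
  have tf : ∀ t : ℝ, (∀ᶠ z in 𝓝 (f t), z ∈ U ↔ σ * Real.log (‖z‖ / ‖p‖) < 0) →
      Tendsto f (𝓝[upH] (t : ℂ)) (𝓝[U] (f t)) := fun t ht => by
    have h1 : Tendsto f (𝓝[upH] (t : ℂ)) (𝓝 (f t)) := (cf.tendsto _).mono_left nhdsWithin_le_nhds
    refine tendsto_nhdsWithin_of_tendsto_nhds_of_eventually_within _ h1 ?_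
    filter_upwards [h1.eventually ht, self_mem_nhdsWithin] with η h2 h3
    rw [h2, hf, norm_chart, mul_div_cancel_left₀ _ hp', Real.log_exp, mul_neg, ← mul_assoc, hσ,
      one_mul, neg_lt_zero]
    exact h3
  have t0 : Tendsto f (𝓝[upH] ((0 : ℝ) : ℂ)) (𝓝[U] p) := by
    have := tf 0 (by rw [f0]; exact hU)
    rwa [f0] at this
  have af : ∀ η, AnalyticAt ℂ f η := fun η => by simp only [hf]; fun_prop
  obtain ⟨Φ, hΦ⟩ := refAt_of_tendsto (u := fun η => σ * (v (f η) - L)) (x := 0)
    (by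
      filter_upwards [t0.eventually hH] with η hη
      exact harm_const_mul ((harm_comp hη (af η)).sub (harmonicAt_const L)) σ)
    (by
      have h1 : Tendsto (fun t : ℝ => f t) (𝓝 0) (𝓝 p) := by
        have := (cf.comp continuous_ofReal).tendsto 0
        rwa [Function.comp_apply, f0] at this
      filter_upwards [h1.eventually hU.eventually_nhds] with t ht
      have h2 := (((hL (f t) (by rw [hf, norm_chart]; simp)).comp (tf t ht)).sub_const L).const_mul σ
      simpa using h2)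
  have h1 : 0 ≤ (deriv Φ (0 : ℝ)).re := (hΦ.nonneg (C := 0) (by
    filter_upwards [t0.eventually self_mem_nhdsWithin] with η hη
    simpa using hpos _ hη)).self_of_nhds
  have h2 : ∀ᶠ η in 𝓝[upH] ((0 : ℝ) : ℂ), LGr v (f η) = -deriv Φ η := by
    filter_upwards [hΦ.grad, t0.eventually hH] with η h3 h4
    have h5 : deriv f η = σ * I * f η := by
      have := (((hasDerivAt_id η).const_mul ((σ : ℂ) * I)).cexp.const_mul p).deriv
      simp only [id, mul_one] at this
      rw [hf, this]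
      ring
    rw [grad_const_mul, grad_sub (harm_diff (harm_comp h4 (af η))) (differentiableAt_const L),
      grad_const, grad_comp (harm_diff h4) (af η).differentiableAt, h5] at h3
    unfold LGr
    linear_combination (-I) * h3 + (f η * grad v (f η) * I ^ 2) * hσ' +
      (f η * grad v (f η) + deriv Φ η) * I_sq
  set g : ℂ → ℂ := fun z => -(σ * I * log (z / p)) with hg
  have tg : Tendsto g (𝓝[U] p) (𝓝[upH] ((0 : ℝ) : ℂ)) := by
    refine tendsto_nhdsWithin_of_tendsto_nhds_of_eventually_within _ ?_ ?_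
    · have h3 : ContinuousAt g p :=
        (((continuousAt_id.div_const p).clog (by simp [div_self hp])).const_mul _).neg
      have h4 : g p = ((0 : ℝ) : ℂ) := by simp [hg, div_self hp]
      exact (h4 ▸ h3.tendsto).mono_left nhdsWithin_le_nhds
    · filter_upwards [nhdsWithin_le_nhds hU, self_mem_nhdsWithin] with z h3 h4
      have h5 := h3.1 h4
      show 0 < (g z).im
      simpa [hg, log_re] using h5
  refine ⟨-(deriv Φ (0 : ℝ)).re, neg_nonpos.2 h1, ?_⟩
  have h3 : ((-(deriv Φ (0 : ℝ)).re : ℝ) : ℂ) = -deriv Φ (0 : ℝ) := by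
    apply Complex.ext
    · rw [ofReal_re, neg_re]
    · rw [ofReal_im, neg_im, har2_deriv_im hΦ, neg_zero]
  rw [h3]
  refine ((hΦ.1.deriv.continuousAt.tendsto.neg.mono_left nhdsWithin_le_nhds).comp tg).congr' ?_
  filter_upwards [tg.eventually h2, nhdsWithin_le_nhds (eventually_ne_nhds hp)] with z h4 h5
  have h6 : f (g z) = z := by
    have : (σ : ℂ) * I * g z = log (z / p) := by
      simp only [hg]
      linear_combination (-(I ^ 2) * log (z / p)) * hσ' - log (z / p) * I_sq
    simp only [hf]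
    rw [this, exp_log (div_ne_zero h5 hp), mul_div_cancel₀ _ hp]
  rw [h6] at h4
  exact h4.symm

end X1P

theorem x1 : S_X1 := by
  intro r A B x R v p h hp hs
  have r1 : r < 1 := (h.rx.trans h.xR).trans_le h.R1
  have hH : ∀ᶠ z in 𝓝[ann r] p, HarmonicAt v z := by
    filter_upwards [nhdsWithin_le_nhds ((X1P.isClosed_seg x R).isOpen_compl.mem_nhds hs),
      self_mem_nhdsWithin] with z h1 h2
    exact h.harm z ⟨h2, h1⟩
  rcases hp with hp | hp
  · refine X1P.core (σ := -1) (L := B) (norm_pos_iff.1 (hp ▸ h.r0)) (by norm_num) hH ?_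
      (fun q hq => h.inner q (hq.trans hp)) fun z hz => by linarith [(h.bnd z hz).2]
    filter_upwards [continuous_norm.continuousAt.eventually (gt_mem_nhds (hp.trans_lt r1))]
      with z hz
    rw [hp, neg_one_mul, neg_lt_zero, Real.log_pos_iff (div_nonneg (norm_nonneg z) h.r0.le),
      one_lt_div h.r0]
    exact ⟨fun h1 => h1.1, fun h1 => ⟨h1, hz⟩⟩
  · refine X1P.core (σ := 1) (L := A) (norm_pos_iff.1 (hp ▸ one_pos)) (by norm_num) hH ?_
      (fun q hq => h.outer q (hq.trans hp)) fun z hz => by linarith [(h.bnd z hz).1]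
    filter_upwards [continuous_norm.continuousAt.eventually (lt_mem_nhds (r1.trans_eq hp.symm))]
      with z hz
    rw [hp, one_mul, div_one, Real.log_neg_iff (h.r0.trans hz)]
    exact ⟨fun h1 => h1.2, fun h1 => ⟨hz, h1⟩⟩

end Pool.Agent.P.MP_3bd355_an
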