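import Pool.Agent.P.MP_3bd355_an.Stmts2

/-! Boundary values of the logarithmic gradient at the interior points of the slit. -/

open Set Filter Metric Complex InnerProductSpace
open scoped Topology ComplexConjugate Real

namespace Pool.Agent.P.MP_3bd355_an

namespace X2P

theorem grad_conj (u : ℂ → ℝ) (z : ℂ) : grad (fun y => u (conj y)) z = conj (grad u (conj z)) := by
  have h := conjCLE.comp_right_fderiv (f := u) (x := z)
  have e : (fun y => u (conj y)) = u ∘ conjCLE := rfl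
  unfold grad
  rw [e, h]
  simp

variable {r A B x R : ℝ} {v : ℂ → ℝ}

theorem GG_conj (h : RS r A B x R v) {z : ℂ} (hz : z ∈ ann r) :
    LGr v z = conj (LGr v (conj z)) := by
  have e : grad v z = grad (fun y => v (conj y)) z :=
    grad_congr (by
      filter_upwards [(isOpen_ann r).mem_nhds hz] with y hy using (h.symm y hy).symm)
  simp only [LGr, map_mul, conj_conj, e, grad_conj]

theorem mem_ann (h : RS r A B x R v) {t : ℝ} (h1 : x < t) (h2 : t < R) : (t : ℂ) ∈ ann r := by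
  have h0 : 0 < t := (h.r0.trans h.rx).trans h1
  simp only [ann, mem_ofPred_eq, norm_real, Real.norm_eq_abs, abs_of_pos h0]
  exact ⟨h.rx.trans h1, h2.trans_le h.R1⟩

theorem exists_ref (h : RS r A B x R v) {t : ℝ} (h1 : x < t) (h2 : t < R) :
    ∃ Φ, RefAt v t Φ := by
  refine refAt_of_tendsto ?_ ?_
  · filter_upwards [self_mem_nhdsWithin,
      mem_nhdsWithin_of_mem_nhds ((isOpen_ann r).mem_nhds (mem_ann h h1 h2))] with η a b
    exact h.harm η ⟨b, fun c => (show 0 < η.im from a).ne' c.1⟩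
  · filter_upwards [Ioo_mem_nhds h1 h2] with s hs
    have m := mem_ann h hs.1 hs.2
    have c := (h.cont.continuousAt ((isOpen_ann r).mem_nhds m)).tendsto
    rw [h.zero _ m ⟨ofReal_im s, by simpa using hs.1.le, by simpa using hs.2.le⟩] at c
    exact c.mono_left nhdsWithin_le_nhds

theorem up (h : RS r A B x R v) {t : ℝ} (h1 : x < t) (h2 : t < R) :
    ∃ β : ℝ, Tendsto (LGr v) (𝓝[upH] (t : ℂ)) (𝓝 (-I * β)) := by
  obtain ⟨Φ, hΦ⟩ := exists_ref h h1 h2
  refine ⟨t * (deriv Φ t).re, ?_⟩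
  have e : deriv Φ t = ((deriv Φ t).re : ℂ) :=
    Complex.ext (by simp) (by simpa using hΦ.deriv_im.self_of_nhds)
  have c : Tendsto (fun z : ℂ => z * (-I * deriv Φ z)) (𝓝 (t : ℂ))
      (𝓝 ((t : ℂ) * (-I * deriv Φ t))) :=
    tendsto_id.mul (hΦ.1.deriv.continuousAt.tendsto.const_mul _)
  have e2 : (t : ℂ) * (-I * deriv Φ t) = -I * ((t * (deriv Φ t).re : ℝ) : ℂ) := by
    conv_lhs => rw [e]
    push_cast
    ring
  rw [e2] at c
  refine (c.mono_left nhdsWithin_le_nhds).congr' ?_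
  filter_upwards [hΦ.grad] with η hη
  rw [LGr, hη]

theorem both (h : RS r A B x R v) {t : ℝ} (h1 : x < t) (h2 : t < R) {c : ℂ}
    (hc : Tendsto (LGr v) (𝓝[upH] (t : ℂ)) (𝓝 c)) {Y : Type} [TopologicalSpace Y] {F : ℂ → Y}
    (hF : Continuous F) {y : Y} (e1 : F c = y) (e2 : F (conj c) = y) :
    Tendsto (fun z => F (LGr v z)) (𝓝[ann r \ seg x R] (t : ℂ)) (𝓝 y) := by
  have le : 𝓝[ann r \ seg x R] (t : ℂ) ≤ 𝓝[upH ∪ {z : ℂ | z.im < 0}] (t : ℂ) := by
    refine nhdsWithin_le_of_mem ?_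
    have o : ∀ᶠ z : ℂ in 𝓝 (t : ℂ), z.re ∈ Ioo x R :=
      (continuous_re.tendsto (t : ℂ)).eventually (Ioo_mem_nhds h1 h2)
    filter_upwards [self_mem_nhdsWithin, mem_nhdsWithin_of_mem_nhds o] with z a b
    rcases lt_trichotomy z.im 0 with k | k | k
    · exact Or.inr k
    · exact (a.2 ⟨k, b.1.le, b.2.le⟩).elim
    · exact Or.inl k
  refine Tendsto.mono_left ?_ le
  rw [nhdsWithin_union, tendsto_sup]
  constructor
  · exact e1 ▸ (hF.tendsto c).comp hc
  · have k : Tendsto (fun z : ℂ => conj z) (𝓝[{z : ℂ | z.im < 0}] (t : ℂ)) (𝓝[upH] (t : ℂ)) := by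
      apply tendsto_nhdsWithin_of_tendsto_nhds_of_eventually_within
      · have := continuous_conj.tendsto (t : ℂ)
        rw [conj_ofReal] at this
        exact this.mono_left nhdsWithin_le_nhds
      · filter_upwards [self_mem_nhdsWithin] with z hz
        simpa [upH] using hz
    have k2 := (hF.tendsto _).comp ((continuous_conj.tendsto c).comp (hc.comp k))
    rw [e2] at k2
    refine k2.congr' ?_
    filter_upwards [mem_nhdsWithin_of_mem_nhds ((isOpen_ann r).mem_nhds (mem_ann h h1 h2))]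
      with z hz
    simp only [Function.comp]
    rw [← GG_conj h hz]

end X2P

theorem x2 : S_X2 := by
  intro r A B x R v t h h1 h2
  obtain ⟨β, hβ⟩ := X2P.up h h1 h2
  refine ⟨β, X2P.both h h1 h2 hβ (F := fun w => w ^ 2) (continuous_pow 2) ?_ ?_,
    X2P.both h h1 h2 hβ (F := fun w => w.re) continuous_re (by simp) (by simp)⟩
  · push_cast
    rw [mul_pow, neg_sq, I_sq]
    ring
  · push_cast
    rw [map_mul, map_neg, conj_I, conj_ofReal, neg_neg, mul_pow, I_sq]
    ring

end Pool.Agent.P.MP_3bd355_an
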