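import Pool.Agent.P.MP_3bd355_an.Stmts2

/-! The logarithmic gradient is bounded at the end of the slit. -/

open Set Filter Metric Complex InnerProductSpace
open scoped Topology ComplexConjugate Real

namespace Pool.Agent.P.MP_3bd355_an

namespace X3P

variable {r A B x R : ℝ} {v : ℂ → ℝ}

theorem sq_notMem {η : ℂ} (hη : η ∈ upH) : (R : ℂ) - η ^ 2 ∉ seg x R := by
  rintro ⟨h1, -, h3⟩
  have h0 : 0 < η.im := hη
  simp only [sub_im, ofReal_im, sq, mul_im, sub_re, ofReal_re, mul_re] at h1 h3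
  have h4 : η.re = 0 := by
    have : η.re * η.im = 0 := by linarith
    exact (mul_eq_zero.mp this).resolve_right h0.ne'
  rw [h4] at h3
  nlinarith

theorem exists_root {z : ℂ} (hz : z ∉ seg x R) (hx : x < z.re) :
    ∃ η ∈ upH, (R : ℂ) - η ^ 2 = z := by
  obtain ⟨η, hη⟩ := IsAlgClosed.exists_pow_nat_eq ((R : ℂ) - z) two_pos
  have e : (R : ℂ) - η ^ 2 = z := by rw [hη]; ring
  rcases lt_trichotomy 0 η.im with h | h | h
  · exact ⟨η, h, e⟩
  · refine absurd ⟨?_, hx.le, ?_⟩ hz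
    · rw [← e]; simp [sq, ← h]
    · rw [← e]; simp [sq, ← h, mul_self_nonneg]
  · exact ⟨-η, by simpa [upH] using h, by rw [neg_sq, e]⟩

theorem cont_chart (R : ℝ) : Continuous fun η : ℂ => (R : ℂ) - η ^ 2 := by fun_prop

/-- the case of a free tip -/
theorem tip (h : RS r A B x R v) (hR : R < 1) :
    ∃ C : ℝ, ∀ᶠ z in 𝓝[ann r \ seg x R] (R : ℂ), ‖LGr v z‖ ≤ C := by
  have hR0 : 0 < R := h.r0.trans (h.rx.trans h.xR)
  have hRa : (R : ℂ) ∈ ann r := by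
    constructor <;> rw [norm_real, Real.norm_of_nonneg hR0.le]
    exacts [h.rx.trans h.xR, hR]
  have ht : Tendsto (fun η : ℂ => (R : ℂ) - η ^ 2) (𝓝 ((0 : ℝ) : ℂ)) (𝓝 (R : ℂ)) :=
    (cont_chart R).tendsto' _ _ (by simp)
  have ha : ∀ᶠ η : ℂ in 𝓝 ((0 : ℝ) : ℂ), (R : ℂ) - η ^ 2 ∈ ann r :=
    ht ((isOpen_ann r).mem_nhds hRa)
  have hh : ∀ᶠ η : ℂ in 𝓝[upH] ((0 : ℝ) : ℂ), HarmonicAt v ((R : ℂ) - η ^ 2) := by
    filter_upwards [nhdsWithin_le_nhds ha, self_mem_nhdsWithin] with η h1 h2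
    exact h.harm _ ⟨h1, sq_notMem h2⟩
  obtain ⟨Φ, hΦ⟩ := refAt_of_tendsto (u := fun η => v ((R : ℂ) - η ^ 2)) (x := 0)
    (hh.mono fun η hη => harm_comp (f := fun η : ℂ => (R : ℂ) - η ^ 2) hη (by fun_prop)) (by
      have h1 : ∀ᶠ t : ℝ in 𝓝 0, t ^ 2 < R - x :=
        (continuous_pow 2).continuousAt.eventually_lt continuousAt_const (by simpa using h.xR)
      filter_upwards [continuous_ofReal.tendsto 0 ha, h1] with t h2 h3
      have h4 : v ((R : ℂ) - (t : ℂ) ^ 2) = 0 := h.zero _ h2 ⟨by simp [sq], by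
        simp only [sq, sub_re, ofReal_re, mul_re, ofReal_im]; nlinarith, by
        simp [sq, mul_self_nonneg]⟩
      rw [← h4]
      exact ((h.cont.continuousAt ((isOpen_ann r).mem_nhds h2)).tendsto.comp
        ((cont_chart R).tendsto (t : ℂ))).mono_left nhdsWithin_le_nhds)
  have hd : deriv Φ ((0 : ℝ) : ℂ) = 0 := by
    obtain ⟨C, hC⟩ := h.tip hR
    refine Complex.ext (tendsto_nhds_unique hΦ.tendsto_div ?_) (har2_deriv_im hΦ)
    have h1 : Tendsto (fun τ : ℝ => C * τ ^ 2) (𝓝[>] 0) (𝓝 0) :=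
      ((by fun_prop : Continuous fun τ : ℝ => C * τ ^ 2).tendsto' _ _ (by simp)).mono_left
        nhdsWithin_le_nhds
    refine squeeze_zero_norm' ?_ h1
    filter_upwards [(tendsto_vert 0).mono_right nhdsWithin_le_nhds (ht hC), self_mem_nhdsWithin]
      with τ h2 h3
    have h4 : 0 < τ := h3
    have h5 : ‖(R : ℂ) - (((0 : ℝ) : ℂ) + τ * I) ^ 2 - R‖ ^ (3 / 2 : ℝ) = τ ^ 2 * τ := by
      rw [sub_sub_cancel_left, norm_neg, norm_pow, ofReal_zero, zero_add, norm_mul, norm_I,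
        mul_one, norm_real, Real.norm_of_nonneg h4.le, ← Real.rpow_natCast,
        ← Real.rpow_mul h4.le, ← Real.rpow_add_one h4.ne']
      norm_num
    have h6 : |v ((R : ℂ) - (((0 : ℝ) : ℂ) + τ * I) ^ 2)| ≤
      C * ‖(R : ℂ) - (((0 : ℝ) : ℂ) + τ * I) ^ 2 - R‖ ^ (3 / 2 : ℝ) := h2
    rw [h5] at h6
    rw [Real.norm_eq_abs, abs_div, abs_of_pos h4, div_le_iff₀ h4]
    linarith
  obtain ⟨C, hC⟩ := hΦ.1.deriv.differentiableAt.isBigO_sub.bound
  obtain ⟨δ, hδ, hb⟩ := har2_ball (hh.and (hΦ.grad.and (nhdsWithin_le_nhds hC)))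
  refine ⟨C / 2, ?_⟩
  have h1 : ∀ᶠ z : ℂ in 𝓝 (R : ℂ), x < z.re :=
    continuousAt_const.eventually_lt continuous_re.continuousAt h.xR
  filter_upwards [nhdsWithin_le_nhds h1, nhdsWithin_le_nhds (ball_mem_nhds (R : ℂ) (pow_pos hδ 2)),
    self_mem_nhdsWithin] with z h2 h3 h4
  obtain ⟨η, h5, rfl⟩ := exists_root h4.2 h2
  have h6 : η ∈ ball ((0 : ℝ) : ℂ) δ := by
    rw [mem_ball_iff_norm, sub_sub_cancel_left, norm_neg, norm_pow] at h3
    rw [mem_ball_iff_norm, ofReal_zero, sub_zero]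
    exact lt_of_pow_lt_pow_left₀ 2 hδ.le h3
  obtain ⟨h7, h8, h9⟩ := hb η ⟨h6, h5⟩
  have h10 : HasDerivAt (fun η : ℂ => (R : ℂ) - η ^ 2) (-(2 * η)) η := by
    simpa using (hasDerivAt_pow 2 η).const_sub (R : ℂ)
  rw [grad_comp (f := fun η : ℂ => (R : ℂ) - η ^ 2) (harm_diff h7) h10.differentiableAt,
    h10.deriv] at h8
  have h11 := congrArg norm h8
  simp only [norm_mul, norm_neg, norm_I, one_mul, norm_ofNat] at h11
  have h12 : ‖deriv Φ η‖ ≤ C * ‖η‖ := by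
    have h13 : ‖deriv Φ η - deriv Φ ((0 : ℝ) : ℂ)‖ ≤ C * ‖η - ((0 : ℝ) : ℂ)‖ := h9
    rwa [hd, sub_zero, ofReal_zero, sub_zero] at h13
  have h14 : 0 < ‖η‖ := norm_pos_iff.mpr (by rintro rfl; simp [upH] at h5)
  have h15 : ‖grad v ((R : ℂ) - η ^ 2)‖ ≤ C / 2 :=
    le_of_mul_le_mul_right (by linarith) h14
  rw [LGr, norm_mul]
  exact (mul_le_of_le_one_left (norm_nonneg _) h4.1.2.le).trans h15

theorem abs_oddE (hs : ∀ z ∈ ann r, v (conj z) = v z) {z : ℂ} (hz : z ∈ ann r) :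
    ‖oddE v z‖ ≤ |v z| := by
  rcases lt_trichotomy 0 z.im with h | h | h
  · rw [oddE_up h, Real.norm_eq_abs]
  · rw [oddE_zero h.symm, norm_zero]; exact abs_nonneg _
  · rw [oddE_low h, hs z hz, norm_neg, Real.norm_eq_abs]

theorem norm_grad_oddE (hs : ∀ z ∈ ann r, v (conj z) = v z) {z : ℂ} (hz : z ∈ ann r)
    (hi : z.im ≠ 0) : ‖grad v z‖ = ‖grad (oddE v) z‖ := by
  rcases lt_or_gt_of_ne hi with h | h
  · have h1 : ∀ᶠ y : ℂ in 𝓝 z, y.im < 0 :=
      continuous_im.continuousAt.eventually_lt continuousAt_const h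
    have h2 : oddE v =ᶠ[𝓝 z] fun y => -1 * v y := by
      filter_upwards [h1, (isOpen_ann r).mem_nhds hz] with y h2 h3
      rw [oddE_low h2, hs y h3, neg_one_mul]
    rw [grad_congr h2, grad_const_mul]
    simp
  · have h1 : ∀ᶠ y : ℂ in 𝓝 z, 0 < y.im :=
      continuousAt_const.eventually_lt continuous_im.continuousAt h
    rw [grad_congr (h1.mono fun y hy => oddE_up hy)]

theorem norm_chart (η : ℂ) : ‖exp (η * I)‖ = Real.exp (-η.im) := by
  rw [norm_exp]; simp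

/-- the case of a slit that ends on the outer circle -/
theorem corner (h : RS r A B x 1 v) :
    ∃ C : ℝ, ∀ᶠ z in 𝓝[ann r \ seg x 1] ((1 : ℝ) : ℂ), ‖LGr v z‖ ≤ C := by
  have hA : A = 0 := h.RA.mp rfl
  have hseg : ∀ z ∈ ann r, x < z.re → z.im = 0 → z ∈ seg x 1 := fun z h1 h2 h3 =>
    ⟨h3, h2.le, (re_le_norm z).trans h1.2.le⟩
  have hU : IsOpen (ann r ∩ {z : ℂ | x < z.re}) :=
    (isOpen_ann r).inter (isOpen_lt continuous_const continuous_re)
  have ho : HarmonicOnNhd (oddE v) (ann r ∩ {z : ℂ | x < z.re}) :=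
    oddE_harm hU (fun z hz => ⟨conj_mem_ann.mpr hz.1, hz.2⟩)
      (fun z hz => h.harm z ⟨hz.1.1, fun h1 => (ne_of_gt hz.2) h1.1⟩) fun t ht => by
        rw [← h.zero _ ht.1 (hseg _ ht.1 ht.2 (ofReal_im t))]
        exact (h.cont.continuousAt ((isOpen_ann r).mem_nhds ht.1)).tendsto.mono_left
          nhdsWithin_le_nhds
  have hc : Continuous fun η : ℂ => exp (η * I) := by fun_prop
  have hann : ∀ t : ℝ, ∀ᶠ η : ℂ in 𝓝[upH] (t : ℂ), exp (η * I) ∈ ann r := fun t => by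
    have h1 : ∀ᶠ η : ℂ in 𝓝 (t : ℂ), r < ‖exp (η * I)‖ :=
      continuousAt_const.eventually_lt hc.norm.continuousAt (by
        rw [norm_exp_ofReal_mul_I]; exact h.rx.trans h.xR)
    filter_upwards [nhdsWithin_le_nhds h1, self_mem_nhdsWithin] with η h2 h3
    refine ⟨h2, ?_⟩
    rw [norm_chart]
    exact Real.exp_lt_one_iff.mpr (neg_lt_zero.mpr h3)
  have hh : ∀ᶠ η : ℂ in 𝓝[upH] ((0 : ℝ) : ℂ), HarmonicAt (oddE v) (exp (η * I)) := by
    have h1 : ∀ᶠ η : ℂ in 𝓝 ((0 : ℝ) : ℂ), x < (exp (η * I)).re :=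
      continuousAt_const.eventually_lt (continuous_re.comp hc).continuousAt
        (by simpa using h.xR)
    filter_upwards [nhdsWithin_le_nhds h1, hann 0] with η h2 h3
    exact ho _ ⟨h3, h2⟩
  obtain ⟨Φ, hΦ⟩ := refAt_of_tendsto (u := fun η => oddE v (exp (η * I))) (x := 0)
    (hh.mono fun η hη => harm_comp (f := fun η : ℂ => exp (η * I)) hη (by fun_prop))
    (Eventually.of_forall fun t => by
      have h1 : Tendsto (fun η : ℂ => v (exp (η * I))) (𝓝[upH] (t : ℂ)) (𝓝 A) :=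
        (h.outer _ (norm_exp_ofReal_mul_I t)).comp (tendsto_nhdsWithin_iff.mpr
          ⟨(hc.tendsto _).mono_left nhdsWithin_le_nhds, hann t⟩)
      refine squeeze_zero_norm' ((hann t).mono fun η hη => abs_oddE h.symm hη) ?_
      simpa [hA] using h1.abs)
  have hC : ∀ᶠ η : ℂ in 𝓝 ((0 : ℝ) : ℂ), ‖deriv Φ η‖ < ‖deriv Φ ((0 : ℝ) : ℂ)‖ + 1 :=
    hΦ.1.deriv.continuousAt.norm.eventually_lt continuousAt_const (lt_add_one _)
  have hl : Tendsto (fun z : ℂ => -I * log z) (𝓝[ann r \ seg x 1] ((1 : ℝ) : ℂ))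
      (𝓝[upH] ((0 : ℝ) : ℂ)) := by
    refine tendsto_nhdsWithin_iff.mpr ⟨?_, ?_⟩
    · have h1 := ((continuousAt_clog one_mem_slitPlane).tendsto.const_mul (-I))
      rw [log_one, mul_zero] at h1
      exact h1.mono_left nhdsWithin_le_nhds
    · filter_upwards [self_mem_nhdsWithin] with z hz
      have h1 := Real.log_neg (h.r0.trans hz.1.1) hz.1.2
      simpa [upH, log_re] using h1
  refine ⟨‖deriv Φ ((0 : ℝ) : ℂ)‖ + 1, ?_⟩
  have h1 : ∀ᶠ z : ℂ in 𝓝 ((1 : ℝ) : ℂ), x < z.re :=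
    continuousAt_const.eventually_lt continuous_re.continuousAt h.xR
  filter_upwards [nhdsWithin_le_nhds h1, self_mem_nhdsWithin,
    hl.eventually (hh.and (hΦ.grad.and (nhdsWithin_le_nhds hC)))] with z h2 h3 ⟨h4, h5, h6⟩
  have h7 : exp (-I * log z * I) = z := by
    rw [show -I * log z * I = log z by linear_combination (-log z) * I_mul_I]
    exact exp_log (norm_pos_iff.mp (h.r0.trans h3.1.1))
  have h8 : HasDerivAt (fun η : ℂ => exp (η * I)) (exp (-I * log z * I) * I) (-I * log z) := by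
    simpa using ((hasDerivAt_id (-I * log z)).mul_const I).cexp
  rw [grad_comp (f := fun η : ℂ => exp (η * I)) (harm_diff h4) h8.differentiableAt, h8.deriv,
    h7] at h5
  have h9 := congrArg norm h5
  simp only [norm_mul, norm_neg, norm_I, one_mul, mul_one] at h9
  have h10 : ‖deriv Φ (-I * log z)‖ < ‖deriv Φ ((0 : ℝ) : ℂ)‖ + 1 := h6
  rw [LGr, norm_mul, norm_grad_oddE h.symm h3.1 fun h0 => h3.2 (hseg z h3.1 h2 h0)]
  linarith

end X3P

theorem x3 : S_X3 := by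
  intro r A B x R v h
  rcases h.R1.lt_or_eq with hR | rfl
  exacts [X3P.tip h hR, X3P.corner h]

end Pool.Agent.P.MP_3bd355_an
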