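import Pool.Agent.P.MP_3bd355_an.Stmts2

/-! The logarithmic gradient of the radial solution near the pole. -/

open Set Filter Metric Complex InnerProductSpace
open scoped Topology ComplexConjugate Real

namespace Pool.Agent.P.MP_3bd355_an

namespace X4P

/-- An even analytic germ is its value plus a quadratic term. -/
theorem even_quad {φ : ℂ → ℂ} (hφ : AnalyticAt ℂ φ 0) (he : ∀ᶠ η in 𝓝 (0 : ℂ), φ (-η) = φ η) :
    ∃ k : ℂ → ℂ, ContinuousAt k 0 ∧ ∀ᶠ η in 𝓝 (0 : ℂ), φ η = φ 0 + η ^ 2 * k η := by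
  obtain ⟨p, hp⟩ := hφ
  have h1 : AnalyticAt ℂ (dslope φ 0) 0 := ⟨_, hp.has_fpower_series_dslope_fslope⟩
  have h2 : ContinuousAt (dslope (dslope φ 0) 0) 0 :=
    continuousAt_dslope_same.2 h1.differentiableAt
  have key : ∀ η : ℂ, φ η = φ 0 + η * dslope φ 0 0 + η ^ 2 * dslope (dslope φ 0) 0 η := by
    intro η
    have a1 := sub_smul_dslope φ 0 η
    have a2 := sub_smul_dslope (dslope φ 0) 0 η
    simp only [sub_zero, smul_eq_mul] at a1 a2
    linear_combination -a1 - η * a2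
  have h3 : ContinuousAt (fun η : ℂ => dslope (dslope φ 0) 0 (-η)) 0 :=
    ContinuousAt.comp (f := fun η : ℂ => -η) (by rw [neg_zero]; exact h2) (by fun_prop)
  refine ⟨fun η => (dslope (dslope φ 0) 0 η + dslope (dslope φ 0) 0 (-η)) / 2,
    (h2.add h3).div_const 2, ?_⟩
  filter_upwards [he] with η h
  have a1 := key η
  have a2 := key (-η)
  linear_combination a1 / 2 + a2 / 2 - h / 2

theorem sq_not_seg {x R : ℝ} {η : ℂ} (h : η ∈ upH) : (x : ℂ) + η ^ 2 ∉ seg x R := by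
  rintro ⟨h1, h2, -⟩
  have h0 : 0 < η.im := h
  simp only [add_im, ofReal_im, zero_add, add_re, ofReal_re, sq, mul_im, mul_re] at h1 h2
  have : η.re = 0 := by
    have : η.re * η.im = 0 := by linarith
    exact (mul_eq_zero.1 this).resolve_right h0.ne'
  rw [this] at h2
  nlinarith

theorem exists_root {x R : ℝ} {z : ℂ} (hz : z ∉ seg x R) (hR : z.re ≤ R) :
    ∃ η ∈ upH, (x : ℂ) + η ^ 2 = z := by
  obtain ⟨w, hw⟩ := IsAlgClosed.exists_pow_nat_eq (z - x) two_pos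
  rcases lt_trichotomy w.im 0 with h | h | h
  · exact ⟨-w, by simpa [upH] using h, by rw [neg_sq, hw]; ring⟩
  · exfalso
    have e : z = x + w ^ 2 := by rw [hw]; ring
    refine hz ⟨?_, ?_, hR⟩
    · rw [e]; simp [sq, h]
    · rw [e]; simp [sq, h, mul_self_nonneg]
  · exact ⟨w, h, by rw [hw]; ring⟩

theorem x_mem {r A B x R : ℝ} {v : ℂ → ℝ} (h : RS r A B x R v) : (x : ℂ) ∈ ann r := by
  have : ‖(x : ℂ)‖ = x := by simp [abs_of_pos (h.r0.trans h.rx)]
  exact ⟨by rw [this]; exact h.rx, by rw [this]; exact h.xR.trans_le h.R1⟩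

theorem sq_tendsto (x : ℝ) : Tendsto (fun η : ℂ => (x : ℂ) + η ^ 2) (𝓝 0) (𝓝 x) := by
  have hc : Continuous (fun η : ℂ => (x : ℂ) + η ^ 2) := by fun_prop
  simpa using hc.tendsto 0

/-- The reflected potential in the chart `z = x + η²` and its even derivative. -/
theorem chart {r A B x R : ℝ} {v : ℂ → ℝ} (h : RS r A B x R v) :
    ∃ (c : ℝ) (k : ℂ → ℂ), 0 ≤ c ∧ ContinuousAt k 0 ∧ ∀ᶠ η in 𝓝[upH] (0 : ℂ),
      grad v (x + η ^ 2) * (2 * η) = -I * (c + η ^ 2 * k η) := by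
  have hA : ∀ᶠ η in 𝓝 (0 : ℂ), (x : ℂ) + η ^ 2 ∈ ann r :=
    (sq_tendsto x).eventually ((isOpen_ann r).mem_nhds (x_mem h))
  have hB : ∀ᶠ η in 𝓝 (0 : ℂ), ((x : ℂ) + η ^ 2).re < R :=
    (sq_tendsto x).eventually
      ((isOpen_lt continuous_re continuous_const).mem_nhds (by simpa using h.xR))
  obtain ⟨ρ, hρ, hb⟩ := Metric.mem_nhds_iff.1 (hA.and hB)
  have hb' : ∀ η ∈ ball ((0 : ℝ) : ℂ) ρ, (x : ℂ) + η ^ 2 ∈ ann r ∧ ((x : ℂ) + η ^ 2).re < R :=
    fun η hη => hb (by simpa using hη)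
  set u : ℂ → ℝ := fun η => v (x + η ^ 2) with hu
  have hh : ∀ η ∈ ball ((0 : ℝ) : ℂ) ρ ∩ upH, HarmonicAt v (x + η ^ 2) := fun η hη =>
    h.harm _ ⟨(hb' η hη.1).1, sq_not_seg hη.2⟩
  obtain ⟨Φ, h1, h2, h3, h4⟩ := reflect (u := u) (x := 0) hρ
    (fun η hη => harm_comp (f := fun η : ℂ => (x : ℂ) + η ^ 2) (hh η hη) (by fun_prop))
    (fun t ht => by
      obtain ⟨m1, m2⟩ := hb' t (har2_real_ball.2 ht)
      have hz : v (x + (t : ℂ) ^ 2) = 0 := h.zero _ m1 ⟨by simp [sq], by simp [sq, mul_self_nonneg],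
        m2.le⟩
      have hc : ContinuousAt u t :=
        ContinuousAt.comp (f := fun η : ℂ => (x : ℂ) + η ^ 2)
          (h.cont.continuousAt ((isOpen_ann r).mem_nhds m1)) (by fun_prop)
      have := hc.tendsto
      simp only [hu, hz] at this
      exact this.mono_left nhdsWithin_le_nhds)
  have hΦ : RefAt u 0 Φ := har2_refAt hρ h1 h2 h3
  have hneg : ∀ η ∈ ball ((0 : ℝ) : ℂ) ρ, -η ∈ ball ((0 : ℝ) : ℂ) ρ := fun η hη => by
    simpa using hη
  have hΨ : RefAt u 0 (fun η => -Φ (-η)) := by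
    refine har2_refAt hρ ((h1.comp (by fun_prop) hneg).neg) (fun t ht => ?_) fun η hη => ?_
    · have := h2 (-t) (by simpa using ht)
      rw [ofReal_neg] at this
      simp [this]
    · have m : conj (-η) ∈ ball ((0 : ℝ) : ℂ) ρ ∩ upH :=
        ⟨har2_conj_ball (hneg η hη.1), by simpa [upH] using hη.2⟩
      rw [neg_im, ← h4 _ (hneg η hη.1), ← h3 _ m]
      have := h.symm _ (hb' η hη.1).1
      simp only [hu]
      rw [← this]
      simp
  have hev : ∀ᶠ η in 𝓝 (0 : ℂ), deriv Φ (-η) = deriv Φ η := by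
    have := hΦ.deriv_eq hΨ
    rw [ofReal_zero] at this
    filter_upwards [this] with η hη
    rw [hη]
    simp [deriv_comp_neg]
  obtain ⟨k, hk, hke⟩ := even_quad (φ := deriv Φ) (by simpa using hΦ.1.deriv) hev
  have him : (deriv Φ 0).im = 0 := by simpa using har2_deriv_im hΦ
  have hre : 0 ≤ (deriv Φ 0).re := by
    have hp : ∀ᶠ η : ℂ in 𝓝[upH] ((0 : ℝ) : ℂ), -(0 : ℝ) * η.im ^ 2 ≤ u η := by
      rw [ofReal_zero]
      filter_upwards [((sq_tendsto x).eventually h.pos).filter_mono nhdsWithin_le_nhds] with η hη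
      simpa using hη
    simpa using (hΦ.nonneg hp).self_of_nhds
  refine ⟨(deriv Φ 0).re, k, hre, hk, ?_⟩
  have hg := hΦ.grad
  rw [ofReal_zero] at hg
  have e0 : (((deriv Φ 0).re : ℝ) : ℂ) = deriv Φ 0 := by
    apply Complex.ext <;> simp [him]
  filter_upwards [hg, hke.filter_mono nhdsWithin_le_nhds, self_mem_nhdsWithin,
    mem_nhdsWithin_of_mem_nhds (ball_mem_nhds (0 : ℂ) hρ)] with η e1 e2 e3 e4
  have hd : HasDerivAt (fun η : ℂ => (x : ℂ) + η ^ 2) (2 * η) η := by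
    simpa using (hasDerivAt_pow 2 η).const_add (x : ℂ)
  have := grad_comp (u := v) (f := fun η : ℂ => (x : ℂ) + η ^ 2)
    (harm_diff (hh η ⟨by simpa using e4, e3⟩)) hd.differentiableAt
  rw [hd.deriv] at this
  rw [← this, e0, ← e2]
  exact e1

/-- The kernel near its pole. -/
theorem ker_pole {r x : ℝ} (h0 : 0 < r) (hx : (x : ℂ) ∈ ann r) :
    ∃ a : ℂ → ℂ, ContinuousAt a x ∧ ∀ z : ℂ, z ≠ x → Kc r x z = -(z + x) / (z - x) + a z := by
  obtain ⟨O, -, -, h3, -, h5⟩ := ker_dom h0 (hx.1.trans hx.2) hx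
  obtain ⟨k1, k2, -⟩ := h5 x (h3 (ann_sub_cann r hx))
  have x0 : (x : ℂ) ≠ 0 := norm_pos_iff.1 (h0.trans hx.1)
  refine ⟨fun z => vk0 r (z / x) - vk r (z * conj (x : ℂ)), (k1.sub k2).continuousAt,
    fun z hz => ?_⟩
  rw [Kc, Ker1P.vk_eq r (z / x), Ker1P.pole x0 hz, conj_ofReal]
  ring

theorem re_pole {c : ℝ} (hc : 0 ≤ c) {η : ℂ} (hη : η ∈ upH) : (-I * c / (2 * η)).re ≤ 0 := by
  have h0 : 0 < η.im := hη
  rw [div_re]
  simp only [neg_mul, neg_re, mul_re, I_re, ofReal_re, zero_mul, I_im, ofReal_im, mul_zero,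
    sub_zero, neg_zero, zero_div, neg_im, mul_im, one_mul, zero_add, re_ofNat, im_ofNat, add_zero]
  apply div_nonpos_of_nonpos_of_nonneg _ (normSq_nonneg _)
  nlinarith [mul_nonneg hc h0.le]

end X4P

open X4P

theorem x4 : S_X4 := by
  intro r A B x R v h
  obtain ⟨c, k, hc, hk, hg⟩ := chart h
  obtain ⟨a, ha, hK⟩ := ker_pole h.r0 (x_mem h)
  have hx : 0 < x := h.r0.trans h.rx
  set F : ℂ → ℂ := fun η => -((x * k η + c + η ^ 2 * k η) *
    ((x + η ^ 2) * (c + η ^ 2 * k η) + x * c)) / 4 + (x * c ^ 2 / 8 : ℝ) * (1 - a (x + η ^ 2))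
    with hF
  set G : ℂ → ℂ := fun η => -I * η * (x * k η + c + η ^ 2 * k η) / 2 with hG
  have ha' : ContinuousAt (fun η : ℂ => a (x + η ^ 2)) 0 :=
    ContinuousAt.comp (f := fun η : ℂ => (x : ℂ) + η ^ 2) (by simpa using ha) (by fun_prop)
  have cF : ContinuousAt F 0 :=
    ContinuousAt.add (ContinuousAt.div_const (by fun_prop) 4)
      (continuousAt_const.mul (continuousAt_const.sub ha'))
  have cG : ContinuousAt G 0 := by simp only [hG]; fun_prop (disch := norm_num)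
  have bF := cF.norm.eventually (gt_mem_nhds (lt_add_one ‖F 0‖))
  have bG := cG.norm.eventually (gt_mem_nhds (lt_add_one ‖G 0‖))
  refine ⟨x * c ^ 2 / 8, (‖F 0‖ + 1) + (‖G 0‖ + 1), by positivity, ?_⟩
  have key : ∀ᶠ η in 𝓝[upH] ((0 : ℝ) : ℂ),
      ‖LGr v (x + η ^ 2) ^ 2 - (x * c ^ 2 / 8 : ℝ) * Kc r x (x + η ^ 2)‖ ≤
        (‖F 0‖ + 1) + (‖G 0‖ + 1) ∧ (LGr v (x + η ^ 2)).re ≤ (‖F 0‖ + 1) + (‖G 0‖ + 1) := by
    rw [ofReal_zero]
    filter_upwards [hg, bF.filter_mono nhdsWithin_le_nhds, bG.filter_mono nhdsWithin_le_nhds,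
      self_mem_nhdsWithin] with η e1 e2 e3 e4
    have η0 : η ≠ 0 := fun e => by simp [e, upH] at e4
    have e5 : LGr v (x + η ^ 2) = (x + η ^ 2) * (-I * (c + η ^ 2 * k η)) / (2 * η) := by
      rw [LGr, ← e1]
      field_simp
    have hne : (x : ℂ) + η ^ 2 ≠ x := by simpa using η0
    constructor
    · have : LGr v (x + η ^ 2) ^ 2 - (x * c ^ 2 / 8 : ℝ) * Kc r x (x + η ^ 2) = F η := by
        rw [e5, hK _ hne, hF]
        simp only [add_sub_cancel_left]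
        push_cast
        field_simp
        linear_combination (32 * (x + η ^ 2) ^ 2 * (c + η ^ 2 * k η) ^ 2) * I_sq
      rw [this]
      linarith [norm_nonneg (G 0)]
    · have : LGr v (x + η ^ 2) = -I * ((x * c : ℝ) : ℂ) / (2 * η) + G η := by
        rw [e5, hG]
        push_cast
        field_simp
        ring
      rw [this, add_re]
      linarith [re_pole (mul_nonneg hx.le hc) e4, re_le_norm (G η), norm_nonneg (F 0)]
  obtain ⟨δ, hδ, hb⟩ := har2_ball key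
  have hB : ∀ᶠ z : ℂ in 𝓝 (x : ℂ), z.re < R :=
    (isOpen_lt continuous_re continuous_const).mem_nhds (by simpa using h.xR)
  filter_upwards [self_mem_nhdsWithin, hB.filter_mono nhdsWithin_le_nhds,
    mem_nhdsWithin_of_mem_nhds (ball_mem_nhds (x : ℂ) (pow_pos hδ 2))] with z z1 z2 z3
  obtain ⟨η, hη, rfl⟩ := exists_root z1.2 z2.le
  refine hb η ⟨?_, hη⟩
  rw [mem_ball, dist_eq_norm, add_sub_cancel_left, norm_pow] at z3
  rw [mem_ball, dist_eq_norm, ofReal_zero, sub_zero]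
  exact lt_of_pow_lt_pow_left₀ 2 hδ.le z3

end Pool.Agent.P.MP_3bd355_an
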