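import Pool.Agent.P.MP_3bd355_an.Pk.X0
import Pool.Agent.P.MP_3bd355_an.Pk.Conf
import Pool.Agent.P.MP_3bd355_an.Pk.Ray

/-! The differential equation of the radial solution. -/

open Set Filter Metric Complex InnerProductSpace
open scoped Topology ComplexConjugate Real

namespace Pool.Agent.P.MP_3bd355_an

namespace X5P

variable {r A B x R : ℝ} {v : ℂ → ℝ}

theorem mpl {u : ℂ → ℝ} {W S : Set ℂ} {c : ℝ} (hu : Sub u W) (hW : IsOpen W)
    (hb : Bornology.IsBounded W) (hS : S.Finite) (h : ∀ p ∈ frontier W, p ∉ S → LS u W p c)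
    (hl : ∀ p ∈ S, ∃ M : ℝ, ∀ᶠ z in 𝓝[W] p, u z ≤ M) : ∀ z ∈ W, u z ≤ c := by
  refine hu.mpx hW hb ?_ hS h
  have key : ∃ M : ℝ, ∀ z ∈ closure W, z ∈ W → u z ≤ M := by
    refine hb.isCompact_closure.induction_on (p := fun s => ∃ M : ℝ, ∀ z ∈ s, z ∈ W → u z ≤ M)
      ⟨0, fun _ hz => hz.elim⟩ (fun s t hst ⟨M, hM⟩ => ⟨M, fun z hz => hM z (hst hz)⟩)
      (fun s t ⟨M, hM⟩ ⟨N, hN⟩ => ⟨max M N, fun z hz hw => hz.elim
        (fun h => (hM z h hw).trans (le_max_left _ _)) fun h => (hN z h hw).trans (le_max_right _ _)⟩)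
      fun p hp => ?_
    obtain ⟨M, hM⟩ : ∃ M : ℝ, ∀ᶠ z in 𝓝[W] p, u z ≤ M := by
      by_cases h1 : p ∈ S
      · exact hl p h1
      by_cases h2 : p ∈ W
      · exact ⟨_, ((LS.of_usc hu.1 h2 subset_rfl) 1 one_pos).mono fun _ h => h.le⟩
      · exact ⟨_, (h p (by rw [hW.frontier_eq]; exact ⟨hp, h2⟩) h1 1 one_pos).mono fun _ h => h.le⟩
    exact ⟨_, nhdsWithin_le_nhds (eventually_nhdsWithin_iff.1 hM), M, fun z hz => hz⟩
  exact key.imp fun M hM z hz => hM z (subset_closure hz) hz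

theorem r1 (h : RS r A B x R v) : r < 1 := (h.rx.trans h.xR).trans_le h.R1

theorem xp (h : RS r A B x R v) : 0 < x := h.r0.trans h.rx

theorem nr {t : ℝ} (ht : 0 < t) : ‖(t : ℂ)‖ = t := by rw [norm_real, Real.norm_eq_abs, abs_of_pos ht]

theorem mem (h0 : 0 < r) {t : ℝ} (h1 : r < t) (h2 : t < 1) : (t : ℂ) ∈ ann r :=
  ⟨by rwa [nr (h0.trans h1)], by rwa [nr (h0.trans h1)]⟩

theorem mx (h : RS r A B x R v) : (x : ℂ) ∈ ann r := mem h.r0 h.rx (h.xR.trans_le h.R1)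

theorem opW (r x R : ℝ) : IsOpen (ann r \ seg x R) := (isOpen_ann r).sdiff (X0P.isClosed_seg x R)

theorem preW (h : RS r A B x R v) : IsPreconnected (ann r \ seg x R) := by
  rw [← X0P.slit_eq (xp h)]
  exact ConfP.preconn_slit h.r0 (mx h) R

theorem K_ana (h : RS r A B x R v) {p : ℂ} (hp : p ∈ cann r) (hx : p ≠ x) :
    AnalyticAt ℂ (Kc r x) p := by
  obtain ⟨O, -, -, h1, -, h2⟩ := ker_dom h.r0 (r1 h) (mx h)
  have := ((h2 p (h1 hp)).2.2 hx).sub (h2 p (h1 hp)).2.1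
  rw [conj_ofReal] at this
  exact this

theorem K_real (r x t : ℝ) : (Kc r x t).im = 0 := by
  rw [← conj_eq_iff_im, Kc, map_sub, ← vk_conj, ← vk_conj]
  simp only [map_div₀, map_mul, conj_ofReal]

theorem K_circ (h : RS r A B x R v) {p : ℂ} (hp : ‖p‖ = r ∨ ‖p‖ = 1) : (Kc r x p).im = 0 := by
  rcases hp with hp | hp
  · have := congrArg im (vk_inner h.r0 (mx h) hp)
    simp only [conj_ofReal, conj_im, add_im, neg_im, im_ofNat] at this
    rw [Kc, sub_im]
    linarith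
  · have := congrArg im (vk_outer h.r0 (mx h) hp)
    simp only [conj_ofReal, conj_im, neg_im] at this
    rw [Kc, sub_im]
    linarith

theorem G_ana (h : RS r A B x R v) {z : ℂ} (hz : z ∈ ann r \ seg x R) : AnalyticAt ℂ (LGr v) z :=
  analyticAt_id.mul (grad_analytic (h.harm z hz))

theorem G_real (h : RS r A B x R v) {t : ℝ} (ht : (t : ℂ) ∈ ann r) : (LGr v t).im = 0 := by
  have e : (fun y => v (conj y)) =ᶠ[𝓝 (t : ℂ)] v :=
    ((isOpen_ann r).eventually_mem ht).mono fun z hz => h.symm z hz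
  have e1 := RayP.grad_conj v t
  rw [grad_congr e, conj_ofReal] at e1
  rw [LGr, im_ofReal_mul, conj_eq_iff_im.1 e1.symm, mul_zero]

theorem ne_x (h : RS r A B x R v) {z : ℂ} (hz : z ∉ seg x R) : z ≠ x := by
  rintro rfl
  exact hz ⟨ofReal_im x, le_rfl, h.xR.le⟩

theorem front (h : RS r A B x R v) {p : ℂ} (hp : p ∈ frontier (ann r \ seg x R))
    (hS : p ∉ ({(x : ℂ), (R : ℂ)} : Set ℂ)) :
    ((‖p‖ = r ∨ ‖p‖ = 1) ∧ p ∉ seg x R) ∨ ∃ t : ℝ, x < t ∧ t < R ∧ p = t := by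
  rw [(opW r x R).frontier_eq] at hp
  have hpc : p ∈ cann r := by
    rw [← closure_ann h.r0 (r1 h)]
    exact closure_mono sdiff_subset hp.1
  by_cases hs : p ∈ seg x R
  · have e : p = p.re := Complex.ext (by simp) (by simpa using hs.1)
    simp only [mem_insert_iff, mem_singleton_iff, not_or] at hS
    exact Or.inr ⟨p.re, hs.2.1.lt_of_ne fun e' => hS.1 (by rw [e, e']),
      hs.2.2.lt_of_ne fun e' => hS.2 (by rw [e, e']), e⟩
  · refine Or.inl ⟨?_, hs⟩
    by_contra hn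
    push Not at hn
    exact hp.2 ⟨⟨lt_of_le_of_ne hpc.1 hn.1.symm, lt_of_le_of_ne hpc.2 hn.2⟩, hs⟩

theorem circ_mem (h : RS r A B x R v) {p : ℂ} (hp : ‖p‖ = r ∨ ‖p‖ = 1) : p ∈ cann r :=
  hp.elim (fun e => ⟨e.ge, e.le.trans (r1 h).le⟩) fun e => ⟨(r1 h).le.trans e.ge, e.le⟩

theorem real_mem (h : RS r A B x R v) {t : ℝ} (h1 : x < t) (h2 : t ≤ R) :
    (t : ℂ) ∈ cann r ∧ (t : ℂ) ≠ x :=
  ⟨⟨by rw [nr ((xp h).trans h1)]; exact (h.rx.trans h1).le,
    by rw [nr ((xp h).trans h1)]; exact h2.trans h.R1⟩, ofReal_injective.ne h1.ne'⟩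

theorem nb_slit (h : RS r A B x R v) {t : ℝ} (h1 : x < t) (h2 : t < R) :
    (𝓝[ann r \ seg x R] (t : ℂ)).NeBot := by
  refine (upH_neBot t).mono (le_inf nhdsWithin_le_nhds (le_principal_iff.2 ?_))
  filter_upwards [self_mem_nhdsWithin, nhdsWithin_le_nhds
    ((isOpen_ann r).mem_nhds (mem h.r0 (h.rx.trans h1) (h2.trans_le h.R1)))] with z h3 h4
  exact ⟨h4, fun h5 => (show 0 < z.im from h3).ne' h5.1⟩

theorem nb_circ (h : RS r A B x R v) {p : ℂ} (hp : ‖p‖ = r ∨ ‖p‖ = 1) (hs : p ∉ seg x R) :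
    (𝓝[ann r \ seg x R] p).NeBot := by
  have : (𝓝[ann r] p).NeBot := mem_closure_iff_nhdsWithin_neBot.1 (by
    rw [closure_ann h.r0 (r1 h)]; exact circ_mem h hp)
  refine this.mono (le_inf nhdsWithin_le_nhds (le_principal_iff.2 ?_))
  filter_upwards [self_mem_nhdsWithin,
    nhdsWithin_le_nhds ((X0P.isClosed_seg x R).isOpen_compl.mem_nhds hs)] with z h3 h4
  exact ⟨h3, h4⟩

theorem not_zero (h : RS r A B x R v) (hz : ∀ z ∈ ann r \ seg x R, (LGr v z).re = 0) : False := by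
  have hm : ∀ s ∈ Ioo r x, (s : ℂ) ∈ ann r \ seg x R := fun s hs =>
    ⟨mem h.r0 hs.1 (hs.2.trans (h.xR.trans_le h.R1)), fun e => hs.2.not_ge e.2.1⟩
  have hd : ∀ s ∈ Ioo r x, HasDerivAt (fun s : ℝ => v s) 0 s := fun s hs => by
    have h1 := (harm_diff (h.harm _ (hm s hs))).hasFDerivAt.comp_hasDerivAt s
      (ofRealCLM.hasDerivAt (x := s))
    have h2 := hz _ (hm s hs)
    rw [LGr, re_ofReal_mul, mul_eq_zero, or_iff_right (h.r0.trans hs.1).ne'] at h2
    rw [fderiv_eq_grad] at h1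
    simp only [ofRealCLM_apply, ofReal_one, mul_one, h2] at h1
    exact h1
  obtain ⟨s₀, hs₀⟩ := nonempty_Ioo.2 h.rx
  have hc : ∀ s ∈ Ioo r x, v s = v s₀ := fun s hs =>
    isOpen_Ioo.is_const_of_deriv_eq_zero isPreconnected_Ioo
      (fun s hs => (hd s hs).differentiableAt.differentiableWithinAt)
      (fun s hs => (hd s hs).deriv) hs hs₀
  have t1 : Tendsto (fun s : ℝ => v s) (𝓝[>] r) (𝓝 B) := (h.inner r (nr h.r0)).comp
    (tendsto_nhdsWithin_iff.2 ⟨(continuous_ofReal.tendsto r).mono_left nhdsWithin_le_nhds,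
      (Ioo_mem_nhdsGT h.rx : Ioo r x ∈ _) |> fun hI => mem_of_superset hI fun s hs => (hm s hs).1⟩)
  have t2 : Tendsto (fun s : ℝ => v s) (𝓝[<] x) (𝓝 (v x)) :=
    ((h.cont.continuousAt ((isOpen_ann r).mem_nhds (mx h))).tendsto.comp
      (continuous_ofReal.tendsto x)).mono_left nhdsWithin_le_nhds
  rw [h.zero _ (mx h) ⟨ofReal_im x, le_rfl, h.xR.le⟩] at t2
  have e1 := tendsto_nhds_unique_of_eventuallyEq t1 tendsto_const_nhds
    (mem_of_superset (Ioo_mem_nhdsGT h.rx) hc)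
  have e2 := tendsto_nhds_unique_of_eventuallyEq t2 tendsto_const_nhds
    (mem_of_superset (Ioo_mem_nhdsLT h.rx) hc)
  exact h.B0.ne' (e1.trans e2.symm)

end X5P

open X5P

theorem x5 (h1 : S_X1) (h2 : S_X2) (h3 : S_X3) (h4 : S_X4) : S_X5 := by
  intro r A B x R v h
  obtain ⟨C, hC⟩ := h3 r A B x R v h
  obtain ⟨b, D, b0, hD⟩ := h4 r A B x R v h
  have hb : Bornology.IsBounded (ann r \ seg x R) := (bdd_ann r).subset sdiff_subset
  have hS : ({(x : ℂ), (R : ℂ)} : Set ℂ).Finite := toFinite _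
  have hR := real_mem h h.xR le_rfl
  have KR := (K_ana h hR.1 hR.2).continuousAt
  have hE : AnalyticOnNhd ℂ (fun z => LGr v z ^ 2 - b * Kc r x z) (ann r \ seg x R) := fun z hz =>
    ((G_ana h hz).pow 2).sub (analyticAt_const.mul (K_ana h (ann_sub_cann r hz.1) (ne_x h hz.2)))
  have tc : ∀ p : ℂ, (‖p‖ = r ∨ ‖p‖ = 1) → p ∉ seg x R → ∃ c : ℝ,
      Tendsto (fun z => LGr v z ^ 2 - b * Kc r x z) (𝓝[ann r \ seg x R] p)
        (𝓝 (c ^ 2 - b * Kc r x p)) := fun p hp hs => by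
    obtain ⟨c, -, hc⟩ := h1 r A B x R v p h hp hs
    exact ⟨c, ((hc.mono_left (nhdsWithin_mono _ sdiff_subset)).pow 2).sub
      (((K_ana h (circ_mem h hp) (ne_x h hs)).continuousAt.tendsto.mono_left
        nhdsWithin_le_nhds).const_mul _)⟩
  have ts : ∀ t : ℝ, x < t → t < R → ∃ β : ℝ,
      Tendsto (fun z => LGr v z ^ 2 - b * Kc r x z) (𝓝[ann r \ seg x R] (t : ℂ))
        (𝓝 (((-β ^ 2 : ℝ) : ℂ) - b * Kc r x t)) := fun t a1 a2 => by
    obtain ⟨β, hβ, -⟩ := h2 r A B x R v t h a1 a2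
    have := real_mem h a1 a2.le
    exact ⟨β, hβ.sub (((K_ana h this.1 this.2).continuousAt.tendsto.mono_left
      nhdsWithin_le_nhds).const_mul _)⟩
  have him : ∀ σ : ℝ, |σ| = 1 → ∀ z ∈ ann r \ seg x R,
      σ * (LGr v z ^ 2 - b * Kc r x z).im ≤ 0 := fun σ hσ => by
    have k0 : ∀ w : ℂ, σ * w.im ≤ ‖w‖ := fun w =>
      (le_abs_self _).trans (by rw [abs_mul, hσ, one_mul]; exact abs_im_le_norm w)
    refine mpl (Sub.of_harm fun z hz => harm_const_mul (hE z hz).harmonicAt_im σ) (opW r x R) hb hS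
      (fun p hp hn => ?_) ?_
    · rcases front h hp hn with ⟨a1, a2⟩ | ⟨t, a1, a2, rfl⟩
      · obtain ⟨c, hc⟩ := tc p a1 a2
        refine LS.of_tendsto (((continuous_im.tendsto _).comp hc).const_mul σ) (le_of_eq ?_)
        rw [sub_im, im_ofReal_mul, K_circ h a1, ← ofReal_pow, ofReal_im]
        simp
      · obtain ⟨β, hβ⟩ := ts t a1 a2
        refine LS.of_tendsto (((continuous_im.tendsto _).comp hβ).const_mul σ) (le_of_eq ?_)
        rw [sub_im, im_ofReal_mul, K_real, ofReal_im]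
        simp
    · rintro p (rfl | rfl)
      · exact ⟨D, hD.mono fun z hz => (k0 _).trans hz.1⟩
      · refine ⟨C ^ 2 + b * (‖Kc r x R‖ + 1), ?_⟩
        filter_upwards [hC, nhdsWithin_le_nhds
          (KR.norm.eventually (gt_mem_nhds (lt_add_one ‖Kc r x R‖)))] with z a1 a2
        refine (k0 _).trans ((norm_sub_le _ _).trans (add_le_add ?_ ?_))
        · rw [norm_pow]
          exact pow_le_pow_left₀ (norm_nonneg _) a1 2
        · rw [norm_mul, norm_real, Real.norm_of_nonneg b0]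
          exact mul_le_mul_of_nonneg_left a2.le b0
  obtain ⟨c, hc⟩ := hE.eq_const_add_im_mul_I_of_re_eq_const (c₀ := 0) (fun z hz => by
    have a1 := him 1 abs_one z hz
    have a2 := him (-1) (by simp) z hz
    linarith) (opW r x R) (⟨⟨base r, (base_mem h.r0 (r1 h)).1,
      fun e => (show 0 < (base r).im from (base_mem h.r0 (r1 h)).2).ne' e.1⟩, preW h⟩)
  simp only [ofReal_zero, zero_mul, add_zero] at hc
  have hre : ∀ z ∈ ann r \ seg x R, (LGr v z).re ≤ 0 := by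
    refine mpl (Sub.of_harm fun z hz => (G_ana h hz).harmonicAt_re) (opW r x R) hb hS
      (fun p hp hn => ?_) ?_
    · rcases front h hp hn with ⟨a1, a2⟩ | ⟨t, a1, a2, rfl⟩
      · obtain ⟨c, c0, hc⟩ := h1 r A B x R v p h a1 a2
        exact LS.of_tendsto ((continuous_re.tendsto _).comp
          (hc.mono_left (nhdsWithin_mono _ sdiff_subset))) c0
      · exact LS.of_tendsto (h2 r A B x R v t h a1 a2).choose_spec.2 le_rfl
    · rintro p (rfl | rfl)
      · exact ⟨D, hD.mono fun z hz => hz.2⟩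
      · exact ⟨C, hC.mono fun z hz => (re_le_norm _).trans hz⟩
  have hlt : ∀ z ∈ ann r \ seg x R, (LGr v z).re < 0 := fun z hz => (hre z hz).lt_of_ne fun e =>
    not_zero h fun y hy => ((Sub.of_harm fun z hz => (G_ana h hz).harmonicAt_re).strong
      (opW r x R) (preW h) hz (fun y hy => e ▸ hre y hy) y hy).trans e
  have lim : ∀ (p w : ℂ), (𝓝[ann r \ seg x R] p).NeBot →
      Tendsto (fun z => LGr v z ^ 2 - b * Kc r x z) (𝓝[ann r \ seg x R] p) (𝓝 w) → w = c :=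
    fun p w hn ht => tendsto_nhds_unique_of_eventuallyEq ht tendsto_const_nhds
      (eventually_nhdsWithin_of_forall hc)
  have left : ∀ t ∈ Ioo x R, c + b * (Kc r x t).re ≤ 0 := fun t ht => by
    obtain ⟨β, hβ⟩ := ts t ht.1 ht.2
    have := congrArg re (lim _ _ (nb_slit h ht.1 ht.2) hβ)
    rw [sub_re, re_ofReal_mul, ofReal_re, ofReal_re] at this
    nlinarith [sq_nonneg β]
  have KR' : Tendsto (fun z => c + b * (Kc r x z).re) (𝓝 (R : ℂ)) (𝓝 (c + b * (Kc r x R).re)) :=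
    (((continuous_re.tendsto _).comp KR).const_mul b).const_add c
  have KR'' := KR'.comp (continuous_ofReal.tendsto R)
  have e1 : c + b * (Kc r x R).re ≤ 0 := le_of_tendsto (KR''.mono_left (nhdsWithin_le_nhds
    (s := Iio R))) (mem_of_superset (Ioo_mem_nhdsLT h.xR) left)
  have e2 : 0 ≤ c + b * (Kc r x R).re := by
    rcases h.R1.eq_or_lt with e | e
    · have t0 : Tendsto (fun θ : ℝ => exp (θ * I)) (𝓝[>] 0) (𝓝 (R : ℂ)) := by
        have : Continuous fun θ : ℝ => exp (θ * I) := by fun_prop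
        simpa [e] using (this.tendsto 0).mono_left (nhdsWithin_le_nhds (s := Ioi 0))
      refine ge_of_tendsto (KR'.comp t0) (mem_of_superset (Ioo_mem_nhdsGT Real.pi_pos) fun θ hθ => ?_)
      have a1 : ‖exp (θ * I)‖ = r ∨ ‖exp (θ * I)‖ = 1 := Or.inr (norm_exp_ofReal_mul_I θ)
      have a2 : exp (θ * I) ∉ seg x R := fun e =>
        (Real.sin_pos_of_pos_of_lt_pi hθ.1 hθ.2).ne' (by simpa only [exp_ofReal_mul_I_im] using e.1)
      obtain ⟨c', hc'⟩ := tc _ a1 a2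
      have := congrArg re (lim _ _ (nb_circ h a1 a2) hc')
      rw [sub_re, re_ofReal_mul, ← ofReal_pow, ofReal_re, ofReal_re] at this
      show 0 ≤ c + b * (Kc r x (exp (θ * I))).re
      nlinarith [sq_nonneg c']
    · refine ge_of_tendsto (KR''.mono_left (nhdsWithin_le_nhds (s := Ioi R)))
        (mem_of_superset (Ioo_mem_nhdsGT e) fun t ht => ?_)
      have m := mem h.r0 ((h.rx.trans h.xR).trans ht.1) ht.2
      have := congrArg re (hc _ ⟨m, fun e => ht.1.not_ge e.2.2⟩)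
      rw [sub_re, re_ofReal_mul, ofReal_re, sq, mul_re, G_real h m] at this
      show 0 ≤ c + b * (Kc r x t).re
      nlinarith [mul_self_nonneg (LGr v t).re]
  have ec : c = -(b * (Kc r x R).re) := by linarith
  have eq : ∀ z ∈ ann r \ seg x R, LGr v z ^ 2 = b * (Kc r x z - (Kc r x R).re) := fun z hz => by
    have := hc z hz
    rw [ec] at this
    push_cast at this
    linear_combination this
  have bp : 0 < b := b0.lt_of_ne fun e => not_zero h fun z hz => by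
    have := eq z hz
    rw [← e, ofReal_zero, zero_mul, pow_eq_zero_iff two_ne_zero] at this
    rw [this, zero_re]
  refine ⟨b, bp, fun z hz => ⟨eq z hz, hlt z hz⟩, fun t ht => ?_⟩
  have := left t ht
  rw [ec] at this
  exact le_of_mul_le_mul_left (by linarith) bp

end Pool.Agent.P.MP_3bd355_an
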