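import Pool.Agent.P.MP_3bd355_an.Stmts2

/-! The integral formulas along the real axis. -/

open Set Filter Metric Complex InnerProductSpace
open scoped Topology ComplexConjugate Real

namespace Pool.Agent.P.MP_3bd355_an

namespace X6P

open MeasureTheory Function in
theorem ftc {f g : ℝ → ℝ} {a b c fa fb : ℝ} (hab : a < b) (hc : 0 < c)
    (hd : ∀ s ∈ Ioo a b, HasDerivAt f (-(c * g s)) s) (hg : ∀ s ∈ Ioo a b, 0 ≤ g s)
    (ha : Tendsto f (𝓝[>] a) (𝓝 fa)) (hb : Tendsto f (𝓝[<] b) (𝓝 fb)) :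
    IntervalIntegrable g volume a b ∧ fa - fb = c * ∫ s in a..b, g s := by
  have hi : IntervalIntegrable (fun s => c * g s) volume a b := by
    set F : ℝ → ℝ := update (update f a fa) b fb
    have Fderiv : ∀ s ∈ Ioo a b, HasDerivAt F (-(c * g s)) s := by
      refine fun s hs => (hd s hs).congr_of_eventuallyEq ?_
      filter_upwards [Ioo_mem_nhds hs.1 hs.2] with _ hy
      unfold F
      rw [update_of_ne hy.2.ne, update_of_ne hy.1.ne']
    have hcont : ContinuousOn F (Icc a b) := by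
      rw [continuousOn_update_iff, continuousOn_update_iff, Icc_sdiff_right, Ico_sdiff_left]
      refine ⟨⟨fun z hz => (hd z hz).continuousAt.continuousWithinAt, ?_⟩, ?_⟩
      · exact fun _ => ha.mono_left (nhdsWithin_mono _ Ioo_subset_Ioi_self)
      · rintro -
        refine (hb.congr' ?_).mono_left (nhdsWithin_mono _ Ico_subset_Iio_self)
        filter_upwards [Ioo_mem_nhdsLT hab] with _ hz using (update_of_ne hz.1.ne' _ _).symm
    rw [intervalIntegrable_iff_integrableOn_Ioc_of_le hab.le]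
    exact intervalIntegral.integrableOn_deriv_of_nonneg hcont.neg
      (fun s hs => by simpa using (Fderiv s hs).neg) fun s hs => mul_nonneg hc.le (hg s hs)
  refine ⟨by simpa [hc.ne'] using hi.const_mul c⁻¹, ?_⟩
  have := intervalIntegral.integral_eq_sub_of_hasDerivAt_of_tendsto hab hd hi.neg ha hb
  rw [intervalIntegral.integral_neg, intervalIntegral.integral_const_mul] at this
  linarith

theorem grad_conj (u : ℂ → ℝ) (z : ℂ) : grad (fun y => u (conj y)) z = conj (grad u (conj z)) := by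
  have h := conjCLE.comp_right_fderiv (f := u) (x := z)
  have e : (fun y => u (conj y)) = u ∘ conjCLE := rfl
  unfold grad
  rw [e, h]
  simp

variable {r A B x R b : ℝ} {v : ℂ → ℝ}

theorem real_GG (h : RS r A B x R v) {t : ℝ} (ht : (t : ℂ) ∈ ann r) : (LGr v t).im = 0 := by
  have h1 : (fun y => v (conj y)) =ᶠ[𝓝 (t : ℂ)] v := by
    filter_upwards [(isOpen_ann r).mem_nhds ht] with y hy using h.symm y hy
  have h2 := grad_congr h1
  rw [grad_conj, conj_ofReal] at h2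
  have h3 := conj_eq_iff_im.1 h2
  simp [LGr, h3]

theorem val (h : RS r A B x R v) (hb : 0 < b) {t κ : ℝ} {K : ℂ} (ht : (t : ℂ) ∈ ann r)
    (h1 : LGr v t ^ 2 = b * (K - κ)) (h2 : (LGr v t).re < 0) :
    κ < K.re ∧ (LGr v t).re = -(√b * √(max (K.re - κ) 0)) := by
  have h3 := congrArg Complex.re h1
  have h4 : (LGr v t).re ^ 2 = b * (K.re - κ) := by
    simpa [sq, real_GG h ht] using h3
  have h5 : 0 < K.re - κ := (mul_pos_iff_of_pos_left hb).1 (h4 ▸ sq_pos_of_neg h2)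
  refine ⟨by linarith, ?_⟩
  rw [max_eq_left h5.le, ← Real.sqrt_mul hb.le, ← h4, Real.sqrt_sq_eq_abs, abs_of_neg h2, neg_neg]

theorem der (h : RS r A B x R v) {σ s : ℝ} (hs : s ≠ 0) (hz : ((σ * s : ℝ) : ℂ) ∈ ann r \ seg x R) :
    HasDerivAt (fun s : ℝ => v ((σ * s : ℝ) : ℂ)) ((LGr v ((σ * s : ℝ) : ℂ)).re / s) s := by
  have h1 : HasDerivAt (fun s : ℝ => ((σ * s : ℝ) : ℂ)) ((σ : ℝ) : ℂ) s := by
    simpa using ((hasDerivAt_id s).const_mul σ).ofReal_comp
  have h2 := (harm_diff (h.harm _ hz)).hasFDerivAt.comp_hasDerivAt s h1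
  refine h2.congr_deriv ?_
  rw [fderiv_eq_grad, eq_div_iff hs, LGr]
  simp only [mul_re, ofReal_re, ofReal_im]
  ring

theorem mem_ann {σ s : ℝ} (hσ : |σ| = 1) (h0 : 0 < r) (hs : s ∈ Ioo r 1) :
    ((σ * s : ℝ) : ℂ) ∈ ann r := by
  have : ‖((σ * s : ℝ) : ℂ)‖ = s := by
    rw [norm_real, Real.norm_eq_abs, abs_mul, hσ, one_mul, abs_of_pos (h0.trans hs.1)]
  exact ⟨this.symm ▸ hs.1, this.symm ▸ hs.2⟩

theorem lim {σ p c : ℝ} {l : Filter ℝ} (hσ : |σ| = 1) (h0 : 0 < r) (hl : l ≤ 𝓝 p)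
    (hm : ∀ᶠ s in l, s ∈ Ioo r 1) (h : Tendsto v (𝓝[ann r] ((σ * p : ℝ) : ℂ)) (𝓝 c)) :
    Tendsto (fun s : ℝ => v ((σ * s : ℝ) : ℂ)) l (𝓝 c) := by
  refine h.comp (tendsto_nhdsWithin_iff.2 ⟨?_, hm.mono fun s hs => mem_ann hσ h0 hs⟩)
  have : Continuous fun s : ℝ => ((σ * s : ℝ) : ℂ) := by fun_prop
  exact (this.tendsto p).mono_left hl

theorem piece (h : RS r A B x R v) (hb : 0 < b)
    (H : ∀ z ∈ ann r \ seg x R, LGr v z ^ 2 = b * (Kc r x z - (Kc r x R).re) ∧ (LGr v z).re < 0)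
    {σ p q fp fq : ℝ} (hσ : |σ| = 1) (hp : r ≤ p) (hpq : p < q) (hq : q ≤ 1)
    (hs : ∀ s ∈ Ioo p q, σ * s < x ∨ R < σ * s)
    (h1 : Tendsto v (𝓝[ann r] ((σ * p : ℝ) : ℂ)) (𝓝 fp))
    (h2 : Tendsto v (𝓝[ann r] ((σ * q : ℝ) : ℂ)) (𝓝 fq)) :
    IntervalIntegrable
      (fun s : ℝ => √(max ((Kc r x ((σ * s : ℝ) : ℂ)).re - (Kc r x R).re) 0) / s)
        MeasureTheory.volume p q ∧ fp - fq = √b * Jint r x (Kc r x R).re σ p q := by
  have hm : ∀ s ∈ Ioo p q, s ∈ Ioo r 1 := fun s hs => ⟨hp.trans_lt hs.1, hs.2.trans_le hq⟩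
  refine ftc (f := fun s : ℝ => v ((σ * s : ℝ) : ℂ)) hpq (Real.sqrt_pos.2 hb) (fun s hs' => ?_)
    (fun s hs' => div_nonneg (Real.sqrt_nonneg _) (h.r0.trans (hm s hs').1).le)
    (lim hσ h.r0 nhdsWithin_le_nhds (mem_of_superset (Ioo_mem_nhdsGT hpq) hm) h1)
    (lim hσ h.r0 nhdsWithin_le_nhds (mem_of_superset (Ioo_mem_nhdsLT hpq) hm) h2)
  have hz : ((σ * s : ℝ) : ℂ) ∈ ann r \ seg x R := by
    refine ⟨mem_ann hσ h.r0 (hm s hs'), fun hh => ?_⟩
    have g1 : x ≤ σ * s := hh.2.1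
    have g2 : σ * s ≤ R := hh.2.2
    rcases hs s hs' with g | g <;> linarith
  refine (der h (h.r0.trans (hm s hs').1).ne' hz).congr_deriv ?_
  rw [(val h hb hz.1 (H _ hz).1 (H _ hz).2).2]
  ring

theorem at_pt (h : RS r A B x R v) {σ s : ℝ} (hσ : |σ| = 1) (hs : s ∈ Ioo r 1) :
    Tendsto v (𝓝[ann r] ((σ * s : ℝ) : ℂ)) (𝓝 (v ((σ * s : ℝ) : ℂ))) :=
  h.cont _ (mem_ann hσ h.r0 hs)

theorem at_seg (h : RS r A B x R v) {s : ℝ} (h1 : x ≤ s) (h2 : s ≤ R) (h3 : s < 1) :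
    Tendsto v (𝓝[ann r] ((1 * s : ℝ) : ℂ)) (𝓝 0) := by
  have hs : s ∈ Ioo r 1 := ⟨h.rx.trans_le h1, h3⟩
  have := at_pt h abs_one hs
  rwa [h.zero _ (mem_ann abs_one h.r0 hs) ⟨ofReal_im _, by simpa using h1, by simpa using h2⟩]
    at this

end X6P

open X6P in
theorem x6 : S_X6 := by
  intro r A B x R b v h hb H hK
  have hx1 : x < 1 := h.xR.trans_le h.R1
  have hx0 : 0 < x := h.r0.trans h.rx
  have hin := piece h hb H abs_one le_rfl h.rx hx1.le (fun s hs => Or.inl (by simpa using hs.2))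
    (h.inner _ (by simpa using h.r0.le)) (at_seg h le_rfl h.xR.le hx1)
  refine ⟨hin.1, fun t ht => ?_, by simpa using hin.2, ?_, fun x₀ hx₀ => ?_⟩
  · have hz : (t : ℂ) ∈ ann r \ seg x R := by
      refine ⟨by simpa using mem_ann abs_one h.r0 ⟨ht.1, ht.2.trans hx1⟩, fun hh => ?_⟩
      have g1 : x ≤ t := hh.2.1
      linarith [ht.2]
    exact (val h hb hz.1 (H _ hz).1 (H _ hz).2).1
  · have hz : ∀ s ∈ Ioo x R,
        √(max ((Kc r x ((1 * s : ℝ) : ℂ)).re - (Kc r x R).re) 0) / s = 0 := fun s hs => by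
      rw [one_mul, max_eq_right (sub_nonpos.2 (hK s hs)), Real.sqrt_zero, zero_div]
    have hi : IntervalIntegrable
        (fun s : ℝ => √(max ((Kc r x ((1 * s : ℝ) : ℂ)).re - (Kc r x R).re) 0) / s)
          MeasureTheory.volume x R := by
      rw [intervalIntegrable_iff_integrableOn_Ioo_of_le h.xR.le]
      exact (MeasureTheory.integrableOn_zero).congr_fun (fun s hs => (hz s hs).symm)
        measurableSet_Ioo
    have h0 : Jint r x (Kc r x R).re 1 x R = 0 := by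
      rw [Jint, intervalIntegral.integral_of_le h.xR.le,
        MeasureTheory.integral_Ioc_eq_integral_Ioo,
        MeasureTheory.setIntegral_congr_fun measurableSet_Ioo hz]
      simp
    rcases h.R1.eq_or_lt with hR | hR
    · have hA := h.RA.1 hR
      subst hR
      rw [hA, neg_zero, h0, mul_zero]
    · have hout := piece h hb H abs_one (h.rx.trans h.xR).le hR le_rfl
        (fun s hs => Or.inr (by simpa using hs.1)) (at_seg h h.xR.le le_rfl hR)
        (h.outer _ (by simp))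
      have := intervalIntegral.integral_add_adjacent_intervals hi hout.1
      rw [Jint, ← this, ← Jint, ← Jint, h0, zero_add, ← hout.2, zero_sub]
  · have hσ : |(-1 : ℝ)| = 1 := by simp
    have hneg := piece h hb H hσ hx₀.1.le hx₀.2 le_rfl
      (fun s hs => Or.inl (by linarith [hs.1, hx₀.1, h.r0])) (at_pt h hσ hx₀)
      (h.outer _ (by simp))
    have e : (((-1 : ℝ) * x₀ : ℝ) : ℂ) = -(x₀ : ℂ) := by simp
    rw [← hneg.2, e]
    ring

end Pool.Agent.P.MP_3bd355_an
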