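import Pool.Agent.P.MP_3bd355_an.Stmts2

/-! Uniqueness of the parameter. -/

open Set Filter Metric Complex InnerProductSpace MeasureTheory
open scoped Topology ComplexConjugate Real

namespace Pool.Agent.P.MP_3bd355_an

namespace X7P

/-- the integrand -/
noncomputable def F (K : ℝ → ℝ) (κ s : ℝ) : ℝ := √(max (K s - κ) 0) / s

theorem sqrt_le {a b : ℝ} (hb : 0 ≤ b) : √(max (a + b) 0) ≤ √(max a 0) + √b := by
  rw [Real.sqrt_le_left (by positivity), add_sq, Real.sq_sqrt (le_max_right _ _), Real.sq_sqrt hb]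
  have : 0 ≤ 2 * √(max a 0) * √b := by positivity
  refine max_le ?_ (by linarith [le_max_right a 0])
  linarith [le_max_left a 0]

theorem integ {K : ℝ → ℝ} {a b κ : ℝ} (ha : 0 < a) (hab : a < b) (hc : ContinuousOn K (Ioo a b))
    {g : ℝ → ℝ} (hg : IntervalIntegrable g volume a b) (hle : ∀ s ∈ Ioo a b, F K κ s ≤ g s) :
    IntervalIntegrable (F K κ) volume a b := by
  rw [intervalIntegrable_iff_integrableOn_Ioo_of_le hab.le] at hg ⊢
  have hm : ContinuousOn (F K κ) (Ioo a b) :=
    (((hc.sub continuousOn_const).sup continuousOn_const).sqrt).div continuousOn_id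
      fun s hs => (ha.trans hs.1).ne'
  refine Integrable.mono' hg (hm.aestronglyMeasurable measurableSet_Ioo) ?_
  refine (ae_restrict_iff' measurableSet_Ioo).2 (Eventually.of_forall fun s hs => ?_)
  have hs0 : 0 < s := ha.trans hs.1
  rw [Real.norm_of_nonneg (by unfold F; positivity)]
  exact hle s hs

theorem uniq {K : ℝ → ℝ} {r A B x κ κ' : ℝ} (h0 : 0 < r) (hx : r < x) (h1 : x < 1) (hA : A ≤ 0)
    (hB : 0 < B) (c1 : ContinuousOn K (Ioo r x)) (c2 : ContinuousOn K (Ioo x 1))
    (c3 : ContinuousAt K 1) (hI : IntervalIntegrable (F K (K 1)) volume r x)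
    (l1 : ∀ t ∈ Ioo r x, K 1 < K t) (l2 : ∀ t ∈ Ioo x 1, K t ≤ K 1) (hk : κ < κ') (hk' : κ' ≤ K 1)
    (e : B * ∫ s in x..1, F K κ s = -A * ∫ s in r..x, F K κ s)
    (e' : B * ∫ s in x..1, F K κ' s = -A * ∫ s in r..x, F K κ' s) : False := by
  have hx0 : 0 < x := h0.trans hx
  have i1 : ∀ c ≤ K 1, IntervalIntegrable (F K c) volume r x := fun c hc =>
    integ h0 hx c1 (hI.add (intervalIntegrable_const (c := √(K 1 - c) / r))) fun s hs => by
      have hs0 : 0 < s := h0.trans hs.1
      have h2 := sqrt_le (a := K s - K 1) (sub_nonneg.2 hc)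
      have h3 : √(K 1 - c) / s ≤ √(K 1 - c) / r := by gcongr; exact hs.1.le
      rw [sub_add_sub_cancel] at h2
      have h4 := div_le_div_of_nonneg_right h2 hs0.le
      rw [add_div] at h4
      unfold F
      linarith
  have i2 : ∀ c ≤ K 1, IntervalIntegrable (F K c) volume x 1 := fun c hc =>
    integ hx0 h1 c2 (intervalIntegrable_const (c := √(K 1 - c) / x)) fun s hs => by
      have h2 : max (K s - c) 0 ≤ K 1 - c := max_le (by linarith [l2 s hs]) (sub_nonneg.2 hc)
      unfold F
      gcongr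
      exact hs.1.le
  have hκ : κ < K 1 := hk.trans_le hk'
  have n2 : ∀ c a b, 0 ≤ a → a ≤ b → 0 ≤ ∫ s in a..b, F K c s := fun c a b ha hab =>
    intervalIntegral.integral_nonneg hab fun s hs => by
      have := ha.trans hs.1
      unfold F
      positivity
  rcases hA.eq_or_lt with rfl | hA'
  · rw [neg_zero, zero_mul, mul_eq_zero] at e
    have h2 : ∀ᶠ t in 𝓝 (1 : ℝ), κ < K t := c3.eventually (lt_mem_nhds hκ)
    obtain ⟨δ, hδ, h3⟩ := Metric.eventually_nhds_iff.1 h2
    have hc1 : x ≤ max x (1 - δ) := le_max_left _ _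
    have hc2 : max x (1 - δ) < 1 := max_lt h1 (by linarith)
    have j := i2 κ hκ.le
    have j1 : IntervalIntegrable (F K κ) volume x (max x (1 - δ)) :=
      j.mono_set (by rw [uIcc_of_le hc1, uIcc_of_le h1.le]; exact Icc_subset_Icc le_rfl hc2.le)
    have j2 : IntervalIntegrable (F K κ) volume (max x (1 - δ)) 1 :=
      j.mono_set (by rw [uIcc_of_le hc2.le, uIcc_of_le h1.le]; exact Icc_subset_Icc hc1 le_rfl)
    have p2 := intervalIntegral.intervalIntegral_pos_of_pos_on j2 (fun s hs => by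
      have hs0 : 0 < s := hx0.trans_le (hc1.trans hs.1.le)
      have h4 : κ < K s := h3 (by
        rw [Real.dist_eq, abs_lt]
        constructor <;> linarith [hs.2, (le_max_right x (1 - δ)).trans_lt hs.1])
      exact div_pos (Real.sqrt_pos.2 (lt_max_of_lt_left (sub_pos.2 h4))) hs0) hc2
    have p3 := intervalIntegral.integral_add_adjacent_intervals j1 j2
    have p1 := n2 κ x _ hx0.le hc1
    rcases e with e | e <;> linarith
  · obtain ⟨l, hl0, hl⟩ : ∃ l : ℝ, 0 ≤ l ∧ l * (K 1 - κ) = K 1 - κ' :=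
      ⟨(K 1 - κ') / (K 1 - κ), div_nonneg (sub_nonneg.2 hk') (sub_pos.2 hκ).le,
        div_mul_cancel₀ _ (sub_pos.2 hκ).ne'⟩
    have hl1 : l < 1 := by
      by_contra hh
      nlinarith [mul_le_mul_of_nonneg_right (not_lt.1 hh) (sub_pos.2 hκ).le]
    have q1 : √l * ∫ s in r..x, F K κ s < ∫ s in r..x, F K κ' s := by
      have := intervalIntegral.intervalIntegral_pos_of_pos_on
        ((i1 κ' hk').sub ((i1 κ hκ.le).const_mul √l)) (fun s hs => by
          have hs0 : 0 < s := h0.trans hs.1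
          have h2 := l1 s hs
          unfold F
          rw [← mul_div_assoc, ← sub_div, ← Real.sqrt_mul hl0, max_eq_left (by linarith),
            max_eq_left (by linarith)]
          refine div_pos (sub_pos.2 (Real.sqrt_lt_sqrt (mul_nonneg hl0 (by linarith)) ?_)) hs0
          nlinarith [mul_pos (sub_pos.2 hl1) (sub_pos.2 h2)]) hx
      rw [intervalIntegral.integral_sub (i1 κ' hk') ((i1 κ hκ.le).const_mul _),
        intervalIntegral.integral_const_mul] at this
      linarith
    have q2 : ∫ s in x..1, F K κ' s ≤ √l * ∫ s in x..1, F K κ s := by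
      rw [← intervalIntegral.integral_const_mul]
      refine intervalIntegral.integral_mono_on_of_le_Ioo h1.le (i2 κ' hk')
        ((i2 κ hκ.le).const_mul _) fun s hs => ?_
      have hs0 : 0 < s := hx0.trans hs.1
      have h2 := l2 s hs
      unfold F
      rw [← mul_div_assoc, ← Real.sqrt_mul hl0]
      refine div_le_div_of_nonneg_right (Real.sqrt_le_sqrt (max_le ?_ (by positivity))) hs0.le
      have h3 := mul_le_mul_of_nonneg_left (le_max_left (K s - κ) 0) hl0
      nlinarith [mul_nonneg (sub_pos.2 hl1).le (sub_nonneg.2 h2)]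
    have q3 := mul_lt_mul_of_pos_left q1 (neg_pos.2 hA')
    have q4 := mul_le_mul_of_nonneg_left q2 hB.le
    have q5 : B * (√l * ∫ s in x..1, F K κ s) = -A * (√l * ∫ s in r..x, F K κ s) := by
      rw [mul_left_comm, e, mul_left_comm]
    linarith

theorem cont {r x t : ℝ} (h0 : 0 < r) (hx : r < x) (h1 : x < 1) (ht : r < t) (ht1 : t ≤ 1)
    (hne : t ≠ x) : ContinuousAt (fun s : ℝ => (Kc r x s).re) t := by
  have hx0 : 0 < x := h0.trans hx
  have ht0 : 0 < t := h0.trans ht
  have hm : (x : ℂ) ∈ ann r := by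
    constructor <;> rw [norm_real, Real.norm_of_nonneg hx0.le] <;> assumption
  obtain ⟨O, -, -, h3, -, h5⟩ := ker_dom h0 (hx.trans h1) hm
  have hc : (t : ℂ) ∈ cann r := by
    constructor <;> rw [norm_real, Real.norm_of_nonneg ht0.le]
    · exact ht.le
    · exact ht1
  obtain ⟨-, k1, k2⟩ := h5 _ (h3 hc)
  rw [conj_ofReal] at k1
  have k3 : ContinuousAt (Kc r x) (t : ℂ) :=
    ((k2 (by exact_mod_cast hne)).sub k1).continuousAt
  exact continuous_re.continuousAt.comp (k3.comp continuous_ofReal.continuousAt)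

end X7P

open X7P

theorem x7 : S_X7 := by
  intro r A B x κ κ' h0 hx h1 hA hB hI l1 l2 hk hk' e e'
  simp only [Jint, one_mul] at hI e e'
  have c1 : ContinuousOn (fun s : ℝ => (Kc r x s).re) (Ioo r x) := fun t ht =>
    (cont h0 hx h1 ht.1 (ht.2.trans h1).le ht.2.ne).continuousWithinAt
  have c2 : ContinuousOn (fun s : ℝ => (Kc r x s).re) (Ioo x 1) := fun t ht =>
    (cont h0 hx h1 (hx.trans ht.1) ht.2.le ht.1.ne').continuousWithinAt
  have c3 := cont h0 hx h1 (hx.trans h1) le_rfl h1.ne'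
  rw [← ofReal_one] at hI l1 l2 hk hk'
  rcases lt_trichotomy κ κ' with h | h | h
  · exact (uniq h0 hx h1 hA hB c1 c2 c3 hI l1 l2 h hk' e e').elim
  · exact h
  · exact (uniq h0 hx h1 hA hB c1 c2 c3 hI l1 l2 h hk e' e).elim

end Pool.Agent.P.MP_3bd355_an
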