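import Pool.Agent.P.MP_3bd355_an.Stmts2
import Pool.Agent.P.MP_3bd355_an.Fin

/-! The explicit formula for opposite points. -/

open Set Filter Metric Complex InnerProductSpace
open scoped Topology ComplexConjugate Real

namespace Pool.Agent.P.MP_3bd355_an

def S_X9 : Prop := ∀ r A B x x₀ : ℝ, 0 < r → r < x → x < 1 → r < x₀ → x₀ < 1 → A ≤ 0 →
  0 < hf r A B x → ∃ (κ R : ℝ) (v : ℂ → ℝ),
    (∀ κ' : ℝ, (κ' ≤ (Kc r x 1).re ∧ B * Jint r x κ' 1 x 1 = -A * Jint r x κ' 1 r x) ↔ κ' = κ) ∧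
    0 < Jint r x κ 1 r x ∧
    Msup r A B (-x₀) x = ((A + B * Jint r x κ (-1) x₀ 1 / Jint r x κ 1 r x : ℝ) : EReal) ∧
    x < R ∧ R ≤ 1 ∧ (Kc r x R).re = κ ∧ HarmonicOnNhd v (ann r \ seg x R) ∧
    (∀ z ∈ ann r, z ∈ seg x R → v z = 0) ∧
    (∀ z ∈ ann r \ seg x R,
      (z * grad v z) ^ 2 = ((B / Jint r x κ 1 r x : ℝ) : ℂ) ^ 2 * (Kc r x z - κ)) ∧
    ∀ u : ℂ → EReal, (Adm r A B x u ∧ u (-x₀) = Msup r A B (-x₀) x) ↔
      ∀ z ∈ ann r, u z = (v z : EReal)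

theorem x9 (h0 : S_X0) (h5 : S_X5) (h6 : S_X6) (h7 : S_X7) : S_X9 := by
  intro r A B x x₀ hr hx hx1 hy hy1 hA hh
  have xp : 0 < x := hr.trans hx
  obtain ⟨R', v', a', -⟩ := h0 r 0 1 x x₀ hr hx hx1 hy hy1 le_rfl (by
    simp only [hf, norm_real, Real.norm_eq_abs, abs_of_pos xp, sub_zero, one_mul, zero_add]
    exact div_pos_of_neg_of_neg (Real.log_neg xp hx1) (Real.log_neg hr (hx.trans hx1)))
  obtain rfl : R' = 1 := a'.RA.2 rfl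
  obtain ⟨b', b0', c1, c2⟩ := h5 r 0 1 x 1 v' a'
  obtain ⟨d1, d2, -⟩ := h6 r 0 1 x 1 b' v' a' b0' c1 c2
  rw [ofReal_one] at c2 d1 d2
  obtain ⟨R, v, a, a1, a2, a3⟩ := h0 r A B x x₀ hr hx hx1 hy hy1 hA hh
  obtain ⟨b, b0, e1, e2⟩ := h5 r A B x R v a
  obtain ⟨-, -, f1, f2, f3⟩ := h6 r A B x R b v a b0 e1 e2
  have sb : 0 < √b := Real.sqrt_pos.2 b0
  have jp : 0 < Jint r x (Kc r x R).re 1 r x := (mul_pos_iff_of_pos_left sb).1 (f1 ▸ a.B0)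
  have q : B / Jint r x (Kc r x R).re 1 r x = √b := by rw [div_eq_iff jp.ne']; exact f1
  have k1 : (Kc r x R).re ≤ (Kc r x 1).re := by
    rcases a.R1.eq_or_lt with e | e
    · rw [e, ofReal_one]
    · exact c2 R ⟨a.xR, e⟩
  have k2 : B * Jint r x (Kc r x R).re 1 x 1 = -A * Jint r x (Kc r x R).re 1 r x := by
    rw [f2]
    linear_combination Jint r x (Kc r x R).re 1 x 1 * f1
  have m0 : -(x₀ : ℂ) ∈ ann r := by
    have : ‖-(x₀ : ℂ)‖ = x₀ := by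
      rw [norm_neg, norm_real, Real.norm_eq_abs, abs_of_pos (hr.trans hy)]
    exact ⟨by rwa [this], by rwa [this]⟩
  refine ⟨_, R, v, fun κ' => ⟨fun h => h7 r A B x _ _ hr hx hx1 hA a.B0 d1 d2 c2 h.1 k1 h.2 k2,
    fun h => h ▸ ⟨k1, k2⟩⟩, jp, ?_, a.xR, a.R1, rfl, a.harm, a.zero, fun z hz => ?_,
    fun u => ⟨fun h => a3 u h.1 h.2, fun h => ⟨a1.congr h, (h _ m0).trans a2⟩⟩⟩
  · rw [← a2, f3 x₀ ⟨hy, hy1⟩, mul_div_right_comm, q]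
  · rw [q, ← ofReal_pow, Real.sq_sqrt b0.le]
    exact (e1 z hz).1

end Pool.Agent.P.MP_3bd355_an
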