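import Pool.Agent.P.MP_3bd355_an.Stmts

/-! The variational inequality at the evaluation point. -/

open Set Filter Metric Complex InnerProductSpace
open scoped Topology ComplexConjugate Real

namespace Pool.Agent.P.MP_3bd355_an

namespace VarBP

/-- The first order expansion. -/
theorem first_order {v D : ℂ → ℝ} {z₀ X : ℂ} {C : ℝ} (hC : 0 ≤ C) (hv : DifferentiableAt ℝ v z₀)
    (hD : ContinuousAt D z₀) (h : ∀ η > 0, ∀ᶠ ε : ℝ in 𝓝[>] 0, ∃ y : ℂ,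
      ‖y - (z₀ - ε * X)‖ ≤ C * ε ^ 2 ∧ v y + ε * D y - C * ε ^ 2 - ε * η ≤ v z₀) :
    D z₀ ≤ fderiv ℝ v z₀ X := by
  set Lm := fderiv ℝ v z₀ with hL
  have key : ∀ η > 0, D z₀ ≤ Lm X + η * (3 + (‖X‖ + C)) := by
    intro η hη
    have e1 : ∀ᶠ y in 𝓝 z₀, ‖v y - v z₀ - Lm (y - z₀)‖ ≤ η * ‖y - z₀‖ :=
      hv.hasFDerivAt.isLittleO.def hη
    have e2 : ∀ᶠ y in 𝓝 z₀, D z₀ - η < D y := hD.eventually (lt_mem_nhds (by linarith))
    obtain ⟨s, hs, e3⟩ := Metric.eventually_nhds_iff.1 (e1.and e2)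
    have small : ∀ a b : ℝ, 0 < b → ∀ᶠ ε : ℝ in 𝓝[>] 0, ε * a < b := fun a b hb =>
      nhdsWithin_le_nhds (ContinuousAt.eventually_lt (f := fun ε : ℝ => ε * a) (by fun_prop)
        continuousAt_const (by simpa using hb))
    obtain ⟨ε, ⟨y, y1, y2⟩, ⟨s1, s2, s3⟩, hε⟩ := ((h η hη).and (((small 1 1 one_pos).and
      ((small (‖X‖ + C) s hs).and (small (C * (1 + ‖Lm‖)) η hη))).and
        self_mem_nhdsWithin)).exists
    have hε0 : 0 < ε := hε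
    have n1 : ‖(ε : ℂ) * X‖ = ε * ‖X‖ := by simp [abs_of_pos hε0]
    have n2 : ‖y - z₀‖ ≤ ε * (‖X‖ + C) := by
      have : y - z₀ = (y - (z₀ - ε * X)) - ε * X := by ring
      rw [this]
      refine (norm_sub_le _ _).trans ?_
      rw [n1]
      nlinarith [mul_nonneg hC hε0.le]
    obtain ⟨a1, a2⟩ := e3 (y := y) (by rw [dist_eq_norm]; linarith)
    have a3 : Lm (y - z₀) = Lm (y - (z₀ - ε * X)) - ε * Lm X := by
      have : y - z₀ = (y - (z₀ - ε * X)) - ε • X := by simp; ring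
      rw [this, map_sub, map_smul, smul_eq_mul]
    have a4 : ‖Lm (y - (z₀ - ε * X))‖ ≤ ‖Lm‖ * (C * ε ^ 2) :=
      (Lm.le_opNorm _).trans (mul_le_mul_of_nonneg_left y1 (norm_nonneg _))
    rw [Real.norm_eq_abs, abs_le] at a1 a4
    have a5 : η * ‖y - z₀‖ ≤ η * (ε * (‖X‖ + C)) := mul_le_mul_of_nonneg_left n2 hη.le
    have a6 : ε * (ε * (C * (1 + ‖Lm‖))) ≤ ε * η := mul_le_mul_of_nonneg_left s3.le hε0.le
    have a7 : ε * (D z₀ - η) ≤ ε * D y := mul_le_mul_of_nonneg_left a2.le hε0.le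
    refine le_of_mul_le_mul_left ?_ hε0
    nlinarith [a1.1, a4.1]
  refine le_of_forall_pos_le_add fun t ht => ?_
  have hp : 0 < 3 + (‖X‖ + C) := by positivity
  have := key (t / (3 + (‖X‖ + C))) (by positivity)
  rwa [div_mul_cancel₀ _ hp.ne'] at this

theorem harm_re {f : ℂ → ℂ} {z : ℂ} (hf : AnalyticAt ℂ f z) : HarmonicAt (fun y => (f y).re) z :=
  hf.harmonicAt_re

theorem harm_dp {W : Set ℂ} {H : ℂ → ℂ → ℝ} (hG : Grn W H) {ζ z : ℂ} (hζ : ζ ∈ W) (hz : z ∈ W)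
    (hne : z ≠ ζ) (β : ℂ) : HarmonicAt (dp H β ζ) z :=
  (hG.dharm ζ hζ β z hz).add (harm_re (f := fun y => β / (y - ζ))
    (analyticAt_const.div (analyticAt_id.sub analyticAt_const) (sub_ne_zero.2 hne)))

theorem harm_DD {W : Set ℂ} {H : ℂ → ℂ → ℝ} (hG : Grn W H) (v : ℂ → ℝ) {Z : Finset ℂ}
    (hZ : ∀ ζ ∈ Z, ζ ∈ W) (a : ℂ → ℂ) {z : ℂ} (hz : z ∈ W) (hzZ : z ∉ Z) :
    HarmonicAt (DD H v Z a) z :=
  (harm_sum Z fun ζ hζ => harm_dp hG (hZ ζ hζ) hz (fun h => hzZ (h ▸ hζ)) _).neg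

theorem harm_ind {W : Set ℂ} (hW : IsOpen W) {f : ℂ → ℝ} {z : ℂ} (hz : z ∈ W)
    (hf : HarmonicAt f z) : HarmonicAt (W.indicator f) z :=
  (harmonicAt_congr_nhds ((hW.eventually_mem hz).mono fun _ hy =>
    (indicator_of_mem hy f).symm)).1 hf

theorem DD_zero {W : Set ℂ} (hW : IsOpen W) {H : ℂ → ℂ → ℝ} (hG : Grn W H) (v : ℂ → ℝ)
    {Z : Finset ℂ} (hZ : ∀ ζ ∈ Z, ζ ∈ W) (a : ℂ → ℂ) {p : ℂ} (hp : p ∉ W) :
    Tendsto (W.indicator (DD H v Z a)) (𝓝 p) (𝓝 0) := by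
  have h1 : Tendsto (DD H v Z a) (𝓝[W] p) (𝓝 0) := by
    by_cases hc : p ∈ closure W
    · have := (tendsto_finsetSum Z fun ζ hζ => hG.dbd ζ (hZ ζ hζ) (2 * a ζ * ζ ^ 2 * grad v ζ) p
        ⟨hc, by rwa [hW.interior_eq]⟩).neg
      rw [Finset.sum_const_zero, neg_zero] at this
      exact this
    · rw [mem_closure_iff_nhdsWithin_neBot, not_neBot] at hc
      rw [hc]; exact tendsto_bot
  rw [← nhdsWithin_univ, ← union_compl_self W, nhdsWithin_union, tendsto_sup]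
  exact ⟨h1.congr' (eventually_nhdsWithin_of_forall fun z hz => (indicator_of_mem hz _).symm),
    tendsto_const_nhds.congr' (eventually_nhdsWithin_of_forall fun z hz =>
      (indicator_of_notMem hz _).symm)⟩

/-- The poles of the dipole correction match those of the vector field. -/
theorem pole_match {r : ℝ} (h0 : 0 < r) (h1 : r < 1) {W : Set ℂ} (hW : IsOpen W)
    (hWa : W ⊆ ann r) {H : ℂ → ℂ → ℝ} (hG : Grn W H) {v : ℂ → ℝ} (hv : HarmonicOnNhd v W)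
    {Z : Finset ℂ} (hZ : ∀ ζ ∈ Z, ζ ∈ W) (a : ℂ → ℂ) (c₀ : ℝ) {ζ : ℂ} (hζ : ζ ∈ Z) :
    ∃ R : ℂ → ℝ, HarmonicAt R ζ ∧ ∀ᶠ z in 𝓝[≠] ζ,
      W.indicator (DD H v Z a) z - (grad v z * z * rho r Z a c₀ z).re = R z := by
  classical
  obtain ⟨R₁, a1, e1⟩ := rho_pole h0 h1 (fun ζ hζ => hWa (hZ ζ hζ)) a c₀ hζ
  have ag := grad_analytic (hv ζ (hZ ζ hζ))
  obtain ⟨ps, hps⟩ := ag
  have ad : AnalyticAt ℂ (dslope (grad v) ζ) ζ := ⟨_, hps.has_fpower_series_dslope_fslope⟩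
  have ag : AnalyticAt ℂ (grad v) ζ := ⟨ps, hps⟩
  refine ⟨fun z => (2 * a ζ * ζ ^ 2 * dslope (grad v) ζ z - grad v z * R₁ z).re -
    fderiv ℝ (H z) ζ (2 * a ζ * ζ ^ 2 * grad v ζ) -
    ∑ ξ ∈ Z.erase ζ, dp H (2 * a ξ * ξ ^ 2 * grad v ξ) ξ z, ?_, ?_⟩
  · exact ((harm_re ((analyticAt_const.mul ad).sub (ag.mul a1))).sub
      (hG.dharm ζ (hZ ζ hζ) _ ζ (hZ ζ hζ))).sub (harm_sum _ fun ξ hξ =>
        harm_dp hG (hZ ξ (Finset.mem_of_mem_erase hξ)) (hZ ζ hζ) (Finset.ne_of_mem_erase hξ).symm _)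
  · filter_upwards [e1, nhdsWithin_le_nhds (hW.eventually_mem (hZ ζ hζ)), self_mem_nhdsWithin]
      with z e hz hne
    have hne' : z ≠ ζ := hne
    have hs : z - ζ ≠ 0 := sub_ne_zero.2 hne'
    rw [indicator_of_mem hz, DD, ← Finset.add_sum_erase _ _ hζ, mul_assoc (grad v z), e,
      dslope_of_ne _ hne', slope_def_field, dp]
    have : 2 * a ζ * ζ ^ 2 * ((grad v z - grad v ζ) / (z - ζ)) - grad v z * R₁ z =
        -(2 * a ζ * ζ ^ 2 * grad v ζ / (z - ζ)) -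
          grad v z * (-2 * a ζ * ζ ^ 2 / (z - ζ) + R₁ z) := by
      field_simp; ring
    rw [this, sub_re, neg_re]; ring

/-- The perturbed function is almost nonpositive on the connecting continuum. -/
theorem le_on {W K : Set ℂ} (hK : IsCompact K) {v D : ℂ → ℝ}
    (hoff : ∀ z, z ∉ W → v z = 0 ∧ D z = 0 ∧ Tendsto D (𝓝 z) (𝓝 0))
    (hon : ∀ z ∈ K, z ∈ W → v z < 0 ∧ ContinuousAt v z ∧ ContinuousAt D z) {η : ℝ} (hη : 0 < η) :
    ∀ᶠ ε : ℝ in 𝓝[>] 0, ∀ y ∈ K, v y + ε * D y ≤ ε * η := by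
  have : ∀ᶠ ε : ℝ in 𝓝 0, ∀ y ∈ K, 0 < ε → y ∈ K → v y + ε * D y ≤ ε * η := by
    refine hK.eventually_forall_of_forall_eventually fun y hy => ?_
    by_cases hW : y ∈ W
    · obtain ⟨a1, a2, a3⟩ := hon y hy hW
      have c : ContinuousAt (fun z : ℝ × ℂ => v z.2 + z.1 * D z.2) (0, y) :=
        (ContinuousAt.comp (g := v) a2 continuousAt_snd).add
          (continuousAt_fst.mul (ContinuousAt.comp (g := D) a3 continuousAt_snd))
      filter_upwards [c.eventually (gt_mem_nhds (show v y + 0 * D y < 0 by linarith))]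
        with z hz hε _
      linarith [mul_pos hε hη]
    · have c : ∀ᶠ z : ℝ × ℂ in 𝓝 (0, y), D z.2 < η :=
        (continuousAt_snd (p := ((0 : ℝ), y))).eventually
          ((hoff y hW).2.2.eventually (gt_mem_nhds hη))
      filter_upwards [c] with z hz hε hzK
      by_cases hzW : z.2 ∈ W
      · linarith [(hon _ hzK hzW).1, mul_lt_mul_of_pos_left hz hε]
      · rw [(hoff _ hzW).1]; linarith [mul_lt_mul_of_pos_left hz hε]
  filter_upwards [nhdsWithin_le_nhds this, self_mem_nhdsWithin] with ε h hε y hy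
  exact h y hy hε hy

/-- Boundary behaviour of the transported function. -/
theorem ls_transport {r : ℝ} (h1 : r < 1) {Z : Finset ℂ} {δ : ℝ} (hδ : 0 < δ)
    (hb : ∀ ζ ∈ Z, closedBall ζ (2 * δ) ⊆ ann r) {Θ : ℂ → ℂ}
    (hΘ : ∀ z ∈ Rg r Z δ, ContinuousAt Θ z ∧ Θ z ∈ Rg r Z (δ / 2) ∧
      (‖Θ z‖ = r ↔ ‖z‖ = r) ∧ (‖Θ z‖ = 1 ↔ ‖z‖ = 1))
    {f w : ℂ → ℝ} (hw : ∀ z ∈ Rg r Z δ, z ∈ ann r → w z ≤ f (Θ z)) {p : ℂ}
    (hp : ‖p‖ = r ∨ ‖p‖ = 1) :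
    p ∈ Rg r Z δ ∧ ∀ c, LS f (ann r) (Θ p) c → LS w (ann r) p c := by
  have hd : ∀ ζ ∈ Z, δ < dist p ζ := fun ζ hζ => by
    by_contra hc
    have := hb ζ hζ (show p ∈ closedBall ζ (2 * δ) by rw [mem_closedBall]; linarith)
    rcases hp with hp | hp
    · exact absurd this.1 (by rw [hp]; exact lt_irrefl _)
    · exact absurd this.2 (by rw [hp]; exact lt_irrefl _)
  have hpR : p ∈ Rg r Z δ :=
    ⟨by rcases hp with hp | hp <;> constructor <;> linarith, fun ζ hζ => (hd ζ hζ).le⟩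
  have ev : ∀ᶠ z in 𝓝[ann r] p, z ∈ Rg r Z δ ∧ z ∈ ann r := by
    have : ∀ᶠ z in 𝓝 p, ∀ ζ ∈ Z, δ < dist z ζ := (eventually_all_finset Z).2 fun ζ hζ =>
      (show ContinuousAt (fun z => dist z ζ) p by fun_prop).eventually (lt_mem_nhds (hd ζ hζ))
    filter_upwards [nhdsWithin_le_nhds this, self_mem_nhdsWithin] with z h hz
    exact ⟨⟨ann_sub_cann r hz, fun ζ hζ => (h ζ hζ).le⟩, hz⟩
  refine ⟨hpR, fun c hc => (hc.comp (f := Θ) ?_).of_le (ev.mono fun z hz => hw z hz.1 hz.2)⟩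
  refine tendsto_nhdsWithin_iff.2 ⟨(hΘ p hpR).1.tendsto.mono_left nhdsWithin_le_nhds,
    ev.mono fun z hz => ?_⟩
  obtain ⟨-, b1, b2, b3⟩ := hΘ z hz.1
  exact ⟨lt_of_le_of_ne b1.1.1 fun h => hz.2.1.ne' (b2.1 h.symm),
    lt_of_le_of_ne b1.1.2 fun h => hz.2.2.ne (b3.1 h)⟩

theorem exists_gap {Z : Finset ℂ} {T : Set ℂ} (hT : IsClosed T) (h : ∀ ζ ∈ Z, ζ ∉ T) :
    ∃ δ₀ > 0, ∀ y ∈ T, ∀ ζ ∈ Z, 2 * δ₀ ≤ dist y ζ := by
  have : ∀ᶠ δ : ℝ in 𝓝[>] 0, ∀ ζ ∈ Z, ∀ y ∈ T, 2 * δ ≤ dist y ζ :=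
    (eventually_all_finset Z).2 fun ζ hζ => by
      obtain ⟨s, hs, hb⟩ := Metric.isOpen_iff.1 hT.isOpen_compl ζ (h ζ hζ)
      filter_upwards [Ioo_mem_nhdsGT (show (0 : ℝ) < s / 2 by linarith)] with δ hδ y hy
      by_contra hc
      exact hb (show y ∈ ball ζ s by rw [mem_ball]; linarith [hδ.2]) hy
  obtain ⟨δ, h1, h2⟩ := (this.and self_mem_nhdsWithin).exists
  exact ⟨δ, h2, fun y hy ζ hζ => h1 ζ hζ y hy⟩

end VarBP

open VarBP in
theorem varb (h : S_VARG) : S_VARB := by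
  intro r A B z₀ z₁ m L K v H Z a c₀ hE hK hG hZ ha hρ1 hP
  have hL := hE.cfg.cont
  have h0 := hL.r0
  have h1 := hL.r1
  have hS := hE.cfg.sol
  have hW := hL.isOpen_main
  have hWa : main r L ⊆ ann r := fun z hz => (main_sub r L hz).1
  have hZW : ∀ ζ ∈ Z, ζ ∈ main r L := fun ζ hζ => (hZ ζ hζ).1
  have hZa : ∀ ζ ∈ Z, ζ ∈ ann r := fun ζ hζ => hWa (hZW ζ hζ)
  have gc := SC.gc hE.cfg hK
  have m0 := hE.mem0
  set D := (main r L).indicator (DD H v Z a) with hD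
  set ρ := rho r Z a c₀ with hρ
  have hDh : ∀ z ∈ main r L, z ∉ Z → HarmonicAt D z := fun z hz hzZ =>
    harm_ind hW hz (harm_DD hG v hZW a hz hzZ)
  have hD0 : ∀ p, p ∉ main r L → Tendsto D (𝓝 p) (𝓝 0) := fun p hp => DD_zero hW hG v hZW a hp
  obtain ⟨O, hO, hcO, hρa⟩ := rho_analytic h0 h1 hZa a c₀
  have hre : ∀ z : ℂ, ‖z‖ = r ∨ ‖z‖ = 1 → (ρ z).re = 0 := fun z hz => rho_re h0 hZa ha c₀ hz
  obtain ⟨δ₀, hδ₀, hgap⟩ := exists_gap (Z := Z) (T := K ∪ {z₀})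
    (hK.cpt.isClosed.union isClosed_singleton)
    (fun ζ hζ hc => hc.elim (hZ ζ hζ).2.1 (hZ ζ hζ).2.2)
  obtain ⟨δ, C, ε₀, hδ, hδδ, hC, hε₀, hb, hvar⟩ := h r Z ρ O v D δ₀ h0 h1 hO hcO hρa hre hδ₀
    (fun ζ hζ => ⟨hZa ζ hζ, hS.harm ζ (hZW ζ hζ), by
      have e1 : ∀ᶠ z in 𝓝[≠] ζ, ∀ ξ ∈ Z, z ≠ ξ := (eventually_all_finset Z).2 fun ξ _ => by
        by_cases e : ξ = ζ
        · rw [e]; exact self_mem_nhdsWithin
        · exact nhdsWithin_le_nhds (eventually_ne_nhds (Ne.symm e))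
      filter_upwards [e1, nhdsWithin_le_nhds (hW.eventually_mem (hZW ζ hζ))] with z e hz
      exact hDh z hz fun hc => e z hc rfl,
      pole_match h0 h1 hW hWa hG hS.harm hZW a c₀ hζ⟩)
    (by
      obtain ⟨ε₁, hε₁, hP⟩ := hP
      refine ⟨ε₁, hε₁, fun ε hε => (sub_of_pos hL (f := fun z => v z + ε * D z)
        Z.finite_toSet.isClosed
        (fun z hz => (hS.harm z hz.1).add (harm_const_mul (hDh z hz.1 hz.2) ε))
        (fun z hz => by rw [hS.off z hz, hD, indicator_of_notMem hz]; ring)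
        (fun p hp hpa => ?_) (fun p hp => ?_)).1⟩
      · have a1 := hS.atL p hp fun hc => hpa.1.ne' (hL.closure_Ex hc).1
        have a2 := ((hD0 p fun hc => (main_sub r L hc).2 hp).mono_left
          (nhdsWithin_le_nhds (s := main r L))).const_mul ε
        simpa using a1.add a2
      · filter_upwards [hP ε hε p hp, self_mem_nhdsWithin] with z h2 hz
        rwa [hD, indicator_of_mem hz])
  have hKR : ∀ y ∈ K, y ∈ Rg r Z (2 * δ) := fun y hy =>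
    ⟨hK.sub hy, fun ζ hζ => by linarith [hgap y (Or.inl hy) ζ hζ]⟩
  have hKZ : ∀ y ∈ K, y ∉ Z := fun y hy hc => (hZ y hc).2.1 hy
  have h0Z : z₀ ∉ Z := fun hc => (hZ z₀ hc).2.2 rfl
  have h0R : z₀ ∈ Rg r Z δ :=
    ⟨ann_sub_cann r (hWa m0), fun ζ hζ => by linarith [hgap z₀ (Or.inr rfl) ζ hζ]⟩
  have key := first_order (v := v) (D := D) (z₀ := z₀) (X := z₀ * ρ z₀) hC
    (harm_diff (hS.harm z₀ m0)) (harm_diff (hDh z₀ m0 h0Z)).continuousAt fun η hη => ?_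
  · rwa [fderiv_eq_grad, hD, indicator_of_mem m0, ← mul_assoc] at key
  have hle := le_on (W := main r L) hK.cpt (v := v) (D := D)
    (fun z hz => ⟨hS.off z hz, indicator_of_notMem hz _, hD0 z hz⟩)
    (fun z hz hzW => ⟨(hK.neg z hz (main_sub r L hzW).2).resolve_left (hWa hzW).2.ne,
      (harm_diff (hS.harm z hzW)).continuousAt,
      (harm_diff (hDh z hzW (hKZ z hz))).continuousAt⟩) hη
  filter_upwards [hle, Ioo_mem_nhdsGT hε₀] with ε hle hε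
  obtain ⟨Θ, w, hw, hΘ, hΨ, hvw⟩ := hvar ε hε
  have hεη : 0 < ε * η := mul_pos hε.1 hη
  have tr := fun (p : ℂ) (hp : ‖p‖ = r ∨ ‖p‖ = 1) => ls_transport h1 hδ hb
    (fun z hz => ⟨(hΘ z hz).1, (hΘ z hz).2.1, (hΘ z hz).2.2.1, (hΘ z hz).2.2.2.1⟩)
    (f := fun z => v z + ε * D z) (w := fun z => w z - ε * η)
    (fun z hz hza => by linarith [(hvw z hz hza).2]) hp
  have lsD : ∀ (q : ℂ) (c : ℝ), ‖q‖ = r ∨ ‖q‖ = 1 → LS v (ann r) q c →
      LS (fun z => v z + ε * D z) (ann r) q c := fun q c hq hc => by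
    have a1 : q ∉ main r L := fun hm => by
      rcases hq with hq | hq
      · exact (hWa hm).1.ne' hq
      · exact (hWa hm).2.ne hq
    have a2 := ((hD0 q a1).mono_left (nhdsWithin_le_nhds (s := ann r))).const_mul ε
    exact (hc.add (LS.of_tendsto a2 le_rfl)).le (by simp)
  have cΨ : ContinuousOn (fun y => y * exp (ε * ρ y)) K := fun y hy =>
    (continuousAt_id.mul (continuous_exp.continuousAt.comp (continuousAt_const.mul
      (hρa y (hcO (hK.sub hy)) (hKZ y hy)).continuousAt))).continuousWithinAt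
  have hgc : GC r A B z₁ ((fun y => y * exp (ε * ρ y)) '' K) fun z => w z - ε * η := by
    refine ⟨hK.cpt.image_of_continuousOn cΨ, hK.conn.image _ cΨ, ?_, ⟨z₁, gc.mem, by simp [hρ1]⟩,
      ?_, hw.sub_harm (g := fun _ => ε * η) fun z _ => harmonicAt_const _, ?_, fun p hp => ?_,
      fun p hp => ?_, ?_⟩
    · rintro _ ⟨y, hy, rfl⟩
      exact (hΨ y (hKR y hy)).1.1
    · obtain ⟨p, hp, hp1⟩ := hK.out
      refine ⟨_, ⟨p, hp, rfl⟩, ?_⟩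
      simp [norm_exp, hp1, hre p (Or.inr hp1)]
    · rintro _ ⟨y, hy, rfl⟩ hz
      have a1 := (hvw _ (hΨ y (hKR y hy)).1 hz).2
      rw [(hΨ y (hKR y hy)).2] at a1
      linarith [hle y hy]
    · obtain ⟨a1, a2⟩ := tr p (Or.inr hp)
      have a3 := (hΘ p a1).2.2.2.1.2 hp
      exact a2 A (lsD _ _ (Or.inr a3) (gc.outer _ a3))
    · obtain ⟨a1, a2⟩ := tr p (Or.inl hp)
      have a3 := (hΘ p a1).2.2.1.2 hp
      exact a2 B (lsD _ _ (Or.inl a3) (gc.inner _ a3))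
    · obtain ⟨S, hSf, hSh⟩ := gc.hug
      refine ⟨_, hSf.image fun y => y * exp (ε * ρ y), ?_⟩
      rintro _ ⟨y, hy, rfl⟩ hp hS'
      obtain ⟨a1, a2⟩ := tr _ (Or.inl hp)
      have a3 := (hΘ _ a1).2.2.1.2 hp
      refine a2 0 (lsD _ _ (Or.inl a3) ?_)
      rw [(hΨ y (hKR y hy)).2] at a3 ⊢
      exact hSh y hy a3 fun hc => hS' ⟨y, hc, rfl⟩
  refine ⟨Θ z₀, by rw [← mul_assoc]; exact (hΘ z₀ h0R).2.2.2.2, ?_⟩
  linarith [(hvw z₀ h0R (hWa m0)).1, hE.bound _ _ hgc, hE.ge]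

end Pool.Agent.P.MP_3bd355_an
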