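import Pool.Agent.P.MP_3bd355_an.Stmts

/-! Package Arc1: the free boundary is a simple arc. -/

open Set Filter Metric Complex InnerProductSpace
open scoped Topology ComplexConjugate Real

namespace Pool.Agent.P.MP_3bd355_an

namespace Arc1P

variable {r : ℝ} {L : Set ℂ} {φ F : ℂ → ℂ} {h s0 s1 : ℝ} {Fb : ℝ → ℂ} {G : Set ℂ}

/-- The sets that are allowed in the minimality property. -/
def Ad (r : ℝ) (L L' : Set ℂ) : Prop :=
  ∀ z ∈ L', z ∈ cann r ∧ z ∉ main r L ∧ z ∉ Ex r L ∧ z.im ≤ 0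

theorem ad_of_sub (hL : Cont r L) {L' : Set ℂ} (hs : L' ⊆ L) : Ad r L L' := fun z hz =>
  ⟨hL.sub (hs hz), fun hm => (main_sub r L hm).2 (hs hz), fun he => he.2.1 (hs hz),
    hL.low z (hs hz)⟩

theorem three' (hM : Mult r L Fb s0 s1 G) {p : ℂ} (hp : p ∉ G) {a b c : ℝ} (ha : a ∈ Ioo s0 s1)
    (hb : b ∈ Ioo s0 s1) (hc : c ∈ Ioo s0 s1) (hab : a ≠ b) (hac : a ≠ c) (hbc : b ≠ c)
    (ea : Fb a = p) (eb : Fb b = p) (ec : Fb c = p) : False := by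
  rcases hab.lt_or_gt with h1 | h1 <;> rcases hac.lt_or_gt with h2 | h2 <;>
    rcases hbc.lt_or_gt with h3 | h3
  · exact hM.three p hp a b c ha.1 h1 h3 hc.2 ea eb ec
  · exact hM.three p hp a c b ha.1 h2 h3 hb.2 ea ec eb
  · linarith
  · exact hM.three p hp c a b hc.1 h2 h1 hb.2 ec ea eb
  · exact hM.three p hp b a c hb.1 h1 h2 hc.2 eb ea ec
  · linarith
  · exact hM.three p hp b c a hb.1 h3 h2 ha.2 eb ec ea
  · exact hM.three p hp c b a hc.1 h3 h1 ha.2 ec eb ea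

/-- The complementary continuum gives a preimage outside the interval. -/
theorem outer (hU : Unif r L φ F h) (hP : Pic r L F s0 s1) (hB : Bd F Fb) {lo hi : ℝ}
    (hlo : lo ∈ Icc s0 s1) (hhi : hi ∈ Icc s0 s1) (hlL : Fb lo ∈ L)
    (hhL : Fb hi ∈ L)
    (hS : ∀ L' : Set ℂ, IsCompact L' → IsPreconnected L' → Ad r L L' → Fb lo ∈ L' → Fb hi ∈ L' →
      ∀ x ∈ Icc s0 s1, ‖Fb x‖ ≠ 1 → Fb x ∈ L') {x : ℝ} (hx : x ∈ Icc s0 s1)
    (hxa : Fb x ∈ ann r) : ∃ c ∈ Icc s0 s1, c ∉ Ioo lo hi ∧ Fb c = Fb x := by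
  have hL := hU.cont
  have hc : Continuous fun t => fold (Fb t) := continuous_fold.comp hB.cont
  have hfix : ∀ t ∈ Icc s0 s1, ‖Fb t‖ ≠ 1 → fold (Fb t) = Fb t := fun t ht h1 =>
    fold_of_nonpos (hL.low _ ((hB.mem_LA hU hP ht).2.2 h1))
  set A1 : Set ℂ := (fun t => fold (Fb t)) '' Icc s0 lo with hA1
  set A2 : Set ℂ := (fun t => fold (Fb t)) '' Icc hi s1 with hA2
  set H : Set ℂ := sphere 0 r \ Ex r L with hH
  have p1 : IsPreconnected A1 := isPreconnected_Icc.image _ hc.continuousOn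
  have p2 : IsPreconnected A2 := isPreconnected_Icc.image _ hc.continuousOn
  have m1 : fold (Fb s0) ∈ A1 := ⟨s0, ⟨le_rfl, hlo.1⟩, rfl⟩
  have m2 : fold (Fb s1) ∈ A2 := ⟨s1, ⟨hhi.2, le_rfl⟩, rfl⟩
  have hs0 : s0 ∈ Icc s0 s1 := ⟨le_rfl, hP.lt.le⟩
  have hs1 : s1 ∈ Icc s0 s1 := ⟨hP.lt.le, le_rfl⟩
  have hconn : IsPreconnected (A1 ∪ H ∪ A2) := by
    rcases hB.ends hU hP with ⟨-, e0, e1⟩ | ⟨e0, e1⟩
    · have n0 : ‖Fb s0‖ ≠ 1 := by rw [e0]; exact hL.r1.ne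
      have n1 : ‖Fb s1‖ ≠ 1 := by rw [e1]; exact hL.r1.ne
      have k0 : fold (Fb s0) ∈ H := by
        rw [hfix s0 hs0 n0]
        exact ⟨by simpa using e0, (hB.mem_LA hU hP hs0).2.1⟩
      have k1 : fold (Fb s1) ∈ H := by
        rw [hfix s1 hs1 n1]
        exact ⟨by simpa using e1, (hB.mem_LA hU hP hs1).2.1⟩
      exact IsPreconnected.union (fold (Fb s1)) (Or.inr k1) m2
        (IsPreconnected.union _ m1 k0 p1 hL.preconn_hid) p2
    · have hn : ∀ p ∈ L, ‖p‖ ≠ r := fun p hp hr => by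
        have := hP.touch.1 ⟨p, hp, hr⟩
        linarith
      have hHe : H = ∅ := by
        refine eq_empty_of_forall_notMem fun p hp => hp.2 (hL.Ex_all hn ?_)
        simpa using hp.1
      rw [hHe, union_empty]
      exact IsPreconnected.union (fold (Fb s1)) (e1 ▸ m1) m2 p1 p2
  have hcpt : IsCompact (A1 ∪ H ∪ A2) :=
    ((isCompact_Icc.image hc).union hL.compact_hid).union (isCompact_Icc.image hc)
  have hfold : ∀ t ∈ Icc s0 s1, fold (Fb t) ∈ cann r ∧ fold (Fb t) ∉ main r L ∧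
      fold (Fb t) ∉ Ex r L ∧ (fold (Fb t)).im ≤ 0 := by
    intro t ht
    by_cases h1 : ‖Fb t‖ = 1
    · have h2 : ‖fold (Fb t)‖ = 1 := by rw [norm_fold, h1]
      refine ⟨⟨by rw [h2]; exact hL.r1.le, h2.le⟩, fun hm => ?_, fun he => ?_, fold_im _⟩
      · exact (main_sub r L hm).1.2.ne h2
      · exact hL.r1.ne (he.1.symm.trans h2)
    · rw [hfix t ht h1]
      exact ad_of_sub hL (L' := L) subset_rfl _ ((hB.mem_LA hU hP ht).2.2 h1)
  have had : Ad r L (A1 ∪ H ∪ A2) := by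
    rintro z ((⟨t, ht, rfl⟩ | hz) | ⟨t, ht, rfl⟩)
    · exact hfold t ⟨ht.1, ht.2.trans hlo.2⟩
    · have hn : ‖z‖ = r := by simpa using hz.1
      refine ⟨⟨hn.ge, by rw [hn]; exact hL.r1.le⟩, fun hm => ?_, hz.2, ?_⟩
      · exact (main_sub r L hm).1.1.ne' hn
      · by_contra hi
        exact hz.2 (hL.upper_Ex hn (not_le.mp hi))
    · exact hfold t ⟨hhi.1.trans ht.1, ht.2⟩
  have k1 : Fb lo ∈ A1 ∪ H ∪ A2 :=
    Or.inl (Or.inl ⟨lo, ⟨hlo.1, le_rfl⟩, fold_of_nonpos (hL.low _ hlL)⟩)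
  have k2 : Fb hi ∈ A1 ∪ H ∪ A2 := Or.inr ⟨hi, ⟨le_rfl, hhi.2⟩, fold_of_nonpos (hL.low _ hhL)⟩
  have hfin : ∀ t ∈ Icc s0 s1, fold (Fb t) = Fb x → Fb t = Fb x := by
    intro t ht he
    have h1 : ‖Fb t‖ ≠ 1 := by
      rw [← norm_fold, he]
      exact hxa.2.ne
    rw [← hfix t ht h1, he]
  rcases hS _ hcpt hconn had k1 k2 x hx hxa.2.ne with (⟨t, ht, he⟩ | hz) | ⟨t, ht, he⟩
  · have ht' : t ∈ Icc s0 s1 := ⟨ht.1, ht.2.trans hlo.2⟩
    exact ⟨t, ht', fun hm => absurd hm.1 (not_lt.mpr ht.2), hfin t ht' he⟩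
  · have hn : ‖Fb x‖ = r := by simpa using hz.1
    exact absurd hn hxa.1.ne'
  · have ht' : t ∈ Icc s0 s1 := ⟨hhi.1.trans ht.1, ht.2⟩
    exact ⟨t, ht', fun hm => absurd hm.2 (not_lt.mpr ht.1), hfin t ht' he⟩

theorem mem_Ioo_of_ne {f : ℝ → ℂ} {a b x : ℝ} (hx : x ∈ Icc a b) (ha : f x ≠ f a)
    (hb : f x ≠ f b) : x ∈ Ioo a b :=
  ⟨lt_of_le_of_ne hx.1 fun e => ha (by rw [e]), lt_of_le_of_ne hx.2 fun e => hb (by rw [e])⟩

/-- The main step, for an ordered interval. -/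
theorem core (hU : Unif r L φ F h) (hP : Pic r L F s0 s1) (hB : Bd F Fb)
    (hM : Mult r L Fb s0 s1 G) {lo hi : ℝ} (hlo : lo ∈ Icc s0 s1) (hhi : hi ∈ Icc s0 s1)
    (hlt : lo < hi) (h1 : ∀ x ∈ Ioo lo hi, ‖Fb x‖ ≠ 1)
    (hS : ∀ L' : Set ℂ, IsCompact L' → IsPreconnected L' → Ad r L L' → Fb lo ∈ L' → Fb hi ∈ L' →
      ∀ x ∈ Icc s0 s1, ‖Fb x‖ ≠ 1 → Fb x ∈ L') :
    InjOn Fb (Icc lo hi) ∧ (∀ x ∈ Icc s0 s1, ‖Fb x‖ ≠ 1 → Fb x ∈ Fb '' Icc lo hi) ∧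
      ann r \ Fb '' Icc lo hi = main r L := by
  have hL := hU.cont
  have hsub : Icc lo hi ⊆ Icc s0 s1 := Icc_subset_Icc hlo.1 hhi.2
  have hsubo : Ioo lo hi ⊆ Ioo s0 s1 := Ioo_subset_Ioo hlo.1 hhi.2
  have hKL : ∀ x ∈ Icc lo hi, Fb x ∈ L := by
    have hcl : IsClosed (Fb ⁻¹' L) := hL.cpt.isClosed.preimage hB.cont
    have h2 : Ioo lo hi ⊆ Fb ⁻¹' L := fun x hx =>
      (hB.mem_LA hU hP (hsub (Ioo_subset_Icc_self hx))).2.2 (h1 x hx)
    have h3 := hcl.closure_subset_iff.2 h2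
    rw [closure_Ioo hlt.ne] at h3
    exact fun x hx => h3 hx
  have ml : lo ∈ Icc lo hi := ⟨le_rfl, hlt.le⟩
  have mh : hi ∈ Icc lo hi := ⟨hlt.le, le_rfl⟩
  have hcov : ∀ x ∈ Icc s0 s1, ‖Fb x‖ ≠ 1 → Fb x ∈ Fb '' Icc lo hi :=
    hS _ (isCompact_Icc.image hB.cont) (isPreconnected_Icc.image _ hB.cont.continuousOn)
      (ad_of_sub hL (by rintro _ ⟨x, hx, rfl⟩; exact hKL x hx)) ⟨lo, ml, rfl⟩ ⟨hi, mh, rfl⟩
  have hout := fun x hx hxa =>
    outer hU hP hB hlo hhi (hKL lo ml) (hKL hi mh) hS (x := x) hx hxa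
  set S : Set ℂ := G ∪ {Fb s0, Fb s1, Fb lo, Fb hi} with hSdef
  have hSfin : S.Finite := hM.fin.union (toFinite _)
  have hSn : ∀ p, p ∉ S → p ∉ G ∧ p ≠ Fb s0 ∧ p ≠ Fb s1 ∧ p ≠ Fb lo ∧ p ≠ Fb hi := by
    intro p hp
    simp only [hSdef, mem_union, mem_insert_iff, mem_singleton_iff, not_or] at hp
    exact hp
  have hclos : ∀ p : ℂ, (∀ᶠ z in 𝓝 p, z ∈ main r L ∨ z ∈ Fb '' Icc s0 s1) →
      (∀ᶠ z in 𝓝 p, z ∈ closure (main r L)) := fun p hp => by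
    filter_upwards [hp] with z hz
    rcases hz with hz | ⟨t, -, rfl⟩
    · exact subset_closure hz
    · exact frontier_subset_closure (hB.mem hU t).1
  have hcann : closure (main r L) ⊆ cann r := by
    rw [← closure_ann hL.r0 hL.r1]
    exact closure_mono fun z hz => (main_sub r L hz).1
  have hinj : ∀ a ∈ Icc lo hi, ∀ b ∈ Icc lo hi, a < b → Fb a ≠ Fb b := by
    intro a ha b hb hab he
    have hinf := hM.inf a b (hsub ha).1 hab (hsub hb).2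
    obtain ⟨p, ⟨c, hc, rfl⟩, hpS⟩ := (hinf.sdiff hSfin).nonempty
    obtain ⟨nG, n0, n1, nl, nh⟩ := hSn _ hpS
    have hco : c ∈ Ioo lo hi := ⟨ha.1.trans_lt hc.1, hc.2.trans_le hb.2⟩
    have hsh : Fb c ∈ Fb '' Icc lo a ∪ Fb '' Icc b hi := by
      refine hS _ ((isCompact_Icc.image hB.cont).union (isCompact_Icc.image hB.cont)) ?_ ?_
        (Or.inl ⟨lo, ⟨le_rfl, ha.1⟩, rfl⟩) (Or.inr ⟨hi, ⟨hb.2, le_rfl⟩, rfl⟩) c
        (Ioo_subset_Icc_self (hsubo hco)) (h1 c hco)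
      · exact IsPreconnected.union (Fb a) ⟨a, ⟨ha.1, le_rfl⟩, rfl⟩ ⟨b, ⟨le_rfl, hb.2⟩, he.symm⟩
          (isPreconnected_Icc.image _ hB.cont.continuousOn)
          (isPreconnected_Icc.image _ hB.cont.continuousOn)
      · refine ad_of_sub hL ?_
        rintro _ (⟨t, ht, rfl⟩ | ⟨t, ht, rfl⟩)
        · exact hKL t ⟨ht.1, ht.2.trans ha.2⟩
        · exact hKL t ⟨hb.1.trans ht.1, ht.2⟩
    obtain ⟨c', hc', hne, he'⟩ : ∃ c' ∈ Icc lo hi, c ≠ c' ∧ Fb c' = Fb c := by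
      rcases hsh with ⟨t, ht, e⟩ | ⟨t, ht, e⟩
      · exact ⟨t, ⟨ht.1, ht.2.trans ha.2⟩, (ht.2.trans_lt hc.1).ne', e⟩
      · exact ⟨t, ⟨hb.1.trans ht.1, ht.2⟩, (hc.2.trans_le ht.1).ne, e⟩
    have hco' : c' ∈ Ioo lo hi := mem_Ioo_of_ne hc' (he' ▸ nl) (he' ▸ nh)
    have h2 := hM.two _ nG c (hsubo hco) c' (hsubo hco') hne rfl he'
    have hann : Fb c ∈ ann r :=
      mem_ann_of_nhds hL.r0 ((hclos _ h2).mono fun z hz => hcann hz)
    obtain ⟨d, hd, hdn, hde⟩ := hout c (Ioo_subset_Icc_self (hsubo hco)) hann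
    have hdo : d ∈ Ioo s0 s1 := mem_Ioo_of_ne hd (hde ▸ n0) (hde ▸ n1)
    exact three' hM nG (hsubo hco) (hsubo hco') hdo hne (fun e => hdn (e ▸ hco))
      (fun e => hdn (e ▸ hco')) rfl he' hde
  have hfr : ∀ z ∈ ann r, z ∈ closure (main r L) → z ∉ main r L → z ∈ Fb '' Icc lo hi := by
    intro z hz hcl hn
    have hf : z ∈ frontier (main r L) := by
      rw [hL.isOpen_main.frontier_eq]
      exact ⟨hcl, hn⟩
    have hzL : z ∈ L := by
      rcases (hL.frontier_sub hf).2.2 with h2 | h2 | h2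
      · exact h2
      · exact absurd h2.1 hz.1.ne'
      · exact absurd h2 hz.2.ne
    obtain ⟨x, hx, rfl⟩ := hB.surj hU hP hcl (Or.inl hzL)
    exact hcov x hx hz.2.ne
  have hdense : Dense Sᶜ := hSfin.countable.dense_compl ℝ
  have hall : ann r ⊆ closure (main r L) := by
    have hpre : IsPreconnected (ann r \ S) :=
      preconn_diff_finite (isOpen_ann r) (preconn_ann hL.r0) hSfin
    have hcover : ann r \ S ⊆ interior (closure (main r L)) ∪ (closure (main r L))ᶜ := by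
      rintro z ⟨hz, hzS⟩
      by_cases hcl : z ∈ closure (main r L)
      swap
      · exact Or.inr hcl
      left
      rw [mem_interior_iff_mem_nhds]
      by_cases hm : z ∈ main r L
      · exact mem_of_superset (hL.isOpen_main.mem_nhds hm) subset_closure
      obtain ⟨c, hc, rfl⟩ := hfr z hz hcl hm
      obtain ⟨nG, n0, n1, nl, nh⟩ := hSn _ hzS
      have hco : c ∈ Ioo lo hi := mem_Ioo_of_ne hc nl nh
      obtain ⟨d, hd, hdn, hde⟩ := hout c (hsub hc) hz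
      have hdo : d ∈ Ioo s0 s1 := mem_Ioo_of_ne hd (hde ▸ n0) (hde ▸ n1)
      exact hclos _ (hM.two _ nG c (hsubo hco) d hdo (fun e => hdn (e ▸ hco)) rfl hde)
    have hne : ((ann r \ S) ∩ interior (closure (main r L))).Nonempty := by
      obtain ⟨z, hz, hzS⟩ := hdense.inter_open_nonempty (main r L) hL.isOpen_main
        ⟨base r, hL.upper_sub (base_mem hL.r0 hL.r1)⟩
      refine ⟨z, ⟨(main_sub r L hz).1, hzS⟩, ?_⟩
      rw [mem_interior_iff_mem_nhds]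
      exact mem_of_superset (hL.isOpen_main.mem_nhds hz) subset_closure
    have hin : ann r \ S ⊆ interior (closure (main r L)) :=
      hpre.subset_left_of_subset_union isOpen_interior isClosed_closure.isOpen_compl
        (disjoint_compl_right.mono_left interior_subset) hcover hne
    have h3 : ann r ⊆ closure (ann r ∩ Sᶜ) := hdense.open_subset_closure_inter (isOpen_ann r)
    exact h3.trans (isClosed_closure.closure_subset_iff.2 (hin.trans interior_subset))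
  refine ⟨fun a ha b hb he => ?_, hcov, ?_⟩
  · by_contra hne
    rcases Ne.lt_or_gt hne with h2 | h2
    · exact hinj a ha b hb h2 he
    · exact hinj b hb a ha h2 he.symm
  · refine Subset.antisymm ?_ fun z hz => ⟨(main_sub r L hz).1, ?_⟩
    · rintro z ⟨hz, hzK⟩
      by_contra hn
      exact hzK (hfr z hz (hall hz) hn)
    · rintro ⟨t, -, rfl⟩
      exact (hB.mem hU t).2.2.2 hz

/-- From the end point to the arc. -/
theorem arc_of (hU : Unif r L φ F h) (hP : Pic r L F s0 s1) (hB : Bd F Fb)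
    (hM : Mult r L Fb s0 s1 G) {T : Set ℂ} {y1 y0 : ℝ} (h1 : y1 ∈ Icc s0 s1)
    (h0 : y0 ∈ Icc s0 s1) (hne : y1 ≠ y0) (hT : Fb y0 ∈ T)
    (hlt : ∀ x ∈ uIcc y1 y0, x ≠ y0 → ‖Fb x‖ < 1) (hS : SHp r L Fb s0 s1 (Fb y1) T) :
    Arc r L Fb s0 s1 (Fb y1) T y1 y0 := by
  rcases hne.lt_or_gt with hl | hl
  · have hu : uIcc y1 y0 = Icc y1 y0 := uIcc_of_le hl.le
    obtain ⟨k1, k2, k3⟩ := core hU hP hB hM h1 h0 hl
      (fun x hx => (hlt x (hu ▸ Ioo_subset_Icc_self hx) hx.2.ne).ne)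
      (fun L' c1 c2 c3 c4 c5 => hS L' c1 c2 c3 c4 ⟨_, c5, hT⟩)
    exact ⟨h1, h0, hne, rfl, hT, hu ▸ k1, hlt, hu ▸ k2, hu ▸ k3⟩
  · have hu : uIcc y1 y0 = Icc y0 y1 := uIcc_of_ge hl.le
    obtain ⟨k1, k2, k3⟩ := core hU hP hB hM h0 h1 hl
      (fun x hx => (hlt x (hu ▸ Ioo_subset_Icc_self hx) hx.1.ne').ne)
      (fun L' c1 c2 c3 c4 c5 => hS L' c1 c2 c3 c5 ⟨_, c4, hT⟩)
    exact ⟨h1, h0, hne, rfl, hT, hu ▸ k1, hlt, hu ▸ k2, hu ▸ k3⟩

theorem I_mem (hL : Cont r L) : I ∈ closure (main r L) := by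
  have h1 : Tendsto (fun s : ℝ => (s : ℂ) * I) (𝓝[<] 1) (𝓝 I) := by
    have hc : Continuous fun s : ℝ => (s : ℂ) * I := by fun_prop
    have := (hc.tendsto 1).mono_left (nhdsWithin_le_nhds (s := Iio 1))
    simpa using this
  refine mem_closure_of_tendsto h1 ?_
  filter_upwards [Ioo_mem_nhdsLT hL.r1] with s hs
  have hs0 : 0 < s := hL.r0.trans hs.1
  have hn : ‖(s : ℂ) * I‖ = s := by simp [abs_of_pos hs0]
  refine hL.upper_sub ⟨⟨by rw [hn]; exact hs.1, by rw [hn]; exact hs.2⟩, ?_⟩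
  change 0 < ((s : ℂ) * I).im
  simpa using hs0

end Arc1P

open Arc1P in
theorem arc1 : S_ARC1 := by
  intro r L φ F h s0 s1 Fb G T y y1 hU hP hB hM hT h1 ha hS
  have hL := hU.cont
  rcases hT with ⟨rfl, p, hp, hp1⟩ | ⟨rfl, hy, hlt⟩
  · obtain ⟨xI, hxI, eI⟩ := hB.surj hU hP (I_mem hL) (Or.inr ⟨norm_I, p, hp, hp1⟩)
    have hc : IsCompact (uIcc y1 xI ∩ {x | ‖Fb x‖ = 1}) :=
      isCompact_uIcc.inter_right (isClosed_eq hB.cont.norm continuous_const)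
    obtain ⟨y0, ⟨m0, n0⟩, hmin⟩ := hc.exists_isMinOn
      ⟨xI, right_mem_uIcc, by simp [eI]⟩ (f := fun x => |x - y1|) (by fun_prop)
    have n0' : ‖Fb y0‖ = 1 := n0
    have hne : y1 ≠ y0 := fun e => ha.2.ne (e ▸ n0')
    refine ⟨y0, arc_of hU hP hB hM h1 (uIcc_subset_Icc h1 hxI m0) hne (by simpa using n0') ?_ hS,
      fun hn => absurd hp1 (hn p hp).ne⟩
    intro x hx hx0
    refine lt_of_le_of_ne (hB.mem hU x).2.2.1.2 fun e => hx0 ?_
    have h2 : |y0 - y1| ≤ |x - y1| :=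
      hmin (a := x) ⟨uIcc_subset_uIcc left_mem_uIcc m0 hx, e⟩
    rcases mem_uIcc.1 hx with h3 | h3
    · rw [abs_of_nonneg (by linarith [h3.1, h3.2]), abs_of_nonneg (by linarith [h3.1])] at h2
      linarith [h3.2]
    · rw [abs_of_nonpos (by linarith [h3.1, h3.2]), abs_of_nonpos (by linarith [h3.2])] at h2
      linarith [h3.1]
  · have hall : ∀ x ∈ Icc s0 s1, ‖Fb x‖ < 1 := by
      intro x hx
      rcases (hB.mem_LA hU hP hx).1 with h2 | ⟨-, p, hp, hp1⟩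
      · exact hlt _ h2
      · exact absurd hp1 (hlt p hp).ne
    have hne : y1 ≠ y := by
      rintro rfl
      have hmem : Fb y1 ∈ L := (hB.mem_LA hU hP h1).2.2 ha.2.ne
      have h2 := hS {Fb y1} isCompact_singleton isPreconnected_singleton
        (ad_of_sub hL (singleton_subset_iff.2 hmem)) rfl ⟨_, rfl, rfl⟩
      refine hM.inf s0 s1 le_rfl hP.lt le_rfl ((finite_singleton (Fb y1)).subset ?_)
      rintro _ ⟨x, hx, rfl⟩
      exact h2 x (Ioo_subset_Icc_self hx) (hall x (Ioo_subset_Icc_self hx)).ne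
    exact ⟨y, arc_of hU hP hB hM h1 hy hne rfl
      (fun x hx _ => hall x (uIcc_subset_Icc h1 hy hx)) hS, fun _ => rfl⟩

end Pool.Agent.P.MP_3bd355_an
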