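import Pool.Agent.P.MP_3bd355_an.Stmts

/-! Further properties of critical configurations. -/

open Set Filter Metric Complex InnerProductSpace
open scoped Topology ComplexConjugate Real

namespace Pool.Agent.P.MP_3bd355_an

namespace Crit2P

variable {r A B : ℝ} {z₀ z₁ a b : ℂ} {c : ℝ} {κ : ℝ → ℂ} {v g : ℂ → ℝ}

theorem closedK (h : Crit r A B z₀ z₁ a b c κ v g) : IsClosed (κ '' Icc 0 1) :=
  (isCompact_Icc.image_of_continuousOn h.cont).isClosed

theorem openW (h : Crit r A B z₀ z₁ a b c κ v g) : IsOpen (ann r \ κ '' Icc 0 1) :=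
  (isOpen_ann r).sdiff (closedK h)

theorem ne01 (h : Crit r A B z₀ z₁ a b c κ v g) : z₀ ≠ z₁ := fun e =>
  h.avoid ⟨0, left_mem_Icc.2 zero_le_one, h.start.trans e.symm⟩

theorem not_harm (hH : CH r A B z₀ z₁) (h : Crit r A B z₀ z₁ a b c κ v g) {t : ℝ}
    (ht : t ∈ Ioo (0 : ℝ) 1) (hr : r < ‖κ t‖) : ¬ HarmonicAt v (κ t) := by
  intro hv
  have h0 : t ∈ Ico (0 : ℝ) 1 := ⟨ht.1.le, ht.2⟩
  have h0' : t ∈ Icc (0 : ℝ) 1 := ⟨ht.1.le, ht.2.le⟩
  have h1 : κ t ∈ ann r := ⟨hr, (h.mem t h0).2⟩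
  have h2 : v (κ t) = 0 := h.v_zero _ h1 ⟨t, h0', rfl⟩
  have h3 : ∀ᶠ y in 𝓝 (κ t), v y = v (κ t) :=
    harm_const_of_locmin hv ((h.v_pos t h0 hr).mono fun y hy => h2 ▸ hy)
  have h4 : κ t ≠ z₀ := fun e => h.avoid ⟨t, h0', e⟩
  have h5 : κ t ≠ z₁ := fun e =>
    ht.1.ne' (h.inj h0' (left_mem_Icc.2 zero_le_one) (e.trans h.start.symm))
  have h6 : ∃ᶠ z in 𝓝 (κ t), z ∉ κ '' Icc 0 1 := by
    rw [Filter.Frequently]
    intro h7
    have : κ t ∈ interior (κ '' Icc 0 1) := mem_interior_iff_mem_nhds.2 (h7.mono fun _ => not_not.1)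
    rw [arc_interior h.cont h.inj] at this
    exact this
  have h7 : ∃ᶠ z in 𝓝 (κ t), QD r z₀ z₁ a b c z ∈ ({0} : Set ℂ) := by
    refine (h6.and_eventually (h3.eventually_nhds.and (((isOpen_ann r).eventually_mem h1).and
      (isOpen_ne.eventually_mem h4)))).mono fun z hz => ?_
    rw [← h.prod z ⟨hz.2.2.1, hz.1⟩ hz.2.2.2, grad_congr hz.2.1, grad_const, zero_mul]
    rfl
  have h8 : QD r z₀ z₁ a b c (κ t) = 0 := isClosed_singleton.mem_of_frequently_of_tendsto h7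
    (QD_analytic hH.r0 hH.r1 hH.m0 hH.m1 a b c (ann_sub_cann r h1) h4 (Or.inl h5)).continuousAt
  obtain ⟨-, ρ, h9, h10⟩ := h.traj t ht hr
  rw [h8, zero_mul, eq_comm, neg_eq_zero, ofReal_eq_zero] at h10
  exact h9.ne' h10

theorem front {W : Set ℂ} (hW : IsOpen W) {p q : ℂ} (hp : p ∈ frontier (W \ {q})) (hq : p ≠ q) :
    p ∈ frontier W := by
  rw [(hW.sdiff isClosed_singleton).frontier_eq] at hp
  rw [hW.frontier_eq]
  exact ⟨closure_mono sdiff_subset hp.1, fun h => hp.2 ⟨h, hq⟩⟩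

theorem g_bounds (hH : CH r A B z₀ z₁) (h : Crit r A B z₀ z₁ a b c κ v g) :
    ∀ z ∈ ann r \ κ '' Icc 0 1, z ≠ z₀ → 0 ≤ g z ∧ g z ≤ Real.log (2 / ‖z - z₀‖) := by
  have hW := openW h
  have hU := hW.sdiff (isClosed_singleton (x := z₀))
  have hb : Bornology.IsBounded ((ann r \ κ '' Icc 0 1) \ {z₀}) :=
    (bdd_ann r).subset (sdiff_subset.trans sdiff_subset)
  obtain ⟨H, hH1, hH2⟩ := h.g_pole
  have hle : 𝓝[(ann r \ κ '' Icc 0 1) \ {z₀}] z₀ ≤ 𝓝[≠] z₀ := nhdsWithin_mono _ fun _ hz => hz.2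
  have hH3 : Tendsto H (𝓝[≠] z₀) (𝓝 (H z₀)) :=
    (harm_diff hH1).continuousAt.tendsto.mono_left nhdsWithin_le_nhds
  have hbd : ∀ p ∈ frontier ((ann r \ κ '' Icc 0 1) \ {z₀}), p ≠ z₀ →
      Tendsto g (𝓝[(ann r \ κ '' Icc 0 1) \ {z₀}] p) (𝓝 0) := fun p hp hq =>
    (h.g_bd p (front hW hp hq)).mono_left (nhdsWithin_mono _ sdiff_subset)
  have h1 := (Sub.of_harm (u := fun z => (-1 : ℝ) * g z)
    fun z hz => harm_const_mul (h.g_harm z hz) _).mp0 hU hb (c := 0) fun p hp => by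
      by_cases hq : p = z₀
      · subst hq
        refine LS.of_eventually (Eventually.filter_mono hle ?_)
        have h2 : Tendsto (fun z => Real.log ‖z - p‖) (𝓝[≠] p) atBot :=
          Real.tendsto_log_nhdsGT_zero.comp (tendsto_norm_sub_self_nhdsNE p)
        filter_upwards [hH2, h2.eventually (eventually_le_atBot (H p - 1)),
          hH3.eventually (lt_mem_nhds (sub_one_lt (H p)))] with z h3 h4 h5
        linarith
      · exact LS.of_tendsto ((hbd p hp hq).const_mul (-1)) (by simp)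
  have hs : Sub (fun z => g z + Real.log ‖z - z₀‖) ((ann r \ κ '' Icc 0 1) \ {z₀}) :=
    (Sub.of_harm h.g_harm).add_harm fun z hz => harm_log hz.2
  have h2 : ∀ p ∈ frontier ((ann r \ κ '' Icc 0 1) \ {z₀}), p ≠ z₀ →
      LS (fun z => g z + Real.log ‖z - z₀‖) ((ann r \ κ '' Icc 0 1) \ {z₀}) p (Real.log 2) := by
    intro p hp hq
    have h3 : p ∈ cann r := closure_ann hH.r0 hH.r1 ▸
      closure_mono (sdiff_subset.trans sdiff_subset) (frontier_subset_closure hp)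
    refine LS.of_tendsto ((hbd p hp hq).add
      ((harm_diff (harm_log hq)).continuousAt.tendsto.mono_left nhdsWithin_le_nhds)) ?_
    rw [zero_add]
    exact Real.log_le_log (norm_pos_iff.2 (sub_ne_zero.2 hq))
      ((norm_sub_le _ _).trans (by linarith [h3.2, hH.m0.2]))
  have h3 := hs.mp0 hU hb (c := max (Real.log 2) (H z₀)) fun p hp => by
    by_cases hq : p = z₀
    · subst hq
      refine LS.of_tendsto (Tendsto.mono_left (hH3.congr' (hH2.mono fun z hz => ?_)) hle)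
        (le_max_right _ _)
      simp [hz]
    · exact (h2 p hp hq).le (le_max_left _ _)
  have h4 := hs.mpx hU hb ⟨_, h3⟩ (finite_singleton z₀) h2
  intro z hz hz0
  have h5 := h1 z ⟨hz, hz0⟩
  have h6 := h4 z ⟨hz, hz0⟩
  rw [Real.log_div two_ne_zero (norm_ne_zero_iff.2 (sub_ne_zero.2 hz0))]
  constructor <;> linarith

theorem a_eq (hH : CH r A B z₀ z₁) (h : Crit r A B z₀ z₁ a b c κ v g) :
    a = z₀ * grad v z₀ / 2 := by
  obtain ⟨H, hH1, hH2⟩ := h.g_pole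
  have hm : z₀ ∈ ann r \ κ '' Icc 0 1 := ⟨hH.m0, h.avoid⟩
  have h0 : z₀ ≠ 0 := norm_pos_iff.1 (hH.r0.trans hH.m0.1)
  have h1 : Tendsto (fun z => grad v z * ((z - z₀) * grad H z - 1)) (𝓝[≠] z₀)
      (𝓝 (grad v z₀ * ((z₀ - z₀) * grad H z₀ - 1))) :=
    (((grad_analytic (h.v_harm _ hm)).continuousAt.mul
      (((continuousAt_id.sub continuousAt_const).mul (grad_analytic hH1).continuousAt).sub
        continuousAt_const)).tendsto).mono_left nhdsWithin_le_nhds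
  have h2 := tendsto_nhds_unique_of_eventuallyEq h1
    (QD_pole hH.r0 hH.r1 hH.m0 hH.m1 (ne01 h) a b c) (by
      filter_upwards [(eventually_nhdsWithin_iff.1 hH2).eventually_nhds.filter_mono
        nhdsWithin_le_nhds, mem_nhdsWithin_of_mem_nhds ((openW h).mem_nhds hm),
        mem_nhdsWithin_of_mem_nhds hH1.eventually, self_mem_nhdsWithin] with z h3 h4 h5 h6
      have h7 : g =ᶠ[𝓝 z] fun y => H y - Real.log ‖y - z₀‖ := by
        filter_upwards [h3, isOpen_ne.eventually_mem h6] with y h8 h9 using h8 h9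
      rw [← h.prod z h4 h6, grad_congr h7, grad_sub (harm_diff h5) (harm_diff (harm_log h6)),
        grad_log h6]
      have : z - z₀ ≠ 0 := sub_ne_zero.2 h6
      field_simp)
  rw [sub_self, zero_mul, zero_sub, eq_div_iff h0] at h2
  linear_combination h2 / 2

theorem sign (hH : CH r A B z₀ z₁) (h : Crit r A B z₀ z₁ a b c κ v g)
    (hB : ∀ z ∈ ann r, v z ≤ B) (hn : ∀ t ∈ Icc (0 : ℝ) 1, r < ‖κ t‖) {p : ℂ} (hp : ‖p‖ = r) :
    (p ^ 2 * QD r z₀ z₁ a b c p).re ≤ 0 := by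
  set Z : ℂ → ℂ := fun η => p * exp (-I * η) with hZ
  have hd : ∀ η, HasDerivAt Z (-I * Z η) η := fun η => by
    have := (((hasDerivAt_id η).const_mul (-I)).cexp).const_mul p
    simp only [id, mul_one] at this
    refine this.congr_deriv ?_
    simp only [hZ]
    ring
  have ha : ∀ η, AnalyticAt ℂ Z η := fun η => by
    simp only [hZ]
    fun_prop
  have hN : ∀ η, ‖Z η‖ = r * Real.exp η.im := fun η => by
    simp [hZ, norm_exp, hp]
  have hN0 : ∀ t : ℝ, ‖Z t‖ = r := fun t => by simp [hN]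
  have hK : ∀ t : ℝ, Z t ∉ κ '' Icc 0 1 := fun t ⟨s, hs, e⟩ => (hn s hs).ne' (e ▸ hN0 t)
  have hev : ∀ t : ℝ, ∀ᶠ η : ℂ in 𝓝[upH] (t : ℂ), Z η ∈ (ann r \ κ '' Icc 0 1) \ {z₀} := fun t => by
    have hc := (ha t).continuousAt
    filter_upwards [self_mem_nhdsWithin,
      mem_nhdsWithin_of_mem_nhds (hc.norm.eventually (gt_mem_nhds ((hN0 t).trans_lt hH.r1))),
      mem_nhdsWithin_of_mem_nhds (hc.eventually ((closedK h).isOpen_compl.mem_nhds (hK t))),
      mem_nhdsWithin_of_mem_nhds (hc.eventually (isOpen_ne.mem_nhds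
        (show Z t ≠ z₀ from fun e => hH.m0.1.ne' (e ▸ hN0 t))))] with η h1 h2 h3 h4
    refine ⟨⟨⟨?_, h2⟩, h3⟩, h4⟩
    rw [hN]
    exact lt_mul_of_one_lt_right hH.r0 (Real.one_lt_exp_iff.2 h1)
  have ht : ∀ t : ℝ, Tendsto Z (𝓝[upH] (t : ℂ)) (𝓝[ann r \ κ '' Icc 0 1] (Z t)) := fun t =>
    tendsto_nhdsWithin_iff.2 ⟨(ha t).continuousAt.tendsto.mono_left nhdsWithin_le_nhds,
      (hev t).mono fun _ h1 => h1.1⟩
  have hf : ∀ t : ℝ, Z t ∈ frontier (ann r \ κ '' Icc 0 1) := fun t => by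
    have : (𝓝[upH] (t : ℂ)).NeBot := (tendsto_vert t).neBot
    rw [(openW h).frontier_eq]
    exact ⟨mem_closure_iff_nhdsWithin_neBot.2 (ht t).neBot, fun h1 => h1.1.1.ne' (hN0 t)⟩
  obtain ⟨Φ, h1⟩ := refAt_of_tendsto (u := fun η => B - v (Z η)) (x := 0)
    ((hev 0).mono fun η h1 => (harmonicAt_const B).sub (harm_comp (h.v_harm _ h1.1) (ha η)))
    (Eventually.of_forall fun t => by
      simpa using (((h.v_inner _ (hN0 t) (hK t)).mono_left
        (nhdsWithin_mono _ sdiff_subset)).comp (ht t)).const_sub B)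
  obtain ⟨Ψ, h2⟩ := refAt_of_tendsto (u := fun η => g (Z η)) (x := 0)
    ((hev 0).mono fun η h1 => harm_comp (h.g_harm _ h1) (ha η))
    (Eventually.of_forall fun t => (h.g_bd _ (hf t)).comp (ht t))
  have h3 := (h1.nonneg (C := 0) ((hev 0).mono fun η h3 => by
    simpa using hB _ h3.1.1)).self_of_nhds
  have h4 := (h2.nonneg (C := 0) ((hev 0).mono fun η h3 => by
    simpa using (g_bounds hH h _ h3.1 h3.2).1)).self_of_nhds
  have h5 := h1.deriv_im.self_of_nhds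
  have h6 := h2.deriv_im.self_of_nhds
  have : (𝓝[upH] ((0 : ℝ) : ℂ)).NeBot := (tendsto_vert 0).neBot
  have hc := (ha (0 : ℝ)).continuousAt
  have h7 := tendsto_nhds_unique_of_eventuallyEq (l := 𝓝[upH] ((0 : ℝ) : ℂ))
    (((hc.pow 2).mul ((QD_analytic hH.r0 hH.r1 hH.m0 hH.m1 a b c
      (p := Z (0 : ℝ)) ⟨(hN0 0).ge, (hN0 0).trans_le hH.r1.le⟩ (fun e => hH.m0.1.ne' (e ▸ hN0 0))
      (Or.inl fun e => hH.m1.1.ne' (e ▸ hN0 0))).continuousAt.comp hc)).tendsto.mono_left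
        nhdsWithin_le_nhds)
    ((h1.1.deriv.continuousAt.mul h2.1.deriv.continuousAt).neg.tendsto.mono_left
      nhdsWithin_le_nhds) (by
      filter_upwards [hev 0, h1.grad, h2.grad] with η h8 h9 h10
      have d1 := harm_diff (h.v_harm _ h8.1)
      rw [grad_sub (differentiableAt_const _) (harm_diff (harm_comp (h.v_harm _ h8.1) (ha η))),
        grad_const, grad_comp d1 (hd η).differentiableAt, (hd η).deriv] at h9
      rw [grad_comp (harm_diff (h.g_harm _ h8)) (hd η).differentiableAt, (hd η).deriv] at h10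
      have h11 := h.prod _ h8.1 h8.2
      have e1 : deriv Φ η = -(grad v (Z η) * Z η) :=
        mul_left_cancel₀ (neg_ne_zero.2 I_ne_zero) (by rw [← h9]; ring)
      have e2 : deriv Ψ η = grad g (Z η) * Z η :=
        mul_left_cancel₀ (neg_ne_zero.2 I_ne_zero) (by rw [← h10]; ring)
      simp only [Function.comp, Pi.mul_apply, Pi.pow_apply, Pi.neg_apply]
      rw [e1, e2, ← h11]
      ring)
  have h8 : Z ((0 : ℝ) : ℂ) = p := by simp [hZ]
  simp only [Function.comp, Pi.mul_apply, Pi.pow_apply, Pi.neg_apply, h8] at h7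
  rw [h7, neg_re, mul_re, h5, h6, mul_zero, sub_zero, neg_nonpos]
  exact mul_nonneg h3 h4

end Crit2P

open Crit2P in
theorem crit2 (h : S_CRIT1) : S_CRIT2 := fun r A B z₀ z₁ a b c κ v g hH hC =>
  ⟨fun _ ht hr => not_harm hH hC ht hr, g_bounds hH hC, a_eq hH hC, fun hn _ hp =>
    sign hH hC (fun z hz => ((h r A B z₀ z₁ a b c κ v g hH hC).2.1 z hz).2) hn hp⟩

end Pool.Agent.P.MP_3bd355_an
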