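import Mathlib

/-! Cauchy-Pompeiu on a large disc and the homology form of the Cauchy theorem. -/

open MeasureTheory Metric Set Real Complex Filter
open scoped Topology Manifold

namespace Pool.Agent.P.MP_3bd355_an.LogP

/-- The Cauchy-Riemann operator. -/
noncomputable def dbar (g : ℂ → ℂ) (z : ℂ) : ℂ :=
  (1 / 2 : ℂ) * (fderiv ℝ g z 1 + I * fderiv ℝ g z I)

/-- `e^{iθ}` written with cosine and sine. -/
noncomputable def ee (θ : ℝ) : ℂ := (Real.cos θ : ℂ) + (Real.sin θ : ℂ) * I

lemma continuous_ee : Continuous ee := by unfold ee; fun_prop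

lemma norm_ee (θ : ℝ) : ‖ee θ‖ = 1 := by
  have : ee θ = Complex.exp (θ * I) := by
    rw [Complex.exp_mul_I]; simp [ee]
  rw [this, Complex.norm_exp_ofReal_mul_I]

lemma hasDerivAt_ee (θ : ℝ) : HasDerivAt ee (I * ee θ) θ := by
  have h1 := (Real.hasDerivAt_cos θ).ofReal_comp
  have h2 := ((Real.hasDerivAt_sin θ).ofReal_comp).mul_const I
  have h := h1.add h2
  have e : I * ee θ = ((-Real.sin θ : ℝ) : ℂ) + (Real.cos θ : ℂ) * I := by
    simp only [ee]
    push_cast
    linear_combination (Complex.sin θ) * I_mul_I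
  rw [e]
  exact h

lemma lin_polar (D : ℂ →L[ℝ] ℂ) (θ : ℝ) :
    (1 / 2 : ℂ) * (D 1 + I * D I) / ee θ =
      (1 / 2 : ℂ) * D (ee θ) + (I / 2) * D (I * ee θ) := by
  have hne : ee θ ≠ 0 := by
    intro h; have := norm_ee θ; rw [h] at this; simp at this
  have h1 : ee θ = (Real.cos θ) • (1 : ℂ) + (Real.sin θ) • I := by simp [ee]
  have h2 : I * ee θ = (-Real.sin θ) • (1 : ℂ) + (Real.cos θ) • I := by
    simp only [ee, real_smul]
    push_cast
    linear_combination (Complex.sin θ) * I_mul_I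
  have h3 : D (ee θ) = (Real.cos θ : ℂ) * D 1 + (Real.sin θ : ℂ) * D I := by
    rw [h1, map_add, map_smul, map_smul]; simp
  have h4 : D (I * ee θ) = -(Real.sin θ : ℂ) * D 1 + (Real.cos θ : ℂ) * D I := by
    rw [h2, map_add, map_smul, map_smul]; simp
  rw [div_eq_iff hne, h3, h4]
  have h5 : (Real.cos θ : ℂ) ^ 2 + (Real.sin θ : ℂ) ^ 2 = 1 := by
    exact_mod_cast Real.cos_sq_add_sin_sq θ
  simp only [ee]
  linear_combination (-(1 / 2) * (D 1 + I * D I)) * h5 +
    ((1 / 2) * (Real.sin θ : ℂ) ^ 2 * D 1 - (1 / 2) * (Real.cos θ : ℂ) * (Real.sin θ : ℂ) * D I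
      + (1 / 2) * (Real.cos θ : ℂ) * (Real.sin θ : ℂ) * D I * 0) * I_mul_I

/-- Cauchy-Pompeiu on a large disc. -/
lemma pompeiu_disc {g : ℂ → ℂ} (hg : ContDiff ℝ 1 g) (w : ℂ) {R : ℝ} (hR : 0 < R)
    (h0 : ∀ z, R ≤ ‖z - w‖ → dbar g z = 0) :
    ∫ z, dbar g z / (z - w) = (1 / 2 : ℂ) * (∫ θ in (-π)..π, g (w + R * ee θ)) - π * g w := by
  have hd : Differentiable ℝ g := hg.differentiable one_ne_zero
  have hc : Continuous (fderiv ℝ g) := hg.continuous_fderiv one_ne_zero
  set A : ℝ × ℝ → ℂ := fun p => (1 / 2 : ℂ) * fderiv ℝ g (w + p.1 * ee p.2) (ee p.2) with hA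
  set B : ℝ × ℝ → ℂ := fun p => (I / 2) * fderiv ℝ g (w + p.1 * ee p.2) (I * ee p.2) with hB
  have cee := continuous_ee
  have cA : Continuous A := by
    refine continuous_const.mul (Continuous.clm_apply (hc.comp ?_) ?_) <;> fun_prop
  have cB : Continuous B := by
    refine continuous_const.mul (Continuous.clm_apply (hc.comp ?_) ?_) <;> fun_prop
  have hint : ∀ F : ℝ × ℝ → ℂ, Continuous F →
      IntegrableOn F (Ioo 0 R ×ˢ Ioo (-π) π) (volume.prod volume) := fun F hF =>
    (hF.continuousOn.integrableOn_compact (isCompact_Icc.prod isCompact_Icc)).mono_set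
      (prod_mono Ioo_subset_Icc_self Ioo_subset_Icc_self)
  have s1 : ∫ z, dbar g z / (z - w) = ∫ z, dbar g (w + z) / z := by
    rw [← integral_add_left_eq_self (fun z => dbar g z / (z - w)) w]
    simp
  have s2 : ∫ z, dbar g (w + z) / z = ∫ p in Ioo 0 R ×ˢ Ioo (-π) π, (A p + B p) := by
    rw [← Complex.integral_comp_polarCoord_symm, polarCoord_target]
    have e1 : ∫ p in Ioi (0 : ℝ) ×ˢ Ioo (-π) π,
        p.1 • (dbar g (w + Complex.polarCoord.symm p) / Complex.polarCoord.symm p) =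
        ∫ p in Ioo (0 : ℝ) R ×ˢ Ioo (-π) π,
        p.1 • (dbar g (w + Complex.polarCoord.symm p) / Complex.polarCoord.symm p) := by
      refine setIntegral_eq_of_subset_of_forall_sdiff_eq_zero
        (measurableSet_Ioi.prod measurableSet_Ioo) (prod_mono Ioo_subset_Ioi_self le_rfl) ?_
      rintro p ⟨⟨hp1, hp2⟩, hp3⟩
      have : R ≤ p.1 := by
        by_contra hlt
        exact hp3 ⟨⟨hp1, not_le.1 hlt⟩, hp2⟩
      rw [h0, zero_div, smul_zero]
      rw [add_sub_cancel_left, Complex.norm_polarCoord_symm]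
      exact this.trans (le_abs_self _)
    rw [e1]
    refine setIntegral_congr_fun (measurableSet_Ioo.prod measurableSet_Ioo) ?_
    rintro p ⟨hp1, -⟩
    have hp : (p.1 : ℂ) ≠ 0 := by exact_mod_cast hp1.1.ne'
    have e2 : Complex.polarCoord.symm p = p.1 * ee p.2 := by
      rw [Complex.polarCoord_symm_apply]; rfl
    simp only [hA, hB]
    rw [e2, ← lin_polar, real_smul, dbar]
    field_simp
  have s3 : ∫ p in Ioo 0 R ×ˢ Ioo (-π) π, B p = 0 := by
    rw [Measure.volume_eq_prod, setIntegral_prod _ (hint B cB)]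
    refine setIntegral_eq_zero_of_forall_eq_zero fun r hr => ?_
    have hr' : (r : ℂ) ≠ 0 := by exact_mod_cast hr.1.ne'
    have hder : ∀ θ : ℝ, HasDerivAt (fun θ : ℝ => I / (2 * r) * g (w + r * ee θ)) (B (r, θ)) θ := by
      intro θ
      have h1 : HasDerivAt (fun θ : ℝ => w + r * ee θ) (r * (I * ee θ)) θ :=
        ((hasDerivAt_ee θ).const_mul (r : ℂ)).const_add w
      have h2 := ((hd (w + r * ee θ)).hasFDerivAt.comp_hasDerivAt θ h1).const_mul (I / (2 * r))
      have e : B (r, θ) = I / (2 * r) * fderiv ℝ g (w + r * ee θ) (r * (I * ee θ)) := by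
        simp only [hB]
        rw [← real_smul (x := r) (z := I * ee θ), map_smul, real_smul]
        field_simp
      rw [e]
      exact h2
    rw [← integral_Ioc_eq_integral_Ioo, ← intervalIntegral.integral_of_le (by linarith [pi_pos]),
      intervalIntegral.integral_eq_sub_of_hasDerivAt (fun θ _ => hder θ)
        ((cB.comp (by fun_prop)).intervalIntegrable _ _)]
    simp [ee]
  have s4 : ∫ p in Ioo 0 R ×ˢ Ioo (-π) π, A p =
      (1 / 2 : ℂ) * (∫ θ in (-π)..π, g (w + R * ee θ)) - π * g w := by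
    have hI := hint A cA
    rw [IntegrableOn, ← Measure.prod_restrict] at hI
    rw [Measure.volume_eq_prod, ← Measure.prod_restrict, integral_prod_symm _ hI]
    have hin : ∀ θ : ℝ, ∫ r in Ioo 0 R, A (r, θ) =
        (1 / 2 : ℂ) * g (w + R * ee θ) - (1 / 2 : ℂ) * g w := by
      intro θ
      have hder : ∀ r : ℝ, HasDerivAt (fun r : ℝ => (1 / 2 : ℂ) * g (w + r * ee θ))
          (A (r, θ)) r := by
        intro r
        have h1 : HasDerivAt (fun r : ℝ => w + r * ee θ) (ee θ) r := by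
          simpa using (((hasDerivAt_id r).ofReal_comp).mul_const (ee θ)).const_add w
        exact ((hd (w + r * ee θ)).hasFDerivAt.comp_hasDerivAt r h1).const_mul (1 / 2 : ℂ)
      rw [← integral_Ioc_eq_integral_Ioo, ← intervalIntegral.integral_of_le hR.le,
        intervalIntegral.integral_eq_sub_of_hasDerivAt (fun r _ => hder r)
          ((cA.comp (by fun_prop)).intervalIntegrable _ _)]
      simp
    simp_rw [hin]
    have cg : Continuous g := hg.continuous
    rw [← integral_Ioc_eq_integral_Ioo, ← intervalIntegral.integral_of_le (by linarith [pi_pos]),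
      intervalIntegral.integral_sub ((by fun_prop : Continuous _).intervalIntegrable _ _)
        ((by fun_prop : Continuous _).intervalIntegrable _ _),
      intervalIntegral.integral_const_mul, intervalIntegral.integral_const]
    simp only [real_smul]
    push_cast
    ring
  have s5 : ∫ p in Ioo 0 R ×ˢ Ioo (-π) π, (A p + B p) =
      (∫ p in Ioo 0 R ×ˢ Ioo (-π) π, A p) + ∫ p in Ioo 0 R ×ˢ Ioo (-π) π, B p :=
    integral_add (hint A cA) (hint B cB)
  rw [s1, s2, s5, s3, s4, add_zero]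

lemma dbar_eq_zero {g q : ℂ → ℂ} {z : ℂ} (h : g =ᶠ[𝓝 z] q) (hq : DifferentiableAt ℂ q z) :
    dbar g z = 0 := by
  have h1 := hq.hasDerivAt.complexToReal_fderiv
  rw [dbar, h.fderiv_eq, h1.fderiv]
  simp only [smul_apply, one_apply_eq_self, smul_eq_mul]
  linear_combination (1 / 2 * deriv q z) * I_mul_I

lemma continuous_dbar {g : ℂ → ℂ} (hg : ContDiff ℝ 1 g) : Continuous (dbar g) := by
  have hc : Continuous (fderiv ℝ g) := hg.continuous_fderiv one_ne_zero
  unfold dbar
  exact continuous_const.mul ((hc.clm_apply continuous_const).add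
    (continuous_const.mul (hc.clm_apply continuous_const)))

/-- The homology form of the Cauchy theorem. -/
theorem cauchy_null {U K : Set ℂ} {q : ℂ → ℂ} {γ γ' : ℝ → ℂ} (hU : IsOpen U)
    (hq : DifferentiableOn ℂ q U) (hK : IsCompact K) (hKU : K ⊆ U) (hγ : Continuous γ)
    (hγ' : Continuous γ') (hγK : ∀ t ∈ Icc (0 : ℝ) 1, γ t ∈ K)
    (hn : ∀ a ∉ K, ∫ t in (0 : ℝ)..1, γ' t / (γ t - a) = 0) :
    ∫ t in (0 : ℝ)..1, q (γ t) * γ' t = 0 := by
  obtain ⟨L, hL, hKL, hLU⟩ := exists_compact_between hK hU hKU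
  obtain ⟨χ, h1, h0, -⟩ := exists_contMDiffMap_one_nhds_of_subset_interior (n := 1) 𝓘(ℝ, ℂ)
    hK.isClosed hKL
  have hχ : ContDiff ℝ 1 (fun z : ℂ => ((χ z : ℝ) : ℂ)) :=
    ofRealCLM.contDiff.comp χ.contMDiff.contDiff
  set g : ℂ → ℂ := fun z => ((χ z : ℝ) : ℂ) * q z with hgdef
  have hg0 : ∀ z ∉ L, g z = 0 := fun z hz => by simp [hgdef, h0 z hz]
  have hg0' : ∀ z ∉ L, g =ᶠ[𝓝 z] fun _ => 0 := fun z hz => by
    filter_upwards [hL.isClosed.isOpen_compl.mem_nhds hz] with y hy using hg0 y hy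
  have hg : ContDiff ℝ 1 g := by
    refine contDiff_iff_contDiffAt.2 fun z => ?_
    by_cases hz : z ∈ U
    · exact hχ.contDiffAt.mul
        (((hq.analyticAt (hU.mem_nhds hz)).contDiffAt (n := 1)).restrict_scalars ℝ)
    · exact contDiffAt_const.congr_of_eventuallyEq (hg0' z fun h => hz (hLU h))
  obtain ⟨V, hVo, hKV, hV⟩ := mem_nhdsSet_iff_exists.1 (h1.and (hU.mem_nhdsSet.2 hKU))
  have hgV : ∀ z ∈ V, g z = q z := fun z hz => by simp [hgdef, (hV hz).1]
  have hdV : ∀ z ∈ V, dbar g z = 0 := fun z hz =>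
    dbar_eq_zero (q := q) (by filter_upwards [hVo.mem_nhds hz] with y hy using hgV y hy)
      (hq.differentiableAt (hU.mem_nhds (hV hz).2))
  have hdL : ∀ z ∉ L, dbar g z = 0 := fun z hz =>
    dbar_eq_zero (hg0' z hz) (differentiableAt_const _)
  have hS : IsCompact (L \ V) := hL.diff hVo
  have key : ∀ w ∈ K, (π : ℂ) * q w = -∫ z in L \ V, dbar g z / (z - w) := by
    intro w hw
    obtain ⟨R, hR, hLR⟩ := hL.isBounded.subset_ball_lt 0 w
    have hout : ∀ z, R ≤ ‖z - w‖ → z ∉ L := fun z hz h => by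
      have := hLR h
      rw [mem_ball, dist_eq_norm] at this
      linarith
    have h2 := pompeiu_disc hg w hR (fun z hz => hdL z (hout z hz))
    have h3 : ∀ θ : ℝ, g (w + R * ee θ) = 0 := fun θ => hg0 _ (hout _ (by
      rw [add_sub_cancel_left, norm_mul, norm_ee, mul_one, Complex.norm_real,
        Real.norm_of_nonneg hR.le]))
    rw [setIntegral_eq_integral_of_forall_compl_eq_zero, h2, hgV w (hKV hw)]
    · simp [h3]
    · intro z hz
      by_cases hzL : z ∈ L
      · rw [hdV z (by by_contra h; exact hz ⟨hzL, h⟩), zero_div]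
      · rw [hdL z hzL, zero_div]
  have hne : ∀ t ∈ Icc (0 : ℝ) 1, ∀ z ∈ L \ V, z - γ t ≠ 0 := fun t ht z hz h =>
    hz.2 (hKV (sub_eq_zero.1 h ▸ hγK t ht))
  have cd := continuous_dbar hg
  have hint : Integrable (Function.uncurry fun (t : ℝ) (z : ℂ) => dbar g z / (z - γ t) * γ' t)
      ((volume.restrict (uIoc (0 : ℝ) 1)).prod (volume.restrict (L \ V))) := by
    rw [Measure.prod_restrict]
    have hc : ContinuousOn (Function.uncurry fun (t : ℝ) (z : ℂ) => dbar g z / (z - γ t) * γ' t)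
        (Icc (0 : ℝ) 1 ×ˢ (L \ V)) := by
      refine ContinuousOn.mul (ContinuousOn.div ?_ ?_ fun p hp => hne p.1 hp.1 p.2 hp.2) ?_
      · exact (cd.comp continuous_snd).continuousOn
      · exact (continuous_snd.sub (hγ.comp continuous_fst)).continuousOn
      · exact (hγ'.comp continuous_fst).continuousOn
    refine (hc.integrableOn_compact (isCompact_Icc.prod hS)).mono_set (prod_mono ?_ le_rfl)
    rw [uIoc_of_le zero_le_one]
    exact Ioc_subset_Icc_self
  have h4 := intervalIntegral_integral_swap hint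
  have h5 : ∫ z in L \ V, ∫ t in (0 : ℝ)..1, dbar g z / (z - γ t) * γ' t = 0 := by
    refine setIntegral_eq_zero_of_forall_eq_zero fun z hz => ?_
    have e : ∀ t : ℝ, dbar g z / (z - γ t) * γ' t = -dbar g z * (γ' t / (γ t - z)) := fun t => by
      rw [← neg_sub (γ t) z, div_neg]
      ring
    simp_rw [e]
    rw [intervalIntegral.integral_const_mul, hn z fun h => hz.2 (hKV h), mul_zero]
  have h6 : ∫ t in (0 : ℝ)..1, ∫ z in L \ V, dbar g z / (z - γ t) * γ' t =
      ∫ t in (0 : ℝ)..1, -(π : ℂ) * (q (γ t) * γ' t) := by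
    refine intervalIntegral.integral_congr fun t ht => ?_
    rw [uIcc_of_le zero_le_one] at ht
    have := key _ (hγK t ht)
    rw [integral_mul_const]
    linear_combination (γ' t) * this
  rw [h5, h6, intervalIntegral.integral_const_mul] at h4
  have hpi : -(π : ℂ) ≠ 0 := neg_ne_zero.2 (by exact_mod_cast pi_ne_zero)
  exact (mul_eq_zero.1 h4).resolve_left hpi

end Pool.Agent.P.MP_3bd355_an.LogP
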