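import Pool.Agent.P.MP_3bd355_an.Stmts
import Pool.Agent.P.MP_3bd355_an.Pk.LogA

/-! Holomorphic logarithms on open sets whose complement has no compact open piece. -/

open Set Filter Metric Complex InnerProductSpace
open scoped Topology ComplexConjugate Real

namespace Pool.Agent.P.MP_3bd355_an

namespace LogP

lemma loc_log {X : Type} [TopologicalSpace X] {L u : X → ℂ} {x : X} (hL : ContinuousAt L x)
    (he : ∀ᶠ y in 𝓝 x, exp (L y) = u y) : L =ᶠ[𝓝 x] fun y => L x + log (u y / u x) := by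
  have hx := he.self_of_nhds
  filter_upwards [he, hL.eventually (ball_mem_nhds (L x) Real.pi_pos)] with y hy hb
  rw [dist_eq_norm] at hb
  have h1 := abs_le.1 ((abs_im_le_norm (L y - L x)).trans hb.le)
  have h2 := abs_lt.1 ((abs_im_le_norm (L y - L x)).trans_lt hb)
  rw [← hy, ← hx, ← exp_sub, log_exp h2.1 h1.2]
  ring

lemma lift_integral {u u' L : ℝ → ℂ} (hu : ∀ t ∈ Icc (0 : ℝ) 1, HasDerivAt u (u' t) t)
    (hu' : ContinuousOn u' (Icc 0 1)) (hL : ContinuousOn L (Icc 0 1))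
    (he : ∀ t ∈ Icc (0 : ℝ) 1, exp (L t) = u t) :
    ∫ t in (0 : ℝ)..1, u' t / u t = L 1 - L 0 := by
  have h0 : ∀ t ∈ Icc (0 : ℝ) 1, u t ≠ 0 := fun t ht => he t ht ▸ exp_ne_zero _
  refine intervalIntegral.integral_eq_sub_of_hasDerivAt_of_le zero_le_one hL (fun t ht => ?_) ?_
  · have ht' := Ioo_subset_Icc_self ht
    have hn : Icc (0 : ℝ) 1 ∈ 𝓝 t := Icc_mem_nhds ht.1 ht.2
    have h1 := loc_log (hL.continuousAt hn) (eventually_of_mem hn he)
    have h2 : (fun y => u y / u t) t ∈ slitPlane := by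
      simp only [div_self (h0 t ht')]
      exact one_mem_slitPlane
    have h3 := (((hu t ht').div_const (u t)).clog_real h2).const_add (L t)
    rw [div_self (h0 t ht'), div_one] at h3
    exact h3.congr_of_eventuallyEq h1
  · refine ContinuousOn.intervalIntegrable ?_
    rw [uIcc_of_le zero_le_one]
    exact hu'.div (fun t ht => (hu t ht).continuousAt.continuousWithinAt) h0

lemma slit_of_lt {a b : ℂ} (h : ‖b - a‖ < ‖a‖) : b / a ∈ slitPlane := by
  have ha : a ≠ 0 := norm_pos_iff.1 ((norm_nonneg _).trans_lt h)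
  have e : b / a = 1 + (b - a) / a := by field_simp; ring
  rw [e]
  refine mem_slitPlane_of_norm_lt_one ?_
  rw [norm_div, div_lt_one (norm_pos_iff.2 ha)]
  exact h

lemma int_slit {u u' : ℝ → ℂ} (hu : ∀ t ∈ Icc (0 : ℝ) 1, HasDerivAt u (u' t) t)
    (hu' : ContinuousOn u' (Icc 0 1)) (hs : ∀ t ∈ Icc (0 : ℝ) 1, u t ∈ slitPlane)
    (hp : u 1 = u 0) : ∫ t in (0 : ℝ)..1, u' t / u t = 0 := by
  rw [lift_integral hu hu' (L := fun t => log (u t))
    (fun t ht => (hu t ht).continuousAt.continuousWithinAt.clog (hs t ht))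
    (fun t ht => exp_log (slitPlane_ne_zero (hs t ht))), hp, sub_self]

/-- `2πi` times the winding number. -/
noncomputable def wn (γ γ' : ℝ → ℂ) (a : ℂ) : ℂ := ∫ t in (0 : ℝ)..1, γ' t / (γ t - a)

variable {γ γ' : ℝ → ℂ}

lemma wn_far (hγ : ∀ t, HasDerivAt γ (γ' t) t) (hγ' : Continuous γ') (hp : γ 1 = γ 0) {a : ℂ}
    (h : ∀ t ∈ Icc (0 : ℝ) 1, ‖γ t‖ < ‖a‖) : wn γ γ' a = 0 := by
  have ha : a ≠ 0 := norm_pos_iff.1 ((norm_nonneg _).trans_lt (h 0 ⟨le_rfl, zero_le_one⟩))
  have h1 := int_slit (u := fun t => (γ t - a) / (-a)) (u' := fun t => γ' t / (-a))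
    (fun t _ => ((hγ t).sub_const a).div_const _) (by fun_prop)
    (fun t ht => slit_of_lt (by simpa using h t ht)) (by simp [hp])
  rw [wn, ← h1]
  refine intervalIntegral.integral_congr fun t _ => ?_
  exact (div_div_div_cancel_right₀ (neg_ne_zero.2 ha) _ _).symm

lemma wn_near (hγ : ∀ t, HasDerivAt γ (γ' t) t) (hγ' : Continuous γ') (hp : γ 1 = γ 0) {a b : ℂ}
    (h : ∀ t ∈ Icc (0 : ℝ) 1, ‖a - b‖ < ‖γ t - a‖) : wn γ γ' b = wn γ γ' a := by
  have hc : Continuous γ := continuous_iff_continuousAt.2 fun t => (hγ t).continuousAt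
  have ha : ∀ t ∈ Icc (0 : ℝ) 1, γ t - a ≠ 0 := fun t ht =>
    norm_pos_iff.1 ((norm_nonneg _).trans_lt (h t ht))
  have hs : ∀ t ∈ Icc (0 : ℝ) 1, (γ t - b) / (γ t - a) ∈ slitPlane := fun t ht =>
    slit_of_lt (by simpa using h t ht)
  have hb : ∀ t ∈ Icc (0 : ℝ) 1, γ t - b ≠ 0 := fun t ht h0 =>
    slitPlane_ne_zero (hs t ht) (by rw [h0, zero_div])
  have h1 := int_slit (u := fun t => (γ t - b) / (γ t - a))
    (u' := fun t => (γ' t * (γ t - a) - (γ t - b) * γ' t) / (γ t - a) ^ 2)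
    (fun t ht => ((hγ t).sub_const b).div ((hγ t).sub_const a) (ha t ht))
    (ContinuousOn.div (by fun_prop) (by fun_prop) fun t ht => pow_ne_zero 2 (ha t ht))
    hs (by simp [hp])
  have hi : ∀ c : ℂ, (∀ t ∈ Icc (0 : ℝ) 1, γ t - c ≠ 0) →
      IntervalIntegrable (fun t => γ' t / (γ t - c)) MeasureTheory.volume 0 1 := fun c h0 => by
    refine ContinuousOn.intervalIntegrable ?_
    rw [uIcc_of_le zero_le_one]
    exact ContinuousOn.div (by fun_prop) (by fun_prop) h0
  rw [← sub_eq_zero, wn, wn, ← intervalIntegral.integral_sub (hi b hb) (hi a ha), ← h1]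
  refine intervalIntegral.integral_congr fun t ht => ?_
  rw [uIcc_of_le zero_le_one] at ht
  have h2 := ha t ht
  have h3 := hb t ht
  field_simp

lemma wn_loc (hγ : ∀ t, HasDerivAt γ (γ' t) t) (hγ' : Continuous γ') (hp : γ 1 = γ 0) {a : ℂ}
    (ha : a ∉ γ '' Icc 0 1) : ∀ᶠ b in 𝓝 a, b ∉ γ '' Icc 0 1 ∧ wn γ γ' b = wn γ γ' a := by
  have hc : Continuous γ := continuous_iff_continuousAt.2 fun t => (hγ t).continuousAt
  obtain ⟨ε, hε, hb⟩ := Metric.isOpen_iff.1 (isCompact_Icc.image hc).isClosed.isOpen_compl a ha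
  filter_upwards [ball_mem_nhds a hε] with b hb'
  refine ⟨hb hb', wn_near hγ hγ' hp fun t ht => ?_⟩
  have h1 : γ t ∉ ball a ε := fun h => hb h ⟨t, ht, rfl⟩
  rw [mem_ball, dist_eq_norm, not_lt] at h1
  rw [mem_ball, dist_comm, dist_eq_norm] at hb'
  exact hb'.trans_le h1

/-- The Cauchy theorem for smooth loops. -/
lemma loop_int {U : Set ℂ} {q : ℂ → ℂ} (hU : IsOpen U) (hN : NC U) (hq : DifferentiableOn ℂ q U)
    (hγ : ∀ t, HasDerivAt γ (γ' t) t) (hγ' : Continuous γ') (hp : γ 1 = γ 0)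
    (hγU : ∀ t ∈ Icc (0 : ℝ) 1, γ t ∈ U) : ∫ t in (0 : ℝ)..1, q (γ t) * γ' t = 0 := by
  have hc : Continuous γ := continuous_iff_continuousAt.2 fun t => (hγ t).continuousAt
  have hΓ : IsCompact (γ '' Icc 0 1) := isCompact_Icc.image hc
  set K : Set ℂ := {a | a ∈ γ '' Icc 0 1 ∨ wn γ γ' a ≠ 0} with hKdef
  have hKc : IsClosed K := by
    rw [← isOpen_compl_iff, isOpen_iff_mem_nhds]
    intro a ha
    have ha' : a ∉ γ '' Icc 0 1 ∧ wn γ γ' a = 0 := by simpa [hKdef, not_or] using ha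
    filter_upwards [wn_loc hγ hγ' hp ha'.1] with b hb
    rintro (h | h)
    · exact hb.1 h
    · exact h (hb.2.trans ha'.2)
  obtain ⟨R, hR⟩ := hΓ.isBounded.subset_closedBall 0
  have hK : IsCompact K := by
    refine (isCompact_closedBall (0 : ℂ) R).of_isClosed_subset hKc ?_
    rintro a (h | h)
    · exact hR h
    · by_contra h1
      refine h (wn_far hγ hγ' hp fun t ht => ?_)
      have h2 := hR ⟨t, ht, rfl⟩
      rw [mem_closedBall_zero_iff] at h1 h2
      linarith [not_le.1 h1]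
  have hO : IsOpen {a | a ∉ γ '' Icc 0 1 ∧ wn γ γ' a ≠ 0} := by
    rw [isOpen_iff_mem_nhds]
    intro a ha
    filter_upwards [wn_loc hγ hγ' hp ha.1] with b hb
    exact ⟨hb.1, hb.2 ▸ ha.2⟩
  have hΓU : γ '' Icc 0 1 ⊆ U := by
    rintro _ ⟨t, ht, rfl⟩
    exact hγU t ht
  have hE := hN (K \ U) _ (hK.diff hU) hO (by
    ext a
    constructor
    · rintro ⟨h1 | h1, h2⟩
      · exact absurd (hΓU h1) h2
      · exact ⟨⟨fun h => h2 (hΓU h), h1⟩, h2⟩
    · rintro ⟨h1, h2⟩
      exact ⟨Or.inr h1.2, h2⟩)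
  refine cauchy_null hU hq hK (sdiff_eq_empty.1 hE) hc hγ' (fun t ht => Or.inl ⟨t, ht, rfl⟩) ?_
  intro a ha
  by_contra h
  exact ha (Or.inr h)

/-- Lifts of loops are closed. -/
lemma loop_closed {U : Set ℂ} {f : ℂ → ℂ} (hU : IsOpen U) (hN : NC U)
    (hf : DifferentiableOn ℂ f U) (h0 : ∀ z ∈ U, f z ≠ 0) {l L : ℝ → ℂ} (hl : Continuous l)
    (hL : Continuous L) (hp : l 1 = l 0) (hlU : ∀ t, l t ∈ U)
    (he : ∀ t, exp (L t) = f (l t)) : L 1 = L 0 := by
  have hW : IsOpen {p : ℂ × ℂ | p.1 ∈ U ∧ p.2 ∈ U ∧ ‖f p.2 - f p.1‖ < ‖f p.1‖} := by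
    rw [isOpen_iff_mem_nhds]
    rintro p ⟨h1, h2, h3⟩
    have c1 : ContinuousAt (fun p : ℂ × ℂ => f p.1) p :=
      (hf.continuousOn.continuousAt (hU.mem_nhds h1)).comp continuousAt_fst
    have c2 : ContinuousAt (fun p : ℂ × ℂ => f p.2) p :=
      (hf.continuousOn.continuousAt (hU.mem_nhds h2)).comp continuousAt_snd
    filter_upwards [continuousAt_fst.eventually (hU.mem_nhds h1),
      continuousAt_snd.eventually (hU.mem_nhds h2), (c2.sub c1).norm.eventually_lt c1.norm h3]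
      with y y1 y2 y3 using ⟨y1, y2, y3⟩
  obtain ⟨δ, hδ, hth⟩ := (isCompact_Icc.image (f := fun t : ℝ => (l t, l t))
    (by fun_prop)).exists_thickening_subset_open hW (by
      rintro _ ⟨t, -, rfl⟩
      exact ⟨hlU t, hlU t, by simpa using h0 _ (hlU t)⟩)
  obtain ⟨g, hg, hgl, -⟩ := hl.exists_contDiff_approx 1 (ε := fun _ => δ / 3) continuous_const
    (fun _ => by positivity)
  have hgd : Differentiable ℝ g := hg.differentiable (by simp)
  have hgc : Continuous (deriv g) := hg.continuous_deriv (by simp)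
  set γ : ℝ → ℂ := fun t => g t - t * (g 1 - g 0) with hγdef
  have hγ : ∀ t, HasDerivAt γ (deriv g t - (g 1 - g 0)) t := fun t => by
    have h1 : HasDerivAt (fun y : ℝ => (y : ℂ) * (g 1 - g 0)) (g 1 - g 0) t := by
      simpa using ((hasDerivAt_id t).ofReal_comp).mul_const (g 1 - g 0)
    exact (hgd t).hasDerivAt.sub h1
  have hγc : Continuous γ := continuous_iff_continuousAt.2 fun t => (hγ t).continuousAt
  have hγp : γ 1 = γ 0 := by simp [hγdef]
  have hcl : ∀ t ∈ Icc (0 : ℝ) 1, γ t ∈ U ∧ ‖f (γ t) - f (l t)‖ < ‖f (l t)‖ := by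
    intro t ht
    have h1 : dist (γ t) (l t) < δ := by
      have a0 := hgl 0
      have a1 := hgl 1
      have a2 := hgl t
      rw [dist_eq_norm] at a0 a1 a2 ⊢
      have e : γ t - l t = (g t - l t) - t * ((g 1 - l 1) - (g 0 - l 0)) := by
        simp only [hγdef, hp]
        ring
      have a3 : ‖(t : ℂ) * ((g 1 - l 1) - (g 0 - l 0))‖ ≤ ‖g 1 - l 1‖ + ‖g 0 - l 0‖ := by
        rw [norm_mul, Complex.norm_real, Real.norm_of_nonneg ht.1]
        exact (mul_le_of_le_one_left (norm_nonneg _) ht.2).trans (norm_sub_le _ _)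
      rw [e]
      linarith [norm_sub_le (g t - l t) (t * ((g 1 - l 1) - (g 0 - l 0)))]
    have h2 : (l t, γ t) ∈ thickening δ ((fun t : ℝ => (l t, l t)) '' Icc 0 1) := by
      refine mem_thickening_iff.2 ⟨(l t, l t), ⟨t, ht, rfl⟩, ?_⟩
      simpa [Prod.dist_eq] using h1
    exact (hth h2).2
  have hf' : DifferentiableOn ℂ (deriv f) U := hf.deriv hU
  have h1 := loop_int hU hN (hf'.div hf h0) hγ (by fun_prop) hγp fun t ht => (hcl t ht).1
  have cf : ContinuousOn (fun t => f (γ t)) (Icc 0 1) :=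
    hf.continuousOn.comp hγc.continuousOn fun t ht => (hcl t ht).1
  have cf' : ContinuousOn (fun t => deriv f (γ t)) (Icc 0 1) :=
    hf'.continuousOn.comp hγc.continuousOn fun t ht => (hcl t ht).1
  have cl : ContinuousOn (fun t => f (l t)) (Icc 0 1) :=
    hf.continuousOn.comp hl.continuousOn fun t _ => hlU t
  have h2 := lift_integral (u := fun t => f (γ t))
    (u' := fun t => deriv f (γ t) * (deriv g t - (g 1 - g 0)))
    (L := fun t => L t + log (f (γ t) / f (l t)))
    (fun t ht => (hf.differentiableAt (hU.mem_nhds (hcl t ht).1)).hasDerivAt.comp_of_eq t (hγ t) rfl)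
    (cf'.mul (by fun_prop))
    (hL.continuousOn.add ((cf.div cl fun t _ => h0 _ (hlU t)).clog
      fun t ht => slit_of_lt (hcl t ht).2))
    (fun t ht => by
      have a1 := h0 _ (hlU t)
      rw [exp_add, he, exp_log (div_ne_zero (h0 _ (hcl t ht).1) a1)]
      field_simp)
  have h3 : ∫ t in (0 : ℝ)..1, deriv f (γ t) * (deriv g t - (g 1 - g 0)) / f (γ t) = 0 := by
    rw [← h1]
    refine intervalIntegral.integral_congr fun t _ => ?_
    simp only [Pi.div_apply]
    ring
  rw [h3, hγp, hp] at h2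
  linear_combination -h2

/-- Two lifts along paths with common end points end at the same point. -/
lemma paths_end {U : Set ℂ} {f : ℂ → ℂ} (hU : IsOpen U) (hN : NC U)
    (hf : DifferentiableOn ℂ f U) (h0 : ∀ z ∈ U, f z ≠ 0) {a b A B : unitInterval → ℂ}
    (ha : Continuous a) (hb : Continuous b) (hA : Continuous A) (hB : Continuous B)
    (haU : ∀ t, a t ∈ U) (hbU : ∀ t, b t ∈ U) (e0 : a 0 = b 0) (e1 : a 1 = b 1)
    (E0 : A 0 = B 0) (heA : ∀ t, exp (A t) = f (a t)) (heB : ∀ t, exp (B t) = f (b t)) :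
    A 1 = B 1 := by
  set c : ℝ → unitInterval := projIcc 0 1 zero_le_one with hc
  have cc : Continuous c := continuous_projIcc
  have c1 : ∀ t : ℝ, 1 ≤ t → c t = 1 := fun t ht => projIcc_of_right_le _ ht
  have c0 : c 0 = 0 := projIcc_left _
  have hcase : ∀ t : ℝ, c (2 - 2 * t) = 1 ∨ c (2 * t) = 1 := fun t => by
    rcases le_total t (1 / 2) with h | h
    · exact Or.inl (c1 _ (by linarith))
    · exact Or.inr (c1 _ (by linarith))
  have h1 := loop_closed hU hN hf h0 (l := fun t => a (c (2 * t)) + b (c (2 - 2 * t)) - a 1)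
    (L := fun t => A (c (2 * t)) + B (c (2 - 2 * t)) - B 1) (by fun_prop) (by fun_prop)
    (by
      simp only [mul_one, sub_self, mul_zero, sub_zero, c0, c1 2 (by norm_num), e0, e1]
      ring)
    (fun t => by
      rcases hcase t with h | h
      · simpa [h, e1] using haU _
      · simpa [h] using hbU _)
    (fun t => by
      rcases hcase t with h | h
      · simpa [h, e1] using heA _
      · have a1 : exp (A 1) = exp (B 1) := by rw [heA, heB, e1]
        simp only [h, add_sub_cancel_left]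
        rw [exp_sub, exp_add, a1, heB (c (2 - 2 * t))]
        have := exp_ne_zero (B 1)
        field_simp)
  simp only [mul_one, sub_self, mul_zero, sub_zero, c0, c1 2 (by norm_num), E0] at h1
  linear_combination h1

lemma exists_conn {U V : Set ℂ} {f : ℂ → ℂ} (hU : IsOpen U) (hN : NC U)
    (hf : DifferentiableOn ℂ f U) (h0 : ∀ z ∈ U, f z ≠ 0) (hV : IsOpen V) (hc : IsConnected V)
    (hVU : V ⊆ U) : ∃ g : ℂ → ℂ, ContinuousOn g V ∧ ∀ z ∈ V, exp (g z) = f z := by
  classical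
  have := hV.locallyPathConnectedSpace
  have : PathConnectedSpace V :=
    isPathConnected_iff_pathConnectedSpace.1 (hV.isConnected_iff_isPathConnected.1 hc)
  obtain ⟨x₀, hx₀⟩ := hc.nonempty
  have hF : Continuous fun z : V => f z :=
    hf.continuousOn.comp_continuous continuous_subtype_val fun z => hVU z.2
  let F : C(V, {z : ℂ // z ≠ 0}) := ⟨fun z => ⟨f z, h0 _ (hVU z.2)⟩, hF.subtype_mk _⟩
  have he : (fun z : ℂ => (⟨_, z.exp_ne_zero⟩ : {z : ℂ // z ≠ 0})) (log (f x₀)) = F ⟨x₀, hx₀⟩ :=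
    Subtype.ext (exp_log (h0 _ (hVU hx₀)))
  obtain ⟨G, ⟨-, hG⟩, -⟩ := isCoveringMap_exp.isLocalHomeomorph.existsUnique_continuousMap_lifts
    F ⟨x₀, hx₀⟩ (log (f x₀)) he (fun γ hγ => by
      obtain ⟨Γ, h1, h2⟩ := isCoveringMap_exp.exists_path_lifts (F.comp γ) (log (f x₀))
        (by rw [ContinuousMap.comp_apply, hγ]; exact he.symm)
      exact ⟨Γ, h2, h1⟩)
    (fun γ γ' Γ Γ' g0 g0' G0 G0' hl hl' g1 =>
      paths_end hU hN hf h0 (a := fun t => γ t) (b := fun t => γ' t) (by fun_prop) (by fun_prop)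
        Γ.continuous Γ'.continuous (fun t => hVU (γ t).2) (fun t => hVU (γ' t).2)
        (by simp only [g0, g0']) (by simp only [g1]) (G0.trans G0'.symm)
        (fun t => congrArg Subtype.val (congrFun hl t))
        (fun t => congrArg Subtype.val (congrFun hl' t)))
  refine ⟨fun z => if hz : z ∈ V then G ⟨z, hz⟩ else 0, ?_, fun z hz => ?_⟩
  · rw [continuousOn_iff_continuous_domRestrict]
    convert G.continuous using 1
    ext z
    simp
  · simp only [hz, dif_pos]
    exact congrArg Subtype.val (congrFun hG ⟨z, hz⟩)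

end LogP

theorem log_ex : S_LOG := by
  intro U f hU hN hf h0
  have h1 : ∀ V : Set ℂ, ∃ g : ℂ → ℂ, IsOpen V → IsConnected V → V ⊆ U →
      ContinuousOn g V ∧ ∀ z ∈ V, exp (g z) = f z := by
    intro V
    by_cases h : IsOpen V ∧ IsConnected V ∧ V ⊆ U
    · obtain ⟨g, hg⟩ := LogP.exists_conn hU hN hf h0 h.1 h.2.1 h.2.2
      exact ⟨g, fun _ _ _ => hg⟩
    · exact ⟨0, fun a b c => absurd ⟨a, b, c⟩ h⟩
  choose G hG using h1
  have h2 : ∀ z ∈ U, ContinuousOn (G (connectedComponentIn U z)) (connectedComponentIn U z) ∧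
      ∀ y ∈ connectedComponentIn U z, exp (G (connectedComponentIn U z) y) = f y := fun z hz =>
    hG _ hU.connectedComponentIn (isConnected_connectedComponentIn_iff.2 hz)
      (connectedComponentIn_subset _ _)
  refine ⟨fun z => G (connectedComponentIn U z) z, fun z hz => ?_,
    fun z hz => (h2 z hz).2 z (mem_connectedComponentIn hz)⟩
  have hn : connectedComponentIn U z ∈ 𝓝 z :=
    hU.connectedComponentIn.mem_nhds (mem_connectedComponentIn hz)
  have h3 := LogP.loc_log ((h2 z hz).1.continuousAt hn) (eventually_of_mem hn (h2 z hz).2)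
  have h4 : (fun y => G (connectedComponentIn U y) y) =ᶠ[𝓝 z] G (connectedComponentIn U z) := by
    filter_upwards [hn] with y hy
    rw [← connectedComponentIn_eq hy]
  have h5 : (fun y => f y / f z) z ∈ slitPlane := by
    simp only [div_self (h0 z hz)]
    exact one_mem_slitPlane
  have h6 := (((hf.differentiableAt (hU.mem_nhds hz)).div_const (f z)).clog h5).const_add
    (G (connectedComponentIn U z) z)
  exact (h6.congr_of_eventuallyEq (h4.trans h3)).differentiableWithinAt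

end Pool.Agent.P.MP_3bd355_an
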