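import Pool.Agent.P.MP_3bd355_an.Stmts

/-! The uniform quadratic lower bound when the continuum stays away from both circles. -/

open Set Filter Metric Complex InnerProductSpace
open scoped Topology ComplexConjugate Real

namespace Pool.Agent.P.MP_3bd355_an

namespace QuadNP

/-- A fixed connected open set that contains both circles. -/
def U0 (r δ : ℝ) : Set ℂ := (ball 0 (r + δ) ∪ upH) ∪ {z | max (1 - δ) 0 < ‖z‖ ∧ ‖z‖ < 2}

theorem norm_I_mul {s : ℝ} (hs : 0 ≤ s) : ‖(I * (s : ℂ) : ℂ)‖ = s := by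
  simp [abs_of_nonneg hs]

theorem I_mul_upH {s : ℝ} (hs : 0 < s) : (I * (s : ℂ) : ℂ) ∈ upH := by
  simpa [upH] using hs

theorem isOpen_U0 (r δ : ℝ) : IsOpen (U0 r δ) :=
  (isOpen_ball.union isOpen_upH).union
    ((isOpen_lt continuous_const continuous_norm).inter
      (isOpen_lt continuous_norm continuous_const))

theorem preconn_U0 {r δ : ℝ} (h0 : 0 < r) (hδ : 0 < δ) : IsPreconnected (U0 r δ) := by
  have hup : IsPreconnected upH := (convex_halfSpace_im_gt 0).isPreconnected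
  refine IsPreconnected.union (I * ((1 : ℝ) : ℂ)) (Or.inr (I_mul_upH one_pos)) ?_ ?_
    (preconn_ann_gen (le_max_right _ _))
  · refine ⟨?_, ?_⟩
    · rw [norm_I_mul zero_le_one]
      exact max_lt (by linarith) one_pos
    · rw [norm_I_mul zero_le_one]
      exact one_lt_two
  · refine IsPreconnected.union (I * (r : ℂ)) ?_ (I_mul_upH h0)
      (convex_ball _ _).isPreconnected hup
    rw [mem_ball_zero_iff, norm_I_mul h0.le]
    linarith

theorem circ_sub {r δ : ℝ} (hδ : 0 < δ) :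
    sphere (0 : ℂ) r ∪ sphere (0 : ℂ) 1 ⊆ U0 r δ := by
  rintro z (hz | hz)
  · refine Or.inl (Or.inl ?_)
    rw [mem_sphere_zero_iff_norm] at hz
    rw [mem_ball_zero_iff, hz]
    linarith
  · rw [mem_sphere_zero_iff_norm] at hz
    refine Or.inr ⟨?_, ?_⟩
    · rw [hz]
      exact max_lt (by linarith) one_pos
    · rw [hz]
      exact one_lt_two

variable {r δ : ℝ} {L : Set ℂ}

theorem ring_sub (hL : Cont r L) {a b : ℝ} (ha : r ≤ a) (hb : b ≤ 1)
    (hd : ∀ p ∈ L, ‖p‖ ≤ a ∨ b ≤ ‖p‖) {z : ℂ} (h1 : a < ‖z‖) (h2 : ‖z‖ < b) : z ∈ main r L := by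
  have ha0 : 0 ≤ a := hL.r0.le.trans ha
  have hn : 0 < ‖z‖ := ha0.trans_lt h1
  refine sub_main (V := {y : ℂ | a < ‖y‖ ∧ ‖y‖ < b}) (preconn_ann_gen ha0) ?_
    ⟨I * ((‖z‖ : ℝ) : ℂ), ?_, hL.upper_sub ⟨?_, I_mul_upH hn⟩⟩ ⟨h1, h2⟩
  · intro y hy
    refine ⟨⟨ha.trans_lt hy.1, hy.2.trans_le hb⟩, fun hyL => ?_⟩
    rcases hd y hyL with h | h
    · exact absurd hy.1 h.not_gt
    · exact absurd hy.2 h.not_gt
  · simp only [mem_ofPred_eq, norm_I_mul hn.le]
    exact ⟨h1, h2⟩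
  · simp only [ann, mem_ofPred_eq, norm_I_mul hn.le]
    exact ⟨ha.trans_lt h1, h2.trans_le hb⟩

theorem U0_sub (hL : Cont r L) (hδ : 0 < δ) (hd : ∀ p ∈ L, r + δ ≤ ‖p‖ ∧ ‖p‖ ≤ 1 - δ) :
    U0 r δ ⊆ Om r L := by
  obtain ⟨q, hq⟩ := hL.nt.nonempty
  have hq' := hd q hq
  intro z hz
  by_cases h1 : ‖z‖ ≤ r
  · exact Or.inl (Or.inr ⟨h1, fun p hp e => by linarith [(hd p hp).1]⟩)
  by_cases h2 : 1 ≤ ‖z‖
  · exact Or.inr ⟨h2, fun p hp e => by linarith [(hd p hp).2]⟩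
  push Not at h1 h2
  refine Or.inl (Or.inl ?_)
  rcases hz with (hz | hz) | hz
  · exact ring_sub hL le_rfl (b := r + δ) (by linarith [hq'.1, hq'.2])
      (fun p hp => Or.inr (hd p hp).1) h1 (mem_ball_zero_iff.1 hz)
  · exact hL.upper_sub ⟨⟨h1, h2⟩, hz⟩
  · exact ring_sub hL (a := 1 - δ) (by linarith [hq'.1, hq'.2]) le_rfl
      (fun p hp => Or.inl (hd p hp).2) ((le_max_left _ _).trans_lt hz.1) h2

theorem YS_sub (hr : ∀ p ∈ L, ‖p‖ ≠ r) (h1 : ∀ p ∈ L, ‖p‖ ≠ 1) {p : ℂ} (hp : p ∈ YS r L) :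
    p ∈ L := by
  rcases hp with (hp | ⟨_, q, hq, e⟩) | ⟨_, q, hq, e⟩
  · exact hp
  · exact absurd e (hr q hq)
  · exact absurd e (h1 q hq)

theorem log_tendsto {φ : ℂ → ℂ} {l : Filter ℂ} (h : Tendsto (fun z => ‖φ z‖) l (𝓝 1)) :
    Tendsto (fun z => -Real.log ‖φ z‖) l (𝓝 0) := by
  have := ((Real.continuousAt_log one_ne_zero).tendsto.comp h).neg
  simpa using this

/-- The uniform data: a uniformisation whose height controls the Green function. -/
theorem data (h : S_RMO) (h0 : 0 < r) (hδ : 0 < δ) : ∃ C : ℝ, 0 < C ∧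
    ∀ L : Set ℂ, Cont r L → (∀ p ∈ L, r + δ ≤ ‖p‖ ∧ ‖p‖ ≤ 1 - δ) →
      ∃ (φ F : ℂ → ℂ) (t : ℝ), Unif r L φ F t ∧ (∀ z ∈ main r L, φ z ≠ 0) ∧
        ∀ ω : ℂ → ℝ, Sol r 1 1 L ω → ∀ z ∈ main r L, -Real.log ‖φ z‖ ≤ C * t * ω z := by
  have hK : IsCompact (sphere (0 : ℂ) r ∪ sphere (0 : ℂ) 1) :=
    (isCompact_sphere _ _).union (isCompact_sphere _ _)
  obtain ⟨C, hC, hH⟩ := harnack_unif (isOpen_U0 r δ) (preconn_U0 h0 hδ) hK (circ_sub hδ)
  refine ⟨C, hC, fun L hL hd => ?_⟩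
  obtain ⟨φ, ψ, hR⟩ := h r L hL
  have h1 : ∀ p ∈ L, ‖p‖ ≠ 1 := fun p hp e => by linarith [(hd p hp).2]
  have hne := (hR.inf h1).1
  set g : ℂ → ℝ := fun z => -Real.log ‖φ z‖ with hg
  have hgh : HarmonicOnNhd g (Om r L) := fun z hz =>
    (harm_log_norm hL.isOpen_Om hR.dφ hne z hz).neg
  have hgp : ∀ z ∈ Om r L, 0 < g z := fun z hz =>
    neg_pos.2 (Real.log_neg (norm_pos_iff.2 (hne z hz)) (hR.lt z hz))
  have hUO := U0_sub hL hδ hd
  have hKO : sphere (0 : ℂ) r ∪ sphere (0 : ℂ) 1 ⊆ Om r L := (circ_sub hδ).trans hUO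
  have hmem : ∀ p : ℂ, ‖p‖ = r ∨ ‖p‖ = 1 → p ∈ sphere (0 : ℂ) r ∪ sphere (0 : ℂ) 1 :=
    fun p hp => hp.imp mem_sphere_zero_iff_norm.2 mem_sphere_zero_iff_norm.2
  obtain ⟨y, hy, hmin⟩ := hK.exists_isMinOn ⟨1, hmem 1 (Or.inr norm_one)⟩ (f := g)
    fun z hz => (harm_diff (hgh z (hKO hz))).continuousAt.continuousWithinAt
  have ht : 0 < g y := hgp y (hKO hy)
  have hU := hR.unif hL ht fun p hp hn => by
    have : g y ≤ g p := hmin (hmem p hn)
    rw [← Real.exp_log (norm_pos_iff.2 (hne p hp))]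
    exact Real.exp_le_exp.2 (by simp only [hg] at this ⊢; linarith)
  have hMO : main r L ⊆ Om r L := fun z hz => Or.inl (Or.inl hz)
  have hgm : HarmonicOnNhd g (main r L) := fun z hz => hgh z (hMO hz)
  have hCt : 0 < C * g y := mul_pos hC ht
  have hle : ∀ z ∈ main r L, g z ≤ C * g y := by
    refine (Sub.of_harm hgm).mp0 hL.isOpen_main (bdd_main r L) fun p hp => ?_
    by_cases hY : p ∈ YS r L
    · exact LS.of_tendsto (log_tendsto (hU.bdY p hp hY)) hCt.le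
    · obtain ⟨hO, hn⟩ := hL.frontier_not_YS hp hY
      exact LS.of_tendsto
        ((harm_diff (hgh p hO)).continuousAt.tendsto.mono_left nhdsWithin_le_nhds)
        (hH g (fun z hz => hgh z (hUO hz)) (fun z hz => (hgp z (hUO hz)).le) p (hmem p hn) y hy)
  refine ⟨φ, _, g y, hU, fun z hz => hne z (hMO hz), fun ω hω z hz => ?_⟩
  have hone : ∀ z ∈ main r L, (C * g y)⁻¹ * g z ≤ 1 := fun z hz => by
    rw [inv_mul_le_iff₀ hCt, mul_one]
    exact hle z hz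
  have key := Sol.ge hL hω (w := fun z => (C * g y)⁻¹ * g z)
    (Sub.of_harm fun z hz => harm_const_mul (hgm z hz) _) ⟨1, hone⟩ finite_empty
    (fun p hp _ => ?_)
    (fun p _ _ => LS.of_eventually (eventually_nhdsWithin_of_forall hone))
    (fun p _ => LS.of_eventually (eventually_nhdsWithin_of_forall hone)) z hz
  · rwa [inv_mul_le_iff₀ hCt] at key
  · by_cases hc : p ∈ closure (main r L)
    · have hf : p ∈ frontier (main r L) :=
        ⟨hc, fun hi => (main_sub r L (interior_subset hi)).2 hp⟩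
      refine LS.of_tendsto ((log_tendsto (hU.bdY p hf (Or.inl (Or.inl hp)))).const_mul _) ?_
      simp
    · intro ε _
      rw [notMem_closure_iff_nhdsWithin_eq_bot.1 hc]
      exact eventually_bot

end QuadNP

open QuadNP in
theorem quadn (h : S_RMO) : S_QUADn := by
  intro r δ A B h0 _ hδ hA hB
  obtain ⟨C, hC, hD⟩ := data h h0 hδ
  obtain ⟨C₀, hC₀, hQ⟩ := quad_basic
  set M : ℝ := max |A| |B| with hM
  have hM0 : 0 ≤ M := (abs_nonneg A).trans (le_max_left _ _)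
  refine ⟨C ^ 2 * (16 * (-A) + C₀ * M), fun L v ω hL hd hv hω hP z hz => ?_⟩
  obtain ⟨φ, F, t, hU, hne, hg⟩ := hD L hL hd
  have ht := hU.hpos
  have hr : ∀ p ∈ L, ‖p‖ ≠ r := fun p hp e => by linarith [(hd p hp).1]
  have h1 : ∀ p ∈ L, ‖p‖ ≠ 1 := fun p hp e => by linarith [(hd p hp).2]
  have hgz := hg ω hω z hz
  have hφ : 0 < ‖φ z‖ := norm_pos_iff.2 (hne z hz)
  have hCM : 0 ≤ C₀ * M := mul_nonneg hC₀.le hM0
  by_cases hcase : t / 4 ≤ -Real.log ‖φ z‖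
  · have a1 : A ≤ v z := (Sol.bounds hL hv hA le_rfl (hA.trans hB) hB (hA.trans hB) le_rfl z).1
    have a2 : 1 / 4 ≤ C * ω z := by
      have : t * (1 / 4) ≤ t * (C * ω z) := by linarith
      exact le_of_mul_le_mul_left this ht
    have a3 : 1 ≤ 16 * (C * ω z) ^ 2 := by nlinarith
    have a4 : 0 ≤ C₀ * M * (C * ω z) ^ 2 := by positivity
    nlinarith
  · push Not at hcase
    obtain ⟨η, hη, -, hF, he⟩ := hU.onto hz (by
      rw [← Real.exp_log hφ]
      exact Real.exp_lt_exp.2 (by linarith)) 0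
    have him : η.im = -Real.log ‖φ z‖ := by rw [← he, Real.log_exp, neg_neg]
    have hsub : ball ((η.re : ℝ) : ℂ) t ∩ upH ⊆ St t := fun y hy => by
      refine ⟨hy.2, ?_⟩
      have e : (y - (η.re : ℝ)).im = y.im := by simp
      have := (le_abs_self _).trans (abs_im_le_norm (y - (η.re : ℝ)))
      rw [e] at this
      exact this.trans_lt (mem_ball_iff_norm.1 hy.1)
    obtain ⟨n, -, hn, hq⟩ := hQ (fun y => v (F y)) η.re t M ht
      (fun y hy => hU.harm (hsub hy) (hv.harm _ (hU.maps y (hsub hy))))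
      (fun y _ => Sol.abs_le hL hv _)
      (fun s _ => hU.tendsto_zero (fun p _ hY => Sol.nontouch hL hr hv (YS_sub hr h1 hY)) s)
    have hn0 : 0 ≤ n := by
      refine ge_of_tendsto hn ?_
      have := (tendsto_vert η.re).eventually
        (hU.push (P := fun y => 0 ≤ v y) (fun p _ hY => hP p (YS_sub hr h1 hY)) η.re)
      filter_upwards [this, self_mem_nhdsWithin] with τ a b
      exact div_nonneg a (le_of_lt b)
    have b1 := hq η.im hη.1 (by linarith)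
    rw [re_add_im, hF] at b1
    have b2 := (abs_le.1 b1).1
    have b3 : 0 ≤ n * η.im := mul_nonneg hn0 hη.1.le
    have b4 : η.im / t ≤ C * ω z := by
      rw [div_le_iff₀ ht]
      linarith
    have b5 : (η.im / t) ^ 2 ≤ (C * ω z) ^ 2 :=
      pow_le_pow_left₀ (div_nonneg hη.1.le ht.le) b4 2
    have b6 : C₀ * M * η.im ^ 2 / t ^ 2 = C₀ * M * (η.im / t) ^ 2 := by
      rw [div_pow, mul_div_assoc]
    have b7 := mul_le_mul_of_nonneg_left b5 hCM
    have b8 : 0 ≤ -A * (C * ω z) ^ 2 := mul_nonneg (neg_nonneg.2 hA) (sq_nonneg _)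
    nlinarith

end Pool.Agent.P.MP_3bd355_an
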